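import Pool.Agent.Helper82.AN.Defs

/-! Block AN-PTS: many separated orbit pieces. Compare `more95`, `pts` in `Helper46/QA/Conc.lean` (one more point outside of the union of `M (2 n)` balls of
radius `ρ`, each of volume at most `(2 ρ)^d`; induction over `M`). Within one orbit: `dist (θ + i α) (θ + j α) = ‖(i - j) α‖`. -/

set_option autoImplicit false
open MeasureTheory Real Set

namespace Pool.Agent.Helper82.AN

open Pool.Agent.Helper46.QP (Td)

variable {d : ℕ}

private theorem ball_le63 (x : Td d) {ρ : ℝ} (hρ : 0 < ρ) : volume (Metric.ball x ρ) ≤ ENNReal.ofReal ((2 * ρ) ^ d) := by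
  rw [ball_pi x hρ, volume_pi_pi]
  calc ∏ i, volume (Metric.ball (x i) ρ) ≤ ∏ _i : Fin d, ENNReal.ofReal (2 * ρ) := by
        refine Finset.prod_le_prod' fun i _ => ?_
        refine (measure_mono Metric.ball_subset_closedBall).trans ?_
        rw [AddCircle.volume_closedBall]
        exact ENNReal.ofReal_le_ofReal (min_le_right _ _)
    _ = ENNReal.ofReal ((2 * ρ) ^ d) := by
        rw [Finset.prod_const, Finset.card_univ, Fintype.card_fin, ENNReal.ofReal_pow (by positivity)]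

private theorem same63 {α : Td d} {ρ : ℝ} {n : ℕ} (hα : ∀ k : ℕ, 1 ≤ k → k < n → ρ ≤ ‖k • α‖) (θ : Td d)
    {i j : ℕ} (hi : i < n) (hj : j < n) (hij : i ≠ j) : ρ ≤ dist (θ + i • α) (θ + j • α) := by
  rw [dist_add_left]
  rcases lt_or_gt_of_ne hij with h | h
  · have e : dist (i • α) (j • α) = ‖(j - i) • α‖ := by
      rw [dist_comm, dist_eq_norm]
      congr 1
      rw [sub_eq_iff_eq_add, ← add_smul]
      congr 1
      omega
    rw [e]
    exact hα (j - i) (by omega) (by omega)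
  · have e : dist (i • α) (j • α) = ‖(i - j) • α‖ := by
      rw [dist_eq_norm]
      congr 1
      rw [sub_eq_iff_eq_add, ← add_smul]
      congr 1
      omega
    rw [e]
    exact hα (i - j) (by omega) (by omega)

private theorem more63 {α : Td d} {ρ : ℝ} (hρ : 0 < ρ) {n : ℕ}
    (hα : ∀ k : ℕ, 1 ≤ k → k < n → ρ ≤ ‖k • α‖) {M : ℕ} {β : Fin M → Td d} (hβ : SepR α ρ n M β)
    (h : (M : ℝ) * (2 * n * (2 * ρ) ^ d) < 1) : ∃ β' : Fin (M + 1) → Td d, SepR α ρ n (M + 1) β' := by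
  have hprob : IsProbabilityMeasure (volume : Measure (Td d)) := by
    have : IsProbabilityMeasure (volume : Measure UnitAddCircle) := ⟨by simp⟩
    change IsProbabilityMeasure (Measure.pi fun _ : Fin d => (volume : Measure UnitAddCircle))
    infer_instance
  obtain ⟨Bad, hBad⟩ : ∃ Bad : Set (Td d), Bad = ⋃ k : Fin M, ⋃ j ∈ Finset.Ioo (-(n : ℤ)) n, Metric.ball (β k + j • α) ρ := ⟨_, rfl⟩
  have hvol : volume Bad < 1 := by
    have h1 : volume Bad ≤ ∑ k : Fin M, ∑ j ∈ Finset.Ioo (-(n : ℤ)) n, ENNReal.ofReal ((2 * ρ) ^ d) := by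
      rw [hBad]
      refine (measure_iUnion_fintype_le _ _).trans (Finset.sum_le_sum fun k _ => ?_)
      refine (measure_biUnion_finset_le _ _).trans (Finset.sum_le_sum fun j _ => ?_)
      exact ball_le63 _ hρ
    refine lt_of_le_of_lt h1 ?_
    simp only [Finset.sum_const, Finset.card_univ, Fintype.card_fin, Int.card_Ioo, nsmul_eq_mul]
    have h2 : ((n : ℤ) - -(n : ℤ) - 1).toNat ≤ 2 * n := by omega
    have h3 : (M : ENNReal) * (((((n : ℤ) - -(n : ℤ) - 1).toNat : ℕ) : ENNReal) * ENNReal.ofReal ((2 * ρ) ^ d)) ≤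
        ENNReal.ofReal (M * (2 * n * (2 * ρ) ^ d)) := by
      rw [ENNReal.ofReal_mul (by positivity), ENNReal.ofReal_mul (by positivity), ENNReal.ofReal_natCast]
      gcongr
      rw [show (2 : ℝ) * n = ((2 * n : ℕ) : ℝ) by push_cast; ring, ENNReal.ofReal_natCast]
      exact_mod_cast h2
    refine lt_of_le_of_lt h3 ?_
    rw [← ENNReal.ofReal_one]
    exact (ENNReal.ofReal_lt_ofReal_iff one_pos).2 h
  obtain ⟨b, hb⟩ : ∃ b : Td d, b ∉ Bad := by
    by_contra! hcon
    have h1 : Bad = univ := eq_univ_of_forall hcon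
    rw [h1, measure_univ] at hvol
    exact lt_irrefl _ hvol
  have hsep : ∀ k : Fin M, ∀ i < n, ∀ j < n, ρ ≤ dist (b + i • α) (β k + j • α) := by
    intro k i hi j hj
    by_contra! hcon
    apply hb
    rw [hBad, mem_iUnion]
    refine ⟨k, ?_⟩
    rw [mem_iUnion₂]
    refine ⟨(j : ℤ) - i, Finset.mem_Ioo.2 ⟨by omega, by omega⟩, ?_⟩
    rw [Metric.mem_ball]
    refine lt_of_le_of_lt (le_of_eq ?_) hcon
    rw [← dist_add_right b (β k + ((j : ℤ) - i) • α) (i • α)]
    congr 1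
    rw [sub_smul, natCast_zsmul, natCast_zsmul]
    abel
  refine ⟨Fin.snoc (α := fun _ => Td d) β b, ?_⟩
  rintro ⟨k, i, hi⟩ ⟨k', j, hj⟩ hk
  simp only
  rcases Fin.eq_castSucc_or_eq_last k with ⟨a, rfl⟩ | rfl
  · rcases Fin.eq_castSucc_or_eq_last k' with ⟨a', rfl⟩ | rfl
    · rw [Fin.snoc_castSucc, Fin.snoc_castSucc]
      refine hβ (a, ⟨i, hi⟩) (a', ⟨j, hj⟩) fun h => hk ?_
      rw [Prod.ext_iff] at h ⊢
      simp only at h ⊢
      exact ⟨by rw [h.1], h.2⟩
    · rw [Fin.snoc_castSucc, Fin.snoc_last, dist_comm]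
      exact hsep a j hj i hi
  · rcases Fin.eq_castSucc_or_eq_last k' with ⟨a', rfl⟩ | rfl
    · rw [Fin.snoc_castSucc, Fin.snoc_last]
      exact hsep a' i hi j hj
    · rw [Fin.snoc_last]
      refine same63 hα b hi hj fun h => hk ?_
      subst h
      rfl

theorem pts {α : Td d} (hd : 0 < d) {ρ : ℝ} (hρ : 0 < ρ) {n : ℕ} (hn : 1 ≤ n)
    (hα : ∀ k : ℕ, 1 ≤ k → k < n → ρ ≤ ‖k • α‖) {M : ℕ} (hM : (M : ℝ) * (2 * n * (2 * ρ) ^ d) < 1) :
    ∃ β : Fin M → Td d, SepR α ρ n M β := by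
  induction M with
  | zero => exact ⟨fun k => k.elim0, fun x => x.1.elim0⟩
  | succ M ih =>
    have hle : (M : ℝ) * (2 * n * (2 * ρ) ^ d) < 1 := by
      refine lt_of_le_of_lt ?_ hM
      have : (0 : ℝ) ≤ 2 * n * (2 * ρ) ^ d := by positivity
      push_cast
      nlinarith
    obtain ⟨β, hβ⟩ := ih hle
    exact more63 hρ hα hβ hle

/-- translation -/
theorem SepR_add {α : Td d} {ρ : ℝ} {n M : ℕ} {β : Fin M → Td d} (h : SepR α ρ n M β) (θ : Td d) :
    SepR α ρ n M fun k => θ + β k := by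
  intro x y hxy
  simp only
  rw [add_assoc, add_assoc, dist_add_left]
  exact h x y hxy

end Pool.Agent.Helper82.AN
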