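import Pool.Agent.Helper82.AN.Defs

/-! Block AN-LAP: the law of the coefficients.

`exp (-|x|) ≤ exp |v| exp (-|x + v|)`. `law_shift`: one coordinate: `lawL d` is the image of `lawL d × lap` under `(w, t) ↦ Function.update w i t` (compare `res_mp` in
`Helper46/QP/Res.lean`), induction over the finite set. `law_avg`: `law_shift` for `v = re w0 • v0 + re w1 • v1 + re w2 • v2` with `|re w| ≤ 1` for a.e. `w` (`clip_ae` or `re_ae95` in `Helper46/QR/Core.lean`), integrate over the
three discs, Tonelli. -/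

set_option autoImplicit false
open MeasureTheory Real Set
open scoped ENNReal

namespace Pool.Agent.Helper82.AN

open Pool.Agent.Helper46.QP (TT Td dl)

variable {d : ℕ}

private lemma lint38 {f : ℝ → ℝ} (hf : ∀ x, 0 ≤ x → 0 ≤ f x) {c : ℝ} (hc : ∫ x in Ioi (0 : ℝ), f x = c) (hc0 : 0 < c) :
    ∫⁻ x : ℝ, ENNReal.ofReal (f |x| / 2) = ENNReal.ofReal c := by
  have h1 : ∫ x : ℝ, f |x| / 2 = c := by
    have h := integral_comp_abs (f := fun x => f x / 2)
    rw [h, integral_div, hc]
    ring
  have h2 : Integrable (fun x : ℝ => f |x| / 2) := by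
    by_contra h
    rw [integral_undef h] at h1
    exact hc0.ne h1
  rw [← h1, ofReal_integral_eq_lintegral_ofReal h2 (ae_of_all _ fun x => div_nonneg (hf _ (abs_nonneg x)) two_pos.le)]

private lemma meas38 : Measurable fun x : ℝ => ENNReal.ofReal (Real.exp (-|x|) / 2) := by fun_prop

instance lap_prob : IsProbabilityMeasure lap := by
  refine ⟨?_⟩
  unfold lap
  rw [withDensity_apply _ MeasurableSet.univ, Measure.restrict_univ,
    lint38 (f := fun x => Real.exp (-x)) (fun x _ => (Real.exp_pos _).le) integral_exp_neg_Ioi_zero one_pos,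
    ENNReal.ofReal_one]

instance lawL_prob (d : ℕ) : IsProbabilityMeasure (lawL d) := by unfold lawL; infer_instance

theorem lap_abs : ∫⁻ x, ENNReal.ofReal |x| ∂lap ≤ 1 := by
  unfold lap
  rw [lintegral_withDensity_eq_lintegral_mul _ meas38 (by fun_prop)]
  have h1 : ∫ x in Ioi (0 : ℝ), Real.exp (-x) * x = 1 := by
    have h := Real.Gamma_eq_integral (s := 2) two_pos
    rw [Real.Gamma_two] at h
    rw [h]
    refine setIntegral_congr_fun measurableSet_Ioi fun x _ => ?_
    norm_num
  have h2 := lint38 (f := fun x => Real.exp (-x) * x) (fun x hx => mul_nonneg (Real.exp_pos _).le hx) h1 one_pos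
  rw [ENNReal.ofReal_one] at h2
  rw [← h2]
  refine lintegral_mono fun x => ?_
  show ENNReal.ofReal (Real.exp (-|x|) / 2) * ENNReal.ofReal |x| ≤ _
  rw [← ENNReal.ofReal_mul (by positivity)]
  refine ENNReal.ofReal_le_ofReal (le_of_eq ?_)
  ring

theorem law_coord (i : Ik d) {F : ℝ → ℝ≥0∞} (hF : Measurable F) : ∫⁻ w, F (w i) ∂lawL d = ∫⁻ x, F x ∂lap :=
  (measurePreserving_eval_infinitePi (fun _ : Ik d => lap) i).lintegral_comp hF

/-! ### one coordinate -/

private lemma measurable_upd38 (i : Ik d) : Measurable fun q : Ow d × ℝ => Function.update q.1 i q.2 := by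
  rw [measurable_pi_iff]
  intro j
  by_cases hj : j = i
  · subst hj
    simp only [Function.update_self]
    exact measurable_snd
  · simp only [Function.update_of_ne hj]
    exact (measurable_pi_apply j).comp measurable_fst

private theorem res_mp38 (i : Ik d) :
    MeasurePreserving (fun p : Ow d × ℝ => Function.update p.1 i p.2) ((lawL d).prod lap) (lawL d) := by
  refine ⟨measurable_upd38 i, ?_⟩
  conv_rhs => unfold lawL
  apply Measure.eq_infinitePi
  intro s t ht
  rw [Measure.map_apply (measurable_upd38 i)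
    (MeasurableSet.pi (Finset.countable_toSet _) fun j _ => ht j)]
  by_cases hi : i ∈ s
  · have e : (fun q : Ow d × ℝ => Function.update q.1 i q.2) ⁻¹' (Set.pi (s : Set (Ik d)) t) =
        Set.pi ((s.erase i : Finset (Ik d)) : Set (Ik d)) t ×ˢ t i := by
      ext ⟨ω, u⟩
      simp only [Set.mem_preimage, Set.mem_pi, Finset.mem_coe, Set.mem_prod, Finset.mem_erase]
      constructor
      · intro h
        refine ⟨fun j hj => ?_, ?_⟩
        · have h1 := h j hj.2
          rwa [Function.update_of_ne hj.1] at h1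
        · have h1 := h i hi
          rwa [Function.update_self] at h1
      · rintro ⟨h1, h2⟩ j hj
        by_cases hji : j = i
        · subst hji
          rwa [Function.update_self]
        · rw [Function.update_of_ne hji]
          exact h1 j ⟨hji, hj⟩
    rw [e, Measure.prod_prod]
    unfold lawL
    rw [Measure.infinitePi_pi _ (fun j _ => ht j)]
    exact Finset.prod_erase_mul s (fun j => lap (t j)) hi
  · have e : (fun q : Ow d × ℝ => Function.update q.1 i q.2) ⁻¹' (Set.pi (s : Set (Ik d)) t) =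
        Set.pi (s : Set (Ik d)) t ×ˢ univ := by
      ext ⟨ω, u⟩
      simp only [Set.mem_preimage, Set.mem_pi, Finset.mem_coe, Set.mem_prod, Set.mem_univ, and_true]
      have hne : ∀ j ∈ s, j ≠ i := fun j hj h => hi (h ▸ hj)
      constructor
      · intro h j hj
        have h1 := h j hj
        rwa [Function.update_of_ne (hne j hj)] at h1
      · intro h j hj
        rw [Function.update_of_ne (hne j hj)]
        exact h j hj
    rw [e, Measure.prod_prod, measure_univ, mul_one]
    unfold lawL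
    rw [Measure.infinitePi_pi _ (fun j _ => ht j)]

private theorem res_l38 (i : Ik d) {F : Ow d → ℝ≥0∞} (hF : Measurable F) :
    ∫⁻ ω, F ω ∂lawL d = ∫⁻ ω, ∫⁻ w, F (Function.update ω i w) ∂lap ∂lawL d := by
  rw [← (res_mp38 i).lintegral_comp hF]
  exact lintegral_prod _ (hF.comp (measurable_upd38 i)).aemeasurable

private theorem lap_shift38 (c : ℝ) {G : ℝ → ℝ≥0∞} (hG : Measurable G) :
    ∫⁻ t, G t ∂lap ≤ ENNReal.ofReal (Real.exp |c|) * ∫⁻ t, G (t + c) ∂lap := by
  have hG' : Measurable fun t : ℝ => G (t + c) := hG.comp (measurable_add_const c)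
  unfold lap
  rw [lintegral_withDensity_eq_lintegral_mul _ meas38 hG,
    lintegral_withDensity_eq_lintegral_mul _ meas38 hG',
    ← lintegral_const_mul _ (meas38.mul hG'),
    ← lintegral_add_right_eq_self _ c]
  refine lintegral_mono fun t => ?_
  show ENNReal.ofReal (Real.exp (-|t + c|) / 2) * G (t + c) ≤
    ENNReal.ofReal (Real.exp |c|) * (ENNReal.ofReal (Real.exp (-|t|) / 2) * G (t + c))
  rw [← mul_assoc, ← ENNReal.ofReal_mul (Real.exp_pos _).le]
  refine mul_le_mul_left (ENNReal.ofReal_le_ofReal ?_) _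
  rw [mul_div_assoc', ← Real.exp_add]
  refine div_le_div_of_nonneg_right (Real.exp_le_exp.2 ?_) two_pos.le
  have h := abs_add_le (t + c) (-c)
  rw [add_neg_cancel_right, abs_neg] at h
  linarith

private theorem single38 (i : Ik d) (c : ℝ) {F : Ow d → ℝ≥0∞} (hF : Measurable F) :
    ∫⁻ w, F w ∂lawL d ≤ ENNReal.ofReal (Real.exp |c|) * ∫⁻ w, F (w + Pi.single i c) ∂lawL d := by
  have hF' : Measurable fun w : Ow d => F (w + Pi.single i c) := hF.comp (measurable_add_const _)
  rw [res_l38 i hF, res_l38 i hF', ← lintegral_const_mul' _ _ ENNReal.ofReal_ne_top]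
  refine lintegral_mono fun w => ?_
  have hG : Measurable fun t : ℝ => F (Function.update w i t) :=
    hF.comp ((measurable_upd38 i).comp (measurable_const.prodMk measurable_id))
  refine (lap_shift38 c hG).trans (le_of_eq ?_)
  congr 1
  refine lintegral_congr fun t => ?_
  congr 1
  funext j
  by_cases hj : j = i
  · subst hj
    simp
  · simp [Function.update_of_ne hj, Pi.single_eq_of_ne hj]

theorem law_shift {s : Finset (Ik d)} {v : Ow d} (hv : ∀ i ∉ s, v i = 0) {F : Ow d → ℝ≥0∞} (hF : Measurable F) :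
    ∫⁻ w, F w ∂lawL d ≤ ENNReal.ofReal (Real.exp (∑ i ∈ s, |v i|)) * ∫⁻ w, F (w + v) ∂lawL d := by
  classical
  induction s using Finset.induction_on generalizing v with
  | empty =>
    have h0 : v = 0 := by
      funext i
      exact hv i (Finset.notMem_empty i)
    rw [h0]
    simp
  | insert i s hi ih =>
    have hv' : ∀ j ∉ s, Function.update v i 0 j = 0 := by
      intro j hj
      by_cases hji : j = i
      · subst hji
        simp
      · rw [Function.update_of_ne hji]
        exact hv j fun h => (Finset.mem_insert.1 h).elim hji hj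
    have h1 := ih hv'
    have hF' : Measurable fun w : Ow d => F (w + Function.update v i 0) := hF.comp (measurable_add_const _)
    have h2 := single38 i (v i) hF'
    have e1 : ∀ w : Ow d, w + Pi.single i (v i) + Function.update v i 0 = w + v := by
      intro w
      rw [add_assoc]
      congr 1
      funext j
      by_cases hji : j = i
      · subst hji
        simp
      · simp [Function.update_of_ne hji, Pi.single_eq_of_ne hji]
    have e2 : ∑ j ∈ s, |Function.update v i 0 j| = ∑ j ∈ s, |v j| := by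
      refine Finset.sum_congr rfl fun j hj => ?_
      have hji : j ≠ i := fun h => hi (h ▸ hj)
      rw [Function.update_of_ne hji]
    simp only [e1] at h2
    rw [e2] at h1
    refine h1.trans ((mul_le_mul_right h2 _).trans (le_of_eq ?_))
    rw [← mul_assoc, ← ENNReal.ofReal_mul (Real.exp_pos _).le, ← Real.exp_add, Finset.sum_insert hi,
      add_comm (|v i|)]

theorem law_avg {s : Finset (Ik d)} {v0 v1 v2 : Ow d} (h0 : ∀ i ∉ s, v0 i = 0) (h1 : ∀ i ∉ s, v1 i = 0)
    (h2 : ∀ i ∉ s, v2 i = 0) (b0 : ∑ i ∈ s, |v0 i| ≤ 1 / 3) (b1 : ∑ i ∈ s, |v1 i| ≤ 1 / 3) (b2 : ∑ i ∈ s, |v2 i| ≤ 1 / 3)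
    {F : Ow d → ℝ≥0∞} (hF : Measurable F) :
    ∫⁻ w, F w ∂lawL d ≤ ENNReal.ofReal (Real.exp 1) *
      ∫⁻ w, ∫⁻ t : ℂ × ℂ × ℂ, F (w + (t.1.re • v0 + t.2.1.re • v1 + t.2.2.re • v2)) ∂(dl.prod (dl.prod dl)) ∂lawL d := by
  set V : ℂ × ℂ × ℂ → Ow d := fun t => t.1.re • v0 + t.2.1.re • v1 + t.2.2.re • v2 with hV
  have hVm : Measurable V := by
    rw [measurable_pi_iff]
    intro i
    simp only [hV, Pi.add_apply, Pi.smul_apply, smul_eq_mul]
    fun_prop
  have hm : Measurable fun p : Ow d × (ℂ × ℂ × ℂ) => F (p.1 + V p.2) :=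
    hF.comp (measurable_fst.add (hVm.comp measurable_snd))
  have hae : ∀ᵐ t ∂(dl.prod (dl.prod dl)), |t.1.re| ≤ 1 ∧ |t.2.1.re| ≤ 1 ∧ |t.2.2.re| ≤ 1 := by
    have hd := Pool.Agent.Helper46.QR.re_ae95
    have a1 : ∀ᵐ t ∂(dl.prod (dl.prod dl)), |t.1.re| ≤ 1 := Measure.quasiMeasurePreserving_fst.ae hd
    have a2 : ∀ᵐ t ∂(dl.prod (dl.prod dl)), |t.2.1.re| ≤ 1 :=
      Measure.quasiMeasurePreserving_snd.ae (Measure.quasiMeasurePreserving_fst.ae hd)
    have a3 : ∀ᵐ t ∂(dl.prod (dl.prod dl)), |t.2.2.re| ≤ 1 :=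
      Measure.quasiMeasurePreserving_snd.ae (Measure.quasiMeasurePreserving_snd.ae hd)
    filter_upwards [a1, a2, a3] with t h1 h2 h3
    exact ⟨h1, h2, h3⟩
  have key : ∀ t : ℂ × ℂ × ℂ, |t.1.re| ≤ 1 ∧ |t.2.1.re| ≤ 1 ∧ |t.2.2.re| ≤ 1 →
      ∫⁻ w, F w ∂lawL d ≤ ENNReal.ofReal (Real.exp 1) * ∫⁻ w, F (w + V t) ∂lawL d := by
    rintro t ⟨t0, t1, t2⟩
    have hs : ∀ i ∉ s, V t i = 0 := by
      intro i hi
      simp only [hV, Pi.add_apply, Pi.smul_apply, smul_eq_mul, h0 i hi, h1 i hi, h2 i hi]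
      ring
    refine (law_shift hs hF).trans (mul_le_mul_left (ENNReal.ofReal_le_ofReal (Real.exp_le_exp.2 ?_)) _)
    have h3 : ∑ i ∈ s, |V t i| ≤ ∑ i ∈ s, (|v0 i| + |v1 i| + |v2 i|) := by
      refine Finset.sum_le_sum fun i _ => ?_
      simp only [hV, Pi.add_apply, Pi.smul_apply, smul_eq_mul]
      refine (abs_add_three _ _ _).trans ?_
      rw [abs_mul, abs_mul, abs_mul]
      have k0 := mul_le_of_le_one_left (abs_nonneg (v0 i)) t0
      have k1 := mul_le_of_le_one_left (abs_nonneg (v1 i)) t1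
      have k2 := mul_le_of_le_one_left (abs_nonneg (v2 i)) t2
      linarith
    rw [Finset.sum_add_distrib, Finset.sum_add_distrib] at h3
    linarith
  calc ∫⁻ w, F w ∂lawL d = ∫⁻ _t : ℂ × ℂ × ℂ, (∫⁻ w, F w ∂lawL d) ∂(dl.prod (dl.prod dl)) := by
        rw [lintegral_const, measure_univ, mul_one]
    _ ≤ ∫⁻ t : ℂ × ℂ × ℂ, ENNReal.ofReal (Real.exp 1) * ∫⁻ w, F (w + V t) ∂lawL d ∂(dl.prod (dl.prod dl)) := by
        refine lintegral_mono_ae ?_
        filter_upwards [hae] with t ht
        exact key t ht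
    _ = ENNReal.ofReal (Real.exp 1) * ∫⁻ t : ℂ × ℂ × ℂ, ∫⁻ w, F (w + V t) ∂lawL d ∂(dl.prod (dl.prod dl)) :=
        lintegral_const_mul' _ _ ENNReal.ofReal_ne_top
    _ = _ := by
        congr 1
        exact (lintegral_lintegral_swap (f := fun w t => F (w + V t)) hm.aemeasurable).symm

end Pool.Agent.Helper82.AN
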