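import Pool.Agent.Helper82.AN.Lap

/-! Block AN-ETA: the noise.

`wt_sum`: `exp (-r^γ) ≤ C (1 + r)^(-2 d)`, `∏_m (1 + |k_m|)² ≤ (1 + ‖k‖)^(2 d)`, the product is summable over `ℤ^d` (induction over `d` or `Summable` of products over `Fin d`). `Hw_ae`: the mean of `Hw` is at most
`∑ wt` (`lap_abs`, `law_coord`, `lintegral_tsum`). `eta_meas`: on the measurable set where `∑ |terms| < ∞` the sum is the difference of the sums of positive and negative parts (`ENNReal`), and it is `0` outside. `eta_cont`: M-test. -/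

set_option autoImplicit false
open MeasureTheory Real Set
open scoped ENNReal

namespace Pool.Agent.Helper82.AN

open Pool.Agent.Helper46.QP (TT Td dl)

variable {d : ℕ} {γ : ℝ}

theorem wt_pos (γ : ℝ) (i : Ik d) : 0 < wt γ i := Real.exp_pos _

/-! ### summability -/

private lemma g_sum88 : Summable fun n : ℤ => ((1 + ‖n‖) ^ 2)⁻¹ := by
  have h1 : Summable fun n : ℤ => 1 / (n : ℝ) ^ 2 := Real.summable_one_div_int_pow.2 (by norm_num)
  have h2 : Summable fun n : ℤ => if n = 0 then (1 : ℝ) else 0 := (hasSum_ite_eq (0 : ℤ) (1 : ℝ)).summable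
  refine Summable.of_nonneg_of_le (fun n => by positivity) (fun n => ?_) (h1.add h2)
  by_cases hn : n = 0
  · subst hn
    simp
  · have hn' : (0 : ℝ) < (n : ℝ) ^ 2 := by positivity
    rw [if_neg hn, add_zero, one_div]
    refine inv_anti₀ hn' ?_
    rw [Int.norm_eq_abs, ← sq_abs (n : ℝ)]
    have := abs_nonneg (n : ℝ)
    nlinarith

private lemma prod_sum88 {g : ℤ → ℝ} (hg : Summable g) (h0 : ∀ n, 0 ≤ g n) (d : ℕ) :
    Summable fun k : Fin d → ℤ => ∏ m, g (k m) := by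
  induction d with
  | zero => exact Summable.of_finite
  | succ d ih =>
    have h1 : Summable fun x : ℤ × (Fin d → ℤ) => g x.1 * ∏ m, g (x.2 m) :=
      hg.mul_of_nonneg ih h0 (fun k => Finset.prod_nonneg fun m _ => h0 _)
    have h2 := (Equiv.summable_iff (Fin.consEquiv fun _ : Fin (d + 1) => ℤ)
      (f := fun k : Fin (d + 1) → ℤ => ∏ m, g (k m))).1
    refine h2 (h1.congr fun x => ?_)
    simp only [Function.comp, Fin.consEquiv_apply, Fin.prod_univ_succ, Fin.cons_zero, Fin.cons_succ]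

private lemma exp_bd88 (hγ : 0 < γ) (d : ℕ) : ∃ C : ℝ, 0 < C ∧ ∀ r : ℝ, 0 ≤ r → (1 + r) ^ (2 * d) ≤ C * Real.exp (r ^ γ) := by
  obtain ⟨n, hn⟩ := exists_nat_ge ((2 * d : ℝ) / γ)
  have hn' : (2 * d : ℝ) ≤ γ * n := by
    rw [div_le_iff₀ hγ] at hn
    linarith
  refine ⟨2 ^ (2 * d) * (n.factorial : ℝ), by positivity, fun r hr => ?_⟩
  have hf : (1 : ℝ) ≤ n.factorial := by exact_mod_cast Nat.one_le_iff_ne_zero.2 (Nat.factorial_ne_zero n)
  have hx : 0 ≤ r ^ γ := Real.rpow_nonneg hr _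
  have hE : 1 ≤ Real.exp (r ^ γ) := Real.one_le_exp hx
  rcases le_total r 1 with h | h
  · calc (1 + r) ^ (2 * d) ≤ 2 ^ (2 * d) := pow_le_pow_left₀ (by linarith) (by linarith) _
      _ = 2 ^ (2 * d) * 1 * 1 := by ring
      _ ≤ 2 ^ (2 * d) * (n.factorial : ℝ) * Real.exp (r ^ γ) := by gcongr
  · have h1 : (r ^ γ) ^ n / n.factorial ≤ Real.exp (r ^ γ) := Real.pow_div_factorial_le_exp _ hx n
    have h2 : r ^ (2 * d) ≤ (r ^ γ) ^ n := by
      rw [← Real.rpow_natCast (r ^ γ) n, ← Real.rpow_mul hr, ← Real.rpow_natCast r (2 * d)]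
      exact Real.rpow_le_rpow_of_exponent_le h (by push_cast; exact hn')
    have h3 : r ^ (2 * d) ≤ (n.factorial : ℝ) * Real.exp (r ^ γ) := by
      rw [div_le_iff₀ (by positivity)] at h1
      linarith
    calc (1 + r) ^ (2 * d) ≤ (2 * r) ^ (2 * d) := pow_le_pow_left₀ (by linarith) (by linarith) _
      _ = 2 ^ (2 * d) * r ^ (2 * d) := by rw [mul_pow]
      _ ≤ 2 ^ (2 * d) * ((n.factorial : ℝ) * Real.exp (r ^ γ)) := by gcongr
      _ = _ := by ring

theorem wt_sum (hγ : 0 < γ) : Summable (wt γ : Ik d → ℝ) := by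
  obtain ⟨C, hC, hb⟩ := exp_bd88 hγ d
  have h1 : Summable fun k : Fin d → ℤ => Real.exp (-(‖k‖ ^ γ)) := by
    refine Summable.of_nonneg_of_le (fun k => (Real.exp_pos _).le) (fun k => ?_) ((prod_sum88 g_sum88 (fun n => by positivity) d).mul_left C)
    have h2 : ∏ m, (1 + ‖k m‖) ^ 2 ≤ (1 + ‖k‖) ^ (2 * d) := by
      calc ∏ m, (1 + ‖k m‖) ^ 2 ≤ ∏ _m : Fin d, (1 + ‖k‖) ^ 2 :=
            Finset.prod_le_prod (fun m _ => by positivity) (fun m _ => by
              have := norm_le_pi_norm k m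
              have := norm_nonneg (k m)
              gcongr)
        _ = (1 + ‖k‖) ^ (2 * d) := by
            rw [Finset.prod_const, Finset.card_univ, Fintype.card_fin, pow_mul]
    have h3 := h2.trans (hb ‖k‖ (norm_nonneg k))
    have hP : 0 < ∏ m, (1 + ‖k m‖) ^ 2 := Finset.prod_pos fun m _ => by positivity
    rw [Real.exp_neg, Finset.prod_inv_distrib, ← div_eq_mul_inv, le_div_iff₀ hP, inv_mul_le_iff₀ (Real.exp_pos _), mul_comm]
    exact h3
  have h4 : Summable fun x : (Fin d → ℤ) × Fin 2 => Real.exp (-(‖x.1‖ ^ γ)) * (fun _ : Fin 2 => (1 : ℝ)) x.2 :=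
    h1.mul_of_nonneg Summable.of_finite (fun k => (Real.exp_pos _).le) (fun _ => zero_le_one)
  refine h4.congr fun x => ?_
  simp [wt]

/-! ### the basis -/

theorem bas_le (i : Ik d) (θ : Td d) : |bas i θ| ≤ 1 := by
  have h : ‖(fourier 1 (∑ m, i.1 m • θ m) : ℂ)‖ = 1 := by
    rw [fourier_apply]
    exact Circle.norm_coe _
  unfold bas
  split_ifs
  · exact (Complex.abs_re_le_norm _).trans h.le
  · exact (Complex.abs_im_le_norm _).trans h.le

theorem bas_cont (i : Ik d) : Continuous (bas i) := by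
  have h : Continuous fun θ : Td d => (fourier 1 (∑ m, i.1 m • θ m) : ℂ) :=
    (ContinuousMap.continuous _).comp (continuous_finsetSum _ fun m _ => (continuous_apply m).zsmul _)
  unfold bas
  split_ifs
  · exact Complex.continuous_re.comp h
  · exact Complex.continuous_im.comp h

/-! ### the bound -/

theorem Hw_meas (γ : ℝ) : Measurable (Hw γ : Ow d → ℝ≥0∞) := by
  unfold Hw
  refine Measurable.tsum fun i => ?_
  exact ENNReal.measurable_ofReal.comp ((measurable_pi_apply i).abs.const_mul _)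

theorem Hw_ae (hγ : 0 < γ) : ∀ᵐ w ∂lawL d, Hw γ w ≠ ∞ := by
  have hm : ∀ i : Ik d, AEMeasurable (fun w : Ow d => ENNReal.ofReal (wt γ i * |w i|)) (lawL d) := fun i =>
    (ENNReal.measurable_ofReal.comp ((measurable_pi_apply i).abs.const_mul _)).aemeasurable
  have h1 : ∫⁻ w, Hw γ w ∂lawL d ≤ ENNReal.ofReal (∑' i : Ik d, wt γ i) := by
    unfold Hw
    rw [lintegral_tsum hm,
      ENNReal.ofReal_tsum_of_nonneg (fun i => (wt_pos γ i).le) (wt_sum hγ)]
    refine ENNReal.tsum_le_tsum fun i => ?_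
    have h2 : ∫⁻ w : Ow d, ENNReal.ofReal (wt γ i * |w i|) ∂lawL d = ENNReal.ofReal (wt γ i) * ∫⁻ x, ENNReal.ofReal |x| ∂lap := by
      have hA : Measurable fun x : ℝ => ENNReal.ofReal |x| := ENNReal.measurable_ofReal.comp measurable_abs
      rw [law_coord i (F := fun x => ENNReal.ofReal (wt γ i * |x|)) (ENNReal.measurable_ofReal.comp (measurable_abs.const_mul _)),
        ← lintegral_const_mul _ hA]
      refine lintegral_congr fun x => ?_
      rw [ENNReal.ofReal_mul (wt_pos γ i).le]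
    rw [h2]
    calc ENNReal.ofReal (wt γ i) * ∫⁻ x, ENNReal.ofReal |x| ∂lap ≤ ENNReal.ofReal (wt γ i) * 1 := by
          gcongr
          exact lap_abs
      _ = _ := mul_one _
  have h3 := ae_lt_top (Hw_meas γ) (ne_of_lt (h1.trans_lt ENNReal.ofReal_lt_top))
  filter_upwards [h3] with w hw using hw.ne

private lemma summ88 {w : Ow d} (hw : Hw γ w ≠ ∞) : Summable fun i : Ik d => wt γ i * |w i| := by
  have h := ENNReal.summable_toReal hw
  refine h.congr fun i => ?_
  exact ENNReal.toReal_ofReal (mul_nonneg (wt_pos γ i).le (abs_nonneg _))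

private lemma Hw_real88 {w : Ow d} (hw : Hw γ w ≠ ∞) : (Hw γ w).toReal = ∑' i : Ik d, wt γ i * |w i| := by
  unfold Hw
  rw [← ENNReal.ofReal_tsum_of_nonneg (fun i => mul_nonneg (wt_pos γ i).le (abs_nonneg _)) (summ88 hw)]
  exact ENNReal.toReal_ofReal (tsum_nonneg fun i => mul_nonneg (wt_pos γ i).le (abs_nonneg _))

private lemma term_le88 (γ : ℝ) (w : Ow d) (θ : Td d) (i : Ik d) : ‖wt γ i * w i * bas i θ‖ ≤ wt γ i * |w i| := by
  rw [Real.norm_eq_abs, abs_mul, abs_mul, abs_of_pos (wt_pos γ i)]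
  exact mul_le_of_le_one_right (mul_nonneg (wt_pos γ i).le (abs_nonneg _)) (bas_le i θ)

private lemma term_summ88 {w : Ow d} (hw : Hw γ w ≠ ∞) (θ : Td d) : Summable fun i : Ik d => wt γ i * w i * bas i θ :=
  Summable.of_norm_bounded (summ88 hw) (term_le88 γ w θ)

theorem eta_meas (γ : ℝ) : Measurable fun p : Ow d × Td d => eta γ p.1 p.2 := by
  unfold eta
  refine Measurable.tsum fun i => ?_
  exact ((((measurable_pi_apply i).comp measurable_fst).const_mul _).mul ((bas_cont i).measurable.comp measurable_snd))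

theorem eta_cont {w : Ow d} (hw : Hw γ w ≠ ∞) : Continuous (eta γ w) := by
  unfold eta
  exact continuous_tsum (fun i => (bas_cont i).const_mul _) (summ88 hw) (fun i θ => term_le88 γ w θ i)

theorem eta_le {w : Ow d} (hw : Hw γ w ≠ ∞) (θ : Td d) : |eta γ w θ| ≤ (Hw γ w).toReal := by
  rw [Hw_real88 hw, ← Real.norm_eq_abs]
  exact tsum_of_norm_bounded (summ88 hw).hasSum (term_le88 γ w θ)

theorem eta_add {w v : Ow d} {s : Finset (Ik d)} (hw : Hw γ w ≠ ∞) (hv : ∀ i ∉ s, v i = 0) (θ : Td d) :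
    eta γ (w + v) θ = eta γ w θ + ∑ i ∈ s, wt γ i * v i * bas i θ := by
  have h0 : ∀ i ∉ s, wt γ i * v i * bas i θ = 0 := fun i hi => by rw [hv i hi, mul_zero, zero_mul]
  have h1 : Summable fun i : Ik d => wt γ i * v i * bas i θ := summable_of_ne_finset_zero h0
  have h2 : ∑' i : Ik d, wt γ i * v i * bas i θ = ∑ i ∈ s, wt γ i * v i * bas i θ := tsum_eq_sum h0
  unfold eta
  rw [← h2, ← (term_summ88 hw θ).tsum_add h1]
  refine tsum_congr fun i => ?_
  rw [Pi.add_apply]
  ring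

theorem Hw_add {v : Ow d} {s : Finset (Ik d)} (hv : ∀ i ∉ s, v i = 0) (w : Ow d) :
    Hw γ w ≤ Hw γ (w + v) + ENNReal.ofReal (∑ i ∈ s, wt γ i * |v i|) := by
  have h0 : ∀ i ∉ s, ENNReal.ofReal (wt γ i * |v i|) = 0 := fun i hi => by rw [hv i hi, abs_zero, mul_zero, ENNReal.ofReal_zero]
  have h2 : ∑' i : Ik d, ENNReal.ofReal (wt γ i * |v i|) = ∑ i ∈ s, ENNReal.ofReal (wt γ i * |v i|) := tsum_eq_sum h0
  unfold Hw
  rw [ENNReal.ofReal_sum_of_nonneg (fun i _ => mul_nonneg (wt_pos γ i).le (abs_nonneg _)), ← h2, ← ENNReal.tsum_add]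
  refine ENNReal.tsum_le_tsum fun i => ?_
  rw [← ENNReal.ofReal_add (mul_nonneg (wt_pos γ i).le (abs_nonneg _)) (mul_nonneg (wt_pos γ i).le (abs_nonneg _))]
  refine ENNReal.ofReal_le_ofReal ?_
  rw [← mul_add]
  refine mul_le_mul_of_nonneg_left ?_ (wt_pos γ i).le
  have h := abs_sub (w i + v i) (v i)
  rw [add_sub_cancel_right] at h
  exact h

end Pool.Agent.Helper82.AN
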