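import Pool.Agent.Helper82.AN.Defs

/-! Block AN-INTERP: trigonometric interpolation at separated points.

(K) Kernel. `F (x) = |N⁻¹ ∑_{j<N} e(j x)|²` on the circle: `F 0 = 1`, `0 ≤ F ≤ 1`, `F x ≤ (2 N ‖x‖)⁻²` (`|∑ e(jx)| = |sin π N x / sin π x|`, `|sin π x| ≥ 2 ‖x‖`), `K θ = ∏_m F (θ m)^p`. With `Y = (Fin d × Fin p → Fin N × Fin N)`, `k y m = ∑_l ((y (m, l)).1 - (y (m, l)).2)`:
`K θ = |Y|⁻¹ ∑_y e(k y · θ)` (`Finset.prod_univ_sum`), real, so `K (θ - x) = |Y|⁻¹ ∑_y (cos(k·θ) cos(k·x) + sin(k·θ) sin(k·x))` (`2π` suppressed); `K 0 = 1`, `|k y m| ≤ p N`, `|K θ| ≤ (2 N ‖θ‖)^(-2p)` (maximum norm).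
(S) Solution. `E i j = K (x i - x j)` for `i ≠ j` has absolute row and column sums at most `n (2 N ρ)^(-2p) ≤ 1/2`, so `c ↦ (∑_j K (x i - x j) c j)_i` is injective (`ℓ¹` norm: `‖c‖ ≤ ½ ‖c‖`), hence surjective, and the solution of `= δ_{i₀}` has `∑ |c j| ≤ 2`.
(P) `P θ = ∑_j c j K (θ - x j)`: collect the coefficients: `∑ |coefficients| ≤ 2 ∑ |c j| ≤ 4`. -/

set_option autoImplicit false
open MeasureTheory Real Set

namespace Pool.Agent.Helper82.AN

open Pool.Agent.Helper46.QP (Td)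

variable {d : ℕ}

/-! ### the character of the circle -/

private noncomputable def ch99 (z : UnitAddCircle) : ℂ := (AddCircle.toCircle z : ℂ)

private theorem ch_add99 (z w : UnitAddCircle) : ch99 (z + w) = ch99 z * ch99 w := by
  unfold ch99
  rw [AddCircle.toCircle_add]
  simp

private theorem ch_zero99 : ch99 0 = 1 := by
  unfold ch99
  rw [AddCircle.toCircle_zero]
  simp

private theorem ch_neg99 (z : UnitAddCircle) : ch99 (-z) = (starRingEnd ℂ) (ch99 z) := by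
  unfold ch99
  rw [AddCircle.toCircle_neg, Circle.coe_inv_eq_conj]

private theorem ch_norm99 (z : UnitAddCircle) : ‖ch99 z‖ = 1 := by
  unfold ch99
  exact Circle.norm_coe _

private theorem ch_nsmul99 (n : ℕ) (z : UnitAddCircle) : ch99 (n • z) = ch99 z ^ n := by
  unfold ch99
  rw [AddCircle.toCircle_nsmul]
  simp

private theorem ch_sum99 {κ : Type*} (s : Finset κ) (f : κ → UnitAddCircle) :
    ch99 (∑ i ∈ s, f i) = ∏ i ∈ s, ch99 (f i) := by
  classical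
  induction s using Finset.induction_on with
  | empty => simp [ch_zero99]
  | insert a s ha ih => rw [Finset.sum_insert ha, Finset.prod_insert ha, ch_add99, ih]

/-- `|e(z) - 1| ≥ 4 ‖z‖` -/
private theorem ch_sub_one99 (x : UnitAddCircle) : 4 * ‖x‖ ≤ ‖ch99 x - 1‖ := by
  obtain ⟨z, rfl⟩ := QuotientAddGroup.mk_surjective x
  change 4 * ‖(z : UnitAddCircle)‖ ≤ ‖ch99 (z : UnitAddCircle) - 1‖
  have hz : ((z - round z : ℝ) : UnitAddCircle) = (z : UnitAddCircle) := by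
    rw [AddCircle.coe_sub]
    have : ((round z : ℝ) : UnitAddCircle) = 0 := by
      have h := AddCircle.coe_eq_zero_iff (p := (1 : ℝ)) (x := (round z : ℝ))
      exact h.2 ⟨round z, by simp⟩
    rw [this, sub_zero]
  rw [UnitAddCircle.norm_eq, ← hz]
  obtain ⟨y, hy⟩ : ∃ y : ℝ, y = z - round z := ⟨_, rfl⟩
  rw [← hy]
  have hy2 : |y| ≤ 1 / 2 := by
    rw [hy]
    exact abs_sub_round z
  have h1 : ch99 (y : UnitAddCircle) = Complex.exp (Complex.I * ((2 * Real.pi * y : ℝ) : ℂ)) := by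
    unfold ch99
    rw [AddCircle.toCircle_apply_mk, Circle.coe_exp]
    congr 1
    push_cast
    ring
  rw [h1, Complex.norm_exp_I_mul_ofReal_sub_one]
  rw [Real.norm_eq_abs, abs_mul, abs_of_pos (by norm_num : (0 : ℝ) < 2)]
  have h2 : |Real.sin (2 * Real.pi * y / 2)| = Real.sin (Real.pi * |y|) := by
    have h3 : 2 * Real.pi * y / 2 = Real.pi * y := by ring
    rw [h3]
    have h4 : 0 ≤ Real.sin (Real.pi * |y|) := by
      apply Real.sin_nonneg_of_nonneg_of_le_pi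
      · have := Real.pi_pos
        positivity
      · have := Real.pi_pos
        nlinarith [abs_nonneg y]
    rcases abs_cases y with ⟨h5, _⟩ | ⟨h5, _⟩
    · rw [h5] at h4 ⊢
      exact abs_of_nonneg h4
    · rw [h5] at h4 ⊢
      rw [mul_neg, Real.sin_neg] at h4 ⊢
      exact abs_of_nonpos (by linarith)
  rw [h2]
  have h6 := Real.mul_le_sin (x := Real.pi * |y|) (by positivity) (by nlinarith [Real.pi_pos])
  have h7 : 2 / Real.pi * (Real.pi * |y|) = 2 * |y| := by field_simp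
  rw [h7] at h6
  linarith

/-! ### the kernel -/

private noncomputable def D99 (N : ℕ) (z : UnitAddCircle) : ℝ := ‖(N : ℂ)⁻¹ * ∑ j : Fin N, ch99 z ^ (j : ℕ)‖ ^ 2

private theorem D_nonneg99 (N : ℕ) (z : UnitAddCircle) : 0 ≤ D99 N z := by
  unfold D99
  positivity

private theorem D_le_one99 {N : ℕ} (hN : 1 ≤ N) (z : UnitAddCircle) : D99 N z ≤ 1 := by
  unfold D99
  refine pow_le_one₀ (norm_nonneg _) ?_
  have hN0 : (0 : ℝ) < N := by exact_mod_cast hN
  rw [norm_mul, norm_inv, Complex.norm_natCast, inv_mul_le_iff₀ hN0, mul_one]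
  refine (norm_sum_le _ _).trans ?_
  simp [norm_pow, ch_norm99]

private theorem D_zero99 {N : ℕ} (hN : 1 ≤ N) : D99 N 0 = 1 := by
  unfold D99
  have hN0 : (N : ℂ) ≠ 0 := by exact_mod_cast (by omega : N ≠ 0)
  simp [ch_zero99, hN0]

private theorem D_le99 {N : ℕ} (hN : 1 ≤ N) {z : UnitAddCircle} {ρ : ℝ} (hρ : 0 < ρ) (hz : ρ ≤ ‖z‖) :
    D99 N z ≤ 1 / (2 * N * ρ) ^ 2 := by
  have hN0 : (0 : ℝ) < N := by exact_mod_cast hN
  have h1 := ch_sub_one99 z
  have h2 : (∑ j : Fin N, ch99 z ^ (j : ℕ)) * (ch99 z - 1) = ch99 z ^ N - 1 := by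
    rw [Fin.sum_univ_eq_sum_range (fun j => ch99 z ^ j) N]
    exact geom_sum_mul (ch99 z) N
  have h3 : ‖ch99 z ^ N - 1‖ ≤ 2 := by
    refine (norm_sub_le _ _).trans ?_
    rw [norm_pow, ch_norm99]
    norm_num
  have h4 : ‖∑ j : Fin N, ch99 z ^ (j : ℕ)‖ * (4 * ρ) ≤ 2 := by
    refine le_trans ?_ h3
    rw [← h2, norm_mul]
    exact mul_le_mul_of_nonneg_left (by linarith) (norm_nonneg _)
  unfold D99
  rw [norm_mul, norm_inv, Complex.norm_natCast]
  have h5 : (N : ℝ)⁻¹ * ‖∑ j : Fin N, ch99 z ^ (j : ℕ)‖ ≤ 1 / (2 * N * ρ) := by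
    rw [le_div_iff₀ (by positivity)]
    have h6 : (N : ℝ)⁻¹ * ‖∑ j : Fin N, ch99 z ^ (j : ℕ)‖ * (2 * N * ρ) =
        ‖∑ j : Fin N, ch99 z ^ (j : ℕ)‖ * (4 * ρ) / 2 := by
      field_simp
      ring
    rw [h6]
    linarith
  calc ((N : ℝ)⁻¹ * ‖∑ j : Fin N, ch99 z ^ (j : ℕ)‖) ^ 2 ≤ (1 / (2 * N * ρ)) ^ 2 :=
        pow_le_pow_left₀ (by positivity) h5 2
    _ = 1 / (2 * N * ρ) ^ 2 := by rw [div_pow, one_pow]

private noncomputable def K99 (d N p : ℕ) (θ : Td d) : ℝ := ∏ q : Fin d × Fin p, D99 N (θ q.1)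

private theorem K_nonneg99 (N p : ℕ) (θ : Td d) : 0 ≤ K99 d N p θ := by
  unfold K99
  exact Finset.prod_nonneg fun q _ => D_nonneg99 _ _

private theorem K_zero99 {N : ℕ} (hN : 1 ≤ N) (p : ℕ) : K99 d N p 0 = 1 := by
  unfold K99
  simp [D_zero99 hN]

private theorem K_le99 {N : ℕ} (hN : 1 ≤ N) (p : ℕ) {θ : Td d} {ρ : ℝ} (hρ : 0 < ρ) {m : Fin d} (hm : ρ ≤ ‖θ m‖) :
    K99 d N p θ ≤ 1 / (2 * N * ρ) ^ (2 * p) := by
  have hN0 : (0 : ℝ) < N := by exact_mod_cast hN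
  unfold K99
  rw [Fintype.prod_prod_type]
  simp only [Finset.prod_const, Finset.card_univ, Fintype.card_fin]
  rw [← Finset.mul_prod_erase Finset.univ (fun m => D99 N (θ m) ^ p) (Finset.mem_univ m)]
  have h1 : ∏ x ∈ Finset.univ.erase m, D99 N (θ x) ^ p ≤ 1 :=
    Finset.prod_le_one (fun i _ => pow_nonneg (D_nonneg99 _ _) _) fun i _ =>
      pow_le_one₀ (D_nonneg99 _ _) (D_le_one99 hN _)
  have h2 : D99 N (θ m) ^ p ≤ 1 / (2 * N * ρ) ^ (2 * p) := by
    refine (pow_le_pow_left₀ (D_nonneg99 _ _) (D_le99 hN hρ hm) p).trans (le_of_eq ?_)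
    rw [div_pow, one_pow, ← pow_mul]
  calc D99 N (θ m) ^ p * ∏ x ∈ Finset.univ.erase m, D99 N (θ x) ^ p ≤ D99 N (θ m) ^ p * 1 :=
        mul_le_mul_of_nonneg_left h1 (pow_nonneg (D_nonneg99 _ _) _)
    _ ≤ 1 / (2 * N * ρ) ^ (2 * p) := by rw [mul_one]; exact h2

/-! ### expansion of the kernel -/

private def kk99 {N p : ℕ} (y : Fin d × Fin p → Fin N × Fin N) (m : Fin d) : ℤ :=
  ∑ l : Fin p, ((((y (m, l)).1 : ℕ) : ℤ) - (((y (m, l)).2 : ℕ) : ℤ))

private theorem D_eq99 (N : ℕ) (z : UnitAddCircle) :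
    ((D99 N z : ℝ) : ℂ) = ∑ t : Fin N × Fin N, ((N : ℂ) ^ 2)⁻¹ * ch99 ((((t.1 : ℕ) : ℤ) - ((t.2 : ℕ) : ℤ)) • z) := by
  have h1 : ∀ a b : ℕ, ch99 (((a : ℤ) - (b : ℤ)) • z) = ch99 z ^ a * (starRingEnd ℂ) (ch99 z ^ b) := by
    intro a b
    rw [sub_smul, sub_eq_add_neg, ch_add99, ch_neg99, natCast_zsmul, natCast_zsmul, ch_nsmul99, ch_nsmul99]
  have h2 : ((D99 N z : ℝ) : ℂ) = ((N : ℂ)⁻¹ * ∑ j : Fin N, ch99 z ^ (j : ℕ)) *
      (starRingEnd ℂ) ((N : ℂ)⁻¹ * ∑ j : Fin N, ch99 z ^ (j : ℕ)) := by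
    rw [Complex.mul_conj, Complex.normSq_eq_norm_sq]
    rfl
  rw [h2, map_mul, map_inv₀, Complex.conj_natCast, map_sum, Fintype.sum_prod_type]
  have h3 : ((N : ℂ)⁻¹ * ∑ j : Fin N, ch99 z ^ (j : ℕ)) * ((N : ℂ)⁻¹ * ∑ j : Fin N, (starRingEnd ℂ) (ch99 z ^ (j : ℕ))) =
      ((N : ℂ) ^ 2)⁻¹ * ((∑ j : Fin N, ch99 z ^ (j : ℕ)) * ∑ j : Fin N, (starRingEnd ℂ) (ch99 z ^ (j : ℕ))) := by
    rw [pow_two, mul_inv]
    ring
  rw [h3, Finset.sum_mul_sum, Finset.mul_sum]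
  refine Finset.sum_congr rfl fun a _ => ?_
  rw [Finset.mul_sum]
  refine Finset.sum_congr rfl fun b _ => ?_
  rw [h1]

private theorem K_eq99 (N p : ℕ) (θ : Td d) :
    ((K99 d N p θ : ℝ) : ℂ) = ∑ y : Fin d × Fin p → Fin N × Fin N,
      (∏ _q : Fin d × Fin p, ((N : ℂ) ^ 2)⁻¹) * ch99 (∑ m, kk99 y m • θ m) := by
  unfold K99
  rw [Complex.ofReal_prod]
  simp only [D_eq99]
  rw [Finset.prod_univ_sum, Fintype.piFinset_univ]
  refine Finset.sum_congr rfl fun y _ => ?_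
  rw [Finset.prod_mul_distrib, ← ch_sum99]
  congr 2
  rw [Fintype.sum_prod_type]
  refine Finset.sum_congr rfl fun m _ => ?_
  unfold kk99
  rw [Finset.sum_smul]

private noncomputable def aa99 (d N p : ℕ) : ℝ := ∏ _q : Fin d × Fin p, ((N : ℝ) ^ 2)⁻¹

private theorem aa_nonneg99 (d N p : ℕ) : 0 ≤ aa99 d N p := by
  unfold aa99
  exact Finset.prod_nonneg fun _ _ => by positivity

private theorem aa_card99 {N : ℕ} (hN : 1 ≤ N) (d p : ℕ) :
    ∑ _y : Fin d × Fin p → Fin N × Fin N, aa99 d N p = 1 := by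
  have hN0 : (0 : ℝ) < N := by exact_mod_cast hN
  unfold aa99
  rw [Finset.sum_const, Finset.card_univ, Fintype.card_fun, nsmul_eq_mul, Finset.prod_const, Finset.card_univ]
  simp only [Fintype.card_prod, Fintype.card_fin]
  push_cast
  rw [← mul_pow, ← pow_two, mul_inv_cancel₀ (by positivity), one_pow]

private theorem bas_eq99 (k : Fin d → ℤ) (θ : Td d) :
    bas (k, 0) θ = (ch99 (∑ m, k m • θ m)).re ∧ bas (k, 1) θ = (ch99 (∑ m, k m • θ m)).im := by
  unfold bas ch99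
  constructor
  · simp
  · simp

private theorem K_trans99 (N p : ℕ) (θ x : Td d) : K99 d N p (θ - x) = ∑ y : Fin d × Fin p → Fin N × Fin N,
    aa99 d N p * (bas (kk99 y, 0) x * bas (kk99 y, 0) θ + bas (kk99 y, 1) x * bas (kk99 y, 1) θ) := by
  have h1 := congrArg Complex.re (K_eq99 (d := d) N p (θ - x))
  rw [Complex.ofReal_re, Complex.re_sum] at h1
  rw [h1]
  refine Finset.sum_congr rfl fun y _ => ?_
  have h2 : (∏ _q : Fin d × Fin p, ((N : ℂ) ^ 2)⁻¹) = ((aa99 d N p : ℝ) : ℂ) := by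
    unfold aa99
    rw [Complex.ofReal_prod]
    push_cast
    rfl
  rw [h2, Complex.re_ofReal_mul]
  congr 1
  have h3 : (∑ m, kk99 y m • (θ - x) m) = (∑ m, kk99 y m • θ m) + -(∑ m, kk99 y m • x m) := by
    rw [← sub_eq_add_neg, ← Finset.sum_sub_distrib]
    refine Finset.sum_congr rfl fun m _ => ?_
    rw [Pi.sub_apply, smul_sub]
  rw [h3, ch_add99, ch_neg99, Complex.mul_re, Complex.conj_re, Complex.conj_im, (bas_eq99 _ x).1, (bas_eq99 _ x).2,
    (bas_eq99 _ θ).1, (bas_eq99 _ θ).2]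
  ring

private theorem kk_le99 {N p : ℕ} (y : Fin d × Fin p → Fin N × Fin N) (m : Fin d) : |kk99 y m| ≤ ((p * N : ℕ) : ℤ) := by
  unfold kk99
  refine (Finset.abs_sum_le_sum_abs _ _).trans ?_
  have h1 : ∀ l ∈ (Finset.univ : Finset (Fin p)),
      |((((y (m, l)).1 : ℕ) : ℤ) - (((y (m, l)).2 : ℕ) : ℤ))| ≤ (N : ℤ) := by
    intro l _
    have h2 := (y (m, l)).1.isLt
    have h3 := (y (m, l)).2.isLt
    rw [abs_le]
    constructor <;> omega
  refine (Finset.sum_le_sum h1).trans (le_of_eq ?_)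
  simp

/-! ### trigonometric polynomials -/

private noncomputable def SR99 (d R : ℕ) : Finset (Ik d) :=
  (Fintype.piFinset fun _ : Fin d => Finset.Icc (-(R : ℤ)) (R : ℤ)) ×ˢ (Finset.univ : Finset (Fin 2))

private theorem mem_SR99 {R : ℕ} {i : Ik d} : i ∈ SR99 d R ↔ ∀ m, |i.1 m| ≤ (R : ℤ) := by
  unfold SR99
  rw [Finset.mem_product, Fintype.mem_piFinset]
  simp only [Finset.mem_univ, and_true, Finset.mem_Icc, abs_le]

private def Pol99 (R : ℕ) (A : ℝ) (f : Td d → ℝ) : Prop :=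
  ∃ c : Ik d → ℝ, (∀ i ∉ SR99 d R, c i = 0) ∧ ∑ i ∈ SR99 d R, |c i| ≤ A ∧ ∀ θ, f θ = ∑ i ∈ SR99 d R, c i * bas i θ

private theorem pol_bas99 {R : ℕ} {i : Ik d} (hi : i ∈ SR99 d R) : Pol99 R 1 (bas i) := by
  classical
  refine ⟨fun j => if j = i then 1 else 0, fun j hj => ?_, ?_, fun θ => ?_⟩
  · show (if j = i then (1 : ℝ) else 0) = 0
    rw [if_neg]
    rintro rfl
    exact hj hi
  · have h1 : ∀ j ∈ SR99 d R, |(if j = i then (1 : ℝ) else 0)| = if j = i then 1 else 0 := by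
      intro j _
      split_ifs <;> simp
    rw [Finset.sum_congr rfl h1, Finset.sum_ite_eq' (SR99 d R) i (fun _ => (1 : ℝ)), if_pos hi]
  · have h1 : ∀ j ∈ SR99 d R, (if j = i then (1 : ℝ) else 0) * bas j θ = if j = i then bas j θ else 0 := by
      intro j _
      split_ifs <;> simp
    rw [Finset.sum_congr rfl h1, Finset.sum_ite_eq' (SR99 d R) i (fun j => bas j θ), if_pos hi]

private theorem pol_smul99 {R : ℕ} {A : ℝ} {f : Td d → ℝ} (a : ℝ) (h : Pol99 R A f) :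
    Pol99 R (|a| * A) (fun θ => a * f θ) := by
  obtain ⟨c, h0, h1, h2⟩ := h
  refine ⟨fun i => a * c i, fun i hi => by show a * c i = 0; rw [h0 i hi, mul_zero], ?_, fun θ => ?_⟩
  · simp only [abs_mul]
    rw [← Finset.mul_sum]
    exact mul_le_mul_of_nonneg_left h1 (abs_nonneg a)
  · show a * f θ = ∑ i ∈ SR99 d R, a * c i * bas i θ
    rw [h2, Finset.mul_sum]
    exact Finset.sum_congr rfl fun i _ => by ring

private theorem pol_sum99 {R : ℕ} {κ : Type*} (s : Finset κ) {A : κ → ℝ} {f : κ → Td d → ℝ}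
    (h : ∀ y ∈ s, Pol99 R (A y) (f y)) : Pol99 R (∑ y ∈ s, A y) (fun θ => ∑ y ∈ s, f y θ) := by
  classical
  induction s using Finset.induction_on with
  | empty => exact ⟨fun _ => 0, fun _ _ => rfl, by simp, fun θ => by simp⟩
  | insert a s ha ih =>
    obtain ⟨c, h0, h1, h2⟩ := ih fun y hy => h y (Finset.mem_insert_of_mem hy)
    obtain ⟨c', h0', h1', h2'⟩ := h a (Finset.mem_insert_self a s)
    refine ⟨fun i => c' i + c i, fun i hi => by show c' i + c i = 0; rw [h0 i hi, h0' i hi, add_zero], ?_, fun θ => ?_⟩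
    · rw [Finset.sum_insert ha]
      refine le_trans ?_ (add_le_add h1' h1)
      rw [← Finset.sum_add_distrib]
      exact Finset.sum_le_sum fun i _ => abs_add_le _ _
    · have h3 : ∑ y ∈ s, f y θ = ∑ i ∈ SR99 d R, c i * bas i θ := h2 θ
      show ∑ y ∈ insert a s, f y θ = ∑ i ∈ SR99 d R, (c' i + c i) * bas i θ
      rw [Finset.sum_insert ha, h3, h2', ← Finset.sum_add_distrib]
      exact Finset.sum_congr rfl fun i _ => by ring

private theorem pol_mono99 {R : ℕ} {A B : ℝ} {f : Td d → ℝ} (hAB : A ≤ B) (h : Pol99 R A f) : Pol99 R B f := by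
  obtain ⟨c, h0, h1, h2⟩ := h
  exact ⟨c, h0, h1.trans hAB, h2⟩

private theorem bas_abs99 (i : Ik d) (θ : Td d) : |bas i θ| ≤ 1 := by
  obtain ⟨k, a⟩ := i
  have h1 := ch_norm99 (∑ m, k m • θ m)
  fin_cases a
  · show |bas (k, 0) θ| ≤ 1
    rw [(bas_eq99 k θ).1]
    exact (Complex.abs_re_le_norm _).trans h1.le
  · show |bas (k, 1) θ| ≤ 1
    rw [(bas_eq99 k θ).2]
    exact (Complex.abs_im_le_norm _).trans h1.le

private theorem K_pol99 {N : ℕ} (hN : 1 ≤ N) (p : ℕ) (x : Td d) : Pol99 (p * N) 2 (fun θ => K99 d N p (θ - x)) := by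
  have h1 : (fun θ => K99 d N p (θ - x)) = fun θ => ∑ y : Fin d × Fin p → Fin N × Fin N,
      (aa99 d N p * ∑ a : Fin 2, bas (kk99 y, a) x * bas (kk99 y, a) θ) := by
    funext θ
    rw [K_trans99]
    refine Finset.sum_congr rfl fun y _ => ?_
    rw [Fin.sum_univ_two]
  rw [h1]
  have h2 : ∀ y ∈ (Finset.univ : Finset (Fin d × Fin p → Fin N × Fin N)),
      Pol99 (p * N) (aa99 d N p * 2) (fun θ => aa99 d N p * ∑ a : Fin 2, bas (kk99 y, a) x * bas (kk99 y, a) θ) := by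
    intro y _
    have h3 : ∀ a ∈ (Finset.univ : Finset (Fin 2)), Pol99 (p * N) 1 (fun θ => bas (kk99 y, a) x * bas (kk99 y, a) θ) := by
      intro a _
      refine pol_mono99 ?_ (pol_smul99 (bas (kk99 y, a) x) (pol_bas99 (mem_SR99.2 fun m => kk_le99 y m)))
      rw [mul_one]
      exact bas_abs99 _ _
    have h4 := pol_smul99 (aa99 d N p) (pol_sum99 _ h3)
    rw [abs_of_nonneg (aa_nonneg99 d N p)] at h4
    simpa using h4
  refine pol_mono99 (le_of_eq ?_) (pol_sum99 _ h2)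
  rw [← Finset.sum_mul, aa_card99 hN, one_mul]

theorem interp {ι : Type} [Fintype ι] [DecidableEq ι] {x : ι → Td d} {N p : ℕ} (hN : 1 ≤ N) (hp : 1 ≤ p) {ρ : ℝ}
    (hρ : 0 < ρ) (hx : ∀ i j, i ≠ j → ρ ≤ dist (x i) (x j))
    (h : 2 * (Fintype.card ι : ℝ) ≤ (2 * N * ρ) ^ (2 * p)) (i₀ : ι) :
    ∃ (s : Finset (Ik d)) (c : Ik d → ℝ), (∀ i ∉ s, c i = 0) ∧ (∀ i ∈ s, ‖i.1‖ ≤ p * N) ∧ ∑ i ∈ s, |c i| ≤ 4 ∧
      ∑ i ∈ s, c i * bas i (x i₀) = 1 ∧ ∀ j, j ≠ i₀ → ∑ i ∈ s, c i * bas i (x j) = 0 := by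
  have hN0 : (0 : ℝ) < N := by exact_mod_cast hN
  -- the values of the kernel
  have hK : ∀ i j, i ≠ j → K99 d N p (x i - x j) ≤ 1 / (2 * N * ρ) ^ (2 * p) := by
    intro i j hij
    have h1 : ∃ m, ρ ≤ ‖(x i - x j) m‖ := by
      by_contra hcon
      push Not at hcon
      have h2 : dist (x i) (x j) < ρ := by
        rw [dist_pi_lt_iff hρ]
        intro m
        rw [dist_eq_norm]
        exact hcon m
      exact absurd (hx i j hij) (not_le.2 h2)
    obtain ⟨m, hm⟩ := h1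
    exact K_le99 hN p hρ hm
  obtain ⟨κ, hκ⟩ : ∃ κ : ℝ, κ = 1 / (2 * N * ρ) ^ (2 * p) := ⟨_, rfl⟩
  rw [← hκ] at hK
  have hκ0 : 0 ≤ κ := by rw [hκ]; positivity
  have hκ1 : (Fintype.card ι : ℝ) * κ ≤ 1 / 2 := by
    rw [hκ, mul_one_div, div_le_iff₀ (by positivity)]
    linarith
  have hKii : ∀ i, K99 d N p (x i - x i) = 1 := by
    intro i
    rw [sub_self]
    exact K_zero99 hN p
  -- the linear map
  obtain ⟨L, hL⟩ : ∃ L : (ι → ℝ) →ₗ[ℝ] (ι → ℝ), ∀ c i, L c i = ∑ j, K99 d N p (x i - x j) * c j :=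
    ⟨Matrix.mulVecLin (Matrix.of fun i j => K99 d N p (x i - x j)), fun c i => rfl⟩
  have hest : ∀ c : ι → ℝ, ∑ i, |c i| ≤ 2 * ∑ i, |L c i| := by
    intro c
    have h1 : ∀ i ∈ (Finset.univ : Finset ι), |c i| ≤ |L c i| + κ * ∑ j, |c j| := by
      intro i _
      have h2 : L c i = c i + ∑ j ∈ Finset.univ.erase i, K99 d N p (x i - x j) * c j := by
        rw [hL, ← Finset.add_sum_erase Finset.univ _ (Finset.mem_univ i), hKii, one_mul]
      have h3 : |∑ j ∈ Finset.univ.erase i, K99 d N p (x i - x j) * c j| ≤ κ * ∑ j, |c j| := by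
        refine (Finset.abs_sum_le_sum_abs _ _).trans ?_
        rw [Finset.mul_sum]
        have h4 : ∀ j ∈ Finset.univ.erase i, |K99 d N p (x i - x j) * c j| ≤ κ * |c j| := by
          intro j hj
          rw [abs_mul, abs_of_nonneg (K_nonneg99 _ _ _)]
          exact mul_le_mul_of_nonneg_right (hK i j (Finset.ne_of_mem_erase hj).symm) (abs_nonneg _)
        refine (Finset.sum_le_sum h4).trans ?_
        exact Finset.sum_le_sum_of_subset_of_nonneg (Finset.erase_subset _ _) fun j _ _ =>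
          mul_nonneg hκ0 (abs_nonneg _)
      have h5 : c i = L c i - ∑ j ∈ Finset.univ.erase i, K99 d N p (x i - x j) * c j := by rw [h2]; ring
      calc |c i| = |L c i - ∑ j ∈ Finset.univ.erase i, K99 d N p (x i - x j) * c j| := by rw [← h5]
        _ ≤ |L c i| + |∑ j ∈ Finset.univ.erase i, K99 d N p (x i - x j) * c j| := abs_sub _ _
        _ ≤ |L c i| + κ * ∑ j, |c j| := by linarith
    have h2 := Finset.sum_le_sum h1
    rw [Finset.sum_add_distrib, Finset.sum_const, nsmul_eq_mul, Finset.card_univ] at h2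
    have h3 : 0 ≤ ∑ j, |c j| := Finset.sum_nonneg fun j _ => abs_nonneg _
    have h4 : (Fintype.card ι : ℝ) * (κ * ∑ j, |c j|) ≤ 1 / 2 * ∑ j, |c j| := by
      rw [← mul_assoc]
      exact mul_le_mul_of_nonneg_right hκ1 h3
    linarith
  have hinj : Function.Injective L := by
    rw [injective_iff_map_eq_zero]
    intro c hc
    have h1 := hest c
    rw [hc] at h1
    simp only [Pi.zero_apply, abs_zero, Finset.sum_const_zero, mul_zero] at h1
    have h2 : ∑ i, |c i| = 0 := le_antisymm h1 (Finset.sum_nonneg fun j _ => abs_nonneg _)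
    rw [Finset.sum_eq_zero_iff_of_nonneg fun j _ => abs_nonneg _] at h2
    funext i
    exact abs_eq_zero.1 (h2 i (Finset.mem_univ i))
  obtain ⟨c, hc⟩ := (LinearMap.injective_iff_surjective.1 hinj) (fun i => if i = i₀ then 1 else 0)
  have hc2 : ∑ i, |c i| ≤ 2 := by
    refine (hest c).trans (le_of_eq ?_)
    rw [hc]
    have h1 : ∀ i ∈ (Finset.univ : Finset ι), |(if i = i₀ then (1 : ℝ) else 0)| = if i = i₀ then 1 else 0 := by
      intro i _
      split_ifs <;> simp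
    rw [Finset.sum_congr rfl h1, Finset.sum_ite_eq' Finset.univ i₀ (fun _ => (1 : ℝ)), if_pos (Finset.mem_univ _),
      mul_one]
  -- the polynomial
  have hpol := pol_sum99 (R := p * N) (Finset.univ : Finset ι) (A := fun j => |c j| * 2)
    (f := fun j θ => c j * K99 d N p (θ - x j)) fun j _ => pol_smul99 (c j) (K_pol99 hN p (x j))
  obtain ⟨b, hb0, hb1, hb2⟩ := hpol
  refine ⟨SR99 d (p * N), b, hb0, fun i hi => ?_, ?_, ?_, fun j hj => ?_⟩
  · rw [mem_SR99] at hi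
    rw [pi_norm_le_iff_of_nonneg (by positivity)]
    intro m
    have h1 := hi m
    rw [Int.norm_eq_abs]
    exact_mod_cast h1
  · refine hb1.trans ?_
    rw [← Finset.sum_mul]
    linarith
  · rw [← hb2]
    have h1 := congrFun hc i₀
    rw [hL] at h1
    simp only [if_true] at h1
    refine Eq.trans ?_ h1
    exact Finset.sum_congr rfl fun j _ => mul_comm _ _
  · rw [← hb2]
    have h1 := congrFun hc j
    rw [hL] at h1
    simp only [if_neg hj] at h1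
    refine Eq.trans ?_ h1
    exact Finset.sum_congr rfl fun j _ => mul_comm _ _

end Pool.Agent.Helper82.AN
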