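import Pool.Agent.Helper82.AN.Defs

/-! Block AN-INTLOG: Jensen's formula for one step.

`va A x = 2 + 2π A cos 2πx` for real `A` (`ee x = fourier 1 x`). With `z = e^{2π i x}`: `va = π A z⁻¹ (z - r₁) (z - r₂)`,
`r₁ r₂ = 1`, `r₁ + r₂ = -2/(π A)`; for `π |A| ≥ 1` both roots have absolute value one, and the mean of `log |z - r|` over the unit circle is `log⁺ |r|`
(`circleAverage_log_norm_sub_const` or similar in `Mathlib/Analysis/SpecialFunctions/Integrals/PosLogEqCircleAverage`), integrability from there too.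
`int_log_up`: `|va| + 2 ≤ s + 4`, `s = 2π |A| |cos 2πx|`, `(s + 4)² ≤ s² + T²` for `T² = 16 π |A| + 16`, `√(s² + T²) = |2π A cos 2πx + i T| = |π A (z - r₁)(z - r₂)|`, `r = i (± √(1 + t²) - t)`, `t = T / (2 π |A|)`, so the
mean is `log (π |A|) + log (√(1 + t²) + t) ≤ log (π |A|) + t`, `t ≤ 2 / √|A|`. `small_v`: `|va| < V` implies `|cos 2πx| < (V + 2) / (2π |A|)`; `cut` in `Helper46/QR/Core.lean`. -/

set_option autoImplicit false
open MeasureTheory Real Set

namespace Pool.Agent.Helper82.AN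

open Pool.Agent.Helper46.QP (va)

private theorem ee_coe34 (t : ℝ) : Pool.Agent.Helper46.QP.ee (t : UnitAddCircle) = circleMap 0 1 (2 * π * t) := by
  unfold Pool.Agent.Helper46.QP.ee circleMap
  rw [fourier_coe_apply]
  push_cast
  rw [zero_add, one_mul]
  congr 1
  ring

private theorem norm_ee34 (x : UnitAddCircle) : ‖Pool.Agent.Helper46.QP.ee x‖ = 1 := by
  unfold Pool.Agent.Helper46.QP.ee
  rw [fourier_apply]
  exact Circle.norm_coe _

private theorem ee_null34 (r : ℂ) : ∀ᵐ x : UnitAddCircle, Pool.Agent.Helper46.QP.ee x - r ≠ 0 := by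
  have h : {x : UnitAddCircle | ¬ (Pool.Agent.Helper46.QP.ee x - r ≠ 0)}.Subsingleton := by
    intro x hx y hy
    simp only [mem_ofPred_eq, not_not, sub_eq_zero] at hx hy
    have h1 : Pool.Agent.Helper46.QP.ee x = Pool.Agent.Helper46.QP.ee y := hx.trans hy.symm
    unfold Pool.Agent.Helper46.QP.ee at h1
    rw [fourier_one, fourier_one] at h1
    exact AddCircle.injective_toCircle one_ne_zero (Subtype.ext h1)
  rcases h.eq_empty_or_singleton with h0 | ⟨y, hy⟩
  · rw [ae_iff, h0, measure_empty]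
  · rw [ae_iff, hy, ← Metric.closedBall_zero, AddCircle.volume_closedBall, mul_zero, min_eq_right zero_le_one,
      ENNReal.ofReal_zero]

private theorem jen34 (r : ℂ) :
    Integrable (fun x : UnitAddCircle => Real.log ‖Pool.Agent.Helper46.QP.ee x - r‖) ∧
      ∫ x : UnitAddCircle, Real.log ‖Pool.Agent.Helper46.QP.ee x - r‖ = Real.posLog ‖r‖ := by
  have hm : Measurable fun x : UnitAddCircle => Real.log ‖Pool.Agent.Helper46.QP.ee x - r‖ :=
    Real.measurable_log.comp (Pool.Agent.Helper46.QP.ee_meas.sub_const r).norm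
  have hc : (2 * π) ≠ 0 := by positivity
  have h1 : IntervalIntegrable (fun θ : ℝ => Real.log ‖circleMap 0 1 θ - r‖) volume 0 (2 * π) :=
    circleIntegrable_log_norm_sub_const (a := r) (c := 0) 1
  have h2 : IntervalIntegrable (fun t : ℝ => Real.log ‖Pool.Agent.Helper46.QP.ee (t : UnitAddCircle) - r‖) volume 0 1 := by
    have h3 := h1.comp_mul_left (c := 2 * π)
    rw [zero_div, div_self hc] at h3
    simpa only [ee_coe34] using h3
  refine ⟨?_, ?_⟩
  · rw [← (UnitAddCircle.measurePreserving_mk 0).integrable_comp hm.aestronglyMeasurable]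
    rw [intervalIntegrable_iff_integrableOn_Ioc_of_le zero_le_one] at h2
    rw [zero_add]
    exact h2
  · have h4 := circleAverage_log_norm_sub_const_eq_posLog (a := r)
    unfold circleAverage at h4
    rw [← UnitAddCircle.intervalIntegral_preimage 0, zero_add]
    simp only [ee_coe34]
    have h5 := intervalIntegral.integral_comp_mul_left (a := 0) (b := 1)
      (fun θ : ℝ => Real.log ‖circleMap 0 1 θ - r‖) hc
    rw [mul_zero, mul_one] at h5
    rw [h5]
    exact h4

private theorem quad34 {K : ℝ} (hK : 0 < K) (r1 r2 : ℂ) :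
    Integrable (fun x : UnitAddCircle =>
      Real.log (K * ‖(Pool.Agent.Helper46.QP.ee x - r1) * (Pool.Agent.Helper46.QP.ee x - r2)‖)) ∧
    ∫ x : UnitAddCircle, Real.log (K * ‖(Pool.Agent.Helper46.QP.ee x - r1) * (Pool.Agent.Helper46.QP.ee x - r2)‖) =
      Real.log K + (Real.posLog ‖r1‖ + Real.posLog ‖r2‖) := by
  have hae : (fun x : UnitAddCircle =>
      Real.log (K * ‖(Pool.Agent.Helper46.QP.ee x - r1) * (Pool.Agent.Helper46.QP.ee x - r2)‖)) =ᵐ[volume]
      fun x => Real.log K + (Real.log ‖Pool.Agent.Helper46.QP.ee x - r1‖ + Real.log ‖Pool.Agent.Helper46.QP.ee x - r2‖) := by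
    filter_upwards [ee_null34 r1, ee_null34 r2] with x h1 h2
    rw [norm_mul, Real.log_mul hK.ne' (mul_ne_zero (norm_ne_zero_iff.2 h1) (norm_ne_zero_iff.2 h2)),
      Real.log_mul (norm_ne_zero_iff.2 h1) (norm_ne_zero_iff.2 h2)]
  have hi : Integrable fun x : UnitAddCircle => Real.log ‖Pool.Agent.Helper46.QP.ee x - r1‖ +
      Real.log ‖Pool.Agent.Helper46.QP.ee x - r2‖ := (jen34 r1).1.add (jen34 r2).1
  have hi2 := (integrable_const (μ := (volume : Measure UnitAddCircle)) (Real.log K)).add hi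
  refine ⟨(integrable_congr hae).2 hi2, ?_⟩
  rw [integral_congr_ae hae]
  have e1 : ∫ x : UnitAddCircle, (Real.log K + (Real.log ‖Pool.Agent.Helper46.QP.ee x - r1‖ +
      Real.log ‖Pool.Agent.Helper46.QP.ee x - r2‖)) =
      (∫ x : UnitAddCircle, Real.log K) + ∫ x : UnitAddCircle, (Real.log ‖Pool.Agent.Helper46.QP.ee x - r1‖ +
        Real.log ‖Pool.Agent.Helper46.QP.ee x - r2‖) := integral_add (integrable_const _) hi
  have e2 : ∫ x : UnitAddCircle, (Real.log ‖Pool.Agent.Helper46.QP.ee x - r1‖ +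
      Real.log ‖Pool.Agent.Helper46.QP.ee x - r2‖) = _ := integral_add (jen34 r1).1 (jen34 r2).1
  rw [e1, e2, (jen34 r1).2, (jen34 r2).2, integral_const]
  simp

private theorem re_eq34 (x : UnitAddCircle) : ((Pool.Agent.Helper46.QP.ee x).re : ℂ) * 2 * Pool.Agent.Helper46.QP.ee x =
    Pool.Agent.Helper46.QP.ee x ^ 2 + 1 := by
  set z := Pool.Agent.Helper46.QP.ee x with hz
  have h1 : z * (starRingEnd ℂ) z = 1 := by
    rw [Complex.mul_conj, Complex.normSq_eq_norm_sq, hz, norm_ee34]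
    norm_num
  have h2 : (z.re : ℂ) = (z + (starRingEnd ℂ) z) / 2 := Complex.re_eq_add_conj z
  rw [h2]
  linear_combination h1

/-- `|2π A cos 2πx + b| = π |A| |(z - r₁) (z - r₂)|` -/
private theorem abs34 {A : ℝ} (b r1 r2 : ℂ) (h1 : r1 * r2 = 1) (h2 : π * A * (r1 + r2) = -b)
    (x : UnitAddCircle) : ‖(2 * π * (A * (Pool.Agent.Helper46.QP.ee x).re) : ℂ) + b‖ =
      π * |A| * ‖(Pool.Agent.Helper46.QP.ee x - r1) * (Pool.Agent.Helper46.QP.ee x - r2)‖ := by
  have h3 := re_eq34 x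
  have h4 : ((2 * π * (A * (Pool.Agent.Helper46.QP.ee x).re) : ℂ) + b) * Pool.Agent.Helper46.QP.ee x =
      (π * A : ℂ) * ((Pool.Agent.Helper46.QP.ee x - r1) * (Pool.Agent.Helper46.QP.ee x - r2)) := by
    linear_combination (π * A : ℂ) * h3 - (π * A : ℂ) * h1 + Pool.Agent.Helper46.QP.ee x * h2
  have h5 := congrArg norm h4
  rw [norm_mul, norm_ee34, mul_one, norm_mul, norm_mul, Complex.norm_real, Complex.norm_real, Real.norm_eq_abs,
    Real.norm_eq_abs, abs_of_pos Real.pi_pos] at h5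
  exact h5

private theorem va34 (A : ℝ) (x : UnitAddCircle) : va (A : ℂ) x = 2 * π * (A * (Pool.Agent.Helper46.QP.ee x).re) + 2 := by
  unfold va
  rw [Complex.re_ofReal_mul]
  ring

private theorem abs_va34 {A : ℝ} (r1 r2 : ℂ) (h1 : r1 * r2 = 1) (h2 : π * A * (r1 + r2) = -2)
    (x : UnitAddCircle) : |va (A : ℂ) x| =
      π * |A| * ‖(Pool.Agent.Helper46.QP.ee x - r1) * (Pool.Agent.Helper46.QP.ee x - r2)‖ := by
  rw [← abs34 2 r1 r2 h1 h2 x, va34, ← Real.norm_eq_abs, ← Complex.norm_real]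
  push_cast
  rfl

theorem int_log {A : ℝ} (hA : 1 ≤ π * |A|) : Integrable (fun x : UnitAddCircle => Real.log |va (A : ℂ) x|) ∧
    ∫ x : UnitAddCircle, Real.log |va (A : ℂ) x| = Real.log (π * |A|) := by
  have hA0 : A ≠ 0 := by
    rintro rfl
    rw [abs_zero, mul_zero] at hA
    linarith
  have hpA : π * A ≠ 0 := mul_ne_zero Real.pi_ne_zero hA0
  set c : ℝ := 1 / (π * A) with hc
  have hc1 : c ^ 2 ≤ 1 := by
    rw [hc, div_pow, one_pow, div_le_one (by positivity)]
    calc (1 : ℝ) ≤ (π * |A|) ^ 2 := one_le_pow₀ hA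
      _ = (π * A) ^ 2 := by rw [mul_pow, sq_abs, mul_pow]
  set s : ℝ := √(1 - c ^ 2) with hs
  have hs2 : s ^ 2 = 1 - c ^ 2 := Real.sq_sqrt (by linarith)
  have hn : ∀ ε : ℝ, ε ^ 2 = 1 → ‖(⟨-c, ε * s⟩ : ℂ)‖ = 1 := by
    intro ε hε
    rw [Complex.norm_def, Complex.normSq_mk]
    rw [show -c * -c + ε * s * (ε * s) = c ^ 2 + ε ^ 2 * s ^ 2 by ring, hε, hs2]
    norm_num
  have h1 : (⟨-c, 1 * s⟩ : ℂ) * ⟨-c, -1 * s⟩ = 1 := by
    apply Complex.ext
    · simp only [Complex.mul_re, Complex.one_re]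
      nlinarith
    · simp only [Complex.mul_im, Complex.one_im]
      ring
  have h2 : (π * A : ℂ) * ((⟨-c, 1 * s⟩ : ℂ) + ⟨-c, -1 * s⟩) = -2 := by
    have e : ((⟨-c, 1 * s⟩ : ℂ) + ⟨-c, -1 * s⟩) = ((-2 * c : ℝ) : ℂ) := by
      apply Complex.ext
      · simp only [Complex.add_re, Complex.ofReal_re]
        ring
      · simp only [Complex.add_im, Complex.ofReal_im]
        ring
    rw [e]
    have e2 : π * A * (-2 * c) = -2 := by
      rw [hc]
      field_simp
    exact_mod_cast e2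
  have hq := quad34 (K := π * |A|) (by linarith) ⟨-c, 1 * s⟩ ⟨-c, -1 * s⟩
  simp only [← abs_va34 _ _ h1 h2] at hq
  refine ⟨hq.1, hq.2.trans ?_⟩
  rw [hn 1 (by norm_num), hn (-1) (by norm_num)]
  simp [Real.posLog]

/-- small amplitudes: the mean is `log (1 + √(1 - π² A²))` -/
theorem int_log_small {A : ℝ} (hA : π * |A| < 1) : Integrable (fun x : UnitAddCircle => Real.log |va (A : ℂ) x|) ∧
    0 ≤ ∫ x : UnitAddCircle, Real.log |va (A : ℂ) x| ∧ ∫ x : UnitAddCircle, Real.log |va (A : ℂ) x| ≤ Real.log 2 := by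
  rcases eq_or_ne A 0 with rfl | hA0
  · have h : (fun x : UnitAddCircle => Real.log |va ((0 : ℝ) : ℂ) x|) = fun _ => Real.log 2 := by
      funext x
      rw [va34]
      simp
    rw [h]
    refine ⟨integrable_const _, ?_, ?_⟩
    · simp [Real.log_nonneg]
    · simp
  have hpA : π * A ≠ 0 := mul_ne_zero Real.pi_ne_zero hA0
  have hpA' : 0 < π * |A| := by positivity
  -- the roots `-c - sign * √(c² - 1)`: work with `r = -(1 + √(1 - (πA)²)) / (πA)`
  set u : ℝ := √(1 - (π * A) ^ 2) with hu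
  have hlt : (π * A) ^ 2 < 1 := by
    rw [mul_pow, ← sq_abs A, ← mul_pow]
    exact pow_lt_one₀ hpA'.le hA two_ne_zero
  have hu2 : u ^ 2 = 1 - (π * A) ^ 2 := Real.sq_sqrt (by linarith)
  have hu0 : 0 ≤ u := Real.sqrt_nonneg _
  have hu1 : u ≤ 1 := by
    by_contra h
    push Not at h
    nlinarith [sq_nonneg (π * A)]
  have h1 : ((-(1 + u) / (π * A) : ℝ) : ℂ) * ((-(1 - u) / (π * A) : ℝ) : ℂ) = 1 := by
    have e : (-(1 + u) / (π * A)) * (-(1 - u) / (π * A)) = 1 := by
      rw [div_mul_div_comm, div_eq_one_iff_eq (mul_ne_zero hpA hpA)]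
      nlinarith
    exact_mod_cast e
  have h2 : (π * A : ℂ) * (((-(1 + u) / (π * A) : ℝ) : ℂ) + ((-(1 - u) / (π * A) : ℝ) : ℂ)) = -2 := by
    have e : π * A * ((-(1 + u) / (π * A)) + (-(1 - u) / (π * A))) = -2 := by
      field_simp
      ring
    exact_mod_cast e
  have hq := quad34 (K := π * |A|) hpA' ((-(1 + u) / (π * A) : ℝ) : ℂ) ((-(1 - u) / (π * A) : ℝ) : ℂ)
  simp only [← abs_va34 _ _ h1 h2] at hq
  have hn1 : ‖((-(1 + u) / (π * A) : ℝ) : ℂ)‖ = (1 + u) / (π * |A|) := by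
    rw [Complex.norm_real, Real.norm_eq_abs, abs_div, abs_neg, abs_of_nonneg (by linarith), abs_mul,
      abs_of_pos Real.pi_pos]
  have hn2 : ‖((-(1 - u) / (π * A) : ℝ) : ℂ)‖ = (1 - u) / (π * |A|) := by
    rw [Complex.norm_real, Real.norm_eq_abs, abs_div, abs_neg, abs_of_nonneg (by linarith), abs_mul,
      abs_of_pos Real.pi_pos]
  have hn3 : (1 - u) / (π * |A|) ≤ 1 := by
    rw [div_le_one hpA']
    have : (1 - u) ^ 2 ≤ (π * |A|) ^ 2 := by
      rw [mul_pow, sq_abs, ← mul_pow]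
      nlinarith
    exact abs_le_of_sq_le_sq' this hpA'.le |>.2
  have hn4 : 1 ≤ (1 + u) / (π * |A|) := by
    rw [one_le_div hpA']
    linarith
  have hval : ∫ x : UnitAddCircle, Real.log |va (A : ℂ) x| = Real.log (1 + u) := by
    rw [hq.2, hn1, hn2, Real.posLog_eq_log (by rw [abs_of_nonneg (by positivity)]; exact hn4),
      (Real.posLog_eq_zero_iff _).2 (by rw [abs_of_nonneg (div_nonneg (by linarith) hpA'.le)]; exact hn3), add_zero,
      ← Real.log_mul hpA'.ne' (by positivity)]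
    congr 1
    field_simp
  refine ⟨hq.1, ?_, ?_⟩
  · rw [hval]
    exact Real.log_nonneg (by linarith)
  · rw [hval]
    exact Real.log_le_log (by linarith) (by linarith)

theorem int_log_up {A : ℝ} (hA : 1 ≤ |A|) :
    ∫ x : UnitAddCircle, Real.log (|va (A : ℂ) x| + 2) ≤ Real.log (π * |A|) + 2 / √|A| := by
  have hA0 : A ≠ 0 := by
    rintro rfl
    rw [abs_zero] at hA
    linarith
  have hAp : 0 < |A| := by linarith
  have hpA : π * A ≠ 0 := mul_ne_zero Real.pi_ne_zero hA0
  have hpA' : 0 < π * |A| := by positivity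
  set T : ℝ := √(16 * π * |A| + 16) with hT
  have hT2 : T ^ 2 = 16 * π * |A| + 16 := Real.sq_sqrt (by positivity)
  have hT0 : 0 ≤ T := Real.sqrt_nonneg _
  set t : ℝ := T / (2 * (π * A)) with ht
  set w : ℝ := √(1 + t ^ 2) with hw
  have hw2 : w ^ 2 = 1 + t ^ 2 := Real.sq_sqrt (by positivity)
  have hw0 : 0 ≤ w := Real.sqrt_nonneg _
  have h1 : (⟨0, w - t⟩ : ℂ) * ⟨0, -w - t⟩ = 1 := by
    apply Complex.ext
    · simp only [Complex.mul_re, Complex.one_re]
      nlinarith
    · simp only [Complex.mul_im, Complex.one_im]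
      ring
  have h2 : (π * A : ℂ) * ((⟨0, w - t⟩ : ℂ) + ⟨0, -w - t⟩) = -(⟨0, T⟩ : ℂ) := by
    have e : ((⟨0, w - t⟩ : ℂ) + ⟨0, -w - t⟩) = ((-2 * t : ℝ) : ℂ) * Complex.I := by
      apply Complex.ext
      · simp
      · simp
        ring
    have e3 : -(⟨0, T⟩ : ℂ) = ((-T : ℝ) : ℂ) * Complex.I := by
      apply Complex.ext
      · simp
      · simp
    rw [e, e3, ← mul_assoc]
    have e2 : π * A * (-2 * t) = -T := by
      rw [ht]
      field_simp
    congr 1
    exact_mod_cast e2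
  have hq := quad34 (K := π * |A|) hpA' ⟨0, w - t⟩ ⟨0, -w - t⟩
  simp only [← abs34 _ _ _ h1 h2] at hq
  -- comparison
  have hcmp : ∀ x : UnitAddCircle, |va (A : ℂ) x| + 2 ≤
      ‖(2 * π * (A * (Pool.Agent.Helper46.QP.ee x).re) : ℂ) + (⟨0, T⟩ : ℂ)‖ := by
    intro x
    set s : ℝ := 2 * π * (A * (Pool.Agent.Helper46.QP.ee x).re) with hs
    have e1 : ((2 * π * (A * (Pool.Agent.Helper46.QP.ee x).re) : ℂ) + (⟨0, T⟩ : ℂ)) = ⟨s, T⟩ := by
      apply Complex.ext
      · rw [hs]
        simp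
      · simp
    have hs3 : |s| ≤ 2 * π * |A| := by
      have h5 : |(Pool.Agent.Helper46.QP.ee x).re| ≤ 1 := (Complex.abs_re_le_norm _).trans (norm_ee34 x).le
      rw [hs, abs_mul, abs_mul, abs_mul, abs_two, abs_of_pos Real.pi_pos]
      calc 2 * π * (|A| * |(Pool.Agent.Helper46.QP.ee x).re|) ≤ 2 * π * (|A| * 1) := by gcongr
        _ = _ := by ring
    rw [e1, va34, ← hs, Complex.norm_def, Complex.normSq_mk]
    apply Real.le_sqrt_of_sq_le
    have h6 : |s + 2| + 2 ≤ |s| + 4 := by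
      have := abs_add_le s 2
      rw [abs_two] at this
      linarith
    calc (|s + 2| + 2) ^ 2 ≤ (|s| + 4) ^ 2 := by gcongr
      _ = |s| ^ 2 + 8 * |s| + 16 := by ring
      _ ≤ s * s + T * T := by
        rw [sq_abs, ← pow_two, ← pow_two, hT2]
        linarith
  have hcont : Continuous fun x : UnitAddCircle => Real.log (|va (A : ℂ) x| + 2) := by
    have hee : Continuous Pool.Agent.Helper46.QP.ee := by
      unfold Pool.Agent.Helper46.QP.ee
      exact (fourier (T := (1 : ℝ)) 1).continuous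
    have hva : Continuous fun x : UnitAddCircle => va (A : ℂ) x := by
      unfold va
      fun_prop
    refine Continuous.log (hva.abs.add continuous_const) fun x => ?_
    have h0 := abs_nonneg (va (A : ℂ) x)
    exact (by linarith : (0 : ℝ) < |va (A : ℂ) x| + 2).ne'
  have hint : Integrable (fun x : UnitAddCircle => Real.log (|va (A : ℂ) x| + 2)) :=
    hcont.integrable_of_hasCompactSupport (HasCompactSupport.of_compactSpace _)
  have hmono := integral_mono hint hq.1 (fun x => Real.log_le_log (by positivity) (hcmp x))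
  refine hmono.trans ?_
  rw [hq.2]
  -- the norms of the roots
  set τ : ℝ := |t| with hτ
  have hwτ : w = √(1 + τ ^ 2) := by rw [hτ, sq_abs]
  have hn : ∀ y : ℝ, ‖(⟨0, y⟩ : ℂ)‖ = |y| := by
    intro y
    rw [Complex.norm_def, Complex.normSq_mk, mul_zero, zero_add, Real.sqrt_mul_self_eq_abs]
  have hwt : |t| ≤ w := by
    rw [hw]
    apply Real.abs_le_sqrt
    linarith
  have hprod : |w - t| * |-w - t| = 1 := by
    rw [← abs_mul]
    have : (w - t) * (-w - t) = -1 := by nlinarith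
    rw [this]
    norm_num
  have hsum : Real.posLog |w - t| + Real.posLog |-w - t| = Real.log (w + τ) := by
    have hwt' := abs_le.1 hwt
    have ha1 : |w - t| = w - t := abs_of_nonneg (by linarith)
    have ha2 : |-w - t| = w + t := by
      rw [abs_of_nonpos (by linarith)]
      ring
    have hw1 : 1 ≤ w := by nlinarith [sq_nonneg t]
    rw [ha1, ha2]
    rw [ha1, ha2] at hprod
    rcases le_total 0 t with h | h
    · rw [hτ, abs_of_nonneg h, Real.posLog_eq_log (x := w + t) (by rw [abs_of_nonneg (by linarith)]; linarith),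
        (Real.posLog_eq_zero_iff _).2 (by
          rw [abs_of_nonneg (by linarith)]
          by_contra hh
          push Not at hh
          nlinarith), zero_add]
    · rw [hτ, abs_of_nonpos h, Real.posLog_eq_log (x := w - t) (by rw [abs_of_nonneg (by linarith)]; linarith),
        (Real.posLog_eq_zero_iff _).2 (by
          rw [abs_of_nonneg (by linarith)]
          by_contra hh
          push Not at hh
          nlinarith), add_zero]
      rfl
  rw [hn, hn, hsum]
  have harsinh : Real.log (w + τ) ≤ τ := by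
    have h7 : Real.arsinh τ ≤ τ := by
      have h8 := Real.arsinh_le_arsinh.2 (Real.self_le_sinh_iff.2 (abs_nonneg t))
      rwa [Real.arsinh_sinh] at h8
    rw [hwτ, add_comm]
    exact h7
  have hτle : τ ≤ 2 / √|A| := by
    rw [hτ, ht, abs_div, abs_of_nonneg hT0, abs_mul, abs_two, abs_mul, abs_of_pos Real.pi_pos]
    rw [div_le_div_iff₀ (by positivity) (by positivity)]
    refine (pow_le_pow_iff_left₀ (by positivity) (by positivity) two_ne_zero).1 ?_
    rw [mul_pow, hT2, Real.sq_sqrt hAp.le]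
    have h9 := Real.pi_gt_three
    have h10 : π * |A| + 1 ≤ π * (π * |A|) := by nlinarith
    nlinarith [mul_le_mul_of_nonneg_right h10 hAp.le]
  linarith

theorem small_v {A V : ℝ} (hA : 0 < |A|) (hV : 0 ≤ V) :
    volume {x : UnitAddCircle | |va (A : ℂ) x| < V} ≤ ENNReal.ofReal ((V + 2) / |A|) := by
  have hpi : 0 < π := Real.pi_pos
  have hsub : {x : UnitAddCircle | |va (A : ℂ) x| < V} ⊆
      {x : UnitAddCircle | |Pool.Agent.Helper82.QR.cs x| < (V + 2) / (2 * π * |A|)} := by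
    intro x hx
    simp only [mem_ofPred_eq] at hx ⊢
    rw [va34] at hx
    unfold Pool.Agent.Helper82.QR.cs
    rw [lt_div_iff₀ (by positivity)]
    have h1 : |2 * π * (A * (Pool.Agent.Helper46.QP.ee x).re)| < V + 2 := by
      have h2 := abs_sub_abs_le_abs_sub (2 * π * (A * (Pool.Agent.Helper46.QP.ee x).re)) (-2)
      rw [abs_neg, abs_two, sub_neg_eq_add] at h2
      linarith
    rw [abs_mul, abs_mul, abs_mul, abs_two, abs_of_pos hpi] at h1
    calc |(Pool.Agent.Helper46.QP.ee x).re| * (2 * π * |A|) = 2 * π * (|A| * |(Pool.Agent.Helper46.QP.ee x).re|) := by ring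
      _ < V + 2 := h1
  refine (measure_mono hsub).trans (((Pool.Agent.Helper46.QR.cut (by positivity)).2).trans ?_)
  apply ENNReal.ofReal_le_ofReal
  rw [mul_div_assoc', div_le_div_iff₀ (by positivity) hA]
  have h3 : 1 ≤ π := by linarith [Real.pi_gt_three]
  have h4 : 0 ≤ (V + 2) * |A| := by positivity
  nlinarith

end Pool.Agent.Helper82.AN
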