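import Pool.Agent.Helper82.AN.Init

/-! Block AN-NDG: consequences of the nondegeneracy `ND`.

`nd_v`: `|v| < V` gives `|f θ| |cos 2πx| < (V + 2) / (2π) ≤ V`, so for fixed `x` (`cos 2πx ≠ 0`) `ND` with `t = V / (lam |cos 2πx|) ≥ 1 / lam` gives measure at most `R (V / lam)^c |cos 2πx|^(-c)`, and `∫ |cos 2πx|^(-c) dx ≤ C_c` for `c < 1` (`volume {|cos| < ρ} ≤ 2 ρ`, `cut` in `Helper46/QR/Core.lean`; layer cake or dyadic sum).
`J_pos`: `|Jf f - ∫ log⁺ (π |f|)| ≤ log 2 * volume {π |f| < 1} ≤ R lam^(-c)` (`int_log`, `int_log_small`; `Real.posLog`). `J_up`: `int_log_up` where `|f| ≥ √lam`, and `log (|v| + 2) ≤ log (2π √lam + 4)`, `∫ log |v| ≥ 0`, on the rest, of measure at most `R lam^(-c/2)`. -/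

set_option autoImplicit false
open MeasureTheory Real Set

namespace Pool.Agent.Helper82.AN

open Pool.Agent.Helper18.UC (nn)
open Pool.Agent.Helper46.QP (TT Td orb Mx va stp)
open Pool.Agent.Helper82.QR (cs cs_meas sn_cs)

private lemma va63 (A : ℝ) (x : UnitAddCircle) : va (A : ℂ) x = 2 + 2 * π * (A * cs x) := by
  unfold va Pool.Agent.Helper82.QR.cs
  rw [Complex.re_ofReal_mul]

private lemma cs_le63 (x : UnitAddCircle) : |cs x| ≤ 1 := by
  have := sn_cs x
  rw [abs_le]
  constructor <;> nlinarith [sq_nonneg (Pool.Agent.Helper82.QR.sn x), sq_nonneg (cs x + 1), sq_nonneg (cs x - 1)]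

private lemma csint63 {c : ℝ} (hc : 0 < c) (hc1 : c < 1) :
    ∫⁻ x : UnitAddCircle, ENNReal.ofReal (|cs x| ^ (-c)) ≠ ⊤ := by
  have hprob : IsProbabilityMeasure (volume : Measure UnitAddCircle) := ⟨by simp⟩
  have hm : Measurable fun x : UnitAddCircle => |cs x| ^ (-c) := by
    have : Measurable fun x : UnitAddCircle => |cs x| := cs_meas.abs
    exact this.pow_const _
  rw [lintegral_eq_lintegral_meas_lt volume (Filter.Eventually.of_forall fun x => by positivity) hm.aemeasurable]
  have hsplit : (Ioi (0 : ℝ)) = Ioc 0 1 ∪ Ioi 1 := (Ioc_union_Ioi_eq_Ioi zero_le_one).symm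
  rw [hsplit]
  refine ne_top_of_le_ne_top ?_ (lintegral_union_le _ _ _)
  refine ENNReal.add_ne_top.2 ⟨?_, ?_⟩
  · refine ne_top_of_le_ne_top ?_ (lintegral_mono (g := fun _ => (1 : ENNReal)) fun t => prob_le_one)
    simp
  · have hint : IntegrableOn (fun t : ℝ => 2 * t ^ (-(1 / c))) (Ioi 1) := by
      refine (integrableOn_Ioi_rpow_of_lt ?_ one_pos).const_mul 2
      have : 1 < 1 / c := by rw [lt_div_iff₀ hc]; linarith
      linarith
    refine ne_top_of_le_ne_top (ne_of_lt (hint.lintegral_lt_top)) ?_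
    refine setLIntegral_mono' measurableSet_Ioi fun t ht => ?_
    have ht0 : (0 : ℝ) < t := lt_trans one_pos ht
    have hsub : {x : UnitAddCircle | t < |cs x| ^ (-c)} ⊆ {x | |cs x| < t ^ (-(1 / c))} := by
      intro x hx
      simp only [mem_ofPred_eq] at hx ⊢
      by_contra hcon
      push Not at hcon
      have h0 : 0 < t ^ (-(1 / c)) := Real.rpow_pos_of_pos ht0 _
      have h1 : |cs x| ^ (-c) ≤ (t ^ (-(1 / c))) ^ (-c) :=
        Real.rpow_le_rpow_of_nonpos h0 hcon (by linarith)
      rw [← Real.rpow_mul ht0.le, neg_mul_neg, one_div_mul_cancel hc.ne', Real.rpow_one] at h1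
      linarith
    exact (measure_mono hsub).trans (Pool.Agent.Helper46.QR.cut (Real.rpow_nonneg ht0.le _)).2

private lemma csne63 : ∀ᵐ x : UnitAddCircle, cs x ≠ 0 := by
  rw [ae_iff]
  simp only [ne_eq, not_not]
  refine le_antisymm (ENNReal.le_of_forall_pos_le_add fun ε hε _ => ?_) zero_le
  rw [zero_add]
  have hε' : (0 : ℝ) < ε := hε
  calc volume {x : UnitAddCircle | cs x = 0} ≤ volume {x : UnitAddCircle | |cs x| < (ε : ℝ) / 2} := by
        refine measure_mono fun x hx => ?_
        simp only [mem_ofPred_eq] at hx ⊢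
        rw [hx, abs_zero]
        positivity
    _ ≤ ENNReal.ofReal (2 * ((ε : ℝ) / 2)) := (Pool.Agent.Helper46.QR.cut (by positivity)).2
    _ = ε := by
        rw [mul_div_cancel₀ _ (by norm_num), ENNReal.ofReal_coe_nnreal]

private lemma probC63 : IsProbabilityMeasure (volume : Measure UnitAddCircle) := ⟨by simp⟩

private lemma probT63 : IsProbabilityMeasure (volume : Measure TT) := by
  have := probC63
  change IsProbabilityMeasure ((volume : Measure UnitAddCircle).prod volume)
  infer_instance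

private lemma probD63 (d : ℕ) : IsProbabilityMeasure (volume : Measure (Td d)) := by
  have := probC63
  change IsProbabilityMeasure (Measure.pi fun _ : Fin d => (volume : Measure UnitAddCircle))
  infer_instance

theorem nd_v {c : ℝ} (hc : 0 < c) (hc1 : c < 1) : ∃ C : ℝ, 1 ≤ C ∧ ∀ (d : ℕ) (f : Td d → ℝ) (lam R V : ℝ),
    Continuous f → 1 ≤ lam → 1 ≤ R → ND f lam c R → 4 ≤ V →
    volume {p : Td d × TT | |va ((f p.1 : ℝ) : ℂ) p.2.1| < V} ≤ ENNReal.ofReal (C * R * (V / lam) ^ c) := by
  have hC := csint63 hc hc1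
  set I : ENNReal := ∫⁻ x : UnitAddCircle, ENNReal.ofReal (|cs x| ^ (-c)) with hI
  refine ⟨max 1 I.toReal, le_max_left _ _, ?_⟩
  intro d f lam R V hf hl hR hnd hV
  have hC1 := probC63
  have hT1 := probT63
  have hD1 := probD63 d
  have hl0 : 0 < lam := by linarith
  have hm : Measurable fun p : Td d × TT => va ((f p.1 : ℝ) : ℂ) p.2.1 := by
    have e : (fun p : Td d × TT => va ((f p.1 : ℝ) : ℂ) p.2.1) = fun p => 2 + 2 * π * (f p.1 * cs p.2.1) := by
      funext p
      exact va63 _ _
    rw [e]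
    exact ((((hf.measurable.comp measurable_fst).mul (cs_meas.comp (measurable_fst.comp measurable_snd))).const_mul
      _).const_add _)
  have hms : MeasurableSet {p : Td d × TT | |va ((f p.1 : ℝ) : ℂ) p.2.1| < V} :=
    measurableSet_lt hm.abs measurable_const
  have h1 : volume {p : Td d × TT | |va ((f p.1 : ℝ) : ℂ) p.2.1| < V} =
      ∫⁻ z : TT, volume ((fun θ : Td d => (θ, z)) ⁻¹' {p : Td d × TT | |va ((f p.1 : ℝ) : ℂ) p.2.1| < V}) :=
    Measure.prod_apply_symm hms
  rw [h1]
  have hK0 : 0 ≤ R * (V / lam) ^ c := by positivity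
  have hcst : MeasurePreserving (Prod.fst : TT → UnitAddCircle) volume volume := measurePreserving_fst
  calc ∫⁻ z : TT, volume ((fun θ : Td d => (θ, z)) ⁻¹' {p : Td d × TT | |va ((f p.1 : ℝ) : ℂ) p.2.1| < V})
      ≤ ∫⁻ z : TT, ENNReal.ofReal (R * (V / lam) ^ c) * ENNReal.ofReal (|cs z.1| ^ (-c)) := by
        refine lintegral_mono_ae ?_
        filter_upwards [hcst.quasiMeasurePreserving.ae csne63] with z hz
        have hz0 : 0 < |cs z.1| := abs_pos.2 hz
        have hsub : (fun θ : Td d => (θ, z)) ⁻¹' {p : Td d × TT | |va ((f p.1 : ℝ) : ℂ) p.2.1| < V} ⊆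
            {θ | |f θ| < V / (lam * |cs z.1|) * lam} := by
          intro θ hθ
          simp only [mem_preimage, mem_ofPred_eq] at hθ ⊢
          rw [va63] at hθ
          have h2 : 2 * π * (|f θ| * |cs z.1|) < V + 2 := by
            have h3 : |2 * π * (f θ * cs z.1)| < V + 2 := by
              rw [abs_lt] at hθ ⊢
              constructor <;> linarith [hθ.1, hθ.2]
            rwa [abs_mul, abs_of_pos (by positivity : (0 : ℝ) < 2 * π), abs_mul] at h3
          have h4 : |f θ| * |cs z.1| < V := by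
            have h5 : 0 ≤ |f θ| * |cs z.1| := by positivity
            nlinarith [Real.pi_gt_three]
          have e : V / (lam * |cs z.1|) * lam = V / |cs z.1| := by field_simp
          rw [e, lt_div_iff₀ hz0]
          exact h4
        refine (measure_mono hsub).trans ((hnd _ ?_).trans ?_)
        · rw [div_le_div_iff₀ hl0 (by positivity)]
          have := cs_le63 z.1
          nlinarith
        · rw [← ENNReal.ofReal_mul hK0]
          refine ENNReal.ofReal_le_ofReal (le_of_eq ?_)
          have e : V / (lam * |cs z.1|) = V / lam * |cs z.1|⁻¹ := by field_simp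
          rw [e, Real.mul_rpow (by positivity) (by positivity), Real.inv_rpow (abs_nonneg _), Real.rpow_neg (abs_nonneg _)]
          ring
    _ = ENNReal.ofReal (R * (V / lam) ^ c) * ∫⁻ z : TT, ENNReal.ofReal (|cs z.1| ^ (-c)) := by
        rw [lintegral_const_mul' _ _ ENNReal.ofReal_ne_top]
    _ = ENNReal.ofReal (R * (V / lam) ^ c) * I := by
        congr 1
        have hmm : Measurable fun x : UnitAddCircle => ENNReal.ofReal (|cs x| ^ (-c)) := by
          have : Measurable fun x : UnitAddCircle => |cs x| := cs_meas.abs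
          exact (this.pow_const _).ennreal_ofReal
        exact hcst.lintegral_comp hmm
    _ = ENNReal.ofReal (R * (V / lam) ^ c * I.toReal) := by
        rw [ENNReal.ofReal_mul hK0, ENNReal.ofReal_toReal hC]
    _ ≤ ENNReal.ofReal (max 1 I.toReal * R * (V / lam) ^ c) := by
        refine ENNReal.ofReal_le_ofReal ?_
        have := le_max_right 1 I.toReal
        calc R * (V / lam) ^ c * I.toReal ≤ R * (V / lam) ^ c * max 1 I.toReal := mul_le_mul_of_nonneg_left this hK0
          _ = _ := by ring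

/-- the mean over the circle -/
private noncomputable def JA63 (A : ℝ) : ℝ := ∫ x : UnitAddCircle, Real.log |va (A : ℂ) x|

private lemma fstint63 (g : UnitAddCircle → ℝ) : ∫ z : TT, g z.1 = ∫ x, g x := by
  have := probC63
  have h : ∫ z : TT, g z.1 = ∫ z, g z.1 ∂((volume : Measure UnitAddCircle).prod volume) := rfl
  rw [h, integral_fun_fst]
  simp

private lemma Jf63 {d : ℕ} {f : Td d → ℝ} (hf : Continuous f) :
    Integrable (fun θ => JA63 (f θ)) ∧ Jf f = ∫ θ, JA63 (f θ) := by
  have hi := int_v hf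
  have e : ∀ θ : Td d, ∫ z : TT, Real.log |va ((f θ : ℝ) : ℂ) z.1| = JA63 (f θ) := fun θ =>
    fstint63 fun x => Real.log |va ((f θ : ℝ) : ℂ) x|
  constructor
  · have h1 : Integrable (fun θ : Td d => ∫ z : TT, Real.log |va ((f θ : ℝ) : ℂ) z.1|) :=
      Integrable.integral_prod_left hi
    refine h1.congr (Filter.Eventually.of_forall fun θ => e θ)
  · have h1 : Jf f = ∫ θ : Td d, ∫ z : TT, Real.log |va ((f θ : ℝ) : ℂ) z.1| := integral_prod _ hi
    rw [h1]
    exact integral_congr_ae (Filter.Eventually.of_forall fun θ => e θ)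

private lemma JAnn63 (A : ℝ) : 0 ≤ JA63 A := by
  unfold JA63
  rcases le_or_gt 1 (π * |A|) with h | h
  · rw [(int_log h).2]
    exact Real.log_nonneg h
  · exact (int_log_small h).2.1

private lemma volf63 {d : ℕ} {f : Td d → ℝ} {lam c R t : ℝ} (hl : 0 < lam) (hR : 0 ≤ R) (ht : 1 / lam ≤ t)
    (hnd : ND f lam c R) : volume.real {θ | |f θ| < t * lam} ≤ R * t ^ c := by
  have ht0 : 0 < t := lt_of_lt_of_le (by positivity) ht
  exact ENNReal.toReal_le_of_le_ofReal (by positivity) (hnd t ht)

theorem J_pos {d : ℕ} {f : Td d → ℝ} (hf : Continuous f) {lam c R : ℝ} (hl : 1 ≤ lam) (hR : 1 ≤ R) (hc : 0 < c)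
    (hnd : ND f lam c R) : |Jf f - ∫ θ, Real.posLog (π * f θ)| ≤ R * lam ^ (-c) := by
  have hD1 := probD63 d
  obtain ⟨hi, he⟩ := Jf63 hf
  have hl0 : 0 < lam := by linarith
  have hcp : Continuous fun θ : Td d => Real.posLog (π * f θ) :=
    Real.continuous_posLog.comp (continuous_const.mul hf)
  have hip : Integrable (fun θ : Td d => Real.posLog (π * f θ)) :=
    hcp.integrable_of_hasCompactSupport (HasCompactSupport.of_compactSpace _)
  set S : Set (Td d) := {θ | |f θ| < 1 / lam * lam} with hS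
  have hSm : MeasurableSet S := measurableSet_lt hf.measurable.abs measurable_const
  have hSv : volume.real S ≤ R * lam ^ (-c) := by
    have := volf63 hl0 (by linarith) le_rfl hnd
    rwa [one_div, Real.inv_rpow hl0.le, ← Real.rpow_neg hl0.le, ← one_div] at this
  rw [he, ← integral_sub hi hip]
  have hpt : ∀ θ : Td d, ‖JA63 (f θ) - Real.posLog (π * f θ)‖ ≤ S.indicator (fun _ => Real.log 2) θ := by
    intro θ
    have habs : |π * f θ| = π * |f θ| := by rw [abs_mul, abs_of_pos Real.pi_pos]
    rcases le_or_gt 1 (π * |f θ|) with h | h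
    · have e1 : JA63 (f θ) = Real.log (π * |f θ|) := (int_log h).2
      have e2 : Real.posLog (π * f θ) = Real.log (π * |f θ|) := by
        rw [← Real.posLog_abs, habs, Real.posLog_eq_log (by rwa [abs_of_nonneg (by positivity)])]
      rw [e1, e2, sub_self, norm_zero]
      exact Set.indicator_nonneg (fun _ _ => Real.log_nonneg (by norm_num)) _
    · have e2 : Real.posLog (π * f θ) = 0 := by
        rw [Real.posLog_eq_zero_iff, habs]
        exact h.le
      have hmem : θ ∈ S := by
        simp only [hS, mem_ofPred_eq]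
        rw [one_div_mul_cancel hl0.ne']
        have h3 := Real.pi_gt_three
        have h4 := abs_nonneg (f θ)
        nlinarith
      rw [e2, sub_zero, Set.indicator_of_mem hmem, Real.norm_eq_abs, abs_of_nonneg (JAnn63 _)]
      exact (int_log_small h).2.2
  have h2 : Real.log 2 ≤ 1 := by
    have := Real.log_two_lt_d9
    linarith
  calc |∫ θ, (JA63 (f θ) - Real.posLog (π * f θ))| ≤ ∫ θ, ‖JA63 (f θ) - Real.posLog (π * f θ)‖ := by
        rw [← Real.norm_eq_abs]
        exact norm_integral_le_integral_norm _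
    _ ≤ ∫ θ, S.indicator (fun _ => Real.log 2) θ :=
        integral_mono (hi.sub hip).norm ((integrable_const _).indicator hSm) hpt
    _ = volume.real S * Real.log 2 := by
        rw [integral_indicator hSm, setIntegral_const, smul_eq_mul]
    _ ≤ volume.real S * 1 := mul_le_mul_of_nonneg_left h2 measureReal_nonneg
    _ ≤ R * lam ^ (-c) := by rw [mul_one]; exact hSv

theorem J_up {d : ℕ} {f : Td d → ℝ} (hf : Continuous f) {lam c R : ℝ} (hl : 1 ≤ lam) (hR : 1 ≤ R) (hc : 0 < c)
    (hnd : ND f lam c R) :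
    ∫ p : Td d × TT, Real.log (|va ((f p.1 : ℝ) : ℂ) p.2.1| + 2) ≤
      Jf f + 2 * lam ^ (-(1 / 4) : ℝ) + R * lam ^ (-(c / 2)) * Real.log (2 * π * √lam + 4) := by
  have hC1 := probC63
  have hT1 := probT63
  have hD1 := probD63 d
  obtain ⟨hi, he⟩ := Jf63 hf
  have hl0 : 0 < lam := by linarith
  have hsq0 : 0 < √lam := Real.sqrt_pos.2 hl0
  have hcv : Continuous fun p : Td d × TT => va ((f p.1 : ℝ) : ℂ) p.2.1 := by
    unfold va Pool.Agent.Helper46.QP.ee
    refine continuous_const.add (continuous_const.mul (Complex.continuous_re.comp ?_))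
    exact (Complex.continuous_ofReal.comp (hf.comp continuous_fst)).mul
      ((fourier 1).continuous.comp (continuous_fst.comp continuous_snd))
  have hcl : Continuous fun p : Td d × TT => Real.log (|va ((f p.1 : ℝ) : ℂ) p.2.1| + 2) :=
    Continuous.log (hcv.abs.add continuous_const) fun p => ne_of_gt (by
      have h1 := abs_nonneg (va ((f p.1 : ℝ) : ℂ) p.2.1)
      have h2 : (0 : ℝ) < |va ((f p.1 : ℝ) : ℂ) p.2.1| + 2 := by linarith
      exact h2)
  have hil : Integrable (fun p : Td d × TT => Real.log (|va ((f p.1 : ℝ) : ℂ) p.2.1| + 2)) :=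
    hcl.integrable_of_hasCompactSupport (HasCompactSupport.of_compactSpace _)
  have e : ∀ θ : Td d, ∫ z : TT, Real.log (|va ((f θ : ℝ) : ℂ) z.1| + 2) =
      ∫ x, Real.log (|va ((f θ : ℝ) : ℂ) x| + 2) := fun θ =>
    fstint63 fun x => Real.log (|va ((f θ : ℝ) : ℂ) x| + 2)
  have e1 : ∫ p : Td d × TT, Real.log (|va ((f p.1 : ℝ) : ℂ) p.2.1| + 2) =
      ∫ θ : Td d, ∫ x, Real.log (|va ((f θ : ℝ) : ℂ) x| + 2) := by
    have h1 : ∫ p : Td d × TT, Real.log (|va ((f p.1 : ℝ) : ℂ) p.2.1| + 2) =
        ∫ θ : Td d, ∫ z : TT, Real.log (|va ((f θ : ℝ) : ℂ) z.1| + 2) := integral_prod _ hil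
    rw [h1]
    exact integral_congr_ae (Filter.Eventually.of_forall fun θ => e θ)
  have hiu : Integrable (fun θ : Td d => ∫ x, Real.log (|va ((f θ : ℝ) : ℂ) x| + 2)) := by
    have h1 : Integrable (fun θ : Td d => ∫ z : TT, Real.log (|va ((f θ : ℝ) : ℂ) z.1| + 2)) :=
      Integrable.integral_prod_left hil
    exact h1.congr (Filter.Eventually.of_forall fun θ => e θ)
  have htl : lam ^ (-(1 / 2) : ℝ) * lam = √lam := by
    rw [Real.sqrt_eq_rpow]
    nth_rewrite 2 [← Real.rpow_one lam]
    rw [← Real.rpow_add hl0]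
    norm_num
  set S : Set (Td d) := {θ | |f θ| < √lam} with hS
  have hSm : MeasurableSet S := measurableSet_lt hf.measurable.abs measurable_const
  have hSv : volume.real S ≤ R * lam ^ (-(c / 2)) := by
    have h1 : 1 / lam ≤ lam ^ (-(1 / 2) : ℝ) := by
      rw [one_div, ← Real.rpow_neg_one]
      exact Real.rpow_le_rpow_of_exponent_le hl (by norm_num)
    have := volf63 hl0 (by linarith) h1 hnd
    rw [htl, ← Real.rpow_mul hl0.le] at this
    refine this.trans (le_of_eq ?_)
    congr 2
    ring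
  set Lg := Real.log (2 * π * √lam + 4) with hLg
  have hLg0 : 0 ≤ Lg := Real.log_nonneg (by
    have : 0 ≤ 2 * π * √lam := by positivity
    linarith)
  have hq0 : 0 ≤ lam ^ (-(1 / 4) : ℝ) := Real.rpow_nonneg hl0.le _
  have hpt : ∀ θ : Td d, ∫ x, Real.log (|va ((f θ : ℝ) : ℂ) x| + 2) ≤
      (JA63 (f θ) + 2 * lam ^ (-(1 / 4) : ℝ)) + S.indicator (fun _ => Lg) θ := by
    intro θ
    by_cases hθ : θ ∈ S
    · rw [Set.indicator_of_mem hθ]
      have h1 : ∫ x, Real.log (|va ((f θ : ℝ) : ℂ) x| + 2) ≤ Lg := by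
        have hb : ∀ x, Real.log (|va ((f θ : ℝ) : ℂ) x| + 2) ≤ Lg := by
          intro x
          refine Real.log_le_log (by positivity) ?_
          rw [va63]
          have h2 : |2 + 2 * π * (f θ * cs x)| ≤ 2 + 2 * π * (|f θ| * |cs x|) := by
            refine (abs_add_le _ _).trans ?_
            rw [abs_mul (2 * π), abs_of_pos (by positivity : (0 : ℝ) < 2 * π), abs_mul]
            norm_num
          have h3 : |f θ| * |cs x| ≤ √lam * 1 :=
            mul_le_mul (le_of_lt hθ) (cs_le63 x) (abs_nonneg _) hsq0.le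
          have h4 : 2 * π * (|f θ| * |cs x|) ≤ 2 * π * (√lam * 1) :=
            mul_le_mul_of_nonneg_left h3 (by positivity)
          linarith
        calc ∫ x, Real.log (|va ((f θ : ℝ) : ℂ) x| + 2) ≤ ∫ _ : UnitAddCircle, Lg := by
              refine integral_mono_of_nonneg (Filter.Eventually.of_forall fun x => ?_) (integrable_const _)
                (Filter.Eventually.of_forall hb)
              exact Real.log_nonneg (by
                have := abs_nonneg (va ((f θ : ℝ) : ℂ) x)
                linarith)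
          _ = Lg := by simp
      linarith [JAnn63 (f θ)]
    · rw [Set.indicator_of_notMem hθ, add_zero]
      have hge : √lam ≤ |f θ| := not_lt.1 hθ
      have h1l : 1 ≤ √lam := Real.one_le_sqrt.2 hl
      have hf1 : 1 ≤ |f θ| := h1l.trans hge
      have h2 := int_log_up hf1
      have h3 : 1 ≤ π * |f θ| := by nlinarith [Real.pi_gt_three]
      have h4 : JA63 (f θ) = Real.log (π * |f θ|) := (int_log h3).2
      have h5 : 2 / √|f θ| ≤ 2 * lam ^ (-(1 / 4) : ℝ) := by
        have h6 : lam ^ (1 / 4 : ℝ) ≤ √|f θ| := by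
          have h7 : lam ^ (1 / 4 : ℝ) = √√lam := by
            rw [Real.sqrt_eq_rpow, Real.sqrt_eq_rpow, ← Real.rpow_mul hl0.le]
            norm_num
          rw [h7]
          exact Real.sqrt_le_sqrt hge
        have h8 : 0 < lam ^ (1 / 4 : ℝ) := Real.rpow_pos_of_pos hl0 _
        rw [Real.rpow_neg hl0.le, div_eq_mul_inv]
        have h9 : (√|f θ|)⁻¹ ≤ (lam ^ (1 / 4 : ℝ))⁻¹ := inv_anti₀ h8 h6
        linarith
      rw [h4]
      linarith
  rw [e1, he]
  calc ∫ θ : Td d, ∫ x, Real.log (|va ((f θ : ℝ) : ℂ) x| + 2)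
      ≤ ∫ θ : Td d, ((JA63 (f θ) + 2 * lam ^ (-(1 / 4) : ℝ)) + S.indicator (fun _ => Lg) θ) :=
        integral_mono hiu ((hi.add (integrable_const _)).add ((integrable_const _).indicator hSm)) hpt
    _ = (∫ θ, JA63 (f θ)) + 2 * lam ^ (-(1 / 4) : ℝ) + volume.real S * Lg := by
        have hia : Integrable (fun θ : Td d => JA63 (f θ) + 2 * lam ^ (-(1 / 4) : ℝ)) := hi.add (integrable_const _)
        rw [integral_add hia ((integrable_const _).indicator hSm), integral_add hi (integrable_const _),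
          integral_indicator hSm, setIntegral_const, smul_eq_mul]
        simp
    _ ≤ (∫ θ, JA63 (f θ)) + 2 * lam ^ (-(1 / 4) : ℝ) + R * lam ^ (-(c / 2)) * Lg := by
        have := mul_le_mul_of_nonneg_right hSv hLg0
        linarith

end Pool.Agent.Helper82.AN
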