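import Pool.Agent.Helper82.AN.Eta

/-! Block AN-ETALIP: the noise is Lipschitz.

`|bas i θ - bas i θ'| ≤ 2π d ‖i.1‖ dist θ θ'` (`fourier 1` is Lipschitz with constant `2π` on the circle, the sum `∑ m, i.1 m • (θ m - θ' m)` has norm at most `d ‖i.1‖ dist θ θ'`), and `∑ wt γ i * ‖i.1‖ * |w i| < ∞` a.s. (its mean is at most `∑ wt γ i * ‖i.1‖`, finite; as in `Hw_ae`). The terms of `eta` are absolutely summable when
`Hw γ w ≠ ∞`. -/

set_option autoImplicit false
open MeasureTheory Real Set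
open scoped ENNReal

namespace Pool.Agent.Helper82.AN

open Pool.Agent.Helper46.QP (TT Td dl)

variable {d : ℕ}

private lemma fou_one88 (w : UnitAddCircle) : ‖(fourier 1 w : ℂ) - 1‖ ≤ 2 * π * ‖w‖ := by
  induction w using QuotientAddGroup.induction_on with
  | H x =>
    have h0 : ((round x : ℝ) : UnitAddCircle) = 0 := by
      rw [AddCircle.coe_eq_zero_iff]
      exact ⟨round x, by simp⟩
    have h1 : ((x : ℝ) : UnitAddCircle) = ((x - round x : ℝ) : UnitAddCircle) := by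
      rw [AddCircle.coe_sub, h0, sub_zero]
    have h2 : ‖((x : ℝ) : UnitAddCircle)‖ = |x - round x| := UnitAddCircle.norm_eq
    show ‖(fourier 1 ((x : ℝ) : UnitAddCircle) : ℂ) - 1‖ ≤ 2 * π * ‖((x : ℝ) : UnitAddCircle)‖
    rw [h2, h1, fourier_coe_apply]
    have h3 : (2 * (π : ℂ) * Complex.I * ((1 : ℤ) : ℂ) * ((x - round x : ℝ) : ℂ) / ((1 : ℝ) : ℂ)) =
        Complex.I * ((2 * π * (x - round x) : ℝ) : ℂ) := by
      push_cast
      ring
    rw [h3]
    refine Real.norm_exp_I_mul_ofReal_sub_one_le.trans (le_of_eq ?_)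
    rw [Real.norm_eq_abs, abs_mul, abs_of_pos (by positivity)]

private lemma fou_lip88 (u v : UnitAddCircle) : ‖(fourier 1 u : ℂ) - fourier 1 v‖ ≤ 2 * π * ‖u - v‖ := by
  have h1 : (fourier 1 u : ℂ) = fourier 1 (u - v) * fourier 1 v := by
    rw [fourier_apply, fourier_apply, fourier_apply, one_zsmul, one_zsmul, one_zsmul, ← Circle.coe_mul,
      ← AddCircle.toCircle_add, sub_add_cancel]
  have h2 : ‖(fourier 1 v : ℂ)‖ = 1 := by
    rw [fourier_apply]
    exact Circle.norm_coe _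
  rw [h1, ← sub_one_mul, norm_mul, h2, mul_one]
  exact fou_one88 _

private lemma arg_lip88 (k : Fin d → ℤ) (x y : Td d) :
    ‖(∑ m, k m • x m) - ∑ m, k m • y m‖ ≤ d * ‖k‖ * dist x y := by
  rw [← Finset.sum_sub_distrib]
  calc ‖∑ m, (k m • x m - k m • y m)‖ ≤ ∑ m, ‖k m • x m - k m • y m‖ := norm_sum_le _ _
    _ ≤ ∑ _m : Fin d, ‖k‖ * dist x y := by
        refine Finset.sum_le_sum fun m _ => ?_
        rw [← zsmul_sub]
        refine (norm_zsmul_le _ _).trans ?_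
        refine mul_le_mul (norm_le_pi_norm k m) ?_ (norm_nonneg _) (norm_nonneg _)
        rw [← dist_eq_norm]
        exact dist_le_pi_dist x y m
    _ = d * ‖k‖ * dist x y := by
        rw [Finset.sum_const, Finset.card_univ, Fintype.card_fin, nsmul_eq_mul, mul_assoc]

private lemma bas_lip88 (i : Ik d) (x y : Td d) : |bas i x - bas i y| ≤ 2 * π * d * ‖i.1‖ * dist x y := by
  have h := (fou_lip88 (∑ m, i.1 m • x m) (∑ m, i.1 m • y m)).trans
    (mul_le_mul_of_nonneg_left (arg_lip88 i.1 x y) (by positivity))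
  have h' : ‖(fourier 1 (∑ m, i.1 m • x m) : ℂ) - fourier 1 (∑ m, i.1 m • y m)‖ ≤ 2 * π * d * ‖i.1‖ * dist x y :=
    h.trans (le_of_eq (by ring))
  unfold bas
  split_ifs
  · rw [← Complex.sub_re]
    exact (Complex.abs_re_le_norm _).trans h'
  · rw [← Complex.sub_im]
    exact (Complex.abs_im_le_norm _).trans h'

private lemma exp_bd88b {γ : ℝ} (hγ : 0 < γ) : ∃ C : ℝ, 0 < C ∧ ∀ r : ℝ, 0 ≤ r →
    (1 + r) * Real.exp (-(r ^ γ)) ≤ C * Real.exp (-(r ^ (γ / 2))) := by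
  obtain ⟨n, hn⟩ := exists_nat_ge (2 / γ)
  have hn' : 1 ≤ (γ / 2) * n := by
    rw [div_le_iff₀ hγ] at hn
    linarith
  refine ⟨2 * (n.factorial : ℝ) * Real.exp 1, by positivity, fun r hr => ?_⟩
  have hf : (1 : ℝ) ≤ n.factorial := by exact_mod_cast Nat.one_le_iff_ne_zero.2 (Nat.factorial_ne_zero n)
  have hx : 0 ≤ r ^ (γ / 2) := Real.rpow_nonneg hr _
  have hE : 1 ≤ Real.exp (r ^ (γ / 2)) := Real.one_le_exp hx
  have h1 : 1 + r ≤ 2 * (n.factorial : ℝ) * Real.exp (r ^ (γ / 2)) := by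
    rcases le_total r 1 with h | h
    · calc 1 + r ≤ 2 * 1 * 1 := by linarith
        _ ≤ 2 * (n.factorial : ℝ) * Real.exp (r ^ (γ / 2)) := by gcongr
    · have h1 : (r ^ (γ / 2)) ^ n / n.factorial ≤ Real.exp (r ^ (γ / 2)) := Real.pow_div_factorial_le_exp _ hx n
      have h2 : r ≤ (r ^ (γ / 2)) ^ n := by
        rw [← Real.rpow_natCast (r ^ (γ / 2)) n, ← Real.rpow_mul hr]
        calc r = r ^ (1 : ℝ) := (Real.rpow_one r).symm
          _ ≤ _ := Real.rpow_le_rpow_of_exponent_le h hn'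
      have h3 : r ≤ (n.factorial : ℝ) * Real.exp (r ^ (γ / 2)) := by
        rw [div_le_iff₀ (by positivity)] at h1
        linarith
      linarith
  have h2 : r ^ γ = (r ^ (γ / 2)) ^ 2 := by
    rw [← Real.rpow_natCast (r ^ (γ / 2)) 2, ← Real.rpow_mul hr]
    congr 1
    push_cast
    ring
  set s := r ^ (γ / 2) with hs
  have h3 : Real.exp s * Real.exp (-(s ^ 2)) ≤ Real.exp 1 * Real.exp (-s) := by
    rw [← Real.exp_add, ← Real.exp_add]
    refine Real.exp_le_exp.2 ?_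
    nlinarith [sq_nonneg (s - 1)]
  rw [h2]
  calc (1 + r) * Real.exp (-(s ^ 2)) ≤ 2 * (n.factorial : ℝ) * Real.exp s * Real.exp (-(s ^ 2)) :=
        mul_le_mul_of_nonneg_right h1 (Real.exp_pos _).le
    _ = 2 * (n.factorial : ℝ) * (Real.exp s * Real.exp (-(s ^ 2))) := by ring
    _ ≤ 2 * (n.factorial : ℝ) * (Real.exp 1 * Real.exp (-s)) := mul_le_mul_of_nonneg_left h3 (by positivity)
    _ = _ := by ring

private lemma w1_sum88 {γ : ℝ} (hγ : 0 < γ) : Summable fun i : Ik d => (1 + ‖i.1‖) * wt γ i := by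
  obtain ⟨C, hC, hb⟩ := exp_bd88b hγ
  refine Summable.of_nonneg_of_le (fun i => mul_nonneg (by positivity) (wt_pos γ i).le) (fun i => ?_)
    ((wt_sum (d := d) (half_pos hγ)).mul_left C)
  exact hb _ (norm_nonneg _)

theorem eta_lip {γ : ℝ} (hγ : 0 < γ) :
    ∀ᵐ w ∂lawL d, ∃ K : ℝ, 0 ≤ K ∧ ∀ x y : Td d, |eta γ w x - eta γ w y| ≤ K * dist x y := by
  have hp : ∀ i : Ik d, 0 ≤ (1 + ‖i.1‖) * wt γ i := fun i => mul_nonneg (by positivity) (wt_pos γ i).le
  have hm : ∀ i : Ik d, Measurable (fun w : Ow d => ENNReal.ofReal ((1 + ‖i.1‖) * wt γ i * |w i|)) := fun i =>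
    ENNReal.measurable_ofReal.comp ((measurable_pi_apply i).abs.const_mul _)
  have h1 : ∫⁻ w, ∑' i : Ik d, ENNReal.ofReal ((1 + ‖i.1‖) * wt γ i * |w i|) ∂lawL d ≤
      ENNReal.ofReal (∑' i : Ik d, (1 + ‖i.1‖) * wt γ i) := by
    rw [lintegral_tsum fun i => (hm i).aemeasurable, ENNReal.ofReal_tsum_of_nonneg hp (w1_sum88 hγ)]
    refine ENNReal.tsum_le_tsum fun i => ?_
    have h2 : ∫⁻ w : Ow d, ENNReal.ofReal ((1 + ‖i.1‖) * wt γ i * |w i|) ∂lawL d =
        ENNReal.ofReal ((1 + ‖i.1‖) * wt γ i) * ∫⁻ x, ENNReal.ofReal |x| ∂lap := by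
      have hA : Measurable fun x : ℝ => ENNReal.ofReal |x| := ENNReal.measurable_ofReal.comp measurable_abs
      rw [law_coord i (F := fun x => ENNReal.ofReal ((1 + ‖i.1‖) * wt γ i * |x|))
        (ENNReal.measurable_ofReal.comp (measurable_abs.const_mul _)), ← lintegral_const_mul _ hA]
      refine lintegral_congr fun x => ?_
      rw [ENNReal.ofReal_mul (hp i)]
    rw [h2]
    calc ENNReal.ofReal ((1 + ‖i.1‖) * wt γ i) * ∫⁻ x, ENNReal.ofReal |x| ∂lap
        ≤ ENNReal.ofReal ((1 + ‖i.1‖) * wt γ i) * 1 := by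
          gcongr
          exact lap_abs
      _ = _ := mul_one _
  have h3 := ae_lt_top (Measurable.tsum hm) (ne_of_lt (h1.trans_lt ENNReal.ofReal_lt_top))
  filter_upwards [h3] with w hw
  have hS : Summable fun i : Ik d => (1 + ‖i.1‖) * wt γ i * |w i| := by
    refine (ENNReal.summable_toReal hw.ne).congr fun i => ?_
    exact ENNReal.toReal_ofReal (mul_nonneg (hp i) (abs_nonneg _))
  have hterm : ∀ θ : Td d, Summable fun i : Ik d => wt γ i * w i * bas i θ := by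
    intro θ
    refine Summable.of_norm_bounded hS fun i => ?_
    rw [Real.norm_eq_abs, abs_mul, abs_mul, abs_of_pos (wt_pos γ i)]
    have a1 : wt γ i * |w i| * |bas i θ| ≤ wt γ i * |w i| :=
      mul_le_of_le_one_right (mul_nonneg (wt_pos γ i).le (abs_nonneg _)) (bas_le i θ)
    have a2 : 0 ≤ ‖i.1‖ * (wt γ i * |w i|) := mul_nonneg (norm_nonneg _) (mul_nonneg (wt_pos γ i).le (abs_nonneg _))
    linarith
  refine ⟨2 * π * d * ∑' i : Ik d, (1 + ‖i.1‖) * wt γ i * |w i|, ?_, fun x y => ?_⟩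
  · exact mul_nonneg (by positivity) (tsum_nonneg fun i => mul_nonneg (hp i) (abs_nonneg _))
  · have h4 : eta γ w x - eta γ w y = ∑' i : Ik d, (wt γ i * w i * bas i x - wt γ i * w i * bas i y) := by
      unfold eta
      exact ((hterm x).tsum_sub (hterm y)).symm
    have h5 : Summable fun i : Ik d => 2 * π * d * dist x y * ((1 + ‖i.1‖) * wt γ i * |w i|) := hS.mul_left _
    rw [h4, ← Real.norm_eq_abs]
    refine (tsum_of_norm_bounded h5.hasSum fun i => ?_).trans (le_of_eq ?_)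
    · rw [← mul_sub, Real.norm_eq_abs, abs_mul, abs_mul, abs_of_pos (wt_pos γ i)]
      have a1 := mul_le_mul_of_nonneg_left (bas_lip88 i x y) (mul_nonneg (wt_pos γ i).le (abs_nonneg (w i)))
      have a2 : 0 ≤ 2 * π * d * dist x y * (wt γ i * |w i|) :=
        mul_nonneg (by positivity) (mul_nonneg (wt_pos γ i).le (abs_nonneg _))
      calc wt γ i * |w i| * |bas i x - bas i y| ≤ wt γ i * |w i| * (2 * π * d * ‖i.1‖ * dist x y) := a1
        _ ≤ wt γ i * |w i| * (2 * π * d * ‖i.1‖ * dist x y) + 2 * π * d * dist x y * (wt γ i * |w i|) := by linarith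
        _ = _ := by ring
    · rw [tsum_mul_left]
      ring

end Pool.Agent.Helper82.AN
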