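import Pool.Agent.Helper82.AN.LosAll
import Pool.Agent.Helper82.AN.Ndg

/-! Block AN-GROWTH: the mean exponent for all large parameters.

`lam = ‖U‖`, `f = amU γ e U w`, `G n = ∫ log nn (Mx .. n)`. `G (2 m) = 2 G m - ∫ los m` (the map `(θ, z) ↦ (θ + m α, orb .. z m)` preserves the volume), so for `i ≥ i₀`: `G (2^i) / 2^i ≥ G (2^i₀) / 2^i₀ - ∑_{k ≥ i₀} 2^((1-δ) k) / 2^(k+1) ≥ G (2^i₀) / 2^i₀ - C_δ 2^(-δ i₀)`.
`los_all` with `D ≥ 2 / c` and `δ₀` small: `δ₀ ≤ c / 8`, `(c - 4 δ₀) (1 - 2 δ₀) > c - ε`, `D (c - 4 δ₀) > 1`. `i₀` = largest with `2^i₀ ≤ lam^(c-3δ)`: for `i ≥ i₀`: `‖U‖ ≤ 2^(D i)`, `exp (-2^((1-2δ) i)) ≤ exp (-lam^(c-ε)) ≤ |U 0|`. `init` with `V = lam^δ`, `n = 2^i₀`, `ν = C R (V / lam)^c` (`nd_v`),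
`Λ₁ = κ₁ lam`, `κ₁ = ∑ max |e j| + Hw` (depends on `w`): `n ν ≤ C R lam^(-2δ)`. -/

set_option autoImplicit false
open MeasureTheory Real Set
open scoped ENNReal

namespace Pool.Agent.Helper82.AN

open Pool.Agent.Helper18.UC (nn)
open Pool.Agent.Helper46.QP (TT Td orb Mx va stp dl stp_mp stp_meas Mx_meas log_nn_le log_nn_nonneg)

variable {d : ℕ}

private theorem sq_meas77 (α : Td d) {f : Td d → ℝ} (hf : Measurable f) :
    Measurable fun θ : Td d => cA (sq α f θ) := by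
  refine measurable_pi_lambda _ fun j => ?_
  unfold cA sq
  exact Complex.measurable_ofReal.comp (hf.comp (measurable_id.add_const _))

private theorem nnm77 (α : Td d) {f : Td d → ℝ} (hf : Measurable f) (n : ℕ) :
    Measurable fun p : Td d × TT => nn (Mx (cA (sq α f p.1)) p.2 n) := by
  have h : Measurable fun p : Td d × TT => ((cA (sq α f p.1), p.2) : (ℕ → ℂ) × TT) :=
    ((sq_meas77 α hf).comp measurable_fst).prodMk measurable_snd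
  exact (Mx_meas n).comp h

private theorem Fs_mp77 (α : Td d) {f : Td d → ℝ} (hf : Measurable f) :
    MeasurePreserving (Fs α f) volume volume := by
  have hA : Measurable fun θ : Td d => ((f θ : ℝ) : ℂ) := Complex.measurable_ofReal.comp hf
  have hm : Measurable (Function.uncurry fun (θ : Td d) (z : TT) => stp ((f θ : ℝ) : ℂ) z) := by
    have hc : Measurable fun p : Td d × TT => ((((f p.1 : ℝ) : ℂ), p.2) : ℂ × TT) :=
      (hA.comp measurable_fst).prodMk measurable_snd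
    exact stp_meas.comp hc
  exact (measurePreserving_add_right (volume : Measure (Td d)) α).skew_product
    (μc := (volume : Measure TT)) (μd := (volume : Measure TT))
    (g := fun θ z => stp ((f θ : ℝ) : ℂ) z) hm
    (Filter.Eventually.of_forall fun θ => (stp_mp _).map_eq)

private noncomputable def lg77 (α : Td d) (f : Td d → ℝ) (n : ℕ) (p : Td d × TT) : ℝ :=
  Real.log (nn (Mx (cA (sq α f p.1)) p.2 n))

private theorem lg_int77 (α : Td d) {f : Td d → ℝ} (hf : Measurable f) {K : ℝ} (hK0 : 0 ≤ K)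
    (hK : ∀ θ, |f θ| ≤ K) (n : ℕ) : Integrable (lg77 α f n) (volume : Measure (Td d × TT)) := by
  refine Integrable.of_bound (nnm77 α hf n).log.aestronglyMeasurable
    (Real.log 2 + n * Real.log (2 * π * K + 4)) (Filter.Eventually.of_forall fun p => ?_)
  rw [Real.norm_eq_abs]
  unfold lg77
  rw [abs_of_nonneg (log_nn_nonneg _ _ _)]
  refine log_nn_le hK0 (fun j => ?_) p.2 n
  unfold cA
  rw [Complex.norm_real]
  exact hK _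

private theorem dbl77 (α : Td d) {f : Td d → ℝ} (hf : Measurable f) {K : ℝ} (hK0 : 0 ≤ K)
    (hK : ∀ θ, |f θ| ≤ K) (m : ℕ) :
    ∫ p : Td d × TT, lg77 α f (2 * m) p =
      2 * (∫ p : Td d × TT, lg77 α f m p) - ∫ x : Td d × TT, los (sq α f x.1) x.2 m := by
  have hmp := (Fs_mp77 α hf).iterate m
  have h1 := lg_int77 α hf hK0 hK m
  have h2 := lg_int77 α hf hK0 hK (2 * m)
  have h3 : Integrable (fun x => lg77 α f m ((Fs α f)^[m] x)) (volume : Measure (Td d × TT)) :=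
    (hmp.integrable_comp h1.aestronglyMeasurable).2 h1
  have h4 : ∫ x, lg77 α f m ((Fs α f)^[m] x) = ∫ x : Td d × TT, lg77 α f m x := by
    conv_rhs => rw [← hmp.map_eq]
    rw [integral_map hmp.measurable.aemeasurable
      (by rw [hmp.map_eq]; exact h1.aestronglyMeasurable)]
  have h5 : ∀ x : Td d × TT, los (sq α f x.1) x.2 m =
      lg77 α f m x + lg77 α f m ((Fs α f)^[m] x) - lg77 α f (2 * m) x := by
    rintro ⟨θ, z⟩
    rw [Fs_iter]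
    unfold los lg77
    rw [sq_add]
  simp only [h5]
  have h6 : Integrable (fun x => lg77 α f m x + lg77 α f m ((Fs α f)^[m] x))
      (volume : Measure (Td d × TT)) := h1.add h3
  rw [integral_sub h6 h2, integral_add h1 h3, h4]
  ring


/-- bound and continuity of the amplitude -/
theorem amU_bd {γ : ℝ} (hγ : 0 < γ) {k : ℕ} {e : Fin k → Td d → ℝ} (he : ∀ i, Continuous (e i)) :
    ∀ᵐ w ∂lawL d, ∃ κ₁ : ℝ, 1 ≤ κ₁ ∧ ∀ U : Fin (k + 1) → ℝ, Continuous (amU γ e U w) ∧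
      ∀ θ, |amU γ e U w θ| ≤ κ₁ * ‖U‖ := by
  have hB : ∀ i : Fin k, ∃ B : ℝ, 0 ≤ B ∧ ∀ θ, |e i θ| ≤ B := by
    intro i
    obtain ⟨B, h1⟩ := (isCompact_univ (X := Td d)).exists_bound_of_continuousOn (he i).continuousOn
    exact ⟨|B|, abs_nonneg _, fun θ => (h1 θ (mem_univ θ)).trans (le_abs_self B)⟩
  choose B hB0 hB using hB
  filter_upwards [Hw_ae (d := d) hγ] with w hw
  have hH0 : 0 ≤ (Hw γ w).toReal := ENNReal.toReal_nonneg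
  have hS0 : 0 ≤ ∑ i, B i := Finset.sum_nonneg fun i _ => hB0 i
  refine ⟨1 + ∑ i, B i + (Hw γ w).toReal, by linarith, fun U => ⟨?_, fun θ => ?_⟩⟩
  · unfold amU
    exact (continuous_finsetSum _ fun i _ => continuous_const.mul (he i)).add
      (continuous_const.mul (eta_cont hw))
  · have hU : ∀ i, |U i| ≤ ‖U‖ := fun i => norm_le_pi_norm U i
    have hU0 : 0 ≤ ‖U‖ := norm_nonneg U
    have h1 : |∑ i : Fin k, U i.succ * e i θ| ≤ ∑ i : Fin k, ‖U‖ * B i := by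
      refine (Finset.abs_sum_le_sum_abs _ _).trans (Finset.sum_le_sum fun i _ => ?_)
      rw [abs_mul]
      exact mul_le_mul (hU _) (hB i θ) (abs_nonneg _) hU0
    have h2 : |U 0 * eta γ w θ| ≤ ‖U‖ * (Hw γ w).toReal := by
      rw [abs_mul]
      exact mul_le_mul (hU _) (eta_le hw θ) (abs_nonneg _) hU0
    unfold amU
    refine (abs_add_le _ _).trans ((add_le_add h1 h2).trans ?_)
    rw [← Finset.mul_sum]
    nlinarith

/-- the scales -/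
private theorem scales77 {δ ε c : ℝ} (hδ : 0 < δ) (hδ8 : δ < c / 8) (hδε : δ < ε / 10) (hc1 : c < 1)
    {C₁ C₂ κ₁ : ℝ} (hC : 0 ≤ C₁) (hC₂ : 0 ≤ C₂) (hκ₁ : 0 < κ₁) (i₁ : ℕ) {D : ℕ} (hD : 4 / c ≤ D) :
    ∃ X : ℝ, ∀ x : ℝ, X ≤ x → 1 ≤ x ∧ 4 ≤ x ^ δ ∧ ∃ i₀ : ℕ, i₁ ≤ i₀ ∧
      x ≤ (2 : ℝ) ^ (D * i₀) ∧ x ^ (c - ε) ≤ (2 : ℝ) ^ ((1 - 2 * δ) * i₀) ∧
      C₁ * (2 : ℝ) ^ (-δ * i₀) + 2 / x ^ δ +
        (2 : ℝ) ^ i₀ * (C₂ * (x ^ δ / x) ^ c) * Real.log (2 * π * (κ₁ * x) + 4) ≤ x ^ (-(δ * c / 4)) := by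
  have hε : 0 < ε := by linarith
  have hc : 0 < c := by linarith
  set c₂ : ℝ := (2 * π * κ₁ + 4) ^ δ / δ with hc₂
  have hc₂0 : 0 ≤ c₂ := by positivity
  set Ct : ℝ := 2 * C₁ + 2 + C₂ * c₂ with hCt
  have e1 := (tendsto_rpow_atTop hδ).eventually_ge_atTop (4 : ℝ)
  have e2 := (tendsto_rpow_atTop (show 0 < δ * c / 4 by positivity)).eventually_ge_atTop Ct
  have e3 := (Real.tendsto_logb_atTop (b := 2) one_lt_two).eventually_ge_atTop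
    (2 / ε + (((max i₁ 2 : ℕ) : ℝ) + 1) * (2 / c))
  obtain ⟨X, hX⟩ := Filter.eventually_atTop.1 ((Filter.eventually_ge_atTop (1 : ℝ)).and ((e1.and e2).and e3))
  refine ⟨X, fun x hx => ?_⟩
  obtain ⟨h1, ⟨hV, hCx⟩, hl⟩ := hX x hx
  have hx0 : 0 < x := zero_lt_one.trans_le h1
  refine ⟨h1, hV, ?_⟩
  set ℓ := Real.logb 2 x with hℓ
  have hxl : x = (2 : ℝ) ^ ℓ := (Real.rpow_logb two_pos (by norm_num) hx0).symm
  have hpos2 : 0 < 2 / ε := by positivity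
  have hM0 : (0 : ℝ) ≤ ((max i₁ 2 : ℕ) : ℝ) := Nat.cast_nonneg _
  have hMc : 0 ≤ (((max i₁ 2 : ℕ) : ℝ) + 1) * (2 / c) := by positivity
  have hl0 : 0 ≤ ℓ := by linarith
  have hl1 : (((max i₁ 2 : ℕ) : ℝ) + 1) * (2 / c) ≤ ℓ := by linarith
  have hl1' : ((max i₁ 2 : ℕ) : ℝ) + 1 ≤ c / 2 * ℓ := by
    have h := mul_le_mul_of_nonneg_left hl1 (show 0 ≤ c / 2 by positivity)
    have h' : c / 2 * ((((max i₁ 2 : ℕ) : ℝ) + 1) * (2 / c)) = ((max i₁ 2 : ℕ) : ℝ) + 1 := by field_simp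
    linarith
  have hl2 : 2 / ε ≤ ℓ := by linarith
  have hl3 : 1 ≤ ε / 2 * ℓ := by
    rw [div_le_iff₀ hε] at hl2
    linarith
  have hxs : ∀ s : ℝ, x ^ s = (2 : ℝ) ^ (ℓ * s) := fun s => by
    rw [hxl, ← Real.rpow_mul two_pos.le]
  have hy1 : 1 ≤ x ^ (c - 3 * δ) := Real.one_le_rpow h1 (by linarith)
  have hN : ⌊x ^ (c - 3 * δ)⌋₊ ≠ 0 := (Nat.floor_pos.2 hy1).ne'
  set i₀ := Nat.log 2 ⌊x ^ (c - 3 * δ)⌋₊ with hi₀
  have ha : (2 : ℝ) ^ i₀ ≤ x ^ (c - 3 * δ) := by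
    have h := Nat.pow_log_le_self 2 hN
    have h' : ((2 ^ i₀ : ℕ) : ℝ) ≤ (⌊x ^ (c - 3 * δ)⌋₊ : ℝ) := by exact_mod_cast h
    push_cast at h'
    exact h'.trans (Nat.floor_le (by linarith))
  have hb : x ^ (c - 3 * δ) < (2 : ℝ) ^ (i₀ + 1) := by
    have h := Nat.lt_pow_succ_log_self (b := 2) one_lt_two ⌊x ^ (c - 3 * δ)⌋₊
    have h' : ((⌊x ^ (c - 3 * δ)⌋₊ + 1 : ℕ) : ℝ) ≤ ((2 ^ (i₀ + 1) : ℕ) : ℝ) := by exact_mod_cast h
    push_cast at h'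
    exact (Nat.lt_floor_add_one _).trans_le h'
  have hb' : ℓ * (c - 3 * δ) < i₀ + 1 := by
    rw [hxs, ← Real.rpow_natCast] at hb
    have := (Real.rpow_lt_rpow_left_iff one_lt_two).1 hb
    push_cast at this
    exact this
  have h34 : c / 2 * ℓ ≤ ℓ * (c - 3 * δ) := by nlinarith
  have hmi : ((max i₁ 2 : ℕ) : ℝ) < i₀ := by linarith
  have hmi' : max i₁ 2 < i₀ := by exact_mod_cast hmi
  have h2i : (2 : ℝ) ≤ i₀ := by
    have : 2 < i₀ := (le_max_right _ _).trans_lt hmi'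
    exact_mod_cast this.le
  refine ⟨i₀, ((le_max_left _ _).trans_lt hmi').le, ?_, ?_, ?_⟩
  · have e4 : (2 : ℝ) ^ (D * i₀) = (2 : ℝ) ^ ((D : ℝ) * (i₀ : ℝ)) := by
      rw [← Real.rpow_natCast]
      push_cast
      rfl
    rw [e4, hxl]
    refine Real.rpow_le_rpow_of_exponent_le one_le_two ?_
    rw [div_le_iff₀ hc] at hD
    have h5 : c / 2 * ℓ ≤ 2 * i₀ := by linarith
    have h6 : 4 * (i₀ : ℝ) ≤ D * c * i₀ := mul_le_mul_of_nonneg_right hD (by linarith)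
    have h7 : c * ℓ ≤ c * (D * i₀) := by linarith
    exact le_of_mul_le_mul_left h7 hc
  · rw [hxs]
    refine Real.rpow_le_rpow_of_exponent_le one_le_two ?_
    have h5 : (1 - 2 * δ) * (ℓ * (c - 3 * δ) - 1) ≤ (1 - 2 * δ) * i₀ :=
      mul_le_mul_of_nonneg_left (by linarith) (by linarith)
    have h6 : 0 ≤ δ * δ * ℓ := by positivity
    have h7 : δ * ℓ ≤ ε / 10 * ℓ := mul_le_mul_of_nonneg_right hδε.le hl0
    have h8 : δ * ℓ * c ≤ δ * ℓ * 1 := mul_le_mul_of_nonneg_left hc1.le (by positivity)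
    nlinarith
  · have hx34 : 0 < x ^ (-(δ * c / 2)) := Real.rpow_pos_of_pos hx0 _
    have hδc : δ * c / 2 ≤ δ := by nlinarith
    have t1 : (2 : ℝ) ^ (-δ * i₀) ≤ 2 * x ^ (-(δ * c / 2)) := by
      rw [hxs]
      nth_rewrite 2 [← Real.rpow_one 2]
      rw [← Real.rpow_add two_pos]
      refine Real.rpow_le_rpow_of_exponent_le one_le_two ?_
      have h5 : c / 2 * ℓ - 1 ≤ i₀ := by linarith
      nlinarith
    have t2 : x ^ (-δ) ≤ x ^ (-(δ * c / 2)) := Real.rpow_le_rpow_of_exponent_le h1 (by linarith)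
    have t3 : 2 / x ^ δ ≤ 2 * x ^ (-(δ * c / 2)) := by
      rw [div_eq_mul_inv, ← Real.rpow_neg hx0.le]
      exact mul_le_mul_of_nonneg_left t2 two_pos.le
    have e5 : (x ^ δ / x) ^ c = x ^ ((δ - 1) * c) := by
      rw [Real.rpow_mul hx0.le, Real.rpow_sub hx0, Real.rpow_one]
    have t4 : (2 : ℝ) ^ i₀ * (C₂ * (x ^ δ / x) ^ c) ≤ C₂ * x ^ (-(2 * δ)) := by
      have h5 : (2 : ℝ) ^ i₀ * (C₂ * (x ^ δ / x) ^ c) ≤ x ^ (c - 3 * δ) * (C₂ * (x ^ δ / x) ^ c) :=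
        mul_le_mul_of_nonneg_right ha (by positivity)
      refine h5.trans ?_
      have h6 : x ^ (c - 3 * δ) * (C₂ * (x ^ δ / x) ^ c) = C₂ * x ^ (c - 3 * δ + (δ - 1) * c) := by
        rw [e5, Real.rpow_add hx0]
        ring
      rw [h6]
      refine mul_le_mul_of_nonneg_left (Real.rpow_le_rpow_of_exponent_le h1 ?_) hC₂
      nlinarith
    have t5 : Real.log (2 * π * (κ₁ * x) + 4) ≤ c₂ * x ^ δ := by
      have h5 : 2 * π * (κ₁ * x) + 4 ≤ (2 * π * κ₁ + 4) * x := by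
        have h50 : (2 * π * κ₁ + 4) * x = 2 * π * (κ₁ * x) + 4 * x := by ring
        rw [h50]
        linarith
      have h6 : 0 < 2 * π * (κ₁ * x) + 4 := by positivity
      refine (Real.log_le_log h6 h5).trans ?_
      refine (Real.log_le_rpow_div (by positivity) hδ).trans (le_of_eq ?_)
      rw [Real.mul_rpow (by positivity) hx0.le, hc₂]
      ring
    have hlog0 : 0 ≤ Real.log (2 * π * (κ₁ * x) + 4) := Real.log_nonneg (by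
      have : 0 ≤ 2 * π * (κ₁ * x) := by positivity
      linarith)
    have t6 : (2 : ℝ) ^ i₀ * (C₂ * (x ^ δ / x) ^ c) * Real.log (2 * π * (κ₁ * x) + 4) ≤
        C₂ * c₂ * x ^ (-(δ * c / 2)) := by
      calc _ ≤ C₂ * x ^ (-(2 * δ)) * (c₂ * x ^ δ) :=
            mul_le_mul t4 t5 hlog0 (by positivity)
        _ = C₂ * c₂ * (x ^ (-(2 * δ)) * x ^ δ) := by ring
        _ = C₂ * c₂ * x ^ (-δ) := by
            rw [← Real.rpow_add hx0]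
            congr 2
            ring
        _ ≤ C₂ * c₂ * x ^ (-(δ * c / 2)) := mul_le_mul_of_nonneg_left t2 (by positivity)
    have t7 : x ^ (δ * c / 4) * x ^ (-(δ * c / 2)) = x ^ (-(δ * c / 4)) := by
      rw [← Real.rpow_add hx0]
      congr 1
      ring
    calc _ ≤ C₁ * (2 * x ^ (-(δ * c / 2))) + 2 * x ^ (-(δ * c / 2)) + C₂ * c₂ * x ^ (-(δ * c / 2)) :=
          add_le_add (add_le_add (mul_le_mul_of_nonneg_left t1 hC) t3) t6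
      _ = Ct * x ^ (-(δ * c / 2)) := by rw [hCt]; ring
      _ ≤ x ^ (δ * c / 4) * x ^ (-(δ * c / 2)) := mul_le_mul_of_nonneg_right hCx hx34.le
      _ = _ := t7

/-- the doubling for one amplitude -/
theorem dbl_core77 {α : Td d} {f : Td d → ℝ} (hcont : Continuous f) {K : ℝ} (hup : ∀ θ, |f θ| ≤ K)
    {δ : ℝ} (hδ : 0 < δ) {i₀ : ℕ}
    (hlos : ∀ i ≥ i₀, ∫ x : Td d × TT, los (sq α f x.1) x.2 (2 ^ i) ≤ (2 : ℝ) ^ ((1 - δ) * i)) :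
    ∀ i ≥ i₀, (∫ p : Td d × TT, Real.log (nn (Mx (cA (sq α f p.1)) p.2 (2 ^ i₀)))) / 2 ^ i₀ -
      1 / (2 * (1 - (2 : ℝ) ^ (-δ))) * (2 : ℝ) ^ (-δ * i₀) ≤
        (∫ p : Td d × TT, Real.log (nn (Mx (cA (sq α f p.1)) p.2 (2 ^ i)))) / 2 ^ i := by
  have hK0 : 0 ≤ K := (abs_nonneg _).trans (hup 0)
  have hr1 : (2 : ℝ) ^ (-δ) < 1 := Real.rpow_lt_one_of_one_lt_of_neg one_lt_two (by linarith)
  set C₁ : ℝ := 1 / (2 * (1 - (2 : ℝ) ^ (-δ))) with hC₁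
  have hC₁0 : 0 ≤ C₁ := by
    have : 0 < 1 - (2 : ℝ) ^ (-δ) := by linarith
    positivity
  have hC₁' : C₁ * (1 - (2 : ℝ) ^ (-δ)) = 1 / 2 := by
    have : 1 - (2 : ℝ) ^ (-δ) ≠ 0 := by linarith
    rw [hC₁]
    field_simp
  have hp2 : ∀ i : ℕ, (0 : ℝ) < 2 ^ i := fun i => by positivity
  have hstep : ∀ i ≥ i₀, (∫ p : Td d × TT, lg77 α f (2 ^ i) p) / 2 ^ i - (2 : ℝ) ^ (-δ * i) / 2 ≤
      (∫ p : Td d × TT, lg77 α f (2 ^ (i + 1)) p) / 2 ^ (i + 1) := by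
    intro i hi
    have e1 : 2 ^ (i + 1) = 2 * 2 ^ i := by rw [pow_succ, mul_comm]
    have h5 := dbl77 α hcont.measurable hK0 hup (2 ^ i)
    have h6 := hlos i hi
    rw [e1, h5]
    have e2 : (2 : ℝ) ^ ((1 - δ) * i) = 2 ^ i * (2 : ℝ) ^ (-δ * i) := by
      rw [← Real.rpow_natCast, ← Real.rpow_add two_pos]
      congr 1
      ring
    rw [e2] at h6
    have e3 : (2 : ℝ) ^ (i + 1) = 2 * 2 ^ i := by rw [pow_succ, mul_comm]
    rw [e3, sub_le_iff_le_add]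
    have h7 := hp2 i
    have h8 : (∫ p : Td d × TT, lg77 α f (2 ^ i) p) / 2 ^ i =
        (2 * ∫ p : Td d × TT, lg77 α f (2 ^ i) p) / (2 * 2 ^ i) := by
      field_simp
    have h9 : (2 : ℝ) ^ (-δ * i) / 2 = (2 ^ i * (2 : ℝ) ^ (-δ * i)) / (2 * 2 ^ i) := by
      field_simp
    rw [h8, h9, ← add_div]
    exact div_le_div_of_nonneg_right (by linarith) (by positivity)
  have hind : ∀ i ≥ i₀, (∫ p : Td d × TT, lg77 α f (2 ^ i₀) p) / 2 ^ i₀ -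
      C₁ * ((2 : ℝ) ^ (-δ * i₀) - (2 : ℝ) ^ (-δ * i)) ≤ (∫ p : Td d × TT, lg77 α f (2 ^ i) p) / 2 ^ i := by
    intro i hi
    induction i, hi using Nat.le_induction with
    | base => simp
    | succ i hi ih =>
      refine le_trans ?_ (hstep i hi)
      have e1 : (2 : ℝ) ^ (-δ * ((i + 1 : ℕ) : ℝ)) = (2 : ℝ) ^ (-δ * i) * (2 : ℝ) ^ (-δ) := by
        rw [← Real.rpow_add two_pos]
        congr 1
        push_cast
        ring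
      rw [e1]
      have e2 : C₁ * ((2 : ℝ) ^ (-δ * i) * (2 : ℝ) ^ (-δ)) = C₁ * (2 : ℝ) ^ (-δ * i) - (2 : ℝ) ^ (-δ * i) / 2 := by
        have e3 : C₁ * (1 - (2 : ℝ) ^ (-δ)) * (2 : ℝ) ^ (-δ * i) = 1 / 2 * (2 : ℝ) ^ (-δ * i) := by
          rw [hC₁']
        linarith
      have e4 : C₁ * ((2 : ℝ) ^ (-δ * i₀) - (2 : ℝ) ^ (-δ * i) * (2 : ℝ) ^ (-δ)) =
          C₁ * ((2 : ℝ) ^ (-δ * i₀) - (2 : ℝ) ^ (-δ * i)) + (2 : ℝ) ^ (-δ * i) / 2 := by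
        rw [mul_sub, mul_sub, e2]
        ring
      rw [e4]
      linarith
  intro i hi
  have h10 := hind i hi
  have h11 : 0 < (2 : ℝ) ^ (-δ * i) := Real.rpow_pos_of_pos two_pos _
  have h12 : C₁ * ((2 : ℝ) ^ (-δ * i₀) - (2 : ℝ) ^ (-δ * i)) ≤ C₁ * (2 : ℝ) ^ (-δ * i₀) :=
    mul_le_mul_of_nonneg_left (by linarith) hC₁0
  have h13 : (∫ p : Td d × TT, lg77 α f (2 ^ i₀) p) / 2 ^ i₀ - C₁ * (2 : ℝ) ^ (-δ * i₀) ≤
      (∫ p : Td d × TT, lg77 α f (2 ^ i) p) / 2 ^ i := by linarith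
  exact h13

/-- the doubling, for fixed noise, uniformly in the frequency vector -/
theorem grow_core77 {γ : ℝ} {k : ℕ} {e : Fin k → Td d → ℝ} {c ε δ κ₁ Cn : ℝ} {D i₁ : ℕ} {w : Ow d}
    (hc1 : c < 1) (hδ : 0 < δ) (hδ8 : δ < c / 8) (hδε : δ < ε / 10) (hD : 4 / c ≤ D) (hCn : 1 ≤ Cn)
    (hnd : ∀ (d : ℕ) (f : Td d → ℝ) (lam R V : ℝ), Continuous f → 1 ≤ lam → 1 ≤ R → ND f lam c R → 4 ≤ V →
      volume {p : Td d × TT | |va ((f p.1 : ℝ) : ℂ) p.2.1| < V} ≤ ENNReal.ofReal (Cn * R * (V / lam) ^ c))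
    (hκ₁ : 1 ≤ κ₁)
    (hbd : ∀ U : Fin (k + 1) → ℝ, Continuous (amU γ e U w) ∧ ∀ θ, |amU γ e U w θ| ≤ κ₁ * ‖U‖)
    {R : ℝ} (hR : 1 ≤ R) :
    ∃ X : ℝ, ∀ (α : Td d) (U : Fin (k + 1) → ℝ), X ≤ ‖U‖ →
      Real.exp (-‖U‖ ^ (c - ε)) ≤ |U 0| → ND (amU γ e U w) ‖U‖ c R →
      (∀ i ≥ i₁, ‖U‖ ≤ 2 ^ (D * i) → Real.exp (-(2 : ℝ) ^ ((1 - 2 * δ) * i)) ≤ |U 0| →
        ∫ x : Td d × TT, los (sq α (amU γ e U w) x.1) x.2 (2 ^ i) ≤ (2 : ℝ) ^ ((1 - δ) * i)) →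
      ∃ i₀ : ℕ, ∀ i ≥ i₀, Jf (amU γ e U w) - ‖U‖ ^ (-(δ * c / 4)) ≤
        (∫ p : Td d × TT, Real.log (nn (Mx (cA (sq α (amU γ e U w) p.1)) p.2 (2 ^ i)))) / 2 ^ i := by
  have hκ₁0 : 0 < κ₁ := zero_lt_one.trans_le hκ₁
  have hr1 : (2 : ℝ) ^ (-δ) < 1 := Real.rpow_lt_one_of_one_lt_of_neg one_lt_two (by linarith)
  set C₁ : ℝ := 1 / (2 * (1 - (2 : ℝ) ^ (-δ))) with hC₁
  have hC₁0 : 0 ≤ C₁ := by
    have : 0 < 1 - (2 : ℝ) ^ (-δ) := by linarith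
    positivity
  have hCR : 0 ≤ Cn * R := by positivity
  obtain ⟨X, hX⟩ := scales77 (ε := ε) hδ hδ8 hδε hc1 hC₁0 hCR hκ₁0 i₁ hD
  refine ⟨X, fun α U hU hU0 hND hi₁ => ?_⟩
  obtain ⟨hx1, hV, i₀, hi0, h4, hqe, herr⟩ := hX ‖U‖ hU
  obtain ⟨hcont, hup⟩ := hbd U
  have hapos : 0 < ‖U‖ := zero_lt_one.trans_le hx1
  set f := amU γ e U w with hf
  have hK0 : 0 ≤ κ₁ * ‖U‖ := by positivity
  have hν0 : 0 ≤ Cn * R * (‖U‖ ^ δ / ‖U‖) ^ c := by positivity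
  have hinit := init (α := α) hcont hup hV (hnd d f ‖U‖ R (‖U‖ ^ δ) hcont hx1 hR hND hV) hν0 (2 ^ i₀)
  have hp2 : ∀ i : ℕ, (0 : ℝ) < 2 ^ i := fun i => by positivity
  have hdbl := dbl_core77 (α := α) hcont hup hδ (i₀ := i₀) fun i hi => by
    have hil : (i₀ : ℝ) ≤ i := by exact_mod_cast hi
    refine hi₁ i (hi0.trans hi)
      (h4.trans (pow_le_pow_right₀ (by norm_num) (Nat.mul_le_mul_left D hi))) ?_
    refine le_trans (Real.exp_le_exp.2 (neg_le_neg ?_)) hU0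
    refine hqe.trans (Real.rpow_le_rpow_of_exponent_le one_le_two ?_)
    exact mul_le_mul_of_nonneg_left hil (by linarith)
  refine ⟨i₀, fun i hi => ?_⟩
  have h10 := hdbl i hi
  have h13 : Jf f - 2 / ‖U‖ ^ δ -
      (2 : ℝ) ^ i₀ * (Cn * R * (‖U‖ ^ δ / ‖U‖) ^ c) * Real.log (2 * π * (κ₁ * ‖U‖) + 4) ≤
      (∫ p : Td d × TT, Real.log (nn (Mx (cA (sq α f p.1)) p.2 (2 ^ i₀)))) / 2 ^ i₀ := by
    rw [le_div_iff₀ (hp2 i₀)]
    refine le_trans (le_of_eq ?_) hinit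
    push_cast
    ring
  linarith

theorem growth (hd : 0 < d) {γ τ : ℝ} (hγ : 0 < γ) (hτ : 1 / (d : ℝ) ≤ τ) (hτγ : τ * γ < 1) {α : Td d}
    (hα : ∃ c : ℝ, 0 < c ∧ ∀ k : ℕ, 1 ≤ k → c * (k : ℝ) ^ (-τ) ≤ ‖k • α‖) {k : ℕ} {e : Fin k → Td d → ℝ}
    (he : ∀ i, Continuous (e i)) {c ε : ℝ} (hc : 0 < c) (hc1 : c < 1) (hε : 0 < ε) (hεc : ε < c) :
    ∃ κ : ℝ, 0 < κ ∧ ∀ᵐ w ∂lawL d, ∀ R : ℝ, 1 ≤ R → ∃ A₁ : ℝ, ∀ U : Fin (k + 1) → ℝ, A₁ ≤ ‖U‖ →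
      Real.exp (-‖U‖ ^ (c - ε)) ≤ |U 0| → ND (amU γ e U w) ‖U‖ c R →
      ∃ i₀ : ℕ, ∀ i ≥ i₀, Jf (amU γ e U w) - ‖U‖ ^ (-κ) ≤
        (∫ p : Td d × TT, Real.log (nn (Mx (cA (sq α (amU γ e U w) p.1)) p.2 (2 ^ i)))) / 2 ^ i := by
  have hδ₀ : 0 < min (c / 8) (ε / 10) := lt_min (by positivity) (by positivity)
  obtain ⟨D, hD⟩ := exists_nat_ge (4 / c)
  obtain ⟨δ, hδ, hδ0, hlos⟩ := los_all hd hγ hτ hτγ hα he D hδ₀
  have hδ8 : δ < c / 8 := hδ0.trans_le (min_le_left _ _)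
  have hδε : δ < ε / 10 := hδ0.trans_le (min_le_right _ _)
  obtain ⟨Cn, hCn, hnd⟩ := nd_v hc hc1
  refine ⟨δ * c / 4, by positivity, ?_⟩
  filter_upwards [hlos, amU_bd (d := d) hγ he] with w hw1 hw2
  intro R hR
  obtain ⟨i₁, hi₁⟩ := hw1
  obtain ⟨κ₁, hκ₁, hbd⟩ := hw2
  obtain ⟨X, hX⟩ := grow_core77 (i₁ := i₁) hc1 hδ hδ8 hδε hD hCn hnd hκ₁ hbd hR
  exact ⟨X, fun U hU hU0 hND => hX α U hU hU0 hND fun i hi h1 h2 => hi₁ i hi U h1 h2⟩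

end Pool.Agent.Helper82.AN
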