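import Pool.Agent.Helper82.AN.SDefs
import Pool.Agent.Helper18.UC.Dens

/-! Block AN-SDENS: Lebesgue density in the fibres, uniform on a large subset.

For fixed `k` there are finitely many cells of level `k` (values of `idx k`), and `b ↦ volume (C \ {z | (b, z) ∈ E})` is
measurable (`measurable_measure_prodMk_left`), so `bad k = {p ∈ E | ∃ k' ≥ k, ofReal η * volume (cell k' p.2) < volume
(cell k' p.2 \ E_(p.1))}` is measurable, decreasing in `k`. For every `b` almost every `z ∈ E_b` is in `bad k` for finitely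
many `k` only (`UC.density` for `E_b` and all `ε`), so `⋂ bad k` is a null set (Fubini) and `volume (bad k) → 0`. -/

set_option autoImplicit false
open MeasureTheory Real Set

namespace Pool.Agent.Helper82.AN

open Pool.Agent.Helper18.UC (nn LL sh clm pt sqo lab rep toT cell)
open Pool.Agent.Helper46.QP (TT Td orb Mx va stp)

variable {d : ℕ}

private lemma measurable_idx30 (k : ℕ) : Measurable (Pool.Agent.Helper18.UC.idx k) := by
  unfold Pool.Agent.Helper18.UC.idx
  exact ((Pool.Agent.Helper18.UC.measurable_rep.fst.const_mul _).floor).prodMk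
    ((Pool.Agent.Helper18.UC.measurable_rep.snd.const_mul _).floor)

/-- for one fibre: the points which are never uniformly dense form a null set -/
private lemma fibre_null30 {E : Set TT} (hE : MeasurableSet E) {η : ℝ} (hη : 0 < η) :
    volume {z : TT | z ∈ E ∧ ∀ k0 : ℕ, ∃ k ≥ k0,
      ¬ volume (cell k z \ E) ≤ ENNReal.ofReal η * volume (cell k z)} = 0 := by
  refine le_antisymm (le_of_forall_pos_le_add fun e he => ?_) zero_le
  rw [zero_add]
  rcases eq_or_ne e ⊤ with rfl | hetop
  · exact le_top
  have her : 0 < e.toReal := ENNReal.toReal_pos he.ne' hetop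
  obtain ⟨E0, hE0, hE0m, hvol, k0, hk0⟩ := Pool.Agent.Helper18.UC.density hE hη her
  rw [ENNReal.ofReal_toReal hetop] at hvol
  refine (measure_mono ?_).trans hvol
  rintro z ⟨hz, hbad⟩
  refine ⟨hz, fun hz0 => ?_⟩
  obtain ⟨k, hk, hk'⟩ := hbad k0
  exact hk' (hk0 k hk z hz0)

theorem dens {E : Set (Td d × TT)} (hE : MeasurableSet E) {η ε : ℝ} (hη : 0 < η) (hε : 0 < ε) :
    ∃ D ⊆ E, MeasurableSet D ∧ volume (E \ D) ≤ ENNReal.ofReal ε ∧
      ∃ k0 : ℕ, ∀ k ≥ k0, ∀ p ∈ D,
        volume (cell k p.2 \ {z | (p.1, z) ∈ E}) ≤ ENNReal.ofReal η * volume (cell k p.2) := by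
  have hcellm : ∀ k (z : TT), MeasurableSet (cell k z) := fun k z =>
    measurable_idx30 k (measurableSet_singleton (Pool.Agent.Helper18.UC.idx k z))
  have hcell : ∀ k (z w : TT), Pool.Agent.Helper18.UC.idx k z = Pool.Agent.Helper18.UC.idx k w →
      cell k z = cell k w := by
    intro k z w h
    unfold cell
    rw [h]
  set D : ℕ → Set (Td d × TT) := fun k =>
    {p | volume (cell k p.2 \ {z | (p.1, z) ∈ E}) ≤ ENNReal.ofReal η * volume (cell k p.2)} with hD
  -- measurability of `D k`
  have hDm : ∀ k, MeasurableSet (D k) := by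
    intro k
    -- for an index `i`, the cell and the set of parameters
    set C : ℤ × ℤ → Set TT := fun i => Pool.Agent.Helper18.UC.idx k ⁻¹' {i} with hC
    have hCm : ∀ i, MeasurableSet (C i) := fun i => measurable_idx30 k (measurableSet_singleton i)
    have hfm : ∀ i, Measurable (fun b : Td d => volume (C i \ {z | (b, z) ∈ E})) := by
      intro i
      have hset : MeasurableSet ((univ : Set (Td d)) ×ˢ C i \ E) :=
        (MeasurableSet.univ.prod (hCm i)).diff hE
      have h := measurable_measure_prodMk_left (ν := (volume : Measure TT)) hset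
      have hfe : (fun b : Td d => volume (C i \ {z | (b, z) ∈ E})) =
          fun b : Td d => volume (Prod.mk b ⁻¹' ((univ : Set (Td d)) ×ˢ C i \ E)) := by
        funext b
        congr 1
        ext z
        constructor
        · rintro ⟨h1, h2⟩
          exact ⟨⟨Set.mem_univ b, h1⟩, h2⟩
        · rintro ⟨h1, h2⟩
          exact ⟨h1.2, h2⟩
      rw [hfe]
      exact h
    have e : D k = ⋃ i : ℤ × ℤ, ({b : Td d | volume (C i \ {z | (b, z) ∈ E}) ≤
        ENNReal.ofReal η * volume (C i)} ×ˢ C i) := by
      ext p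
      rw [Set.mem_iUnion]
      constructor
      · intro hp
        exact ⟨Pool.Agent.Helper18.UC.idx k p.2, hp, rfl⟩
      · rintro ⟨i, hp1, hp2⟩
        have h2 : cell k p.2 = C i := by
          have : Pool.Agent.Helper18.UC.idx k p.2 = i := hp2
          rw [hC, ← this]
          rfl
        show volume (cell k p.2 \ {z | (p.1, z) ∈ E}) ≤ ENNReal.ofReal η * volume (cell k p.2)
        rw [h2]
        exact hp1
    rw [e]
    refine MeasurableSet.iUnion fun i => MeasurableSet.prod ?_ (hCm i)
    exact measurableSet_le (hfm i) measurable_const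
  set A : ℕ → Set (Td d × TT) := fun k0 => E ∩ ⋂ k ∈ Set.Ici k0, D k with hA
  have hAm : ∀ k0, MeasurableSet (A k0) := fun k0 =>
    hE.inter (MeasurableSet.biInter (Set.to_countable _) fun k _ => hDm k)
  have hmono : Monotone A := by
    intro a b hab z hz
    refine ⟨hz.1, ?_⟩
    rw [Set.mem_iInter₂]
    intro k hk
    exact Set.mem_iInter₂.1 hz.2 k (le_trans hab hk)
  have hNm : MeasurableSet (⋂ k0, E \ A k0) := MeasurableSet.iInter fun k0 => hE.diff (hAm k0)
  have hnull : volume (⋂ k0, E \ A k0) = 0 := by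
    have hv : (volume : Measure (Td d × TT)) = (volume : Measure (Td d)).prod (volume : Measure TT) := rfl
    rw [hv, Measure.measure_prod_null hNm]
    refine Filter.Eventually.of_forall fun b => ?_
    have hEb : MeasurableSet {z : TT | (b, z) ∈ E} := measurable_prodMk_left hE
    refine measure_mono_null ?_ (fibre_null30 hEb hη)
    intro z hz
    have hz' : ∀ k0, (b, z) ∈ E \ A k0 := fun k0 => Set.mem_iInter.1 hz k0
    refine ⟨(hz' 0).1, fun k0 => ?_⟩
    by_contra hcon
    push Not at hcon
    refine (hz' k0).2 ⟨(hz' 0).1, ?_⟩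
    rw [Set.mem_iInter₂]
    intro k hk
    exact hcon k hk
  have hlim := tendsto_measure_iInter_atTop (μ := (volume : Measure (Td d × TT))) (s := fun k0 => E \ A k0)
    (fun k0 => (hE.diff (hAm k0)).nullMeasurableSet)
    (fun a b hab => Set.sdiff_subset_sdiff_right (hmono hab)) ⟨0, measure_ne_top _ _⟩
  rw [hnull] at hlim
  have hev := hlim.eventually (gt_mem_nhds (show (0 : ENNReal) < ENNReal.ofReal ε from ENNReal.ofReal_pos.2 hε))
  obtain ⟨k0, hk0⟩ := hev.exists
  refine ⟨A k0, Set.inter_subset_left, hAm k0, hk0.le, k0, fun k hk z hz => ?_⟩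
  exact Set.mem_iInter₂.1 hz.2 k hk

end Pool.Agent.Helper82.AN
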