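import Pool.Agent.Helper46.QR.Core

/-! Project AN (MP_9ee088_an): standard maps with an analytic quasi-periodic amplitude. Definitions of the growth part. -/

set_option autoImplicit false
open MeasureTheory Real Set
open scoped ENNReal

namespace Pool.Agent.Helper82.AN

open Pool.Agent.Helper18.UC (nn)
open Pool.Agent.Helper46.QP (TT Td orb Mx va stp dl)

variable {d : ℕ}

/-! ### sequences of real amplitudes -/

/-- a sequence of real amplitudes, complex valued -/
def cA (A : ℕ → ℝ) (j : ℕ) : ℂ := (A j : ℂ)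

/-- the sequence which starts at time `m` -/
def shA (A : ℕ → ℝ) (m j : ℕ) : ℝ := A (j + m)

/-- the loss at the junction of two orbit pieces of length `m` -/
noncomputable def los (A : ℕ → ℝ) (z : TT) (m : ℕ) : ℝ :=
  Real.log (nn (Mx (cA A) z m)) + Real.log (nn (Mx (cA (shA A m)) (orb (cA A) z m) m)) -
    Real.log (nn (Mx (cA A) z (2 * m)))

/-- noise `s * re w` in the three amplitudes at the times `m - 1`, `m`, `m + 1` -/
noncomputable def up3 (A : ℕ → ℝ) (m : ℕ) (s : ℝ) (w0 w1 w2 : ℂ) (j : ℕ) : ℝ :=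
  A j + s * (if j + 1 = m then w0.re else if j = m then w1.re else if j = m + 1 then w2.re else 0)

/-- the amplitudes along the rotation -/
def sq (α : Td d) (f : Td d → ℝ) (θ : Td d) (j : ℕ) : ℝ := f (θ + j • α)

/-- the map of the torus of dimension `d + 2`: standard maps with the parameter `f θ` -/
noncomputable def Fs (α : Td d) (f : Td d → ℝ) (p : Td d × TT) : Td d × TT := (p.1 + α, stp ((f p.1 : ℝ) : ℂ) p.2)

/-! ### the analytic noise -/

/-- indices: frequency, and cosine (`0`) or sine (`1`) -/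
abbrev Ik (d : ℕ) := (Fin d → ℤ) × Fin 2
abbrev Ow (d : ℕ) := Ik d → ℝ

/-- the Laplace law -/
noncomputable def lap : Measure ℝ := (volume : Measure ℝ).withDensity fun x => ENNReal.ofReal (Real.exp (-|x|) / 2)

/-- independent coefficients with the Laplace law -/
noncomputable def lawL (d : ℕ) : Measure (Ow d) := Measure.infinitePi fun _ : Ik d => lap

/-- `cos 2π k·θ` or `sin 2π k·θ` -/
noncomputable def bas (i : Ik d) (θ : Td d) : ℝ :=
  if i.2 = 0 then (fourier 1 (∑ m, i.1 m • θ m) : ℂ).re else (fourier 1 (∑ m, i.1 m • θ m) : ℂ).im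

/-- the weights `exp (- |k| ^ γ)`, `|k|` the maximum norm -/
noncomputable def wt (γ : ℝ) (i : Ik d) : ℝ := Real.exp (-(‖i.1‖ ^ γ))

/-- the noise -/
noncomputable def eta (γ : ℝ) (w : Ow d) (θ : Td d) : ℝ := ∑' i : Ik d, wt γ i * w i * bas i θ

/-- bound of the noise -/
noncomputable def Hw (γ : ℝ) (w : Ow d) : ℝ≥0∞ := ∑' i : Ik d, ENNReal.ofReal (wt γ i * |w i|)

/-- amplitude: background `f`, noise of size `q` -/
noncomputable def amp (γ : ℝ) (f : Td d → ℝ) (q : ℝ) (w : Ow d) (θ : Td d) : ℝ := f θ + q * eta γ w θ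

/-- amplitude with parameters `U`: `U 0 η + ∑ U (i + 1) e i` -/
noncomputable def amU (γ : ℝ) {k : ℕ} (e : Fin k → Td d → ℝ) (U : Fin (k + 1) → ℝ) (w : Ow d) (θ : Td d) : ℝ :=
  (∑ i : Fin k, U i.succ * e i θ) + U 0 * eta γ w θ

/-- the mean of the logarithm of the entry `2 + 2π f cos 2πx` -/
noncomputable def Jf (f : Td d → ℝ) : ℝ := ∫ p : Td d × TT, Real.log |va ((f p.1 : ℝ) : ℂ) p.2.1|

/-- `f / lam` is rarely small: the set where `|f| < t lam` has measure at most `R t ^ c`, for `t ≥ 1 / lam` -/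
def ND (f : Td d → ℝ) (lam c R : ℝ) : Prop :=
  ∀ t : ℝ, 1 / lam ≤ t → volume {θ | |f θ| < t * lam} ≤ ENNReal.ofReal (R * t ^ c)

/-- points of the orbits of length `n` of the `M` points `β k`, all of them at distance at least `ρ` of each other -/
def SepR (α : Td d) (ρ : ℝ) (n M : ℕ) (β : Fin M → Td d) : Prop :=
  ∀ x y : Fin M × Fin n, x ≠ y → ρ ≤ dist (β x.1 + (x.2 : ℕ) • α) (β y.1 + (y.2 : ℕ) • α)

lemma amU_eq (γ : ℝ) {k : ℕ} (e : Fin k → Td d → ℝ) (U : Fin (k + 1) → ℝ) (w : Ow d) :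
    amU γ e U w = amp γ (fun θ => ∑ i : Fin k, U i.succ * e i θ) (U 0) w := rfl

lemma sq_add (α : Td d) (f : Td d → ℝ) (θ : Td d) (m : ℕ) : shA (sq α f θ) m = sq α f (θ + m • α) := by
  funext j
  unfold shA sq
  rw [add_assoc, ← add_nsmul, add_comm m j]

lemma Fs_iter (α : Td d) (f : Td d → ℝ) (θ : Td d) (z : TT) (n : ℕ) :
    (Fs α f)^[n] (θ, z) = (θ + n • α, orb (cA (sq α f θ)) z n) := by
  induction n with
  | zero => simp [orb]
  | succ n ih =>
    rw [Function.iterate_succ_apply', ih]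
    unfold Fs
    rw [Pool.Agent.Helper46.QP.orb_succ]
    refine Prod.ext ?_ rfl
    show θ + n • α + α = θ + (n + 1) • α
    rw [succ_nsmul, add_assoc]

end Pool.Agent.Helper82.AN
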