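import Pool.Agent.Helper82.AN.CoreP
import Pool.Agent.Helper82.AN.Defs
import Pool.Agent.Helper46.QR.DblR

/-! Block AN-JUNC: exponential moment of the loss, for frozen amplitudes and uniform noise in three of them.

Port of `ls_le1`, `ls_ev1`, `froz1`, `ev_bd1` in `Helper46/QR/DblR.lean` (private there: copy) to a sequence `A` with `up3`: the law `law d` is replaced by the three discs, `arm` by `fun i => A (m - 1 + i)`, `D.s l` by `s`; the sets where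
`|sn|`, `|cs|` are less than `ρ` at the times `m - 1`, `m`, `m + 1` have measure at most `2 ρ` each (`cut`; the map `z ↦ orb .. z k` preserves the volume for every choice of the noise). The amplitudes with noise are at most `K + 1 ≤ 2 K`. Result (`V = 2π (K + 1) + 4 ≤ 17 K`, `coreP`):
`P(los > t) ≤ 10 ρ + (4 C + 1) K^4 (s ρ)⁻⁴ (16 V³)^(1/8) exp(-t/8)` for all `ρ ∈ (0, 1]`; `ρ = exp(-t/40)`: at most `B exp(-t/40)`, `B ≤ C' K^5 s⁻⁴`. Then `E exp(los/80) = 1 + ∫_0^∞ (1/80) e^{t/80} P(los > t) dt ≤ 1 + B` (`lintegral_comp_eq_lintegral_meas_lt_mul` or the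
layer cake formula; compare `expW` in `Helper46/QA/Tail.lean`, which has this argument; `los` is bounded). -/

set_option autoImplicit false
open MeasureTheory Real Set
open scoped ENNReal

namespace Pool.Agent.Helper82.AN

open Pool.Agent.Helper18.UC (nn)
open Pool.Agent.Helper95.PV (mv rp)
open Pool.Agent.Helper46.QP (TT dl orb orb_succ orb_add orb_meas orb_mp Mx Mx_succ Mx_add Mx_meas Mx_meas' det_Mx va ee norm_ee clip clip_ae)
open Pool.Agent.Helper46.QR (bad3 am3 dot2 rw2 cl2 ent cut)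
open Pool.Agent.Helper82.QR (sn cs act)

private theorem orb_congr54 {A A' : ℕ → ℂ} (z : TT) {n : ℕ} (h : ∀ j < n, A j = A' j) : orb A z n = orb A' z n := by
  induction n with
  | zero => rfl
  | succ n ih => rw [orb_succ, orb_succ, ih fun j hj => h j (by omega), h n (by omega)]

private theorem Mx_congr54 {A A' : ℕ → ℂ} (z : TT) {n : ℕ} (h : ∀ j < n, A j = A' j) : Mx A z n = Mx A' z n := by
  induction n with
  | zero => rfl
  | succ n ih =>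
    rw [Mx_succ, Mx_succ, ih fun j hj => h j (by omega), h n (by omega),
      orb_congr54 z fun j hj => h j (by omega)]

/-- the event for a sequence of amplitudes -/
private def Ev54 (n : ℕ) (i j : Fin 2) (ρ ε : ℝ) (a : ℕ → ℂ) (z : TT) : Prop :=
  ρ ≤ |sn (orb a z (n + 1)).1| ∧ ρ ≤ |cs (orb a z (n + 1)).1| ∧ ρ ≤ |sn (orb a z (n + 2)).1| ∧
  ρ ≤ |sn (orb a z (n + 3)).1| ∧ ρ ≤ |cs (orb a z (n + 3)).1| ∧
  |dot2 (rw2 (Mx (fun k => a (k + (n + 4))) (orb a z (n + 4)) n) i)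
    (act (Mx (fun k => a (k + (n + 1))) (orb a z (n + 1)) 3) (cl2 (Mx a z (n + 1)) j))| < ε

private theorem pt_meas54 (m : ℕ) :
    Measurable fun p : (ℕ → ℂ) × TT => (((fun j => p.1 (j + m)), orb p.1 p.2 m) : (ℕ → ℂ) × TT) :=
  (measurable_pi_lambda _ fun j => (measurable_pi_apply (j + m)).comp measurable_fst).prodMk (orb_meas m)

private theorem rw2_meas54 {Y : Type*} [MeasurableSpace Y] {R : Y → Matrix (Fin 2) (Fin 2) ℝ} (hR : ∀ i j, Measurable fun y => R y i j)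
    (i : Fin 2) : Measurable fun y => rw2 (R y) i := by
  unfold rw2
  have h1 : Measurable fun y => √(R y i 0 ^ 2 + R y i 1 ^ 2) :=
    (((hR i 0).pow_const 2).add ((hR i 1).pow_const 2)).sqrt
  exact ((hR i 0).div h1).prodMk ((hR i 1).div h1)

private theorem cl2_meas54 {Y : Type*} [MeasurableSpace Y] {R : Y → Matrix (Fin 2) (Fin 2) ℝ} (hR : ∀ i j, Measurable fun y => R y i j)
    (j : Fin 2) : Measurable fun y => cl2 (R y) j := by
  unfold cl2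
  have h1 : Measurable fun y => √(R y 0 j ^ 2 + R y 1 j ^ 2) :=
    (((hR 0 j).pow_const 2).add ((hR 1 j).pow_const 2)).sqrt
  exact ((hR 0 j).div h1).prodMk ((hR 1 j).div h1)

private theorem mD_meas54 (n k : ℕ) (i j : Fin 2) : Measurable fun p : (ℕ → ℂ) × TT =>
    |dot2 (rw2 (Mx (fun k => p.1 (k + (n + 4))) (orb p.1 p.2 (n + 4)) n) i)
      (act (Mx (fun k => p.1 (k + (n + 1))) (orb p.1 p.2 (n + 1)) k) (cl2 (Mx p.1 p.2 (n + 1)) j))| := by
  have mR : Measurable fun p : (ℕ → ℂ) × TT => rw2 (Mx (fun k => p.1 (k + (n + 4))) (orb p.1 p.2 (n + 4)) n) i :=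
    rw2_meas54 (R := fun p : (ℕ → ℂ) × TT => Mx (fun k => p.1 (k + (n + 4))) (orb p.1 p.2 (n + 4)) n)
      (fun a b => (Mx_meas' n a b).comp (pt_meas54 (n + 4))) i
  have mK : ∀ a b, Measurable fun p : (ℕ → ℂ) × TT => Mx (fun k => p.1 (k + (n + 1))) (orb p.1 p.2 (n + 1)) k a b :=
    fun a b => (Mx_meas' k a b).comp (pt_meas54 (n + 1))
  have mL : Measurable fun p : (ℕ → ℂ) × TT => cl2 (Mx p.1 p.2 (n + 1)) j :=
    cl2_meas54 (R := fun p : (ℕ → ℂ) × TT => Mx p.1 p.2 (n + 1)) (fun a b => Mx_meas' (n + 1) a b) j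
  have l1 := measurable_fst.comp mL
  have l2 := measurable_snd.comp mL
  have a1 := ((mK 0 0).mul l1).add ((mK 0 1).mul l2)
  have a2 := ((mK 1 0).mul l1).add ((mK 1 1).mul l2)
  have r1 := measurable_fst.comp mR
  have r2 := measurable_snd.comp mR
  have := ((r1.mul a1).add (r2.mul a2)).norm
  simp only [Function.comp_def, Real.norm_eq_abs] at this
  unfold dot2 act
  exact this

private theorem Ev_meas54 (n : ℕ) (i j : Fin 2) (ρ ε : ℝ) : MeasurableSet {p : (ℕ → ℂ) × TT | Ev54 n i j ρ ε p.1 p.2} := by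
  have ms : ∀ k : ℕ, Measurable fun p : (ℕ → ℂ) × TT => |sn (orb p.1 p.2 k).1| := by
    intro k
    have := (Pool.Agent.Helper82.QR.sn_meas.comp (measurable_fst.comp (orb_meas k))).norm
    simp only [Function.comp_def, Real.norm_eq_abs] at this
    exact this
  have mc : ∀ k : ℕ, Measurable fun p : (ℕ → ℂ) × TT => |cs (orb p.1 p.2 k).1| := by
    intro k
    have := (Pool.Agent.Helper82.QR.cs_meas.comp (measurable_fst.comp (orb_meas k))).norm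
    simp only [Function.comp_def, Real.norm_eq_abs] at this
    exact this
  have s1 : MeasurableSet {p : (ℕ → ℂ) × TT | ρ ≤ |sn (orb p.1 p.2 (n + 1)).1|} := measurableSet_le measurable_const (ms _)
  have s2 : MeasurableSet {p : (ℕ → ℂ) × TT | ρ ≤ |cs (orb p.1 p.2 (n + 1)).1|} := measurableSet_le measurable_const (mc _)
  have s3 : MeasurableSet {p : (ℕ → ℂ) × TT | ρ ≤ |sn (orb p.1 p.2 (n + 2)).1|} := measurableSet_le measurable_const (ms _)
  have s4 : MeasurableSet {p : (ℕ → ℂ) × TT | ρ ≤ |sn (orb p.1 p.2 (n + 3)).1|} := measurableSet_le measurable_const (ms _)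
  have s5 : MeasurableSet {p : (ℕ → ℂ) × TT | ρ ≤ |cs (orb p.1 p.2 (n + 3)).1|} := measurableSet_le measurable_const (mc _)
  have s6 := measurableSet_lt (mD_meas54 n 3 i j) (measurable_const (a := ε))
  have s := s1.inter (s2.inter (s3.inter (s4.inter (s5.inter s6))))
  unfold Ev54
  exact s

private theorem unit54 {x y : ℝ} (h : x ^ 2 + y ^ 2 ≠ 0) :
    1 ≤ (x / √(x ^ 2 + y ^ 2)) ^ 2 + (y / √(x ^ 2 + y ^ 2)) ^ 2 := by
  rw [div_pow, div_pow, Real.sq_sqrt (by positivity), ← add_div, div_self h]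

private theorem rw_unit54 {R : Matrix (Fin 2) (Fin 2) ℝ} (h : R.det = 1) (i : Fin 2) :
    1 ≤ (rw2 R i).1 ^ 2 + (rw2 R i).2 ^ 2 := by
  refine unit54 fun h0 => ?_
  have hx : R i 0 = 0 := by nlinarith [sq_nonneg (R i 0), sq_nonneg (R i 1)]
  have hy : R i 1 = 0 := by nlinarith [sq_nonneg (R i 0), sq_nonneg (R i 1)]
  rw [Matrix.det_fin_two] at h
  fin_cases i <;> simp at hx hy <;> rw [hx, hy] at h <;> norm_num at h

private theorem cl_unit54 {R : Matrix (Fin 2) (Fin 2) ℝ} (h : R.det = 1) (j : Fin 2) :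
    1 ≤ (cl2 R j).1 ^ 2 + (cl2 R j).2 ^ 2 := by
  refine unit54 fun h0 => ?_
  have hx : R 0 j = 0 := by nlinarith [sq_nonneg (R 0 j), sq_nonneg (R 1 j)]
  have hy : R 1 j = 0 := by nlinarith [sq_nonneg (R 0 j), sq_nonneg (R 1 j)]
  rw [Matrix.det_fin_two] at h
  fin_cases j <;> simp at hx hy <;> rw [hx, hy] at h <;> norm_num at h

private theorem va_le54 {a : ℂ} {K : ℝ} (ha : ‖a‖ ≤ K) (x : UnitAddCircle) : nn (mv (va a x)) ≤ 2 * π * K + 4 := by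
  rw [Pool.Agent.Helper95.PV.nn_mv]
  have h1 : |(a * ee x).re| ≤ K := by
    refine (Complex.abs_re_le_norm _).trans ?_
    rw [norm_mul, norm_ee, mul_one]
    exact ha
  unfold va
  have h2 := abs_add_le (2 : ℝ) (2 * π * (a * ee x).re)
  rw [abs_two, abs_mul, abs_of_pos (by positivity : (0 : ℝ) < 2 * π)] at h2
  have := mul_le_mul_of_nonneg_left h1 (by positivity : (0 : ℝ) ≤ 2 * π)
  linarith

/-- the loss for a sequence of amplitudes -/
private noncomputable def ls54 (a : ℕ → ℂ) (z : TT) (m : ℕ) : ℝ :=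
  Real.log (nn (Mx a z m)) + Real.log (nn (Mx (fun j => a (j + m)) (orb a z m) m)) - Real.log (nn (Mx a z (2 * m)))

private theorem ls_ev54 {a : ℕ → ℂ} {K : ℝ} (hK0 : 0 ≤ K) (ha : ∀ j, ‖a j‖ ≤ K) (z : TT) (n : ℕ) {t : ℝ}
    (ht : t < ls54 a z (n + 2)) : ∃ i j : Fin 2,
    |dot2 (rw2 (Mx (fun k => a (k + (n + 4))) (orb a z (n + 4)) n) i)
      (act (Mx (fun k => a (k + (n + 1))) (orb a z (n + 1)) 3) (cl2 (Mx a z (n + 1)) j))| <
      16 * (2 * π * K + 4) ^ 3 * Real.exp (-t) := by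
  obtain ⟨V, hV⟩ : ∃ V : ℝ, V = 2 * π * K + 4 := ⟨_, rfl⟩
  rw [← hV]
  have hV0 : 0 < V := by rw [hV]; positivity
  obtain ⟨R, hR⟩ : ∃ R, R = Mx (fun k => a (k + (n + 4))) (orb a z (n + 4)) n := ⟨_, rfl⟩
  obtain ⟨M, hM⟩ : ∃ M, M = Mx (fun k => a (k + (n + 1))) (orb a z (n + 1)) 3 := ⟨_, rfl⟩
  obtain ⟨L, hL⟩ : ∃ L, L = Mx a z (n + 1) := ⟨_, rfl⟩
  rw [← hR, ← hM, ← hL]
  have e1 : Mx a z (2 * (n + 2)) = R * (M * L) := by
    rw [show 2 * (n + 2) = (n + 4) + n by ring, Mx_add, ← hR]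
    congr 1
    rw [show n + 4 = (n + 1) + 3 by ring, Mx_add, ← hM, ← hL]
  have hdR : R.det = 1 := by rw [hR]; exact det_Mx _ _ _
  have hdL : L.det = 1 := by rw [hL]; exact det_Mx _ _ _
  have hdP : (R * (M * L)).det = 1 := by rw [← e1]; exact det_Mx _ _ _
  have pR := Pool.Agent.Helper95.PV.nn_ge_two hdR
  have pL := Pool.Agent.Helper95.PV.nn_ge_two hdL
  have pP := Pool.Agent.Helper95.PV.nn_ge_two hdP
  have e2 : nn (Mx a z (n + 2)) ≤ V * nn L := by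
    rw [show n + 2 = (n + 1) + 1 by ring, Mx_succ, ← hL]
    refine (Pool.Agent.Helper18.UC.nn_mul _ _).trans ?_
    have := va_le54 (ha (n + 1)) (orb a z (n + 1)).1
    rw [← hV] at this
    exact mul_le_mul_of_nonneg_right this (by linarith)
  have e3 : nn (Mx (fun j => a (j + (n + 2))) (orb a z (n + 2)) (n + 2)) ≤ nn R * (V * V) := by
    rw [show n + 2 = 2 + n by ring, Mx_add]
    have e4 : (fun j => (fun j => a (j + (2 + n))) (j + 2)) = fun k => a (k + (n + 4)) := by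
      funext j
      simp only
      congr 1
      ring
    have e5 : orb (fun j => a (j + (2 + n))) (orb a z (2 + n)) 2 = orb a z (n + 4) := by
      rw [← orb_add]
      congr 1
      ring
    rw [e4, e5, ← hR]
    refine (Pool.Agent.Helper18.UC.nn_mul _ _).trans ?_
    refine mul_le_mul_of_nonneg_left ?_ (by linarith)
    rw [Mx_succ, Mx_succ]
    have e6 : Mx (fun j => a (j + (2 + n))) (orb a z (2 + n)) 0 = 1 := rfl
    rw [e6, Matrix.mul_one]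
    refine (Pool.Agent.Helper18.UC.nn_mul _ _).trans ?_
    have h0 := va_le54 (ha (0 + (2 + n))) (orb (fun j => a (j + (2 + n))) (orb a z (2 + n)) 0).1
    have h1 := va_le54 (ha (0 + 1 + (2 + n))) (orb (fun j => a (j + (2 + n))) (orb a z (2 + n)) (0 + 1)).1
    rw [← hV] at h0 h1
    exact mul_le_mul h1 h0 (Pool.Agent.Helper18.UC.nn_nonneg _) hV0.le
  have q2 := Pool.Agent.Helper95.PV.nn_ge_two (det_Mx a z (n + 2))
  have q3 := Pool.Agent.Helper95.PV.nn_ge_two (det_Mx (fun j => a (j + (n + 2))) (orb a z (n + 2)) (n + 2))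
  obtain ⟨i, j, hij⟩ := ent R M L
  refine ⟨i, j, ?_⟩
  by_contra hc
  rw [not_lt] at hc
  have h4 : nn R * nn L * (V ^ 3 * Real.exp (-t)) ≤ nn (R * (M * L)) := by
    have : nn R * nn L * (16 * V ^ 3 * Real.exp (-t)) ≤ 16 * nn (R * (M * L)) :=
      (mul_le_mul_of_nonneg_left hc (by positivity)).trans hij
    linarith
  have h5 := Real.log_le_log (by positivity) h4
  rw [Real.log_mul (by positivity) (by positivity), Real.log_mul (by positivity) (by positivity),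
    Real.log_mul (by positivity) (by positivity), Real.log_exp, Real.log_pow] at h5
  have h6 := Real.log_le_log (by linarith) e2
  have h7 := Real.log_le_log (by linarith) e3
  rw [Real.log_mul (by positivity) (by positivity)] at h6
  rw [Real.log_mul (by positivity) (by positivity), Real.log_mul (by positivity) (by positivity)] at h7
  unfold ls54 at ht
  rw [e1] at ht
  push_cast at h5
  linarith

private theorem ls_meas54 (m : ℕ) : Measurable fun p : (ℕ → ℂ) × TT => ls54 p.1 p.2 m := by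
  unfold ls54
  have h1 := Real.measurable_log.comp (Mx_meas m)
  have h2 := Real.measurable_log.comp ((Mx_meas m).comp (pt_meas54 m))
  have h3 := Real.measurable_log.comp (Mx_meas (2 * m))
  exact (h1.add h2).sub h3

/-- exponential moment from an exponential tail -/
private lemma exp_mom54 {X : Type*} [MeasurableSpace X] {P : Measure X} [IsProbabilityMeasure P] {f : X → ℝ}
    (hf : Measurable f) (h0 : ∀ x, 0 ≤ f x) {C : ℝ} (hC : 0 ≤ C)
    (h : ∀ t : ℝ, 0 < t → P {x | t < f x} ≤ ENNReal.ofReal (C * Real.exp (-(t / 40)))) :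
    ∫⁻ x, ENNReal.ofReal (Real.exp (f x / 80)) ∂P ≤ ENNReal.ofReal (C + 1) := by
  have hder : ∀ x : ℝ, ∫ t in (0 : ℝ)..x, (1 / 80) * Real.exp (t / 80) = Real.exp (x / 80) - 1 := by
    intro x
    have hd : ∀ t ∈ Set.uIcc 0 x, HasDerivAt (fun t : ℝ => Real.exp (t / 80)) ((1 / 80) * Real.exp (t / 80)) t := by
      intro t _
      have h1 : HasDerivAt (fun t : ℝ => t / 80) (1 / 80) t := (hasDerivAt_id t).div_const 80
      have h2 := h1.exp
      rw [mul_comm] at h2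
      exact h2
    rw [intervalIntegral.integral_eq_sub_of_hasDerivAt hd]
    · norm_num
    · exact (Continuous.intervalIntegrable (by fun_prop) _ _)
  have h1 := lintegral_comp_eq_lintegral_meas_lt_mul (g := fun t : ℝ => (1 / 80) * Real.exp (t / 80)) P
    (Filter.Eventually.of_forall h0) hf.aemeasurable
    (fun t _ => Continuous.intervalIntegrable (by fun_prop) _ _)
    (Filter.Eventually.of_forall fun t => by positivity)
  have h2 : ∀ x, ENNReal.ofReal (Real.exp (f x / 80)) =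
      ENNReal.ofReal (∫ t in (0 : ℝ)..f x, (1 / 80) * Real.exp (t / 80)) + 1 := by
    intro x
    rw [hder, ← ENNReal.ofReal_one, ← ENNReal.ofReal_add _ zero_le_one]
    · congr 1; ring
    · have := Real.one_le_exp (div_nonneg (h0 x) (by norm_num : (0:ℝ) ≤ 80))
      linarith
  have hI : ∫⁻ t in Ioi (0 : ℝ), ENNReal.ofReal ((1 / 80) * Real.exp (-(t / 80))) = 1 := by
    have h3 : ∫ t in Ioi (0 : ℝ), (1 / 80) * Real.exp (-(t / 80)) = 1 := by
      have h4 := integral_exp_mul_Ioi (a := -(1 / 80 : ℝ)) (by norm_num) 0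
      rw [integral_const_mul]
      have h5 : (fun t : ℝ => Real.exp (-(t / 80))) = fun t : ℝ => Real.exp (-(1 / 80) * t) := by
        funext t; congr 1; ring
      rw [h5, h4]
      norm_num
    rw [← ofReal_integral_eq_lintegral_ofReal, h3, ENNReal.ofReal_one]
    · have h5 := integrableOn_exp_mul_Ioi (a := -(1 / 80 : ℝ)) (by norm_num) 0
      have h6 : (fun t : ℝ => (1 / 80) * Real.exp (-(t / 80))) = fun t : ℝ => (1 / 80) * Real.exp (-(1 / 80) * t) := by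
        funext t; congr 2; ring
      rw [h6]
      exact h5.const_mul _
    · exact Filter.Eventually.of_forall fun t => by positivity
  calc ∫⁻ x, ENNReal.ofReal (Real.exp (f x / 80)) ∂P
      = ∫⁻ x, (ENNReal.ofReal (∫ t in (0 : ℝ)..f x, (1 / 80) * Real.exp (t / 80)) + 1) ∂P := lintegral_congr h2
    _ = (∫⁻ t in Ioi (0 : ℝ), P {x | t < f x} * ENNReal.ofReal ((1 / 80) * Real.exp (t / 80))) + 1 := by
        rw [lintegral_add_right _ measurable_const, h1, lintegral_const, measure_univ, one_mul]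
    _ ≤ (∫⁻ t in Ioi (0 : ℝ), ENNReal.ofReal C * ENNReal.ofReal ((1 / 80) * Real.exp (-(t / 80)))) + 1 := by
        gcongr ?_ + 1
        refine setLIntegral_mono' measurableSet_Ioi fun t ht => ?_
        refine (mul_le_mul_left (h t ht) _).trans ?_
        rw [← ENNReal.ofReal_mul (by positivity), ← ENNReal.ofReal_mul hC]
        apply ENNReal.ofReal_le_ofReal
        refine le_of_eq ?_
        have e : Real.exp (-(t / 80)) = Real.exp (-(t / 40)) * Real.exp (t / 80) := by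
          rw [← Real.exp_add]; congr 1; ring
        rw [e]; ring
    _ = ENNReal.ofReal C * 1 + 1 := by
        rw [lintegral_const_mul _ (by fun_prop), hI]
    _ = ENNReal.ofReal (C + 1) := by
        rw [mul_one, ENNReal.ofReal_add hC zero_le_one, ENNReal.ofReal_one]

/-- the amplitudes with noise -/
private noncomputable def aT54 (A : ℕ → ℝ) (m : ℕ) (s : ℝ) (t : ℂ × ℂ × ℂ) : ℕ → ℂ := cA (up3 A m s t.1 t.2.1 t.2.2)

private theorem aT_meas54 (A : ℕ → ℝ) (m : ℕ) (s : ℝ) : Measurable (aT54 A m s) := by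
  refine measurable_pi_lambda _ fun j => ?_
  unfold aT54 cA up3
  refine Complex.measurable_ofReal.comp ?_
  refine measurable_const.add (measurable_const.mul ?_)
  split_ifs
  · exact Complex.measurable_re.comp measurable_fst
  · exact Complex.measurable_re.comp (measurable_fst.comp measurable_snd)
  · exact Complex.measurable_re.comp (measurable_snd.comp measurable_snd)
  · exact measurable_const

private theorem aT_far54 (A : ℕ → ℝ) (n : ℕ) (s : ℝ) (t : ℂ × ℂ × ℂ) {j : ℕ} (h0 : j ≠ n + 1) (h1 : j ≠ n + 2) (h2 : j ≠ n + 3) :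
    aT54 A (n + 2) s t j = cA A j := by
  unfold aT54 cA up3
  rw [if_neg (by omega), if_neg (by omega), if_neg (by omega), mul_zero, add_zero]

private theorem aT_near54 (A : ℕ → ℝ) (n : ℕ) (s : ℝ) (t : ℂ × ℂ × ℂ) {j : ℕ} (hj : j < 3) :
    aT54 A (n + 2) s t (j + (n + 1)) = am3 (fun i => A (n + 1 + i)) s t.1 t.2.1 t.2.2 j := by
  unfold aT54 cA up3 am3
  interval_cases j
  · rw [if_pos (by omega), if_pos rfl, zero_add]
  · rw [if_neg (by omega), if_pos (by omega), if_neg one_ne_zero, if_pos rfl, add_comm 1 (n + 1)]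
  · rw [if_neg (by omega), if_neg (by omega), if_pos (by omega), if_neg (by norm_num), if_neg (by norm_num), add_comm 2 (n + 1)]

private theorem aT_bd54 {A : ℕ → ℝ} {K : ℝ} (hA : ∀ j, |A j| ≤ K) (m : ℕ) {s : ℝ} (hs0 : 0 < s) (hs : s ≤ 1) {t : ℂ × ℂ × ℂ}
    (h0 : ‖t.1‖ ≤ 1) (h1 : ‖t.2.1‖ ≤ 1) (h2 : ‖t.2.2‖ ≤ 1) (j : ℕ) : ‖aT54 A m s t j‖ ≤ K + 1 := by
  unfold aT54 cA up3
  rw [Complex.norm_real, Real.norm_eq_abs]
  have hx : ∀ x : ℝ, |x| ≤ 1 → |A j + s * x| ≤ K + 1 := by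
    intro x hx
    refine (abs_add_le _ _).trans (add_le_add (hA j) ?_)
    rw [abs_mul, abs_of_pos hs0]
    exact mul_le_one₀ hs (abs_nonneg _) hx
  refine hx _ ?_
  split_ifs
  · exact (Complex.abs_re_le_norm _).trans h0
  · exact (Complex.abs_re_le_norm _).trans h1
  · exact (Complex.abs_re_le_norm _).trans h2
  · rw [abs_zero]; exact zero_le_one

private theorem dl_ae54 : ∀ᵐ w ∂dl, ‖w‖ ≤ 1 := by
  filter_upwards [clip_ae] with w hw
  unfold Pool.Agent.Helper46.QP.clip at hw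
  split_ifs at hw with h
  · exact h
  · rw [← hw, norm_zero]; exact zero_le_one

private theorem bd_ae54 {A : ℕ → ℝ} {K : ℝ} (hA : ∀ j, |A j| ≤ K) (m : ℕ) {s : ℝ} (hs0 : 0 < s) (hs : s ≤ 1) :
    ∀ᵐ p ∂((dl.prod (dl.prod dl)).prod (volume : Measure TT)), ∀ j, ‖aT54 A m s p.1 j‖ ≤ K + 1 := by
  have e0 : ∀ᵐ t ∂(dl.prod (dl.prod dl)), ‖t.1‖ ≤ 1 := Measure.quasiMeasurePreserving_fst.ae dl_ae54
  have e1' : ∀ᵐ t ∂(dl.prod dl), ‖t.1‖ ≤ 1 := Measure.quasiMeasurePreserving_fst.ae dl_ae54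
  have e2' : ∀ᵐ t ∂(dl.prod dl), ‖t.2‖ ≤ 1 := Measure.quasiMeasurePreserving_snd.ae dl_ae54
  have e1 : ∀ᵐ t ∂(dl.prod (dl.prod dl)), ‖t.2.1‖ ≤ 1 := Measure.quasiMeasurePreserving_snd.ae e1'
  have e2 : ∀ᵐ t ∂(dl.prod (dl.prod dl)), ‖t.2.2‖ ≤ 1 := Measure.quasiMeasurePreserving_snd.ae e2'
  have e : ∀ᵐ t ∂(dl.prod (dl.prod dl)), ∀ j, ‖aT54 A m s t j‖ ≤ K + 1 := by
    filter_upwards [e0, e1, e2] with t h0 h1 h2 j
    exact aT_bd54 hA m hs0 hs h0 h1 h2 j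
  exact Measure.quasiMeasurePreserving_fst.ae e

/-- frozen start -/
private theorem froz54 {K C : ℝ}
    (hcore : ∀ (s ρ ε : ℝ) (A : ℕ → ℝ) (z : TT) (p : ℝ × ℝ) (q : TT → ℝ × ℝ),
      0 < s → s ≤ 1 → 0 < ρ → ρ ≤ 1 → 0 < ε → (∀ j, |A j| ≤ K) → Measurable q → 1 ≤ p.1 ^ 2 + p.2 ^ 2 →
      (∀ y, 1 ≤ (q y).1 ^ 2 + (q y).2 ^ 2) → ρ ≤ |sn z.1| → ρ ≤ |cs z.1| →
      ∫⁻ w0, ∫⁻ w1, ∫⁻ w2, {w : ℂ | bad3 A s ρ ε z p q w0 w1 w}.indicator 1 w2 ∂dl ∂dl ∂dl ≤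
        ENNReal.ofReal (C * (s * ρ)⁻¹ ^ 4 * ε ^ ((1 : ℝ) / 8)))
    {A : ℕ → ℝ} (hA : ∀ j, |A j| ≤ K) {s : ℝ} (hs0 : 0 < s) (hs : s ≤ 1) (n : ℕ) (i j : Fin 2) {ρ ε : ℝ} (hρ : 0 < ρ) (hρ1 : ρ ≤ 1)
    (hε : 0 < ε) (z : TT) :
    (dl.prod (dl.prod dl)) {t : ℂ × ℂ × ℂ | Ev54 n i j ρ ε (aT54 A (n + 2) s t) z} ≤
      ENNReal.ofReal (C * (s * ρ)⁻¹ ^ 4 * ε ^ ((1 : ℝ) / 8)) := by
  have hms : MeasurableSet {t : ℂ × ℂ × ℂ | Ev54 n i j ρ ε (aT54 A (n + 2) s t) z} :=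
    ((aT_meas54 A (n + 2) s).prodMk measurable_const) (Ev_meas54 n i j ρ ε)
  have hF : Measurable ({t : ℂ × ℂ × ℂ | Ev54 n i j ρ ε (aT54 A (n + 2) s t) z}.indicator (1 : ℂ × ℂ × ℂ → ℝ≥0∞)) :=
    measurable_one.indicator hms
  have hI : (dl.prod (dl.prod dl)) {t : ℂ × ℂ × ℂ | Ev54 n i j ρ ε (aT54 A (n + 2) s t) z} = ∫⁻ w0, ∫⁻ w1, ∫⁻ w2,
      {t : ℂ × ℂ × ℂ | Ev54 n i j ρ ε (aT54 A (n + 2) s t) z}.indicator (1 : ℂ × ℂ × ℂ → ℝ≥0∞) (w0, w1, w2) ∂dl ∂dl ∂dl := by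
    rw [← lintegral_indicator_one hms, lintegral_prod _ hF.aemeasurable]
    refine lintegral_congr fun w0 => ?_
    exact lintegral_prod _ (hF.comp (measurable_const.prodMk measurable_id)).aemeasurable
  rw [hI]
  obtain ⟨z0, hz0⟩ : ∃ z0, z0 = orb (cA A) z (n + 1) := ⟨_, rfl⟩
  obtain ⟨p, hp⟩ : ∃ p, p = cl2 (Mx (cA A) z (n + 1)) j := ⟨_, rfl⟩
  obtain ⟨q, hq⟩ : ∃ q : TT → ℝ × ℝ, q = fun y => rw2 (Mx (fun k => cA A (k + (n + 4))) y n) i := ⟨_, rfl⟩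
  have hEv : ∀ {w0 w1 w2 : ℂ}, Ev54 n i j ρ ε (aT54 A (n + 2) s (w0, w1, w2)) z →
      ρ ≤ |sn z0.1| ∧ ρ ≤ |cs z0.1| ∧ bad3 (fun i => A (n + 1 + i)) s ρ ε z0 p q w0 w1 w2 := by
    intro w0 w1 w2 he
    obtain ⟨e1, e2, e3, e4, e5, e6⟩ := he
    set a' := aT54 A (n + 2) s (w0, w1, w2) with ha'
    have f0 : ∀ k < n + 1, a' k = cA A k := fun k hk =>
      aT_far54 A n s (w0, w1, w2) (by omega) (by omega) (by omega)
    have o0 : orb a' z (n + 1) = z0 := by rw [hz0]; exact orb_congr54 z f0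
    have m0 : Mx a' z (n + 1) = Mx (cA A) z (n + 1) := Mx_congr54 z f0
    have f1 : ∀ k < 3, (fun k => a' (k + (n + 1))) k = am3 (fun i => A (n + 1 + i)) s w0 w1 w2 k :=
      fun k hk => aT_near54 A n s (w0, w1, w2) hk
    have o1 : ∀ r ≤ 3, orb a' z (n + 1 + r) = orb (am3 (fun i => A (n + 1 + i)) s w0 w1 w2) z0 r := by
      intro r hr
      rw [orb_add, o0]
      exact orb_congr54 z0 fun k hk => f1 k (by omega)
    have m1 : Mx (fun k => a' (k + (n + 1))) z0 3 = Mx (am3 (fun i => A (n + 1 + i)) s w0 w1 w2) z0 3 :=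
      Mx_congr54 z0 f1
    have f2 : ∀ k < n, (fun k => a' (k + (n + 4))) k = (fun k => cA A (k + (n + 4))) k := fun k hk =>
      aT_far54 A n s (w0, w1, w2) (by omega) (by omega) (by omega)
    have m2 : ∀ y, Mx (fun k => a' (k + (n + 4))) y n = Mx (fun k => cA A (k + (n + 4))) y n :=
      fun y => Mx_congr54 y f2
    rw [o0] at e1 e2
    have g1 := o1 1 (by norm_num)
    have g2 := o1 2 (by norm_num)
    have g3 := o1 3 (by norm_num)
    rw [show n + 1 + 1 = n + 2 by omega] at g1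
    rw [show n + 1 + 2 = n + 3 by omega] at g2
    rw [show n + 1 + 3 = n + 4 by omega] at g3
    rw [g1] at e3
    rw [g2] at e4 e5
    rw [o0, m0, m1, m2, g3, ← hp] at e6
    refine ⟨e1, e2, e3, e4, e5, ?_⟩
    rw [hq]
    exact e6
  by_cases hc : ρ ≤ |sn z0.1| ∧ ρ ≤ |cs z0.1|
  · have hqm : Measurable q := by
      rw [hq]
      refine rw2_meas54 (R := fun y => Mx (fun k => cA A (k + (n + 4))) y n) (fun a b => ?_) i
      exact (Mx_meas' n a b).comp (measurable_const.prodMk measurable_id)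
    refine le_trans ?_ (hcore s ρ ε (fun i => A (n + 1 + i)) z0 p q hs0 hs hρ hρ1 hε (fun k => hA _) hqm ?_ ?_
      hc.1 hc.2)
    · refine lintegral_mono fun w0 => lintegral_mono fun w1 => lintegral_mono fun w2 => ?_
      by_cases he : Ev54 n i j ρ ε (aT54 A (n + 2) s (w0, w1, w2)) z
      · rw [indicator_of_mem (show (w0, w1, w2) ∈ {t : ℂ × ℂ × ℂ | Ev54 n i j ρ ε (aT54 A (n + 2) s t) z} from he),
          indicator_of_mem (show w2 ∈ {w : ℂ | bad3 (fun i => A (n + 1 + i)) s ρ ε z0 p q w0 w1 w} from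
            (hEv he).2.2)]
        rfl
      · rw [indicator_of_notMem (show (w0, w1, w2) ∉ {t : ℂ × ℂ × ℂ | Ev54 n i j ρ ε (aT54 A (n + 2) s t) z} from he)]
        exact zero_le
    · rw [hp]
      exact cl_unit54 (det_Mx _ _ _) j
    · intro y
      rw [hq]
      exact rw_unit54 (det_Mx _ _ _) i
  · refine le_trans (le_of_eq ?_) zero_le
    rw [← lintegral_zero (μ := dl)]
    refine lintegral_congr fun w0 => ?_
    rw [← lintegral_zero (μ := dl)]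
    refine lintegral_congr fun w1 => ?_
    rw [← lintegral_zero (μ := dl)]
    refine lintegral_congr fun w2 => ?_
    apply indicator_of_notMem
    intro he
    obtain ⟨h1, h2, -⟩ := hEv he
    exact hc ⟨h1, h2⟩

private theorem cutE54 (A : ℕ → ℝ) (m : ℕ) (s : ℝ) (k : ℕ) {g : UnitAddCircle → ℝ} (hg : Measurable g) {ρ : ℝ}
    (hc : volume {x : UnitAddCircle | |g x| < ρ} ≤ ENNReal.ofReal (2 * ρ)) :
    ((dl.prod (dl.prod dl)).prod (volume : Measure TT)) {p : (ℂ × ℂ × ℂ) × TT | |g (orb (aT54 A m s p.1) p.2 k).1| < ρ} ≤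
      ENNReal.ofReal (2 * ρ) := by
  have hm0 : MeasurableSet {x : UnitAddCircle | |g x| < ρ} := measurableSet_lt hg.norm measurable_const
  have hm1 : Measurable fun p : (ℂ × ℂ × ℂ) × TT => |g (orb (aT54 A m s p.1) p.2 k).1| := by
    have h1 : Measurable fun p : (ℂ × ℂ × ℂ) × TT => ((aT54 A m s p.1, p.2) : (ℕ → ℂ) × TT) :=
      ((aT_meas54 A m s).comp measurable_fst).prodMk measurable_snd
    have h2 := (hg.comp (measurable_fst.comp ((orb_meas k).comp h1))).norm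
    exact h2
  have hm : MeasurableSet {p : (ℂ × ℂ × ℂ) × TT | |g (orb (aT54 A m s p.1) p.2 k).1| < ρ} := measurableSet_lt hm1 measurable_const
  rw [Measure.prod_apply hm]
  have key : ∀ t : ℂ × ℂ × ℂ, (volume : Measure TT) (Prod.mk t ⁻¹' {p : (ℂ × ℂ × ℂ) × TT | |g (orb (aT54 A m s p.1) p.2 k).1| < ρ}) ≤
      ENNReal.ofReal (2 * ρ) := by
    intro t
    have e1 : Prod.mk t ⁻¹' {p : (ℂ × ℂ × ℂ) × TT | |g (orb (aT54 A m s p.1) p.2 k).1| < ρ} =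
        (fun z => orb (aT54 A m s t) z k) ⁻¹' ({x : UnitAddCircle | |g x| < ρ} ×ˢ univ) := by
      ext z
      simp only [mem_preimage, mem_ofPred_eq, mem_prod, mem_univ, and_true]
    rw [e1, (orb_mp (aT54 A m s t) k).measure_preimage (hm0.prod MeasurableSet.univ).nullMeasurableSet,
      Measure.volume_eq_prod, Measure.prod_prod, measure_univ, mul_one]
    exact hc
  calc _ ≤ ∫⁻ _ : ℂ × ℂ × ℂ, ENNReal.ofReal (2 * ρ) ∂(dl.prod (dl.prod dl)) := lintegral_mono key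
    _ = _ := by rw [lintegral_const, measure_univ, mul_one]

private theorem ev_bd54 {K V C : ℝ} (hK0 : 0 ≤ K) (hV : V = 2 * π * (K + 1) + 4)
    (hV4 : 4 ≤ V) (hC0 : 0 < C)
    (hcore : ∀ (s ρ ε : ℝ) (A : ℕ → ℝ) (z : TT) (p : ℝ × ℝ) (q : TT → ℝ × ℝ),
      0 < s → s ≤ 1 → 0 < ρ → ρ ≤ 1 → 0 < ε → (∀ j, |A j| ≤ K) → Measurable q → 1 ≤ p.1 ^ 2 + p.2 ^ 2 →
      (∀ y, 1 ≤ (q y).1 ^ 2 + (q y).2 ^ 2) → ρ ≤ |sn z.1| → ρ ≤ |cs z.1| →
      ∫⁻ w0, ∫⁻ w1, ∫⁻ w2, {w : ℂ | bad3 A s ρ ε z p q w0 w1 w}.indicator 1 w2 ∂dl ∂dl ∂dl ≤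
        ENNReal.ofReal (C * (s * ρ)⁻¹ ^ 4 * ε ^ ((1 : ℝ) / 8)))
    {A : ℕ → ℝ} (hA : ∀ j, |A j| ≤ K) {s : ℝ} (hs0 : 0 < s) (hs : s ≤ 1) (n : ℕ)
    {ρ : ℝ} (hρ0 : 0 < ρ) (hρ1 : ρ ≤ 1) (t : ℝ) :
    ((dl.prod (dl.prod dl)).prod (volume : Measure TT)) {p : (ℂ × ℂ × ℂ) × TT | t < ls54 (aT54 A (n + 2) s p.1) p.2 (n + 2)} ≤
      ENNReal.ofReal (10 * ρ + (4 * C + 1) * (s * ρ)⁻¹ ^ 4 * (16 * V ^ 3) ^ ((1 : ℝ) / 8) * Real.exp (-(1 / 8 * t))) := by
  have hsρ : 0 < s * ρ := mul_pos hs0 hρ0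
  have hpm : Measurable fun p : (ℂ × ℂ × ℂ) × TT => ((aT54 A (n + 2) s p.1, p.2) : (ℕ → ℂ) × TT) :=
    ((aT_meas54 A (n + 2) s).comp measurable_fst).prodMk measurable_snd
  obtain ⟨ε, hε⟩ : ∃ ε : ℝ, ε = 16 * V ^ 3 * Real.exp (-t) := ⟨_, rfl⟩
  have hε0 : 0 < ε := by rw [hε]; positivity
  have hEm : ∀ i j : Fin 2, MeasurableSet {p : (ℂ × ℂ × ℂ) × TT | Ev54 n i j ρ ε (aT54 A (n + 2) s p.1) p.2} := fun i j =>
    hpm (Ev_meas54 n i j ρ ε)
  have hE : ∀ i j : Fin 2, ((dl.prod (dl.prod dl)).prod (volume : Measure TT))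
      {p : (ℂ × ℂ × ℂ) × TT | Ev54 n i j ρ ε (aT54 A (n + 2) s p.1) p.2} ≤
      ENNReal.ofReal (C * (s * ρ)⁻¹ ^ 4 * ε ^ ((1 : ℝ) / 8)) := by
    intro i j
    rw [Measure.prod_apply_symm (hEm i j)]
    have h1 : ∀ z : TT, (dl.prod (dl.prod dl)) ((fun ω => (ω, z)) ⁻¹' {p : (ℂ × ℂ × ℂ) × TT | Ev54 n i j ρ ε (aT54 A (n + 2) s p.1) p.2}) ≤
        ENNReal.ofReal (C * (s * ρ)⁻¹ ^ 4 * ε ^ ((1 : ℝ) / 8)) := by
      intro z
      exact froz54 hcore hA hs0 hs n i j hρ0 hρ1 hε0 z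
    calc _ ≤ ∫⁻ _ : TT, ENNReal.ofReal (C * (s * ρ)⁻¹ ^ 4 * ε ^ ((1 : ℝ) / 8)) := lintegral_mono h1
      _ = _ := by rw [lintegral_const, measure_univ, mul_one]
  obtain ⟨cs1, cs2⟩ := cut hρ0.le
  have c1 := cutE54 A (n + 2) s (n + 1) Pool.Agent.Helper82.QR.sn_meas cs1
  have c2 := cutE54 A (n + 2) s (n + 1) Pool.Agent.Helper82.QR.cs_meas cs2
  have c3 := cutE54 A (n + 2) s (n + 2) Pool.Agent.Helper82.QR.sn_meas cs1
  have c4 := cutE54 A (n + 2) s (n + 3) Pool.Agent.Helper82.QR.sn_meas cs1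
  have c5 := cutE54 A (n + 2) s (n + 3) Pool.Agent.Helper82.QR.cs_meas cs2
  have hsub : {p : (ℂ × ℂ × ℂ) × TT | t < ls54 (aT54 A (n + 2) s p.1) p.2 (n + 2)} ≤ᵐ[(dl.prod (dl.prod dl)).prod (volume : Measure TT)]
      ({p : (ℂ × ℂ × ℂ) × TT | |sn (orb (aT54 A (n + 2) s p.1) p.2 (n + 1)).1| < ρ} ∪
      ({p : (ℂ × ℂ × ℂ) × TT | |cs (orb (aT54 A (n + 2) s p.1) p.2 (n + 1)).1| < ρ} ∪
      ({p : (ℂ × ℂ × ℂ) × TT | |sn (orb (aT54 A (n + 2) s p.1) p.2 (n + 2)).1| < ρ} ∪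
      ({p : (ℂ × ℂ × ℂ) × TT | |sn (orb (aT54 A (n + 2) s p.1) p.2 (n + 3)).1| < ρ} ∪
      ({p : (ℂ × ℂ × ℂ) × TT | |cs (orb (aT54 A (n + 2) s p.1) p.2 (n + 3)).1| < ρ} ∪
      ({p : (ℂ × ℂ × ℂ) × TT | Ev54 n 0 0 ρ ε (aT54 A (n + 2) s p.1) p.2} ∪ ({p : (ℂ × ℂ × ℂ) × TT | Ev54 n 0 1 ρ ε (aT54 A (n + 2) s p.1) p.2} ∪
      ({p : (ℂ × ℂ × ℂ) × TT | Ev54 n 1 0 ρ ε (aT54 A (n + 2) s p.1) p.2} ∪ {p : (ℂ × ℂ × ℂ) × TT | Ev54 n 1 1 ρ ε (aT54 A (n + 2) s p.1) p.2}))))))) : Set ((ℂ × ℂ × ℂ) × TT)) := by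
    filter_upwards [bd_ae54 hA (n + 2) hs0 hs] with p hbd hp
    have hp1 : t < ls54 (aT54 A (n + 2) s p.1) p.2 (n + 2) := hp
    show p ∈ (_ : Set ((ℂ × ℂ × ℂ) × TT))
    simp only [mem_union, mem_ofPred_eq]
    by_contra hcon
    simp only [not_or, not_lt] at hcon
    obtain ⟨d1, d2, d3, d4, d5, f1, f2, f3, f4⟩ := hcon
    obtain ⟨i, j, hij⟩ := ls_ev54 (by linarith : 0 ≤ K + 1) hbd p.2 n hp1
    rw [← hV, ← hε] at hij
    have hev : Ev54 n i j ρ ε (aT54 A (n + 2) s p.1) p.2 := ⟨d1, d2, d3, d4, d5, hij⟩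
    have hall : ∀ i j : Fin 2, ¬ Ev54 n i j ρ ε (aT54 A (n + 2) s p.1) p.2 := by
      intro i j
      fin_cases i <;> fin_cases j
      · exact f1
      · exact f2
      · exact f3
      · exact f4
    exact hall i j hev
  refine (measure_mono_ae hsub).trans ?_
  have hX0 : 0 ≤ C * (s * ρ)⁻¹ ^ 4 * ε ^ ((1 : ℝ) / 8) := by positivity
  have hρ2 : 0 ≤ 2 * ρ := by positivity
  have e8 : ε ^ ((1 : ℝ) / 8) = (16 * V ^ 3) ^ ((1 : ℝ) / 8) * Real.exp (-(1 / 8 * t)) := by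
    rw [hε, Real.mul_rpow (by positivity) (Real.exp_pos _).le, ← Real.exp_mul]
    congr 2
    ring
  refine (measure_union_le _ _).trans ((add_le_add c1 ((measure_union_le _ _).trans (add_le_add c2
    ((measure_union_le _ _).trans (add_le_add c3 ((measure_union_le _ _).trans (add_le_add c4
    ((measure_union_le _ _).trans (add_le_add c5 ((measure_union_le _ _).trans (add_le_add (hE 0 0)
    ((measure_union_le _ _).trans (add_le_add (hE 0 1) ((measure_union_le _ _).trans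
    (add_le_add (hE 1 0) (hE 1 1)))))))))))))))).trans ?_)
  rw [← ENNReal.ofReal_add hX0 hX0, ← ENNReal.ofReal_add hX0 (by positivity), ← ENNReal.ofReal_add hX0 (by positivity),
    ← ENNReal.ofReal_add hρ2 (by positivity), ← ENNReal.ofReal_add hρ2 (by positivity),
    ← ENNReal.ofReal_add hρ2 (by positivity), ← ENNReal.ofReal_add hρ2 (by positivity),
    ← ENNReal.ofReal_add hρ2 (by positivity)]
  apply ENNReal.ofReal_le_ofReal
  have hq : 0 ≤ (s * ρ)⁻¹ ^ 4 * ((16 * V ^ 3) ^ ((1 : ℝ) / 8) * Real.exp (-(1 / 8 * t))) := by positivity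
  rw [e8]
  nlinarith [hq]

private lemma nn_pos54 {A : ℕ → ℂ} {z : TT} {n : ℕ} : 0 < nn (Mx A z n) := by
  have := Pool.Agent.Helper95.PV.nn_ge_two (det_Mx A z n)
  linarith

private theorem ls_nonneg54 (a : ℕ → ℂ) (z : TT) (m : ℕ) : 0 ≤ ls54 a z m := by
  unfold ls54
  have h1 : Mx a z (2 * m) = Mx (fun j => a (j + m)) (orb a z m) m * Mx a z m := by
    rw [two_mul, Mx_add]
  have h2 : nn (Mx a z (2 * m)) ≤ nn (Mx (fun j => a (j + m)) (orb a z m) m) * nn (Mx a z m) := by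
    rw [h1]
    exact Pool.Agent.Helper18.UC.nn_mul _ _
  have h3 := Real.log_le_log nn_pos54 h2
  rw [Real.log_mul nn_pos54.ne' nn_pos54.ne'] at h3
  linarith

private theorem los_eq54 (A : ℕ → ℝ) (z : TT) (m : ℕ) : los A z m = ls54 (cA A) z m := rfl

theorem junc : ∃ C : ℝ, 1 ≤ C ∧ ∀ (K s : ℝ) (m : ℕ) (A : ℕ → ℝ), 1 ≤ K → 0 < s → s ≤ 1 → 2 ≤ m → (∀ j, |A j| ≤ K) →
    ∫⁻ t : ℂ × ℂ × ℂ, ∫⁻ z : TT, ENNReal.ofReal (Real.exp (los (up3 A m s t.1 t.2.1 t.2.2) z m / 80))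
      ∂volume ∂(dl.prod (dl.prod dl)) ≤ ENNReal.ofReal (C * K ^ 6 * s⁻¹ ^ 4) := by
  obtain ⟨C, hC0, hcoreP⟩ := coreP
  refine ⟨11 + (4 * C + 1) * 34, by nlinarith, ?_⟩
  intro K s m A hK hs0 hs hm hA
  obtain ⟨n, rfl⟩ : ∃ n, m = n + 2 := ⟨m - 2, by omega⟩
  have hK0 : 0 ≤ K := by linarith
  have hK4 : 1 ≤ K ^ 4 := one_le_pow₀ hK
  have hCK : 0 < C * K ^ 4 := by positivity
  have hcore : ∀ (s ρ ε : ℝ) (A : ℕ → ℝ) (z : TT) (p : ℝ × ℝ) (q : TT → ℝ × ℝ),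
      0 < s → s ≤ 1 → 0 < ρ → ρ ≤ 1 → 0 < ε → (∀ j, |A j| ≤ K) → Measurable q → 1 ≤ p.1 ^ 2 + p.2 ^ 2 →
      (∀ y, 1 ≤ (q y).1 ^ 2 + (q y).2 ^ 2) → ρ ≤ |sn z.1| → ρ ≤ |cs z.1| →
      ∫⁻ w0, ∫⁻ w1, ∫⁻ w2, {w : ℂ | bad3 A s ρ ε z p q w0 w1 w}.indicator 1 w2 ∂dl ∂dl ∂dl ≤
        ENNReal.ofReal (C * K ^ 4 * (s * ρ)⁻¹ ^ 4 * ε ^ ((1 : ℝ) / 8)) :=
    fun s ρ ε A z p q h1 h2 h3 h4 h5 h6 h7 h8 h9 h10 h11 => hcoreP K s ρ ε A z p q hK h1 h2 h3 h4 h5 h6 h7 h8 h9 h10 h11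
  obtain ⟨V, hV⟩ : ∃ V : ℝ, V = 2 * π * (K + 1) + 4 := ⟨_, rfl⟩
  have hV4 : 4 ≤ V := by
    rw [hV]
    have : 0 ≤ 2 * π * (K + 1) := by positivity
    linarith
  have hVK : V ≤ 17 * K := by
    rw [hV]
    have h1 := Real.pi_lt_d2
    have h2 : 2 * π * (K + 1) ≤ 2 * 3.15 * (K + 1) := by
      have : 2 * π ≤ 2 * 3.15 := by linarith
      exact mul_le_mul_of_nonneg_right this (by linarith)
    linarith
  have hW : (16 * V ^ 3) ^ ((1 : ℝ) / 8) ≤ 34 * K := by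
    have h1 : 16 * V ^ 3 ≤ (2 * V) ^ 4 := by
      have : 0 ≤ V ^ 3 * (V - 1) := mul_nonneg (by positivity) (by linarith)
      nlinarith
    have h2 : (16 * V ^ 3) ^ ((1 : ℝ) / 8) ≤ ((2 * V) ^ 4) ^ ((1 : ℝ) / 8) :=
      Real.rpow_le_rpow (by positivity) h1 (by norm_num)
    have h3 : ((2 * V) ^ 4) ^ ((1 : ℝ) / 8) ≤ ((2 * V) ^ 8) ^ ((1 : ℝ) / 8) :=
      Real.rpow_le_rpow (by positivity) (pow_le_pow_right₀ (by linarith) (by norm_num)) (by norm_num)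
    have h4 : ((2 * V) ^ 8) ^ ((1 : ℝ) / 8) = 2 * V := by
      rw [← Real.rpow_natCast, ← Real.rpow_mul (by linarith)]
      norm_num
    linarith
  have hW0 : 0 ≤ (16 * V ^ 3) ^ ((1 : ℝ) / 8) := by positivity
  have hsi : 1 ≤ s⁻¹ := (one_le_inv₀ hs0).2 hs
  have hs4 : 1 ≤ s⁻¹ ^ 4 := one_le_pow₀ hsi
  obtain ⟨B, hB⟩ : ∃ B : ℝ, B = (10 + (4 * (C * K ^ 4) + 1) * (16 * V ^ 3) ^ ((1 : ℝ) / 8)) * s⁻¹ ^ 4 := ⟨_, rfl⟩
  have hB0 : 0 ≤ B := by rw [hB]; positivity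
  have hmeas : Measurable fun p : (ℂ × ℂ × ℂ) × TT => ls54 (aT54 A (n + 2) s p.1) p.2 (n + 2) := by
    have hpm : Measurable fun p : (ℂ × ℂ × ℂ) × TT => ((aT54 A (n + 2) s p.1, p.2) : (ℕ → ℂ) × TT) :=
      ((aT_meas54 A (n + 2) s).comp measurable_fst).prodMk measurable_snd
    have h := (ls_meas54 (n + 2)).comp hpm
    simp only [Function.comp_def] at h
    exact h
  have key := exp_mom54 (P := (dl.prod (dl.prod dl)).prod (volume : Measure TT)) hmeas (fun p => ls_nonneg54 _ _ _) hB0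
    (fun t ht => by
      obtain ⟨ρ, hρ⟩ : ∃ ρ : ℝ, ρ = Real.exp (-(t / 40)) := ⟨_, rfl⟩
      have hρ0 : 0 < ρ := by rw [hρ]; exact Real.exp_pos _
      have hρ1 : ρ ≤ 1 := by
        rw [hρ]
        exact Real.exp_le_one_iff.2 (by linarith)
      have h1 := ev_bd54 hK0 hV hV4 hCK hcore hA hs0 hs n hρ0 hρ1 t
      refine h1.trans (ENNReal.ofReal_le_ofReal ?_)
      have e2 : (s * ρ)⁻¹ ^ 4 * Real.exp (-(1 / 8 * t)) = s⁻¹ ^ 4 * ρ := by
        rw [mul_inv, mul_pow, hρ, ← Real.exp_neg, ← Real.exp_nat_mul, mul_assoc, ← Real.exp_add]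
        congr 2
        push_cast
        ring
      have e3 : (4 * (C * K ^ 4) + 1) * (s * ρ)⁻¹ ^ 4 * (16 * V ^ 3) ^ ((1 : ℝ) / 8) * Real.exp (-(1 / 8 * t)) =
          (4 * (C * K ^ 4) + 1) * (16 * V ^ 3) ^ ((1 : ℝ) / 8) * (s⁻¹ ^ 4 * ρ) := by
        rw [← e2]
        ring
      rw [e3, ← hρ, hB]
      have h5 : ρ ≤ s⁻¹ ^ 4 * ρ := le_mul_of_one_le_left hρ0.le hs4
      have h6 : (10 + (4 * (C * K ^ 4) + 1) * (16 * V ^ 3) ^ ((1 : ℝ) / 8)) * s⁻¹ ^ 4 * ρ =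
          10 * (s⁻¹ ^ 4 * ρ) + (4 * (C * K ^ 4) + 1) * (16 * V ^ 3) ^ ((1 : ℝ) / 8) * (s⁻¹ ^ 4 * ρ) := by ring
      rw [h6]
      linarith)
  have hE := ENNReal.measurable_ofReal.comp (Real.measurable_exp.comp (hmeas.div_const 80))
  simp only [Function.comp_def] at hE
  rw [lintegral_prod _ hE.aemeasurable] at key
  refine le_trans (le_of_eq rfl) (key.trans ?_)
  apply ENNReal.ofReal_le_ofReal
  have h1 : 10 + (4 * (C * K ^ 4) + 1) * (16 * V ^ 3) ^ ((1 : ℝ) / 8) ≤ (10 + (4 * C + 1) * 34) * K ^ 6 := by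
    have h2 : 4 * (C * K ^ 4) + 1 ≤ (4 * C + 1) * K ^ 4 := by nlinarith
    have h3 : (4 * (C * K ^ 4) + 1) * (16 * V ^ 3) ^ ((1 : ℝ) / 8) ≤ ((4 * C + 1) * K ^ 4) * (34 * K) :=
      mul_le_mul h2 hW hW0 (by positivity)
    have h4 : K ^ 5 ≤ K ^ 6 := pow_le_pow_right₀ hK (by norm_num)
    have h5 : 1 ≤ K ^ 6 := one_le_pow₀ hK
    have h6 : (4 * C + 1) * 34 * K ^ 5 ≤ (4 * C + 1) * 34 * K ^ 6 := mul_le_mul_of_nonneg_left h4 (by positivity)
    have h7 : ((4 * C + 1) * K ^ 4) * (34 * K) = (4 * C + 1) * 34 * K ^ 5 := by ring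
    linarith
  have h8 : B ≤ (10 + (4 * C + 1) * 34) * K ^ 6 * s⁻¹ ^ 4 := by
    rw [hB]
    exact mul_le_mul_of_nonneg_right h1 (by positivity)
  have h9 : 1 ≤ K ^ 6 * s⁻¹ ^ 4 := one_le_mul_of_one_le_of_one_le (one_le_pow₀ hK) hs4
  have h10 : (11 + (4 * C + 1) * 34) * K ^ 6 * s⁻¹ ^ 4 = (10 + (4 * C + 1) * 34) * K ^ 6 * s⁻¹ ^ 4 + K ^ 6 * s⁻¹ ^ 4 := by ring
  rw [h10]
  linarith

end Pool.Agent.Helper82.AN
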