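import Mathlib

/-! Block AN-PEEL: abstract, independent of the rest. Exponential moments of a product without independence.

For `s : Finset (Fin M)` and a cut `h'` with `h' + s.card * δ ≤ h + M * δ`: `∫⁻ x, (∏ k ∈ s, f k x) * {x | H x ≤ h'}.indicator 1 x ∂μ ≤ (C * R) ^ s.card * μ univ`.
Induction over `s`: for `insert k s` apply `h1` to `G = f k * ∏ .. * indicator`; in `G (S k x t)` the factors `f j`, `j ≠ k`, do not change (`h2`), the indicator is at most `{H ≤ h' + δ}.indicator 1 x` (`h3`; so `H x ≠ ∞`), and the integral over `t` of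
`f k (S k x t)` is at most `R` (`h4`). -/

set_option autoImplicit false
open MeasureTheory Real Set
open scoped ENNReal

namespace Pool.Agent.Helper82.AN

private theorem peel_aux63 {X T : Type*} [MeasurableSpace X] [MeasurableSpace T] {μ : Measure X} {τ : Measure T}
    {M : ℕ} {f : Fin M → X → ℝ≥0∞} (hf : ∀ k, Measurable (f k)) {H : X → ℝ≥0∞}
    (hH : Measurable H) {S : Fin M → X → T → X} (hS : ∀ k, Measurable fun p : X × T => S k p.1 p.2) {C R δ h : ℝ≥0∞}
    (hδ : δ ≠ ∞) (hh : h ≠ ∞)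
    (h1 : ∀ (k : Fin M) (G : X → ℝ≥0∞), Measurable G → ∫⁻ x, G x ∂μ ≤ C * ∫⁻ x, ∫⁻ t, G (S k x t) ∂τ ∂μ)
    (h2 : ∀ k j, j ≠ k → ∀ x t, H x ≠ ∞ → f j (S k x t) = f j x)
    (h3 : ∀ k x, ∀ᵐ t ∂τ, H x ≤ H (S k x t) + δ)
    (h4 : ∀ k x, H x ≤ h + M * δ → ∫⁻ t, f k (S k x t) ∂τ ≤ R) (s : Finset (Fin M)) :
    ∀ h' : ℝ≥0∞, h' + s.card * δ ≤ h + M * δ →
      ∫⁻ x, (∏ k ∈ s, f k x) * {x | H x ≤ h'}.indicator 1 x ∂μ ≤ (C * R) ^ s.card * μ univ := by
  classical
  have hfin : h + M * δ ≠ ∞ := ENNReal.add_ne_top.2 ⟨hh, ENNReal.mul_ne_top (ENNReal.natCast_ne_top M) hδ⟩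
  have hmeas : ∀ c : ℝ≥0∞, Measurable (({x | H x ≤ c} : Set X).indicator (1 : X → ℝ≥0∞)) := fun c =>
    measurable_one.indicator (hH measurableSet_Iic)
  induction s using Finset.induction_on with
  | empty =>
    intro h' _
    simp only [Finset.prod_empty, one_mul, Finset.card_empty, pow_zero]
    calc ∫⁻ x, ({x | H x ≤ h'} : Set X).indicator 1 x ∂μ ≤ ∫⁻ _, 1 ∂μ := by
          refine lintegral_mono fun x => ?_
          exact Set.indicator_le_self' (fun _ _ => zero_le) x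
      _ = μ univ := by simp
  | insert k s hk ih =>
    intro h' hh'
    rw [Finset.card_insert_of_notMem hk] at hh' ⊢
    have hcut : h' + δ + s.card * δ ≤ h + M * δ := by
      refine le_trans (le_of_eq ?_) hh'
      push_cast
      ring
    have hcut' : h' + δ ≤ h + M * δ := le_trans le_self_add hcut
    have hP : Measurable fun x => ∏ j ∈ s, f j x := Finset.measurable_prod _ fun j _ => hf j
    have hG : Measurable fun x => (∏ j ∈ insert k s, f j x) * ({x | H x ≤ h'} : Set X).indicator 1 x :=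
      (Finset.measurable_prod _ fun j _ => hf j).mul (hmeas h')
    have key : ∀ x, ∫⁻ t, (∏ j ∈ insert k s, f j (S k x t)) * ({x | H x ≤ h'} : Set X).indicator 1 (S k x t) ∂τ
        ≤ R * ((∏ j ∈ s, f j x) * ({x | H x ≤ h' + δ} : Set X).indicator 1 x) := by
      intro x
      by_cases hx : H x ≤ h' + δ
      · have hxfin : H x ≠ ∞ := ne_top_of_le_ne_top hfin (hx.trans hcut')
        have hm : Measurable fun t => f k (S k x t) := (hf k).comp ((hS k).comp measurable_prodMk_left)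
        calc ∫⁻ t, (∏ j ∈ insert k s, f j (S k x t)) * ({x | H x ≤ h'} : Set X).indicator 1 (S k x t) ∂τ
            ≤ ∫⁻ t, f k (S k x t) * ∏ j ∈ s, f j x ∂τ := by
              refine lintegral_mono fun t => ?_
              dsimp only
              rw [Finset.prod_insert hk]
              have e : ∏ j ∈ s, f j (S k x t) = ∏ j ∈ s, f j x :=
                Finset.prod_congr rfl fun j hj => h2 k j (fun h => hk (h ▸ hj)) x t hxfin
              rw [e]
              refine (mul_le_mul_right (Set.indicator_le_self' (fun _ _ => zero_le) (S k x t)) _).trans ?_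
              simp
          _ = (∫⁻ t, f k (S k x t) ∂τ) * ∏ j ∈ s, f j x := lintegral_mul_const _ hm
          _ ≤ R * ∏ j ∈ s, f j x := mul_le_mul_left (h4 k x (hx.trans hcut')) _
          _ = R * ((∏ j ∈ s, f j x) * ({x | H x ≤ h' + δ} : Set X).indicator 1 x) := by
              rw [Set.indicator_of_mem (show x ∈ {x | H x ≤ h' + δ} from hx)]
              simp
      · have hz : ∫⁻ t, (∏ j ∈ insert k s, f j (S k x t)) * ({x | H x ≤ h'} : Set X).indicator 1 (S k x t) ∂τ = 0 := by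
          rw [← lintegral_zero (μ := τ)]
          refine lintegral_congr_ae ?_
          filter_upwards [h3 k x] with t ht
          have : S k x t ∉ ({x | H x ≤ h'} : Set X) := fun h =>
            hx (ht.trans (add_le_add_left (show H (S k x t) ≤ h' from h) δ))
          rw [Set.indicator_of_notMem this, mul_zero]
        rw [hz]
        exact zero_le
    calc ∫⁻ x, (∏ j ∈ insert k s, f j x) * ({x | H x ≤ h'} : Set X).indicator 1 x ∂μ
        ≤ C * ∫⁻ x, ∫⁻ t, (∏ j ∈ insert k s, f j (S k x t)) * ({x | H x ≤ h'} : Set X).indicator 1 (S k x t) ∂τ ∂μ :=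
          h1 k _ hG
      _ ≤ C * ∫⁻ x, R * ((∏ j ∈ s, f j x) * ({x | H x ≤ h' + δ} : Set X).indicator 1 x) ∂μ :=
          mul_le_mul_right (lintegral_mono key) _
      _ = C * (R * ∫⁻ x, (∏ j ∈ s, f j x) * ({x | H x ≤ h' + δ} : Set X).indicator 1 x ∂μ) := by
          have hQ : Measurable fun x => (∏ j ∈ s, f j x) * ({x | H x ≤ h' + δ} : Set X).indicator 1 x :=
            hP.mul (hmeas _)
          rw [lintegral_const_mul _ hQ]
      _ ≤ C * (R * ((C * R) ^ s.card * μ univ)) := mul_le_mul_right (mul_le_mul_right (ih _ hcut) _) _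
      _ = (C * R) ^ (s.card + 1) * μ univ := by ring

theorem peel {X T : Type*} [MeasurableSpace X] [MeasurableSpace T] {μ : Measure X} {τ : Measure T}
    [IsProbabilityMeasure τ] {M : ℕ} {f : Fin M → X → ℝ≥0∞} (hf : ∀ k, Measurable (f k)) {H : X → ℝ≥0∞}
    (hH : Measurable H) {S : Fin M → X → T → X} (hS : ∀ k, Measurable fun p : X × T => S k p.1 p.2) {C R δ h : ℝ≥0∞}
    (hδ : δ ≠ ∞) (hh : h ≠ ∞)
    (h1 : ∀ (k : Fin M) (G : X → ℝ≥0∞), Measurable G → ∫⁻ x, G x ∂μ ≤ C * ∫⁻ x, ∫⁻ t, G (S k x t) ∂τ ∂μ)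
    (h2 : ∀ k j, j ≠ k → ∀ x t, H x ≠ ∞ → f j (S k x t) = f j x)
    (h3 : ∀ k x, ∀ᵐ t ∂τ, H x ≤ H (S k x t) + δ)
    (h4 : ∀ k x, H x ≤ h + M * δ → ∫⁻ t, f k (S k x t) ∂τ ≤ R) :
    ∫⁻ x, (∏ k, f k x) * {x | H x ≤ h}.indicator 1 x ∂μ ≤ (C * R) ^ M * μ univ := by
  have := peel_aux63 hf hH hS hδ hh h1 h2 h3 h4 Finset.univ h (by simp)
  simpa using this

end Pool.Agent.Helper82.AN
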