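import Pool.Agent.Helper82.AN.Eta
import Pool.Agent.Helper82.AN.Interp
import Pool.Agent.Helper82.AN.Junc
import Pool.Agent.Helper82.AN.Peel
import Pool.Agent.Helper82.AN.PtsP

/-! Block AN-CONC: exponential moment of the mean loss.

`los_bd`: `0 ≤ los ≤ 2 (log 2 + m log (2π K + 4))` (`nn_mul`, `Mx_add`; `log_nn_le`); `los_meas`.
`conc_e`. Jensen over the base as in `conc_exp` (`Helper46/QA/Conc.lean`): `∫ θ, φ = ∫ θ, M⁻¹ ∑_k φ (θ + β k)` (`φ θ = ∫ z, los`), `exp` of it `≤ ∫⁻ θ, ∏_k exp (φ (θ + β k) / 80) ≤ ∫⁻ θ, ∏_k f_k w θ` with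
`f_k w θ = ∫⁻ z, exp (los (sq α (amp γ f q w) (θ + β k)) z m / 80)` (Jensen over `z`). Tonelli; for fixed `θ` apply `peel` with `μ = lawL d`, `τ = dl.prod (dl.prod dl)`, `H = Hw γ`, `δ = ofReal (1 / M)`, `h = ofReal h`: the `2 m M` points `x (k, j) = θ + β k + j α` are
separated (`SepR_add`); `interp` for `i₀ = (k, m - 1)`, `(k, m)`, `(k, m + 1)` gives coefficients `c⁰, c¹, c²`; `s' = exp (-(p N)^γ) / (12 M)`, `vʲ i = (sign q) (min |q| 1 / |q|) s' cʲ i / wt γ i`, so `∑ |vʲ i| ≤ 4 s' exp ((p N)^γ) ≤ 1/3` (`law_avg`), `∑ wt |vʲ| ≤ 4 s'`,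
`Hw` changes by at most `12 s' ≤ 1 / M` (`Hw_add`, `|re| ≤ 1` a.e.), and (`eta_add`) `q η` changes at `x (k, m - 1 + j)` by `s re t_j`, `s = min |q| 1 * s'`, and at no other of the points: this is `up3`; the other `f_j` (`los` depends on `2 m` amplitudes) do not
change. `junc` with `K = K₀ + |q| (h + 1) + 1`. -/

set_option autoImplicit false
open MeasureTheory Real Set
open scoped ENNReal

namespace Pool.Agent.Helper82.AN

open Pool.Agent.Helper18.UC (nn)
open Pool.Agent.Helper46.QP (TT Td orb Mx va stp dl)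

variable {d : ℕ}

private theorem congr32 {A A' : ℕ → ℂ} (z : TT) (n : ℕ) (h : ∀ j < n, A j = A' j) :
    orb A z n = orb A' z n ∧ Mx A z n = Mx A' z n := by
  induction n with
  | zero => exact ⟨rfl, rfl⟩
  | succ n ih =>
    obtain ⟨h1, h2⟩ := ih fun j hj => h j (Nat.lt_succ_of_lt hj)
    have h3 := h n (Nat.lt_succ_self n)
    rw [Pool.Agent.Helper46.QP.orb_succ, Pool.Agent.Helper46.QP.orb_succ, Pool.Agent.Helper46.QP.Mx_succ,
      Pool.Agent.Helper46.QP.Mx_succ, h1, h2, h3]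
    exact ⟨rfl, rfl⟩

theorem los_bd {A : ℕ → ℝ} {K : ℝ} (hK0 : 0 ≤ K) (hK : ∀ j, |A j| ≤ K) (z : TT) (m : ℕ) :
    0 ≤ los A z m ∧ los A z m ≤ 2 * (Real.log 2 + m * Real.log (2 * π * K + 4)) := by
  have hn : ∀ j, ‖cA A j‖ ≤ K := fun j => by
    unfold cA
    rw [Complex.norm_real]
    exact hK j
  have hn' : ∀ j, ‖cA (shA A m) j‖ ≤ K := fun j => by
    unfold cA shA
    rw [Complex.norm_real]
    exact hK (j + m)
  have h1 := Pool.Agent.Helper46.QP.log_nn_le hK0 hn z m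
  have h2 := Pool.Agent.Helper46.QP.log_nn_le hK0 hn' (orb (cA A) z m) m
  have h3 := Pool.Agent.Helper46.QP.log_nn_nonneg (cA A) z (2 * m)
  unfold los
  refine ⟨?_, by linarith⟩
  have e1 : Mx (cA A) z (2 * m) = Mx (cA (shA A m)) (orb (cA A) z m) m * Mx (cA A) z m := by
    rw [two_mul, Pool.Agent.Helper46.QP.Mx_add]
    rfl
  have pos : ∀ (a : ℕ → ℂ) (y : TT) (n : ℕ), 0 < nn (Mx a y n) := fun a y n => by
    linarith [Pool.Agent.Helper95.PV.nn_ge_two (Pool.Agent.Helper46.QP.det_Mx a y n)]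
  have h4 : Real.log (nn (Mx (cA A) z (2 * m))) ≤
      Real.log (nn (Mx (cA (shA A m)) (orb (cA A) z m) m)) + Real.log (nn (Mx (cA A) z m)) := by
    rw [← Real.log_mul (pos _ _ _).ne' (pos _ _ _).ne']
    refine Real.log_le_log (pos _ _ _) ?_
    rw [e1]
    exact Pool.Agent.Helper18.UC.nn_mul _ _
  linarith

theorem los_congr {A A' : ℕ → ℝ} {m : ℕ} (h : ∀ j < 2 * m, A j = A' j) (z : TT) : los A z m = los A' z m := by
  have h1 : ∀ j < 2 * m, cA A j = cA A' j := fun j hj => by unfold cA; rw [h j hj]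
  obtain ⟨e1, e2⟩ := congr32 z m fun j (hj : j < m) => h1 j (by omega)
  obtain ⟨-, e3⟩ := congr32 z (2 * m) h1
  obtain ⟨-, e4⟩ := congr32 (A := cA (shA A m)) (A' := cA (shA A' m)) (orb (cA A') z m) m fun j (hj : j < m) => by
    unfold cA shA
    rw [h (j + m) (by omega)]
  unfold los
  rw [e2, e3, e1, e4]

theorem los_meas (m : ℕ) : Measurable fun p : (ℕ → ℝ) × TT => los p.1 p.2 m := by
  have hc : Measurable fun A : ℕ → ℝ => cA A := by
    refine measurable_pi_lambda _ fun j => ?_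
    unfold cA
    exact Complex.measurable_ofReal.comp (measurable_pi_apply j)
  have hs : Measurable fun A : ℕ → ℝ => shA A m := by
    refine measurable_pi_lambda _ fun j => ?_
    unfold shA
    exact measurable_pi_apply (j + m)
  have h1 : Measurable fun p : (ℕ → ℝ) × TT => ((cA p.1, p.2) : (ℕ → ℂ) × TT) :=
    (hc.comp measurable_fst).prodMk measurable_snd
  have h2 : Measurable fun p : (ℕ → ℝ) × TT => ((cA (shA p.1 m), orb (cA p.1) p.2 m) : (ℕ → ℂ) × TT) :=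
    ((hc.comp hs).comp measurable_fst).prodMk ((Pool.Agent.Helper46.QP.orb_meas m).comp h1)
  have h3 := (Pool.Agent.Helper46.QP.Mx_meas m).comp h1
  have h4 := (Pool.Agent.Helper46.QP.Mx_meas m).comp h2
  have h5 := (Pool.Agent.Helper46.QP.Mx_meas (2 * m)).comp h1
  unfold los
  exact ((Real.measurable_log.comp h3).add (Real.measurable_log.comp h4)).sub (Real.measurable_log.comp h5)

/-- Jensen -/
private theorem jen32 {Y : Type*} [MeasurableSpace Y] {ν : Measure Y} [IsProbabilityMeasure ν] {g : Y → ℝ}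
    (hg : Measurable g) {B : ℝ} (hB : ∀ y, |g y| ≤ B) :
    ENNReal.ofReal (Real.exp (∫ y, g y ∂ν)) ≤ ∫⁻ y, ENNReal.ofReal (Real.exp (g y)) ∂ν := by
  have hgi : Integrable g ν :=
    Integrable.of_bound hg.aestronglyMeasurable B (Filter.Eventually.of_forall fun y => by
      rw [Real.norm_eq_abs]; exact hB y)
  have hei : Integrable (Real.exp ∘ g) ν := by
    refine Integrable.of_bound (Real.measurable_exp.comp hg).aestronglyMeasurable (Real.exp B)
      (Filter.Eventually.of_forall fun y => ?_)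
    rw [Real.norm_eq_abs, Function.comp_apply, abs_of_pos (Real.exp_pos _)]
    exact Real.exp_le_exp.2 ((le_abs_self _).trans (hB y))
  have e3 : Real.exp (∫ y, g y ∂ν) ≤ ∫ y, Real.exp (g y) ∂ν :=
    convexOn_exp.map_integral_le Real.continuous_exp.continuousOn isClosed_univ
      (Filter.Eventually.of_forall fun y => mem_univ _) hgi hei
  refine (ENNReal.ofReal_le_ofReal e3).trans (le_of_eq ?_)
  exact ofReal_integral_eq_lintegral_ofReal hei (Filter.Eventually.of_forall fun y => (Real.exp_pos _).le)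

private theorem sq_meas32 {α : Td d} {a : Td d → ℝ} (ha : Measurable a) : Measurable fun θ => sq α a θ := by
  refine measurable_pi_lambda _ fun j => ?_
  unfold sq
  exact ha.comp (measurable_id.add_const _)

/-- the mean value over the base and the fibre -/
private theorem mean32 {α : Td d} {a : Td d → ℝ} (ha : Measurable a) {K : ℝ} (hK0 : 0 ≤ K) (hK : ∀ θ, |a θ| ≤ K)
    (m M : ℕ) (β : Fin M → Td d) :
    ENNReal.ofReal (Real.exp (M / 80 * ∫ x : Td d × TT, los (sq α a x.1) x.2 m)) ≤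
      ∫⁻ θ : Td d, ∏ k, ∫⁻ z : TT, ENNReal.ofReal (Real.exp (los (sq α a (θ + β k)) z m / 80)) := by
  obtain ⟨B, hBdef⟩ : ∃ B : ℝ, B = 2 * (Real.log 2 + m * Real.log (2 * π * K + 4)) := ⟨_, rfl⟩
  have hL0 : ∀ θ z, 0 ≤ los (sq α a θ) z m := fun θ z => (los_bd hK0 (fun j => hK _) z m).1
  have hLB : ∀ θ z, los (sq α a θ) z m ≤ B := fun θ z => by
    rw [hBdef]
    exact (los_bd hK0 (fun j => hK _) z m).2
  have hLa : ∀ θ z, |los (sq α a θ) z m| ≤ B := fun θ z => by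
    rw [abs_of_nonneg (hL0 θ z)]
    exact hLB θ z
  have hLm : Measurable fun x : Td d × TT => los (sq α a x.1) x.2 m := by
    have h1 : Measurable fun x : Td d × TT => ((sq α a x.1, x.2) : (ℕ → ℝ) × TT) :=
      ((sq_meas32 ha).comp measurable_fst).prodMk measurable_snd
    exact (los_meas m).comp h1
  have hLi : Integrable (fun x : Td d × TT => los (sq α a x.1) x.2 m) (volume.prod volume) :=
    Integrable.of_bound hLm.aestronglyMeasurable B (Filter.Eventually.of_forall fun x => by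
      rw [Real.norm_eq_abs]; exact hLa _ _)
  obtain ⟨φ, hφ⟩ : ∃ φ : Td d → ℝ, φ = fun θ => ∫ z : TT, los (sq α a θ) z m := ⟨_, rfl⟩
  have hφm : Measurable φ := by
    rw [hφ]
    exact (hLm.stronglyMeasurable.integral_prod_right (ν := (volume : Measure TT))).measurable
  have hφB : ∀ θ, |φ θ| ≤ B := by
    intro θ
    rw [hφ]
    simp only
    have h1 := norm_integral_le_of_norm_le_const (μ := (volume : Measure TT))
      (f := fun z => los (sq α a θ) z m) (C := B) (Filter.Eventually.of_forall fun z => by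
        rw [Real.norm_eq_abs]; exact hLa _ _)
    rw [Real.norm_eq_abs, probReal_univ, mul_one] at h1
    exact h1
  have e0 : ∫ x : Td d × TT, los (sq α a x.1) x.2 m = ∫ θ, φ θ := by
    rw [hφ]
    exact integral_prod _ hLi
  have hti : ∀ b : Td d, Integrable (fun θ => φ (θ + b)) volume := fun b =>
    Integrable.of_bound (hφm.comp (measurable_id.add_const b)).aestronglyMeasurable B
      (Filter.Eventually.of_forall fun θ => by rw [Real.norm_eq_abs]; exact hφB _)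
  have e1 : (M : ℝ) / 80 * ∫ x : Td d × TT, los (sq α a x.1) x.2 m = ∫ θ, ∑ k : Fin M, φ (θ + β k) / 80 := by
    rw [e0, integral_finsetSum _ fun k _ => (hti (β k)).div_const 80]
    have e2 : ∀ k : Fin M, ∫ θ, φ (θ + β k) / 80 = (∫ θ, φ θ) / 80 := fun k => by
      rw [integral_div, integral_add_right_eq_self φ (β k)]
    simp only [e2, Finset.sum_const, Finset.card_univ, Fintype.card_fin, nsmul_eq_mul]
    ring
  have hgm : Measurable fun θ => ∑ k : Fin M, φ (θ + β k) / 80 :=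
    Finset.measurable_sum _ fun k _ => (hφm.comp (measurable_id.add_const (β k))).div_const 80
  have hgb : ∀ θ, |∑ k : Fin M, φ (θ + β k) / 80| ≤ M * (B / 80) := by
    intro θ
    refine (Finset.abs_sum_le_sum_abs _ _).trans ?_
    calc ∑ k : Fin M, |φ (θ + β k) / 80| ≤ ∑ _k : Fin M, B / 80 := by
          refine Finset.sum_le_sum fun k _ => ?_
          rw [abs_div, abs_of_pos (by norm_num : (0 : ℝ) < 80)]
          exact div_le_div_of_nonneg_right (hφB _) (by norm_num)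
      _ = M * (B / 80) := by simp
  rw [e1]
  refine (jen32 hgm hgb).trans (lintegral_mono fun θ => ?_)
  simp only
  rw [Real.exp_sum, ENNReal.ofReal_prod_of_nonneg fun k _ => (Real.exp_pos _).le]
  refine Finset.prod_le_prod' fun k _ => ?_
  have h2 : φ (θ + β k) / 80 = ∫ z : TT, los (sq α a (θ + β k)) z m / 80 := by
    rw [hφ]
    simp only
    rw [integral_div]
  rw [h2]
  have h3 : Measurable fun z : TT => los (sq α a (θ + β k)) z m / 80 :=
    ((los_meas m).comp ((measurable_const (a := sq α a (θ + β k))).prodMk measurable_id)).div_const 80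
  refine jen32 h3 (B := B / 80) fun z => ?_
  rw [abs_div, abs_of_pos (by norm_num : (0 : ℝ) < 80)]
  exact div_le_div_of_nonneg_right (hLa _ _) (by norm_num)

/-- the moves of the coefficients -/
private theorem move32 {γ : ℝ} {α : Td d} {q ρ : ℝ} {m M N p : ℕ} {β : Fin M → Td d} (hγ : 0 < γ) (hq : q ≠ 0)
    (hm : 2 ≤ m) (hM : 1 ≤ M) (hN : 1 ≤ N) (hp : 1 ≤ p) (hρ : 0 < ρ) (hβ : SepR α ρ (2 * m) M β)
    (hc : 2 * ((M * (2 * m) : ℕ) : ℝ) ≤ (2 * N * ρ) ^ (2 * p)) (k : Fin M) :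
    ∃ (s : Finset (Ik d)) (v : Fin 3 → Ow d), (∀ j, ∀ i ∉ s, v j i = 0) ∧ (∀ j, ∑ i ∈ s, |v j i| ≤ 1 / 3) ∧
      (∀ j, ∑ i ∈ s, wt γ i * |v j i| ≤ 1 / (3 * M)) ∧
      ∀ j, ∀ y : Fin M × Fin (2 * m), q * ∑ i ∈ s, wt γ i * v j i * bas i (β y.1 + (y.2 : ℕ) • α) =
        if y.1 = k ∧ (y.2 : ℕ) + 1 = m + j then min |q| 1 * Real.exp (-((p * N : ℝ) ^ γ)) / (12 * M) else 0 := by
  classical
  have hM0 : (0 : ℝ) < M := by exact_mod_cast hM
  have hM1 : (1 : ℝ) ≤ M := by exact_mod_cast hM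
  have hcard : 2 * (Fintype.card (Fin M × Fin (2 * m)) : ℝ) ≤ (2 * N * ρ) ^ (2 * p) := by
    rw [Fintype.card_prod, Fintype.card_fin, Fintype.card_fin]
    exact hc
  have hlt : ∀ j : Fin 3, m - 1 + (j : ℕ) < 2 * m := fun j => by have := j.2; omega
  have H := fun j : Fin 3 => interp (x := fun y : Fin M × Fin (2 * m) => β y.1 + (y.2 : ℕ) • α) hN hp hρ hβ hcard
    (k, ⟨m - 1 + (j : ℕ), hlt j⟩)
  choose s c hc0 hcn hcs hc1 hc2 using H
  obtain ⟨S, hS⟩ : ∃ S : Finset (Ik d), S = Finset.univ.biUnion s := ⟨_, rfl⟩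
  have hsub : ∀ j, s j ⊆ S := fun j => by
    rw [hS]
    exact Finset.subset_biUnion_of_mem s (Finset.mem_univ j)
  have hsum : ∀ (j : Fin 3) (F : Ik d → ℝ), (∀ i ∉ s j, F i = 0) → ∑ i ∈ S, F i = ∑ i ∈ s j, F i := fun j F hF =>
    (Finset.sum_subset (hsub j) fun i _ hi => hF i hi).symm
  obtain ⟨E, hE⟩ : ∃ E : ℝ, E = Real.exp (-((p * N : ℝ) ^ γ)) := ⟨_, rfl⟩
  have hE0 : 0 < E := by rw [hE]; exact Real.exp_pos _
  have hE1 : E ≤ 1 := by
    rw [hE]
    apply Real.exp_le_one_iff.2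
    have : (0 : ℝ) ≤ (p * N : ℝ) ^ γ := Real.rpow_nonneg (by positivity) _
    linarith
  have hw : ∀ j, ∀ i ∈ s j, E ≤ wt γ i := by
    intro j i hi
    rw [hE]
    unfold wt
    apply Real.exp_le_exp.2
    have := Real.rpow_le_rpow (norm_nonneg i.1) (hcn j i hi) hγ.le
    linarith
  obtain ⟨σ, hσ⟩ : ∃ σ : ℝ, σ = min |q| 1 / q := ⟨_, rfl⟩
  have hqa : 0 < |q| := abs_pos.2 hq
  have hmin : 0 < min |q| 1 := lt_min hqa one_pos
  have hσa : |σ| ≤ 1 := by
    rw [hσ, abs_div, abs_of_pos hmin, div_le_one hqa]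
    exact min_le_left _ _
  have hσq : q * σ = min |q| 1 := by
    rw [hσ]
    exact mul_div_cancel₀ _ hq
  refine ⟨S, fun j i => σ * (E / (12 * M)) * c j i / wt γ i, ?_, ?_, ?_, ?_⟩
  · intro j i hi
    have : c j i = 0 := hc0 j i fun h => hi (hsub j h)
    simp only [this, mul_zero, zero_div]
  · intro j
    rw [hsum j _ fun i hi => by simp only [hc0 j i hi, mul_zero, zero_div, abs_zero]]
    have h1 : ∀ i ∈ s j, |σ * (E / (12 * M)) * c j i / wt γ i| ≤ 1 / (12 * M) * |c j i| := by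
      intro i hi
      have hwp := wt_pos γ i
      rw [abs_div, abs_mul, abs_mul, abs_of_pos hwp, abs_of_pos (by positivity : 0 < E / (12 * M)),
        div_le_iff₀ hwp]
      have h2 := hw j i hi
      have h0 : |σ| * (E / (12 * M)) * |c j i| ≤ 1 * (E / (12 * M)) * |c j i| :=
        mul_le_mul_of_nonneg_right (mul_le_mul_of_nonneg_right hσa (by positivity)) (abs_nonneg _)
      have h3 : 1 * (E / (12 * M)) * |c j i| = 1 / (12 * M) * |c j i| * E := by ring
      rw [h3] at h0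
      exact h0.trans (mul_le_mul_of_nonneg_left h2 (by positivity))
    refine (Finset.sum_le_sum h1).trans ?_
    rw [← Finset.mul_sum]
    have h4 : 1 / (12 * (M : ℝ)) * ∑ i ∈ s j, |c j i| ≤ 1 / (12 * M) * 4 :=
      mul_le_mul_of_nonneg_left (hcs j) (by positivity)
    refine h4.trans ?_
    rw [div_mul_eq_mul_div, div_le_div_iff₀ (by positivity) (by norm_num)]
    nlinarith
  · intro j
    rw [hsum j _ fun i hi => by simp only [hc0 j i hi, mul_zero, zero_div, abs_zero]]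
    have h1 : ∀ i ∈ s j, wt γ i * |σ * (E / (12 * M)) * c j i / wt γ i| ≤ 1 / (12 * M) * |c j i| := by
      intro i hi
      have hwp := wt_pos γ i
      rw [abs_div, abs_mul, abs_mul, abs_of_pos hwp, abs_of_pos (by positivity : 0 < E / (12 * M)),
        mul_div_cancel₀ _ hwp.ne']
      refine mul_le_mul_of_nonneg_right ?_ (abs_nonneg _)
      have h0 : |σ| * (E / (12 * M)) ≤ 1 * (1 / (12 * M)) :=
        mul_le_mul hσa (div_le_div_of_nonneg_right hE1 (by positivity)) (by positivity) zero_le_one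
      rwa [one_mul] at h0
    refine (Finset.sum_le_sum h1).trans ?_
    rw [← Finset.mul_sum]
    have h4 : 1 / (12 * (M : ℝ)) * ∑ i ∈ s j, |c j i| ≤ 1 / (12 * M) * 4 :=
      mul_le_mul_of_nonneg_left (hcs j) (by positivity)
    refine h4.trans (le_of_eq ?_)
    field_simp
    norm_num
  · intro j y
    rw [hsum j _ fun i hi => by simp only [hc0 j i hi, mul_zero, zero_div, zero_mul]]
    have h1 : ∀ i ∈ s j, wt γ i * (σ * (E / (12 * M)) * c j i / wt γ i) * bas i (β y.1 + (y.2 : ℕ) • α) =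
        σ * (E / (12 * M)) * (c j i * bas i (β y.1 + (y.2 : ℕ) • α)) := by
      intro i _
      rw [mul_div_cancel₀ _ (wt_pos γ i).ne']
      ring
    rw [Finset.sum_congr rfl h1, ← Finset.mul_sum]
    by_cases hy : y = (k, ⟨m - 1 + (j : ℕ), hlt j⟩)
    · have h2 := hc1 j
      rw [← hy] at h2
      rw [h2, if_pos ⟨by rw [hy], by rw [hy]; simp only; omega⟩, mul_one, ← mul_assoc, hσq, hE]
      ring
    · have h2 := hc2 j y hy
      rw [h2, mul_zero, mul_zero, if_neg]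
      rintro ⟨h3, h4⟩
      apply hy
      refine Prod.ext h3 (Fin.ext ?_)
      simp only
      omega

private theorem re_ae32 : ∀ᵐ w ∂dl, |w.re| ≤ 1 := by
  have h1 : ∀ᵐ w ∂(volume.restrict (Metric.closedBall (0 : ℂ) 1)), |w.re| ≤ 1 := by
    filter_upwards [ae_restrict_mem Metric.isClosed_closedBall.measurableSet] with w hw
    rw [mem_closedBall_zero_iff] at hw
    exact (Complex.abs_re_le_norm w).trans hw
  unfold dl
  exact Measure.ae_smul_measure h1 _

private theorem re3_ae32 : ∀ᵐ t ∂(dl.prod (dl.prod dl)), |t.1.re| ≤ 1 ∧ |t.2.1.re| ≤ 1 ∧ |t.2.2.re| ≤ 1 := by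
  have h1 : ∀ᵐ t ∂(dl.prod (dl.prod dl)), |t.1.re| ≤ 1 := Measure.quasiMeasurePreserving_fst.ae re_ae32
  have h2 : ∀ᵐ t ∂(dl.prod (dl.prod dl)), |t.2.1.re| ≤ 1 :=
    Measure.quasiMeasurePreserving_snd.ae (p := fun u : ℂ × ℂ => |u.1.re| ≤ 1)
      (Measure.quasiMeasurePreserving_fst.ae re_ae32)
  have h3 : ∀ᵐ t ∂(dl.prod (dl.prod dl)), |t.2.2.re| ≤ 1 :=
    Measure.quasiMeasurePreserving_snd.ae (p := fun u : ℂ × ℂ => |u.2.re| ≤ 1)
      (Measure.quasiMeasurePreserving_snd.ae re_ae32)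
  filter_upwards [h1, h2, h3] with t a b c
  exact ⟨a, b, c⟩

/-- the mean over the fibre of the exponential of the loss -/
private noncomputable def fk32 (γ : ℝ) (α : Td d) (f : Td d → ℝ) (q : ℝ) (m : ℕ) (w : Ow d) (θ : Td d) : ℝ≥0∞ :=
  ∫⁻ z : TT, ENNReal.ofReal (Real.exp (los (sq α (amp γ f q w) θ) z m / 80))

private theorem fk_meas32 {γ : ℝ} {α : Td d} {f : Td d → ℝ} (hf : Measurable f) {q : ℝ} {m : ℕ} :
    Measurable fun u : Ow d × Td d => fk32 γ α f q m u.1 u.2 := by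
  have hampm : Measurable fun u : Ow d × Td d => amp γ f q u.1 u.2 := by
    unfold amp
    exact (hf.comp measurable_snd).add ((eta_meas γ).const_mul q)
  have hsqm : Measurable fun u : Ow d × Td d => sq α (amp γ f q u.1) u.2 := by
    refine measurable_pi_lambda _ fun j => ?_
    unfold sq
    have h1 : Measurable fun u : Ow d × Td d => ((u.1, u.2 + j • α) : Ow d × Td d) :=
      measurable_fst.prodMk (measurable_snd.add_const _)
    exact hampm.comp h1
  have h1 : Measurable fun u : (Ow d × Td d) × TT =>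
      ((sq α (amp γ f q u.1.1) u.1.2, u.2) : (ℕ → ℝ) × TT) := (hsqm.comp measurable_fst).prodMk measurable_snd
  have h2 : Measurable fun u : (Ow d × Td d) × TT =>
      ENNReal.ofReal (Real.exp (los (sq α (amp γ f q u.1.1) u.1.2) u.2 m / 80)) :=
    ENNReal.measurable_ofReal.comp (Real.measurable_exp.comp (((los_meas m).comp h1).div_const 80))
  unfold fk32
  exact h2.lintegral_prod_right'

private theorem amp_le32 {γ : ℝ} {f : Td d → ℝ} {q K₀ : ℝ} (hfK : ∀ θ, |f θ| ≤ K₀) {h' : ℝ}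
    (hh' : 0 ≤ h') {w : Ow d} (hw : Hw γ w ≤ ENNReal.ofReal h') (θ : Td d) : |amp γ f q w θ| ≤ K₀ + |q| * h' := by
  have hfin : Hw γ w ≠ ∞ := ne_top_of_le_ne_top ENNReal.ofReal_ne_top hw
  have h1 := eta_le hfin θ
  have h2 : (Hw γ w).toReal ≤ h' := by
    have := ENNReal.toReal_mono ENNReal.ofReal_ne_top hw
    rwa [ENNReal.toReal_ofReal hh'] at this
  unfold amp
  refine (abs_add_le _ _).trans (add_le_add (hfK θ) ?_)
  rw [abs_mul]
  exact mul_le_mul_of_nonneg_left (h1.trans h2) (abs_nonneg _)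

private theorem mv_meas32 (v0 v1 v2 : Ow d) :
    Measurable fun u : Ow d × (ℂ × ℂ × ℂ) => u.1 + (u.2.1.re • v0 + u.2.2.1.re • v1 + u.2.2.2.re • v2) := by
  refine measurable_pi_lambda _ fun i => ?_
  simp only [Pi.add_apply, Pi.smul_apply, smul_eq_mul]
  have g0 : Measurable fun u : Ow d × (ℂ × ℂ × ℂ) => u.1 i := (measurable_pi_apply i).comp measurable_fst
  have g1 : Measurable fun u : Ow d × (ℂ × ℂ × ℂ) => u.2.1.re :=
    Complex.measurable_re.comp (measurable_fst.comp measurable_snd)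
  have g2 : Measurable fun u : Ow d × (ℂ × ℂ × ℂ) => u.2.2.1.re :=
    Complex.measurable_re.comp (measurable_fst.comp (measurable_snd.comp measurable_snd))
  have g3 : Measurable fun u : Ow d × (ℂ × ℂ × ℂ) => u.2.2.2.re :=
    Complex.measurable_re.comp (measurable_snd.comp (measurable_snd.comp measurable_snd))
  exact g0.add (((g1.mul_const _).add (g2.mul_const _)).add (g3.mul_const _))

private theorem zero32 {s : Finset (Ik d)} {v0 v1 v2 : Ow d} (h0 : ∀ i ∉ s, v0 i = 0) (h1 : ∀ i ∉ s, v1 i = 0)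
    (h2 : ∀ i ∉ s, v2 i = 0) (a b c : ℝ) : ∀ i ∉ s, (a • v0 + b • v1 + c • v2 : Ow d) i = 0 := by
  intro i hi
  simp only [Pi.add_apply, Pi.smul_apply, smul_eq_mul, h0 i hi, h1 i hi, h2 i hi, mul_zero, add_zero]

/-- the value of the noise after a move -/
private theorem etamv32 {γ : ℝ} {w : Ow d} (hw : Hw γ w ≠ ∞) {s : Finset (Ik d)} {v0 v1 v2 : Ow d}
    (h0 : ∀ i ∉ s, v0 i = 0) (h1 : ∀ i ∉ s, v1 i = 0) (h2 : ∀ i ∉ s, v2 i = 0) (a b c q : ℝ) (θ : Td d) :
    q * eta γ (w + (a • v0 + b • v1 + c • v2)) θ = q * eta γ w θ + (q * ∑ i ∈ s, wt γ i * v0 i * bas i θ) * a +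
      (q * ∑ i ∈ s, wt γ i * v1 i * bas i θ) * b + (q * ∑ i ∈ s, wt γ i * v2 i * bas i θ) * c := by
  rw [eta_add hw (zero32 h0 h1 h2 a b c)]
  have h5 : ∀ i ∈ s, wt γ i * (a • v0 + b • v1 + c • v2 : Ow d) i * bas i θ =
      wt γ i * v0 i * bas i θ * a + wt γ i * v1 i * bas i θ * b + wt γ i * v2 i * bas i θ * c := by
    intro i _
    simp only [Pi.add_apply, Pi.smul_apply, smul_eq_mul]
    ring
  rw [Finset.sum_congr rfl h5, Finset.sum_add_distrib, Finset.sum_add_distrib, ← Finset.sum_mul,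
    ← Finset.sum_mul, ← Finset.sum_mul]
  ring

private theorem Hmv32 {γ : ℝ} {s : Finset (Ik d)} {v0 v1 v2 : Ow d}
    (h0 : ∀ i ∉ s, v0 i = 0) (h1 : ∀ i ∉ s, v1 i = 0) (h2 : ∀ i ∉ s, v2 i = 0) {a b c M : ℝ} (ha : |a| ≤ 1)
    (hb : |b| ≤ 1) (hc : |c| ≤ 1) (hM : 0 < M) (b0 : ∑ i ∈ s, wt γ i * |v0 i| ≤ 1 / (3 * M))
    (b1 : ∑ i ∈ s, wt γ i * |v1 i| ≤ 1 / (3 * M)) (b2 : ∑ i ∈ s, wt γ i * |v2 i| ≤ 1 / (3 * M)) (w : Ow d) :
    Hw γ w ≤ Hw γ (w + (a • v0 + b • v1 + c • v2)) + ENNReal.ofReal (1 / M) := by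
  refine (Hw_add (zero32 h0 h1 h2 a b c) w).trans (add_le_add le_rfl (ENNReal.ofReal_le_ofReal ?_))
  have h5 : ∀ i ∈ s, wt γ i * |(a • v0 + b • v1 + c • v2 : Ow d) i| ≤
      wt γ i * |v0 i| + wt γ i * |v1 i| + wt γ i * |v2 i| := by
    intro i _
    simp only [Pi.add_apply, Pi.smul_apply, smul_eq_mul]
    have a0 : |a * v0 i| ≤ |v0 i| := by
      rw [abs_mul]
      exact mul_le_of_le_one_left (abs_nonneg _) ha
    have a1 : |b * v1 i| ≤ |v1 i| := by
      rw [abs_mul]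
      exact mul_le_of_le_one_left (abs_nonneg _) hb
    have a2 : |c * v2 i| ≤ |v2 i| := by
      rw [abs_mul]
      exact mul_le_of_le_one_left (abs_nonneg _) hc
    have a3 : |a * v0 i + b * v1 i + c * v2 i| ≤ |v0 i| + |v1 i| + |v2 i| :=
      (abs_add_le _ _).trans (add_le_add ((abs_add_le _ _).trans (add_le_add a0 a1)) a2)
    calc _ ≤ wt γ i * (|v0 i| + |v1 i| + |v2 i|) := mul_le_mul_of_nonneg_left a3 (wt_pos γ i).le
      _ = _ := by ring
  refine (Finset.sum_le_sum h5).trans ?_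
  rw [Finset.sum_add_distrib, Finset.sum_add_distrib]
  have b3 : (1 : ℝ) / (3 * M) + 1 / (3 * M) + 1 / (3 * M) = 1 / M := by
    field_simp
    norm_num
  linarith

/-- the bound for fixed base points -/
private theorem fix32 {C : ℝ} (hC1 : 1 ≤ C) (hC : ∀ (K s : ℝ) (m : ℕ) (A : ℕ → ℝ), 1 ≤ K → 0 < s → s ≤ 1 → 2 ≤ m →
      (∀ j, |A j| ≤ K) → ∫⁻ t : ℂ × ℂ × ℂ, ∫⁻ z : TT, ENNReal.ofReal (Real.exp (los (up3 A m s t.1 t.2.1 t.2.2) z m / 80))
      ∂volume ∂(dl.prod (dl.prod dl)) ≤ ENNReal.ofReal (C * K ^ 6 * s⁻¹ ^ 4))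
    {γ : ℝ} {α : Td d} {f : Td d → ℝ} {q K₀ h ρ σ : ℝ} {m M N p : ℕ} {β : Fin M → Td d} (hγ : 0 < γ)
    (hf : Measurable f) (hK₀ : 0 ≤ K₀) (hfK : ∀ θ, |f θ| ≤ K₀) (hq : q ≠ 0) (hh : 0 ≤ h)
    (hm : 2 ≤ m) (hM : 1 ≤ M) (hN : 1 ≤ N) (hp : 1 ≤ p) (hρ : 0 < ρ) (hβ : SepR α ρ (2 * m) M β)
    (hcard : 2 * ((M * (2 * m) : ℕ) : ℝ) ≤ (2 * N * ρ) ^ (2 * p))
    (hσ : σ = min |q| 1 * Real.exp (-((p * N : ℝ) ^ γ)) / (12 * M)) (hσ0 : 0 < σ) (hσ1 : σ ≤ 1) :
    ∫⁻ w in {w | Hw γ w ≤ ENNReal.ofReal h}, (∏ k, fk32 γ α f q m w (β k)) ∂lawL d ≤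
      ENNReal.ofReal ((Real.exp 1 * C * (K₀ + |q| * (h + 1) + 1) ^ 6 * σ⁻¹ ^ 4) ^ M) := by
  have hM0 : (0 : ℝ) < M := by exact_mod_cast hM
  have hset : MeasurableSet {w : Ow d | Hw γ w ≤ ENNReal.ofReal h} := Hw_meas γ measurableSet_Iic
  have H := fun k => move32 hγ hq hm hM hN hp hρ hβ hcard k
  choose s v hv0 hv1 hv2 hv3 using H
  rw [← hσ] at hv3
  have hamv : ∀ (k : Fin M) (a b c : ℝ) (w : Ow d), Hw γ w ≠ ∞ → ∀ (j : Fin M) (i : ℕ), i < 2 * m →
      sq α (amp γ f q (w + (a • v k 0 + b • v k 1 + c • v k 2))) (β j) i =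
        sq α (amp γ f q w) (β j) i + (if j = k ∧ i + 1 = m + 0 then σ else 0) * a +
          (if j = k ∧ i + 1 = m + 1 then σ else 0) * b + (if j = k ∧ i + 1 = m + 2 then σ else 0) * c := by
    intro k a b c w hw j i hi
    have e0 := hv3 k 0 (j, ⟨i, hi⟩)
    have e1 := hv3 k 1 (j, ⟨i, hi⟩)
    have e2 := hv3 k 2 (j, ⟨i, hi⟩)
    simp only [Fin.val_zero, Fin.val_one, Fin.val_two] at e0 e1 e2
    rw [← e0, ← e1, ← e2]
    unfold sq amp
    rw [etamv32 hw (hv0 k 0) (hv0 k 1) (hv0 k 2)]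
    ring
  have hFm : ∀ k : Fin M, Measurable fun w : Ow d => fk32 γ α f q m w (β k) := by
    intro k
    have g1 : Measurable fun w : Ow d => ((w, β k) : Ow d × Td d) := measurable_id.prodMk measurable_const
    have g2 := (fk_meas32 (γ := γ) (α := α) (q := q) (m := m) hf).comp g1
    simp only [Function.comp_def] at g2
    exact g2
  have hMd : (M : ℝ≥0∞) * ENNReal.ofReal (1 / M) = 1 := by
    rw [← ENNReal.ofReal_natCast, ← ENNReal.ofReal_mul (Nat.cast_nonneg M), mul_one_div, div_self hM0.ne',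
      ENNReal.ofReal_one]
  have p2 : ∀ k j : Fin M, j ≠ k → ∀ (w : Ow d) (t : ℂ × ℂ × ℂ), Hw γ w ≠ ∞ →
      fk32 γ α f q m (w + (t.1.re • v k 0 + t.2.1.re • v k 1 + t.2.2.re • v k 2)) (β j) =
        fk32 γ α f q m w (β j) := by
    intro k j hjk w t hw
    unfold fk32
    refine lintegral_congr fun z => ?_
    rw [los_congr (A' := sq α (amp γ f q w) (β j)) fun i hi => ?_]
    rw [hamv k t.1.re t.2.1.re t.2.2.re w hw j i hi]
    simp only [hjk, false_and, if_false, zero_mul, add_zero]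
  have p3 : ∀ (k : Fin M) (w : Ow d), ∀ᵐ t ∂(dl.prod (dl.prod dl)),
      Hw γ w ≤ Hw γ (w + (t.1.re • v k 0 + t.2.1.re • v k 1 + t.2.2.re • v k 2)) + ENNReal.ofReal (1 / M) := by
    intro k w
    filter_upwards [re3_ae32] with t ht
    exact Hmv32 (hv0 k 0) (hv0 k 1) (hv0 k 2) ht.1 ht.2.1 ht.2.2 hM0 (hv2 k 0) (hv2 k 1) (hv2 k 2) w
  have p4 : ∀ (k : Fin M) (w : Ow d), Hw γ w ≤ ENNReal.ofReal h + M * ENNReal.ofReal (1 / M) →
      ∫⁻ t, fk32 γ α f q m (w + (t.1.re • v k 0 + t.2.1.re • v k 1 + t.2.2.re • v k 2)) (β k)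
        ∂(dl.prod (dl.prod dl)) ≤ ENNReal.ofReal (C * (K₀ + |q| * (h + 1) + 1) ^ 6 * σ⁻¹ ^ 4) := by
    intro k w hw
    rw [hMd] at hw
    have hw' : Hw γ w ≤ ENNReal.ofReal (h + 1) := by
      rw [ENNReal.ofReal_add hh zero_le_one, ENNReal.ofReal_one]
      exact hw
    have hfin : Hw γ w ≠ ∞ := ne_top_of_le_ne_top ENNReal.ofReal_ne_top hw'
    have hA : ∀ j, |sq α (amp γ f q w) (β k) j| ≤ K₀ + |q| * (h + 1) + 1 := fun j => by
      have := amp_le32 (q := q) hfK (show (0 : ℝ) ≤ h + 1 by positivity) hw' (β k + j • α)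
      unfold sq
      linarith
    have hK1 : 1 ≤ K₀ + |q| * (h + 1) + 1 := by
      have : 0 ≤ |q| * (h + 1) := by positivity
      linarith
    refine le_trans (le_of_eq ?_) (hC (K₀ + |q| * (h + 1) + 1) σ m (sq α (amp γ f q w) (β k)) hK1 hσ0 hσ1 hm hA)
    unfold fk32
    refine lintegral_congr fun t => lintegral_congr fun z => ?_
    rw [los_congr (A' := up3 (sq α (amp γ f q w) (β k)) m σ t.1 t.2.1 t.2.2) fun i hi => ?_]
    rw [hamv k t.1.re t.2.1.re t.2.2.re w hfin k i hi]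
    unfold up3
    simp only [true_and, add_zero]
    rcases eq_or_ne (i + 1) m with h6 | h6
    · rw [if_pos h6, if_neg (by omega), if_neg (by omega), if_pos h6]
      ring
    · rw [if_neg h6, if_neg h6]
      rcases eq_or_ne i m with h7 | h7
      · rw [if_pos (by omega), if_neg (by omega), if_pos h7]
        ring
      · rw [if_neg (by omega), if_neg h7]
        rcases eq_or_ne i (m + 1) with h8 | h8
        · rw [if_pos (by omega), if_pos h8]
          ring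
        · rw [if_neg (by omega), if_neg h8]
          ring
  have key := peel (μ := lawL d) (τ := dl.prod (dl.prod dl)) (f := fun k w => fk32 γ α f q m w (β k)) hFm
    (H := Hw γ) (Hw_meas γ)
    (S := fun k w t => w + (t.1.re • v k 0 + t.2.1.re • v k 1 + t.2.2.re • v k 2))
    (fun k => mv_meas32 (v k 0) (v k 1) (v k 2))
    (C := ENNReal.ofReal (Real.exp 1)) (R := ENNReal.ofReal (C * (K₀ + |q| * (h + 1) + 1) ^ 6 * σ⁻¹ ^ 4))
    (δ := ENNReal.ofReal (1 / M)) (h := ENNReal.ofReal h) ENNReal.ofReal_ne_top ENNReal.ofReal_ne_top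
    (fun k G hG => law_avg (hv0 k 0) (hv0 k 1) (hv0 k 2) (hv1 k 0) (hv1 k 1) (hv1 k 2) hG)
    p2 p3 p4
  have e5 : ∫⁻ w in {w | Hw γ w ≤ ENNReal.ofReal h}, (∏ k, fk32 γ α f q m w (β k)) ∂lawL d =
      ∫⁻ w, (∏ k, fk32 γ α f q m w (β k)) * {w | Hw γ w ≤ ENNReal.ofReal h}.indicator 1 w ∂lawL d := by
    rw [← lintegral_indicator hset]
    refine lintegral_congr fun w => ?_
    by_cases hw : w ∈ {w : Ow d | Hw γ w ≤ ENNReal.ofReal h}
    · rw [indicator_of_mem hw, indicator_of_mem hw, Pi.one_apply, mul_one]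
    · rw [indicator_of_notMem hw, indicator_of_notMem hw, mul_zero]
  rw [e5]
  refine key.trans (le_of_eq ?_)
  rw [measure_univ, mul_one, ← ENNReal.ofReal_mul (Real.exp_pos _).le, ← ENNReal.ofReal_pow (by positivity)]
  congr 2
  ring

theorem conc_e : ∃ C : ℝ, 1 ≤ C ∧ ∀ (d : ℕ) (γ : ℝ) (α : Td d) (f : Td d → ℝ) (q K₀ h ρ : ℝ) (m M N p : ℕ)
    (β : Fin M → Td d), 0 < γ → Continuous f → 0 ≤ K₀ → (∀ θ, |f θ| ≤ K₀) → q ≠ 0 → 0 ≤ h → 2 ≤ m → 1 ≤ M →
    1 ≤ N → 1 ≤ p → 0 < ρ → SepR α ρ (2 * m) M β → 2 * ((M * (2 * m) : ℕ) : ℝ) ≤ (2 * N * ρ) ^ (2 * p) →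
    ∫⁻ w in {w | Hw γ w ≤ ENNReal.ofReal h}, ENNReal.ofReal (Real.exp (M / 80 *
      ∫ x : Td d × TT, los (sq α (amp γ f q w) x.1) x.2 m)) ∂lawL d ≤
      ENNReal.ofReal ((C * (K₀ + |q| * (h + 1) + 1) ^ 6 *
        (min |q| 1 * Real.exp (-((p * N : ℝ) ^ γ)) / (12 * M))⁻¹ ^ 4) ^ M) := by
  obtain ⟨C, hC1, hC⟩ := junc
  refine ⟨Real.exp 1 * C, ?_, ?_⟩
  · have := Real.one_le_exp (zero_le_one (α := ℝ))
    nlinarith
  intro d γ α f q K₀ h ρ m M N p β hγ hf hK₀ hfK hq hh hm hM hN hp hρ hβ hcard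
  have hM0 : (0 : ℝ) < M := by exact_mod_cast hM
  have hM1 : (1 : ℝ) ≤ M := by exact_mod_cast hM
  have hqa : 0 < |q| := abs_pos.2 hq
  obtain ⟨σ, hσ⟩ : ∃ σ : ℝ, σ = min |q| 1 * Real.exp (-((p * N : ℝ) ^ γ)) / (12 * M) := ⟨_, rfl⟩
  have hmin : 0 < min |q| 1 := lt_min hqa one_pos
  have hσ0 : 0 < σ := by rw [hσ]; positivity
  have hσ1 : σ ≤ 1 := by
    rw [hσ, div_le_one (by positivity)]
    have h1 : Real.exp (-((p * N : ℝ) ^ γ)) ≤ 1 := by
      apply Real.exp_le_one_iff.2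
      have : (0 : ℝ) ≤ (p * N : ℝ) ^ γ := Real.rpow_nonneg (by positivity) _
      linarith
    have h2 : min |q| 1 * Real.exp (-((p * N : ℝ) ^ γ)) ≤ 1 * 1 :=
      mul_le_mul (min_le_right _ _) h1 (Real.exp_pos _).le zero_le_one
    linarith
  rw [← hσ]
  have hset : MeasurableSet {w : Ow d | Hw γ w ≤ ENNReal.ofReal h} := Hw_meas γ measurableSet_Iic
  have hpm : Measurable fun u : Ow d × Td d => ∏ k, fk32 γ α f q m u.1 (u.2 + β k) := by
    refine Finset.measurable_prod _ fun k _ => ?_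
    have h1 : Measurable fun u : Ow d × Td d => ((u.1, u.2 + β k) : Ow d × Td d) :=
      measurable_fst.prodMk (measurable_snd.add_const (β k))
    have h2 := (fk_meas32 (γ := γ) (α := α) (q := q) (m := m) hf.measurable).comp h1
    simp only [Function.comp_def] at h2
    exact h2
  calc ∫⁻ w in {w | Hw γ w ≤ ENNReal.ofReal h}, ENNReal.ofReal (Real.exp (M / 80 *
        ∫ x : Td d × TT, los (sq α (amp γ f q w) x.1) x.2 m)) ∂lawL d
      ≤ ∫⁻ w in {w | Hw γ w ≤ ENNReal.ofReal h}, (∫⁻ θ : Td d, ∏ k, fk32 γ α f q m w (θ + β k)) ∂lawL d := by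
        refine setLIntegral_mono' hset fun w hw => ?_
        have hfin : Hw γ w ≠ ∞ := ne_top_of_le_ne_top ENNReal.ofReal_ne_top hw
        have hac : Measurable (amp γ f q w) := by
          unfold amp
          exact (hf.add ((eta_cont hfin).const_mul q)).measurable
        unfold fk32
        exact mean32 hac (by positivity : 0 ≤ K₀ + |q| * h) (amp_le32 hfK hh hw) m M β
    _ = ∫⁻ θ : Td d, (∫⁻ w in {w | Hw γ w ≤ ENNReal.ofReal h}, (∏ k, fk32 γ α f q m w (θ + β k)) ∂lawL d) :=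
        lintegral_lintegral_swap hpm.aemeasurable
    _ ≤ ∫⁻ _θ : Td d, ENNReal.ofReal ((Real.exp 1 * C * (K₀ + |q| * (h + 1) + 1) ^ 6 * σ⁻¹ ^ 4) ^ M) := by
        refine lintegral_mono fun θ => ?_
        exact fix32 hC1 hC hγ hf.measurable hK₀ hfK hq hh hm hM hN hp hρ (SepR_add hβ θ) hcard hσ hσ0 hσ1
    _ = ENNReal.ofReal ((Real.exp 1 * C * (K₀ + |q| * (h + 1) + 1) ^ 6 * σ⁻¹ ^ 4) ^ M) := by
        rw [lintegral_const, measure_univ, mul_one]

end Pool.Agent.Helper82.AN
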