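import Pool.Agent.Helper82.AN.TriP
import Pool.Agent.Helper46.QR.Core

/-! Block AN-COREP: `core` (`Helper46/QR/Core.lean`) with an explicit dependence on `K`. Copy of the proof with `tri_subP` instead of `tri_sub`, `B = 8 K + 20 ≤ 28 K`; the number there is
`(s ρ)⁻³ (2 B)² (bound of the inner measure)`. The helper theorems of that file are public (`three95`, `mem_Eb`, `Eb_meas`, ..). -/

set_option autoImplicit false
open MeasureTheory Real Set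
open scoped ENNReal

namespace Pool.Agent.Helper82.AN

open Pool.Agent.Helper46.QP (TT dl)
open Pool.Agent.Helper46.QR (bad3)
open Pool.Agent.Helper82.QR (sn cs)

open Pool.Agent.Helper95.PV (rp) in
open Pool.Agent.Helper46.QR in
theorem coreP : ∃ C : ℝ, 0 < C ∧ ∀ (K s ρ ε : ℝ) (A : ℕ → ℝ) (z : TT) (p : ℝ × ℝ) (q : TT → ℝ × ℝ),
    1 ≤ K → 0 < s → s ≤ 1 → 0 < ρ → ρ ≤ 1 → 0 < ε → (∀ j, |A j| ≤ K) → Measurable q → 1 ≤ p.1 ^ 2 + p.2 ^ 2 →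
    (∀ y, 1 ≤ (q y).1 ^ 2 + (q y).2 ^ 2) → ρ ≤ |sn z.1| → ρ ≤ |cs z.1| →
    ∫⁻ w0, ∫⁻ w1, ∫⁻ w2, {w : ℂ | bad3 A s ρ ε z p q w0 w1 w}.indicator 1 w2 ∂dl ∂dl ∂dl ≤
      ENNReal.ofReal (C * K ^ 4 * (s * ρ)⁻¹ ^ 4 * ε ^ ((1 : ℝ) / 8)) := by
  obtain ⟨C₀, hC0, hC1⟩ := tri_subP
  refine ⟨4 * 28 ^ 4 * C₀, by positivity, ?_⟩
  intro K s ρ ε A z p q hK1 hs hs1 hρ hρ1 hε hA hq hp hqn hz1 hz2
  have hK : 0 ≤ K := by linarith
  obtain ⟨B, hB⟩ : ∃ B : ℝ, B = 8 * K + 20 := ⟨_, rfl⟩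
  have hB1 : 1 ≤ B := by rw [hB]; linarith
  have hC := hC1 B hB1
  obtain ⟨X0, hX0⟩ : ∃ X0, X0 = rp z.1 := ⟨_, rfl⟩
  obtain ⟨Xm, hXm⟩ : ∃ Xm, Xm = rp z.2 := ⟨_, rfl⟩
  have hX0m : X0 ∈ Ico (0 : ℝ) 1 := by rw [hX0]; exact Pool.Agent.Helper95.PV.rp_mem _
  have hXmm : Xm ∈ Ico (0 : ℝ) 1 := by rw [hXm]; exact Pool.Agent.Helper95.PV.rp_mem _
  have hz : z = ((X0 : UnitAddCircle), (Xm : UnitAddCircle)) := by
    rw [hX0, hXm, Pool.Agent.Helper95.PV.coe_rp, Pool.Agent.Helper95.PV.coe_rp]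
  rw [hz, Pool.Agent.Helper82.QR.sn_coe] at hz1
  rw [hz, Pool.Agent.Helper82.QR.cs_coe] at hz2
  rw [hz]
  refine (three95 hK hB hs hs1 hρ hA hX0m hXmm hq hz1).trans ?_
  obtain ⟨g, hg⟩ : ∃ g : ℝ × ℝ × ℝ → ℝ≥0∞, g = (Eb B ρ ε X0 Xm p q).indicator 1 := ⟨_, rfl⟩
  have hgm : Measurable g := by
    rw [hg]
    exact measurable_one.indicator (Eb_meas B ρ ε X0 Xm p hq)
  rw [← hg]
  obtain ⟨V, hV⟩ : ∃ V : ℝ, V = C₀ * B ^ 2 * (ε / ρ ^ 4) ^ ((1 : ℝ) / 8) := ⟨_, rfl⟩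
  have hV0 : 0 ≤ V := by rw [hV]; positivity
  -- the inner integral
  have hAC : ∀ {X : ℝ}, ρ ≤ |Real.sin (2 * π * X)| → ρ ≤ |Real.cos (2 * π * X)| →
      2 * π * ρ ≤ |2 * π * Real.cos (2 * π * X) / Real.sin (2 * π * X)| ∧
      |2 * π * Real.cos (2 * π * X) / Real.sin (2 * π * X)| ≤ 2 * π / ρ := by
    intro X h1 h2
    have h3 := Real.abs_sin_le_one (2 * π * X)
    have h4 := Real.abs_cos_le_one (2 * π * X)
    have h5 : 0 < |Real.sin (2 * π * X)| := lt_of_lt_of_le hρ h1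
    have hpi := Real.pi_pos
    rw [abs_div, abs_mul, abs_of_pos (show (0 : ℝ) < 2 * π by positivity)]
    constructor
    · rw [le_div_iff₀ h5]
      calc 2 * π * ρ * |Real.sin (2 * π * X)| ≤ 2 * π * ρ * 1 := by gcongr
        _ = 2 * π * ρ := mul_one _
        _ ≤ _ := by gcongr
    · calc 2 * π * |Real.cos (2 * π * X)| / |Real.sin (2 * π * X)| ≤ 2 * π * 1 / ρ := by gcongr
        _ = 2 * π / ρ := by rw [mul_one]
  have hin : ∀ x2 x3 : ℝ, ∫⁻ x1 : ℝ, g (x1, x2, x3) ≤ ((Icc (-B) B).indicator 1 x2 : ℝ≥0∞) * ((Icc (-B) B).indicator 1 x3 * ENNReal.ofReal V) := by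
    intro x2 x3
    by_cases h : |x2| ≤ B ∧ |x3| ≤ B ∧ ρ ≤ |Real.sin (2 * π * x2)| ∧ ρ ≤ |Real.cos (2 * π * x2)|
    · obtain ⟨h1, h2, h3, h4⟩ := h
      rw [indicator_of_mem (show x2 ∈ Icc (-B) B from abs_le.1 h1), indicator_of_mem (show x3 ∈ Icc (-B) B from abs_le.1 h2)]
      simp only [Pi.one_apply, one_mul]
      obtain ⟨a1, a2⟩ := hAC h3 h4
      obtain ⟨a3, a4⟩ := hAC hz1 hz2
      obtain ⟨u1, u2⟩ := abs_le.1 h1
      obtain ⟨u3, u4⟩ := abs_le.1 h2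
      obtain ⟨u5, u6⟩ := hX0m
      obtain ⟨u7, u8⟩ := hXmm
      have h5 := hC p.1 p.2 (q ((x3 : UnitAddCircle), (x2 : UnitAddCircle))).1 (q ((x3 : UnitAddCircle), (x2 : UnitAddCircle))).2
        (2 * π * Real.cos (2 * π * x2) / Real.sin (2 * π * x2)) (2 * π * Real.cos (2 * π * X0) / Real.sin (2 * π * X0))
        (2 * X0 - Xm) (X0 + x2) (2 * x2 - x3) ρ ε hp (hqn _) hρ hρ1 a1 a2 a3 a4
        (abs_le.2 ⟨by linarith, by linarith⟩) (abs_le.2 ⟨by linarith, by linarith⟩) (abs_le.2 ⟨by linarith, by linarith⟩) hε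
      rw [hV]
      refine le_trans ?_ h5
      have hms : MeasurableSet {x1 : ℝ | (x1, x2, x3) ∈ Eb B ρ ε X0 Xm p q} :=
        (measurable_id.prodMk measurable_const) (Eb_meas B ρ ε X0 Xm p hq)
      have e1 : ∀ x1 : ℝ, g (x1, x2, x3) = {x1 : ℝ | (x1, x2, x3) ∈ Eb B ρ ε X0 Xm p q}.indicator 1 x1 := by
        intro x1
        rw [hg]
        by_cases hm : (x1, x2, x3) ∈ Eb B ρ ε X0 Xm p q
        · rw [indicator_of_mem hm, indicator_of_mem (by exact hm)]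
          rfl
        · rw [indicator_of_notMem hm, indicator_of_notMem (by exact hm)]
      rw [lintegral_congr e1, lintegral_indicator_one hms]
      refine measure_mono ?_
      rintro x1 ⟨m1, -, -, -, -, -, m2⟩
      exact ⟨abs_le.1 m1, m2⟩
    · have e1 : ∀ x1 : ℝ, g (x1, x2, x3) = 0 := by
        intro x1
        rw [hg]
        apply indicator_of_notMem
        rintro ⟨-, m2, m3, -, m5, m6, -⟩
        exact h ⟨m2, m3, m5, m6⟩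
      rw [lintegral_congr e1, lintegral_zero]
      exact zero_le
  have hswap : ∫⁻ x1 : ℝ, ∫⁻ x2 : ℝ, ∫⁻ x3 : ℝ, g (x1, x2, x3) = ∫⁻ x2 : ℝ, ∫⁻ x3 : ℝ, ∫⁻ x1 : ℝ, g (x1, x2, x3) := by
    have hG2 : Measurable fun r : ℝ × ℝ => ∫⁻ x3 : ℝ, g (r.1, r.2, x3) := by
      have h1 : Measurable fun r : (ℝ × ℝ) × ℝ => g (r.1.1, r.1.2, r.2) :=
        hgm.comp ((measurable_fst.comp measurable_fst).prodMk ((measurable_snd.comp measurable_fst).prodMk measurable_snd))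
      exact h1.lintegral_prod_right'
    rw [lintegral_lintegral_swap (f := fun x1 x2 : ℝ => ∫⁻ x3 : ℝ, g (x1, x2, x3)) hG2.aemeasurable]
    refine lintegral_congr fun x2 => ?_
    have h2 : Measurable fun r : ℝ × ℝ => g (r.1, x2, r.2) :=
      hgm.comp (measurable_fst.prodMk (measurable_const.prodMk measurable_snd))
    exact lintegral_lintegral_swap (f := fun x1 x3 : ℝ => g (x1, x2, x3)) h2.aemeasurable
  have htot : ∫⁻ x1 : ℝ, ∫⁻ x2 : ℝ, ∫⁻ x3 : ℝ, g (x1, x2, x3) ≤ ENNReal.ofReal ((2 * B) ^ 2 * V) := by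
    rw [hswap]
    have mi : Measurable fun x : ℝ => ((Icc (-B) B).indicator 1 x : ℝ≥0∞) := measurable_one.indicator measurableSet_Icc
    have hI : ∫⁻ x : ℝ, ((Icc (-B) B).indicator 1 x : ℝ≥0∞) = ENNReal.ofReal (2 * B) := by
      rw [lintegral_indicator_one measurableSet_Icc, Real.volume_Icc]
      congr 1
      ring
    refine (lintegral_mono fun x2 => lintegral_mono fun x3 => hin x2 x3).trans (le_of_eq ?_)
    have e1 : ∀ x2 : ℝ, ∫⁻ x3 : ℝ, ((Icc (-B) B).indicator 1 x2 : ℝ≥0∞) * ((Icc (-B) B).indicator 1 x3 * ENNReal.ofReal V) =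
        ((Icc (-B) B).indicator 1 x2 : ℝ≥0∞) * (ENNReal.ofReal (2 * B) * ENNReal.ofReal V) := by
      intro x2
      rw [lintegral_const_mul _ (mi.mul_const _), lintegral_mul_const _ mi, hI]
    rw [lintegral_congr e1, lintegral_mul_const _ mi, hI, ← ENNReal.ofReal_mul (by positivity), ← ENNReal.ofReal_mul (by positivity)]
    congr 1
    ring
  refine (mul_le_mul_right htot _).trans ?_
  rw [← ENNReal.ofReal_pow (by positivity), ← ENNReal.ofReal_mul (by positivity)]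
  apply ENNReal.ofReal_le_ofReal
  -- the final inequality
  have hr : (ε / ρ ^ 4) ^ ((1 : ℝ) / 8) ≤ (s * ρ)⁻¹ * ε ^ ((1 : ℝ) / 8) := by
    rw [div_eq_mul_inv, Real.mul_rpow hε.le (by positivity), mul_comm]
    have h1 : ((ρ ^ 4)⁻¹ : ℝ) ^ ((1 : ℝ) / 8) ≤ (s * ρ)⁻¹ := by
      have h2 : ((ρ ^ 4)⁻¹ : ℝ) ≤ ((s * ρ)⁻¹) ^ 8 := by
        rw [← inv_pow]
        have h3 : ρ⁻¹ ≤ (s * ρ)⁻¹ := by
          apply inv_anti₀ (by positivity)
          nlinarith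
        have h4 : 1 ≤ ρ⁻¹ := (one_le_inv₀ hρ).2 hρ1
        calc ρ⁻¹ ^ 4 ≤ ρ⁻¹ ^ 8 := pow_le_pow_right₀ h4 (by norm_num)
          _ ≤ _ := pow_le_pow_left₀ (by positivity) h3 8
      calc ((ρ ^ 4)⁻¹ : ℝ) ^ ((1 : ℝ) / 8) ≤ (((s * ρ)⁻¹) ^ 8) ^ ((1 : ℝ) / 8) :=
            Real.rpow_le_rpow (by positivity) h2 (by norm_num)
        _ = (s * ρ)⁻¹ := by
            rw [← Real.rpow_natCast, ← Real.rpow_mul (by positivity)]
            norm_num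
    gcongr
  have hB4 : B ^ 4 ≤ (28 * K) ^ 4 := pow_le_pow_left₀ (by linarith) (by rw [hB]; linarith) 4
  calc (s * ρ)⁻¹ ^ 3 * ((2 * B) ^ 2 * V) ≤ (s * ρ)⁻¹ ^ 3 * ((2 * B) ^ 2 * (C₀ * B ^ 2 * ((s * ρ)⁻¹ * ε ^ ((1 : ℝ) / 8)))) := by
        rw [hV]
        gcongr
    _ = 4 * B ^ 4 * C₀ * (s * ρ)⁻¹ ^ 4 * ε ^ ((1 : ℝ) / 8) := by ring
    _ ≤ 4 * (28 * K) ^ 4 * C₀ * (s * ρ)⁻¹ ^ 4 * ε ^ ((1 : ℝ) / 8) := by gcongr
    _ = _ := by ring

end Pool.Agent.Helper82.AN
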