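import Pool.Agent.Helper82.AN.SEig
import Pool.Agent.Helper82.QP.Tor
import Pool.Agent.Helper46.QP.Main

/-! Block AN-EIGOM: eigenfunctions on `om` are multiples of characters of the base. Compare `eigR` in `Helper46/QR/MainR.lean`.

If `om` is a null set nothing is to be done. `fib`: the volume of the fibre of `om` is invariant under `θ ↦ θ + α` (`stp_mp`, `om_inv`), so it is constant a.e. (`Pool.Agent.Helper82.QP.rot_erg`) and positive. `eig_om`: `h' = indicator of om times h` satisfies `h' ∘ F = ξ h'` a.e.; `eig_mod` (`Helper46/QP/Main.lean`): `h' = 0` a.e. or `|ξ| = 1`.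
Then `h' / (1 + |h'|)` as in `eigR`, `eig_fib`, `u (θ + α) = ξ u θ` a.e. because almost all fibres have positive volume, `Pool.Agent.Helper82.QP.rot_eig`. `lam_const`: `ξ = 1`: the character is trivial. `lim_fd`: `Fn_lim`, `ae_tor` and `liftn_eq` as in the last lines of `final` in `MainR.lean`
(this lemma is stated here with the definitions `QRO` of `Helper46/QR/Out.lean`). -/

set_option autoImplicit false
open MeasureTheory Real Set Filter Topology

namespace Pool.Agent.Helper82.AN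

open Pool.Agent.Helper18.UC (nn LL sh clm pt sqo lab rep toT cell)
open Pool.Agent.Helper46.QP (TT Td orb Mx va stp)

variable {d : ℕ}

theorem fib {α : Td d} (hind : ∀ k : Fin d → ℤ, k ≠ 0 → ∑ m, k m • α m ≠ 0) {f : Td d → ℝ} (hf : Measurable f)
    {L c : ℝ} (hA : ∀ θ, LL (f θ) ≤ L) (hv : volume (om α f c) ≠ 0) :
    ∀ᵐ θ : Td d, volume {z : TT | (θ, z) ∈ om α f c} ≠ 0 := by
  have hom := meas_om (α := α) hf c
  have hinv := om_inv (α := α) hA c
  have hφm : Measurable fun θ : Td d => volume {z : TT | (θ, z) ∈ om α f c} :=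
    measurable_measure_prodMk_left (ν := (volume : Measure TT)) hom
  have hφi : ∀ θ : Td d, volume {z : TT | (θ + α, z) ∈ om α f c} = volume {z : TT | (θ, z) ∈ om α f c} := by
    intro θ
    have e : {z : TT | (θ, z) ∈ om α f c} = stp ((f θ : ℝ) : ℂ) ⁻¹' {z : TT | (θ + α, z) ∈ om α f c} := by
      ext z
      have h1 : (θ, z) ∈ Fs α f ⁻¹' om α f c ↔ (θ, z) ∈ om α f c := by rw [hinv]
      exact h1.symm
    rw [e]
    exact ((Pool.Agent.Helper46.QP.stp_mp _).measure_preimage
      (measurable_prodMk_left hom).nullMeasurableSet).symm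
  set s : Set (Td d) := {θ | volume {z : TT | (θ, z) ∈ om α f c} = 0} with hs
  have hsm : MeasurableSet s := hφm (measurableSet_singleton 0)
  have hsi : (fun θ : Td d => θ + α) ⁻¹' s = s := by
    ext θ
    show volume {z : TT | (θ + α, z) ∈ om α f c} = 0 ↔ volume {z : TT | (θ, z) ∈ om α f c} = 0
    rw [hφi]
  have herg := Pool.Agent.Helper82.QP.rot_erg hind
  rcases herg.toPreErgodic.ae_empty_or_univ hsm hsi with h | h
  · have h1 := ae_eq_empty.1 h
    rw [ae_iff]
    simpa using h1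
  · exfalso
    apply hv
    rw [show (volume : Measure (Td d × TT)) = (volume : Measure (Td d)).prod (volume : Measure TT) from rfl,
      Measure.measure_prod_null hom]
    have h1 : ∀ᵐ θ : Td d, θ ∈ s := by
      have h2 := ae_eq_univ.1 h
      rw [ae_iff]
      exact h2
    filter_upwards [h1] with θ hθ
    exact hθ

theorem eig_om {α : Td d} (hind : ∀ k : Fin d → ℤ, k ≠ 0 → ∑ m, k m • α m ≠ 0) {f : Td d → ℝ} (hf : Measurable f)
    {L B c : ℝ} (hA : ∀ θ, LL (f θ) ≤ L) (hN : Num L B c) (ξ : ℂ) {h : Td d × TT → ℂ} (hm : Measurable h)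
    (hh : ∀ᵐ p, p ∈ om α f c → h (Fs α f p) = ξ * h p) :
    (∀ᵐ p, p ∈ om α f c → h p = 0) ∨ ∃ k : Fin d → ℤ, ∃ b : ℂ, fourier 1 (∑ m, k m • α m) = ξ ∧
      ∀ᵐ p : Td d × TT, p ∈ om α f c → h p = b * fourier 1 (∑ m, k m • p.1 m) := by
  have hom := meas_om (α := α) hf c
  have hinv := om_inv (α := α) hA c
  have hmp := Fs_mp (α := α) hf
  have hiff : ∀ p, Fs α f p ∈ om α f c ↔ p ∈ om α f c := by
    intro p
    have h1 : p ∈ Fs α f ⁻¹' om α f c ↔ p ∈ om α f c := by rw [hinv]
    exact h1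
  by_cases hv : volume (om α f c) = 0
  · left
    have : ∀ᵐ p, p ∉ om α f c := by
      rw [ae_iff]
      simpa using hv
    filter_upwards [this] with p hp ho
    exact absurd ho hp
  have hfib := fib hind hf hA hv
  set h' : Td d × TT → ℂ := (om α f c).indicator h with hh'
  have hm' : Measurable h' := hm.indicator hom
  have hon : ∀ p, p ∈ om α f c → h' p = h p := fun p hp => indicator_of_mem hp _
  have hoff : ∀ p, p ∉ om α f c → h' p = 0 := fun p hp => indicator_of_notMem hp _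
  have hF' : ∀ᵐ p, h' (Fs α f p) = ξ * h' p := by
    filter_upwards [hh] with p hp
    by_cases ho : p ∈ om α f c
    · rw [hon _ ((hiff p).2 ho), hon _ ho, hp ho]
    · rw [hoff _ (fun h => ho ((hiff p).1 h)), hoff _ ho, mul_zero]
  rcases Pool.Agent.Helper46.QP.eig_mod hmp hm' hF' with h0 | hξ
  · left
    filter_upwards [h0] with p hp ho
    rw [← hon p ho, hp]
  set g : Td d × TT → ℂ := fun p => h' p / ((1 + ‖h' p‖ : ℝ) : ℂ) with hg
  have hgm : Measurable g := hm'.div (Complex.measurable_ofReal.comp (measurable_const.add hm'.norm))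
  have hpos : ∀ p, (0 : ℝ) < 1 + ‖h' p‖ := fun p => by have := norm_nonneg (h' p); linarith
  have hgn : ∀ p, ‖g p‖ = ‖h' p‖ / (1 + ‖h' p‖) := by
    intro p
    simp only [hg]
    rw [norm_div, Complex.norm_real, Real.norm_eq_abs, abs_of_pos (hpos p)]
  have hg1 : ∀ p, ‖g p‖ < 1 := by
    intro p
    rw [hgn, div_lt_one (hpos p)]
    linarith
  have hgi : ∀ p, h' p = g p / ((1 - ‖g p‖ : ℝ) : ℂ) := by
    intro p
    have h1 : (1 - ‖g p‖ : ℝ) = 1 / (1 + ‖h' p‖) := by
      rw [hgn]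
      have := (hpos p).ne'
      field_simp
      ring
    rw [h1]
    simp only [hg]
    have h2 : ((1 + ‖h' p‖ : ℝ) : ℂ) ≠ 0 := by exact_mod_cast (hpos p).ne'
    push_cast at h2 ⊢
    field_simp
  have hgF : ∀ᵐ p, g (Fs α f p) = ξ * g p := by
    filter_upwards [hF'] with p hp
    simp only [hg]
    rw [hp, norm_mul, hξ, one_mul, mul_div_assoc]
  obtain ⟨u, hu, hgu⟩ := eig_fib hf hA hN hξ hgm ⟨1, fun p => (hg1 p).le⟩ (hgF.mono fun p hp _ => hp)
  have hgu' : ∀ᵐ p : Td d × TT, Fs α f p ∈ om α f c → g (Fs α f p) = u (Fs α f p).1 :=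
    hmp.quasiMeasurePreserving.ae hgu
  have h1 : ∀ᵐ p : Td d × TT, p ∈ om α f c → u (p.1 + α) = ξ * u p.1 := by
    filter_upwards [hgF, hgu, hgu'] with p a1 a2 a3 ho
    have a4 : (Fs α f p).1 = p.1 + α := rfl
    have a5 := a3 ((hiff p).2 ho)
    rw [a4] at a5
    rw [← a5, a1, a2 ho]
  have h2 : ∀ᵐ θ : Td d, u (θ + α) = ξ * u θ := by
    have h3 := Measure.ae_ae_of_ae_prod h1
    filter_upwards [h3, hfib] with θ hθ hpos
    by_contra hne
    apply hpos
    rw [ae_iff] at hθ
    refine measure_mono_null (fun z hz => ?_) hθ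
    simp only [Set.mem_ofPred_eq] at hz ⊢
    exact fun h => hne (h hz)
  rcases Pool.Agent.Helper82.QP.rot_eig hind ξ u hu h2 with h3 | ⟨k, b, hk, hb⟩
  · left
    have h4 : ∀ᵐ p : Td d × TT, u p.1 = 0 := Measure.quasiMeasurePreserving_fst.ae h3
    filter_upwards [hgu, h4] with p a1 a2 ho
    rw [← hon p ho, hgi, a1 ho, a2, zero_div]
  · right
    refine ⟨k, b / ((1 - ‖b‖ : ℝ) : ℂ), hk, ?_⟩
    have h4 : ∀ᵐ p : Td d × TT, u p.1 = b * fourier 1 (∑ m, k m • p.1 m) := Measure.quasiMeasurePreserving_fst.ae hb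
    filter_upwards [hgu, h4] with p a1 a2 ho
    have h5 : ‖(fourier 1 (∑ m, k m • p.1 m) : ℂ)‖ = 1 := by
      rw [fourier_apply]
      exact Circle.norm_coe _
    have h6 : ‖g p‖ = ‖b‖ := by rw [a1 ho, a2, norm_mul, h5, mul_one]
    rw [← hon p ho, hgi, h6, a1 ho, a2]
    ring

theorem lam_const {α : Td d} (hind : ∀ k : Fin d → ℤ, k ≠ 0 → ∑ m, k m • α m ≠ 0) {f : Td d → ℝ} (hf : Measurable f)
    {L B c : ℝ} (hA : ∀ θ, LL (f θ) ≤ L) (hN : Num L B c) {lam : Td d × TT → ℝ} (hm : Measurable lam)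
    (hinv : ∀ᵐ p, lam (Fs α f p) = lam p) : ∃ Λ : ℝ, ∀ᵐ p, p ∈ om α f c → lam p = Λ := by
  have h1 : ∀ᵐ p, p ∈ om α f c → ((lam (Fs α f p) : ℝ) : ℂ) = 1 * ((lam p : ℝ) : ℂ) := by
    filter_upwards [hinv] with p hp _
    rw [hp, one_mul]
  rcases eig_om hind hf hA hN 1 (h := fun p => ((lam p : ℝ) : ℂ)) (Complex.measurable_ofReal.comp hm) h1 with
    h0 | ⟨k, b, hk, hb⟩
  · refine ⟨0, ?_⟩
    filter_upwards [h0] with p hp ho
    exact_mod_cast hp ho
  · have hk0 : k = 0 := by
      by_contra hne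
      apply hind k hne
      rw [fourier_one] at hk
      have h2 : (∑ m, k m • α m).toCircle = 1 := by
        ext
        rw [hk]
        rfl
      rw [← AddCircle.toCircle_zero (T := (1 : ℝ))] at h2
      exact AddCircle.injective_toCircle one_ne_zero h2
    refine ⟨b.re, ?_⟩
    filter_upwards [hb] with p hp ho
    have h3 := hp ho
    rw [hk0] at h3
    simp only [Pi.zero_apply, zero_smul, Finset.sum_const_zero, fourier_eval_zero, mul_one] at h3
    rw [← h3, Complex.ofReal_re]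

end Pool.Agent.Helper82.AN
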