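import Pool.Agent.Helper82.AN.Eta

/-! Block AN-GEV: derivatives of the noise (real analytic for `γ = 1`, entire for `γ > 1`, Gevrey for `γ < 1`).

For a.e. `w`: `|w i| ≤ C exp (‖i.1‖^γ / 4)` (the mean of `∑ exp (-‖k‖^γ / 4) |w k|` is finite). The lift of `bas i` is `cos` or `sin` of `2π k·x`; its `n`-th derivative has norm at most `(2π ∑ |k_m|)^n ≤ (2π d ‖k‖)^n` (composition of a linear map with `cos`,
`sin`: `iteratedFDeriv` of `x ↦ φ (ℓ x)`, `ContinuousLinearMap.iteratedFDeriv_comp_right`, norm at most `‖ℓ‖^n |φ^(n)|`). `(2π d r)^n exp (-r^γ / 4) ≤ R^n n!^(1/γ)`: `r^n = ((r^γ)^(n/γ)`, `y^m e^{-y/4} ≤ (4 m/e)^m`. Sum with `exp (-r^γ / 4)` left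
(`contDiff_tsum`, `iteratedFDeriv_tsum`). Compare `nz_smooth`, `nz_bd` (`Helper46/QP/Smooth.lean`, `Helper82/QR/Fin.lean`) and the Gevrey bounds in `Helper18/HA/Gev.lean`. -/

set_option autoImplicit false
open MeasureTheory Real Set
open scoped ENNReal

namespace Pool.Agent.Helper82.AN

open Pool.Agent.Helper46.QP (TT Td dl)

variable {d : ℕ}

/-- the lift to `ℝ^d` of a function on the torus -/
def lfA (f : Td d → ℝ) (x : Fin d → ℝ) : ℝ := f fun m => (x m : UnitAddCircle)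

private theorem sc34 (n : ℕ) : ∀ y : ℝ, |iteratedDeriv n Real.sin y| ≤ 1 ∧ |iteratedDeriv n Real.cos y| ≤ 1 := by
  induction n with
  | zero =>
    intro y
    rw [iteratedDeriv_zero, iteratedDeriv_zero]
    exact ⟨Real.abs_sin_le_one y, Real.abs_cos_le_one y⟩
  | succ n ih =>
    intro y
    rw [Real.iteratedDeriv_add_one_sin, Real.iteratedDeriv_add_one_cos, Pi.neg_apply, abs_neg]
    exact ⟨(ih y).2, (ih y).1⟩

/-- the linear form `2π k·x` -/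
private noncomputable def lin34 (k : Fin d → ℤ) : (Fin d → ℝ) →L[ℝ] ℝ :=
  ∑ m, (2 * π * (k m : ℝ)) • ContinuousLinearMap.proj (R := ℝ) (φ := fun _ : Fin d => ℝ) m

private theorem lin_apply34 (k : Fin d → ℤ) (x : Fin d → ℝ) : lin34 k x = 2 * π * ∑ m, (k m : ℝ) * x m := by
  unfold lin34
  rw [sum_apply, Finset.mul_sum]
  refine Finset.sum_congr rfl fun m _ => ?_
  simp only [smul_apply, ContinuousLinearMap.proj_apply, smul_eq_mul]
  ring

private theorem lin_norm34 (k : Fin d → ℤ) : ‖lin34 k‖ ≤ 2 * π * d * ‖k‖ := by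
  refine ContinuousLinearMap.opNorm_le_bound _ (by positivity) fun x => ?_
  rw [lin_apply34, norm_mul, Real.norm_of_nonneg (by positivity)]
  have h1 : ‖∑ m, (k m : ℝ) * x m‖ ≤ ∑ _m : Fin d, ‖k‖ * ‖x‖ := by
    refine (norm_sum_le _ _).trans (Finset.sum_le_sum fun m _ => ?_)
    rw [norm_mul]
    refine mul_le_mul ?_ (norm_le_pi_norm x m) (norm_nonneg _) (norm_nonneg _)
    have h2 := norm_le_pi_norm k m
    rw [Int.norm_eq_abs] at h2
    rw [Real.norm_eq_abs]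
    exact h2
  rw [Finset.sum_const, Finset.card_univ, Fintype.card_fin, nsmul_eq_mul] at h1
  calc 2 * π * ‖∑ m, (k m : ℝ) * x m‖ ≤ 2 * π * (d * (‖k‖ * ‖x‖)) := mul_le_mul_of_nonneg_left h1 (by positivity)
    _ = 2 * π * d * ‖k‖ * ‖x‖ := by ring

private theorem bas_lift34 (i : Ik d) (x : Fin d → ℝ) :
    lfA (bas i) x = if i.2 = 0 then Real.cos (lin34 i.1 x) else Real.sin (lin34 i.1 x) := by
  unfold lfA bas
  have h1 : (∑ m, i.1 m • ((x m : ℝ) : UnitAddCircle)) = ((∑ m, (i.1 m : ℝ) * x m : ℝ) : UnitAddCircle) := by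
    rw [← QuotientAddGroup.mk'_apply (AddSubgroup.zmultiples (1 : ℝ)), map_sum]
    refine Finset.sum_congr rfl fun m _ => ?_
    rw [← zsmul_eq_mul, map_zsmul]
    rfl
  have h2 : (fourier 1 (∑ m, i.1 m • ((x m : ℝ) : UnitAddCircle)) : ℂ) = Complex.exp ((lin34 i.1 x : ℝ) * Complex.I) := by
    rw [h1, fourier_coe_apply, lin_apply34]
    congr 1
    push_cast
    ring
  rw [h2, Complex.exp_ofReal_mul_I_re, Complex.exp_ofReal_mul_I_im]

private theorem bas_smooth34 (i : Ik d) (n : ℕ) : ContDiff ℝ n (lfA (bas i)) := by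
  have h1 : lfA (bas i) = fun x => if i.2 = 0 then Real.cos (lin34 i.1 x) else Real.sin (lin34 i.1 x) :=
    funext (bas_lift34 i)
  rw [h1]
  by_cases h : i.2 = 0
  · simp only [h, if_true]
    exact Real.contDiff_cos.comp (lin34 i.1).contDiff
  · simp only [h, if_false]
    exact Real.contDiff_sin.comp (lin34 i.1).contDiff

private theorem comp_bd34 {φ : ℝ → ℝ} (hφ : ∀ n : ℕ, ContDiff ℝ n φ) (hb : ∀ (n : ℕ) (y : ℝ), |iteratedDeriv n φ y| ≤ 1)
    (ℓ : (Fin d → ℝ) →L[ℝ] ℝ) (n : ℕ) (x : Fin d → ℝ) : ‖iteratedFDeriv ℝ n (fun x => φ (ℓ x)) x‖ ≤ ‖ℓ‖ ^ n := by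
  have h1 := ContinuousLinearMap.iteratedFDeriv_comp_right ℓ (hφ n) x (le_refl (n : WithTop ℕ∞))
  have h2 : (fun x => φ (ℓ x)) = φ ∘ ℓ := rfl
  rw [h2, h1]
  refine (ContinuousMultilinearMap.norm_compContinuousLinearMap_le _ _).trans ?_
  rw [Finset.prod_const, Finset.card_univ, Fintype.card_fin, norm_iteratedFDeriv_eq_norm_iteratedDeriv, Real.norm_eq_abs]
  calc |iteratedDeriv n φ (ℓ x)| * ‖ℓ‖ ^ n ≤ 1 * ‖ℓ‖ ^ n := mul_le_mul_of_nonneg_right (hb n _) (by positivity)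
    _ = _ := one_mul _

private theorem bas_bd34 (i : Ik d) (n : ℕ) (x : Fin d → ℝ) :
    ‖iteratedFDeriv ℝ n (lfA (bas i)) x‖ ≤ (2 * π * d * ‖i.1‖) ^ n := by
  have h1 : lfA (bas i) = fun x => if i.2 = 0 then Real.cos (lin34 i.1 x) else Real.sin (lin34 i.1 x) :=
    funext (bas_lift34 i)
  rw [h1]
  have h2 : ‖lin34 i.1‖ ^ n ≤ (2 * π * d * ‖i.1‖) ^ n := pow_le_pow_left₀ (norm_nonneg _) (lin_norm34 i.1) n
  refine le_trans ?_ h2
  by_cases h : i.2 = 0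
  · simp only [h, if_true]
    exact comp_bd34 (fun n => Real.contDiff_cos) (fun n y => (sc34 n y).2) _ n x
  · simp only [h, if_false]
    exact comp_bd34 (fun n => Real.contDiff_sin) (fun n y => (sc34 n y).1) _ n x

/-- `r ^ n ≤ (2/γ)^(n/γ) n!^(1/γ) exp (r^γ / 2)` -/
private theorem pow_exp34 {γ : ℝ} (hγ : 0 < γ) {r : ℝ} (hr : 0 ≤ r) (n : ℕ) :
    r ^ n ≤ (((2 / γ) ^ (1 / γ)) ^ n) * (n.factorial : ℝ) ^ (1 / γ) * Real.exp (r ^ γ / 2) := by
  have hy : 0 ≤ r ^ γ := Real.rpow_nonneg hr γ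
  have h1 : (γ / 2 * r ^ γ) ^ n ≤ (n.factorial : ℝ) * Real.exp (γ / 2 * r ^ γ) := by
    have h2 := Real.pow_div_factorial_le_exp (γ / 2 * r ^ γ) (by positivity) n
    rw [div_le_iff₀ (by positivity)] at h2
    linarith
  have h3 : (r ^ γ) ^ n ≤ (2 / γ) ^ n * (n.factorial : ℝ) * Real.exp (γ / 2 * r ^ γ) := by
    have h4 : (r ^ γ) ^ n = (2 / γ) ^ n * (γ / 2 * r ^ γ) ^ n := by
      rw [← mul_pow]
      congr 1
      field_simp
    rw [h4, mul_assoc]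
    exact mul_le_mul_of_nonneg_left h1 (by positivity)
  have h5 := Real.rpow_le_rpow (by positivity) h3 (show 0 ≤ 1 / γ by positivity)
  have h6 : ((r ^ γ) ^ n) ^ (1 / γ) = r ^ n := by
    rw [← Real.rpow_natCast (r ^ γ) n, ← Real.rpow_mul hr, ← Real.rpow_mul hr,
      show γ * (n : ℝ) * (1 / γ) = n by field_simp, Real.rpow_natCast]
  have h7 : ((2 / γ) ^ n * (n.factorial : ℝ) * Real.exp (γ / 2 * r ^ γ)) ^ (1 / γ) =
      (((2 / γ) ^ (1 / γ)) ^ n) * (n.factorial : ℝ) ^ (1 / γ) * Real.exp (r ^ γ / 2) := by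
    rw [Real.mul_rpow (by positivity) (Real.exp_pos _).le, Real.mul_rpow (by positivity) (by positivity), ← Real.exp_mul,
      ← Real.rpow_natCast (2 / γ) n, ← Real.rpow_natCast ((2 / γ) ^ (1 / γ)) n, ← Real.rpow_mul (by positivity),
      ← Real.rpow_mul (by positivity), mul_comm (n : ℝ) (1 / γ)]
    congr 2
    field_simp
  rw [h6, h7] at h5
  exact h5

private theorem half_sum34 {γ : ℝ} (hγ : 0 < γ) : Summable fun i : Ik d => Real.exp (-(‖i.1‖ ^ γ / 2)) := by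
  have h1 := (wt_sum (d := d) (γ := γ / 2) (by positivity)).mul_left (Real.exp (1 / 2))
  refine Summable.of_nonneg_of_le (fun i => (Real.exp_pos _).le) (fun i => ?_) h1
  unfold wt
  rw [← Real.exp_add]
  refine Real.exp_le_exp.2 ?_
  have hr : 0 ≤ ‖i.1‖ := norm_nonneg _
  have h2 : ‖i.1‖ ^ γ = (‖i.1‖ ^ (γ / 2)) ^ 2 := by
    rw [← Real.rpow_natCast, ← Real.rpow_mul hr]
    congr 1
    push_cast
    ring
  rw [h2]
  nlinarith [sq_nonneg (‖i.1‖ ^ (γ / 2) - 1)]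

private theorem coef34 {γ : ℝ} (hγ : 0 < γ) : ∀ᵐ w ∂lawL d, Summable fun i : Ik d => Real.exp (-(‖i.1‖ ^ γ / 2)) * |w i| := by
  have hm : ∀ i : Ik d, Measurable fun w : Ow d => ENNReal.ofReal (Real.exp (-(‖i.1‖ ^ γ / 2)) * |w i|) := fun i =>
    ((measurable_pi_apply i).abs.const_mul _).ennreal_ofReal
  have h1 : ∫⁻ w, ∑' i : Ik d, ENNReal.ofReal (Real.exp (-(‖i.1‖ ^ γ / 2)) * |w i|) ∂lawL d ≠ ∞ := by
    rw [lintegral_tsum fun i => (hm i).aemeasurable]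
    have h2 : ∀ i : Ik d, ∫⁻ w, ENNReal.ofReal (Real.exp (-(‖i.1‖ ^ γ / 2)) * |w i|) ∂lawL d ≤
        ENNReal.ofReal (Real.exp (-(‖i.1‖ ^ γ / 2))) := by
      intro i
      have h3 : ∀ w : Ow d, ENNReal.ofReal (Real.exp (-(‖i.1‖ ^ γ / 2)) * |w i|) =
          ENNReal.ofReal (Real.exp (-(‖i.1‖ ^ γ / 2))) * ENNReal.ofReal |w i| := fun w =>
        ENNReal.ofReal_mul (Real.exp_pos _).le
      simp_rw [h3]
      rw [lintegral_const_mul _ ((measurable_pi_apply i).abs.ennreal_ofReal),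
        law_coord i (F := fun x => ENNReal.ofReal |x|) (measurable_id.abs.ennreal_ofReal)]
      calc ENNReal.ofReal (Real.exp (-(‖i.1‖ ^ γ / 2))) * ∫⁻ x, ENNReal.ofReal |x| ∂lap ≤
            ENNReal.ofReal (Real.exp (-(‖i.1‖ ^ γ / 2))) * 1 := by gcongr; exact lap_abs
        _ = _ := mul_one _
    refine ne_top_of_le_ne_top ?_ (ENNReal.tsum_le_tsum h2)
    rw [← ENNReal.ofReal_tsum_of_nonneg (fun i => (Real.exp_pos _).le) (half_sum34 hγ)]
    exact ENNReal.ofReal_ne_top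
  filter_upwards [ae_lt_top (Measurable.ennreal_tsum hm) h1] with w hw
  have h4 := ENNReal.summable_toReal hw.ne
  refine h4.congr fun i => ?_
  rw [ENNReal.toReal_ofReal (by positivity)]

theorem eta_gev {γ : ℝ} (hγ : 0 < γ) : ∀ᵐ w ∂lawL d, ∃ R : ℝ, (∀ n : ℕ, ContDiff ℝ n (lfA (eta γ w))) ∧
    ∀ (n : ℕ) (x : Fin d → ℝ), ‖iteratedFDeriv ℝ n (lfA (eta γ w)) x‖ ≤ R ^ (n + 1) * (n.factorial : ℝ) ^ (1 / γ) := by
  filter_upwards [coef34 (d := d) hγ] with w hw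
  obtain ⟨S, hS⟩ : ∃ S : ℝ, S = ∑' i : Ik d, Real.exp (-(‖i.1‖ ^ γ / 2)) * |w i| := ⟨_, rfl⟩
  obtain ⟨R₀, hR₀⟩ : ∃ R₀ : ℝ, R₀ = 2 * π * d * (2 / γ) ^ (1 / γ) := ⟨_, rfl⟩
  have hS0 : 0 ≤ S := by rw [hS]; exact tsum_nonneg fun i => by positivity
  have hR0 : 0 ≤ R₀ := by rw [hR₀]; positivity
  obtain ⟨v, hv⟩ : ∃ v : ℕ → Ik d → ℝ, v = fun n i => (R₀ ^ n * (n.factorial : ℝ) ^ (1 / γ)) * (Real.exp (-(‖i.1‖ ^ γ / 2)) * |w i|) := ⟨_, rfl⟩
  have hvs : ∀ n, Summable (v n) := by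
    intro n
    rw [hv]
    exact hw.mul_left _
  have hf : lfA (eta γ w) = fun x => ∑' i : Ik d, (wt γ i * w i) • lfA (bas i) x := rfl
  have hsm : ∀ (N : ℕ) (i : Ik d), ContDiff ℝ N fun x => (wt γ i * w i) • lfA (bas i) x := fun N i => (bas_smooth34 i N).const_smul _
  have hbd : ∀ (n : ℕ) (i : Ik d) (x : Fin d → ℝ), ‖iteratedFDeriv ℝ n (fun x => (wt γ i * w i) • lfA (bas i) x) x‖ ≤ v n i := by
    intro n i x
    have h1 : iteratedFDeriv ℝ n (fun x => (wt γ i * w i) • lfA (bas i) x) x = (wt γ i * w i) • iteratedFDeriv ℝ n (lfA (bas i)) x :=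
      iteratedFDeriv_const_smul_apply' (bas_smooth34 i n).contDiffAt
    rw [h1, norm_smul, norm_mul, Real.norm_eq_abs, Real.norm_eq_abs, abs_of_pos (wt_pos γ i)]
    have h2 := bas_bd34 i n x
    have h3 := pow_exp34 hγ (norm_nonneg i.1) n
    have h4 : (2 * π * d * ‖i.1‖) ^ n ≤ R₀ ^ n * (n.factorial : ℝ) ^ (1 / γ) * Real.exp (‖i.1‖ ^ γ / 2) := by
      rw [mul_pow (2 * π * (d : ℝ)) ‖i.1‖ n, hR₀, mul_pow (2 * π * (d : ℝ)) ((2 / γ) ^ (1 / γ)) n]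
      calc (2 * π * d) ^ n * ‖i.1‖ ^ n ≤ (2 * π * d) ^ n * ((((2 / γ) ^ (1 / γ)) ^ n) * (n.factorial : ℝ) ^ (1 / γ) * Real.exp (‖i.1‖ ^ γ / 2)) :=
            mul_le_mul_of_nonneg_left h3 (by positivity)
        _ = _ := by ring
    have h5 : wt γ i * Real.exp (‖i.1‖ ^ γ / 2) = Real.exp (-(‖i.1‖ ^ γ / 2)) := by
      unfold wt
      rw [← Real.exp_add]
      congr 1
      ring
    have h6 := mul_le_mul_of_nonneg_left (h2.trans h4) (show 0 ≤ wt γ i * |w i| from mul_nonneg (wt_pos γ i).le (abs_nonneg _))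
    refine h6.trans (le_of_eq ?_)
    rw [hv]
    dsimp only
    rw [← h5]
    ring
  refine ⟨max (max R₀ S) 1, fun N => ?_, fun n x => ?_⟩
  · rw [hf]
    have := contDiff_tsum (𝕜 := ℝ) (N := ((N : ℕ) : ℕ∞)) (f := fun (i : Ik d) x => (wt γ i * w i) • lfA (bas i) x) (v := v)
      (fun i => by exact_mod_cast hsm N i) (fun k _ => hvs k) (fun k i x _ => hbd k i x)
    exact_mod_cast this
  · rw [hf]
    have h1 := iteratedFDeriv_tsum_apply (𝕜 := ℝ) (N := ((n : ℕ) : ℕ∞)) (f := fun (i : Ik d) x => (wt γ i * w i) • lfA (bas i) x) (v := v)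
      (fun i => by exact_mod_cast hsm n i) (fun k _ => hvs k) (fun k i x _ => hbd k i x) (k := n) le_rfl x
    rw [h1]
    have h2 : ‖∑' i : Ik d, iteratedFDeriv ℝ n (fun x => (wt γ i * w i) • lfA (bas i) x) x‖ ≤ ∑' i, v n i :=
      tsum_of_norm_bounded (hvs n).hasSum fun i => hbd n i x
    refine h2.trans ?_
    have h3 : ∑' i, v n i = (R₀ ^ n * (n.factorial : ℝ) ^ (1 / γ)) * S := by
      rw [hv, hS]
      exact tsum_mul_left
    rw [h3]
    have h4 : R₀ ^ n ≤ (max (max R₀ S) 1) ^ n := pow_le_pow_left₀ hR0 ((le_max_left _ _).trans (le_max_left _ _)) n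
    have h5 : S ≤ max (max R₀ S) 1 := (le_max_right _ _).trans (le_max_left _ _)
    have h6 : 0 ≤ (n.factorial : ℝ) ^ (1 / γ) := by positivity
    calc R₀ ^ n * (n.factorial : ℝ) ^ (1 / γ) * S = R₀ ^ n * S * (n.factorial : ℝ) ^ (1 / γ) := by ring
      _ ≤ (max (max R₀ S) 1) ^ n * max (max R₀ S) 1 * (n.factorial : ℝ) ^ (1 / γ) :=
          mul_le_mul_of_nonneg_right (mul_le_mul h4 h5 hS0 (by positivity)) h6
      _ = _ := by rw [pow_succ]

end Pool.Agent.Helper82.AN
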