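import Pool.Agent.Helper82.AN.SDefs
import Pool.Agent.Helper46.QR.MainR

/-! Block AN-LIMFD: the exponent of the lifts. `Fn_lim`, `ae_tor` (`Helper46/QP/Link.lean`), `liftn_eq` and the last lines of `final` in `Helper46/QR/MainR.lean`;
`tor z = ((z.1 : UnitAddCircle), (z.2 : UnitAddCircle))`. -/

set_option autoImplicit false
open MeasureTheory Real Set Filter Topology

namespace Pool.Agent.Helper82.AN

open Pool.Agent.Helper18.UC (nn)
open Pool.Agent.Helper46 (QRO.skew QRO.liftn)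
open Pool.Agent.Helper46.QP (TT Td orb Mx va stp)

variable {d : ℕ}

theorem skew_eq (α : Td d) (f : Td d → ℝ) : Pool.Agent.Helper46.QRO.skew α f = Fs α f := by
  funext p
  unfold Pool.Agent.Helper46.QRO.skew Fs
  rw [Pool.Agent.Helper46.QR.std_eq]

theorem lim_fd {α : Td d} {f : Td d → ℝ} {S : Set (Td d × TT)} {Λ : ℝ}
    (h : ∀ᵐ p : Td d × TT, p ∈ S → Tendsto (fun n : ℕ => Real.log (gN α f n p) / n) atTop (𝓝 Λ)) :
    ∀ᵐ θ : Td d, ∀ᵐ z : ℝ × ℝ, (θ, ((z.1 : UnitAddCircle), (z.2 : UnitAddCircle))) ∈ S →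
      Tendsto (fun n : ℕ => Real.log ‖fderiv ℝ (Pool.Agent.Helper46.QRO.liftn α f θ n) z‖ / n) atTop (𝓝 Λ) := by
  have h1 : ∀ᵐ p : Td d × TT, p ∈ S →
      Tendsto (fun n : ℕ => Real.log (nn (Mx (cA (sq α f p.1)) p.2 n)) / n) atTop (𝓝 Λ) := h
  have h2 := Measure.ae_ae_of_ae_prod h1
  filter_upwards [h2] with θ hθ
  filter_upwards [Pool.Agent.Helper46.QP.ae_tor hθ] with z hz hzS
  have e : (fun n : ℕ => Real.log ‖fderiv ℝ (Pool.Agent.Helper46.QRO.liftn α f θ n) z‖ / n) =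
      fun n : ℕ => Real.log ‖fderiv ℝ (Pool.Agent.Helper46.QP.Fn (cA (sq α f θ)) n) z‖ / n := by
    funext n
    rw [Pool.Agent.Helper46.QR.liftn_eq]
    rfl
  rw [e]
  exact Pool.Agent.Helper46.QP.Fn_lim (hz hzS)

end Pool.Agent.Helper82.AN
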