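import Pool.Agent.Helper82.AN.Defs

/-! Project AN (MP_9ee088_an): the nondegeneracy condition for `a g + q V`. -/

set_option autoImplicit false
open MeasureTheory Real Set

namespace Pool.Agent.Helper82.AN

open Pool.Agent.Helper46.QP (TT Td)

variable {d : ℕ}

theorem nd_I {g V : Td d → ℝ} {c Rg H S₁ a q lam : ℝ}
    (hg : ∀ t : ℝ, 0 < t → volume {θ | |g θ| < t} ≤ ENNReal.ofReal (Rg * t ^ c)) (hH : 0 ≤ H) (hV : ∀ θ, |V θ| ≤ H)
    (hS : 1 ≤ S₁) (hq : |q| ≤ 1) (ha : 0 < |a|) (h1 : |a| ≤ lam) (h2 : lam ≤ S₁ * |a|) :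
    ND (fun θ => a * g θ + q * V θ) lam c (Rg * (S₁ * (1 + H)) ^ c) := by
  intro t ht
  have hlam : 0 < lam := ha.trans_le h1
  have ht0 : 0 < t := (one_div_pos.2 hlam).trans_le ht
  have hS0 : 0 < S₁ := one_pos.trans_le hS
  have hb : 0 < S₁ * (1 + H) := by positivity
  have h3 : 1 ≤ t * lam := by
    rw [div_le_iff₀ hlam] at ht
    exact ht
  have h4 : {θ : Td d | |a * g θ + q * V θ| < t * lam} ⊆ {θ | |g θ| < S₁ * (1 + H) * t} := by
    intro θ hθ
    simp only [mem_ofPred_eq] at hθ ⊢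
    have e1 : |a| * |g θ| ≤ |a * g θ + q * V θ| + |q * V θ| := by
      rw [← abs_mul]
      have := abs_add_le (a * g θ + q * V θ) (-(q * V θ))
      rw [abs_neg] at this
      simpa using this
    have e2 : |q * V θ| ≤ H := by
      rw [abs_mul]
      have := mul_le_mul hq (hV θ) (abs_nonneg _) zero_le_one
      linarith
    have e3 : H ≤ H * (t * lam) := by nlinarith
    have e4 : |a| * |g θ| < |a| * (S₁ * (1 + H) * t) := by
      calc |a| * |g θ| < t * lam + H * (t * lam) := by linarith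
        _ = (1 + H) * t * lam := by ring
        _ ≤ (1 + H) * t * (S₁ * |a|) := by gcongr
        _ = |a| * (S₁ * (1 + H) * t) := by ring
    exact lt_of_mul_lt_mul_left e4 ha.le
  refine (measure_mono h4).trans ((hg _ (by positivity)).trans (le_of_eq ?_))
  rw [Real.mul_rpow hb.le ht0.le]
  congr 1
  ring

theorem nd_II {g V : Td d → ℝ} {c c' Rg R H S₁ a q lam : ℝ} (hc : 0 < c) (hcl : c ≤ 1) (hc' : 0 < c') (hRg : 0 ≤ Rg) (hR : 0 ≤ R)
    (hg : ∀ t : ℝ, 0 < t → volume {θ | |g θ| < t} ≤ ENNReal.ofReal (Rg * t ^ c)) (hH : 0 ≤ H) (hV : ∀ θ, |V θ| ≤ H)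
    (hu : ∀ t : ℝ, 0 < t → ∀ s₀ : ℝ, |s₀| ≤ 1 / t → S₁ ≤ 1 / t →
      volume {θ | |s₀ * g θ + V θ| < t} ≤ ENNReal.ofReal (R * t ^ c'))
    (hS : 1 ≤ S₁) (hq : q ≠ 0) (h1 : max |a| |q| ≤ lam) (h2 : lam ≤ S₁ * max |a| |q|) :
    ND (fun θ => a * g θ + q * V θ) lam (min c c' / 2) (R + S₁ ^ 2 + 1 + Rg * (S₁ * (1 + H)) ^ c) := by
  intro t ht
  have hq0 : 0 < |q| := abs_pos.2 hq
  have hlam : 0 < lam := (hq0.trans_le (le_max_right _ _)).trans_le h1
  have ht0 : 0 < t := (one_div_pos.2 hlam).trans_le ht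
  have hS0 : 0 < S₁ := one_pos.trans_le hS
  have hb : 0 < S₁ * (1 + H) := by positivity
  have hc2 : 0 < min c c' / 2 := by positivity
  have hc1 : min c c' / 2 ≤ c / 2 := by
    have := min_le_left c c'
    linarith
  have hc1' : min c c' / 2 ≤ c' / 2 := by
    have := min_le_right c c'
    linarith
  have hRR : 0 ≤ Rg * (S₁ * (1 + H)) ^ c := by positivity
  have htc : 0 < t ^ (min c c' / 2) := Real.rpow_pos_of_pos ht0 _
  -- large t
  rcases le_total 1 t with ht1 | ht1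
  · calc volume {θ : Td d | |a * g θ + q * V θ| < t * lam} ≤ 1 := prob_le_one
      _ ≤ ENNReal.ofReal ((R + S₁ ^ 2 + 1 + Rg * (S₁ * (1 + H)) ^ c) * t ^ (min c c' / 2)) := by
          rw [← ENNReal.ofReal_one]
          apply ENNReal.ofReal_le_ofReal
          have e1 : 1 ≤ t ^ (min c c' / 2) := Real.one_le_rpow ht1 hc2.le
          have e2 : 1 ≤ R + S₁ ^ 2 + 1 + Rg * (S₁ * (1 + H)) ^ c := by nlinarith [sq_nonneg S₁]
          nlinarith
  set s₀ : ℝ := a / q with hs₀
  set m : ℝ := max |s₀| 1 with hm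
  have hm1 : 1 ≤ m := le_max_right _ _
  have hm0 : 0 < m := one_pos.trans_le hm1
  have hmq : max |a| |q| = |q| * m := by
    rw [hm, mul_max_of_nonneg _ _ hq0.le, mul_one, hs₀, abs_div, mul_div_cancel₀ _ hq0.ne']
  set T : ℝ := t * lam / |q| with hT
  have hT0 : 0 < T := by positivity
  have hTle : T ≤ t * (S₁ * m) := by
    rw [hT, div_le_iff₀ hq0]
    calc t * lam ≤ t * (S₁ * max |a| |q|) := by gcongr
      _ = t * (S₁ * m) * |q| := by
          rw [hmq]
          ring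
  have hset : {θ : Td d | |a * g θ + q * V θ| < t * lam} = {θ | |s₀ * g θ + V θ| < T} := by
    ext θ
    simp only [mem_ofPred_eq]
    have e1 : a * g θ + q * V θ = q * (s₀ * g θ + V θ) := by
      rw [hs₀]
      field_simp
    rw [e1, abs_mul, hT, lt_div_iff₀ hq0, mul_comm]
  rw [hset]
  rcases le_or_gt (T * (S₁ * m)) 1 with hA | hB
  · -- small T
    have e1 : S₁ ≤ 1 / T := by
      rw [le_div_iff₀ hT0]
      calc S₁ * T ≤ S₁ * T * m := le_mul_of_one_le_right (by positivity) hm1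
        _ = T * (S₁ * m) := by ring
        _ ≤ 1 := hA
    have e2 : |s₀| ≤ 1 / T := by
      rw [le_div_iff₀ hT0]
      calc |s₀| * T ≤ m * T := by
            gcongr
            exact le_max_left _ _
        _ ≤ S₁ * (m * T) := le_mul_of_one_le_left (by positivity) hS
        _ = T * (S₁ * m) := by ring
        _ ≤ 1 := hA
    have e3 : T ^ 2 ≤ t := by
      have a1 : T * T ≤ T * (t * (S₁ * m)) := by gcongr
      have a2 : T * (t * (S₁ * m)) = t * (T * (S₁ * m)) := by ring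
      have a3 : t * (T * (S₁ * m)) ≤ t * 1 := by gcongr
      nlinarith
    have e4 : T ^ c' ≤ t ^ (min c c' / 2) := by
      calc T ^ c' = (T ^ 2) ^ (c' / 2) := by
            rw [← Real.rpow_natCast, ← Real.rpow_mul hT0.le]
            congr 1
            push_cast
            ring
        _ ≤ t ^ (c' / 2) := Real.rpow_le_rpow (by positivity) e3 (by positivity)
        _ ≤ t ^ (min c c' / 2) := Real.rpow_le_rpow_of_exponent_ge ht0 ht1 hc1'
    refine (hu T hT0 s₀ e2 e1).trans (ENNReal.ofReal_le_ofReal ?_)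
    calc R * T ^ c' ≤ R * t ^ (min c c' / 2) := by gcongr
      _ ≤ (R + S₁ ^ 2 + 1 + Rg * (S₁ * (1 + H)) ^ c) * t ^ (min c c' / 2) := by
          apply mul_le_mul_of_nonneg_right _ htc.le
          nlinarith [sq_nonneg S₁]
  · -- large T
    have e0 : 1 < t * (S₁ * m) ^ 2 := by
      calc 1 < T * (S₁ * m) := hB
        _ ≤ t * (S₁ * m) * (S₁ * m) := by gcongr
        _ = t * (S₁ * m) ^ 2 := by ring
    rcases le_or_gt |s₀| 1 with hs | hs
    · have hm' : m = 1 := by
        rw [hm]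
        exact max_eq_right hs
      rw [hm', mul_one] at e0
      calc volume {θ : Td d | |s₀ * g θ + V θ| < T} ≤ 1 := prob_le_one
        _ ≤ ENNReal.ofReal ((R + S₁ ^ 2 + 1 + Rg * (S₁ * (1 + H)) ^ c) * t ^ (min c c' / 2)) := by
          rw [← ENNReal.ofReal_one]
          apply ENNReal.ofReal_le_ofReal
          have e1 : t ≤ t ^ (min c c' / 2) := by
            calc t = t ^ (1 : ℝ) := (Real.rpow_one t).symm
              _ ≤ t ^ (min c c' / 2) := Real.rpow_le_rpow_of_exponent_ge ht0 ht1 (by linarith)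
          have e2 : 1 < t * S₁ ^ 2 := e0
          calc (1 : ℝ) ≤ S₁ ^ 2 * t := by linarith
            _ ≤ S₁ ^ 2 * t ^ (min c c' / 2) := by gcongr
            _ ≤ _ := by
              apply mul_le_mul_of_nonneg_right _ htc.le
              nlinarith [sq_nonneg S₁]
    · have hm' : m = |s₀| := by
        rw [hm]
        exact max_eq_left hs.le
      have hs0 : 0 < |s₀| := one_pos.trans hs
      rw [hm'] at e0 hTle
      have e1 : 1 / |s₀| ≤ S₁ * t ^ (1 / 2 : ℝ) := by
        rw [div_le_iff₀ hs0]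
        have a1 : (1 : ℝ) ≤ (S₁ * t ^ (1 / 2 : ℝ) * |s₀|) ^ 2 := by
          have a2 : (t ^ (1 / 2 : ℝ)) ^ 2 = t := by
            rw [← Real.rpow_natCast, ← Real.rpow_mul ht0.le]
            norm_num
          calc (1 : ℝ) ≤ t * (S₁ * |s₀|) ^ 2 := e0.le
            _ = (t ^ (1 / 2 : ℝ)) ^ 2 * (S₁ * |s₀|) ^ 2 := by rw [a2]
            _ = _ := by ring
        have a3 : 0 ≤ S₁ * t ^ (1 / 2 : ℝ) * |s₀| := by positivity
        nlinarith
      have hth : t ≤ t ^ (1 / 2 : ℝ) := by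
        calc t = t ^ (1 : ℝ) := (Real.rpow_one t).symm
          _ ≤ t ^ (1 / 2 : ℝ) := Real.rpow_le_rpow_of_exponent_ge ht0 ht1 (by norm_num)
      have h4 : {θ : Td d | |s₀ * g θ + V θ| < T} ⊆ {θ | |g θ| < S₁ * (1 + H) * t ^ (1 / 2 : ℝ)} := by
        intro θ hθ
        simp only [mem_ofPred_eq] at hθ ⊢
        have b1 : |s₀| * |g θ| ≤ |s₀ * g θ + V θ| + |V θ| := by
          rw [← abs_mul]
          have := abs_add_le (s₀ * g θ + V θ) (-(V θ))
          rw [abs_neg] at this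
          simpa using this
        have b2 := hV θ
        have b3 : |g θ| < (T + H) / |s₀| := by
          rw [lt_div_iff₀ hs0]
          linarith
        refine b3.trans_le ?_
        rw [add_div]
        have b4 : T / |s₀| ≤ S₁ * t ^ (1 / 2 : ℝ) := by
          rw [div_le_iff₀ hs0]
          calc T ≤ t * (S₁ * |s₀|) := hTle
            _ ≤ t ^ (1 / 2 : ℝ) * (S₁ * |s₀|) := by gcongr
            _ = S₁ * t ^ (1 / 2 : ℝ) * |s₀| := by ring
        have b5 : H / |s₀| ≤ H * (S₁ * t ^ (1 / 2 : ℝ)) := by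
          calc H / |s₀| = H * (1 / |s₀|) := by ring
            _ ≤ _ := by gcongr
        calc T / |s₀| + H / |s₀| ≤ S₁ * t ^ (1 / 2 : ℝ) + H * (S₁ * t ^ (1 / 2 : ℝ)) := add_le_add b4 b5
          _ = S₁ * (1 + H) * t ^ (1 / 2 : ℝ) := by ring
      refine (measure_mono h4).trans ((hg _ (by positivity)).trans (ENNReal.ofReal_le_ofReal ?_))
      rw [Real.mul_rpow hb.le (by positivity), ← Real.rpow_mul ht0.le]
      have a1 : t ^ (1 / 2 * c : ℝ) ≤ t ^ (min c c' / 2) :=
        Real.rpow_le_rpow_of_exponent_ge ht0 ht1 (by linarith)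
      calc Rg * ((S₁ * (1 + H)) ^ c * t ^ (1 / 2 * c : ℝ)) = Rg * (S₁ * (1 + H)) ^ c * t ^ (1 / 2 * c : ℝ) := by ring
        _ ≤ Rg * (S₁ * (1 + H)) ^ c * t ^ (min c c' / 2) := by gcongr
        _ ≤ _ := by
          apply mul_le_mul_of_nonneg_right _ htc.le
          nlinarith [sq_nonneg S₁]

end Pool.Agent.Helper82.AN
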