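import Pool.Agent.Helper82.AN.SExpo
import Pool.Agent.Helper82.AN.Ndg

/-! Block AN-SBIG: measure of the component and value of the exponent.

`Ω = om α f s`, `s = 7/8 log lam0`, `m = volume.real Ωᶜ`, `v = va (f θ) x`, `J = Jf f`. `Ω` is invariant (`hinv`); `lam ≤ s` a.e. on `Ωᶜ`, `∫_Ω lam ≤ ∫_Ω log (|v| + 2)` (`lam_le`), so
`J - lam0^(-κ) ≤ ∫ lam ≤ ∫ log (|v| + 2) - ∫_{Ωᶜ} (log (|v| + 2) - s) ≤ J + (error of J_up) - (1/16) log lam0 * m + (s + (1/16) log lam0) volume {|v| < lam0^(15/16)}`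
(`log (|v| + 2) - s ≥ (1/16) log lam0` where `|v| ≥ lam0^(15/16)`; `nd_v` with `V = lam0^(15/16)`: the last volume is at most `C R lam0^(-c/16)`). So `m ≤ lam0^(-κ') / 2` for large `lam0`, `κ' = min κ (c / 16) / 2` or smaller (`< 1/8`). If `lam = Λ` a.e. on `Ω`: `Λ (1 - m) = ∫_Ω lam` is
between `J - lam0^(-κ) - s m` and `J + (error of J_up)`, `0 ≤ Λ ≤ log L`, and `J_pos`. `num_ok`: `L = 2π κ₁ lam0 + 4`, `KL L 100 = 400 √L`, `prp → (7/8 - 1/2)/(1 - 1/2) = 3/4`. -/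

set_option autoImplicit false
open MeasureTheory Real Set Filter Topology

namespace Pool.Agent.Helper82.AN

open Pool.Agent.Helper18.UC (nn LL)
open Pool.Agent.Helper46.QP (TT Td orb Mx va stp)

theorem num_ok {κ₁ : ℝ} (h1 : 0 < κ₁) : ∃ A₂ : ℝ, ∀ lam0 : ℝ, A₂ ≤ lam0 →
    Num (2 * π * (κ₁ * lam0) + 4) 100 (7 / 8 * Real.log lam0) := by
  have hpi := Real.pi_pos
  have hk : 0 < 2 * π * κ₁ := by positivity
  set C : ℝ := 2 * π * κ₁ + 4 with hC
  have hC4 : 4 < C := by linarith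
  set l : ℝ := Real.log (2 * π * κ₁) with hl
  set M : ℝ := 10 * (Real.log C + Real.log 400 + |l| + 1) with hM
  have hlC : 0 < Real.log C := Real.log_pos (by linarith)
  have hl400 : 0 < Real.log 400 := Real.log_pos (by norm_num)
  refine ⟨max 1 (max (640000 / (2 * π * κ₁)) (Real.exp M)), fun a ha => ?_⟩
  have ha1 : 1 ≤ a := (le_max_left _ _).trans ha
  have ha2 : 640000 / (2 * π * κ₁) ≤ a := ((le_max_left _ _).trans (le_max_right _ _)).trans ha
  have ha3 : Real.exp M ≤ a := ((le_max_right _ _).trans (le_max_right _ _)).trans ha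
  have ha0 : 0 < a := by linarith
  set ℓ : ℝ := Real.log a with hℓ
  have hMℓ : M ≤ ℓ := by
    rw [hℓ, Real.le_log_iff_exp_le ha0]
    exact ha3
  set L : ℝ := 2 * π * (κ₁ * a) + 4 with hL
  have hLk : 2 * π * κ₁ * a ≤ L := by rw [hL]; nlinarith
  have hLC : L ≤ C * a := by rw [hL, hC]; nlinarith
  have hL6 : 640000 ≤ L := by
    rw [div_le_iff₀ hk] at ha2
    linarith
  have hL0 : 0 < L := by linarith
  have hlogL1 : l + ℓ ≤ Real.log L := by
    rw [hl, hℓ, ← Real.log_mul hk.ne' ha0.ne']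
    exact Real.log_le_log (by positivity) hLk
  have hlogL2 : Real.log L ≤ Real.log C + ℓ := by
    rw [hℓ, ← Real.log_mul (by linarith) ha0.ne']
    exact Real.log_le_log hL0 hLC
  have hKL : KL L 100 = 400 * Real.sqrt L := by unfold KL; ring
  have hs : Real.sqrt L * Real.sqrt L = L := Real.mul_self_sqrt hL0.le
  have hs0 : 0 < Real.sqrt L := Real.sqrt_pos.mpr hL0
  have hs8 : 800 ≤ Real.sqrt L := by
    apply Real.le_sqrt_of_sq_le
    linarith
  have hlK : Real.log (KL L 100) = Real.log 400 + Real.log L / 2 := by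
    rw [hKL, Real.log_mul (by norm_num) hs0.ne', Real.log_sqrt hL0.le]
  have hal : -|l| ≤ l := neg_abs_le l
  have hal0 : 0 ≤ |l| := abs_nonneg l
  refine ⟨le_refl _, ?_, ?_, ?_, ?_⟩
  · rw [hKL]; nlinarith
  · rw [hlK]; linarith
  · linarith
  · unfold prp
    rw [hlK, lt_div_iff₀ (by linarith)]
    linarith

private lemma core1_1 {X : Type*} [MeasurableSpace X] {μ : Measure X} [IsProbabilityMeasure μ] {Ω S : Set X}
    (hΩ : MeasurableSet Ω) (hS : MeasurableSet S) {lam g : X → ℝ} (hl : Integrable lam μ) (hg : Integrable g μ)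
    (hg0 : ∀ p, 0 ≤ g p) {s t : ℝ} (ht : 0 ≤ t) (h1 : ∀ᵐ p ∂μ, p ∈ Ωᶜ → lam p ≤ s)
    (h2 : ∫ p in Ω, lam p ∂μ ≤ ∫ p in Ω, g p ∂μ) (h3 : ∀ p, p ∉ S → t ≤ g p) :
    ∫ p, lam p ∂μ ≤ ∫ p, g p ∂μ - (t - s) * μ.real Ωᶜ + t * μ.real S := by
  have e1 : ∫ p, lam p ∂μ = ∫ p in Ω, lam p ∂μ + ∫ p in Ωᶜ, lam p ∂μ := (integral_add_compl hΩ hl).symm
  have e2 : ∫ p, g p ∂μ = ∫ p in Ω, g p ∂μ + ∫ p in Ωᶜ, g p ∂μ := (integral_add_compl hΩ hg).symm
  have e3 : ∫ p in Ωᶜ, lam p ∂μ ≤ s * μ.real Ωᶜ := by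
    have h4 : ∫ p in Ωᶜ, lam p ∂μ ≤ ∫ _ in Ωᶜ, s ∂μ :=
      setIntegral_mono_on_ae hl.integrableOn (integrable_const s).integrableOn hΩ.compl h1
    rw [setIntegral_const, smul_eq_mul, mul_comm] at h4
    exact h4
  have e4 : t * μ.real Ωᶜ - t * μ.real S ≤ ∫ p in Ωᶜ, g p ∂μ := by
    have hi : Integrable (S.indicator fun _ : X => t) μ := (integrable_const t).indicator hS
    have h5 : ∫ p in Ωᶜ, (t - S.indicator (fun _ => t) p) ∂μ ≤ ∫ p in Ωᶜ, g p ∂μ := by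
      refine setIntegral_mono ((integrable_const t).sub hi).integrableOn hg.integrableOn ?_
      intro p
      by_cases hp : p ∈ S
      · simp [hp, hg0 p]
      · simpa [hp] using h3 p hp
    rw [integral_sub (integrable_const t).integrableOn hi.integrableOn, setIntegral_const, smul_eq_mul,
      setIntegral_indicator hS, setIntegral_const, smul_eq_mul] at h5
    have h6 : μ.real (Ωᶜ ∩ S) ≤ μ.real S := measureReal_mono inter_subset_right
    have h7 := mul_le_mul_of_nonneg_right h6 ht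
    linarith
  linarith

private lemma core2_1 {X : Type*} [MeasurableSpace X] {μ : Measure X} [IsProbabilityMeasure μ] {Ω : Set X}
    (hΩ : MeasurableSet Ω) {lam g : X → ℝ} (hl : Integrable lam μ) (hg : Integrable g μ)
    (hg0 : ∀ p, 0 ≤ g p) {s B Λ : ℝ} (h1 : ∀ᵐ p ∂μ, p ∈ Ωᶜ → lam p ≤ s)
    (h2 : ∫ p in Ω, lam p ∂μ ≤ ∫ p in Ω, g p ∂μ) (hb : ∀ p, 0 ≤ lam p ∧ lam p ≤ B) (hm : μ.real Ωᶜ < 1)
    (hΛ : ∀ᵐ p ∂μ, p ∈ Ω → lam p = Λ) :
    Λ ≤ ∫ p, g p ∂μ + B * μ.real Ωᶜ ∧ ∫ p, lam p ∂μ - s * μ.real Ωᶜ ≤ Λ := by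
  have hc : μ.real Ω = 1 - μ.real Ωᶜ := by
    rw [probReal_compl_eq_one_sub hΩ]
    ring
  have hpos : 0 < μ.real Ω := by linarith
  have hr : ∀ᵐ p ∂μ.restrict Ω, lam p = Λ := (ae_restrict_iff' hΩ).2 hΛ
  have hne : (ae (μ.restrict Ω)).NeBot := by
    rw [ae_neBot, Ne, Measure.restrict_eq_zero]
    intro h0
    rw [measureReal_def, h0, ENNReal.toReal_zero] at hpos
    exact lt_irrefl _ hpos
  obtain ⟨p, hp⟩ := hr.exists
  have hΛ0 : 0 ≤ Λ := hp ▸ (hb p).1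
  have hΛB : Λ ≤ B := hp ▸ (hb p).2
  have hm0 : 0 ≤ μ.real Ωᶜ := measureReal_nonneg
  have e0 : ∫ p in Ω, lam p ∂μ = Λ * μ.real Ω := by
    rw [integral_congr_ae hr, setIntegral_const, smul_eq_mul, mul_comm]
  have e1 : ∫ p, lam p ∂μ = ∫ p in Ω, lam p ∂μ + ∫ p in Ωᶜ, lam p ∂μ := (integral_add_compl hΩ hl).symm
  have e2 : ∫ p in Ω, g p ∂μ ≤ ∫ p, g p ∂μ := setIntegral_le_integral hg (Eventually.of_forall hg0)
  have e3 : ∫ p in Ωᶜ, lam p ∂μ ≤ s * μ.real Ωᶜ := by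
    have h4 : ∫ p in Ωᶜ, lam p ∂μ ≤ ∫ _ in Ωᶜ, s ∂μ :=
      setIntegral_mono_on_ae hl.integrableOn (integrable_const s).integrableOn hΩ.compl h1
    rw [setIntegral_const, smul_eq_mul, mul_comm] at h4
    exact h4
  rw [hc] at e0
  constructor
  · have h5 : Λ * μ.real Ωᶜ ≤ B * μ.real Ωᶜ := mul_le_mul_of_nonneg_right hΛB hm0
    nlinarith
  · have h6 : 0 ≤ Λ * μ.real Ωᶜ := mul_nonneg hΛ0 hm0
    nlinarith

private lemma num1_1 {e : ℝ} (he : 0 < e) {K κ₁ : ℝ} (hK : 1 ≤ K) (hκ₁ : 1 ≤ κ₁) : ∃ A₂ : ℝ, 1 ≤ A₂ ∧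
    ∀ x : ℝ, A₂ ≤ x → 100 ≤ x ∧ 3 ≤ Real.log x ∧ Real.log (2 * π * √x + 4) ≤ Real.log x ∧
      Real.log (2 * π * (κ₁ * x) + 4) ≤ 2 * Real.log x ∧ K * Real.log x * x ^ (-e) ≤ x ^ (-(e / 2)) := by
  refine ⟨max 100 (max (2 * π * κ₁ + 4) ((K * (4 / e)) ^ (4 / e))), le_trans (by norm_num) (le_max_left _ _),
    fun x hx => ?_⟩
  have h1 : 100 ≤ x := (le_max_left _ _).trans hx
  have h2 : 2 * π * κ₁ + 4 ≤ x := ((le_max_left _ _).trans (le_max_right _ _)).trans hx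
  have h3 : (K * (4 / e)) ^ (4 / e) ≤ x := ((le_max_right _ _).trans (le_max_right _ _)).trans hx
  have hx0 : 0 < x := by linarith
  have hlog : 3 ≤ Real.log x := by
    rw [Real.le_log_iff_exp_le hx0]
    have e3 : Real.exp 3 = Real.exp 1 ^ 3 := by
      rw [← Real.exp_nat_mul]
      norm_num
    rw [e3]
    have h4 := Real.exp_one_lt_d9
    have h5 : Real.exp 1 ^ 3 ≤ (3 : ℝ) ^ 3 := pow_le_pow_left₀ (Real.exp_pos 1).le (by linarith) 3
    linarith
  have hpi4 := Real.pi_lt_d2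
  have hpi3 := Real.pi_gt_three
  have hs : √x * √x = x := Real.mul_self_sqrt hx0.le
  have hs10 : 10 ≤ √x := Real.le_sqrt_of_sq_le (by linarith)
  refine ⟨h1, hlog, ?_, ?_, ?_⟩
  · refine Real.log_le_log (by positivity) ?_
    nlinarith
  · have h6 : 2 * Real.log x = Real.log (x ^ 2) := by
      rw [Real.log_pow]
      norm_num
    rw [h6]
    refine Real.log_le_log (by positivity) ?_
    nlinarith
  · have h7 : Real.log x ≤ x ^ (e / 4) / (e / 4) := Real.log_le_rpow_div hx0.le (by positivity)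
    have h8 : K * (4 / e) ≤ x ^ (e / 4) := by
      have h9 : ((K * (4 / e)) ^ (4 / e)) ^ (e / 4) ≤ x ^ (e / 4) :=
        Real.rpow_le_rpow (by positivity) h3 (by positivity)
      rw [← Real.rpow_mul (by positivity)] at h9
      have h10 : 4 / e * (e / 4) = 1 := by field_simp
      rwa [h10, Real.rpow_one] at h9
    have h11 : K * Real.log x ≤ x ^ (e / 2) := by
      calc K * Real.log x ≤ K * (x ^ (e / 4) / (e / 4)) := mul_le_mul_of_nonneg_left h7 (by linarith)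
        _ = K * (4 / e) * x ^ (e / 4) := by field_simp
        _ ≤ x ^ (e / 4) * x ^ (e / 4) := mul_le_mul_of_nonneg_right h8 (by positivity)
        _ = x ^ (e / 2) := by
          rw [← Real.rpow_add hx0]
          congr 1
          ring
    calc K * Real.log x * x ^ (-e) ≤ x ^ (e / 2) * x ^ (-e) := mul_le_mul_of_nonneg_right h11 (by positivity)
      _ = x ^ (-(e / 2)) := by
        rw [← Real.rpow_add hx0]
        congr 1
        ring

private lemma contg1 {d : ℕ} {f : Td d → ℝ} (hf : Continuous f) :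
    Continuous fun p : Td d × TT => va ((f p.1 : ℝ) : ℂ) p.2.1 := by
  unfold va Pool.Agent.Helper46.QP.ee
  refine continuous_const.add (continuous_const.mul (Complex.continuous_re.comp ?_))
  exact (Complex.continuous_ofReal.comp (hf.comp continuous_fst)).mul
    ((fourier 1).continuous.comp (continuous_fst.comp continuous_snd))

private lemma intg1 {d : ℕ} {f : Td d → ℝ} (hf : Continuous f) :
    Integrable (fun p : Td d × TT => Real.log (|va ((f p.1 : ℝ) : ℂ) p.2.1| + 2)) := by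
  have hcl : Continuous fun p : Td d × TT => Real.log (|va ((f p.1 : ℝ) : ℂ) p.2.1| + 2) :=
    Continuous.log ((contg1 hf).abs.add continuous_const) fun p => ne_of_gt (by
      have h1 := abs_nonneg (va ((f p.1 : ℝ) : ℂ) p.2.1)
      have h2 : (0 : ℝ) < |va ((f p.1 : ℝ) : ℂ) p.2.1| + 2 := by linarith
      exact h2)
  exact hcl.integrable_of_hasCompactSupport (HasCompactSupport.of_compactSpace _)

theorem big {κ c : ℝ} (hκ : 0 < κ) (hc : 0 < c) (hc1 : c < 1) : ∃ κ' : ℝ, 0 < κ' ∧ ∀ κ₁ R : ℝ, 1 ≤ κ₁ → 1 ≤ R →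
    ∃ A₂ : ℝ, 1 ≤ A₂ ∧ ∀ (d : ℕ) (α : Td d) (f : Td d → ℝ) (lam0 : ℝ) (lam : Td d × TT → ℝ), A₂ ≤ lam0 →
      Continuous f → (∀ θ, |f θ| ≤ κ₁ * lam0) → ND f lam0 c R → Measurable lam →
      (∀ p, 0 ≤ lam p ∧ lam p ≤ Real.log (2 * π * (κ₁ * lam0) + 4)) →
      (∀ᵐ p, Tendsto (fun n : ℕ => Real.log (gN α f n p) / n) atTop (𝓝 (lam p))) →
      (∀ᵐ p, p ∈ om α f (7 / 8 * Real.log lam0) ↔ 7 / 8 * Real.log lam0 < lam p) →
      Fs α f ⁻¹' om α f (7 / 8 * Real.log lam0) = om α f (7 / 8 * Real.log lam0) →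
      Jf f - lam0 ^ (-κ) ≤ ∫ p, lam p →
      volume.real (om α f (7 / 8 * Real.log lam0))ᶜ ≤ lam0 ^ (-κ') ∧
      ∀ Λ : ℝ, (∀ᵐ p, p ∈ om α f (7 / 8 * Real.log lam0) → lam p = Λ) →
        |Λ - ∫ θ, Real.posLog (π * f θ)| ≤ lam0 ^ (-κ') := by
  obtain ⟨C, hC, hnd⟩ := nd_v hc hc1
  set e : ℝ := min κ (c / 16) with he
  have he0 : 0 < e := lt_min hκ (by linarith)
  have heκ : e ≤ κ := min_le_left _ _
  have hec : e ≤ c / 16 := min_le_right _ _
  refine ⟨e / 2, by linarith, fun κ₁ R hκ₁ hR => ?_⟩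
  have hCR : 1 ≤ C * R := by nlinarith
  obtain ⟨A₂, hA₂, hnum⟩ := num1_1 he0 (K := 200 * (C * R)) (κ₁ := κ₁) (by linarith) hκ₁
  refine ⟨A₂, hA₂, ?_⟩
  intro d α f lam0 lam hlam hf hfb hND hmeas hb hl hom hinv hJ
  obtain ⟨h100, h3, hlg, hlL, hfin⟩ := hnum lam0 hlam
  have h0 : 0 < lam0 := by linarith
  have hone : 1 ≤ lam0 := by linarith
  set ℓ : ℝ := Real.log lam0 with hℓ
  set s : ℝ := 7 / 8 * ℓ with hs
  set Ω : Set (Td d × TT) := om α f s with hΩ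
  have hΩm : MeasurableSet Ω := meas_om hf.measurable s
  set E : ℝ := lam0 ^ (-e) with hE
  have hE0 : 0 < E := Real.rpow_pos_of_pos h0 _
  have hexp : ∀ y : ℝ, e ≤ y → lam0 ^ (-y) ≤ E := fun y hy =>
    Real.rpow_le_rpow_of_exponent_le hone (by linarith)
  have hLL : ∀ θ, LL (f θ) ≤ 2 * π * (κ₁ * lam0) + 4 := by
    intro θ
    unfold Pool.Agent.Helper18.UC.LL
    have := mul_le_mul_of_nonneg_left (hfb θ) (by positivity : (0 : ℝ) ≤ 2 * π)
    linarith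
  have hlint : Integrable lam := Integrable.of_bound hmeas.aestronglyMeasurable
    (Real.log (2 * π * (κ₁ * lam0) + 4)) (Eventually.of_forall fun p => by
      rw [Real.norm_eq_abs, abs_of_nonneg (hb p).1]
      exact (hb p).2)
  set g : Td d × TT → ℝ := fun p => Real.log (|va ((f p.1 : ℝ) : ℂ) p.2.1| + 2) with hg
  have hgint : Integrable g := intg1 hf
  have hg0 : ∀ p, 0 ≤ g p := fun p => Real.log_nonneg (by
    have := abs_nonneg (va ((f p.1 : ℝ) : ℂ) p.2.1)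
    linarith)
  have h1 : ∀ᵐ p, p ∈ Ωᶜ → lam p ≤ s := by
    filter_upwards [hom] with p hp hpc
    by_contra hcon
    exact hpc (hp.2 (not_le.1 hcon))
  have h2 : ∫ p in Ω, lam p ≤ ∫ p in Ω, g p := lam_le hf.measurable hLL hl hΩm hinv
  set V : ℝ := lam0 ^ (15 / 16 : ℝ) with hV
  have hV4 : 4 ≤ V := by
    have h5 : lam0 ^ (1 / 2 : ℝ) ≤ V := Real.rpow_le_rpow_of_exponent_le hone (by norm_num)
    have h6 : 10 ≤ lam0 ^ (1 / 2 : ℝ) := by
      rw [← Real.sqrt_eq_rpow]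
      exact Real.le_sqrt_of_sq_le (by linarith)
    linarith
  have hlV : Real.log V = 15 / 16 * ℓ := by rw [hV, Real.log_rpow h0]
  set S : Set (Td d × TT) := {p | |va ((f p.1 : ℝ) : ℂ) p.2.1| < V} with hS
  have hSm : MeasurableSet S := measurableSet_lt (contg1 hf).measurable.abs measurable_const
  have hSv : volume.real S ≤ C * R * E := by
    have h5 := hnd d f lam0 R V hf hone hR hND hV4
    have h6 : (V / lam0) ^ c ≤ E := by
      have h7 : V / lam0 = lam0 ^ (-(1 / 16) : ℝ) := by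
        rw [hV]
        nth_rewrite 2 [← Real.rpow_one lam0]
        rw [← Real.rpow_sub h0]
        norm_num
      rw [h7, ← Real.rpow_mul h0.le]
      have h8 : -(1 / 16) * c = -(c / 16) := by ring
      rw [h8]
      exact hexp _ hec
    have h9 : volume.real S ≤ C * R * (V / lam0) ^ c :=
      ENNReal.toReal_le_of_le_ofReal (by positivity) h5
    exact h9.trans (mul_le_mul_of_nonneg_left h6 (by linarith))
  have h4 : ∀ p, p ∉ S → 15 / 16 * ℓ ≤ g p := by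
    intro p hp
    have h5 : V ≤ |va ((f p.1 : ℝ) : ℂ) p.2.1| := not_lt.1 hp
    rw [← hlV]
    exact Real.log_le_log (by linarith) (by linarith)
  set m : ℝ := volume.real Ωᶜ with hm
  have hm0 : 0 ≤ m := measureReal_nonneg
  have hℓ0 : 0 ≤ 15 / 16 * ℓ := by linarith
  have hc1' := core1_1 hΩm hSm hlint hgint hg0 hℓ0 h1 h2 h4
  rw [← hm] at hc1'
  have hup := J_up hf hone hR hc hND
  have hup' : ∫ p, g p ≤ Jf f + 2 * E + R * E * ℓ := by
    have h5 : lam0 ^ (-(1 / 4) : ℝ) ≤ E := hexp _ (by linarith)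
    have h6 : lam0 ^ (-(c / 2)) ≤ E := hexp _ (by linarith)
    have h7 : R * lam0 ^ (-(c / 2)) ≤ R * E := mul_le_mul_of_nonneg_left h6 (by linarith)
    have h8 : R * lam0 ^ (-(c / 2)) * Real.log (2 * π * √lam0 + 4) ≤ R * E * ℓ :=
      mul_le_mul h7 hlg (Real.log_nonneg (by
        have : 0 ≤ 2 * π * √lam0 := by positivity
        linarith)) (by positivity)
    have h9 : ∫ p, g p ≤ Jf f + 2 * lam0 ^ (-(1 / 4) : ℝ) +
      R * lam0 ^ (-(c / 2)) * Real.log (2 * π * √lam0 + 4) := hup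
    linarith
  have hκE : lam0 ^ (-κ) ≤ E := hexp _ heκ
  have hCRE : E ≤ C * R * E := by nlinarith
  have hRE : R * E ≤ C * R * E := by
    have h5 : 0 ≤ (C - 1) * (R * E) := mul_nonneg (by linarith) (mul_nonneg (by linarith) hE0.le)
    nlinarith
  set D : ℝ := C * R * E with hD
  have hD0 : 0 < D := lt_of_lt_of_le hE0 hCRE
  have hfin' : 200 * ℓ * D ≤ lam0 ^ (-(e / 2)) := by
    refine le_trans (le_of_eq ?_) hfin
    rw [hD]
    ring
  have hq1 : lam0 ^ (-(e / 2)) ≤ 1 := Real.rpow_le_one_of_one_le_of_nonpos hone (by linarith)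
  have hℓD : 3 * D ≤ ℓ * D := mul_le_mul_of_nonneg_right h3 hD0.le
  have hℓE : ℓ * E ≤ ℓ * D := mul_le_mul_of_nonneg_left hCRE (by linarith)
  have hℓRE : ℓ * (R * E) ≤ ℓ * D := mul_le_mul_of_nonneg_left hRE (by linarith)
  -- the measure
  have hmE : m ≤ 48 * D := by
    have h5 : 1 / 16 * ℓ * m ≤ 3 * E + R * E * ℓ + 15 / 16 * ℓ * D := by
      have h6 := mul_le_mul_of_nonneg_left hSv hℓ0
      have h7 : (15 / 16 * ℓ - s) * m = 1 / 16 * ℓ * m := by rw [hs]; ring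
      rw [h7] at hc1'
      linarith
    have h8 : ℓ * m ≤ ℓ * (48 * D) := by nlinarith
    exact le_of_mul_le_mul_left h8 (by linarith)
  have hm1 : m < 1 := by linarith
  refine ⟨by linarith, fun Λ hΛ => ?_⟩
  obtain ⟨hu, hd⟩ := core2_1 hΩm hlint hgint hg0 h1 h2 hb hm1 hΛ
  rw [← hm] at hu hd
  have hJp := J_pos hf hone hR hc hND
  have hcE : R * lam0 ^ (-c) ≤ D :=
    (mul_le_mul_of_nonneg_left (hexp _ (by linarith)) (by linarith)).trans hRE
  have hBm : Real.log (2 * π * (κ₁ * lam0) + 4) * m ≤ 2 * ℓ * (48 * D) :=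
    mul_le_mul hlL hmE hm0 (by linarith)
  have hsm : s * m ≤ ℓ * (48 * D) := mul_le_mul (by linarith) hmE hm0 (by linarith)
  have hΛJ : |Λ - Jf f| ≤ 2 * D + ℓ * D + 96 * (ℓ * D) := by
    rw [abs_le]
    constructor
    · nlinarith
    · nlinarith
  calc |Λ - ∫ θ, Real.posLog (π * f θ)| ≤ |Λ - Jf f| + |Jf f - ∫ θ, Real.posLog (π * f θ)| :=
        abs_sub_le _ _ _
    _ ≤ (2 * D + ℓ * D + 96 * (ℓ * D)) + D := add_le_add hΛJ (hJp.trans hcE)
    _ ≤ 200 * ℓ * D := by nlinarith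
    _ ≤ lam0 ^ (-(e / 2)) := hfin'

end Pool.Agent.Helper82.AN
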