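import Pool.Agent.Helper82.AN.NdK
import Pool.Agent.Helper82.AN.NdFin
import Pool.Agent.Helper82.AN.Gev
import Pool.Agent.Helper82.AN.SBig
import Pool.Agent.Helper82.AN.EigOm
import Pool.Agent.Helper82.AN.LimFd

/-! Project AN (MP_9ee088_an): from the growth of the derivative to the ergodic component. -/

set_option autoImplicit false
open MeasureTheory Real Set Filter Topology

namespace Pool.Agent.Helper82.AN

open Pool.Agent.Helper18.UC (nn LL)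
open Pool.Agent.Helper46.QP (TT Td orb Mx va stp)

variable {d : ℕ}

/-- there is an invariant set of measure at least `1 - s`; the eigenfunctions on it are characters of the base, the
exponent on the fibres is a positive constant and known up to `s` -/
def GoodA (α : Td d) (f : Td d → ℝ) (s : ℝ) : Prop :=
  ∃ O : Set (Td d × TT), MeasurableSet O ∧ Pool.Agent.Helper46.QRO.skew α f ⁻¹' O = O ∧ 1 - s ≤ volume.real O ∧
    (∀ (ξ : ℂ) (h : Td d × TT → ℂ), Measurable h →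
      (∀ᵐ p, p ∈ O → h (Pool.Agent.Helper46.QRO.skew α f p) = ξ * h p) →
      (∀ᵐ p, p ∈ O → h p = 0) ∨ ∃ k : Fin d → ℤ, ∃ b : ℂ, fourier 1 (∑ m, k m • α m) = ξ ∧
        ∀ᵐ p : Td d × TT, p ∈ O → h p = b * fourier 1 (∑ m, k m • p.1 m)) ∧
    ∃ Λ : ℝ, 0 < Λ ∧ |Λ - ∫ θ, Real.posLog (π * f θ)| ≤ s ∧ ∀ᵐ θ : Td d, ∀ᵐ z : ℝ × ℝ,
      (θ, ((z.1 : UnitAddCircle), (z.2 : UnitAddCircle))) ∈ O →
      Tendsto (fun n : ℕ => Real.log ‖fderiv ℝ (Pool.Agent.Helper46.QRO.liftn α f θ n) z‖ / n) atTop (𝓝 Λ)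

/-- `1, α 0, .., α (d - 1)` are rationally independent -/
def Ind (α : Td d) : Prop := ∀ k : Fin d → ℤ, k ≠ 0 → ∑ m, k m • α m ≠ 0

theorem GoodA.mono {α : Td d} {f : Td d → ℝ} {s t : ℝ} (h : GoodA α f s) (hst : s ≤ t) : GoodA α f t := by
  obtain ⟨O, h1, h2, h3, h4, Λ, h0, h5, h6⟩ := h
  exact ⟨O, h1, h2, by linarith, h4, Λ, h0, h5.trans hst, h6⟩

theorem good_core {κ c : ℝ} (hκ : 0 < κ) (hc : 0 < c) (hc1 : c < 1) : ∃ κ' : ℝ, 0 < κ' ∧ ∀ κ₁ R : ℝ, 1 ≤ κ₁ → 1 ≤ R →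
    ∃ A₂ : ℝ, ∀ (d : ℕ) (α : Td d) (f : Td d → ℝ) (lam0 : ℝ), Ind α → A₂ ≤ lam0 → Continuous f →
      (∀ θ, |f θ| ≤ κ₁ * lam0) → ND f lam0 c R →
      (∃ i₀ : ℕ, ∀ i ≥ i₀, Jf f - lam0 ^ (-κ) ≤
        (∫ p : Td d × TT, Real.log (nn (Mx (cA (sq α f p.1)) p.2 (2 ^ i)))) / 2 ^ i) →
      GoodA α f (lam0 ^ (-κ')) := by
  obtain ⟨κ', hκ', hbig⟩ := big hκ hc hc1
  refine ⟨κ', hκ', fun κ₁ R hκ₁ hR => ?_⟩
  obtain ⟨A₂, -, hA₂⟩ := hbig κ₁ R hκ₁ hR
  obtain ⟨A₃, hA₃⟩ := num_ok (lt_of_lt_of_le one_pos hκ₁)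
  refine ⟨max 2 (max A₂ A₃), fun d α f lam0 hind hA' hfc hfb hnd hgr => ?_⟩
  have hU : max A₂ A₃ ≤ lam0 := (le_max_right _ _).trans hA'
  have hU22 : 2 ≤ lam0 := (le_max_left _ _).trans hA'
  have hU2 : A₂ ≤ lam0 := (le_max_left _ _).trans hU
  have hU3 : A₃ ≤ lam0 := (le_max_right _ _).trans hU
  have hfm : Measurable f := hfc.measurable
  set L : ℝ := 2 * π * (κ₁ * lam0) + 4 with hL
  have hLL : ∀ θ, LL (f θ) ≤ L := by
    intro θ
    unfold LL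
    rw [hL]
    have := hfb θ
    have hp : 0 < 2 * π := by positivity
    nlinarith
  have hnum := hA₃ lam0 hU3
  obtain ⟨lam, hlm, hlb, hli, hlt, hlo⟩ := ex_lam (α := α) hfm hLL
  have hmean : Jf f - lam0 ^ (-κ) ≤ ∫ p, lam p := lam_mean hfm hLL hlt hgr
  have hinv := om_inv (α := α) hLL (7 / 8 * Real.log lam0)
  obtain ⟨h1, h2⟩ := hA₂ d α f lam0 lam hU2 hfc hfb hnd hlm hlb hlt (hlo _) hinv hmean
  obtain ⟨Λ, hΛ⟩ := lam_const hind hfm hLL hnum hlm hli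
  have hom := meas_om (α := α) hfm (7 / 8 * Real.log lam0)
  have hvol : 1 - lam0 ^ (-κ') ≤ volume.real (om α f (7 / 8 * Real.log lam0)) := by
    have := probReal_compl_eq_one_sub (μ := (volume : Measure (Td d × TT))) hom
    linarith
  have hΛ0 : 0 < Λ := by
    have e1 : lam0 ^ (-κ') < 1 := Real.rpow_lt_one_of_one_lt_of_neg (by linarith) (by linarith)
    have e2 : volume (om α f (7 / 8 * Real.log lam0)) ≠ 0 := by
      intro h
      rw [Measure.real, h, ENNReal.toReal_zero] at hvol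
      linarith
    have e3 : ∃ᵐ p : Td d × TT, p ∈ om α f (7 / 8 * Real.log lam0) := by
      intro h
      exact e2 (by simpa [ae_iff] using h)
    obtain ⟨p, hp, hp1, hp2⟩ := (e3.and_eventually (hΛ.and (hlo (7 / 8 * Real.log lam0)))).exists
    rw [← hp1 hp]
    have e4 : 0 ≤ Real.log lam0 := Real.log_nonneg (by linarith)
    have := hp2.1 hp
    linarith
  refine ⟨om α f (7 / 8 * Real.log lam0), hom, ?_, hvol, ?_, Λ, hΛ0, h2 Λ hΛ, ?_⟩
  · rw [skew_eq]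
    exact hinv
  · intro ξ h hm hh
    rw [skew_eq] at hh
    exact eig_om hind hfm hLL hnum ξ hm hh
  · refine lim_fd ?_
    filter_upwards [hlt, hΛ] with p a1 a2 hp
    rw [← a2 hp]
    exact a1

/-- the vector of the parameters -/
noncomputable def par {k : ℕ} (a q : ℝ) (s : Fin k → ℝ) : Fin (k + 1 + 1) → ℝ :=
  Fin.cons q (Fin.cons a fun i => q * s i)

lemma par_norm {k : ℕ} {a q S₁ : ℝ} {s : Fin k → ℝ} (hs : ‖s‖ ≤ S₁) (hS : 1 ≤ S₁) :
    max |a| |q| ≤ ‖par a q s‖ ∧ ‖par a q s‖ ≤ S₁ * max |a| |q| := by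
  have hM : 0 ≤ max |a| |q| := (abs_nonneg a).trans (le_max_left _ _)
  constructor
  · refine max_le ?_ ?_
    · have := norm_le_pi_norm (par a q s) 1
      exact this
    · exact norm_le_pi_norm (par a q s) 0
  · refine (pi_norm_le_iff_of_nonneg (by positivity)).2 fun i => ?_
    have h1 : max |a| |q| ≤ S₁ * max |a| |q| := le_mul_of_one_le_left hM hS
    refine Fin.cases ?_ (fun j => Fin.cases ?_ (fun l => ?_) j) i
    · exact (le_max_right _ _).trans h1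
    · exact (le_max_left _ _).trans h1
    · show ‖q * s l‖ ≤ _
      rw [norm_mul, mul_comm]
      exact mul_le_mul ((norm_le_pi_norm s l).trans hs) (le_max_right _ _) (norm_nonneg _) (by positivity)

lemma par_amU {γ : ℝ} {k : ℕ} (g : Td d → ℝ) (e : Fin k → Td d → ℝ) (a q : ℝ) (s : Fin k → ℝ) (w : Ow d) :
    amU γ (Fin.cons g e : Fin (k + 1) → Td d → ℝ) (par a q s) w =
      fun θ => a * g θ + q * ((∑ i, s i * e i θ) + eta γ w θ) := by
  funext θ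
  unfold amU par
  rw [Fin.sum_univ_succ]
  simp only [Fin.cons_succ, Fin.cons_zero]
  rw [mul_add, Finset.mul_sum, ← add_assoc]
  congr 2
  refine Finset.sum_congr rfl fun i _ => ?_
  ring

/-- bounds of `∑ s i e i + η` -/
lemma V_bd {γ : ℝ} (hγ : 0 < γ) {k : ℕ} {e : Fin k → Td d → ℝ} (he : ∀ i, Continuous (e i)) {S₁ : ℝ} (hS : 0 < S₁) :
    ∀ᵐ w ∂lawL d, ∃ H : ℝ, 0 ≤ H ∧ ∀ s : Fin k → ℝ, ‖s‖ ≤ S₁ → ∀ θ, |(∑ i, s i * e i θ) + eta γ w θ| ≤ H := by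
  have hB : ∀ i : Fin k, ∃ B : ℝ, 0 ≤ B ∧ ∀ θ, |e i θ| ≤ B := by
    intro i
    obtain ⟨B, h1⟩ := (isCompact_univ (X := Td d)).exists_bound_of_continuousOn (he i).continuousOn
    exact ⟨|B|, abs_nonneg _, fun θ => (h1 θ (mem_univ θ)).trans (le_abs_self B)⟩
  choose B hB0 hB using hB
  filter_upwards [Hw_ae (d := d) hγ] with w hw
  have h1 : 0 ≤ ∑ i, B i := Finset.sum_nonneg fun i _ => hB0 i
  have h2 : 0 ≤ (Hw γ w).toReal := ENNReal.toReal_nonneg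
  refine ⟨S₁ * (∑ i, B i) + (Hw γ w).toReal, by positivity, fun s hs θ => ?_⟩
  refine (abs_add_le _ _).trans (add_le_add ?_ (eta_le hw θ))
  refine (Finset.abs_sum_le_sum_abs _ _).trans ?_
  rw [Finset.mul_sum]
  refine Finset.sum_le_sum fun i _ => ?_
  rw [abs_mul]
  exact mul_le_mul ((norm_le_pi_norm s i).trans hs) (hB i θ) (abs_nonneg _) hS.le

end Pool.Agent.Helper82.AN
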