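import Pool.Agent.Helper82.AN.SBas

/-! Block AN-STOR: the torus version. Compare `Helper18/UC/Torus.lean` (`S_iter`, `nn_rep`) and `tor_Fn`, `Fn_der88` in
`Helper46/QP/Link.lean` (`ee_coe`: `ee x = exp(2π i x)`, so `(A * ee x).im = A sin 2πx`, `va A x = vv A x` for real `A`).
`meas_gN`: `Mx_meas` in `Helper46/QP/Meas.lean`. -/

set_option autoImplicit false
open MeasureTheory Real Set

namespace Pool.Agent.Helper82.AN

open Pool.Agent.Helper18.UC (nn LL sh clm pt sqo lab rep toT)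
open Pool.Agent.Helper46.QP (TT Td orb Mx va stp)

variable {d : ℕ}

private lemma ee_coe80 (x : ℝ) : Pool.Agent.Helper46.QP.ee (x : UnitAddCircle) =
    Complex.exp (2 * π * Complex.I * x) := by
  unfold Pool.Agent.Helper46.QP.ee
  rw [fourier_coe_apply]
  congr 1
  push_cast
  ring

private lemma ee_re_im80 (a x : ℝ) :
    ((a : ℂ) * Pool.Agent.Helper46.QP.ee (x : UnitAddCircle)).im = a * Real.sin (2 * π * x) ∧
      ((a : ℂ) * Pool.Agent.Helper46.QP.ee (x : UnitAddCircle)).re = a * Real.cos (2 * π * x) := by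
  have e : (2 * π * Complex.I * x : ℂ) = ((2 * π * x : ℝ) : ℂ) * Complex.I := by
    push_cast
    ring
  rw [ee_coe80, Complex.im_ofReal_mul, Complex.re_ofReal_mul, e, Complex.exp_ofReal_mul_I_im,
    Complex.exp_ofReal_mul_I_re]
  exact ⟨rfl, rfl⟩

private lemma toT_F80 (a : ℝ) (q : ℝ × ℝ) :
    toT (Pool.Agent.Helper18.UC.F a q) = stp ((a : ℝ) : ℂ) (toT q) := by
  unfold toT Pool.Agent.Helper18.UC.F stp
  refine Prod.ext ?_ rfl
  show ((2 * q.1 - q.2 + a * Real.sin (2 * π * q.1) : ℝ) : UnitAddCircle) =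
    (q.1 : UnitAddCircle) + (q.1 : UnitAddCircle) - (q.2 : UnitAddCircle) +
      ((((a : ℂ) * Pool.Agent.Helper46.QP.ee (q.1 : UnitAddCircle)).im : ℝ) : UnitAddCircle)
  rw [(ee_re_im80 a q.1).1, ← AddCircle.coe_add, ← AddCircle.coe_sub, ← AddCircle.coe_add, two_mul]

private lemma va_coe80 (a : ℝ) (q : ℝ × ℝ) :
    Pool.Agent.Helper95.PV.mv (va (a : ℂ) (toT q).1) = Pool.Agent.Helper18.UC.A a q := by
  have h : va (a : ℂ) (toT q).1 = Pool.Agent.Helper18.UC.vv a q.1 := by
    unfold va Pool.Agent.Helper18.UC.vv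
    show 2 + 2 * π * ((a : ℂ) * Pool.Agent.Helper46.QP.ee (q.1 : UnitAddCircle)).re = _
    rw [(ee_re_im80 a q.1).2]
    ring
  rw [h]
  rfl

theorem toT_po (A : ℕ → ℝ) (n : ℕ) (q : ℝ × ℝ) : toT (po A n q) = orb (cA A) (toT q) n := by
  induction n with
  | zero => rfl
  | succ n ih =>
    rw [Pool.Agent.Helper46.QP.orb_succ, ← ih]
    exact toT_F80 (A n) (po A n q)

theorem Mx_toT (A : ℕ → ℝ) (n : ℕ) (q : ℝ × ℝ) : Mx (cA A) (toT q) n = pM A n q := by
  induction n with
  | zero => rfl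
  | succ n ih =>
    rw [Pool.Agent.Helper46.QP.Mx_succ, ih, ← toT_po]
    show Pool.Agent.Helper95.PV.mv (va ((A n : ℝ) : ℂ) (toT (po A n q)).1) * _ = _
    rw [va_coe80]
    rfl

theorem Mx_rep (A : ℕ → ℝ) (n : ℕ) (z : TT) : Mx (cA A) z n = pM A n (rep z) := by
  rw [← Mx_toT, Pool.Agent.Helper18.UC.toT_rep]

/-- time reversal on the torus -/
theorem orb_rev (A : ℕ → ℝ) (n n' : ℕ) (z : TT) :
    orb (cA (rv A (n + n'))) (Prod.swap (orb (cA A) z (n + n'))) n' = Prod.swap (orb (cA A) z n) := by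
  have h1 : ∀ m, orb (cA A) z m = toT (po A m (rep z)) := fun m => by
    rw [toT_po, Pool.Agent.Helper18.UC.toT_rep]
  have h2 : ∀ q : ℝ × ℝ, Prod.swap (toT q) = toT (Prod.swap q) := fun _ => rfl
  rw [h1, h1, h2, h2, ← toT_po, po_rev]

theorem nn_orb_rev (A : ℕ → ℝ) (n : ℕ) (z : TT) :
    nn (pM (rv A n) n (rep (Prod.swap (orb (cA A) z n)))) = nn (pM A n (rep z)) := by
  have h1 : Prod.swap (orb (cA A) z n) = toT (Prod.swap (po A n (rep z))) := by
    have : orb (cA A) z n = toT (po A n (rep z)) := by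
      rw [toT_po, Pool.Agent.Helper18.UC.toT_rep]
    rw [this]
    rfl
  obtain ⟨u, w, h⟩ := Pool.Agent.Helper18.UC.rep_toT (Prod.swap (po A n (rep z)))
  rw [h1, h, pM_sh]
  have h3 := pnn_rev A 0 n (rep z)
  rw [zero_add] at h3
  rw [h3]
  rfl

theorem sq_meas {α : Td d} {f : Td d → ℝ} (hf : Measurable f) : Measurable fun θ : Td d => cA (sq α f θ) := by
  refine measurable_pi_lambda _ fun j => ?_
  unfold cA sq
  exact Complex.measurable_ofReal.comp (hf.comp (measurable_id.add_const _))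

theorem Fs_meas {α : Td d} {f : Td d → ℝ} (hf : Measurable f) : Measurable (Fs α f) := by
  have hc : Measurable fun p : Td d × TT => ((((f p.1 : ℝ) : ℂ), p.2) : ℂ × TT) :=
    (Complex.measurable_ofReal.comp (hf.comp measurable_fst)).prodMk measurable_snd
  unfold Fs
  exact (measurable_fst.add_const _).prodMk (Pool.Agent.Helper46.QP.stp_meas.comp hc)

theorem Fs_mp {α : Td d} {f : Td d → ℝ} (hf : Measurable f) :
    MeasurePreserving (Fs α f) (volume : Measure (Td d × TT)) volume := by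
  have hm : Measurable (Function.uncurry fun (θ : Td d) (z : TT) => stp ((f θ : ℝ) : ℂ) z) := by
    have hc : Measurable fun p : Td d × TT => ((((f p.1 : ℝ) : ℂ), p.2) : ℂ × TT) :=
      (Complex.measurable_ofReal.comp (hf.comp measurable_fst)).prodMk measurable_snd
    exact Pool.Agent.Helper46.QP.stp_meas.comp hc
  have h := (measurePreserving_add_right (volume : Measure (Td d)) α).skew_product
    (μc := (volume : Measure TT)) (μd := (volume : Measure TT))
    (g := fun θ z => stp ((f θ : ℝ) : ℂ) z) hm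
    (Filter.Eventually.of_forall fun θ => (Pool.Agent.Helper46.QP.stp_mp _).map_eq)
  exact h

theorem meas_gN {α : Td d} {f : Td d → ℝ} (hf : Measurable f) (n : ℕ) : Measurable (gN α f n) := by
  have hc : Measurable fun p : Td d × TT => ((cA (sq α f p.1), p.2) : (ℕ → ℂ) × TT) :=
    ((sq_meas hf).comp measurable_fst).prodMk measurable_snd
  exact (Pool.Agent.Helper46.QP.Mx_meas n).comp hc

theorem meas_PN {α : Td d} {f : Td d → ℝ} (hf : Measurable f) (c : ℝ) (N : ℕ) : MeasurableSet (PN α f c N) :=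
  measurableSet_le measurable_const (meas_gN hf N)

theorem meas_HG {α : Td d} {f : Td d → ℝ} (hf : Measurable f) (L B : ℝ) (n : ℕ) : MeasurableSet (HG α f L B n) := by
  have e : HG α f L B n = ⋂ i : ℕ, ⋂ _ : i ≤ n, {p | KL L B ^ (n - i) * gN α f i p ≤ gN α f n p} := by
    ext p
    simp only [HG, Hyp, gN, mem_ofPred_eq, mem_iInter, Mx_rep]
  rw [e]
  exact MeasurableSet.iInter fun i => MeasurableSet.iInter fun _ =>
    measurableSet_le ((meas_gN hf i).const_mul _) (meas_gN hf n)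

theorem meas_om {α : Td d} {f : Td d → ℝ} (hf : Measurable f) (c : ℝ) : MeasurableSet (om α f c) := by
  unfold om
  exact measurableSet_lt measurable_const (Measurable.liminf fun n => (meas_gN hf n).log.div_const _)

/-- the inverse map: reflection of the map with the frequency `-α` and the amplitude `f (· - α)` -/
theorem Fs_inv (α : Td d) (f : Td d → ℝ) (p : Td d × TT) :
    Fs (-α) (fun θ => f (θ - α)) ((Fs α f p).1, Prod.swap (Fs α f p).2) = (p.1, Prod.swap p.2) := by
  unfold Fs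
  refine Prod.ext ?_ ?_
  · show p.1 + α + -α = p.1
    abel
  · show stp ((f (p.1 + α - α) : ℝ) : ℂ) (Prod.swap (stp ((f p.1 : ℝ) : ℂ) p.2)) = Prod.swap p.2
    rw [add_sub_cancel_right]
    unfold stp
    refine Prod.ext ?_ rfl
    show p.2.1 + p.2.1 - (p.2.1 + p.2.1 - p.2.2 +
        ((((f p.1 : ℂ) * Pool.Agent.Helper46.QP.ee p.2.1).im : ℝ) : UnitAddCircle)) +
        ((((f p.1 : ℂ) * Pool.Agent.Helper46.QP.ee p.2.1).im : ℝ) : UnitAddCircle) = p.2.2
    abel

end Pool.Agent.Helper82.AN
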