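import Pool.Agent.Helper82.AN.Init
import Pool.Agent.Helper82.AN.STor

/-! Block AN-INIT2: growth during the first steps, amplitudes without zeros: times up to `lam ^ (2 - ε)` in place of `lam ^ (1 - ε)`.

`start2`: as `start` in `Init.lean` (upper left entries `x_0 = 1`, `x_{n+1} = v_n x_n - x_{n-1}`, `x_{-1} = 0`), but only the products of consecutive entries are large: `K ≤ |v_j| |v_{j+1}|`. Let `r_{j+1} = x_{j+1} / x_j`, `r_1 = v_0`, `r_{j+1} = v_j - 1 / r_j`. Claim `|r_{j+1}| ≥ |v_j| (1 - 2 / K) ≥ |v_j| / 2`: by induction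
`1 / |r_j| ≤ 2 / |v_{j-1}| ≤ 2 |v_j| / K`. So `|x_n| ≥ (1 - 2 / K)^n ∏ |v_j|`, `log (1 - 2 / K) ≥ - 4 / K`. (For `n = 1` the value `v_0 = 0` is allowed: `log 0 = 0`, `nn ≥ 2`.)
`init2`: as `init`, the bad set is `{p | ∃ j < n, |v_j| |v_{j+1}| < K}` (measure at most `n ν`: `Fs α f` preserves the volume, `Fs_mp`). -/

set_option autoImplicit false
open MeasureTheory Real Set

namespace Pool.Agent.Helper82.AN

open Pool.Agent.Helper18.UC (nn)
open Pool.Agent.Helper46.QP (TT Td orb Mx va stp)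

variable {d : ℕ}

private theorem Mx_entries50b (A : ℕ → ℝ) (z : TT) (n : ℕ) :
    Mx (cA A) z (n + 1) 0 0 = va (A n : ℂ) (orb (cA A) z n).1 * Mx (cA A) z n 0 0 - Mx (cA A) z n 1 0 ∧
      Mx (cA A) z (n + 1) 1 0 = Mx (cA A) z n 0 0 := by
  rw [Pool.Agent.Helper46.QP.Mx_succ]
  constructor
  · rw [Matrix.mul_apply, Fin.sum_univ_two]
    simp [Pool.Agent.Helper95.PV.mv, cA, sub_eq_add_neg]
  · rw [Matrix.mul_apply, Fin.sum_univ_two]
    simp [Pool.Agent.Helper95.PV.mv]

private theorem va_le50b {A Λ₁ : ℝ} (hA : |A| ≤ Λ₁) (x : UnitAddCircle) :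
    |va ((A : ℝ) : ℂ) x| ≤ 2 * π * Λ₁ + 2 := by
  have h1 : |(((A : ℝ) : ℂ) * Pool.Agent.Helper46.QP.ee x).re| ≤ Λ₁ := by
    refine (Complex.abs_re_le_norm _).trans ?_
    rw [norm_mul, Pool.Agent.Helper46.QP.norm_ee, mul_one, Complex.norm_real]
    exact hA
  unfold va
  refine (abs_add_le _ _).trans ?_
  rw [abs_two, abs_mul, abs_of_pos (by positivity : (0 : ℝ) < 2 * π)]
  have := mul_le_mul_of_nonneg_left h1 (by positivity : (0 : ℝ) ≤ 2 * π)
  linarith

private theorem logva_le50b {A Λ₁ : ℝ} (hA : |A| ≤ Λ₁) (x : UnitAddCircle) :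
    Real.log |va ((A : ℝ) : ℂ) x| ≤ Real.log (2 * π * Λ₁ + 4) := by
  have h0 : 0 ≤ Λ₁ := (abs_nonneg A).trans hA
  have h1 := va_le50b hA x
  have h2 : 0 ≤ 2 * π * Λ₁ := by positivity
  rcases (abs_nonneg (va ((A : ℝ) : ℂ) x)).eq_or_lt with h | h
  · rw [← h, Real.log_zero]
    exact Real.log_nonneg (by linarith)
  · exact Real.log_le_log h (by linarith)

private theorem lv_meas50b {f : Td d → ℝ} (hf : Continuous f) :
    Measurable (fun p : Td d × TT => |va ((f p.1 : ℝ) : ℂ) p.2.1|) := by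
  have hb : Measurable fun p : Td d × TT => ((((f p.1 : ℝ) : ℂ), p.2.1) : ℂ × UnitAddCircle) :=
    (Complex.measurable_ofReal.comp (hf.measurable.comp measurable_fst)).prodMk
      (measurable_fst.comp measurable_snd)
  exact (Pool.Agent.Helper46.QP.va_meas.comp hb).norm

private theorem M_meas50b (α : Td d) {f : Td d → ℝ} (hf : Measurable f) (n : ℕ) :
    Measurable fun p : Td d × TT => Real.log (nn (Mx (cA (sq α f p.1)) p.2 n)) := by
  have h1 : Measurable fun p : Td d × TT => cA (sq α f p.1) := by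
    refine measurable_pi_lambda _ fun j => ?_
    exact Complex.measurable_ofReal.comp (hf.comp (measurable_fst.add_const _))
  exact Real.measurable_log.comp ((Pool.Agent.Helper46.QP.Mx_meas n).comp (h1.prodMk measurable_snd))

private theorem log_two50b {K : ℝ} (hK : 4 ≤ K) : 0 < 1 - 2 / K ∧ 1 / 2 ≤ 1 - 2 / K ∧ - (4 / K) ≤ Real.log (1 - 2 / K) := by
  have hK0 : 0 < K := by linarith
  have ht : 2 / K ≤ 1 / 2 := by
    rw [div_le_div_iff₀ hK0 (by norm_num)]
    linarith
  have h1 : 0 < 1 - 2 / K := by linarith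
  refine ⟨h1, by linarith, ?_⟩
  have h2 := Real.one_sub_inv_le_log_of_pos h1
  refine le_trans ?_ h2
  have h3 : (1 - 2 / K)⁻¹ ≤ 1 + 4 / K := by
    rw [inv_le_iff_one_le_mul₀ h1]
    have h4 : 0 < 2 / K := by positivity
    have e : 4 / K = 2 * (2 / K) := by ring
    rw [e]
    nlinarith
  linarith

theorem start2 {A : ℕ → ℝ} {z : TT} {n : ℕ} {K : ℝ} (hK : 4 ≤ K)
    (h : ∀ j, j + 1 < n → K ≤ |va (A j : ℂ) (orb (cA A) z j).1| * |va (A (j + 1) : ℂ) (orb (cA A) z (j + 1)).1|) :
    (∑ j ∈ Finset.range n, Real.log |va (A j : ℂ) (orb (cA A) z j).1|) - n * (4 / K) ≤ Real.log (nn (Mx (cA A) z n)) := by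
  have hK0 : 0 < K := by linarith
  obtain ⟨hl1, hl2, hl3⟩ := log_two50b hK
  have hnn := Pool.Agent.Helper46.QP.log_nn_nonneg (cA A) z n
  have h40 : 0 < 4 / K := by positivity
  have hM1 : Mx (cA A) z 1 0 0 = va (A 0 : ℂ) (orb (cA A) z 0).1 ∧ Mx (cA A) z 1 1 0 = 1 := by
    obtain ⟨e1, e2⟩ := Mx_entries50b A z 0
    have e3 : Mx (cA A) z 0 0 0 = 1 := by simp [Mx]
    have e4 : Mx (cA A) z 0 1 0 = 0 := by simp [Mx]
    rw [e3, e4, mul_one, sub_zero] at e1
    rw [e3] at e2
    exact ⟨e1, e2⟩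
  rcases Nat.lt_or_ge n 2 with hn | hn
  · interval_cases n
    · simpa using hnn
    · rw [Finset.sum_range_one, Nat.cast_one, one_mul]
      rcases (abs_nonneg (va (A 0 : ℂ) (orb (cA A) z 0).1)).eq_or_lt with h0 | h0
      · rw [← h0, Real.log_zero]
        linarith
      · have h1 : |va (A 0 : ℂ) (orb (cA A) z 0).1| ≤ nn (Mx (cA A) z 1) := by
          have h2 := Pool.Agent.Helper18.UC.abs_entry_le (Mx (cA A) z 1) 0 0
          rwa [hM1.1] at h2
        have h3 := Real.log_le_log h0 h1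
        linarith
  have key : ∀ k, k + 1 ≤ n →
      |va (A k : ℂ) (orb (cA A) z k).1| * |Mx (cA A) z (k + 1) 1 0| ≤ 2 * |Mx (cA A) z (k + 1) 0 0| ∧
      0 < |Mx (cA A) z (k + 1) 0 0| ∧
      (∑ j ∈ Finset.range (k + 1), Real.log |va (A j : ℂ) (orb (cA A) z j).1|) - ((k : ℝ) + 1) * (4 / K) ≤
        Real.log |Mx (cA A) z (k + 1) 0 0| := by
    intro k
    induction k with
    | zero =>
      intro _
      have h1 := h 0 (by omega)
      have h2 : 0 < |va (A 0 : ℂ) (orb (cA A) z 0).1| := by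
        rcases (abs_nonneg (va (A 0 : ℂ) (orb (cA A) z 0).1)).eq_or_lt with h0 | h0
        · rw [← h0, zero_mul] at h1
          linarith
        · exact h0
      rw [zero_add, hM1.1, hM1.2, Finset.sum_range_one, abs_one, mul_one, Nat.cast_zero, zero_add, one_mul]
      exact ⟨by linarith, h2, by linarith⟩
    | succ k ih =>
      intro hk
      obtain ⟨h1, h2, h3⟩ := ih (by omega)
      obtain ⟨e1, e2⟩ := Mx_entries50b A z (k + 1)
      have hv := h k (by omega)
      rw [e1, e2]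
      set w := va (A (k + 1) : ℂ) (orb (cA A) z (k + 1)).1 with hwd
      set v := va (A k : ℂ) (orb (cA A) z k).1 with hvd
      set x := Mx (cA A) z (k + 1) 0 0 with hx
      set y := Mx (cA A) z (k + 1) 1 0 with hy
      have hw : 0 < |w| := by
        rcases (abs_nonneg w).eq_or_lt with h0 | h0
        · rw [← h0, mul_zero] at hv
          linarith
        · exact h0
      have h4 : |y| ≤ 2 / K * (|w| * |x|) := by
        have h5 : K * |y| ≤ 2 * (|w| * |x|) := by
          calc K * |y| ≤ (|v| * |w|) * |y| := mul_le_mul_of_nonneg_right hv (abs_nonneg _)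
            _ = |w| * (|v| * |y|) := by ring
            _ ≤ |w| * (2 * |x|) := mul_le_mul_of_nonneg_left h1 hw.le
            _ = _ := by ring
        rw [div_mul_eq_mul_div, le_div_iff₀ hK0]
        linarith
      have hp : 0 < |w| * |x| := mul_pos hw h2
      have h6 : (1 - 2 / K) * (|w| * |x|) ≤ |w * x - y| := by
        have h7 : |w * x| - |y| ≤ |w * x - y| := abs_sub_abs_le_abs_sub _ _
        rw [abs_mul] at h7
        linarith
      have h8 : 0 < (1 - 2 / K) * (|w| * |x|) := mul_pos hl1 hp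
      refine ⟨?_, lt_of_lt_of_le h8 h6, ?_⟩
      · nlinarith
      · rw [Finset.sum_range_succ]
        have h9 := Real.log_le_log h8 h6
        rw [Real.log_mul hl1.ne' hp.ne', Real.log_mul hw.ne' h2.ne'] at h9
        push_cast
        linarith
  obtain ⟨m, rfl⟩ : ∃ m, n = m + 1 := ⟨n - 1, by omega⟩
  obtain ⟨-, h2, h3⟩ := key m le_rfl
  push_cast
  exact h3.trans (Real.log_le_log h2 (Pool.Agent.Helper18.UC.abs_entry_le _ 0 0))

theorem init2 {α : Td d} {f : Td d → ℝ} (hf : Continuous f) {Λ₁ K ν : ℝ} (hf1 : ∀ θ, |f θ| ≤ Λ₁) (hK : 4 ≤ K)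
    (hν : volume {p : Td d × TT | |va ((f p.1 : ℝ) : ℂ) p.2.1| * |va ((f (Fs α f p).1 : ℝ) : ℂ) (Fs α f p).2.1| < K} ≤
      ENNReal.ofReal ν) (hν0 : 0 ≤ ν) (n : ℕ) :
    n * Jf f - n * (4 / K) - n * (n * ν) * Real.log (2 * π * Λ₁ + 4) ≤
      ∫ p : Td d × TT, Real.log (nn (Mx (cA (sq α f p.1)) p.2 n)) := by
  have hΛ0 : 0 ≤ Λ₁ := (abs_nonneg _).trans (hf1 0)
  set ℓ : ℝ := Real.log (2 * π * Λ₁ + 4) with hℓ
  have hℓ0 : 0 ≤ ℓ := Real.log_nonneg (by nlinarith [mul_nonneg Real.pi_pos.le hΛ0])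
  have hF : MeasurePreserving (Fs α f) volume volume := Fs_mp hf.measurable
  set B : Set (Td d × TT) := {p | |va ((f p.1 : ℝ) : ℂ) p.2.1| *
    |va ((f (Fs α f p).1 : ℝ) : ℂ) (Fs α f p).2.1| < K} with hB
  have hBm : MeasurableSet B :=
    measurableSet_lt ((lv_meas50b hf).mul ((lv_meas50b hf).comp hF.measurable)) measurable_const
  set T : Td d × TT → Td d × TT := Fs α f with hT
  have hTmp : ∀ j : ℕ, MeasurePreserving (T^[j]) volume volume := fun j => hF.iterate j
  have hTj : ∀ (j : ℕ) (p : Td d × TT), T^[j] p = (p.1 + j • α, orb (cA (sq α f p.1)) p.2 j) := by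
    intro j p
    exact Fs_iter α f p.1 p.2 j
  set g : Td d × TT → ℝ := fun p => Real.log |va ((f p.1 : ℝ) : ℂ) p.2.1| with hg
  have hgi : Integrable g := int_v hf
  have hgj : ∀ j : ℕ, Integrable (g ∘ T^[j]) := fun j => (hTmp j).integrable_comp_of_integrable hgi
  have hgint : ∀ j : ℕ, ∫ p, (g ∘ T^[j]) p = Jf f := by
    intro j
    have h1 := (hTmp j).map_eq
    have h2 : ∫ p, g (T^[j] p) = ∫ p, g p ∂(Measure.map (T^[j]) volume) :=
      (integral_map (hTmp j).measurable.aemeasurable (by rw [h1]; exact hgi.aestronglyMeasurable)).symm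
    show ∫ p, g (T^[j] p) = _
    rw [h2, h1]
    rfl
  set S : Set (Td d × TT) := ⋃ j ∈ Finset.range n, T^[j] ⁻¹' B with hS
  have hSm : MeasurableSet S :=
    Finset.measurableSet_biUnion _ fun j _ => (hTmp j).measurable hBm
  have hSv : volume.real S ≤ n * ν := by
    have h1 : volume S ≤ ENNReal.ofReal (n * ν) := by
      refine (measure_biUnion_finset_le _ _).trans ?_
      have h2 : ∀ j ∈ Finset.range n, volume (T^[j] ⁻¹' B) ≤ ENNReal.ofReal ν := by
        intro j _
        rw [(hTmp j).measure_preimage hBm.nullMeasurableSet]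
        exact hν
      refine (Finset.sum_le_sum h2).trans ?_
      rw [Finset.sum_const, Finset.card_range, nsmul_eq_mul, ENNReal.ofReal_mul (Nat.cast_nonneg n),
        ENNReal.ofReal_natCast]
    exact ENNReal.toReal_le_of_le_ofReal (mul_nonneg (Nat.cast_nonneg n) hν0) h1
  have hpt : ∀ p : Td d × TT, (∑ j ∈ Finset.range n, (g ∘ T^[j]) p) - n * (4 / K) -
      S.indicator (fun _ => n * ℓ) p ≤ Real.log (nn (Mx (cA (sq α f p.1)) p.2 n)) := by
    intro p
    have e1 : ∀ j, (g ∘ T^[j]) p = Real.log |va ((sq α f p.1 j : ℝ) : ℂ) (orb (cA (sq α f p.1)) p.2 j).1| := by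
      intro j
      show g (T^[j] p) = _
      rw [hTj]
      rfl
    by_cases hp : p ∈ S
    · rw [Set.indicator_of_mem hp]
      have h1 := Pool.Agent.Helper46.QP.log_nn_nonneg (cA (sq α f p.1)) p.2 n
      have h2 : (∑ j ∈ Finset.range n, (g ∘ T^[j]) p) ≤ n * ℓ := by
        have h3 : ∀ j ∈ Finset.range n, (g ∘ T^[j]) p ≤ ℓ := by
          intro j _
          rw [e1]
          exact logva_le50b (hf1 _) _
        refine (Finset.sum_le_sum h3).trans ?_
        rw [Finset.sum_const, Finset.card_range, nsmul_eq_mul]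
      have h4 : 0 ≤ (n : ℝ) * (4 / K) := by positivity
      linarith
    · rw [Set.indicator_of_notMem hp, sub_zero]
      have h1 : ∀ j, j + 1 < n → K ≤ |va ((sq α f p.1 j : ℝ) : ℂ) (orb (cA (sq α f p.1)) p.2 j).1| *
          |va ((sq α f p.1 (j + 1) : ℝ) : ℂ) (orb (cA (sq α f p.1)) p.2 (j + 1)).1| := by
        intro j hj
        by_contra hh
        push Not at hh
        apply hp
        rw [hS, mem_iUnion₂]
        refine ⟨j, Finset.mem_range.2 (by omega), ?_⟩
        show T^[j] p ∈ B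
        have e3 : Fs α f (T^[j] p) = T^[j + 1] p := (Function.iterate_succ_apply' T j p).symm
        show |va ((f (T^[j] p).1 : ℝ) : ℂ) (T^[j] p).2.1| *
          |va ((f (Fs α f (T^[j] p)).1 : ℝ) : ℂ) (Fs α f (T^[j] p)).2.1| < K
        rw [e3, hTj, hTj]
        exact hh
      have h2 := start2 hK h1
      simp only [e1]
      exact h2
  have hlint : Integrable fun p : Td d × TT => Real.log (nn (Mx (cA (sq α f p.1)) p.2 n)) := by
    refine Integrable.of_bound (C := Real.log 2 + n * ℓ) (M_meas50b α hf.measurable n).aestronglyMeasurable ?_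
    refine Filter.Eventually.of_forall fun p => ?_
    rw [Real.norm_of_nonneg (Pool.Agent.Helper46.QP.log_nn_nonneg _ _ _)]
    refine Pool.Agent.Helper46.QP.log_nn_le hΛ0 (fun j => ?_) _ _
    show ‖((sq α f p.1 j : ℝ) : ℂ)‖ ≤ Λ₁
    rw [Complex.norm_real]
    exact hf1 _
  have hsum : Integrable fun p : Td d × TT => ∑ j ∈ Finset.range n, (g ∘ T^[j]) p :=
    integrable_finset_sum _ fun j _ => hgj j
  have hind : Integrable (S.indicator (fun _ : Td d × TT => (n : ℝ) * ℓ)) :=
    (integrable_const _).indicator hSm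
  have hc : Integrable fun _ : Td d × TT => (n : ℝ) * (4 / K) := integrable_const _
  have hI := integral_mono ((hsum.sub hc).sub hind) hlint hpt
  refine le_trans ?_ hI
  have e2 : ∫ p : Td d × TT, ((((fun p : Td d × TT => ∑ j ∈ Finset.range n, (g ∘ T^[j]) p) -
      fun _ : Td d × TT => (n : ℝ) * (4 / K)) - S.indicator fun _ : Td d × TT => (n : ℝ) * ℓ) p) =
      n * Jf f - n * (4 / K) - volume.real S * (n * ℓ) := by
    rw [integral_sub' (hsum.sub hc) hind, integral_sub' hsum hc, integral_finset_sum _ fun j _ => hgj j,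
      integral_indicator hSm, integral_const, setIntegral_const]
    simp only [hgint, Finset.sum_const, Finset.card_range, nsmul_eq_mul]
    simp
  rw [e2]
  have h3 : volume.real S * (n * ℓ) ≤ n * (n * ν) * ℓ := by
    calc volume.real S * (n * ℓ) ≤ (n * ν) * (n * ℓ) :=
          mul_le_mul_of_nonneg_right hSv (by positivity)
      _ = _ := by ring
  linarith

end Pool.Agent.Helper82.AN
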