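import Pool.Agent.Helper82.AN.Ndg
import Pool.Agent.Helper82.AN.STor

/-! Block AN-NU2: two consecutive entries are rarely both small (amplitudes without zeros).

`nu2`: for fixed `θ` the variables `x_0 = x` and `x_1 = 2 x - y + f θ sin 2πx` are independent and uniform (for fixed `x` the map `y ↦ x_1` preserves the measure), so Markov for `(|v_0| |v_1|)^(-c)` gives `K^c (∫ |v_0|^(-c)) (∫ |v_1|^(-c))`, and `∫ |2 + 2π F cos 2πx|^(-c) dx ≤ C b^(-c)` for `|F| ≥ b ≥ 1`:
`volume {x | |2 + 2π F cos 2πx| < s} ≤ C s / b` for all `s > 0` (`cos 2πx` in an interval around `-1/(πF)`, of absolute value at most `1/2` if `s ≤ b`; compare `J_pos`, `nd_v` in `Ndg.lean` and `volume {|cos| < ρ}` in `Helper46/QR/Core.lean`), layer cake or dyadic sum. -/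

set_option autoImplicit false
open MeasureTheory Real Set

namespace Pool.Agent.Helper82.AN

open Pool.Agent.Helper18.UC (nn)
open Pool.Agent.Helper46.QP (TT Td orb Mx va stp)
open Pool.Agent.Helper82.QR (cs cs_meas sn_cs sn)

private lemma va24 (A : ℝ) (x : UnitAddCircle) : va (A : ℂ) x = 2 + 2 * π * (A * cs x) := by
  unfold va Pool.Agent.Helper82.QR.cs
  rw [Complex.re_ofReal_mul]

private lemma half24 (t : ℝ) : 2 * ‖(t : UnitAddCircle)‖ ≤ |Real.sin (π * t)| := by
  rw [UnitAddCircle.norm_eq]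
  have h1 : π * t = π * (t - round t) + (round t : ℤ) * π := by ring
  have h2 : |Real.sin (π * t)| = |Real.sin (π * (t - round t))| := by
    rw [h1, Real.sin_add_int_mul_pi, abs_mul, abs_zpow, abs_neg, abs_one, one_zpow, one_mul]
  have h3 : |π * (t - round t)| ≤ π / 2 := by
    rw [abs_mul, abs_of_pos Real.pi_pos]
    have := abs_sub_round t
    have hp := Real.pi_pos
    nlinarith
  have h4 := Real.mul_abs_le_abs_sin h3
  rw [h2]
  refine le_trans (le_of_eq ?_) h4
  rw [abs_mul, abs_of_pos Real.pi_pos]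
  have := Real.pi_ne_zero
  field_simp

private lemma key24 {t t0 ρ : ℝ} (h0 : 9 / 10 ≤ |Real.sin (2 * π * t0)|)
    (h : |Real.cos (2 * π * t) - Real.cos (2 * π * t0)| < ρ) :
    ‖((t - t0 : ℝ) : UnitAddCircle)‖ ≤ 3 / 5 * ρ ∨ ‖((t + t0 : ℝ) : UnitAddCircle)‖ ≤ 3 / 5 * ρ := by
  have hρ : 0 < ρ := lt_of_le_of_lt (abs_nonneg _) h
  set s1 := Real.sin (π * (t + t0)) with hs1
  set s2 := Real.sin (π * (t - t0)) with hs2
  have e1 : Real.cos (2 * π * t) - Real.cos (2 * π * t0) = -2 * s1 * s2 := by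
    rw [Real.cos_sub_cos, hs1, hs2]
    congr 2
    · congr 1
      ring_nf
    · ring_nf
  have e2 : Real.sin (2 * π * t0) = s1 * Real.cos (π * (t - t0)) - Real.cos (π * (t + t0)) * s2 := by
    rw [hs1, hs2, ← Real.sin_sub]
    congr 1
    ring
  have h2 : |Real.sin (2 * π * t0)| ≤ |s1| + |s2| := by
    rw [e2]
    refine (abs_sub _ _).trans ?_
    rw [abs_mul, abs_mul]
    have c1 := Real.abs_cos_le_one (π * (t - t0))
    have c2 := Real.abs_cos_le_one (π * (t + t0))
    have := abs_nonneg s1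
    have := abs_nonneg s2
    nlinarith
  have h3 : 2 * (|s1| * |s2|) < ρ := by
    rw [e1, abs_mul, abs_mul, abs_neg, abs_two] at h
    linarith [h, mul_assoc 2 |s1| |s2|]
  have k1 := half24 (t + t0)
  have k2 := half24 (t - t0)
  rw [← hs1] at k1
  rw [← hs2] at k2
  rcases le_or_gt (9 / 20) |s1| with h4 | h4
  · left
    have := abs_nonneg s2
    nlinarith
  · right
    have h5 : 9 / 20 ≤ |s2| := by linarith
    have := abs_nonneg s1
    nlinarith

private lemma probC24 : IsProbabilityMeasure (volume : Measure UnitAddCircle) := ⟨by simp⟩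

/-- the entry is rarely small -/
private lemma rare24 {b F s : ℝ} (hb : 1 ≤ b) (hF : b ≤ |F|) :
    volume {x : UnitAddCircle | |va (F : ℂ) x| < s} ≤ ENNReal.ofReal (s / b) := by
  have hp := Real.pi_gt_three
  have hF0 : F ≠ 0 := by
    rintro rfl
    rw [abs_zero] at hF
    linarith
  set c0 : ℝ := -1 / (π * F) with hc0
  have hc1 : |c0| ≤ 1 / 3 := by
    rw [hc0, abs_div, abs_neg, abs_one, abs_mul, abs_of_pos Real.pi_pos]
    apply one_div_le_one_div_of_le (by norm_num)
    nlinarith
  set t0 : ℝ := Real.arccos c0 / (2 * π) with ht0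
  have e0 : 2 * π * t0 = Real.arccos c0 := by
    rw [ht0]
    field_simp
  have hc2 := abs_le.1 hc1
  have e1 : Real.cos (2 * π * t0) = c0 := by
    rw [e0, Real.cos_arccos (by linarith [hc2.1]) (by linarith [hc2.2])]
  have e2 : 9 / 10 ≤ |Real.sin (2 * π * t0)| := by
    rw [e0, Real.sin_arccos, abs_of_nonneg (Real.sqrt_nonneg _)]
    apply Real.le_sqrt_of_sq_le
    have : c0 ^ 2 ≤ (1 / 3) ^ 2 := sq_le_sq' (by linarith [hc2.1]) hc2.2
    linarith
  set ρ : ℝ := s / (2 * π * b) with hρ
  have hsub : {x : UnitAddCircle | |va (F : ℂ) x| < s} ⊆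
      Metric.closedBall ((t0 : ℝ) : UnitAddCircle) (3 / 5 * ρ) ∪
        Metric.closedBall ((-t0 : ℝ) : UnitAddCircle) (3 / 5 * ρ) := by
    intro x hx
    induction x using QuotientAddGroup.induction_on with
    | H t =>
      have hx' : |va (F : ℂ) ((t : ℝ) : UnitAddCircle)| < s := hx
      rw [va24, Pool.Agent.Helper82.QR.cs_coe] at hx'
      have h1 : |Real.cos (2 * π * t) - Real.cos (2 * π * t0)| < ρ := by
        rw [e1]
        have h2 : 2 + 2 * π * (F * Real.cos (2 * π * t)) = 2 * π * F * (Real.cos (2 * π * t) - c0) := by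
          rw [hc0]
          field_simp
          ring
        rw [h2, abs_mul, abs_mul, abs_of_pos (by positivity : (0 : ℝ) < 2 * π)] at hx'
        rw [hρ, lt_div_iff₀ (by positivity)]
        have h3 : 0 ≤ |Real.cos (2 * π * t) - c0| := abs_nonneg _
        have h4 : 2 * π * b * |Real.cos (2 * π * t) - c0| ≤ 2 * π * |F| * |Real.cos (2 * π * t) - c0| := by
          gcongr
        linarith
      rcases key24 e2 h1 with h5 | h5
      · left
        rw [Metric.mem_closedBall, dist_eq_norm]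
        rwa [AddCircle.coe_sub] at h5
      · right
        rw [Metric.mem_closedBall, dist_eq_norm]
        have e3 : ((t : ℝ) : UnitAddCircle) - ((-t0 : ℝ) : UnitAddCircle) = ((t + t0 : ℝ) : UnitAddCircle) := by
          rw [← AddCircle.coe_sub]
          congr 1
          ring
        exact e3 ▸ h5
  rcases le_or_gt s 0 with hs | hs
  · have : {x : UnitAddCircle | |va (F : ℂ) x| < s} = ∅ := by
      ext x
      simp only [mem_ofPred_eq, mem_empty_iff_false, iff_false, not_lt]
      exact hs.trans (abs_nonneg _)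
    rw [this, measure_empty]
    exact zero_le
  · have hρ0 : 0 < ρ := by positivity
    have hball : ∀ x : UnitAddCircle, volume (Metric.closedBall x (3 / 5 * ρ)) ≤
        ENNReal.ofReal (6 / 5 * ρ) := by
      intro x
      rw [AddCircle.volume_closedBall]
      refine ENNReal.ofReal_le_ofReal ((min_le_right _ _).trans (le_of_eq ?_))
      ring
    refine (measure_mono hsub).trans ((measure_union_le _ _).trans ?_)
    refine (add_le_add (hball _) (hball _)).trans ?_
    rw [← ENNReal.ofReal_add (by positivity) (by positivity)]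
    refine ENNReal.ofReal_le_ofReal ?_
    rw [hρ]
    have : 6 / 5 * (s / (2 * π * b)) + 6 / 5 * (s / (2 * π * b)) = (6 / (5 * π)) * (s / b) := by
      field_simp
      ring
    rw [this]
    have h6 : 6 / (5 * π) ≤ 1 := by
      rw [div_le_one (by positivity)]
      linarith
    have h7 : 0 ≤ s / b := by positivity
    nlinarith

/-- the constant -/
private noncomputable def I24 (c : ℝ) : ENNReal :=
  (∫⁻ _t in Ioc (0 : ℝ) 1, (1 : ENNReal)) + ∫⁻ t in Ioi (1 : ℝ), ENNReal.ofReal (t ^ (-(1 / c)))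

private lemma I24_ne {c : ℝ} (hc : 0 < c) (hc1 : c < 1) : I24 c ≠ ⊤ := by
  refine ENNReal.add_ne_top.2 ⟨by simp, ?_⟩
  have hint : IntegrableOn (fun t : ℝ => t ^ (-(1 / c))) (Ioi 1) := by
    refine integrableOn_Ioi_rpow_of_lt ?_ one_pos
    have : 1 < 1 / c := by rw [lt_div_iff₀ hc]; linarith
    linarith
  exact ne_of_lt hint.lintegral_lt_top

/-- layer cake -/
private lemma cake24 {c : ℝ} (hc : 0 < c) {g : UnitAddCircle → ℝ} (hg : Measurable g)
    (h0 : ∀ x, 0 ≤ g x) (h : ∀ s, volume {x | g x < s} ≤ ENNReal.ofReal s) :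
    ∫⁻ x, ENNReal.ofReal (g x ^ (-c)) ≤ I24 c := by
  have hprob := probC24
  have hm : Measurable fun x : UnitAddCircle => g x ^ (-c) := hg.pow_const _
  rw [lintegral_eq_lintegral_meas_lt volume (Filter.Eventually.of_forall fun x => Real.rpow_nonneg (h0 x) _)
    hm.aemeasurable]
  have hsplit : (Ioi (0 : ℝ)) = Ioc 0 1 ∪ Ioi 1 := (Ioc_union_Ioi_eq_Ioi zero_le_one).symm
  rw [hsplit]
  refine (lintegral_union_le _ _ _).trans ?_
  unfold I24
  refine add_le_add ?_ ?_
  · exact lintegral_mono fun t => prob_le_one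
  · refine setLIntegral_mono' measurableSet_Ioi fun t ht => ?_
    have ht0 : (0 : ℝ) < t := lt_trans one_pos ht
    have hsub : {x : UnitAddCircle | t < g x ^ (-c)} ⊆ {x | g x < t ^ (-(1 / c))} := by
      intro x hx
      simp only [mem_ofPred_eq] at hx ⊢
      by_contra hcon
      push Not at hcon
      have h2 : 0 < t ^ (-(1 / c)) := Real.rpow_pos_of_pos ht0 _
      have h1 : g x ^ (-c) ≤ (t ^ (-(1 / c))) ^ (-c) :=
        Real.rpow_le_rpow_of_nonpos h2 hcon (by linarith)
      rw [← Real.rpow_mul ht0.le, neg_mul_neg, one_div_mul_cancel hc.ne', Real.rpow_one] at h1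
      linarith
    exact (measure_mono hsub).trans (h _)

private lemma vam24 (F : ℝ) : Measurable fun x : UnitAddCircle => va (F : ℂ) x := by
  have e : (fun x : UnitAddCircle => va (F : ℂ) x) = fun x => 2 + 2 * π * (F * cs x) := by
    funext x
    exact va24 _ _
  rw [e]
  exact ((cs_meas.const_mul _).const_mul _).const_add _

private lemma inte24 {c b F : ℝ} (hc : 0 < c) (hb : 1 ≤ b) (hF : b ≤ |F|) :
    ∫⁻ x : UnitAddCircle, ENNReal.ofReal (|va (F : ℂ) x| ^ (-c)) ≤ ENNReal.ofReal (b ^ (-c)) * I24 c := by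
  have hb0 : 0 < b := by linarith
  have hg : Measurable fun x : UnitAddCircle => |va (F : ℂ) x| / b := (vam24 F).abs.div_const _
  have h := cake24 hc hg (fun x => by positivity) (fun s => by
    have h1 := rare24 (s := s * b) hb hF
    rw [mul_div_cancel_right₀ _ hb0.ne'] at h1
    refine le_trans (measure_mono fun x hx => ?_) h1
    simp only [mem_ofPred_eq] at hx ⊢
    rwa [div_lt_iff₀ hb0] at hx)
  have e : ∀ x : UnitAddCircle, ENNReal.ofReal (|va (F : ℂ) x| ^ (-c)) =
      ENNReal.ofReal (b ^ (-c)) * ENNReal.ofReal ((|va (F : ℂ) x| / b) ^ (-c)) := by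
    intro x
    rw [← ENNReal.ofReal_mul (by positivity), ← Real.mul_rpow hb0.le (by positivity), mul_div_cancel₀ _ hb0.ne']
  simp_rw [e]
  rw [lintegral_const_mul' _ _ ENNReal.ofReal_ne_top]
  gcongr

private lemma null24 {b F : ℝ} (hb : 1 ≤ b) (hF : b ≤ |F|) :
    ∀ᵐ x : UnitAddCircle, va (F : ℂ) x ≠ 0 := by
  rw [ae_iff]
  simp only [ne_eq, not_not]
  refine le_antisymm (ENNReal.le_of_forall_pos_le_add fun ε hε _ => ?_) zero_le
  rw [zero_add]
  have hε' : (0 : ℝ) < ε := hε
  have hb0 : 0 < b := by linarith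
  calc volume {x : UnitAddCircle | va (F : ℂ) x = 0} ≤ volume {x : UnitAddCircle | |va (F : ℂ) x| < (ε : ℝ) * b} := by
        refine measure_mono fun x hx => ?_
        simp only [mem_ofPred_eq] at hx ⊢
        rw [hx, abs_zero]
        positivity
    _ ≤ ENNReal.ofReal ((ε : ℝ) * b / b) := rare24 hb hF
    _ = ε := by
        rw [mul_div_cancel_right₀ _ hb0.ne', ENNReal.ofReal_coe_nnreal]

/-- one fibre -/
private lemma fib24 {c b K F0 F1 : ℝ} (hc : 0 < c) (hc1 : c < 1) (hb : 1 ≤ b) (hK : 0 < K)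
    (hF0 : b ≤ |F0|) (hF1 : b ≤ |F1|) :
    volume {z : TT | |va (F0 : ℂ) z.1| * |va (F1 : ℂ) (stp (F0 : ℂ) z).1| < K} ≤
      ENNReal.ofReal ((K / b ^ 2) ^ c) * I24 c := by
  have hprob := probC24
  have hb0 : 0 < b := by linarith
  have hst : Measurable fun z : TT => (stp (F0 : ℂ) z).1 := by
    unfold stp
    have h1 : Measurable fun z : TT => ((((F0 : ℂ) * Pool.Agent.Helper46.QP.ee z.1).im : ℝ) : UnitAddCircle) := by
      refine AddCircle.measurable_mk'.comp ?_
      exact Complex.measurable_im.comp ((Pool.Agent.Helper46.QP.ee_meas.comp measurable_fst).const_mul _)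
    exact ((measurable_fst.add measurable_fst).sub measurable_snd).add h1
  have hms : MeasurableSet {z : TT | |va (F0 : ℂ) z.1| * |va (F1 : ℂ) (stp (F0 : ℂ) z).1| < K} :=
    measurableSet_lt ((((vam24 F0).comp measurable_fst).abs).mul (((vam24 F1).comp hst).abs)) measurable_const
  have h1 : volume {z : TT | |va (F0 : ℂ) z.1| * |va (F1 : ℂ) (stp (F0 : ℂ) z).1| < K} =
      ∫⁻ x : UnitAddCircle, volume (Prod.mk x ⁻¹' {z : TT | |va (F0 : ℂ) z.1| * |va (F1 : ℂ) (stp (F0 : ℂ) z).1| < K}) :=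
    Measure.prod_apply hms
  rw [h1]
  have h2 : ∀ᵐ x : UnitAddCircle, volume (Prod.mk x ⁻¹' {z : TT | |va (F0 : ℂ) z.1| * |va (F1 : ℂ) (stp (F0 : ℂ) z).1| < K}) ≤
      ENNReal.ofReal ((K / b) ^ c) * ENNReal.ofReal (|va (F0 : ℂ) x| ^ (-c)) := by
    filter_upwards [null24 hb hF0] with x hx
    have hx0 : 0 < |va (F0 : ℂ) x| := abs_pos.2 hx
    set A : UnitAddCircle := x + x + ((((F0 : ℂ) * Pool.Agent.Helper46.QP.ee x).im : ℝ) : UnitAddCircle) with hA
    have h3 : Prod.mk x ⁻¹' {z : TT | |va (F0 : ℂ) z.1| * |va (F1 : ℂ) (stp (F0 : ℂ) z).1| < K} ⊆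
        (fun y : UnitAddCircle => A - y) ⁻¹' {u | |va (F1 : ℂ) u| < K / |va (F0 : ℂ) x|} := by
      intro y hy
      simp only [mem_preimage, mem_ofPred_eq] at hy ⊢
      have e : (stp (F0 : ℂ) (x, y)).1 = A - y := by
        unfold stp
        rw [hA]
        simp only
        abel
      rw [e] at hy
      rw [lt_div_iff₀ hx0]
      linarith [mul_comm |va (F0 : ℂ) x| |va (F1 : ℂ) (A - y)|]
    have hmu : MeasurableSet {u : UnitAddCircle | |va (F1 : ℂ) u| < K / |va (F0 : ℂ) x|} :=
      measurableSet_lt (vam24 F1).abs measurable_const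
    have h4 : volume ((fun y : UnitAddCircle => A - y) ⁻¹' {u | |va (F1 : ℂ) u| < K / |va (F0 : ℂ) x|}) =
        volume {u : UnitAddCircle | |va (F1 : ℂ) u| < K / |va (F0 : ℂ) x|} :=
      (Measure.measurePreserving_sub_left volume A).measure_preimage hmu.nullMeasurableSet
    refine (measure_mono h3).trans ?_
    rw [h4]
    rw [← ENNReal.ofReal_mul (by positivity)]
    set T : ℝ := K / |va (F0 : ℂ) x| / b with hT
    have hT0 : 0 < T := by positivity
    have e5 : (K / b) ^ c * |va (F0 : ℂ) x| ^ (-c) = T ^ c := by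
      rw [Real.rpow_neg hx0.le, ← Real.inv_rpow hx0.le, ← Real.mul_rpow (by positivity) (by positivity)]
      congr 1
      rw [hT]
      field_simp
    rw [e5]
    rcases le_or_gt T 1 with h6 | h6
    · refine (rare24 hb hF1).trans (ENNReal.ofReal_le_ofReal ?_)
      calc T = T ^ (1 : ℝ) := (Real.rpow_one _).symm
        _ ≤ T ^ c := Real.rpow_le_rpow_of_exponent_ge hT0 h6 hc1.le
    · refine prob_le_one.trans ?_
      rw [← ENNReal.ofReal_one]
      exact ENNReal.ofReal_le_ofReal (Real.one_le_rpow h6.le hc.le)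
  refine (lintegral_mono_ae h2).trans ?_
  rw [lintegral_const_mul' _ _ ENNReal.ofReal_ne_top]
  refine (mul_le_mul_right (inte24 hc hb hF0) _).trans (le_of_eq ?_)
  rw [← mul_assoc, ← ENNReal.ofReal_mul (by positivity)]
  congr 2
  rw [Real.rpow_neg hb0.le, ← Real.inv_rpow hb0.le, ← Real.mul_rpow (by positivity) (by positivity)]
  congr 1
  field_simp

theorem nu2 {c : ℝ} (hc : 0 < c) (hc1 : c < 1) : ∃ C : ℝ, 1 ≤ C ∧ ∀ (d : ℕ) (α : Td d) (f : Td d → ℝ) (b K : ℝ),
    Continuous f → 1 ≤ b → (∀ θ, b ≤ |f θ|) → 0 < K →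
    volume {p : Td d × TT | |va ((f p.1 : ℝ) : ℂ) p.2.1| * |va ((f (Fs α f p).1 : ℝ) : ℂ) (Fs α f p).2.1| < K} ≤
      ENNReal.ofReal (C * (K / b ^ 2) ^ c) := by
  refine ⟨max 1 (I24 c).toReal, le_max_left _ _, ?_⟩
  intro d α f b K hf hb hfb hK
  have hC1 := probC24
  have hD1 : IsProbabilityMeasure (volume : Measure (Td d)) := by
    change IsProbabilityMeasure (Measure.pi fun _ : Fin d => (volume : Measure UnitAddCircle))
    infer_instance
  have hb0 : 0 < b := by linarith
  have hms : MeasurableSet {p : Td d × TT | |va ((f p.1 : ℝ) : ℂ) p.2.1| *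
      |va ((f (Fs α f p).1 : ℝ) : ℂ) (Fs α f p).2.1| < K} := by
    have hcv : Continuous fun p : ℝ × UnitAddCircle => va ((p.1 : ℝ) : ℂ) p.2 := by
      unfold va Pool.Agent.Helper46.QP.ee
      refine continuous_const.add (continuous_const.mul (Complex.continuous_re.comp ?_))
      exact (Complex.continuous_ofReal.comp continuous_fst).mul
        ((fourier 1).continuous.comp continuous_snd)
    have hs : Measurable fun p : Td d × TT => (Fs α f p).2.1 := by
      unfold Fs stp
      have h1 : Measurable fun p : Td d × TT =>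
          (((((f p.1 : ℝ) : ℂ) * Pool.Agent.Helper46.QP.ee p.2.1).im : ℝ) : UnitAddCircle) := by
        refine AddCircle.measurable_mk'.comp ?_
        exact Complex.measurable_im.comp ((Complex.measurable_ofReal.comp (hf.measurable.comp measurable_fst)).mul
          (Pool.Agent.Helper46.QP.ee_meas.comp (measurable_fst.comp measurable_snd)))
      have h2 : Measurable fun p : Td d × TT => p.2.1 := measurable_fst.comp measurable_snd
      have h3 : Measurable fun p : Td d × TT => p.2.2 := measurable_snd.comp measurable_snd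
      exact ((h2.add h2).sub h3).add h1
    have hf1 : Measurable fun p : Td d × TT => f (Fs α f p).1 := by
      unfold Fs
      exact (hf.comp (continuous_fst.add continuous_const)).measurable
    have m1 : Measurable fun p : Td d × TT => va ((f p.1 : ℝ) : ℂ) p.2.1 :=
      hcv.measurable.comp ((hf.measurable.comp measurable_fst).prodMk (measurable_fst.comp measurable_snd))
    have m2 : Measurable fun p : Td d × TT => va ((f (Fs α f p).1 : ℝ) : ℂ) (Fs α f p).2.1 :=
      hcv.measurable.comp (hf1.prodMk hs)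
    exact measurableSet_lt (m1.abs.mul m2.abs) measurable_const
  have h1 : volume {p : Td d × TT | |va ((f p.1 : ℝ) : ℂ) p.2.1| * |va ((f (Fs α f p).1 : ℝ) : ℂ) (Fs α f p).2.1| < K} =
      ∫⁻ θ : Td d, volume (Prod.mk θ ⁻¹' {p : Td d × TT | |va ((f p.1 : ℝ) : ℂ) p.2.1| *
        |va ((f (Fs α f p).1 : ℝ) : ℂ) (Fs α f p).2.1| < K}) := Measure.prod_apply hms
  rw [h1]
  calc ∫⁻ θ : Td d, volume (Prod.mk θ ⁻¹' {p : Td d × TT | |va ((f p.1 : ℝ) : ℂ) p.2.1| *
        |va ((f (Fs α f p).1 : ℝ) : ℂ) (Fs α f p).2.1| < K})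
      ≤ ∫⁻ _θ : Td d, ENNReal.ofReal ((K / b ^ 2) ^ c) * I24 c := by
        refine lintegral_mono fun θ => ?_
        exact fib24 hc hc1 hb hK (hfb θ) (hfb (θ + α))
    _ = ENNReal.ofReal ((K / b ^ 2) ^ c) * I24 c := by
        rw [lintegral_const, measure_univ, mul_one]
    _ = ENNReal.ofReal ((K / b ^ 2) ^ c * (I24 c).toReal) := by
        rw [ENNReal.ofReal_mul (by positivity), ENNReal.ofReal_toReal (I24_ne hc hc1)]
    _ ≤ ENNReal.ofReal (max 1 (I24 c).toReal * (K / b ^ 2) ^ c) := by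
        refine ENNReal.ofReal_le_ofReal ?_
        rw [mul_comm]
        gcongr
        exact le_max_right _ _

end Pool.Agent.Helper82.AN
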