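import Pool.Agent.Helper82.AN.Final
import Pool.Agent.Helper82.AN.GrowthZ

/-! Project AN (MP_9ee088_an): assembly. -/

set_option autoImplicit false
open MeasureTheory Real Set Filter Topology

namespace Pool.Agent.Helper82.AN

open Pool.Agent.Helper18.UC (nn LL)
open Pool.Agent.Helper46.QP (TT Td orb Mx va stp)

variable {d : ℕ}

theorem Hol.cont {f : Td d → ℝ} (h : Hol f) : Continuous f := by
  obtain ⟨K, r, hr, h⟩ := h
  rw [continuous_iff_continuousAt]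
  intro x
  rw [ContinuousAt, tendsto_iff_dist_tendsto_zero]
  have h1 : Tendsto (fun y => K * dist y x ^ r) (𝓝 x) (𝓝 0) := by
    have h2 : Tendsto (fun y : Td d => dist y x) (𝓝 x) (𝓝 0) := by
      have := (tendsto_id (x := 𝓝 x)).dist (tendsto_const_nhds (x := x))
      simpa using this
    have h3 := h2.rpow_const (p := r) (Or.inr hr.le)
    rw [Real.zero_rpow hr.ne'] at h3
    simpa using h3.const_mul K
  exact squeeze_zero (fun _ => dist_nonneg) (fun y => h y x) h1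

/-- the general statement -/
theorem good_all_u (hd : 0 < d) {γ τ : ℝ} (hγ : 0 < γ) (hτ : 1 / (d : ℝ) ≤ τ) (hτγ : τ * γ < 1) {k : ℕ}
    {e : Fin k → Td d → ℝ} (he : ∀ i, Hol (e i)) {c ε : ℝ} (hc : 0 < c) (hc1 : c < 1) (hε : 0 < ε) (hεc : ε < c) :
    ∃ κ : ℝ, 0 < κ ∧ ∀ᵐ w ∂lawL d, ∀ R c₀ : ℝ, 1 ≤ R → 0 < c₀ → ∃ A₁ : ℝ, ∀ α : Td d, Dio c₀ τ α → Ind α →
      ∀ U : Fin (k + 1) → ℝ, A₁ ≤ ‖U‖ → Real.exp (-‖U‖ ^ (c - ε)) ≤ |U 0| → ND (amU γ e U w) ‖U‖ c R →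
      GoodA α (amU γ e U w) (‖U‖ ^ (-κ)) := by
  obtain ⟨κ, hκ, hgr⟩ := growth_u hd hγ hτ hτγ he hc hc1 hε hεc
  obtain ⟨κ', hκ', hcore⟩ := good_core hκ hc hc1
  refine ⟨κ', hκ', ?_⟩
  filter_upwards [hgr, amU_bd hγ fun i => (he i).cont] with w hw hbd R c₀ hR hc₀
  obtain ⟨κ₁, hκ₁, hb⟩ := hbd
  obtain ⟨A₁, hA₁⟩ := hw R c₀ hR hc₀
  obtain ⟨A₂, hA₂⟩ := hcore κ₁ R hκ₁ hR
  refine ⟨max A₁ A₂, fun α hα hind U hU hU0 hnd => ?_⟩
  exact hA₂ d α _ _ hind ((le_max_right _ _).trans hU) (hb U).1 (hb U).2 hnd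
    (hA₁ α hα U ((le_max_left _ _).trans hU) hU0 hnd)

/-- the general statement for amplitudes without zeros -/
theorem good_all_z (hd : 0 < d) {γ τ : ℝ} (hγ : 0 < γ) (hτ : 1 / (d : ℝ) ≤ τ) (hτγ : τ * γ < 1) {k : ℕ}
    {e : Fin k → Td d → ℝ} (he : ∀ i, Hol (e i)) {c ε : ℝ} (hc : 0 < c) (hc2 : c < 2) (hε : 0 < ε) (hεc : ε < c) :
    ∃ κ : ℝ, 0 < κ ∧ ∀ᵐ w ∂lawL d, ∀ b c₀ : ℝ, 0 < b → 0 < c₀ → ∃ A₁ : ℝ, ∀ α : Td d, Dio c₀ τ α → Ind α →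
      ∀ U : Fin (k + 1) → ℝ, A₁ ≤ ‖U‖ → Real.exp (-‖U‖ ^ (c - ε)) ≤ |U 0| →
      (∀ θ, b * ‖U‖ ≤ |amU γ e U w θ|) → GoodA α (amU γ e U w) (‖U‖ ^ (-κ)) := by
  obtain ⟨κ, hκ, hgr⟩ := growth_z hd hγ hτ hτγ he hc hc2 hε hεc
  obtain ⟨κ', hκ', hcore⟩ := good_core hκ (show (0 : ℝ) < 1 / 2 by norm_num) (by norm_num)
  refine ⟨κ', hκ', ?_⟩
  filter_upwards [hgr, amU_bd hγ fun i => (he i).cont] with w hw hbd b c₀ hb0 hc₀
  obtain ⟨κ₁, hκ₁, hb⟩ := hbd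
  obtain ⟨A₁, hA₁⟩ := hw b c₀ hb0 hc₀
  obtain ⟨A₂, hA₂⟩ := hcore κ₁ (max 1 (b⁻¹ ^ (1 / 2 : ℝ))) hκ₁ (le_max_left _ _)
  refine ⟨max A₁ A₂, fun α hα hind U hU hU0 hlow => ?_⟩
  refine hA₂ d α _ _ hind ((le_max_right _ _).trans hU) (hb U).1 (hb U).2 ?_
    (hA₁ α hα U ((le_max_left _ _).trans hU) hU0 hlow)
  intro t ht
  rcases le_or_gt ‖U‖ 0 with h0 | h0
  · have h1 : {θ : Td d | |amU γ e U w θ| < t * ‖U‖} = ∅ := by
      have h2 : ‖U‖ = 0 := le_antisymm h0 (norm_nonneg _)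
      ext θ
      simp [h2]
    rw [h1, measure_empty]
    exact zero_le
  have ht0 : 0 < t := (one_div_pos.2 h0).trans_le ht
  rcases le_or_gt t b with htb | htb
  · have h1 : {θ : Td d | |amU γ e U w θ| < t * ‖U‖} = ∅ := by
      ext θ
      simp only [mem_ofPred_eq, mem_empty_iff_false, iff_false, not_lt]
      exact (mul_le_mul_of_nonneg_right htb h0.le).trans (hlow θ)
    rw [h1, measure_empty]
    exact zero_le
  · calc volume {θ : Td d | |amU γ e U w θ| < t * ‖U‖} ≤ 1 := prob_le_one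
      _ ≤ ENNReal.ofReal (max 1 (b⁻¹ ^ (1 / 2 : ℝ)) * t ^ (1 / 2 : ℝ)) := by
        rw [← ENNReal.ofReal_one]
        apply ENNReal.ofReal_le_ofReal
        calc (1 : ℝ) ≤ (b⁻¹ * t) ^ (1 / 2 : ℝ) := by
              apply Real.one_le_rpow _ (by norm_num)
              rw [inv_mul_eq_div, one_le_div hb0]
              exact htb.le
          _ = b⁻¹ ^ (1 / 2 : ℝ) * t ^ (1 / 2 : ℝ) := Real.mul_rpow (by positivity) ht0.le
          _ ≤ _ := by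
            gcongr
            exact le_max_right _ _

private lemma kM {M x κ κ' : ℝ} (hM : 1 ≤ M) (hx : M ≤ x) (hκ : κ ≤ κ') (hκ' : 0 < κ') : x ^ (-κ') ≤ M ^ (-κ) := by
  have hM0 : 0 < M := by linarith
  calc x ^ (-κ') ≤ M ^ (-κ') := Real.rpow_le_rpow_of_nonpos hM0 hx (by linarith)
    _ ≤ M ^ (-κ) := Real.rpow_le_rpow_of_exponent_le hM (by linarith)

/-- the coefficient of the noise is not small -/
theorem fin_II (hd : 0 < d) {γ τ : ℝ} (hγ : 0 < γ) (hτ : 1 / (d : ℝ) ≤ τ) (hτγ : τ * γ < 1)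
    {g : Td d → ℝ} (hg : Hol g) {c Rg : ℝ} (hc : 0 < c) (hc1 : c ≤ 1) (hRg : 0 ≤ Rg)
    (hgn : ∀ t : ℝ, 0 < t → volume {θ | |g θ| < t} ≤ ENNReal.ofReal (Rg * t ^ c))
    {k : ℕ} {e : Fin k → Td d → ℝ} (he : ∀ i, Hol (e i)) {S₁ : ℝ} (hS1 : 1 ≤ S₁) :
    ∃ κ : ℝ, 0 < κ ∧ ∀ᵐ w ∂lawL d, ∀ c₀ : ℝ, 0 < c₀ → ∃ A : ℝ, ∀ α : Td d, Dio c₀ τ α → Ind α →
      ∀ (a q : ℝ) (s : Fin k → ℝ), A ≤ max |a| |q| → 1 < |q| → ‖s‖ ≤ S₁ →
      GoodA α (fun θ => a * g θ + q * ((∑ i, s i * e i θ) + eta γ w θ)) ((max |a| |q|) ^ (-κ)) := by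
  have he' : ∀ i, Hol ((Fin.cons g e : Fin (k + 1) → Td d → ℝ) i) := by
    intro i
    refine Fin.cases ?_ (fun j => ?_) i
    · exact hg
    · exact he j
  set c' : ℝ := 1 / (8 * ((k + 1 : ℕ) : ℝ) + 12) with hc'
  have hc'0 : 0 < c' := by positivity
  set c₂ : ℝ := min c c' / 2 with hc₂
  have hc₂0 : 0 < c₂ := by positivity
  have hc₂1 : c₂ < 1 := by
    have := min_le_left c c'
    rw [hc₂]
    linarith
  obtain ⟨κ₂, hκ₂, hg2⟩ := good_all_u hd hγ hτ hτγ he' hc₂0 hc₂1 (ε := c₂ / 2) (by linarith) (by linarith)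
  have hS0 : 0 < S₁ := one_pos.trans_le hS1
  refine ⟨κ₂, hκ₂, ?_⟩
  filter_upwards [hg2, nd_k hd hγ fun i => (he' i).cont, V_bd hγ (fun i => (he i).cont) hS0] with w h2 h3 h4 c₀ hc₀
  obtain ⟨R, hR1, hR⟩ := h3
  obtain ⟨H, hH0, hV⟩ := h4
  have hRR : 0 ≤ Rg * (S₁ * (1 + H)) ^ c := by positivity
  obtain ⟨A₂, hA₂⟩ := h2 (R + S₁ ^ 2 + 1 + Rg * (S₁ * (1 + H)) ^ c) c₀ (by nlinarith [sq_nonneg S₁]) hc₀
  refine ⟨max A₂ 1, fun α hα hind a q s hA hq hs => ?_⟩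
  set M : ℝ := max |a| |q| with hM
  have hM1 : 1 ≤ M := (le_max_right _ _).trans hA
  have hM1' : A₂ ≤ M := (le_max_left _ _).trans hA
  obtain ⟨hn1, hn2⟩ := par_norm (a := a) (q := q) hs hS1
  have hp0 : par a q s 0 = q := rfl
  rw [← par_amU g e a q s w]
  have hq0 : q ≠ 0 := by
    intro h
    rw [h, abs_zero] at hq
    linarith
  have hnd : ND (amU γ (Fin.cons g e : Fin (k + 1) → Td d → ℝ) (par a q s) w) ‖par a q s‖ c₂
      (R + S₁ ^ 2 + 1 + Rg * (S₁ * (1 + H)) ^ c) := by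
    rw [par_amU]
    refine nd_II (V := fun θ => (∑ i, s i * e i θ) + eta γ w θ) hc hc1 hc'0 hRg (by linarith) hgn hH0
      (hV s hs) ?_ hS1 hq0 hn1 hn2
    intro t ht s₀ hs₀ hSt
    have h4 := hR t ht (Fin.cons s₀ s : Fin (k + 1) → ℝ) ?_
    · have e1 : ∀ θ, s₀ * g θ + ((∑ i, s i * e i θ) + eta γ w θ) =
          (∑ i, (Fin.cons s₀ s : Fin (k + 1) → ℝ) i * (Fin.cons g e : Fin (k + 1) → Td d → ℝ) i θ) + eta γ w θ := by
        intro θ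
        rw [Fin.sum_univ_succ]
        simp only [Fin.cons_succ, Fin.cons_zero]
        ring
      simp only [e1]
      exact h4
    · refine (pi_norm_le_iff_of_nonneg (by positivity)).2 fun i => ?_
      refine Fin.cases ?_ (fun j => ?_) i
      · exact hs₀
      · exact (norm_le_pi_norm s j).trans (hs.trans hSt)
  refine (hA₂ α hα hind (par a q s) (hM1'.trans hn1) ?_ hnd).mono (kM hM1 hn1 le_rfl hκ₂)
  rw [hp0]
  refine le_trans ?_ hq.le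
  rw [← Real.exp_zero]
  exact Real.exp_le_exp.2 (neg_nonpos.2 (by positivity))

/-- small coefficient of the noise, general background -/
theorem fin_I (hd : 0 < d) {γ τ : ℝ} (hγ : 0 < γ) (hτ : 1 / (d : ℝ) ≤ τ) (hτγ : τ * γ < 1)
    {g : Td d → ℝ} (hg : Hol g) {c ε Rg : ℝ} (hε : 0 < ε) (hεc : ε < c) (hc1 : c < 1) (hRg : 1 ≤ Rg)
    (hgn : ∀ t : ℝ, 0 < t → volume {θ | |g θ| < t} ≤ ENNReal.ofReal (Rg * t ^ c))
    {k : ℕ} {e : Fin k → Td d → ℝ} (he : ∀ i, Hol (e i)) {S₁ : ℝ} (hS1 : 1 ≤ S₁) :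
    ∃ κ : ℝ, 0 < κ ∧ ∀ᵐ w ∂lawL d, ∀ c₀ : ℝ, 0 < c₀ → ∃ A : ℝ, ∀ α : Td d, Dio c₀ τ α → Ind α →
      ∀ (a q : ℝ) (s : Fin k → ℝ), A ≤ max |a| |q| → Real.exp (-(max |a| |q|) ^ (c - ε)) ≤ |q| → |q| ≤ 1 →
      ‖s‖ ≤ S₁ → GoodA α (fun θ => a * g θ + q * ((∑ i, s i * e i θ) + eta γ w θ)) ((max |a| |q|) ^ (-κ)) := by
  have hc : 0 < c := hε.trans hεc
  have he' : ∀ i, Hol ((Fin.cons g e : Fin (k + 1) → Td d → ℝ) i) := by
    intro i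
    refine Fin.cases ?_ (fun j => ?_) i
    · exact hg
    · exact he j
  obtain ⟨κ₁, hκ₁, hg1⟩ := good_all_u hd hγ hτ hτγ he' hc hc1 hε hεc
  have hS0 : 0 < S₁ := one_pos.trans_le hS1
  refine ⟨κ₁, hκ₁, ?_⟩
  filter_upwards [hg1, V_bd hγ (fun i => (he i).cont) hS0] with w h1 h4 c₀ hc₀
  obtain ⟨H, hH0, hV⟩ := h4
  have hq1 : 1 ≤ (S₁ * (1 + H)) ^ c := Real.one_le_rpow (by nlinarith) hc.le
  obtain ⟨A₁, hA₁⟩ := h1 (Rg * (S₁ * (1 + H)) ^ c) c₀ (by nlinarith) hc₀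
  refine ⟨max A₁ 2, fun α hα hind a q s hA hexp hq hs => ?_⟩
  set M : ℝ := max |a| |q| with hM
  have hM2 : 2 ≤ M := (le_max_right _ _).trans hA
  have hM1 : A₁ ≤ M := (le_max_left _ _).trans hA
  have hM0 : 0 < M := by linarith
  obtain ⟨hn1, hn2⟩ := par_norm (a := a) (q := q) hs hS1
  have hp0 : par a q s 0 = q := rfl
  rw [← par_amU g e a q s w]
  have hMa : M = |a| := by
    rcases le_total |a| |q| with h | h
    · have : M = |q| := max_eq_right h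
      linarith
    · exact max_eq_left h
  have hnd : ND (amU γ (Fin.cons g e : Fin (k + 1) → Td d → ℝ) (par a q s) w) ‖par a q s‖ c
      (Rg * (S₁ * (1 + H)) ^ c) := by
    rw [par_amU]
    rw [← hM, hMa] at hn1 hn2
    exact nd_I (V := fun θ => (∑ i, s i * e i θ) + eta γ w θ) hgn hH0 (hV s hs) hS1 hq (hMa ▸ hM0) hn1 hn2
  refine (hA₁ α hα hind (par a q s) (hM1.trans hn1) ?_ hnd).mono (kM (by linarith) hn1 le_rfl hκ₁)
  rw [hp0]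
  refine le_trans (Real.exp_le_exp.2 (neg_le_neg ?_)) hexp
  exact Real.rpow_le_rpow hM0.le hn1 (by linarith)

/-- small coefficient of the noise, background without zeros -/
theorem fin_Z (hd : 0 < d) {γ τ : ℝ} (hγ : 0 < γ) (hτ : 1 / (d : ℝ) ≤ τ) (hτγ : τ * γ < 1)
    {g : Td d → ℝ} (hg : Hol g) {c ε m : ℝ} (hε : 0 < ε) (hεc : ε < c) (hc2 : c < 2) (hm : 0 < m)
    (hgm : ∀ θ, m ≤ |g θ|) {k : ℕ} {e : Fin k → Td d → ℝ} (he : ∀ i, Hol (e i)) {S₁ : ℝ} (hS1 : 1 ≤ S₁) :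
    ∃ κ : ℝ, 0 < κ ∧ ∀ᵐ w ∂lawL d, ∀ c₀ : ℝ, 0 < c₀ → ∃ A : ℝ, ∀ α : Td d, Dio c₀ τ α → Ind α →
      ∀ (a q : ℝ) (s : Fin k → ℝ), A ≤ max |a| |q| → Real.exp (-(max |a| |q|) ^ (c - ε)) ≤ |q| → |q| ≤ 1 →
      ‖s‖ ≤ S₁ → GoodA α (fun θ => a * g θ + q * ((∑ i, s i * e i θ) + eta γ w θ)) ((max |a| |q|) ^ (-κ)) := by
  have hc : 0 < c := hε.trans hεc
  have he' : ∀ i, Hol ((Fin.cons g e : Fin (k + 1) → Td d → ℝ) i) := by
    intro i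
    refine Fin.cases ?_ (fun j => ?_) i
    · exact hg
    · exact he j
  obtain ⟨κ₁, hκ₁, hg1⟩ := good_all_z hd hγ hτ hτγ he' hc hc2 hε hεc
  have hS0 : 0 < S₁ := one_pos.trans_le hS1
  refine ⟨κ₁, hκ₁, ?_⟩
  filter_upwards [hg1, V_bd hγ (fun i => (he i).cont) hS0] with w h1 h4 c₀ hc₀
  obtain ⟨H, hH0, hV⟩ := h4
  obtain ⟨A₁, hA₁⟩ := h1 (m / (2 * S₁)) c₀ (by positivity) hc₀
  refine ⟨max A₁ (max 2 (2 * H / m)), fun α hα hind a q s hA hexp hq hs => ?_⟩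
  set M : ℝ := max |a| |q| with hM
  have hM2 : 2 ≤ M := (le_max_left _ _).trans ((le_max_right _ _).trans hA)
  have hMH : 2 * H / m ≤ M := (le_max_right _ _).trans ((le_max_right _ _).trans hA)
  have hM1 : A₁ ≤ M := (le_max_left _ _).trans hA
  have hM0 : 0 < M := by linarith
  obtain ⟨hn1, hn2⟩ := par_norm (a := a) (q := q) hs hS1
  have hp0 : par a q s 0 = q := rfl
  rw [← par_amU g e a q s w]
  have hMa : M = |a| := by
    rcases le_total |a| |q| with h | h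
    · have : M = |q| := max_eq_right h
      linarith
    · exact max_eq_left h
  have hlow : ∀ θ, m / (2 * S₁) * ‖par a q s‖ ≤ |amU γ (Fin.cons g e : Fin (k + 1) → Td d → ℝ) (par a q s) w θ| := by
    intro θ
    rw [par_amU]
    rw [← hM, hMa] at hn2
    rw [hMa, div_le_iff₀ hm] at hMH
    have e1 : |a| * |g θ| ≤ |a * g θ + q * ((∑ i, s i * e i θ) + eta γ w θ)| +
        |q * ((∑ i, s i * e i θ) + eta γ w θ)| := by
      rw [← abs_mul]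
      have := abs_add_le (a * g θ + q * ((∑ i, s i * e i θ) + eta γ w θ)) (-(q * ((∑ i, s i * e i θ) + eta γ w θ)))
      rw [abs_neg] at this
      simpa using this
    have e2 : |q * ((∑ i, s i * e i θ) + eta γ w θ)| ≤ H := by
      rw [abs_mul]
      have := mul_le_mul hq (hV s hs θ) (abs_nonneg _) zero_le_one
      linarith
    have e3 : |a| * m ≤ |a| * |g θ| := mul_le_mul_of_nonneg_left (hgm θ) (abs_nonneg _)
    have e4 : m / (2 * S₁) * ‖par a q s‖ ≤ |a| * m / 2 := by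
      calc m / (2 * S₁) * ‖par a q s‖ ≤ m / (2 * S₁) * (S₁ * |a|) := by gcongr
        _ = |a| * m / 2 := by
          field_simp
    linarith
  refine (hA₁ α hα hind (par a q s) (hM1.trans hn1) ?_ hlow).mono (kM (by linarith) hn1 le_rfl hκ₁)
  rw [hp0]
  refine le_trans (Real.exp_le_exp.2 (neg_le_neg ?_)) hexp
  exact Real.rpow_le_rpow hM0.le hn1 (by linarith)

/-- **The theorem.** -/
theorem fin_all (hd : 0 < d) {γ τ : ℝ} (hγ : 0 < γ) (hτ : 1 / (d : ℝ) ≤ τ) (hτγ : τ * γ < 1)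
    {g : Td d → ℝ} (hg : Hol g) {c ε : ℝ} (hε : 0 < ε) (hεc : ε < c)
    (hgn : (c < 2 ∧ ∀ θ, g θ ≠ 0) ∨
      (c < 1 ∧ ∃ R : ℝ, ∀ t : ℝ, 0 < t → volume {θ | |g θ| < t} ≤ ENNReal.ofReal (R * t ^ c)))
    {k : ℕ} {e : Fin k → Td d → ℝ} (he : ∀ i, Hol (e i)) (S : ℝ) :
    ∃ κ : ℝ, 0 < κ ∧ ∀ᵐ w ∂lawL d, ∀ c₀ : ℝ, 0 < c₀ → ∃ A : ℝ, ∀ α : Td d, Dio c₀ τ α → Ind α →
      ∀ (a q : ℝ) (s : Fin k → ℝ), A ≤ max |a| |q| → Real.exp (-(max |a| |q|) ^ (c - ε)) ≤ |q| → ‖s‖ ≤ S →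
      GoodA α (fun θ => a * g θ + q * ((∑ i, s i * e i θ) + eta γ w θ)) ((max |a| |q|) ^ (-κ)) := by
  have hc : 0 < c := hε.trans hεc
  -- both cases reduce to a statement for small and a statement for large coefficients
  have key : (∃ κ : ℝ, 0 < κ ∧ ∀ᵐ w ∂lawL d, ∀ c₀ : ℝ, 0 < c₀ → ∃ A : ℝ, ∀ α : Td d, Dio c₀ τ α → Ind α →
      ∀ (a q : ℝ) (s : Fin k → ℝ), A ≤ max |a| |q| → Real.exp (-(max |a| |q|) ^ (c - ε)) ≤ |q| → |q| ≤ 1 →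
      ‖s‖ ≤ max S 1 →
      GoodA α (fun θ => a * g θ + q * ((∑ i, s i * e i θ) + eta γ w θ)) ((max |a| |q|) ^ (-κ))) ∧
      (∃ κ : ℝ, 0 < κ ∧ ∀ᵐ w ∂lawL d, ∀ c₀ : ℝ, 0 < c₀ → ∃ A : ℝ, ∀ α : Td d, Dio c₀ τ α → Ind α →
      ∀ (a q : ℝ) (s : Fin k → ℝ), A ≤ max |a| |q| → 1 < |q| → ‖s‖ ≤ max S 1 →
      GoodA α (fun θ => a * g θ + q * ((∑ i, s i * e i θ) + eta γ w θ)) ((max |a| |q|) ^ (-κ))) := by
    rcases hgn with ⟨hc2, h0⟩ | ⟨hc1, R, hR⟩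
    · -- no zeros
      obtain ⟨m, hm, hgm⟩ : ∃ m : ℝ, 0 < m ∧ ∀ θ, m ≤ |g θ| := by
        obtain ⟨x, -, hx⟩ := (isCompact_univ (X := Td d)).exists_isMinOn ⟨0, mem_univ _⟩
          (hg.cont.abs).continuousOn
        exact ⟨|g x|, abs_pos.2 (h0 x), fun θ => hx (mem_univ θ)⟩
      have hnd : ∀ t : ℝ, 0 < t → volume {θ | |g θ| < t} ≤ ENNReal.ofReal (m⁻¹ ^ (1 / 2 : ℝ) * t ^ (1 / 2 : ℝ)) := by
        intro t ht
        rcases le_or_gt t m with h | h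
        · have h1 : {θ : Td d | |g θ| < t} = ∅ := by
            ext θ
            simp only [mem_ofPred_eq, mem_empty_iff_false, iff_false, not_lt]
            exact h.trans (hgm θ)
          rw [h1, measure_empty]
          exact zero_le
        · calc volume {θ : Td d | |g θ| < t} ≤ 1 := prob_le_one
            _ ≤ _ := by
              rw [← ENNReal.ofReal_one, ← Real.mul_rpow (by positivity) ht.le]
              apply ENNReal.ofReal_le_ofReal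
              apply Real.one_le_rpow _ (by norm_num)
              rw [inv_mul_eq_div, one_le_div hm]
              exact h.le
      exact ⟨fin_Z hd hγ hτ hτγ hg hε hεc hc2 hm hgm he (le_max_right _ _),
        fin_II hd hγ hτ hτγ hg (by norm_num) (by norm_num) (by positivity) hnd he (le_max_right _ _)⟩
    · have hR' : ∀ t : ℝ, 0 < t → volume {θ | |g θ| < t} ≤ ENNReal.ofReal (max R 1 * t ^ c) := fun t ht =>
        (hR t ht).trans (ENNReal.ofReal_le_ofReal (mul_le_mul_of_nonneg_right (le_max_left _ _) (by positivity)))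
      exact ⟨fin_I hd hγ hτ hτγ hg hε hεc hc1 (le_max_right _ _) hR' he (le_max_right _ _),
        fin_II hd hγ hτ hτγ hg hc hc1.le (by positivity) hR' he (le_max_right _ _)⟩
  obtain ⟨⟨κ₁, hκ₁, h1⟩, κ₂, hκ₂, h2⟩ := key
  refine ⟨min κ₁ κ₂, lt_min hκ₁ hκ₂, ?_⟩
  filter_upwards [h1, h2] with w h1 h2 c₀ hc₀
  obtain ⟨A₁, hA₁⟩ := h1 c₀ hc₀
  obtain ⟨A₂, hA₂⟩ := h2 c₀ hc₀
  refine ⟨max 1 (max A₁ A₂), fun α hα hind a q s hA hexp hs => ?_⟩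
  have hM1 : 1 ≤ max |a| |q| := (le_max_left _ _).trans hA
  have hs' : ‖s‖ ≤ max S 1 := hs.trans (le_max_left _ _)
  rcases le_or_gt |q| 1 with hq | hq
  · exact (hA₁ α hα hind a q s ((le_max_left _ _).trans ((le_max_right _ _).trans hA)) hexp hq hs').mono
      (kM hM1 le_rfl (min_le_left _ _) hκ₁)
  · exact (hA₂ α hα hind a q s ((le_max_right _ _).trans ((le_max_right _ _).trans hA)) hq hs').mono
      (kM hM1 le_rfl (min_le_right _ _) hκ₂)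

end Pool.Agent.Helper82.AN
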