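import Pool.Agent.Helper82.AN.LosAllU
import Pool.Agent.Helper82.AN.Growth

/-! Block AN-GROWTHU: `growth` of `Growth.lean` uniformly in the frequency vector `α` (from `los_all_u` in place of `los_all`; `κ` does not depend on `c₀`, `R`; take `c₀ = 1 / (n + 1)` for the a.s. statement, `Dio` is monotone in `c₀`). -/

set_option autoImplicit false
open MeasureTheory Real Set
open scoped ENNReal

namespace Pool.Agent.Helper82.AN

open Pool.Agent.Helper18.UC (nn)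
open Pool.Agent.Helper46.QP (TT Td orb Mx va stp dl)

variable {d : ℕ}

private theorem hol_cont77 {f : Td d → ℝ} (hf : Hol f) : Continuous f := by
  obtain ⟨K, r, hr, h⟩ := hf
  rw [continuous_iff_continuousAt]
  intro x
  unfold ContinuousAt
  rw [tendsto_iff_dist_tendsto_zero]
  have h1 : Filter.Tendsto (fun y : Td d => K * dist y x ^ r) (nhds x) (nhds (K * (0 : ℝ) ^ r)) := by
    refine Filter.Tendsto.const_mul K ?_
    have h2 : Filter.Tendsto (fun y : Td d => dist y x) (nhds x) (nhds 0) := by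
      have h3 := (continuous_id.dist (continuous_const (y := x))).tendsto x
      simpa using h3
    exact (Real.continuousAt_rpow_const 0 r (Or.inr hr.le)).tendsto.comp h2
  rw [Real.zero_rpow hr.ne', mul_zero] at h1
  refine squeeze_zero (fun y => dist_nonneg) (fun y => ?_) h1
  rw [Real.dist_eq]
  exact h y x

theorem growth_u (hd : 0 < d) {γ τ : ℝ} (hγ : 0 < γ) (hτ : 1 / (d : ℝ) ≤ τ) (hτγ : τ * γ < 1) {k : ℕ}
    {e : Fin k → Td d → ℝ} (he : ∀ i, Hol (e i)) {c ε : ℝ} (hc : 0 < c) (hc1 : c < 1) (hε : 0 < ε) (hεc : ε < c) :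
    ∃ κ : ℝ, 0 < κ ∧ ∀ᵐ w ∂lawL d, ∀ R c₀ : ℝ, 1 ≤ R → 0 < c₀ → ∃ A₁ : ℝ, ∀ α : Td d, Dio c₀ τ α →
      ∀ U : Fin (k + 1) → ℝ, A₁ ≤ ‖U‖ →
      Real.exp (-‖U‖ ^ (c - ε)) ≤ |U 0| → ND (amU γ e U w) ‖U‖ c R →
      ∃ i₀ : ℕ, ∀ i ≥ i₀, Jf (amU γ e U w) - ‖U‖ ^ (-κ) ≤
        (∫ p : Td d × TT, Real.log (nn (Mx (cA (sq α (amU γ e U w) p.1)) p.2 (2 ^ i)))) / 2 ^ i := by
  have hδ₀ : 0 < min (c / 8) (ε / 10) := lt_min (by positivity) (by positivity)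
  obtain ⟨D, hD⟩ := exists_nat_ge (4 / c)
  obtain ⟨δ, hδ, hδ0, hlos⟩ := los_all_u hd hγ hτ hτγ he D hδ₀
  have hδ8 : δ < c / 8 := hδ0.trans_le (min_le_left _ _)
  have hδε : δ < ε / 10 := hδ0.trans_le (min_le_right _ _)
  obtain ⟨Cn, hCn, hnd⟩ := nd_v hc hc1
  refine ⟨δ * c / 4, by positivity, ?_⟩
  have hall : ∀ᵐ w ∂lawL d, ∀ n : ℕ, ∃ i₁ : ℕ, ∀ i ≥ i₁, ∀ α : Td d, Dio (1 / ((n : ℝ) + 1)) τ α →
      ∀ U : Fin (k + 1) → ℝ, ‖U‖ ≤ 2 ^ (D * i) → Real.exp (-(2 : ℝ) ^ ((1 - 2 * δ) * i)) ≤ |U 0| →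
      ∫ x : Td d × TT, los (sq α (amU γ e U w) x.1) x.2 (2 ^ i) ≤ (2 : ℝ) ^ ((1 - δ) * i) :=
    ae_all_iff.2 fun n => hlos (1 / ((n : ℝ) + 1)) (by positivity)
  filter_upwards [hall, amU_bd (d := d) hγ fun i => hol_cont77 (he i)] with w hw1 hw2
  intro R c₀ hR hc₀
  obtain ⟨n, hn⟩ := exists_nat_ge (1 / c₀)
  have hn1 : 1 / ((n : ℝ) + 1) ≤ c₀ := by
    rw [div_le_iff₀ hc₀] at hn
    rw [div_le_iff₀ (by positivity)]
    linarith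
  obtain ⟨i₁, hi₁⟩ := hw1 n
  obtain ⟨κ₁, hκ₁, hbd⟩ := hw2
  obtain ⟨X, hX⟩ := grow_core77 (i₁ := i₁) hc1 hδ hδ8 hδε hD hCn hnd hκ₁ hbd hR
  refine ⟨X, fun α hα U hU hU0 hND => hX α U hU hU0 hND fun i hi h1 h2 => hi₁ i hi α (fun j hj => ?_) U h1 h2⟩
  exact (mul_le_mul_of_nonneg_right hn1 (Real.rpow_nonneg (Nat.cast_nonneg j) _)).trans (hα j hj)

end Pool.Agent.Helper82.AN
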