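import Pool.Agent.Helper82.AN.IntLog

/-! Block AN-INIT: growth of the derivative during the first steps.

`start`: the upper left entries `x_n` of `Mx` satisfy `x_0 = 1`, `x_{n+1} = v_n x_n - x_{n-1}` (`x_{-1} = 0`), so `|x_{n+1}| ≥ (|v_n| - 1) |x_n|` by induction, `log (|v| - 1) ≥ log |v| - 2 / |v|`. `int_v`: `int_log`, `int_log_small` and Tonelli: `∫ |log |v|| = 2 ∫ log⁺ |v| - ∫ log |v| ≤ 2 log (2π Λ₁ + 4)` for every `θ`.
`init`: bad set `S = {(θ, z) | ∃ j < n, |va| < V at time j}` of measure at most `n ν` (the map `(θ, z) ↦ (θ + j α, orb .. z j)` preserves the volume). Outside of `S` use `start`; on `S` use `0 ≤ log nn` and `log |v_j| ≤ log (2π Λ₁ + 4)`; the mean of `log |v_j|` is `Jf f` for every `j`. -/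

set_option autoImplicit false
open MeasureTheory Real Set

namespace Pool.Agent.Helper82.AN

open Pool.Agent.Helper18.UC (nn)
open Pool.Agent.Helper46.QP (TT Td orb Mx va stp)

variable {d : ℕ}

private theorem Mx_entries50 (A : ℕ → ℝ) (z : TT) (n : ℕ) :
    Mx (cA A) z (n + 1) 0 0 = va (A n : ℂ) (orb (cA A) z n).1 * Mx (cA A) z n 0 0 - Mx (cA A) z n 1 0 ∧
      Mx (cA A) z (n + 1) 1 0 = Mx (cA A) z n 0 0 := by
  rw [Pool.Agent.Helper46.QP.Mx_succ]
  constructor
  · rw [Matrix.mul_apply, Fin.sum_univ_two]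
    simp [Pool.Agent.Helper95.PV.mv, cA, sub_eq_add_neg]
  · rw [Matrix.mul_apply, Fin.sum_univ_two]
    simp [Pool.Agent.Helper95.PV.mv]

private theorem log_sub50 {v V : ℝ} (hV : 4 ≤ V) (hv : V ≤ v) : Real.log v - 2 / V ≤ Real.log (v - 1) := by
  have hv0 : 0 < v := by linarith
  have hv1 : 0 < v - 1 := by linarith
  have h1 := Real.one_sub_inv_le_log_of_pos (x := (v - 1) / v) (by positivity)
  rw [Real.log_div hv1.ne' hv0.ne', inv_div] at h1
  have h2 : 2 / v ≤ 2 / V := by
    apply div_le_div_of_nonneg_left (by norm_num) (by linarith) hv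
  have h3 : 1 - v / (v - 1) ≥ - (2 / v) := by
    have e : 1 - v / (v - 1) = - (1 / (v - 1)) := by
      field_simp
      ring
    rw [e]
    apply neg_le_neg
    rw [div_le_div_iff₀ hv1 hv0]
    linarith
  linarith

theorem start {A : ℕ → ℝ} {z : TT} {n : ℕ} {V : ℝ} (hV : 4 ≤ V)
    (h : ∀ j < n, V ≤ |va (A j : ℂ) (orb (cA A) z j).1|) :
    (∑ j ∈ Finset.range n, Real.log |va (A j : ℂ) (orb (cA A) z j).1|) - n * (2 / V) ≤ Real.log (nn (Mx (cA A) z n)) := by
  have key : ∀ m ≤ n, |Mx (cA A) z m 1 0| ≤ |Mx (cA A) z m 0 0| ∧ 0 < |Mx (cA A) z m 0 0| ∧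
      (∑ j ∈ Finset.range m, Real.log |va (A j : ℂ) (orb (cA A) z j).1|) - m * (2 / V) ≤
        Real.log |Mx (cA A) z m 0 0| := by
    intro m
    induction m with
    | zero =>
      intro _
      simp [Mx]
    | succ m ih =>
      intro hm
      obtain ⟨h1, h2, h3⟩ := ih (by omega)
      obtain ⟨e1, e2⟩ := Mx_entries50 A z m
      have hv := h m (by omega)
      set v := va (A m : ℂ) (orb (cA A) z m).1 with hvd
      set x := Mx (cA A) z m 0 0 with hx
      have h4 : (|v| - 1) * |x| ≤ |Mx (cA A) z (m + 1) 0 0| := by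
        rw [e1]
        have h5 : |v * x| - |Mx (cA A) z m 1 0| ≤ |v * x - Mx (cA A) z m 1 0| := abs_sub_abs_le_abs_sub _ _
        rw [abs_mul] at h5
        linarith
      have hv1 : 0 < |v| - 1 := by linarith
      have h6 : 0 < (|v| - 1) * |x| := mul_pos hv1 h2
      refine ⟨?_, lt_of_lt_of_le h6 h4, ?_⟩
      · rw [e2]
        refine le_trans ?_ h4
        nlinarith
      · rw [Finset.sum_range_succ]
        have h7 := Real.log_le_log h6 h4
        rw [Real.log_mul hv1.ne' h2.ne'] at h7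
        have h8 := log_sub50 hV hv
        push_cast
        linarith
  obtain ⟨-, h2, h3⟩ := key n le_rfl
  exact h3.trans (Real.log_le_log h2 (Pool.Agent.Helper18.UC.abs_entry_le _ 0 0))

private theorem va_le50 {A Λ₁ : ℝ} (hA : |A| ≤ Λ₁) (x : UnitAddCircle) :
    |va ((A : ℝ) : ℂ) x| ≤ 2 * π * Λ₁ + 2 := by
  have h1 : |(((A : ℝ) : ℂ) * Pool.Agent.Helper46.QP.ee x).re| ≤ Λ₁ := by
    refine (Complex.abs_re_le_norm _).trans ?_
    rw [norm_mul, Pool.Agent.Helper46.QP.norm_ee, mul_one, Complex.norm_real]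
    exact hA
  unfold va
  refine (abs_add_le _ _).trans ?_
  rw [abs_two, abs_mul, abs_of_pos (by positivity : (0 : ℝ) < 2 * π)]
  have := mul_le_mul_of_nonneg_left h1 (by positivity : (0 : ℝ) ≤ 2 * π)
  linarith

private theorem logva_le50 {A Λ₁ : ℝ} (hA : |A| ≤ Λ₁) (x : UnitAddCircle) :
    Real.log |va ((A : ℝ) : ℂ) x| ≤ Real.log (2 * π * Λ₁ + 4) := by
  have h0 : 0 ≤ Λ₁ := (abs_nonneg A).trans hA
  have h1 := va_le50 hA x
  have h2 : 0 ≤ 2 * π * Λ₁ := by positivity
  rcases (abs_nonneg (va ((A : ℝ) : ℂ) x)).eq_or_lt with h | h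
  · rw [← h, Real.log_zero]
    exact Real.log_nonneg (by linarith)
  · exact Real.log_le_log h (by linarith)

private theorem int1_50 (A : ℝ) : Integrable (fun x : UnitAddCircle => Real.log |va ((A : ℝ) : ℂ) x|) ∧
    0 ≤ ∫ x : UnitAddCircle, Real.log |va ((A : ℝ) : ℂ) x| := by
  rcases le_or_gt 1 (π * |A|) with h | h
  · obtain ⟨h1, h2⟩ := int_log h
    refine ⟨h1, ?_⟩
    rw [h2]
    exact Real.log_nonneg h
  · obtain ⟨h1, h2, -⟩ := int_log_small h
    exact ⟨h1, h2⟩

private theorem int1abs_50 {A Λ₁ : ℝ} (hA : |A| ≤ Λ₁) :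
    ∫ x : UnitAddCircle, |(Real.log |va ((A : ℝ) : ℂ) x|)| ≤ 2 * Real.log (2 * π * Λ₁ + 4) := by
  obtain ⟨h1, h2⟩ := int1_50 A
  have h0 : 0 ≤ Λ₁ := (abs_nonneg A).trans hA
  have h3 : 0 ≤ Real.log (2 * π * Λ₁ + 4) := Real.log_nonneg (by nlinarith [mul_nonneg Real.pi_pos.le h0])
  have h4 : ∀ x : UnitAddCircle, |(Real.log |va ((A : ℝ) : ℂ) x|)| ≤
      2 * Real.log (2 * π * Λ₁ + 4) - Real.log |va ((A : ℝ) : ℂ) x| := by
    intro x
    have h5 := logva_le50 hA x
    rw [abs_le]
    constructor <;> linarith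
  have h6 := integral_mono h1.abs ((integrable_const (2 * Real.log (2 * π * Λ₁ + 4))).sub h1) h4
  refine h6.trans ?_
  have e : ∫ x : UnitAddCircle, ((fun _ : UnitAddCircle => 2 * Real.log (2 * π * Λ₁ + 4)) -
      fun x : UnitAddCircle => Real.log |va ((A : ℝ) : ℂ) x|) x =
      2 * Real.log (2 * π * Λ₁ + 4) - ∫ x : UnitAddCircle, Real.log |va ((A : ℝ) : ℂ) x| := by
    rw [integral_sub' (integrable_const _) h1, integral_const]
    simp
  rw [e]
  linarith

private theorem bdd50 {f : Td d → ℝ} (hf : Continuous f) : ∃ Λ : ℝ, ∀ θ, |f θ| ≤ Λ := by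
  obtain ⟨Λ, h⟩ := (isCompact_range hf.abs).bddAbove
  exact ⟨Λ, fun θ => h ⟨θ, rfl⟩⟩

private theorem lv_meas50 {f : Td d → ℝ} (hf : Continuous f) :
    Measurable (fun p : Td d × TT => |va ((f p.1 : ℝ) : ℂ) p.2.1|) := by
  have hb : Measurable fun p : Td d × TT => ((((f p.1 : ℝ) : ℂ), p.2.1) : ℂ × UnitAddCircle) :=
    (Complex.measurable_ofReal.comp (hf.measurable.comp measurable_fst)).prodMk
      (measurable_fst.comp measurable_snd)
  exact (Pool.Agent.Helper46.QP.va_meas.comp hb).norm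

theorem int_v {f : Td d → ℝ} (hf : Continuous f) :
    Integrable (fun p : Td d × TT => Real.log |va ((f p.1 : ℝ) : ℂ) p.2.1|) := by
  obtain ⟨Λ, hΛ⟩ := bdd50 hf
  have hm : Measurable (fun p : Td d × TT => Real.log |va ((f p.1 : ℝ) : ℂ) p.2.1|) :=
    Real.measurable_log.comp (lv_meas50 hf)
  have hfst : ∀ g : UnitAddCircle → ℝ, ∫ z : TT, g z.1 = ∫ x : UnitAddCircle, g x := by
    intro g
    have h := integral_prod_mul (μ := (volume : Measure UnitAddCircle)) (ν := (volume : Measure UnitAddCircle))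
      g (fun _ => (1 : ℝ))
    have h' : ∫ z : UnitAddCircle × UnitAddCircle, g z.1 ∂((volume : Measure UnitAddCircle).prod
        (volume : Measure UnitAddCircle)) = ∫ x : UnitAddCircle, g x := by simpa using h
    exact h'
  have hv : (volume : Measure (Td d × TT)) = (volume : Measure (Td d)).prod (volume : Measure TT) := rfl
  rw [hv, integrable_prod_iff hm.aestronglyMeasurable]
  refine ⟨Filter.Eventually.of_forall fun θ => ?_, ?_⟩
  · exact (int1_50 (f θ)).1.comp_fst _
  · refine Integrable.of_bound (C := 2 * Real.log (2 * π * Λ + 4)) hm.norm.aestronglyMeasurable.integral_prod_right' ?_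
    refine Filter.Eventually.of_forall fun θ => ?_
    rw [Real.norm_of_nonneg (integral_nonneg fun _ => norm_nonneg _)]
    have h1 := hfst (fun x => |(Real.log |va ((f θ : ℝ) : ℂ) x|)|)
    simp only [Real.norm_eq_abs]
    rw [h1]
    exact int1abs_50 (hΛ θ)

private theorem Fs_mp50 (α : Td d) {f : Td d → ℝ} (hf : Measurable f) :
    MeasurePreserving (Fs α f) volume volume := by
  have hm : Measurable (Function.uncurry fun (θ : Td d) (z : TT) => stp ((f θ : ℝ) : ℂ) z) := by
    have hc : Measurable fun p : Td d × TT => ((((f p.1 : ℝ) : ℂ), p.2) : ℂ × TT) :=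
      (Complex.measurable_ofReal.comp (hf.comp measurable_fst)).prodMk measurable_snd
    exact Pool.Agent.Helper46.QP.stp_meas.comp hc
  exact (measurePreserving_add_right (volume : Measure (Td d)) α).skew_product
    (μc := (volume : Measure TT)) (μd := (volume : Measure TT))
    (g := fun θ z => stp ((f θ : ℝ) : ℂ) z) hm
    (Filter.Eventually.of_forall fun θ => (Pool.Agent.Helper46.QP.stp_mp _).map_eq)

private theorem M_meas50 (α : Td d) {f : Td d → ℝ} (hf : Measurable f) (n : ℕ) :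
    Measurable fun p : Td d × TT => Real.log (nn (Mx (cA (sq α f p.1)) p.2 n)) := by
  have h1 : Measurable fun p : Td d × TT => cA (sq α f p.1) := by
    refine measurable_pi_lambda _ fun j => ?_
    exact Complex.measurable_ofReal.comp (hf.comp (measurable_fst.add_const _))
  exact Real.measurable_log.comp ((Pool.Agent.Helper46.QP.Mx_meas n).comp (h1.prodMk measurable_snd))

theorem init {α : Td d} {f : Td d → ℝ} (hf : Continuous f) {Λ₁ V ν : ℝ} (hf1 : ∀ θ, |f θ| ≤ Λ₁) (hV : 4 ≤ V)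
    (hν : volume {p : Td d × TT | |va ((f p.1 : ℝ) : ℂ) p.2.1| < V} ≤ ENNReal.ofReal ν) (hν0 : 0 ≤ ν) (n : ℕ) :
    n * Jf f - n * (2 / V) - n * (n * ν) * Real.log (2 * π * Λ₁ + 4) ≤
      ∫ p : Td d × TT, Real.log (nn (Mx (cA (sq α f p.1)) p.2 n)) := by
  have hΛ0 : 0 ≤ Λ₁ := (abs_nonneg _).trans (hf1 0)
  set ℓ : ℝ := Real.log (2 * π * Λ₁ + 4) with hℓ
  have hℓ0 : 0 ≤ ℓ := Real.log_nonneg (by nlinarith [mul_nonneg Real.pi_pos.le hΛ0])
  set B : Set (Td d × TT) := {p | |va ((f p.1 : ℝ) : ℂ) p.2.1| < V} with hB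
  have hBm : MeasurableSet B := measurableSet_lt (lv_meas50 hf) measurable_const
  set T : Td d × TT → Td d × TT := Fs α f with hT
  have hTmp : ∀ j : ℕ, MeasurePreserving (T^[j]) volume volume := fun j => (Fs_mp50 α hf.measurable).iterate j
  have hTj : ∀ (j : ℕ) (p : Td d × TT), T^[j] p = (p.1 + j • α, orb (cA (sq α f p.1)) p.2 j) := by
    intro j p
    exact Fs_iter α f p.1 p.2 j
  set g : Td d × TT → ℝ := fun p => Real.log |va ((f p.1 : ℝ) : ℂ) p.2.1| with hg
  have hgi : Integrable g := int_v hf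
  have hgj : ∀ j : ℕ, Integrable (g ∘ T^[j]) := fun j => (hTmp j).integrable_comp_of_integrable hgi
  have hgint : ∀ j : ℕ, ∫ p, (g ∘ T^[j]) p = Jf f := by
    intro j
    have h1 := (hTmp j).map_eq
    have h2 : ∫ p, g (T^[j] p) = ∫ p, g p ∂(Measure.map (T^[j]) volume) :=
      (integral_map (hTmp j).measurable.aemeasurable (by rw [h1]; exact hgi.aestronglyMeasurable)).symm
    show ∫ p, g (T^[j] p) = _
    rw [h2, h1]
    rfl
  set S : Set (Td d × TT) := ⋃ j ∈ Finset.range n, T^[j] ⁻¹' B with hS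
  have hSm : MeasurableSet S :=
    Finset.measurableSet_biUnion _ fun j _ => (hTmp j).measurable hBm
  have hSv : volume.real S ≤ n * ν := by
    have h1 : volume S ≤ ENNReal.ofReal (n * ν) := by
      refine (measure_biUnion_finset_le _ _).trans ?_
      have h2 : ∀ j ∈ Finset.range n, volume (T^[j] ⁻¹' B) ≤ ENNReal.ofReal ν := by
        intro j _
        rw [(hTmp j).measure_preimage hBm.nullMeasurableSet]
        exact hν
      refine (Finset.sum_le_sum h2).trans ?_
      rw [Finset.sum_const, Finset.card_range, nsmul_eq_mul, ENNReal.ofReal_mul (Nat.cast_nonneg n),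
        ENNReal.ofReal_natCast]
    exact ENNReal.toReal_le_of_le_ofReal (mul_nonneg (Nat.cast_nonneg n) hν0) h1
  have hpt : ∀ p : Td d × TT, (∑ j ∈ Finset.range n, (g ∘ T^[j]) p) - n * (2 / V) -
      S.indicator (fun _ => n * ℓ) p ≤ Real.log (nn (Mx (cA (sq α f p.1)) p.2 n)) := by
    intro p
    have e1 : ∀ j, (g ∘ T^[j]) p = Real.log |va ((sq α f p.1 j : ℝ) : ℂ) (orb (cA (sq α f p.1)) p.2 j).1| := by
      intro j
      show g (T^[j] p) = _
      rw [hTj]
      rfl
    by_cases hp : p ∈ S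
    · rw [Set.indicator_of_mem hp]
      have h1 := Pool.Agent.Helper46.QP.log_nn_nonneg (cA (sq α f p.1)) p.2 n
      have h2 : (∑ j ∈ Finset.range n, (g ∘ T^[j]) p) ≤ n * ℓ := by
        have h3 : ∀ j ∈ Finset.range n, (g ∘ T^[j]) p ≤ ℓ := by
          intro j _
          rw [e1]
          exact logva_le50 (hf1 _) _
        refine (Finset.sum_le_sum h3).trans ?_
        rw [Finset.sum_const, Finset.card_range, nsmul_eq_mul]
      have h4 : 0 ≤ (n : ℝ) * (2 / V) := by positivity
      linarith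
    · rw [Set.indicator_of_notMem hp, sub_zero]
      have h1 : ∀ j < n, V ≤ |va ((sq α f p.1 j : ℝ) : ℂ) (orb (cA (sq α f p.1)) p.2 j).1| := by
        intro j hj
        by_contra hh
        push Not at hh
        apply hp
        rw [hS, mem_iUnion₂]
        refine ⟨j, Finset.mem_range.2 hj, ?_⟩
        show T^[j] p ∈ B
        rw [hTj]
        exact hh
      have h2 := start hV h1
      simp only [e1]
      exact h2
  have hlint : Integrable fun p : Td d × TT => Real.log (nn (Mx (cA (sq α f p.1)) p.2 n)) := by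
    refine Integrable.of_bound (C := Real.log 2 + n * ℓ) (M_meas50 α hf.measurable n).aestronglyMeasurable ?_
    refine Filter.Eventually.of_forall fun p => ?_
    rw [Real.norm_of_nonneg (Pool.Agent.Helper46.QP.log_nn_nonneg _ _ _)]
    refine Pool.Agent.Helper46.QP.log_nn_le hΛ0 (fun j => ?_) _ _
    show ‖((sq α f p.1 j : ℝ) : ℂ)‖ ≤ Λ₁
    rw [Complex.norm_real]
    exact hf1 _
  have hsum : Integrable fun p : Td d × TT => ∑ j ∈ Finset.range n, (g ∘ T^[j]) p :=
    integrable_finset_sum _ fun j _ => hgj j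
  have hind : Integrable (S.indicator (fun _ : Td d × TT => (n : ℝ) * ℓ)) :=
    (integrable_const _).indicator hSm
  have hc : Integrable fun _ : Td d × TT => (n : ℝ) * (2 / V) := integrable_const _
  have hI := integral_mono ((hsum.sub hc).sub hind) hlint hpt
  refine le_trans ?_ hI
  have e2 : ∫ p : Td d × TT, ((((fun p : Td d × TT => ∑ j ∈ Finset.range n, (g ∘ T^[j]) p) -
      fun _ : Td d × TT => (n : ℝ) * (2 / V)) - S.indicator fun _ : Td d × TT => (n : ℝ) * ℓ) p) =
      n * Jf f - n * (2 / V) - volume.real S * (n * ℓ) := by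
    rw [integral_sub' (hsum.sub hc) hind, integral_sub' hsum hc, integral_finset_sum _ fun j _ => hgj j,
      integral_indicator hSm, integral_const, setIntegral_const]
    simp only [hgint, Finset.sum_const, Finset.card_range, nsmul_eq_mul]
    simp
  rw [e2]
  have h3 : volume.real S * (n * ℓ) ≤ n * (n * ν) * ℓ := by
    calc volume.real S * (n * ℓ) ≤ (n * ν) * (n * ℓ) :=
          mul_le_mul_of_nonneg_right hSv (by positivity)
      _ = _ := by ring
  linarith

end Pool.Agent.Helper82.AN
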