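import Mathlib

/-! Block AN-NET: abstract Borel-Cantelli lemma with nets, independent of the rest. Compare `Helper46/QA/Net.lean` (`net`, fixed box).

For every `i` the set `Rg i`, contained in the cube of half side `2^(D i)` (maximum norm of `Fin n → ℝ`), is covered by at most `(2^(D i + 2) exp (2^((1+δ/2) i)) + 2)^n` balls of radius `exp (-2^((1+δ/2) i))` with centres in `Rg i` (one point of `Rg i` in each
nonempty cell of a grid; `cover34` in `QA/Net.lean`). So the union over `u ∈ Rg i` of `bad i u` is contained in the union over the centres of `bad' i u`, of measure at most `(..)^n exp (-2^((1+δ) i))`, summable. -/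

set_option autoImplicit false
open MeasureTheory Real Set Filter Topology
open scoped ENNReal

namespace Pool.Agent.Helper82.AN

private theorem sum21 {δ : ℝ} (hδ : 0 < δ) {n D : ℕ} {K : ℕ → ℝ} (h0 : ∀ i, 0 ≤ K i)
    (hK : ∀ i : ℕ, K i ≤ 5 * (2 ^ (D * i) * Real.exp ((2 : ℝ) ^ ((1 + δ / 2) * i)))) :
    Summable fun i : ℕ => K i ^ n * Real.exp (-(2 : ℝ) ^ ((1 + δ) * i)) := by
  have h3 : Tendsto (fun i : ℕ => ((2 : ℝ) ^ (δ / 2)) ^ i) atTop atTop :=
    tendsto_pow_atTop_atTop_of_one_lt (Real.one_lt_rpow one_lt_two (by positivity))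
  have h4 : ∀ᶠ i : ℕ in atTop, ((n * D + 1 : ℕ) : ℝ) * i ≤ 2 ^ i := by
    have h5 := (tendsto_pow_const_div_const_pow_of_one_lt 1 (one_lt_two : (1 : ℝ) < 2)).eventually_lt_const
      (show (0 : ℝ) < 1 / ((n * D + 1 : ℕ) : ℝ) by positivity)
    filter_upwards [h5] with i hi
    rw [pow_one, div_lt_div_iff₀ (by positivity) (by positivity), one_mul] at hi
    linarith
  refine Summable.of_norm_bounded_eventually_nat (g := fun i : ℕ => 5 ^ n * (1 / 2 : ℝ) ^ i)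
    ((summable_geometric_of_lt_one (by norm_num) (by norm_num)).mul_left _) ?_
  filter_upwards [h3.eventually_ge_atTop ((n : ℝ) + 1), h4] with i hi1 hi2
  have hKi := h0 i
  rw [Real.norm_of_nonneg (by positivity)]
  obtain ⟨y, hy⟩ : ∃ y : ℝ, y = (2 : ℝ) ^ ((1 + δ / 2) * i) := ⟨_, rfl⟩
  have hy0 : 0 < y := by rw [hy]; positivity
  have hz : (2 : ℝ) ^ ((1 + δ) * i) = y * ((2 : ℝ) ^ (δ / 2)) ^ i := by
    rw [hy, ← Real.rpow_natCast, ← Real.rpow_mul two_pos.le, ← Real.rpow_add two_pos]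
    congr 1
    ring
  have hz3 : ((n : ℝ) + 1) * y ≤ (2 : ℝ) ^ ((1 + δ) * i) := by
    rw [hz]
    nlinarith
  have hy2 : (2 : ℝ) ^ i ≤ y := by
    rw [hy, ← Real.rpow_natCast]
    refine Real.rpow_le_rpow_of_exponent_le one_le_two ?_
    have : (0 : ℝ) ≤ i := Nat.cast_nonneg _
    nlinarith
  have hy4 := hi2.trans hy2
  have he : Real.exp (-y) ≤ ((1 / 2 : ℝ) ^ (n * D + 1)) ^ i := by
    have e1 : (2 : ℝ) ≤ Real.exp 1 := by
      have e2 := Real.exp_one_gt_d9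
      linarith
    have e6 : Real.exp (-y) ≤ (Real.exp (-1)) ^ ((n * D + 1) * i) := by
      rw [← Real.exp_nat_mul]
      refine Real.exp_le_exp.2 ?_
      push_cast at hy4 ⊢
      linarith
    rw [← pow_mul]
    refine e6.trans (pow_le_pow_left₀ (Real.exp_pos _).le ?_ _)
    rw [Real.exp_neg, one_div]
    exact inv_anti₀ (by norm_num) e1
  have hK1 := hK i
  rw [← hy] at hK1
  calc K i ^ n * Real.exp (-(2 : ℝ) ^ ((1 + δ) * i))
      ≤ (5 * (2 ^ (D * i) * Real.exp y)) ^ n * Real.exp (-(((n : ℝ) + 1) * y)) := by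
        refine mul_le_mul (pow_le_pow_left₀ (h0 i) hK1 n) (Real.exp_le_exp.2 (by linarith)) (Real.exp_pos _).le
          (by positivity)
    _ = 5 ^ n * ((2 ^ (D * i)) ^ n * Real.exp (-y)) := by
        have e1 : Real.exp (-(((n : ℝ) + 1) * y)) = Real.exp (-y) * (Real.exp y ^ n)⁻¹ := by
          rw [← Real.exp_nat_mul, ← Real.exp_neg, ← Real.exp_add]
          congr 1
          ring
        rw [e1, mul_pow, mul_pow]
        have := (pow_pos (Real.exp_pos y) n).ne'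
        field_simp
    _ ≤ 5 ^ n * ((2 ^ (D * i)) ^ n * ((1 / 2 : ℝ) ^ (n * D + 1)) ^ i) := by gcongr
    _ = 5 ^ n * (1 / 2 : ℝ) ^ i := by
        have e1 : ((2 : ℝ) ^ (D * i)) ^ n * ((1 / 2 : ℝ) ^ (n * D + 1)) ^ i =
            ((2 : ℝ) * (1 / 2)) ^ (D * i * n) * (1 / 2) ^ i := by
          rw [mul_pow, mul_assoc, ← pow_add, ← pow_mul, ← pow_mul]
          congr 2
          ring
        rw [e1]
        norm_num

theorem netP {Ω : Type*} [MeasurableSpace Ω] {P : Measure Ω} {n D : ℕ} {Rg : ℕ → Set (Fin n → ℝ)}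
    (hR : ∀ i, ∀ u ∈ Rg i, ‖u‖ ≤ 2 ^ (D * i)) {δ : ℝ} (hδ : 0 < δ) {bad bad' : ℕ → (Fin n → ℝ) → Set Ω} {i₀ : ℕ}
    (h1 : ∀ i ≥ i₀, ∀ u ∈ Rg i, P (bad' i u) ≤ ENNReal.ofReal (Real.exp (-(2 : ℝ) ^ ((1 + δ) * i))))
    (h2 : ∀ i ≥ i₀, ∀ u ∈ Rg i, ∀ u' ∈ Rg i, dist u u' ≤ Real.exp (-(2 : ℝ) ^ ((1 + δ / 2) * i)) →
      bad i u ⊆ bad' i u') :
    ∀ᵐ ω ∂P, ∃ i₁ : ℕ, ∀ i ≥ i₁, ∀ u ∈ Rg i, ω ∉ bad i u := by
  classical
  obtain ⟨ρ, hρ⟩ : ∃ ρ : ℕ → ℝ, ρ = fun i : ℕ => Real.exp (-(2 : ℝ) ^ ((1 + δ / 2) * i)) := ⟨_, rfl⟩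
  have hρ0 : ∀ i, 0 < ρ i := fun i => by rw [hρ]; exact Real.exp_pos _
  have hρi : ∀ i, (2 : ℝ) ^ (D * i) / ρ i = 2 ^ (D * i) * Real.exp ((2 : ℝ) ^ ((1 + δ / 2) * i)) := by
    intro i
    rw [hρ]
    simp only
    rw [Real.exp_neg, div_inv_eq_mul]
  obtain ⟨K, hK⟩ : ∃ K : ℕ → ℕ, K = fun i => ⌈(2 : ℝ) ^ (D * i) / ρ i⌉₊ := ⟨_, rfl⟩
  have hK1 : ∀ i, (2 : ℝ) ^ (D * i) / ρ i ≤ K i := fun i => by rw [hK]; exact Nat.le_ceil _
  have hK2 : ∀ i, (K i : ℝ) < 2 ^ (D * i) / ρ i + 1 := fun i => by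
    rw [hK]
    exact Nat.ceil_lt_add_one (div_nonneg (by positivity) (hρ0 i).le)
  obtain ⟨g, hg⟩ : ∃ g : ℕ → (Fin n → ℝ) → Fin n → ℤ, g = fun i u j => ⌊u j / ρ i⌋ := ⟨_, rfl⟩
  obtain ⟨V, hV⟩ : ∃ V : ℕ → Finset (Fin n → ℤ),
      V = fun i => Fintype.piFinset fun _ : Fin n => Finset.Icc (-(K i : ℤ)) (K i) := ⟨_, rfl⟩
  have hfl : ∀ (i : ℕ) (x : ℝ), |x| ≤ 2 ^ (D * i) → ⌊x / ρ i⌋ ∈ Finset.Icc (-(K i : ℤ)) (K i) := by
    intro i x hx
    obtain ⟨e1, e2⟩ := abs_le.1 hx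
    have e3 : x / ρ i ≤ K i := (div_le_div_of_nonneg_right e2 (hρ0 i).le).trans (hK1 i)
    have e4 : -(K i : ℝ) ≤ x / ρ i := by
      have e5 : -((2 : ℝ) ^ (D * i) / ρ i) ≤ x / ρ i := by
        rw [← neg_div]
        exact div_le_div_of_nonneg_right e1 (hρ0 i).le
      linarith [hK1 i]
    rw [Finset.mem_Icc]
    constructor
    · rw [Int.le_floor]
      push_cast
      exact e4
    · have e6 : ((⌊x / ρ i⌋ : ℤ) : ℝ) ≤ K i := (Int.floor_le _).trans e3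
      exact_mod_cast e6
  have hgV : ∀ i, ∀ u ∈ Rg i, g i u ∈ V i := by
    intro i u hu
    rw [hg, hV]
    simp only [Fintype.mem_piFinset]
    intro j
    refine hfl i _ ?_
    have e1 := norm_le_pi_norm u j
    rw [Real.norm_eq_abs] at e1
    exact e1.trans (hR i u hu)
  obtain ⟨E, hE⟩ : ∃ E : ℕ → (Fin n → ℤ) → Set Ω, E = fun i c => if h : ∃ u ∈ Rg i, g i u = c then bad' i h.choose else ∅ := ⟨_, rfl⟩
  obtain ⟨A, hA⟩ : ∃ A : ℕ → Set Ω, A = fun i => if i₀ ≤ i then ⋃ c ∈ V i, E i c else ∅ := ⟨_, rfl⟩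
  have hsub : ∀ i, i₀ ≤ i → ∀ u ∈ Rg i, bad i u ⊆ A i := by
    intro i hi u hu
    have hex : ∃ u' ∈ Rg i, g i u' = g i u := ⟨u, hu, rfl⟩
    have e1 : E i (g i u) = bad' i hex.choose := by
      rw [hE]
      exact dif_pos hex
    have e2 := hex.choose_spec
    have e3 : dist u hex.choose ≤ Real.exp (-(2 : ℝ) ^ ((1 + δ / 2) * i)) := by
      obtain ⟨v, hv⟩ : ∃ v, v = hex.choose := ⟨_, rfl⟩
      rw [← hv] at e2 ⊢
      have e4 := e2.2
      have e7 : ρ i = Real.exp (-(2 : ℝ) ^ ((1 + δ / 2) * i)) := by rw [hρ]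
      rw [← e7, dist_pi_le_iff (hρ0 i).le]
      intro j
      have e3 := congrFun e4 j
      rw [hg] at e3
      simp only at e3
      have e5 := Int.abs_sub_lt_one_of_floor_eq_floor e3.symm
      rw [← sub_div, abs_div, abs_of_pos (hρ0 i), div_lt_one (hρ0 i)] at e5
      rw [Real.dist_eq]
      exact e5.le
    have e8 := h2 i hi u hu _ e2.1 e3
    intro ω hω
    rw [hA]
    simp only [if_pos hi, Set.mem_iUnion]
    exact ⟨g i u, hgV i u hu, by rw [e1]; exact e8 hω⟩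
  have hPA : ∀ i, P (A i) ≤ ENNReal.ofReal ((2 * K i + 1 : ℝ) ^ n * Real.exp (-(2 : ℝ) ^ ((1 + δ) * i))) := by
    intro i
    by_cases hi : i₀ ≤ i
    · have e1 : A i = ⋃ c ∈ V i, E i c := by rw [hA]; exact if_pos hi
      rw [e1]
      refine (measure_biUnion_finset_le _ _).trans ?_
      have e2 : ∀ c ∈ V i, P (E i c) ≤ ENNReal.ofReal (Real.exp (-(2 : ℝ) ^ ((1 + δ) * i))) := by
        intro c _
        rw [hE]
        simp only
        split_ifs with h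
        · exact h1 i hi _ h.choose_spec.1
        · rw [measure_empty]
          exact zero_le
      refine (Finset.sum_le_sum e2).trans ?_
      rw [Finset.sum_const, nsmul_eq_mul, ← ENNReal.ofReal_natCast, ← ENNReal.ofReal_mul (Nat.cast_nonneg _)]
      refine ENNReal.ofReal_le_ofReal (mul_le_mul_of_nonneg_right ?_ (Real.exp_pos _).le)
      have e3 : (V i).card = (2 * K i + 1) ^ n := by
        rw [hV]
        simp only
        rw [Fintype.card_piFinset, Finset.prod_const, Finset.card_univ, Fintype.card_fin, Int.card_Icc]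
        congr 1
        omega
      rw [e3]
      push_cast
      exact le_rfl
    · have e1 : A i = ∅ := by rw [hA]; exact if_neg hi
      rw [e1, measure_empty]
      exact zero_le
  have hsum : Summable fun i : ℕ => (2 * K i + 1 : ℝ) ^ n * Real.exp (-(2 : ℝ) ^ ((1 + δ) * i)) := by
    refine sum21 (D := D) hδ (fun i => by positivity) fun i => ?_
    have e1 := hK2 i
    rw [hρi] at e1
    have e2 : (1 : ℝ) ≤ 2 ^ (D * i) * Real.exp ((2 : ℝ) ^ ((1 + δ / 2) * i)) := by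
      have e3 : (1 : ℝ) ≤ 2 ^ (D * i) := one_le_pow₀ (by norm_num)
      have e4 : (1 : ℝ) ≤ Real.exp ((2 : ℝ) ^ ((1 + δ / 2) * i)) := Real.one_le_exp (by positivity)
      nlinarith
    linarith
  have h := ae_eventually_notMem (μ := P) (s := A)
    (ne_top_of_le_ne_top hsum.tsum_ofReal_ne_top (ENNReal.tsum_le_tsum hPA))
  filter_upwards [h] with ω hω
  obtain ⟨i₁, hi⟩ := eventually_atTop.1 hω
  exact ⟨max i₀ i₁, fun i hi' u hu hb => hi i ((le_max_right _ _).trans hi') (hsub i ((le_max_left _ _).trans hi') u hu hb)⟩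

end Pool.Agent.Helper82.AN
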