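import Pool.Agent.Helper82.AN.ConcE
import Pool.Agent.Helper82.AN.LipP
import Pool.Agent.Helper82.AN.NetP
import Pool.Agent.Helper82.AN.EtaLip

/-! Block AN-LOSALLU: `los_all` of `LosAll.lean` uniformly in the frequency vector `α` (the functions `e i` are Hölder continuous).

As in `LosAll.lean` (copy the private lemmas), with the net in `(U, α̃)`, `netP` with `n = k + 1 + d`, `Rg i = {V = (U, α̃) | ‖V‖ ≤ 2^(D i), exp (-2^((1-2δ) i)) ≤ |U 0|, c₀ j^(-τ) ≤ ‖j • α‖ for all j ≥ 1}` where `α m = (α̃ m : UnitAddCircle)` (`Fin.append` or an equivalence; every `α` has a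
representative `α̃` in `[0, 1)^d`, `AddCircle.equivIco`; `dist α α' ≤ dist α̃ α̃'`). `bad i V = {w | Hw ≤ 2^i, η is Lipschitz with constant 2^i, 2^((1-δ) i) < ∫ los_V}`, `bad' i V = {w | Hw ≤ 2^i, 2^((1-δ) i) / 2 < ∫ los_V}`. Near parameters: for `j < 2^(i+1)`:
`|f_V(θ + j α) - f_V'(θ + j α')| ≤ (∑ max |e| + 2^i) dist U U' + 2^(D i) (∑ K_e (2^(i+1) dist α α')^r + 2^i 2^(i+1) dist α α')`, and the sequences may be changed for `j ≥ 2^(i+1)` (`los_congr`). `δ` does not depend on `c₀`. -/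

set_option autoImplicit false
open MeasureTheory Real Set Filter Topology
open scoped ENNReal

namespace Pool.Agent.Helper82.AN

open Pool.Agent.Helper18.UC (nn)
open Pool.Agent.Helper46.QP (TT Td orb Mx va stp dl)

variable {d : ℕ}

/-- Hölder continuous -/
def Hol (f : Td d → ℝ) : Prop := ∃ K r : ℝ, 0 < r ∧ ∀ x y, |f x - f y| ≤ K * dist x y ^ r

/-- the condition on the frequency vector -/
def Dio (c τ : ℝ) (α : Td d) : Prop := ∀ k : ℕ, 1 ≤ k → c * (k : ℝ) ^ (-τ) ≤ ‖k • α‖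

/-! ### numbers -/

private theorem ev33 {a b : ℝ} (h : a < b) (K : ℝ) :
    ∀ᶠ i : ℕ in atTop, K * (2 : ℝ) ^ (a * i) ≤ (2 : ℝ) ^ (b * i) := by
  have h1 : Tendsto (fun i : ℕ => (2 : ℝ) ^ ((b - a) * i)) atTop atTop := by
    have h3 : Tendsto (fun i : ℕ => ((2 : ℝ) ^ (b - a)) ^ i) atTop atTop :=
      tendsto_pow_atTop_atTop_of_one_lt (Real.one_lt_rpow one_lt_two (sub_pos.2 h))
    refine h3.congr fun i => ?_
    rw [← Real.rpow_natCast, ← Real.rpow_mul two_pos.le]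
  filter_upwards [h1.eventually_ge_atTop K] with i hi
  calc K * (2 : ℝ) ^ (a * i) ≤ (2 : ℝ) ^ ((b - a) * i) * (2 : ℝ) ^ (a * i) :=
        mul_le_mul_of_nonneg_right hi (Real.rpow_nonneg two_pos.le _)
    _ = (2 : ℝ) ^ (b * i) := by
        rw [← Real.rpow_add two_pos]
        congr 1
        ring

private theorem lin33 {b : ℝ} (h : 0 < b) (K L : ℝ) :
    ∀ᶠ i : ℕ in atTop, K + L * i ≤ (2 : ℝ) ^ (b * i) := by
  have h1 := tendsto_pow_const_div_const_pow_of_one_lt 1 (Real.one_lt_rpow one_lt_two h)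
  have h2 : (0 : ℝ) < 1 / (|K| + |L| + 1) := by positivity
  filter_upwards [h1.eventually (ge_mem_nhds h2), eventually_ge_atTop 1] with i hi hi1
  have h3 : (1 : ℝ) ≤ i := by exact_mod_cast hi1
  have h4 : (2 : ℝ) ^ (b * i) = ((2 : ℝ) ^ b) ^ i := by
    rw [← Real.rpow_natCast, ← Real.rpow_mul two_pos.le]
  rw [h4]
  have h5 : 0 < ((2 : ℝ) ^ b) ^ i := by positivity
  rw [pow_one, div_le_div_iff₀ h5 (by positivity), one_mul] at hi
  nlinarith [le_abs_self K, le_abs_self L, abs_nonneg K, abs_nonneg L,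
    mul_le_mul_of_nonneg_right (le_abs_self L) (by linarith : (0 : ℝ) ≤ i)]

/-- choice of the exponents -/
private theorem par33 {d : ℕ} (hd : 0 < d) {γ τ : ℝ} (hγ : 0 < γ) (hτ : 1 / (d : ℝ) ≤ τ) (hτγ : τ * γ < 1)
    {δ₀ : ℝ} (hδ₀ : 0 < δ₀) : ∃ (τ₂ τ₁ δ : ℝ) (p : ℕ), τ < τ₂ ∧ τ₂ < τ₁ ∧ 0 < δ ∧ δ < δ₀ ∧ δ ≤ 1 / 8 ∧
      3 * δ + 1 - d * τ₂ < 0 ∧ τ₁ * γ < 1 - 2 * δ ∧ 1 ≤ p ∧ 2 + 4 * δ ≤ 2 * p * (τ₁ - τ₂) := by
  obtain ⟨ε, hε⟩ : ∃ ε : ℝ, ε = (1 / γ - τ) / 3 := ⟨_, rfl⟩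
  have hε0 : 0 < ε := by
    rw [hε]
    have h1 : τ < 1 / γ := (lt_div_iff₀ hγ).2 hτγ
    linarith
  have hd1 : (1 : ℝ) ≤ d := by exact_mod_cast hd
  have hd0 : (0 : ℝ) < d := by linarith
  have h2 : 1 ≤ d * τ := by
    rw [div_le_iff₀ hd0] at hτ
    linarith
  have h3 : (τ + 2 * ε) * γ < 1 := by
    have h4 : 3 * ε * γ = 1 - τ * γ := by
      rw [hε]
      field_simp
    nlinarith
  obtain ⟨δ, hδ⟩ : ∃ δ : ℝ, δ = min (min (δ₀ / 2) (1 / 8)) (min (ε / 8) ((1 - (τ + 2 * ε) * γ) / 4)) := ⟨_, rfl⟩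
  have hδ0 : 0 < δ := by
    rw [hδ]
    refine lt_min (lt_min (by linarith) (by norm_num)) (lt_min (by linarith) (by linarith))
  have e1 : δ ≤ δ₀ / 2 := by rw [hδ]; exact (min_le_left _ _).trans (min_le_left _ _)
  have e2 : δ ≤ 1 / 8 := by rw [hδ]; exact (min_le_left _ _).trans (min_le_right _ _)
  have e3 : δ ≤ ε / 8 := by rw [hδ]; exact (min_le_right _ _).trans (min_le_left _ _)
  have e4 : δ ≤ (1 - (τ + 2 * ε) * γ) / 4 := by rw [hδ]; exact (min_le_right _ _).trans (min_le_right _ _)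
  obtain ⟨p, hp⟩ := exists_nat_gt ((2 + 4 * δ) / (2 * ε))
  rw [div_lt_iff₀ (by linarith)] at hp
  have hp0 : (0 : ℝ) < p := by
    by_contra hc
    nlinarith [not_lt.1 hc]
  refine ⟨τ + ε, τ + 2 * ε, δ, p, by linarith, by linarith, hδ0, by linarith, e2, ?_, by linarith, ?_, ?_⟩
  · nlinarith
  · exact_mod_cast hp0
  · have : τ + 2 * ε - (τ + ε) = ε := by ring
    rw [this]
    linarith

private theorem log33 {C G q γ τ₁ δ : ℝ} {D p i M N : ℕ} (hC : 1 ≤ C) (hG : 0 ≤ G) (hγ : 0 < γ)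
    (hp : 1 ≤ p) (hδ : 0 < δ) (hδ1 : δ ≤ 1 / 8) (hτγ : τ₁ * γ < 1 - 2 * δ) (hqD : |q| ≤ 2 ^ (D * i))
    (hq : Real.exp (-(2 : ℝ) ^ ((1 - 2 * δ) * i)) ≤ |q|) (hM : (M : ℝ) ≤ 2 * (2 : ℝ) ^ (3 * δ * i)) (hM1 : 1 ≤ M)
    (hN : (N : ℝ) ≤ 2 * (2 : ℝ) ^ (τ₁ * i)) :
    Real.log (C * (2 ^ (D * i) * G + |q| * (2 ^ i + 1) + 1) ^ 6 *
      (min |q| 1 * Real.exp (-((p * N : ℝ) ^ γ)) / (12 * M))⁻¹ ^ 4) ≤
      Real.log C + 6 * (Real.log (G + 3) + (D + 1) * i) +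
        4 * ((2 : ℝ) ^ ((1 - 2 * δ) * i) + (2 * p : ℝ) ^ γ * (2 : ℝ) ^ ((1 - 2 * δ) * i) + Real.log 24 + i) := by
  have hq0 : 0 < |q| := (Real.exp_pos _).trans_le hq
  have hq1 : 0 < min |q| 1 := lt_min hq0 one_pos
  have hM0 : (0 : ℝ) < M := by exact_mod_cast hM1
  have hp0 : (0 : ℝ) < p := by exact_mod_cast hp
  have h2i : (1 : ℝ) ≤ 2 ^ i := one_le_pow₀ one_le_two
  have hDi : (1 : ℝ) ≤ 2 ^ (D * i) := one_le_pow₀ one_le_two
  have ha : 0 < 2 ^ (D * i) * G + |q| * (2 ^ i + 1) + 1 := by positivity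
  have hs : 0 < min |q| 1 * Real.exp (-((p * N : ℝ) ^ γ)) / (12 * M) := by positivity
  rw [Real.log_mul (by positivity) (by positivity), Real.log_mul (by positivity) (by positivity), Real.log_pow,
    Real.log_pow, Real.log_inv, Real.log_div (by positivity) (by positivity),
    Real.log_mul (by positivity) (by positivity), Real.log_exp]
  have e1 : Real.log (2 ^ (D * i) * G + |q| * (2 ^ i + 1) + 1) ≤ Real.log (G + 3) + (D + 1) * i := by
    have h1 : 2 ^ (D * i) * G + |q| * (2 ^ i + 1) + 1 ≤ (G + 3) * 2 ^ ((D + 1) * i) := by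
      rw [show (D + 1) * i = D * i + i by ring, pow_add]
      have h3 : |q| * ((2 : ℝ) ^ i + 1) ≤ 2 ^ (D * i) * (2 ^ i + 1) := mul_le_mul_of_nonneg_right hqD (by positivity)
      have h4 : (2 : ℝ) ^ (D * i) ≤ 2 ^ (D * i) * 2 ^ i := le_mul_of_one_le_right (by positivity) h2i
      have h5 : (2 : ℝ) ^ (D * i) * G ≤ 2 ^ (D * i) * 2 ^ i * G := mul_le_mul_of_nonneg_right h4 hG
      nlinarith
    refine (Real.log_le_log ha h1).trans ?_
    rw [Real.log_mul (by positivity) (by positivity), Real.log_pow]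
    have h3 := Real.log_two_lt_d9
    have h4 : (0 : ℝ) ≤ (((D + 1) * i : ℕ) : ℝ) := Nat.cast_nonneg _
    have h5 : (((D + 1) * i : ℕ) : ℝ) * Real.log 2 ≤ (((D + 1) * i : ℕ) : ℝ) * 1 :=
      mul_le_mul_of_nonneg_left (by linarith) h4
    push_cast at h5 ⊢
    linarith
  have e2 : -(2 : ℝ) ^ ((1 - 2 * δ) * i) ≤ Real.log (min |q| 1) := by
    rw [← Real.log_exp (-(2 : ℝ) ^ ((1 - 2 * δ) * i))]
    refine Real.log_le_log (Real.exp_pos _) (le_min hq ?_)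
    rw [← Real.exp_zero]
    exact Real.exp_le_exp.2 (neg_nonpos.2 (by positivity))
  have e3 : (p * N : ℝ) ^ γ ≤ (2 * p : ℝ) ^ γ * (2 : ℝ) ^ ((1 - 2 * δ) * i) := by
    have h1 : (p * N : ℝ) ≤ 2 * p * (2 : ℝ) ^ (τ₁ * i) := by
      calc (p * N : ℝ) ≤ p * (2 * (2 : ℝ) ^ (τ₁ * i)) := mul_le_mul_of_nonneg_left hN hp0.le
        _ = 2 * p * (2 : ℝ) ^ (τ₁ * i) := by ring
    refine (Real.rpow_le_rpow (by positivity) h1 hγ.le).trans ?_
    rw [Real.mul_rpow (by positivity) (by positivity)]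
    refine mul_le_mul_of_nonneg_left ?_ (by positivity)
    rw [← Real.rpow_mul two_pos.le]
    refine Real.rpow_le_rpow_of_exponent_le one_le_two ?_
    have := mul_le_mul_of_nonneg_right hτγ.le (Nat.cast_nonneg (α := ℝ) i)
    nlinarith
  have e4 : Real.log (12 * M) ≤ Real.log 24 + i := by
    have h1 : (12 * M : ℝ) ≤ 24 * (2 : ℝ) ^ (3 * δ * i) := by linarith
    refine (Real.log_le_log (by positivity) h1).trans ?_
    rw [Real.log_mul (by norm_num) (by positivity), Real.log_rpow two_pos]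
    have h3 := Real.log_two_lt_d9
    have h4 := Real.log_two_gt_d9
    have hi0 : (0 : ℝ) ≤ i := Nat.cast_nonneg i
    have h5 : 3 * δ * i ≤ i := by nlinarith
    have h6 : 3 * δ * i * Real.log 2 ≤ 3 * δ * i * 1 :=
      mul_le_mul_of_nonneg_left (by linarith) (by positivity)
    linarith
  push_cast
  linarith

/-- the cost of the net -/
private theorem net33 {C₀ G δ r : ℝ} {D i : ℕ} (hC : 1 ≤ C₀) (hG : 0 ≤ G)
    (h : 9 * (Real.log (C₀ * (G + 3)) + (D + 1) * i) + 2 ≤ r * (2 : ℝ) ^ (δ / 2 * i)) :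
    3 * (C₀ * ((G + 3) * 2 ^ ((D + 1) * i))) ^ (8 * 2 ^ i) *
      ((G + 3) * 2 ^ ((D + 1) * i) * Real.exp (-(r * (2 : ℝ) ^ ((1 + δ / 2) * i)))) ≤ 1 / 2 := by
  obtain ⟨L, hL⟩ : ∃ L : ℝ, L = Real.log (C₀ * (G + 3)) + (D + 1) * i := ⟨_, rfl⟩
  rw [← hL] at h
  have hC0 : 0 < C₀ := by linarith
  have h4i1 : (1 : ℝ) ≤ 2 ^ ((D + 1) * i) := one_le_pow₀ one_le_two
  obtain ⟨K, hK⟩ : ∃ K : ℝ, K = (G + 3) * 2 ^ ((D + 1) * i) := ⟨_, rfl⟩
  rw [← hK]
  have hK2 : 2 ≤ K := by rw [hK]; nlinarith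
  have hK0 : 0 < K := by linarith
  have hCK : 0 < C₀ * K := by positivity
  have hlog : Real.log (C₀ * K) ≤ L := by
    rw [hK, hL, ← mul_assoc, Real.log_mul (by positivity) (by positivity), Real.log_pow]
    have h3 := Real.log_two_lt_d9
    have h4 : (0 : ℝ) ≤ (((D + 1) * i : ℕ) : ℝ) := Nat.cast_nonneg _
    have h5 : (((D + 1) * i : ℕ) : ℝ) * Real.log 2 ≤ (((D + 1) * i : ℕ) : ℝ) * 1 :=
      mul_le_mul_of_nonneg_left (by linarith) h4
    push_cast at h5 ⊢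
    linarith
  have hlog0 : 0 ≤ Real.log (C₀ * K) := Real.log_nonneg (by nlinarith)
  have hKL : K ≤ Real.exp L := by
    calc K ≤ C₀ * K := le_mul_of_one_le_left hK0.le hC
      _ = Real.exp (Real.log (C₀ * K)) := (Real.exp_log hCK).symm
      _ ≤ Real.exp L := Real.exp_le_exp.2 hlog
  have hpow : (C₀ * K) ^ (8 * 2 ^ i) ≤ Real.exp (8 * 2 ^ i * L) := by
    calc (C₀ * K) ^ (8 * 2 ^ i) = Real.exp (Real.log (C₀ * K)) ^ (8 * 2 ^ i) := by rw [Real.exp_log hCK]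
      _ = Real.exp ((8 * 2 ^ i : ℕ) * Real.log (C₀ * K)) := (Real.exp_nat_mul _ _).symm
      _ ≤ Real.exp (8 * 2 ^ i * L) := by
          refine Real.exp_le_exp.2 ?_
          push_cast
          exact mul_le_mul_of_nonneg_left hlog (by positivity)
  have h2i : (1 : ℝ) ≤ 2 ^ i := one_le_pow₀ one_le_two
  have hL0 : 0 ≤ L := hlog0.trans hlog
  have hx : (2 : ℝ) ^ ((1 + δ / 2) * i) = 2 ^ i * (2 : ℝ) ^ (δ / 2 * i) := by
    rw [← Real.rpow_natCast 2 i, ← Real.rpow_add two_pos]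
    congr 1
    ring
  have hx2 : 2 ^ i * (9 * L + 2) ≤ r * (2 : ℝ) ^ ((1 + δ / 2) * i) := by
    rw [hx]
    calc 2 ^ i * (9 * L + 2) ≤ 2 ^ i * (r * (2 : ℝ) ^ (δ / 2 * i)) := mul_le_mul_of_nonneg_left h (by positivity)
      _ = r * (2 ^ i * (2 : ℝ) ^ (δ / 2 * i)) := by ring
  calc 3 * (C₀ * K) ^ (8 * 2 ^ i) * (K * Real.exp (-(r * (2 : ℝ) ^ ((1 + δ / 2) * i))))
      ≤ 3 * Real.exp (8 * 2 ^ i * L) * (Real.exp L * Real.exp (-(r * (2 : ℝ) ^ ((1 + δ / 2) * i)))) := by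
        refine mul_le_mul (mul_le_mul_of_nonneg_left hpow (by norm_num))
          (mul_le_mul_of_nonneg_right hKL (Real.exp_pos _).le) (by positivity) (by positivity)
    _ = 3 * Real.exp (8 * 2 ^ i * L + (L + -(r * (2 : ℝ) ^ ((1 + δ / 2) * i)))) := by
        rw [Real.exp_add, Real.exp_add, mul_assoc]
    _ ≤ 3 * Real.exp (-2) := by
        refine mul_le_mul_of_nonneg_left (Real.exp_le_exp.2 ?_) (by norm_num)
        nlinarith
    _ ≤ 1 / 2 := by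
        have h1 : Real.exp 1 * Real.exp 1 = Real.exp 2 := by rw [← Real.exp_add]; norm_num
        have h2 := Real.exp_one_gt_d9
        have h3 : 6 ≤ Real.exp 2 := by nlinarith
        rw [Real.exp_neg]
        have h4 : (Real.exp 2)⁻¹ ≤ 6⁻¹ := inv_anti₀ (by norm_num) h3
        linarith

/-! ### the points -/

private theorem pts33 {α : Td d} (hd : 0 < d) {τ τ₂ δ c : ℝ} {i M : ℕ} (hτ0 : 0 < τ) (hc : 0 < c)
    (hα : ∀ k : ℕ, 1 ≤ k → c * (k : ℝ) ^ (-τ) ≤ ‖k • α‖)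
    (h1 : (2 : ℝ) ^ (d + 4) * (2 : ℝ) ^ ((3 * δ + 1 - d * τ₂) * i) ≤ 1)
    (h2 : c⁻¹ * (2 : ℝ) ^ τ * (2 : ℝ) ^ (-τ₂ * i) ≤ (2 : ℝ) ^ (-τ * i))
    (hM : (M : ℝ) ≤ 2 * (2 : ℝ) ^ (3 * δ * i)) :
    ∃ β : Fin M → Td d, SepR α ((2 : ℝ) ^ (-τ₂ * i)) (2 * 2 ^ i) M β := by
  have h2i : 1 ≤ 2 ^ i := Nat.one_le_two_pow
  refine pts hd (by positivity) (by omega) (fun k hk hk2 => ?_) ?_
  · refine le_trans ?_ (hα k hk)
    have hk0 : (0 : ℝ) < k := by exact_mod_cast hk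
    have hkn : (k : ℝ) ≤ 2 * 2 ^ i := by exact_mod_cast hk2.le
    have h3 : ((2 : ℝ) * 2 ^ i) ^ (-τ) ≤ (k : ℝ) ^ (-τ) :=
      Real.rpow_le_rpow_of_nonpos hk0 hkn (by linarith)
    have h4 : ((2 : ℝ) * 2 ^ i) ^ (-τ) = (2 : ℝ) ^ (-τ) * (2 : ℝ) ^ (-τ * i) := by
      rw [Real.mul_rpow two_pos.le (by positivity), ← Real.rpow_natCast 2 i, ← Real.rpow_mul two_pos.le]
      congr 2
      ring
    have h5 : (2 : ℝ) ^ (-τ) * (2 : ℝ) ^ τ = 1 := by
      rw [← Real.rpow_add two_pos, neg_add_cancel, Real.rpow_zero]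
    calc (2 : ℝ) ^ (-τ₂ * i) = c * (c⁻¹) * ((2 : ℝ) ^ (-τ) * (2 : ℝ) ^ τ) * (2 : ℝ) ^ (-τ₂ * i) := by
          rw [h5, mul_inv_cancel₀ hc.ne']
          ring
      _ = c * ((2 : ℝ) ^ (-τ) * (c⁻¹ * (2 : ℝ) ^ τ * (2 : ℝ) ^ (-τ₂ * i))) := by ring
      _ ≤ c * ((2 : ℝ) ^ (-τ) * (2 : ℝ) ^ (-τ * i)) :=
          mul_le_mul_of_nonneg_left (mul_le_mul_of_nonneg_left h2 (by positivity)) hc.le
      _ = c * ((2 : ℝ) * 2 ^ i) ^ (-τ) := by rw [h4]
      _ ≤ c * (k : ℝ) ^ (-τ) := mul_le_mul_of_nonneg_left h3 hc.le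
  · have h3 : ((2 : ℝ) ^ (-τ₂ * i)) ^ d = (2 : ℝ) ^ (-(d * τ₂) * i) := by
      rw [← Real.rpow_natCast, ← Real.rpow_mul two_pos.le]
      congr 1
      ring
    have h4 : (2 : ℝ) ^ (3 * δ * i) * (2 ^ i * (2 : ℝ) ^ (-(d * τ₂) * i)) =
        (2 : ℝ) ^ ((3 * δ + 1 - d * τ₂) * i) := by
      rw [← Real.rpow_natCast 2 i, ← Real.rpow_add two_pos, ← Real.rpow_add two_pos]
      congr 1
      ring
    push_cast
    rw [mul_pow, h3]
    calc (M : ℝ) * (2 * (2 * 2 ^ i) * (2 ^ d * (2 : ℝ) ^ (-(d * τ₂) * i)))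
        ≤ 2 * (2 : ℝ) ^ (3 * δ * i) * (2 * (2 * 2 ^ i) * (2 ^ d * (2 : ℝ) ^ (-(d * τ₂) * i))) :=
          mul_le_mul_of_nonneg_right hM (by positivity)
      _ = 8 * 2 ^ d * ((2 : ℝ) ^ (3 * δ * i) * (2 ^ i * (2 : ℝ) ^ (-(d * τ₂) * i))) := by ring
      _ = 1 / 2 * ((2 : ℝ) ^ (d + 4) * (2 : ℝ) ^ ((3 * δ + 1 - d * τ₂) * i)) := by
          rw [h4, pow_add]
          ring
      _ < 1 := by linarith

private theorem mom33 {τ₁ τ₂ δ : ℝ} {p i M N : ℕ} (hi : 3 ≤ i) (hδ : 0 < δ) (hp : 2 + 4 * δ ≤ 2 * p * (τ₁ - τ₂))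
    (hM : (M : ℝ) ≤ 2 * (2 : ℝ) ^ (3 * δ * i)) (hN : (2 : ℝ) ^ (τ₁ * i) ≤ N) :
    2 * ((M * (2 * 2 ^ i) : ℕ) : ℝ) ≤ (2 * N * (2 : ℝ) ^ (-τ₂ * i)) ^ (2 * p) := by
  have hi0 : (0 : ℝ) ≤ i := Nat.cast_nonneg i
  have h8 : (8 : ℝ) ≤ 2 ^ i := by
    calc (8 : ℝ) = 2 ^ 3 := by norm_num
      _ ≤ 2 ^ i := pow_le_pow_right₀ one_le_two hi
  have h1 : 2 * ((M * (2 * 2 ^ i) : ℕ) : ℝ) ≤ (2 : ℝ) ^ ((2 + 4 * δ) * i) := by
    push_cast
    calc 2 * ((M : ℝ) * (2 * 2 ^ i)) ≤ 2 * (2 * (2 : ℝ) ^ (3 * δ * i) * (2 * 2 ^ i)) :=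
          mul_le_mul_of_nonneg_left (mul_le_mul_of_nonneg_right hM (by positivity)) two_pos.le
      _ = (2 : ℝ) ^ (3 * δ * i) * 2 ^ i * 8 := by ring
      _ ≤ (2 : ℝ) ^ (3 * δ * i) * 2 ^ i * 2 ^ i := mul_le_mul_of_nonneg_left h8 (by positivity)
      _ = (2 : ℝ) ^ (3 * δ * i + i + i) := by
          rw [← Real.rpow_natCast 2 i, ← Real.rpow_add two_pos, ← Real.rpow_add two_pos]
      _ ≤ (2 : ℝ) ^ ((2 + 4 * δ) * i) := by
          refine Real.rpow_le_rpow_of_exponent_le one_le_two ?_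
          nlinarith
  have h2 : (2 : ℝ) ^ ((τ₁ - τ₂) * i) ≤ 2 * N * (2 : ℝ) ^ (-τ₂ * i) := by
    have hN0 : (0 : ℝ) ≤ N := Nat.cast_nonneg N
    calc (2 : ℝ) ^ ((τ₁ - τ₂) * i) = (2 : ℝ) ^ (τ₁ * i) * (2 : ℝ) ^ (-τ₂ * i) := by
          rw [← Real.rpow_add two_pos]
          congr 1
          ring
      _ ≤ N * (2 : ℝ) ^ (-τ₂ * i) := mul_le_mul_of_nonneg_right hN (by positivity)
      _ ≤ 2 * N * (2 : ℝ) ^ (-τ₂ * i) := mul_le_mul_of_nonneg_right (by linarith) (by positivity)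
  calc 2 * ((M * (2 * 2 ^ i) : ℕ) : ℝ) ≤ (2 : ℝ) ^ ((2 + 4 * δ) * i) := h1
    _ ≤ (2 : ℝ) ^ ((τ₁ - τ₂) * i * (2 * p : ℕ)) := by
        refine Real.rpow_le_rpow_of_exponent_le one_le_two ?_
        push_cast
        have := mul_le_mul_of_nonneg_right hp hi0
        linarith
    _ = ((2 : ℝ) ^ ((τ₁ - τ₂) * i)) ^ (2 * p) := by
        rw [Real.rpow_mul two_pos.le, Real.rpow_natCast]
    _ ≤ (2 * N * (2 : ℝ) ^ (-τ₂ * i)) ^ (2 * p) := pow_le_pow_left₀ (by positivity) h2 _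

/-! ### measurability -/

private theorem jm33 (γ : ℝ) (α : Td d) {f : Td d → ℝ} (hf : Continuous f) (q : ℝ) (m : ℕ) :
    Measurable fun p : Ow d × (Td d × TT) => los (sq α (amp γ f q p.1) p.2.1) p.2.2 m := by
  have h1 := los_meas m
  refine h1.comp (f := fun p : Ow d × (Td d × TT) => ((sq α (amp γ f q p.1) p.2.1, p.2.2) : (ℕ → ℝ) × TT)) ?_
  refine Measurable.prodMk (measurable_pi_iff.2 fun j => ?_) (measurable_snd.comp measurable_snd)
  have h3 : Measurable fun p : Ow d × (Td d × TT) => p.2.1 + j • α :=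
    (measurable_fst.comp measurable_snd).add_const _
  have h2 : Measurable fun p : Ow d × (Td d × TT) => ((p.1, p.2.1 + j • α) : Ow d × Td d) :=
    measurable_fst.prodMk h3
  exact (hf.measurable.comp h3).add (((eta_meas γ).comp h2).const_mul q)

private noncomputable def X33 (γ : ℝ) (α : Td d) {k : ℕ} (e : Fin k → Td d → ℝ) (m : ℕ) (U : Fin (k + 1) → ℝ)
    (w : Ow d) : ℝ :=
  ∫ x : Td d × TT, los (sq α (amU γ e U w) x.1) x.2 m

variable {k : ℕ} {e : Fin k → Td d → ℝ}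

private theorem jmu33 (γ : ℝ) (α : Td d) (he : ∀ i, Continuous (e i)) (U : Fin (k + 1) → ℝ)
    (m : ℕ) : Measurable fun p : Ow d × (Td d × TT) => los (sq α (amU γ e U p.1) p.2.1) p.2.2 m :=
  jm33 γ α (f := fun θ => ∑ i : Fin k, U i.succ * e i θ)
    (continuous_finsetSum _ fun i _ => continuous_const.mul (he i)) (U 0) m

private theorem X33_meas (γ : ℝ) (α : Td d) (he : ∀ i, Continuous (e i)) (U : Fin (k + 1) → ℝ)
    (m : ℕ) : Measurable (X33 γ α e m U) := by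
  have h2 : StronglyMeasurable (Function.uncurry fun (w : Ow d) (x : Td d × TT) =>
      los (sq α (amU γ e U w) x.1) x.2 m) := (jmu33 γ α he U m).stronglyMeasurable
  exact (h2.integral_prod_right (ν := volume)).measurable

private theorem f_le33 {Ge : Fin k → ℝ} (hG : ∀ j θ, |e j θ| ≤ Ge j) {U : Fin (k + 1) → ℝ} {R : ℝ}
    (h1 : ‖U‖ ≤ R) (θ : Td d) : |∑ i : Fin k, U i.succ * e i θ| ≤ R * ∑ j, Ge j := by
  rw [Finset.mul_sum]
  refine (Finset.abs_sum_le_sum_abs _ _).trans (Finset.sum_le_sum fun j _ => ?_)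
  rw [abs_mul]
  have h2 : |U j.succ| ≤ R := (norm_le_pi_norm U j.succ).trans h1
  exact mul_le_mul h2 (hG j θ) (abs_nonneg _) ((norm_nonneg _).trans h1)

private theorem amu_le33 {γ H : ℝ} {Ge : Fin k → ℝ} (hG : ∀ j θ, |e j θ| ≤ Ge j)
    {w : Ow d} (hH : Hw γ w ≤ ENNReal.ofReal H) (hH0 : 0 ≤ H) {U : Fin (k + 1) → ℝ} {R : ℝ} (h1 : ‖U‖ ≤ R)
    (θ : Td d) : |amU γ e U w θ| ≤ R * (∑ j, Ge j + H) := by
  have hw : Hw γ w ≠ ∞ := ne_top_of_le_ne_top ENNReal.ofReal_ne_top hH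
  have h3 : |eta γ w θ| ≤ H := (eta_le hw θ).trans (ENNReal.toReal_le_of_le_ofReal hH0 hH)
  have h4 : |U 0| ≤ R := (norm_le_pi_norm U 0).trans h1
  unfold amU
  calc |(∑ i : Fin k, U i.succ * e i θ) + U 0 * eta γ w θ|
      ≤ |∑ i : Fin k, U i.succ * e i θ| + |U 0| * |eta γ w θ| := by
        refine (abs_add_le _ _).trans ?_
        rw [abs_mul]
    _ ≤ R * (∑ j, Ge j) + R * H :=
        add_le_add (f_le33 hG h1 θ) (mul_le_mul h4 h3 (abs_nonneg _) ((norm_nonneg _).trans h1))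
    _ = R * (∑ j, Ge j + H) := by ring

private theorem amu_sub33 {γ H : ℝ} {Ge : Fin k → ℝ} (hG : ∀ j θ, |e j θ| ≤ Ge j)
    {w : Ow d} (hH : Hw γ w ≤ ENNReal.ofReal H) (hH0 : 0 ≤ H) (U U' : Fin (k + 1) → ℝ) (θ : Td d) :
    |amU γ e U w θ - amU γ e U' w θ| ≤ dist U U' * (∑ j, Ge j + H) := by
  have h1 := amu_le33 (e := e) hG hH hH0 (U := U - U') (dist_eq_norm U U').ge θ
  have h2 : amU γ e (U - U') w θ = amU γ e U w θ - amU γ e U' w θ := by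
    unfold amU
    simp only [Pi.sub_apply, sub_mul, Finset.sum_sub_distrib]
    ring
  rwa [h2] at h1

private theorem int33 {K γ : ℝ} (hK : 0 ≤ K) (α : Td d) (he : ∀ i, Continuous (e i))
    {U : Fin (k + 1) → ℝ} {w : Ow d} (h : ∀ θ, |amU γ e U w θ| ≤ K) (m : ℕ) :
    Integrable (fun x : Td d × TT => los (sq α (amU γ e U w) x.1) x.2 m) volume := by
  have h0 : Measurable fun x : Td d × TT => ((w, x) : Ow d × (Td d × TT)) := measurable_const.prodMk measurable_id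
  have h2 := (jmu33 γ α he U m).comp h0
  simp only [Function.comp_def] at h2
  refine Integrable.of_bound h2.aestronglyMeasurable (2 * (Real.log 2 + m * Real.log (2 * π * K + 4)))
    (Filter.Eventually.of_forall fun x => ?_)
  have h3 := los_bd hK (A := sq α (amU γ e U w) x.1) (fun j => h _) x.2 m
  rw [Real.norm_eq_abs, abs_of_nonneg h3.1]
  exact h3.2

/-! ### Markov -/

private theorem mark33 {Ω : Type*} [MeasurableSpace Ω] {P : Measure Ω} {S : Set Ω}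
    {X : Ω → ℝ} (hX : Measurable X) {E t : ℝ} {M : ℕ} (hE : 0 < E)
    (h : ∫⁻ w in S, ENNReal.ofReal (Real.exp (M / 80 * X w)) ∂P ≤ ENNReal.ofReal (E ^ M)) :
    P (S ∩ {w | t < X w}) ≤ ENNReal.ofReal (Real.exp (-(M * (t / 80 - Real.log E)))) := by
  obtain ⟨x, hx⟩ : ∃ x : ℝ, x = Real.exp (M / 80 * t) := ⟨_, rfl⟩
  have hx0 : 0 < x := by rw [hx]; exact Real.exp_pos _
  have hm : Measurable fun w => ENNReal.ofReal (Real.exp (M / 80 * X w)) :=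
    ENNReal.measurable_ofReal.comp (Real.measurable_exp.comp (hX.const_mul _))
  have h1 := (mul_meas_ge_le_lintegral (μ := P.restrict S) hm (ENNReal.ofReal x)).trans h
  have hms : MeasurableSet {w | ENNReal.ofReal x ≤ ENNReal.ofReal (Real.exp (M / 80 * X w))} :=
    measurableSet_le measurable_const hm
  rw [Measure.restrict_apply hms] at h1
  have h2 : P (S ∩ {w | t < X w}) ≤
      P ({w | ENNReal.ofReal x ≤ ENNReal.ofReal (Real.exp (M / 80 * X w))} ∩ S) := by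
    refine measure_mono fun w hw => ⟨?_, hw.1⟩
    show ENNReal.ofReal x ≤ ENNReal.ofReal (Real.exp (M / 80 * X w))
    rw [hx]
    exact ENNReal.ofReal_le_ofReal (Real.exp_le_exp.2 (mul_le_mul_of_nonneg_left (le_of_lt hw.2) (by positivity)))
  have h3 : ENNReal.ofReal x * P (S ∩ {w | t < X w}) ≤ ENNReal.ofReal (E ^ M) :=
    (mul_le_mul_right h2 _).trans h1
  have h4 : P (S ∩ {w | t < X w}) ≤ ENNReal.ofReal (E ^ M) / ENNReal.ofReal x := by
    rw [ENNReal.le_div_iff_mul_le (Or.inl (by simpa using hx0)) (Or.inl ENNReal.ofReal_ne_top), mul_comm]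
    exact h3
  refine h4.trans (le_of_eq ?_)
  rw [← ENNReal.ofReal_div_of_pos hx0]
  congr 1
  have h5 : E ^ M = Real.exp (M * Real.log E) := by
    rw [Real.exp_nat_mul, Real.exp_log hE]
  rw [h5, hx, ← Real.exp_sub]
  congr 1
  ring


/-! ### the frequency vector and the Hölder bound -/

/-- the amplitudes -/
private def pU33 (k d : ℕ) (V : Fin (k + 1 + d) → ℝ) : Fin (k + 1) → ℝ := fun j => V (Fin.castAdd d j)

/-- the frequency vector -/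
private noncomputable def pA33 (k d : ℕ) (V : Fin (k + 1 + d) → ℝ) : Td d :=
  fun m => ((V (Fin.natAdd (k + 1) m) : ℝ) : UnitAddCircle)

omit k e in
private theorem pU_dist33 {k : ℕ} (V V' : Fin (k + 1 + d) → ℝ) : dist (pU33 k d V) (pU33 k d V') ≤ dist V V' := by
  rw [dist_pi_le_iff dist_nonneg]
  intro j
  exact dist_le_pi_dist V V' (Fin.castAdd d j)

omit k e in
private theorem pA_dist33 {k : ℕ} (V V' : Fin (k + 1 + d) → ℝ) : dist (pA33 k d V) (pA33 k d V') ≤ dist V V' := by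
  rw [dist_pi_le_iff dist_nonneg]
  intro m
  refine le_trans ?_ (dist_le_pi_dist V V' (Fin.natAdd (k + 1) m))
  rw [dist_eq_norm, Real.dist_eq]
  show ‖((V (Fin.natAdd (k + 1) m) : ℝ) : UnitAddCircle) - ((V' (Fin.natAdd (k + 1) m) : ℝ) : UnitAddCircle)‖ ≤ _
  rw [← AddCircle.coe_sub, UnitAddCircle.norm_eq]
  refine (round_le _ 0).trans ?_
  rw [Int.cast_zero, sub_zero]

omit k e in
/-- every parameter has a representative -/
private theorem rep33 {k : ℕ} (U : Fin (k + 1) → ℝ) (α : Td d) {R : ℝ} (hU : ‖U‖ ≤ R) (hR : 1 ≤ R) :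
    ∃ V : Fin (k + 1 + d) → ℝ, ‖V‖ ≤ R ∧ pU33 k d V = U ∧ pA33 k d V = α := by
  have h1 : ∀ m, ∃ a : ℝ, |a| ≤ 1 ∧ ((a : ℝ) : UnitAddCircle) = α m := fun m => by
    have h2 := (AddCircle.equivIco 1 0 (α m)).2
    refine ⟨(AddCircle.equivIco 1 0 (α m) : ℝ), ?_, ?_⟩
    · rw [abs_of_nonneg h2.1]
      have := h2.2
      linarith
    · exact (AddCircle.equivIco 1 0).symm_apply_apply (α m)
  choose a ha1 ha2 using h1
  refine ⟨Fin.append U a, ?_, ?_, ?_⟩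
  · rw [pi_norm_le_iff_of_nonneg (by linarith)]
    intro j
    refine Fin.addCases (fun j => ?_) (fun j => ?_) j
    · rw [Fin.append_left]
      exact (norm_le_pi_norm U j).trans hU
    · rw [Fin.append_right, Real.norm_eq_abs]
      exact (ha1 j).trans hR
  · funext j
    exact Fin.append_left U a j
  · funext m
    show ((Fin.append U a (Fin.natAdd (k + 1) m) : ℝ) : UnitAddCircle) = α m
    rw [Fin.append_right, ha2]

private theorem td_dist33 (x y : Td d) : dist x y ≤ 1 := by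
  rw [dist_pi_le_iff zero_le_one]
  intro m
  rw [dist_eq_norm]
  have h1 := AddCircle.norm_le_half_period (1 : ℝ) one_ne_zero (x := x m - y m)
  rw [abs_one] at h1
  linarith

omit k e in
/-- one exponent for all functions -/
private theorem hol33 {k : ℕ} {e : Fin k → Td d → ℝ} (he : ∀ i, Hol (e i)) :
    ∃ (Ke : Fin k → ℝ) (r : ℝ), (∀ j, 0 ≤ Ke j) ∧ 0 < r ∧ r ≤ 1 ∧ ∀ j x y, |e j x - e j y| ≤ Ke j * dist x y ^ r := by
  choose K s hs h using he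
  obtain ⟨r, hr0, hr1, hr⟩ : ∃ r : ℝ, 0 < r ∧ r ≤ 1 ∧ ∀ j, r ≤ s j := by
    have h1 : ∀ t : Finset (Fin k), ∃ r : ℝ, 0 < r ∧ r ≤ 1 ∧ ∀ j ∈ t, r ≤ s j := by
      intro t
      induction t using Finset.induction_on with
      | empty => exact ⟨1, one_pos, le_rfl, by simp⟩
      | insert a t _ ih =>
        obtain ⟨r, h1, h2, h3⟩ := ih
        refine ⟨min r (s a), lt_min h1 (hs a), (min_le_left _ _).trans h2, fun j hj => ?_⟩
        rcases Finset.mem_insert.1 hj with rfl | hj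
        · exact min_le_right _ _
        · exact (min_le_left _ _).trans (h3 j hj)
    obtain ⟨r, h1, h2, h3⟩ := h1 Finset.univ
    exact ⟨r, h1, h2, fun j => h3 j (Finset.mem_univ j)⟩
  refine ⟨fun j => |K j|, r, fun j => abs_nonneg _, hr0, hr1, fun j x y => ?_⟩
  refine (h j x y).trans ?_
  have h2 : dist x y ^ s j ≤ dist x y ^ r := by
    rcases (dist_nonneg (x := x) (y := y)).eq_or_lt with h0 | h0
    · rw [← h0, Real.zero_rpow (hs j).ne', Real.zero_rpow hr0.ne']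
    · exact Real.rpow_le_rpow_of_exponent_ge h0 (td_dist33 x y) (hr j)
  exact mul_le_mul (le_abs_self _) h2 (Real.rpow_nonneg dist_nonneg _) (abs_nonneg _)

omit k e in
private theorem hol_cont33 {f : Td d → ℝ} (hf : Hol f) : Continuous f := by
  obtain ⟨K, s, hs, h⟩ := hf
  rw [continuous_iff_continuousAt]
  intro x
  rw [ContinuousAt, tendsto_iff_dist_tendsto_zero]
  have h1 : Tendsto (fun y : Td d => K * dist y x ^ s) (𝓝 x) (𝓝 0) := by
    have h2 : Tendsto (fun y : Td d => dist y x) (𝓝 x) (𝓝 0) := tendsto_iff_dist_tendsto_zero.1 tendsto_id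
    have h3 := (h2.rpow_const (Or.inr hs.le)).const_mul K
    rwa [Real.zero_rpow hs.ne', mul_zero] at h3
  exact squeeze_zero (fun y => dist_nonneg) (fun y => by rw [Real.dist_eq]; exact h y x) h1

/-- the amplitude is Hölder continuous -/
private theorem amu_hol33 {γ H r R : ℝ} {Ke : Fin k → ℝ} (hK : ∀ j x y, |e j x - e j y| ≤ Ke j * dist x y ^ r)
    (hr0 : 0 < r) (hr1 : r ≤ 1) (hH0 : 0 ≤ H) {w : Ow d} (hL : ∀ x y, |eta γ w x - eta γ w y| ≤ H * dist x y)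
    {U : Fin (k + 1) → ℝ} (h1 : ‖U‖ ≤ R) (x y : Td d) :
    |amU γ e U w x - amU γ e U w y| ≤ R * (∑ j, Ke j + H) * dist x y ^ r := by
  have hR : 0 ≤ R := (norm_nonneg _).trans h1
  have h3 : dist x y ≤ dist x y ^ r := by
    rcases (dist_nonneg (x := x) (y := y)).eq_or_lt with h0 | h0
    · rw [← h0, Real.zero_rpow hr0.ne']
    · calc dist x y = dist x y ^ (1 : ℝ) := (Real.rpow_one _).symm
        _ ≤ dist x y ^ r := Real.rpow_le_rpow_of_exponent_ge h0 (td_dist33 x y) hr1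
  have h4 : |eta γ w x - eta γ w y| ≤ H * dist x y ^ r := (hL x y).trans (mul_le_mul_of_nonneg_left h3 hH0)
  have h5 : |∑ i : Fin k, U i.succ * (e i x - e i y)| ≤ R * (∑ j, Ke j) * dist x y ^ r := by
    rw [mul_assoc, Finset.sum_mul, Finset.mul_sum]
    refine (Finset.abs_sum_le_sum_abs _ _).trans (Finset.sum_le_sum fun j _ => ?_)
    rw [abs_mul]
    exact mul_le_mul ((norm_le_pi_norm U j.succ).trans h1) (hK j x y) (abs_nonneg _) hR
  have h6 : |U 0| ≤ R := (norm_le_pi_norm U 0).trans h1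
  have h7 : amU γ e U w x - amU γ e U w y =
      (∑ i : Fin k, U i.succ * (e i x - e i y)) + U 0 * (eta γ w x - eta γ w y) := by
    unfold amU
    simp only [mul_sub, Finset.sum_sub_distrib]
    ring
  rw [h7]
  calc |(∑ i : Fin k, U i.succ * (e i x - e i y)) + U 0 * (eta γ w x - eta γ w y)|
      ≤ |∑ i : Fin k, U i.succ * (e i x - e i y)| + |U 0| * |eta γ w x - eta γ w y| := by
        refine (abs_add_le _ _).trans ?_
        rw [abs_mul]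
    _ ≤ R * (∑ j, Ke j) * dist x y ^ r + R * (H * dist x y ^ r) :=
        add_le_add h5 (mul_le_mul h6 h4 (abs_nonneg _) hR)
    _ = R * (∑ j, Ke j + H) * dist x y ^ r := by ring

omit k e in
/-- the points of the orbit -/
private theorem orb_dist33 (θ α α' : Td d) (j : ℕ) : dist (θ + j • α) (θ + j • α') ≤ j * dist α α' := by
  rw [dist_add_left, dist_eq_norm, dist_eq_norm, ← nsmul_sub]
  exact norm_nsmul_le

/-! ### the theorem -/

omit k e in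
theorem los_all_u (hd : 0 < d) {γ τ : ℝ} (hγ : 0 < γ) (hτ : 1 / (d : ℝ) ≤ τ) (hτγ : τ * γ < 1) {k : ℕ}
    {e : Fin k → Td d → ℝ} (he : ∀ i, Hol (e i)) (D : ℕ) {δ₀ : ℝ} (hδ₀ : 0 < δ₀) :
    ∃ δ : ℝ, 0 < δ ∧ δ < δ₀ ∧ ∀ c₀ : ℝ, 0 < c₀ → ∀ᵐ w ∂lawL d, ∃ i₁ : ℕ, ∀ i ≥ i₁, ∀ α : Td d, Dio c₀ τ α →
      ∀ U : Fin (k + 1) → ℝ, ‖U‖ ≤ 2 ^ (D * i) → Real.exp (-(2 : ℝ) ^ ((1 - 2 * δ) * i)) ≤ |U 0| →
      ∫ x : Td d × TT, los (sq α (amU γ e U w) x.1) x.2 (2 ^ i) ≤ (2 : ℝ) ^ ((1 - δ) * i) := by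
  obtain ⟨τ₂, τ₁, δ, p, hτ2, hτ1, hδ, hδδ, hδ8, hvol, hτγ1, hp, hpp⟩ := par33 hd hγ hτ hτγ hδ₀
  refine ⟨δ, hδ, hδδ, ?_⟩
  intro c hc
  obtain ⟨C, hC, hconc⟩ := conc_e
  obtain ⟨C₀, hC₀, hlip⟩ := los_lip
  have hτ0 : 0 < τ := lt_of_lt_of_le (by positivity) hτ
  have hec : ∀ i, Continuous (e i) := fun i => hol_cont33 (he i)
  obtain ⟨Ke, r, hKe0, hr0, hr1, hKe⟩ := hol33 he
  obtain ⟨Ge, hGe0, hGe⟩ : ∃ Ge : Fin k → ℝ, (∀ j, 0 ≤ Ge j) ∧ ∀ j θ, |e j θ| ≤ Ge j := by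
    have h1 : ∀ j, ∃ G : ℝ, 0 ≤ G ∧ ∀ θ, |e j θ| ≤ G := fun j => by
      obtain ⟨G, h1⟩ := (isCompact_univ (X := Td d)).exists_bound_of_continuousOn (hec j).continuousOn
      exact ⟨|G|, abs_nonneg _, fun θ => (h1 θ (mem_univ θ)).trans (le_abs_self G)⟩
    choose Ge h2 h3 using h1
    exact ⟨Ge, h2, h3⟩
  obtain ⟨G, hG⟩ : ∃ G : ℝ, G = ∑ j, Ge j := ⟨_, rfl⟩
  have hG0 : 0 ≤ G := by rw [hG]; exact Finset.sum_nonneg fun j _ => hGe0 j
  obtain ⟨Q, hQ⟩ : ∃ Q : ℝ, Q = ∑ j, Ke j := ⟨_, rfl⟩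
  have hQ0 : 0 ≤ Q := by rw [hQ]; exact Finset.sum_nonneg fun j _ => hKe0 j
  obtain ⟨G', hG'⟩ : ∃ G' : ℝ, G' = 3 * (G + Q) + 6 := ⟨_, rfl⟩
  have hG'0 : 0 ≤ G' := by rw [hG']; linarith
  -- the first index
  obtain ⟨i₀, hi₀⟩ := eventually_atTop.1 ((eventually_ge_atTop 3).and
    ((ev33 hvol ((2 : ℝ) ^ (d + 4))).and ((ev33 (neg_lt_neg hτ2) (c⁻¹ * (2 : ℝ) ^ τ)).and
    ((lin33 (show (0 : ℝ) < 1 - 2 * δ by linarith)
      (Real.log C + 6 * Real.log (G + 3) + 4 * Real.log 24) (6 * (D + 1) + 4)).and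
    ((ev33 (show 1 - 2 * δ < 1 - δ by linarith) (400 * (5 + 4 * (2 * p : ℝ) ^ γ))).and
    ((ev33 (show 1 + δ < 1 + 2 * δ by linarith) (800 / 3)).and
    (lin33 (half_pos hδ) ((9 * Real.log (C₀ * (G' + 3)) + 2) / r) (9 * (((D + 1 : ℕ) : ℝ) + 1) / r))))))))
  have key := netP (P := lawL d) (D := D)
    (Rg := fun i => {V : Fin (k + 1 + d) → ℝ | ‖V‖ ≤ 2 ^ (D * i) ∧
      Real.exp (-(2 : ℝ) ^ ((1 - 2 * δ) * i)) ≤ |pU33 k d V 0| ∧ Dio c τ (pA33 k d V)})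
    (fun i V hV => hV.1) hδ
    (bad := fun i V => {w | Hw γ w ≤ ENNReal.ofReal ((2 : ℝ) ^ i)} ∩
      ({w | ∀ x y : Td d, |eta γ w x - eta γ w y| ≤ 2 ^ i * dist x y} ∩
      {w | (2 : ℝ) ^ ((1 - δ) * i) < X33 γ (pA33 k d V) e (2 ^ i) (pU33 k d V) w}))
    (bad' := fun i V => {w | Hw γ w ≤ ENNReal.ofReal ((2 : ℝ) ^ i)} ∩
      {w | (2 : ℝ) ^ ((1 - δ) * i) / 2 < X33 γ (pA33 k d V) e (2 ^ i) (pU33 k d V) w})
    (i₀ := i₀) ?_ ?_
  · filter_upwards [key, Hw_ae hγ, eta_lip hγ] with w hw hwt hwl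
    obtain ⟨i₁, h1⟩ := hw
    obtain ⟨Kl, hKl0, hKl⟩ := hwl
    obtain ⟨n, hn⟩ := exists_nat_gt (max (Hw γ w).toReal Kl)
    have hnn : ∀ i ≥ max i₁ n, max (Hw γ w).toReal Kl ≤ 2 ^ i := fun i hi => by
      refine hn.le.trans ?_
      have h4 : n ≤ i := (le_max_right _ _).trans hi
      have h5 : i < 2 ^ i := Nat.lt_two_pow_self
      have h6 : n ≤ 2 ^ i := by omega
      exact_mod_cast h6
    refine ⟨max i₁ n, fun i hi α hα U hu1 hu2 => ?_⟩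
    obtain ⟨V, hV, rfl, rfl⟩ := rep33 U α hu1 (one_le_pow₀ one_le_two)
    have h2 := h1 i ((le_max_left _ _).trans hi) V ⟨hV, hu2, hα⟩
    by_contra h3
    refine h2 ⟨?_, fun x y => ?_, not_le.1 h3⟩
    · show Hw γ w ≤ ENNReal.ofReal ((2 : ℝ) ^ i)
      rw [← ENNReal.ofReal_toReal hwt]
      exact ENNReal.ofReal_le_ofReal ((le_max_left _ _).trans (hnn i hi))
    · exact (hKl x y).trans (mul_le_mul_of_nonneg_right ((le_max_right _ _).trans (hnn i hi)) dist_nonneg)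
  · -- one parameter
    rintro i hi V ⟨hv1, hu2, hα⟩
    obtain ⟨α, hαd⟩ : ∃ α : Td d, α = pA33 k d V := ⟨_, rfl⟩
    obtain ⟨U, hUd⟩ : ∃ U : Fin (k + 1) → ℝ, U = pU33 k d V := ⟨_, rfl⟩
    have hu1 : ‖U‖ ≤ 2 ^ (D * i) := by
      rw [hUd, pi_norm_le_iff_of_nonneg (by positivity)]
      exact fun j => (norm_le_pi_norm V (Fin.castAdd d j)).trans hv1
    show lawL d ({w | Hw γ w ≤ ENNReal.ofReal ((2 : ℝ) ^ i)} ∩
      {w | (2 : ℝ) ^ ((1 - δ) * i) / 2 < X33 γ (pA33 k d V) e (2 ^ i) (pU33 k d V) w}) ≤ _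
    rw [← hαd, ← hUd]
    rw [← hαd] at hα
    rw [← hUd] at hu2
    obtain ⟨h3i, hv, hs, hl1, hl2, hm, hn⟩ := hi₀ i hi
    have hu0 : 0 < |U 0| := (Real.exp_pos _).trans_le hu2
    have hu3 : |U 0| ≤ 2 ^ (D * i) := (norm_le_pi_norm U 0).trans hu1
    obtain ⟨M, hMd⟩ : ∃ M : ℕ, M = ⌈(2 : ℝ) ^ (3 * δ * i)⌉₊ := ⟨_, rfl⟩
    obtain ⟨N, hNd⟩ : ∃ N : ℕ, N = ⌈(2 : ℝ) ^ (τ₁ * i)⌉₊ := ⟨_, rfl⟩
    have hi0 : (0 : ℝ) ≤ i := Nat.cast_nonneg i
    have hx1 : 1 ≤ (2 : ℝ) ^ (3 * δ * i) := Real.one_le_rpow one_le_two (by positivity)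
    have hy1 : 1 ≤ (2 : ℝ) ^ (τ₁ * i) := Real.one_le_rpow one_le_two (mul_nonneg (by linarith) hi0)
    have hMl : (2 : ℝ) ^ (3 * δ * i) ≤ M := by rw [hMd]; exact Nat.le_ceil _
    have hNl : (2 : ℝ) ^ (τ₁ * i) ≤ N := by rw [hNd]; exact Nat.le_ceil _
    have hMu : (M : ℝ) ≤ 2 * (2 : ℝ) ^ (3 * δ * i) := by
      rw [hMd]
      have := Nat.ceil_lt_add_one (by linarith : 0 ≤ (2 : ℝ) ^ (3 * δ * i))
      linarith
    have hNu : (N : ℝ) ≤ 2 * (2 : ℝ) ^ (τ₁ * i) := by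
      rw [hNd]
      have := Nat.ceil_lt_add_one (by linarith : 0 ≤ (2 : ℝ) ^ (τ₁ * i))
      linarith
    have hM1 : 1 ≤ M := by exact_mod_cast hx1.trans hMl
    have hN1 : 1 ≤ N := by exact_mod_cast hy1.trans hNl
    rw [zero_mul, Real.rpow_zero] at hv
    obtain ⟨β, hβ⟩ := pts33 hd hτ0 hc hα hv hs hMu
    obtain ⟨E, hE⟩ : ∃ E : ℝ, E = C * (2 ^ (D * i) * G + |U 0| * (2 ^ i + 1) + 1) ^ 6 *
      (min |U 0| 1 * Real.exp (-((p * N : ℝ) ^ γ)) / (12 * M))⁻¹ ^ 4 := ⟨_, rfl⟩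
    have hM0 : (0 : ℝ) < M := by exact_mod_cast hM1
    have hmin : 0 < min |U 0| 1 := lt_min hu0 one_pos
    have hE0 : 0 < E := by rw [hE]; positivity
    have hco := hconc d γ α (fun θ => ∑ i : Fin k, U i.succ * e i θ) (U 0) (2 ^ (D * i) * G) (2 ^ i)
      ((2 : ℝ) ^ (-τ₂ * i)) (2 ^ i) M N p β hγ
      (continuous_finsetSum _ fun i _ => continuous_const.mul (hec i)) (by positivity)
      (fun θ => by rw [hG]; exact f_le33 hGe hu1 θ) (abs_pos.1 hu0) (by positivity)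
      (by
        calc 2 ≤ 2 ^ 3 := by norm_num
          _ ≤ 2 ^ i := Nat.pow_le_pow_right two_pos h3i) hM1 hN1 hp (by positivity) hβ
      (mom33 h3i hδ hpp hMu hNl)
    rw [← hE] at hco
    have h1 := mark33 (X33_meas γ α hec U (2 ^ i)) (t := (2 : ℝ) ^ ((1 - δ) * i) / 2) hE0 hco
    refine h1.trans (ENNReal.ofReal_le_ofReal (Real.exp_le_exp.2 (neg_le_neg ?_)))
    have hlog : Real.log E ≤ (2 : ℝ) ^ ((1 - δ) * i) / 400 := by
      rw [hE]
      refine (log33 hC hG0 hγ hp hδ hδ8 hτγ1 hu3 hu2 hMu hM1 hNu).trans ?_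
      linarith
    have h5 : (2 : ℝ) ^ (3 * δ * i) * (2 : ℝ) ^ ((1 - δ) * i) = (2 : ℝ) ^ ((1 + 2 * δ) * i) := by
      rw [← Real.rpow_add two_pos]
      congr 1
      ring
    have h6 : 0 < (2 : ℝ) ^ ((1 - δ) * i) := by positivity
    calc (2 : ℝ) ^ ((1 + δ) * i) ≤ 3 / 800 * (2 : ℝ) ^ ((1 + 2 * δ) * i) := by linarith
      _ = (2 : ℝ) ^ (3 * δ * i) * (3 / 800 * (2 : ℝ) ^ ((1 - δ) * i)) := by rw [← h5]; ring
      _ ≤ M * ((2 : ℝ) ^ ((1 - δ) * i) / 2 / 80 - Real.log E) :=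
          mul_le_mul hMl (by linarith) (by positivity) hM0.le
  · -- near parameters
    rintro i hi V ⟨hv1, -, -⟩ V' ⟨hv1', -, -⟩ hdist w ⟨hw, hwl, hX⟩
    obtain ⟨h3i, hv, hs, hl1, hl2, hm, hn⟩ := hi₀ i hi
    refine ⟨hw, ?_⟩
    obtain ⟨U, hUd⟩ : ∃ U : Fin (k + 1) → ℝ, U = pU33 k d V := ⟨_, rfl⟩
    obtain ⟨U', hUd'⟩ : ∃ U : Fin (k + 1) → ℝ, U = pU33 k d V' := ⟨_, rfl⟩
    obtain ⟨α, hαd⟩ : ∃ α : Td d, α = pA33 k d V := ⟨_, rfl⟩
    obtain ⟨α', hαd'⟩ : ∃ α : Td d, α = pA33 k d V' := ⟨_, rfl⟩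
    obtain ⟨ε, hε⟩ : ∃ ε : ℝ, ε = Real.exp (-(2 : ℝ) ^ ((1 + δ / 2) * i)) := ⟨_, rfl⟩
    have hε0 : 0 < ε := by rw [hε]; exact Real.exp_pos _
    have hε1 : ε ≤ 1 := by
      rw [hε, ← Real.exp_zero]
      exact Real.exp_le_exp.2 (neg_nonpos.2 (by positivity))
    have hu1 : ‖U‖ ≤ 2 ^ (D * i) := by
      rw [hUd, pi_norm_le_iff_of_nonneg (by positivity)]
      exact fun j => (norm_le_pi_norm V (Fin.castAdd d j)).trans hv1
    have hu1' : ‖U'‖ ≤ 2 ^ (D * i) := by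
      rw [hUd', pi_norm_le_iff_of_nonneg (by positivity)]
      exact fun j => (norm_le_pi_norm V' (Fin.castAdd d j)).trans hv1'
    have hdU : dist U U' ≤ ε := by
      rw [hUd, hUd', hε]
      exact (pU_dist33 V V').trans hdist
    have hdA : dist α α' ≤ ε := by
      rw [hαd, hαd', hε]
      exact (pA_dist33 V V').trans hdist
    have hw' : Hw γ w ≤ ENNReal.ofReal ((2 : ℝ) ^ i) := hw
    have hwl' : ∀ x y : Td d, |eta γ w x - eta γ w y| ≤ 2 ^ i * dist x y := hwl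
    have hX' : (2 : ℝ) ^ ((1 - δ) * i) < X33 γ (pA33 k d V) e (2 ^ i) (pU33 k d V) w := hX
    show (2 : ℝ) ^ ((1 - δ) * i) / 2 < X33 γ (pA33 k d V') e (2 ^ i) (pU33 k d V') w
    rw [← hUd, ← hαd] at hX'
    rw [← hUd', ← hαd']
    have h2i : (1 : ℝ) ≤ 2 ^ i := one_le_pow₀ one_le_two
    have hDi : (1 : ℝ) ≤ 2 ^ (D * i) := one_le_pow₀ one_le_two
    obtain ⟨K, hK⟩ : ∃ K : ℝ, K = (G' + 3) * 2 ^ ((D + 1 + 1) * i) := ⟨_, rfl⟩
    have hKe' : K = 3 * 2 ^ i * ((G + Q + 3) * (2 ^ (D * i) * 2 ^ i)) := by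
      rw [hK, hG', show (D + 1 + 1) * i = D * i + i + i by ring, pow_add, pow_add]
      ring
    have h2D : 0 ≤ (2 : ℝ) ^ (D * i) * 2 ^ i := by positivity
    have hK1 : 2 ^ (D * i) * (G + Q + 2 * 2 ^ i) ≤ (G + Q + 3) * (2 ^ (D * i) * 2 ^ i) := by
      have h4 : (2 : ℝ) ^ (D * i) * (G + Q) ≤ 2 ^ (D * i) * 2 ^ i * (G + Q) :=
        mul_le_mul_of_nonneg_right (le_mul_of_one_le_right (by positivity) h2i) (by linarith)
      nlinarith
    have hK0 : (G + Q + 3) * (2 ^ (D * i) * 2 ^ i) ≤ K := by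
      rw [hKe']
      exact le_mul_of_one_le_left (by positivity) (by linarith)
    have hKG : 2 ^ (D * i) * (∑ j, Ge j + 2 ^ i) ≤ K := by
      refine le_trans ?_ (hK1.trans hK0)
      rw [← hG]
      exact mul_le_mul_of_nonneg_left (by linarith) (by positivity)
    have hK2 : 1 ≤ K := by
      refine le_trans ?_ hKG
      rw [← hG]
      exact one_le_mul_of_one_le_of_one_le hDi (by linarith)
    have a1 := fun θ => (amu_le33 hGe hw' (by positivity) hu1 θ).trans hKG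
    have a2 := fun θ => (amu_le33 hGe hw' (by positivity) hu1' θ).trans hKG
    have hεr0 : 0 < ε ^ r := Real.rpow_pos_of_pos hε0 r
    have hεr : ε ≤ ε ^ r := by
      calc ε = ε ^ (1 : ℝ) := (Real.rpow_one _).symm
        _ ≤ ε ^ r := Real.rpow_le_rpow_of_exponent_ge hε0 hε1 hr1
    have a3 : ∀ θ, ∀ j < 2 * 2 ^ i, |amU γ e U w (θ + j • α) - amU γ e U' w (θ + j • α')| ≤ K * ε ^ r :=
      fun θ j hj => by
      have b1 : |amU γ e U w (θ + j • α) - amU γ e U' w (θ + j • α)| ≤ (G + 2 ^ i) * ε ^ r := by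
        refine (amu_sub33 hGe hw' (by positivity) U U' _).trans ?_
        rw [mul_comm, ← hG]
        exact mul_le_mul_of_nonneg_left (hdU.trans hεr) (by positivity)
      have b2 : dist (θ + j • α) (θ + j • α') ^ r ≤ 2 * 2 ^ i * ε ^ r := by
        have c1 : dist (θ + j • α) (θ + j • α') ≤ 2 * 2 ^ i * ε := by
          refine (orb_dist33 θ α α' j).trans ?_
          have c2 : (j : ℝ) ≤ 2 * 2 ^ i := by exact_mod_cast hj.le
          exact mul_le_mul c2 hdA dist_nonneg (by positivity)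
        refine (Real.rpow_le_rpow dist_nonneg c1 hr0.le).trans ?_
        rw [Real.mul_rpow (by positivity) hε0.le]
        refine mul_le_mul_of_nonneg_right ?_ hεr0.le
        calc ((2 : ℝ) * 2 ^ i) ^ r ≤ (2 * 2 ^ i) ^ (1 : ℝ) :=
              Real.rpow_le_rpow_of_exponent_le (by linarith) hr1
          _ = 2 * 2 ^ i := Real.rpow_one _
      have b3 : |amU γ e U' w (θ + j • α) - amU γ e U' w (θ + j • α')| ≤
          2 ^ (D * i) * (Q + 2 ^ i) * (2 * 2 ^ i * ε ^ r) := by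
        refine (amu_hol33 hKe hr0 hr1 (by positivity) hwl' hu1' _ _).trans ?_
        rw [← hQ]
        exact mul_le_mul_of_nonneg_left b2 (by positivity)
      have b4 : (G + 2 ^ i) + 2 ^ (D * i) * (Q + 2 ^ i) * (2 * 2 ^ i) ≤ K := by
        have c1 : (G + 2 ^ i) ≤ 3 * 2 ^ i * (2 ^ (D * i) * (G + 2 ^ i)) := by
          have c2 : (1 : ℝ) ≤ 3 * 2 ^ i * 2 ^ (D * i) := one_le_mul_of_one_le_of_one_le (by linarith) hDi
          calc (G + 2 ^ i) = 1 * (G + 2 ^ i) := (one_mul _).symm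
            _ ≤ 3 * 2 ^ i * 2 ^ (D * i) * (G + 2 ^ i) := mul_le_mul_of_nonneg_right c2 (by positivity)
            _ = 3 * 2 ^ i * (2 ^ (D * i) * (G + 2 ^ i)) := by ring
        have c3 : 2 ^ (D * i) * (Q + 2 ^ i) * (2 * 2 ^ i) ≤ 3 * 2 ^ i * (2 ^ (D * i) * (Q + 2 ^ i)) := by
          have c4 : (0 : ℝ) ≤ 2 ^ (D * i) * (Q + 2 ^ i) * 2 ^ i := by positivity
          linarith
        calc (G + 2 ^ i) + 2 ^ (D * i) * (Q + 2 ^ i) * (2 * 2 ^ i)
            ≤ 3 * 2 ^ i * (2 ^ (D * i) * (G + Q + 2 * 2 ^ i)) := by linarith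
          _ ≤ 3 * 2 ^ i * ((G + Q + 3) * (2 ^ (D * i) * 2 ^ i)) := mul_le_mul_of_nonneg_left hK1 (by positivity)
          _ = K := hKe'.symm
      calc |amU γ e U w (θ + j • α) - amU γ e U' w (θ + j • α')|
          ≤ |amU γ e U w (θ + j • α) - amU γ e U' w (θ + j • α)| +
            |amU γ e U' w (θ + j • α) - amU γ e U' w (θ + j • α')| := abs_sub_le _ _ _
        _ ≤ ((G + 2 ^ i) + 2 ^ (D * i) * (Q + 2 ^ i) * (2 * 2 ^ i)) * ε ^ r := by
            refine (add_le_add b1 b3).trans (le_of_eq ?_)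
            ring
        _ ≤ K * ε ^ r := mul_le_mul_of_nonneg_right b4 hεr0.le
    have hnet : 3 * (C₀ * K) ^ (8 * 2 ^ i) * (K * ε ^ r) ≤ 1 / 2 := by
      have c1 : ε ^ r = Real.exp (-(r * (2 : ℝ) ^ ((1 + δ / 2) * i))) := by
        rw [hε, ← Real.exp_mul]
        congr 1
        ring
      rw [c1, hK]
      refine net33 (D := D + 1) (i := i) hC₀ hG'0 (δ := δ) (r := r) ?_
      have c2 := mul_le_mul_of_nonneg_left hn hr0.le
      refine le_trans (le_of_eq ?_) c2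
      field_simp
      push_cast
      ring
    have hint1 := int33 (by linarith) α hec a1 (2 ^ i)
    have hint2 := int33 (by linarith) α' hec a2 (2 ^ i)
    have hdif : |X33 γ α e (2 ^ i) U w - X33 γ α' e (2 ^ i) U' w| ≤ 1 / 2 := by
      unfold X33
      rw [← integral_sub hint1 hint2, ← Real.norm_eq_abs]
      refine (norm_integral_le_of_norm_le_const (C := 1 / 2) (Filter.Eventually.of_forall fun x => ?_)).trans ?_
      · rw [Real.norm_eq_abs]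
        -- change the second sequence after the time `2 * 2 ^ i`
        obtain ⟨B, hB⟩ : ∃ B : ℕ → ℝ, B = fun j => if j < 2 * 2 ^ i then sq α' (amU γ e U' w) x.1 j else
          sq α (amU γ e U w) x.1 j := ⟨_, rfl⟩
        have d1 : los (sq α' (amU γ e U' w) x.1) x.2 (2 ^ i) = los B x.2 (2 ^ i) := by
          refine los_congr (fun j hj => ?_) x.2
          rw [hB]
          exact (if_pos hj).symm
        rw [d1]
        refine (hlip K hK2 (sq α (amU γ e U w) x.1) B (K * ε ^ r) (by positivity) (fun j => a1 _) (fun j => ?_)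
          (fun j => ?_) x.2 (2 ^ i)).trans hnet
        · rw [hB]
          show |if j < 2 * 2 ^ i then sq α' (amU γ e U' w) x.1 j else sq α (amU γ e U w) x.1 j| ≤ K
          split_ifs with hj
          · exact a2 _
          · exact a1 _
        · rw [hB]
          show |sq α (amU γ e U w) x.1 j -
            if j < 2 * 2 ^ i then sq α' (amU γ e U' w) x.1 j else sq α (amU γ e U w) x.1 j| ≤ K * ε ^ r
          split_ifs with hj
          · exact a3 x.1 j hj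
          · rw [sub_self, abs_zero]
            positivity
      · simp
    have h7 := (abs_le.1 hdif).2
    have h8 : 1 ≤ (2 : ℝ) ^ ((1 - δ) * i) :=
      Real.one_le_rpow one_le_two (mul_nonneg (by linarith) (Nat.cast_nonneg i))
    linarith

end Pool.Agent.Helper82.AN
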