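import Pool.Agent.Helper82.AN.Eta

/-! Block AN-NDETA: the random function `b + η` is rarely small.

For fixed `θ`, the coefficient of index `(0, 0)` (`bas = 1`, `wt = 1`) is independent of the others and has density at most `1/2`, so `P(|b θ + q η θ| < t) ≤ t / |q|` (`eta` is `w (0, 0)` plus a function of the other coordinates: resample this coordinate, `eta_add`). So the mean of the measure of `{|b + q η| < t}` is at most `t / |q|`; Markov and Borel-Cantelli for
`t = 2^(-j)` and `t^c`, `c < 1`. -/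

set_option autoImplicit false
open MeasureTheory Real Set
open scoped ENNReal

namespace Pool.Agent.Helper82.AN

open Pool.Agent.Helper46.QP (TT Td dl)

variable {d : ℕ}

private lemma measurable_upd38 (i : Ik d) : Measurable fun q : Ow d × ℝ => Function.update q.1 i q.2 := by
  rw [measurable_pi_iff]
  intro j
  by_cases hj : j = i
  · subst hj
    simp only [Function.update_self]
    exact measurable_snd
  · simp only [Function.update_of_ne hj]
    exact (measurable_pi_apply j).comp measurable_fst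

private theorem res_mp38 (i : Ik d) :
    MeasurePreserving (fun p : Ow d × ℝ => Function.update p.1 i p.2) ((lawL d).prod lap) (lawL d) := by
  refine ⟨measurable_upd38 i, ?_⟩
  conv_rhs => unfold lawL
  apply Measure.eq_infinitePi
  intro s t ht
  rw [Measure.map_apply (measurable_upd38 i)
    (MeasurableSet.pi (Finset.countable_toSet _) fun j _ => ht j)]
  by_cases hi : i ∈ s
  · have e : (fun q : Ow d × ℝ => Function.update q.1 i q.2) ⁻¹' (Set.pi (s : Set (Ik d)) t) =
        Set.pi ((s.erase i : Finset (Ik d)) : Set (Ik d)) t ×ˢ t i := by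
      ext ⟨ω, u⟩
      simp only [Set.mem_preimage, Set.mem_pi, Finset.mem_coe, Set.mem_prod, Finset.mem_erase]
      constructor
      · intro h
        refine ⟨fun j hj => ?_, ?_⟩
        · have h1 := h j hj.2
          rwa [Function.update_of_ne hj.1] at h1
        · have h1 := h i hi
          rwa [Function.update_self] at h1
      · rintro ⟨h1, h2⟩ j hj
        by_cases hji : j = i
        · subst hji
          rwa [Function.update_self]
        · rw [Function.update_of_ne hji]
          exact h1 j ⟨hji, hj⟩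
    rw [e, Measure.prod_prod]
    unfold lawL
    rw [Measure.infinitePi_pi _ (fun j _ => ht j)]
    exact Finset.prod_erase_mul s (fun j => lap (t j)) hi
  · have e : (fun q : Ow d × ℝ => Function.update q.1 i q.2) ⁻¹' (Set.pi (s : Set (Ik d)) t) =
        Set.pi (s : Set (Ik d)) t ×ˢ univ := by
      ext ⟨ω, u⟩
      simp only [Set.mem_preimage, Set.mem_pi, Finset.mem_coe, Set.mem_prod, Set.mem_univ, and_true]
      have hne : ∀ j ∈ s, j ≠ i := fun j hj h => hi (h ▸ hj)
      constructor
      · intro h j hj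
        have h1 := h j hj
        rwa [Function.update_of_ne (hne j hj)] at h1
      · intro h j hj
        rw [Function.update_of_ne (hne j hj)]
        exact h j hj
    rw [e, Measure.prod_prod, measure_univ, mul_one]
    unfold lawL
    rw [Measure.infinitePi_pi _ (fun j _ => ht j)]

private theorem res_l38 (i : Ik d) {F : Ow d → ℝ≥0∞} (hF : Measurable F) :
    ∫⁻ ω, F ω ∂lawL d = ∫⁻ ω, ∫⁻ w, F (Function.update ω i w) ∂lap ∂lawL d := by
  rw [← (res_mp38 i).lintegral_comp hF]
  exact lintegral_prod _ (hF.comp (measurable_upd38 i)).aemeasurable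

/-- the density of the Laplace law is at most `1/2` -/
private lemma lap_small38 (u : ℝ) {q t : ℝ} (hq : q ≠ 0) :
    lap {x | |u + q * x| < t} ≤ ENNReal.ofReal (t / |q|) := by
  have hq' : 0 < |q| := abs_pos.mpr hq
  have hS : {x : ℝ | |u + q * x| < t} = Metric.ball (-u / q) (t / |q|) := by
    ext x
    rw [Set.mem_ofPred_eq, Metric.mem_ball, Real.dist_eq, lt_div_iff₀ hq', ← abs_mul]
    have h1 : (x - -u / q) * q = u + q * x := by field_simp; ring
    rw [h1]
  have hm : MeasurableSet {x : ℝ | |u + q * x| < t} := by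
    rw [hS]
    exact Metric.isOpen_ball.measurableSet
  unfold lap
  rw [withDensity_apply _ hm]
  calc ∫⁻ x in {x : ℝ | |u + q * x| < t}, ENNReal.ofReal (Real.exp (-|x|) / 2)
      ≤ ∫⁻ x in {x : ℝ | |u + q * x| < t}, ENNReal.ofReal (1 / 2) := by
        refine lintegral_mono fun x => ENNReal.ofReal_le_ofReal ?_
        have h2 : Real.exp (-|x|) ≤ 1 := by
          rw [Real.exp_le_one_iff]
          linarith [abs_nonneg x]
        linarith
    _ = ENNReal.ofReal (1 / 2) * ENNReal.ofReal (2 * (t / |q|)) := by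
        rw [setLIntegral_const, hS, Real.volume_ball]
    _ = ENNReal.ofReal (t / |q|) := by
        rw [← ENNReal.ofReal_mul (by norm_num)]
        congr 1
        ring

private lemma wt_zero38 {γ : ℝ} (hγ : 0 < γ) : wt γ ((0, 0) : Ik d) = 1 := by
  unfold wt
  simp only [norm_zero]
  rw [Real.zero_rpow hγ.ne', neg_zero, Real.exp_zero]

private lemma bas_zero38 (θ : Td d) : bas ((0, 0) : Ik d) θ = 1 := by
  unfold bas
  simp

/-- resampling the coefficient of index zero -/
private lemma eta_upd38 {γ : ℝ} (hγ : 0 < γ) {w : Ow d} (hw : Hw γ w ≠ ∞) (x : ℝ) (θ : Td d) :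
    eta γ (Function.update w ((0, 0) : Ik d) x) θ = (eta γ w θ - w (0, 0)) + x := by
  have h1 : Function.update w ((0, 0) : Ik d) x =
      w + Function.update (0 : Ow d) ((0, 0) : Ik d) (x - w (0, 0)) := by
    funext i
    by_cases hi : i = (0, 0)
    · subst hi
      simp
    · rw [Pi.add_apply, Function.update_of_ne hi, Function.update_of_ne hi]
      simp
  rw [h1, eta_add (s := {((0, 0) : Ik d)}) hw (fun i hi => by
    rw [Finset.mem_singleton] at hi
    rw [Function.update_of_ne hi]
    rfl), Finset.sum_singleton, wt_zero38 hγ, bas_zero38, Function.update_self]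
  ring

private lemma meas_set38 {γ : ℝ} {b : Td d → ℝ} (hb : Continuous b) (q t : ℝ) :
    MeasurableSet {p : Ow d × Td d | |b p.2 + q * eta γ p.1 p.2| < t} := by
  have h1 : Measurable fun p : Ow d × Td d => |b p.2 + q * eta γ p.1 p.2| :=
    ((hb.measurable.comp measurable_snd).add (measurable_const.mul (eta_meas γ))).abs
  exact measurableSet_lt h1 measurable_const

/-- the probability of a small value at one point -/
private lemma prob38 {γ : ℝ} (hγ : 0 < γ) {b : Td d → ℝ} (hb : Continuous b) {q : ℝ} (hq : q ≠ 0)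
    {t : ℝ} (ht : 0 < t) (θ : Td d) :
    lawL d {w | |b θ + q * eta γ w θ| < t} ≤ ENNReal.ofReal (t / |q|) := by
  have hm : MeasurableSet {w : Ow d | |b θ + q * eta γ w θ| < t} :=
    (measurable_id.prodMk measurable_const) (meas_set38 hb q t)
  rw [← lintegral_indicator_one hm, res_l38 ((0, 0) : Ik d) (measurable_one.indicator hm)]
  calc ∫⁻ ω, ∫⁻ x, ({w : Ow d | |b θ + q * eta γ w θ| < t}.indicator 1
        (Function.update ω ((0, 0) : Ik d) x) : ℝ≥0∞) ∂lap ∂lawL d
      ≤ ∫⁻ ω, ENNReal.ofReal (t / |q|) ∂lawL d := by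
        refine lintegral_mono_ae ?_
        filter_upwards [Hw_ae hγ] with ω hω
        have h1 : ∀ x : ℝ, ({w : Ow d | |b θ + q * eta γ w θ| < t}.indicator 1
            (Function.update ω ((0, 0) : Ik d) x) : ℝ≥0∞) =
            {x : ℝ | |(b θ + q * (eta γ ω θ - ω (0, 0))) + q * x| < t}.indicator 1 x := by
          intro x
          have h2 : (Function.update ω ((0, 0) : Ik d) x ∈ {w : Ow d | |b θ + q * eta γ w θ| < t}) ↔
              x ∈ {x : ℝ | |(b θ + q * (eta γ ω θ - ω (0, 0))) + q * x| < t} := by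
            rw [Set.mem_ofPred_eq, Set.mem_ofPred_eq, eta_upd38 hγ hω]
            have h3 : b θ + q * (eta γ ω θ - ω (0, 0) + x) =
                b θ + q * (eta γ ω θ - ω (0, 0)) + q * x := by ring
            rw [h3]
          by_cases h4 : x ∈ {x : ℝ | |(b θ + q * (eta γ ω θ - ω (0, 0))) + q * x| < t}
          · rw [Set.indicator_of_mem h4, Set.indicator_of_mem (h2.mpr h4)]
            rfl
          · rw [Set.indicator_of_notMem h4, Set.indicator_of_notMem (fun h => h4 (h2.mp h))]
        simp_rw [h1]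
        have h5 : MeasurableSet {x : ℝ | |(b θ + q * (eta γ ω θ - ω (0, 0))) + q * x| < t} :=
          measurableSet_lt (by fun_prop) measurable_const
        rw [lintegral_indicator_one h5]
        exact lap_small38 _ hq
    _ = ENNReal.ofReal (t / |q|) := by
        rw [lintegral_const, measure_univ, mul_one]

private lemma vol_td38 : (volume : Measure (Td d)) univ ≤ 1 := by
  have : IsProbabilityMeasure (volume : Measure UnitAddCircle) := ⟨by simp⟩
  exact prob_le_one

/-- the mean of the measure of the set of small values -/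
private lemma mean38 {γ : ℝ} (hγ : 0 < γ) {b : Td d → ℝ} (hb : Continuous b) {q : ℝ} (hq : q ≠ 0)
    {t : ℝ} (ht : 0 < t) :
    ∫⁻ w, volume {θ : Td d | |b θ + q * eta γ w θ| < t} ∂lawL d ≤ ENNReal.ofReal (t / |q|) := by
  have hm := meas_set38 (γ := γ) hb q t
  have h1 : ((lawL d).prod (volume : Measure (Td d)))
      {p : Ow d × Td d | |b p.2 + q * eta γ p.1 p.2| < t} =
      ∫⁻ w, volume {θ : Td d | |b θ + q * eta γ w θ| < t} ∂lawL d := Measure.prod_apply hm
  rw [← h1, Measure.prod_apply_symm hm]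
  calc ∫⁻ θ : Td d, lawL d ((fun w => (w, θ)) ⁻¹' {p : Ow d × Td d |
        |b p.2 + q * eta γ p.1 p.2| < t})
      ≤ ∫⁻ _ : Td d, ENNReal.ofReal (t / |q|) := lintegral_mono fun θ => prob38 hγ hb hq ht θ
    _ = ENNReal.ofReal (t / |q|) * volume (univ : Set (Td d)) := lintegral_const _
    _ ≤ ENNReal.ofReal (t / |q|) * 1 := by gcongr; exact vol_td38
    _ = ENNReal.ofReal (t / |q|) := mul_one _

theorem nd_eta {γ : ℝ} (hγ : 0 < γ) {b : Td d → ℝ} (hb : Continuous b) {q : ℝ} (hq : q ≠ 0) {c : ℝ} (hc : 0 < c) (hc1 : c < 1) :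
    ∀ᵐ w ∂lawL d, ∃ R : ℝ, 1 ≤ R ∧ ∀ t : ℝ, 0 < t →
      volume {θ | |b θ + q * eta γ w θ| < t} ≤ ENNReal.ofReal (R * t ^ c) := by
  set v : ℕ → Ow d → ℝ≥0∞ := fun j w =>
    ENNReal.ofReal (((2 : ℝ) ^ c) ^ j) * volume {θ : Td d | |b θ + q * eta γ w θ| < (1 / 2 : ℝ) ^ j}
    with hv
  have hvol : ∀ t : ℝ, Measurable fun w : Ow d =>
      volume {θ : Td d | |b θ + q * eta γ w θ| < t} := fun t =>
    measurable_measure_prodMk_left (meas_set38 (γ := γ) hb q t)
  have hvm : ∀ j, Measurable (v j) := fun j => measurable_const.mul (hvol _)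
  have hq' : 0 < |q| := abs_pos.mpr hq
  have h2c : (0 : ℝ) < (2 : ℝ) ^ c := Real.rpow_pos_of_pos two_pos c
  have h2c2 : (2 : ℝ) ^ c < 2 := by
    calc (2 : ℝ) ^ c < (2 : ℝ) ^ (1 : ℝ) := Real.rpow_lt_rpow_of_exponent_lt one_lt_two hc1
      _ = 2 := Real.rpow_one 2
  have hsum : ∫⁻ w, ∑' j, v j w ∂lawL d ≠ ∞ := by
    rw [lintegral_tsum (fun j => (hvm j).aemeasurable)]
    have h1 : ∀ j, ∫⁻ w, v j w ∂lawL d ≤
        ENNReal.ofReal (1 / |q| * ((2 : ℝ) ^ c / 2) ^ j) := by
      intro j
      simp only [hv]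
      rw [lintegral_const_mul _ (hvol _)]
      calc ENNReal.ofReal (((2 : ℝ) ^ c) ^ j) *
            ∫⁻ w, volume {θ : Td d | |b θ + q * eta γ w θ| < (1 / 2 : ℝ) ^ j} ∂lawL d
          ≤ ENNReal.ofReal (((2 : ℝ) ^ c) ^ j) * ENNReal.ofReal ((1 / 2 : ℝ) ^ j / |q|) := by
            gcongr
            exact mean38 hγ hb hq (by positivity)
        _ = ENNReal.ofReal (1 / |q| * ((2 : ℝ) ^ c / 2) ^ j) := by
            rw [← ENNReal.ofReal_mul (by positivity)]
            congr 1
            rw [div_pow, div_pow, one_pow]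
            field_simp
    have h2 : Summable fun j : ℕ => 1 / |q| * ((2 : ℝ) ^ c / 2) ^ j :=
      (summable_geometric_of_lt_one (by positivity) (by linarith)).mul_left _
    have h3 : ∑' j : ℕ, ENNReal.ofReal (1 / |q| * ((2 : ℝ) ^ c / 2) ^ j) ≠ ∞ := by
      rw [← ENNReal.ofReal_tsum_of_nonneg (fun j => by positivity) h2]
      exact ENNReal.ofReal_ne_top
    exact ne_top_of_le_ne_top h3 (ENNReal.tsum_le_tsum h1)
  have hae : ∀ᵐ w ∂lawL d, ∑' j, v j w < ∞ :=
    ae_lt_top (Measurable.tsum hvm) hsum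
  filter_upwards [hae] with w hw
  set S : ℝ := (∑' j, v j w).toReal with hS
  have hS0 : 0 ≤ S := ENNReal.toReal_nonneg
  have hSv : ∀ j, v j w ≤ ENNReal.ofReal S := by
    intro j
    rw [hS, ENNReal.ofReal_toReal hw.ne]
    exact ENNReal.le_tsum j
  refine ⟨1 + (2 : ℝ) ^ c * S, by linarith [mul_nonneg h2c.le hS0], fun t ht => ?_⟩
  by_cases ht1 : t ≤ 1
  · obtain ⟨j, hj1, hj2⟩ := exists_nat_pow_near_of_lt_one ht ht1 (show (0 : ℝ) < 1 / 2 by norm_num)
      (by norm_num)
    have h1 : volume {θ : Td d | |b θ + q * eta γ w θ| < t} ≤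
        volume {θ : Td d | |b θ + q * eta γ w θ| < (1 / 2 : ℝ) ^ j} :=
      measure_mono fun θ hθ => lt_of_lt_of_le hθ hj2
    have h2 : volume {θ : Td d | |b θ + q * eta γ w θ| < (1 / 2 : ℝ) ^ j} =
        ENNReal.ofReal ((((2 : ℝ) ^ c) ^ j)⁻¹) * v j w := by
      simp only [hv]
      rw [← mul_assoc, ← ENNReal.ofReal_mul (by positivity), inv_mul_cancel₀ (by positivity),
        ENNReal.ofReal_one, one_mul]
    calc volume {θ : Td d | |b θ + q * eta γ w θ| < t}
        ≤ ENNReal.ofReal ((((2 : ℝ) ^ c) ^ j)⁻¹) * v j w := h1.trans h2.le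
      _ ≤ ENNReal.ofReal ((((2 : ℝ) ^ c) ^ j)⁻¹) * ENNReal.ofReal S := by
          gcongr
          exact hSv j
      _ = ENNReal.ofReal ((((2 : ℝ) ^ c) ^ j)⁻¹ * S) := by
          rw [← ENNReal.ofReal_mul (by positivity)]
      _ ≤ ENNReal.ofReal ((1 + (2 : ℝ) ^ c * S) * t ^ c) := by
          apply ENNReal.ofReal_le_ofReal
          have h3 : (((2 : ℝ) ^ c) ^ j)⁻¹ ≤ (2 : ℝ) ^ c * t ^ c := by
            have h4 : (((2 : ℝ) ^ c) ^ j)⁻¹ = (2 : ℝ) ^ c * ((1 / 2 : ℝ) ^ (j + 1)) ^ c := by
              rw [← Real.mul_rpow two_pos.le (by positivity), pow_succ,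
                show (2 : ℝ) * ((1 / 2) ^ j * (1 / 2)) = (1 / 2) ^ j by ring,
                ← Real.rpow_natCast, ← Real.rpow_mul two_pos.le, one_div,
                inv_pow, Real.inv_rpow (by positivity), ← Real.rpow_natCast,
                ← Real.rpow_mul two_pos.le, mul_comm]
            rw [h4]
            exact mul_le_mul_of_nonneg_left
              (Real.rpow_le_rpow (by positivity) hj1.le hc.le) h2c.le
          have h5 : (((2 : ℝ) ^ c) ^ j)⁻¹ * S ≤ (2 : ℝ) ^ c * t ^ c * S :=
            mul_le_mul_of_nonneg_right h3 hS0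
          have h6 : 0 ≤ t ^ c := Real.rpow_nonneg ht.le c
          calc (((2 : ℝ) ^ c) ^ j)⁻¹ * S ≤ (2 : ℝ) ^ c * t ^ c * S := h5
            _ ≤ (1 + (2 : ℝ) ^ c * S) * t ^ c := by nlinarith
  · push Not at ht1
    have h1 : (1 : ℝ) ≤ (1 + (2 : ℝ) ^ c * S) * t ^ c := by
      have h2 : (1 : ℝ) ≤ t ^ c := Real.one_le_rpow ht1.le hc.le
      have h3 : (1 : ℝ) ≤ 1 + (2 : ℝ) ^ c * S := by linarith [mul_nonneg h2c.le hS0]
      calc (1 : ℝ) = 1 * 1 := by ring
        _ ≤ _ := mul_le_mul h3 h2 zero_le_one (by linarith)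
    calc volume {θ : Td d | |b θ + q * eta γ w θ| < t} ≤ volume (univ : Set (Td d)) :=
          measure_mono (subset_univ _)
      _ ≤ 1 := vol_td38
      _ = ENNReal.ofReal 1 := ENNReal.ofReal_one.symm
      _ ≤ _ := ENNReal.ofReal_le_ofReal h1

end Pool.Agent.Helper82.AN
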