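import Pool.Agent.Helper82.AN.NdKb

/-! Block AN-NDK: `∑ s_i e_i + η` is rarely small, uniformly in the real numbers `s_i`, `|s_i| ≤ 1 / t`.

`K = 4 k + 6`, `c = 1 / (2 K)`. It is enough to treat `t = 2^(-n)`, `n` large (`R` absorbs the rest; between `2^(-n-1)` and `2^(-n)` use `c`-homogeneity, `1 / t ≤ 2^(n+1)`). Net of `{s | ‖s‖ ≤ 2 / t}` with mesh `t`: at most `(6 / t² + 3)^k` points (boxes `t ℤ^k`); if `s` is near the net point `s'`, then
`{|∑ s_i e_i + η| < t} ⊆ A(s') := {|∑ s'_i e_i + η| < (1 + k max |e_i|) t}`. So it is enough: `∑_n ∑_{s'} P(volume A(s') ≥ t^c) < ∞` (Borel-Cantelli).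
One `s'`: let `r = t^c / (8 K)`. If `volume A ≥ t^c`, the set of `(x_1, .., x_K) ∈ A^K` with `‖x_i 0 - x_j 0‖ ≥ r` for `i ≠ j` has measure at least `(t^c / 2)^K`: choose the points one after the other, each earlier point forbids a set of measure at most `2 r` (`volume {y | ‖y - a‖ < r} ≤ 2 r` on the circle; the first
coordinate has the law of the circle). Markov and Tonelli: `P(volume A ≥ t^c) ≤ (2 t^(-c))^K ∫_{separated} P(∀ j, x_j ∈ A) ≤ (2 t^(-c))^K C ((1 + k max |e|) t r⁻ᴷ)^K ≤ C' t^(K - cK - cK²) ≤ C' t^(K/2 - 1/2) = C' t^(2 k + 5/2)` by `ball_k`. The net has at most `C'' t^(-2k)` points. So the sum over `n` is finite.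
(`Hw_ae`: the measure of `A` and joint measurability: `eta_meas`.) -/

set_option autoImplicit false
open MeasureTheory Real Set
open scoped ENNReal

namespace Pool.Agent.Helper82.AN

open Pool.Agent.Helper46.QP (TT Td dl)

variable {d : ℕ}

private theorem td_prob95 : IsProbabilityMeasure (volume : Measure (Td d)) := by
  have : IsProbabilityMeasure (volume : Measure UnitAddCircle) := ⟨by simp⟩
  infer_instance

/-- the first coordinate is rarely close to a point -/
private lemma vol_close95 (hd : 0 < d) (b : UnitAddCircle) (r : ℝ) :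
    volume {a : Td d | ‖a ⟨0, hd⟩ - b‖ < r} ≤ ENNReal.ofReal (2 * r) := by
  have : IsProbabilityMeasure (volume : Measure UnitAddCircle) := ⟨by simp⟩
  have h1 : MeasurePreserving (fun a : Td d => a ⟨0, hd⟩) volume volume :=
    measurePreserving_eval (fun _ : Fin d => (volume : Measure UnitAddCircle)) ⟨0, hd⟩
  have h2 : {a : Td d | ‖a ⟨0, hd⟩ - b‖ < r} = (fun a : Td d => a ⟨0, hd⟩) ⁻¹' Metric.ball b r := by
    ext a
    simp [dist_eq_norm]
  rw [h2, h1.measure_preimage Metric.isOpen_ball.nullMeasurableSet]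
  calc volume (Metric.ball b r) ≤ volume (Metric.closedBall b r) := measure_mono Metric.ball_subset_closedBall
    _ = ENNReal.ofReal (min 1 (2 * r)) := AddCircle.volume_closedBall 1 r
    _ ≤ _ := ENNReal.ofReal_le_ofReal (min_le_right _ _)

/-- separated points of a set -/
private def Sp95 (hd : 0 < d) (A : Set (Td d)) (r : ℝ) (n : ℕ) : Set (Fin n → Td d) :=
  {x | (∀ j, x j ∈ A) ∧ ∀ i j, i ≠ j → r ≤ ‖x i ⟨0, hd⟩ - x j ⟨0, hd⟩‖}

private lemma sep_meas95 (hd : 0 < d) (r : ℝ) (n : ℕ) :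
    MeasurableSet {x : Fin n → Td d | ∀ i j, i ≠ j → r ≤ ‖x i ⟨0, hd⟩ - x j ⟨0, hd⟩‖} := by
  have h : {x : Fin n → Td d | ∀ i j, i ≠ j → r ≤ ‖x i ⟨0, hd⟩ - x j ⟨0, hd⟩‖} =
      ⋂ i, ⋂ j, ⋂ (_ : i ≠ j), {x : Fin n → Td d | r ≤ ‖x i ⟨0, hd⟩ - x j ⟨0, hd⟩‖} := by
    ext x
    simp
  rw [h]
  refine MeasurableSet.iInter fun i => MeasurableSet.iInter fun j => MeasurableSet.iInter fun _ => ?_
  exact measurableSet_le measurable_const (by fun_prop)

private lemma sp_meas95 (hd : 0 < d) {A : Set (Td d)} (hA : MeasurableSet A) (r : ℝ) (n : ℕ) :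
    MeasurableSet (Sp95 hd A r n) := by
  have h1 : MeasurableSet {x : Fin n → Td d | ∀ j, x j ∈ A} := by
    have h : {x : Fin n → Td d | ∀ j, x j ∈ A} = ⋂ j, (fun x : Fin n → Td d => x j) ⁻¹' A := by
      ext x
      simp
    rw [h]
    exact MeasurableSet.iInter fun j => (measurable_pi_apply j) hA
  exact h1.inter (sep_meas95 hd r n)

private lemma sp_vol95 (hd : 0 < d) {A : Set (Td d)} (hA : MeasurableSet A) {m r : ℝ} {K : ℕ} (hr : 0 ≤ r)
    (hm : 4 * K * r ≤ m) (hAm : ENNReal.ofReal m ≤ volume A) (n : ℕ) (hn : n ≤ K) :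
    ENNReal.ofReal (m / 2) ^ n ≤ volume (Sp95 hd A r n) := by
  have := td_prob95 (d := d)
  induction n with
  | zero =>
    have h : Sp95 hd A r 0 = univ := by
      ext x
      simp only [Sp95, mem_ofPred_eq, mem_univ, iff_true]
      exact ⟨fun j => j.elim0, fun i => i.elim0⟩
    rw [h, measure_univ, pow_zero]
  | succ n ih =>
    have ih' := ih (by omega)
    set P : Set (Td d × (Fin n → Td d)) :=
      {p | p.2 ∈ Sp95 hd A r n ∧ p.1 ∈ A ∧ ∀ j, r ≤ ‖p.1 ⟨0, hd⟩ - p.2 j ⟨0, hd⟩‖} with hP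
    have hPm : MeasurableSet P := by
      have h1 : MeasurableSet {p : Td d × (Fin n → Td d) | ∀ j, r ≤ ‖p.1 ⟨0, hd⟩ - p.2 j ⟨0, hd⟩‖} := by
        have h : {p : Td d × (Fin n → Td d) | ∀ j, r ≤ ‖p.1 ⟨0, hd⟩ - p.2 j ⟨0, hd⟩‖} =
            ⋂ j, {p : Td d × (Fin n → Td d) | r ≤ ‖p.1 ⟨0, hd⟩ - p.2 j ⟨0, hd⟩‖} := by
          ext x
          simp
        rw [h]
        exact MeasurableSet.iInter fun j => measurableSet_le measurable_const (by fun_prop)
      exact (measurable_snd (sp_meas95 hd hA r n)).inter ((measurable_fst hA).inter h1)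
    have hsub : (MeasurableEquiv.piFinSuccAbove (fun _ : Fin (n + 1) => Td d) 0) ⁻¹' P ⊆ Sp95 hd A r (n + 1) := by
      intro x hx
      simp only [mem_preimage, hP, mem_ofPred_eq, Sp95, MeasurableEquiv.piFinSuccAbove_apply] at hx
      obtain ⟨⟨h1, h2⟩, h3, h4⟩ := hx
      refine ⟨fun j => ?_, fun i j hij => ?_⟩
      · refine Fin.cases h3 (fun j => ?_) j
        exact h1 j
      · revert hij
        refine Fin.cases ?_ (fun i => ?_) i
        · refine Fin.cases (fun h => absurd rfl h) (fun j _ => ?_) j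
          exact h4 j
        · refine Fin.cases (fun _ => ?_) (fun j hij => ?_) j
          · rw [norm_sub_rev]
            exact h4 i
          · exact h2 i j (fun h => hij (by rw [h]))
    have hvol : volume P ≤ volume (Sp95 hd A r (n + 1)) := by
      have h1 := (volume_preserving_piFinSuccAbove (fun _ : Fin (n + 1) => Td d) 0).measure_preimage
        hPm.nullMeasurableSet
      rw [← h1]
      exact measure_mono hsub
    refine le_trans ?_ hvol
    have hfib : ∀ y ∈ Sp95 hd A r n, ENNReal.ofReal (m / 2) ≤ volume ((fun a => (a, y)) ⁻¹' P) := by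
      intro y hy
      have h1 : A \ ⋃ j, {a : Td d | ‖a ⟨0, hd⟩ - y j ⟨0, hd⟩‖ < r} ⊆ (fun a => (a, y)) ⁻¹' P := by
        rintro a ⟨ha, hb⟩
        simp only [mem_iUnion, mem_ofPred_eq, not_exists, not_lt] at hb
        exact ⟨hy, ha, hb⟩
      have h2 : volume (⋃ j, {a : Td d | ‖a ⟨0, hd⟩ - y j ⟨0, hd⟩‖ < r}) ≤ ENNReal.ofReal (m / 2) := by
        calc volume (⋃ j, {a : Td d | ‖a ⟨0, hd⟩ - y j ⟨0, hd⟩‖ < r})
            ≤ ∑ j : Fin n, volume {a : Td d | ‖a ⟨0, hd⟩ - y j ⟨0, hd⟩‖ < r} := by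
              rw [← tsum_fintype (L := SummationFilter.unconditional _)]
              exact measure_iUnion_le _
          _ ≤ ∑ _j : Fin n, ENNReal.ofReal (2 * r) := Finset.sum_le_sum fun j _ => vol_close95 hd _ _
          _ = ENNReal.ofReal (n * (2 * r)) := by
              rw [Finset.sum_const, Finset.card_univ, Fintype.card_fin, nsmul_eq_mul,
                ENNReal.ofReal_mul (Nat.cast_nonneg _), ENNReal.ofReal_natCast]
          _ ≤ _ := by
              refine ENNReal.ofReal_le_ofReal ?_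
              have : (n : ℝ) ≤ K := by exact_mod_cast (by omega : n ≤ K)
              nlinarith
      calc ENNReal.ofReal (m / 2) = ENNReal.ofReal m - ENNReal.ofReal (m / 2) := by
            have hm0 : 0 ≤ m := le_trans (by positivity) hm
            rw [← ENNReal.ofReal_sub _ (by linarith)]
            congr 1
            ring
        _ ≤ volume A - volume (⋃ j, {a : Td d | ‖a ⟨0, hd⟩ - y j ⟨0, hd⟩‖ < r}) := tsub_le_tsub hAm h2
        _ ≤ volume (A \ ⋃ j, {a : Td d | ‖a ⟨0, hd⟩ - y j ⟨0, hd⟩‖ < r}) := le_measure_sdiff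
        _ ≤ _ := measure_mono h1
    calc ENNReal.ofReal (m / 2) ^ (n + 1) = ENNReal.ofReal (m / 2) * ENNReal.ofReal (m / 2) ^ n := by
          rw [pow_succ, mul_comm]
      _ ≤ ENNReal.ofReal (m / 2) * volume (Sp95 hd A r n) := by gcongr
      _ = ∫⁻ _y in Sp95 hd A r n, ENNReal.ofReal (m / 2) := by rw [setLIntegral_const]
      _ ≤ ∫⁻ y in Sp95 hd A r n, volume ((fun a => (a, y)) ⁻¹' P) :=
          setLIntegral_mono' (sp_meas95 hd hA r n) hfib
      _ ≤ ∫⁻ y, volume ((fun a => (a, y)) ⁻¹' P) := setLIntegral_le_lintegral _ _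
      _ = volume P := by
          rw [Measure.volume_eq_prod, Measure.prod_apply_symm hPm]

/-- one function: the set of small values is rarely large -/
private lemma one95 (hd : 0 < d) {γ : ℝ} (hγ : 0 < γ) {K : ℕ} (hK : 1 ≤ K) : ∃ C : ℝ, 1 ≤ C ∧
    ∀ (h : Td d → ℝ) (m u : ℝ), Measurable h → 0 < m → m ≤ 1 → 0 < u →
      lawL d {w | ENNReal.ofReal m ≤ volume {θ | |h θ + eta γ w θ| < u}} ≤
        ENNReal.ofReal (C * (u * m⁻¹ ^ (K + 1)) ^ K) := by
  have hprob := td_prob95 (d := d)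
  obtain ⟨C, hC, hball⟩ := ball_k (d := d) hd hγ hK
  have hKR : (1 : ℝ) ≤ K := by exact_mod_cast hK
  have h4K : (1 : ℝ) ≤ 4 * K := by linarith
  have hD1 : (1 : ℝ) ≤ 2 * (4 * K) ^ K := by
    have := one_le_pow₀ h4K (n := K)
    linarith
  refine ⟨C * (2 * (4 * K) ^ K) ^ K, ?_, ?_⟩
  · have := one_le_pow₀ hD1 (n := K)
    nlinarith
  intro h m u hh hm hm1 hu
  set r : ℝ := m / (4 * K) with hr
  have hr0 : 0 < r := by positivity
  have hr1 : r ≤ 1 / 2 := by
    rw [hr, div_le_div_iff₀ (by positivity) two_pos]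
    nlinarith
  have hmr : 4 * K * r ≤ m := by
    rw [hr]
    exact (mul_div_cancel₀ m (by positivity)).le
  -- the joint set
  set G : Set (Ow d × (Fin K → Td d)) := {p | (∀ j, |h (p.2 j) + eta γ p.1 (p.2 j)| < u) ∧
    ∀ i j, i ≠ j → r ≤ ‖p.2 i ⟨0, hd⟩ - p.2 j ⟨0, hd⟩‖} with hG
  have hGm : MeasurableSet G := by
    have h1 : MeasurableSet {p : Ow d × (Fin K → Td d) | ∀ j, |h (p.2 j) + eta γ p.1 (p.2 j)| < u} := by
      have h2 : {p : Ow d × (Fin K → Td d) | ∀ j, |h (p.2 j) + eta γ p.1 (p.2 j)| < u} =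
          ⋂ j, {p : Ow d × (Fin K → Td d) | |h (p.2 j) + eta γ p.1 (p.2 j)| < u} := by
        ext p
        simp
      rw [h2]
      refine MeasurableSet.iInter fun j => measurableSet_lt ?_ measurable_const
      have h3 : Measurable fun p : Ow d × (Fin K → Td d) => p.2 j := (measurable_pi_apply j).comp measurable_snd
      have h4 : Measurable fun p : Ow d × (Fin K → Td d) => eta γ p.1 (p.2 j) :=
        (eta_meas γ).comp (measurable_fst.prodMk h3)
      exact ((hh.comp h3).add h4).abs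
    exact h1.inter (measurable_snd (sep_meas95 hd r K))
  have hAm : ∀ w : Ow d, MeasurableSet {θ : Td d | |h θ + eta γ w θ| < u} := by
    intro w
    have h4 : Measurable fun θ : Td d => eta γ w θ := (eta_meas γ).comp (measurable_const.prodMk measurable_id)
    exact measurableSet_lt (hh.add h4).abs measurable_const
  have hSet : MeasurableSet {w : Ow d | ENNReal.ofReal m ≤ volume {θ | |h θ + eta γ w θ| < u}} := by
    refine measurableSet_le measurable_const ?_
    have h5 : MeasurableSet {p : Ow d × Td d | |h p.2 + eta γ p.1 p.2| < u} :=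
      measurableSet_lt ((hh.comp measurable_snd).add (eta_meas γ)).abs measurable_const
    exact measurable_measure_prodMk_left h5
  have h1 : ENNReal.ofReal (m / 2) ^ K * lawL d {w | ENNReal.ofReal m ≤ volume {θ | |h θ + eta γ w θ| < u}} ≤
      ENNReal.ofReal (C * (u * r⁻¹ ^ K) ^ K) := by
    calc ENNReal.ofReal (m / 2) ^ K * lawL d {w | ENNReal.ofReal m ≤ volume {θ | |h θ + eta γ w θ| < u}}
        = ∫⁻ _w in {w | ENNReal.ofReal m ≤ volume {θ | |h θ + eta γ w θ| < u}}, ENNReal.ofReal (m / 2) ^ K ∂lawL d := by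
          rw [setLIntegral_const]
      _ ≤ ∫⁻ w in {w | ENNReal.ofReal m ≤ volume {θ | |h θ + eta γ w θ| < u}}, volume (Prod.mk w ⁻¹' G) ∂lawL d := by
          refine setLIntegral_mono' hSet fun w hw => ?_
          exact sp_vol95 hd (hAm w) hr0.le hmr hw K le_rfl
      _ ≤ ∫⁻ w, volume (Prod.mk w ⁻¹' G) ∂lawL d := setLIntegral_le_lintegral _ _
      _ = ((lawL d).prod volume) G := (Measure.prod_apply hGm).symm
      _ = ∫⁻ x : Fin K → Td d, lawL d ((fun w => (w, x)) ⁻¹' G) := Measure.prod_apply_symm hGm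
      _ ≤ ∫⁻ _x : Fin K → Td d, ENNReal.ofReal (C * (u * r⁻¹ ^ K) ^ K) := by
          refine lintegral_mono fun x => ?_
          by_cases hx : ∀ i j, i ≠ j → r ≤ ‖x i ⟨0, hd⟩ - x j ⟨0, hd⟩‖
          · refine le_trans (measure_mono fun w hw => ?_) (hball x r u (fun j => h (x j)) hr0 hr1 hu hx)
            exact hw.1
          · have h2 : (fun w => (w, x)) ⁻¹' G = ∅ := by
              ext w
              simp only [mem_preimage, mem_empty_iff_false, iff_false]
              exact fun hw => hx hw.2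
            rw [h2, measure_empty]
            exact zero_le
      _ = _ := by rw [lintegral_const, measure_univ, mul_one]
  have hm2 : 0 < (m / 2) ^ K := by positivity
  have h2 : ENNReal.ofReal (m / 2) ^ K ≠ 0 := by
    rw [← ENNReal.ofReal_pow (by positivity)]
    exact (ENNReal.ofReal_pos.2 hm2).ne'
  have h3 : ENNReal.ofReal (m / 2) ^ K ≠ ∞ := ENNReal.pow_ne_top ENNReal.ofReal_ne_top
  calc lawL d {w | ENNReal.ofReal m ≤ volume {θ | |h θ + eta γ w θ| < u}}
      ≤ ENNReal.ofReal (C * (u * r⁻¹ ^ K) ^ K) / ENNReal.ofReal (m / 2) ^ K := by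
        rw [ENNReal.le_div_iff_mul_le (Or.inl h2) (Or.inl h3), mul_comm]
        exact h1
    _ = ENNReal.ofReal (C * (u * r⁻¹ ^ K) ^ K / (m / 2) ^ K) := by
        rw [← ENNReal.ofReal_pow (by positivity), ENNReal.ofReal_div_of_pos hm2]
    _ = _ := by
        congr 1
        have e1 : r⁻¹ = 4 * K * m⁻¹ := by
          rw [hr]
          field_simp
        have e2 : ((m / 2) ^ K)⁻¹ = (2 * m⁻¹) ^ K := by
          rw [← inv_pow]
          congr 1
          field_simp
        rw [div_eq_mul_inv, e2, e1, mul_assoc C, ← mul_pow, mul_assoc C, ← mul_pow]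
        congr 2
        rw [mul_pow (4 * (K : ℝ)), pow_succ]
        ring

theorem nd_k (hd : 0 < d) {γ : ℝ} (hγ : 0 < γ) {k : ℕ} {e : Fin k → Td d → ℝ} (he : ∀ i, Continuous (e i)) :
    ∀ᵐ w ∂lawL d, ∃ R : ℝ, 1 ≤ R ∧ ∀ t : ℝ, 0 < t → ∀ s : Fin k → ℝ, ‖s‖ ≤ 1 / t →
      volume {θ | |(∑ i, s i * e i θ) + eta γ w θ| < t} ≤ ENNReal.ofReal (R * t ^ (1 / (8 * (k : ℝ) + 12))) := by
  have hprob := td_prob95 (d := d)
  obtain ⟨E, hE0, hE⟩ : ∃ E : ℝ, 0 ≤ E ∧ ∀ i θ, |e i θ| ≤ E := by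
    have h1 : ∀ i, ∃ E : ℝ, ∀ θ, |e i θ| ≤ E := by
      intro i
      obtain ⟨C, hC⟩ := isCompact_univ.exists_bound_of_continuousOn (he i).continuousOn
      exact ⟨C, fun θ => by simpa using hC θ (mem_univ θ)⟩
    choose E hE using h1
    refine ⟨∑ i, |E i|, Finset.sum_nonneg fun i _ => abs_nonneg _, fun i θ => ?_⟩
    exact (hE i θ).trans ((le_abs_self _).trans
      (Finset.single_le_sum (f := fun i => |E i|) (fun i _ => abs_nonneg _) (Finset.mem_univ i)))
  obtain ⟨K, hK⟩ : ∃ K : ℕ, K = 4 * k + 6 := ⟨_, rfl⟩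
  obtain ⟨C, hC, hone⟩ := one95 (d := d) hd hγ (K := K) (by omega)
  obtain ⟨c, hc⟩ : ∃ c : ℝ, c = 1 / (8 * (k : ℝ) + 12) := ⟨_, rfl⟩
  have hc0 : 0 < c := by
    rw [hc]
    positivity
  have hc1 : c ≤ 1 := by
    rw [hc, div_le_one (by positivity)]
    have : (0 : ℝ) ≤ k := Nat.cast_nonneg k
    linarith
  have hcK : c * ((2 * K : ℕ) : ℝ) = 1 := by
    rw [hc, hK]
    push_cast
    field_simp
    ring
  rw [← hc]
  obtain ⟨D, hD⟩ : ∃ D : ℝ, D = 1 + k * E := ⟨_, rfl⟩
  have hD1 : 1 ≤ D := by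
    rw [hD]
    have : (0 : ℝ) ≤ k * E := by positivity
    linarith
  have hC0 : 0 < C := by linarith
  have hD0 : 0 < D := by linarith
  -- scales
  obtain ⟨τ, hτ⟩ : ∃ τ : ℕ → ℝ, τ = fun n => (1 / 2 : ℝ) ^ n := ⟨_, rfl⟩
  have hτ0 : ∀ n, 0 < τ n := fun n => by rw [hτ]; positivity
  have hτ1 : ∀ n, τ n ≤ 1 := fun n => by rw [hτ]; exact pow_le_one₀ (by norm_num) (by norm_num)
  have hτ4 : ∀ n, (4 : ℝ) ^ n * (τ n) ^ 2 = 1 := by
    intro n
    rw [hτ, ← pow_mul, mul_comm n 2, pow_mul, ← mul_pow]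
    norm_num
  obtain ⟨m, hm⟩ : ∃ m : ℕ → ℝ, m = fun n => τ n ^ c := ⟨_, rfl⟩
  have hm0 : ∀ n, 0 < m n := fun n => by rw [hm]; exact Real.rpow_pos_of_pos (hτ0 n) _
  have hm1 : ∀ n, m n ≤ 1 := fun n => by rw [hm]; exact Real.rpow_le_one (hτ0 n).le (hτ1 n) hc0.le
  have hmτ : ∀ n, m n ^ (2 * K) = τ n := by
    intro n
    rw [hm]
    show (τ n ^ c) ^ (2 * K) = τ n
    rw [← Real.rpow_natCast, ← Real.rpow_mul (hτ0 n).le, hcK, Real.rpow_one]
  -- the net
  obtain ⟨Z, hZ⟩ : ∃ Z : ℕ → Finset (Fin k → ℤ), Z = fun n => Fintype.piFinset fun _ =>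
    Finset.Icc (-(3 * 4 ^ n : ℤ)) (3 * 4 ^ n) := ⟨_, rfl⟩
  have hcard : ∀ n, ((Z n).card : ℝ) ≤ 7 ^ k * (4 ^ n) ^ k := by
    intro n
    rw [hZ]
    show (((Fintype.piFinset fun _ : Fin k => Finset.Icc (-(3 * 4 ^ n : ℤ)) (3 * 4 ^ n)).card : ℕ) : ℝ) ≤ _
    rw [Fintype.card_piFinset, Finset.prod_const, Finset.card_univ, Fintype.card_fin, Int.card_Icc, ← mul_pow]
    push_cast
    refine pow_le_pow_left₀ (Nat.cast_nonneg _) ?_ _
    have h1 : ((3 * 4 ^ n + 1 - -(3 * 4 ^ n) : ℤ).toNat : ℤ) = 3 * 4 ^ n + 1 - -(3 * 4 ^ n) :=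
      Int.toNat_of_nonneg (by
        have h0 : (0 : ℤ) ≤ 4 ^ n := by positivity
        linarith)
    have h2 : ((3 * 4 ^ n + 1 - -(3 * 4 ^ n) : ℤ).toNat : ℝ) = 3 * 4 ^ n + 1 - -(3 * 4 ^ n) := by
      have h3 := congrArg (fun x : ℤ => (x : ℝ)) h1
      push_cast at h3
      exact_mod_cast h3
    rw [h2]
    have h4 : (1 : ℝ) ≤ 4 ^ n := one_le_pow₀ (by norm_num)
    linarith
  obtain ⟨B, hB⟩ : ∃ B : ℕ → Set (Ow d), B = fun n => ⋃ z ∈ Z n, {w | ENNReal.ofReal (m n) ≤
    volume {θ : Td d | |(∑ i, (τ n * z i) * e i θ) + eta γ w θ| < D * τ n}} := ⟨_, rfl⟩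
  have hBn : ∀ n, lawL d (B n) ≤ ENNReal.ofReal (7 ^ k * (C * D ^ K) * τ n) := by
    intro n
    have hone' : ∀ z : Fin k → ℤ, lawL d {w | ENNReal.ofReal (m n) ≤
        volume {θ : Td d | |(∑ i, (τ n * z i) * e i θ) + eta γ w θ| < D * τ n}} ≤
        ENNReal.ofReal (C * (D * τ n * (m n)⁻¹ ^ (K + 1)) ^ K) := by
      intro z
      refine hone (fun θ => ∑ i, (τ n * z i) * e i θ) (m n) (D * τ n) ?_ (hm0 n) (hm1 n) (by have := hτ0 n; positivity)
      exact (continuous_finsetSum _ fun i _ => (he i).const_smul (τ n * z i)).measurable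
    have hm00 := (hm0 n).ne'
    rw [hB]
    calc lawL d (⋃ z ∈ Z n, {w | ENNReal.ofReal (m n) ≤
          volume {θ : Td d | |(∑ i, (τ n * z i) * e i θ) + eta γ w θ| < D * τ n}})
        ≤ ∑ z ∈ Z n, lawL d {w | ENNReal.ofReal (m n) ≤
          volume {θ : Td d | |(∑ i, (τ n * z i) * e i θ) + eta γ w θ| < D * τ n}} := measure_biUnion_finset_le _ _
      _ ≤ ∑ _z ∈ Z n, ENNReal.ofReal (C * (D * τ n * (m n)⁻¹ ^ (K + 1)) ^ K) := Finset.sum_le_sum fun z _ => hone' z
      _ = ENNReal.ofReal ((Z n).card * (C * (D * τ n * (m n)⁻¹ ^ (K + 1)) ^ K)) := by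
          rw [Finset.sum_const, nsmul_eq_mul, ENNReal.ofReal_mul (Nat.cast_nonneg _), ENNReal.ofReal_natCast]
      _ ≤ _ := by
          refine ENNReal.ofReal_le_ofReal ?_
          have hp : 0 ≤ C * (D * τ n * (m n)⁻¹ ^ (K + 1)) ^ K := by
            have := hτ0 n
            have := hm0 n
            positivity
          refine (mul_le_mul_of_nonneg_right (hcard n) hp).trans ?_
          have e1 : τ n * (m n)⁻¹ ^ (K + 1) = m n ^ (4 * k + 5) := by
            rw [← hmτ n, show 2 * K = (4 * k + 5) + (K + 1) by omega, pow_add, mul_assoc, ← mul_pow,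
              mul_inv_cancel₀ hm00, one_pow, mul_one]
          have e2 : ((4 : ℝ) ^ n) = (m n)⁻¹ ^ (4 * K) := by
            have h1 := hτ4 n
            have h2 : (τ n) ^ 2 = m n ^ (4 * K) := by
              rw [← hmτ n, ← pow_mul]
              congr 1
              ring
            rw [h2] at h1
            rw [inv_pow]
            exact eq_inv_of_mul_eq_one_left h1
          have e3 : ((4 : ℝ) ^ n) ^ k * (m n ^ (4 * k + 5)) ^ K = m n ^ (3 * K) * τ n := by
            rw [e2, ← pow_mul, ← pow_mul, ← hmτ n, ← pow_add,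
              show (4 * k + 5) * K = 4 * K * k + (3 * K + 2 * K) by ring, pow_add, ← mul_assoc, ← mul_pow,
              inv_mul_cancel₀ hm00, one_pow, one_mul]
          have e4 : 7 ^ k * (4 ^ n) ^ k * (C * (D * τ n * (m n)⁻¹ ^ (K + 1)) ^ K) =
              7 ^ k * (C * D ^ K) * (((4 : ℝ) ^ n) ^ k * (m n ^ (4 * k + 5)) ^ K) := by
            rw [mul_assoc D, mul_pow D, e1]
            ring
          rw [e4, e3]
          have e5 : m n ^ (3 * K) ≤ 1 := pow_le_one₀ (hm0 n).le (hm1 n)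
          have e6 : m n ^ (3 * K) * τ n ≤ τ n := mul_le_of_le_one_left (hτ0 n).le e5
          exact mul_le_mul_of_nonneg_left e6 (by positivity)
  have hsum : ∑' n, lawL d (B n) ≠ ∞ := by
    have h1 : Summable fun n : ℕ => 7 ^ k * (C * D ^ K) * τ n := by
      rw [hτ]
      exact (summable_geometric_of_lt_one (by norm_num) (by norm_num)).mul_left _
    have h2 : ∑' n : ℕ, ENNReal.ofReal (7 ^ k * (C * D ^ K) * τ n) ≠ ∞ := by
      rw [← ENNReal.ofReal_tsum_of_nonneg (fun n => by have := hτ0 n; positivity) h1]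
      exact ENNReal.ofReal_ne_top
    exact ne_top_of_le_ne_top h2 (ENNReal.tsum_le_tsum hBn)
  filter_upwards [ae_eventually_notMem hsum] with w hw
  obtain ⟨N, hN⟩ := Filter.eventually_atTop.1 hw
  refine ⟨2 + 2 ^ N, by have : (0 : ℝ) < 2 ^ N := by positivity
                        linarith, fun t ht s hs => ?_⟩
  have hbig : ∀ x : ℝ, 1 ≤ x → volume {θ | |(∑ i, s i * e i θ) + eta γ w θ| < t} ≤ ENNReal.ofReal x := by
    intro x hx
    calc volume {θ | |(∑ i, s i * e i θ) + eta γ w θ| < t} ≤ 1 := prob_le_one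
      _ = ENNReal.ofReal 1 := ENNReal.ofReal_one.symm
      _ ≤ _ := ENNReal.ofReal_le_ofReal hx
  have h2N : (1 : ℝ) ≤ 2 ^ N := one_le_pow₀ (by norm_num)
  by_cases ht1 : t ≤ 1
  swap
  · push Not at ht1
    refine hbig _ ?_
    have h2 : (1 : ℝ) ≤ t ^ c := Real.one_le_rpow ht1.le hc0.le
    nlinarith
  obtain ⟨n, hn1, hn2⟩ := exists_nat_pow_near_of_lt_one ht ht1 (show (0 : ℝ) < 1 / 2 by norm_num) (by norm_num)
  have htn1 : τ n / 2 < t := by
    rw [hτ]
    rw [pow_succ] at hn1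
    linarith
  have htn2 : t ≤ τ n := by
    rw [hτ]
    exact hn2
  have htc0 : 0 < t ^ c := Real.rpow_pos_of_pos ht _
  by_cases hnN : n < N
  · refine hbig _ ?_
    have h1 : t ≤ t ^ c := by
      calc t = t ^ (1 : ℝ) := (Real.rpow_one t).symm
        _ ≤ t ^ c := Real.rpow_le_rpow_of_exponent_ge ht ht1 hc1
    have h2 : τ N ≤ τ n / 2 := by
      rw [hτ]
      calc (1 / 2 : ℝ) ^ N ≤ (1 / 2) ^ (n + 1) := pow_le_pow_of_le_one (by norm_num) (by norm_num) hnN
        _ = (1 / 2) ^ n / 2 := by rw [pow_succ]; ring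
    have h3 : (2 : ℝ) ^ N * τ N = 1 := by
      rw [hτ, ← mul_pow]
      norm_num
    have h4 : 1 ≤ 2 ^ N * t ^ c := by
      rw [← h3]
      exact mul_le_mul_of_nonneg_left (by linarith) (by positivity)
    nlinarith
  · push Not at hnN
    have hwn := hN n hnN
    -- the net point
    set z : Fin k → ℤ := fun i => round (s i / τ n) with hz
    have hτn := hτ0 n
    have hclose : ∀ i, |s i - τ n * z i| ≤ τ n := by
      intro i
      have h1 : s i - τ n * z i = τ n * (s i / τ n - z i) := by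
        field_simp
      rw [h1, abs_mul, abs_of_pos hτn]
      have h2 : |s i / τ n - (z i : ℝ)| ≤ 1 / 2 := abs_sub_round (s i / τ n)
      nlinarith
    have hzZ : z ∈ Z n := by
      rw [hZ]
      refine Fintype.mem_piFinset.2 fun i => ?_
      have h1 : |s i / τ n - (z i : ℝ)| ≤ 1 / 2 := abs_sub_round (s i / τ n)
      have h2 : |s i| ≤ 1 / t := (norm_le_pi_norm s i).trans hs
      have h3 : |s i| ≤ 2 / τ n := by
        refine h2.trans ?_
        rw [div_le_div_iff₀ ht hτn]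
        linarith
      have h4 : |s i / τ n| ≤ 2 * 4 ^ n := by
        rw [abs_div, abs_of_pos hτn, div_le_iff₀ hτn]
        have h5 : 2 * 4 ^ n * τ n = 2 / τ n := by
          rw [eq_div_iff hτn.ne']
          have := hτ4 n
          nlinarith
        rw [h5]
        exact h3
      have h6 : (1 : ℝ) ≤ 4 ^ n := one_le_pow₀ (by norm_num)
      have h7 : |(z i : ℝ)| ≤ 3 * 4 ^ n := by
        have h8 : |(z i : ℝ)| ≤ |s i / τ n| + |s i / τ n - (z i : ℝ)| := by
          have := abs_sub_abs_le_abs_sub (z i : ℝ) (s i / τ n)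
          rw [abs_sub_comm] at this
          linarith
        linarith
      rw [abs_le] at h7
      rw [Finset.mem_Icc]
      constructor
      · have := h7.1
        exact_mod_cast this
      · have := h7.2
        exact_mod_cast this
    have hsmall : volume {θ : Td d | |(∑ i, (τ n * z i) * e i θ) + eta γ w θ| < D * τ n} < ENNReal.ofReal (m n) := by
      rw [hB] at hwn
      by_contra hcon
      push Not at hcon
      exact hwn (mem_iUnion₂.2 ⟨z, hzZ, hcon⟩)
    have hincl : {θ : Td d | |(∑ i, s i * e i θ) + eta γ w θ| < t} ⊆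
        {θ : Td d | |(∑ i, (τ n * z i) * e i θ) + eta γ w θ| < D * τ n} := by
      intro θ hθ
      rw [mem_ofPred_eq] at hθ ⊢
      have h1 : (∑ i, (τ n * z i) * e i θ) + eta γ w θ =
          ((∑ i, s i * e i θ) + eta γ w θ) - ∑ i, (s i - τ n * z i) * e i θ := by
        simp only [sub_mul, Finset.sum_sub_distrib]
        ring
      have h2 : |∑ i, (s i - τ n * z i) * e i θ| ≤ k * (τ n * E) := by
        calc |∑ i, (s i - τ n * z i) * e i θ| ≤ ∑ i, |(s i - τ n * z i) * e i θ| := Finset.abs_sum_le_sum_abs _ _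
          _ ≤ ∑ _i : Fin k, τ n * E := by
              refine Finset.sum_le_sum fun i _ => ?_
              rw [abs_mul]
              exact mul_le_mul (hclose i) (hE i θ) (abs_nonneg _) hτn.le
          _ = _ := by rw [Finset.sum_const, Finset.card_univ, Fintype.card_fin, nsmul_eq_mul]
      rw [h1]
      calc |((∑ i, s i * e i θ) + eta γ w θ) - ∑ i, (s i - τ n * z i) * e i θ|
          ≤ |(∑ i, s i * e i θ) + eta γ w θ| + |∑ i, (s i - τ n * z i) * e i θ| := abs_sub _ _
        _ < t + k * (τ n * E) := by linarith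
        _ ≤ D * τ n := by
            rw [hD]
            nlinarith
    calc volume {θ | |(∑ i, s i * e i θ) + eta γ w θ| < t}
        ≤ volume {θ : Td d | |(∑ i, (τ n * z i) * e i θ) + eta γ w θ| < D * τ n} := measure_mono hincl
      _ ≤ ENNReal.ofReal (m n) := hsmall.le
      _ ≤ _ := by
          refine ENNReal.ofReal_le_ofReal ?_
          have h1 : m n ≤ 2 * t ^ c := by
            rw [hm]
            calc τ n ^ c ≤ (2 * t) ^ c := Real.rpow_le_rpow hτn.le (by linarith) hc0.le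
              _ = 2 ^ c * t ^ c := Real.mul_rpow two_pos.le ht.le
              _ ≤ 2 * t ^ c := by
                  refine mul_le_mul_of_nonneg_right ?_ htc0.le
                  calc (2 : ℝ) ^ c ≤ 2 ^ (1 : ℝ) := Real.rpow_le_rpow_of_exponent_le (by norm_num) hc1
                    _ = 2 := Real.rpow_one 2
          nlinarith

end Pool.Agent.Helper82.AN
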