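import Pool.Agent.Helper82.AN.Eta

/-! Block AN-LAG: interpolation at `K` points with separated first coordinates.

`lag`: `z_j = e(x_j 0)` on the unit circle (`e y = exp(2π i y)`, `fourier 1`), `|z_i - z_j| ≥ 4 ‖x_i 0 - x_j 0‖ ≥ 4 r`. `Q X = ∏_{l ≠ i₀} (X - z_l) / (z_{i₀} - z_l) = ∑_{m<K} c_m X^m`, `∑ |c_m| ≤ ∏ 2 / (4 r) = (1 / (2r))^(K-1)`. The real part of `Q (e(θ 0)) = ∑ c_m e(m θ 0)` is
`∑ (re c_m) cos 2πm θ_0 - (im c_m) sin 2πm θ_0`: indices `(m e_0, 0)`, `(m e_0, 1)`, `e_0` the first unit vector. `∑ |coefficients| ≤ 2 (1/(2r))^(K-1) ≤ 2 r⁻ᴷ`. -/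

set_option autoImplicit false
open MeasureTheory Real Set
open scoped ENNReal

namespace Pool.Agent.Helper82.AN

open Pool.Agent.Helper46.QP (TT Td dl)

variable {d : ℕ}

/-! ### the character of the circle -/

private noncomputable def ch46 (z : UnitAddCircle) : ℂ := (AddCircle.toCircle z : ℂ)

private lemma ch_norm46 (z : UnitAddCircle) : ‖ch46 z‖ = 1 := by
  unfold ch46
  exact Circle.norm_coe _

private lemma ch_nsmul46 (n : ℕ) (z : UnitAddCircle) : ch46 (n • z) = ch46 z ^ n := by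
  unfold ch46
  rw [AddCircle.toCircle_nsmul]
  simp

private lemma ch_add46 (z w : UnitAddCircle) : ch46 (z + w) = ch46 z * ch46 w := by
  unfold ch46
  rw [AddCircle.toCircle_add]
  simp

/-- `|e(z) - 1| ≥ 4 ‖z‖` -/
private lemma ch_sub_one46 (x : UnitAddCircle) : 4 * ‖x‖ ≤ ‖ch46 x - 1‖ := by
  obtain ⟨z, rfl⟩ := QuotientAddGroup.mk_surjective x
  change 4 * ‖(z : UnitAddCircle)‖ ≤ ‖ch46 (z : UnitAddCircle) - 1‖
  have hz : ((z - round z : ℝ) : UnitAddCircle) = (z : UnitAddCircle) := by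
    rw [AddCircle.coe_sub]
    have : ((round z : ℝ) : UnitAddCircle) = 0 := by
      have h := AddCircle.coe_eq_zero_iff (p := (1 : ℝ)) (x := (round z : ℝ))
      exact h.2 ⟨round z, by simp⟩
    rw [this, sub_zero]
  rw [UnitAddCircle.norm_eq, ← hz]
  obtain ⟨y, hy⟩ : ∃ y : ℝ, y = z - round z := ⟨_, rfl⟩
  rw [← hy]
  have hy2 : |y| ≤ 1 / 2 := by
    rw [hy]
    exact abs_sub_round z
  have h1 : ch46 (y : UnitAddCircle) = Complex.exp (Complex.I * ((2 * Real.pi * y : ℝ) : ℂ)) := by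
    unfold ch46
    rw [AddCircle.toCircle_apply_mk, Circle.coe_exp]
    congr 1
    push_cast
    ring
  rw [h1, Complex.norm_exp_I_mul_ofReal_sub_one]
  rw [Real.norm_eq_abs, abs_mul, abs_of_pos (by norm_num : (0 : ℝ) < 2)]
  have h2 : |Real.sin (2 * Real.pi * y / 2)| = Real.sin (Real.pi * |y|) := by
    have h3 : 2 * Real.pi * y / 2 = Real.pi * y := by ring
    rw [h3]
    have h4 : 0 ≤ Real.sin (Real.pi * |y|) := by
      apply Real.sin_nonneg_of_nonneg_of_le_pi
      · have := Real.pi_pos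
        positivity
      · have := Real.pi_pos
        nlinarith [abs_nonneg y]
    rcases abs_cases y with ⟨h5, _⟩ | ⟨h5, _⟩
    · rw [h5] at h4 ⊢
      exact abs_of_nonneg h4
    · rw [h5] at h4 ⊢
      rw [mul_neg, Real.sin_neg] at h4 ⊢
      exact abs_of_nonpos (by linarith)
  rw [h2]
  have h6 := Real.mul_le_sin (x := Real.pi * |y|) (by positivity) (by nlinarith [Real.pi_pos])
  have h7 : 2 / Real.pi * (Real.pi * |y|) = 2 * |y| := by field_simp
  rw [h7] at h6
  linarith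

private lemma ch_dist46 (x y : UnitAddCircle) : 4 * ‖x - y‖ ≤ ‖ch46 x - ch46 y‖ := by
  have h1 : ch46 x = ch46 (x - y) * ch46 y := by rw [← ch_add46, sub_add_cancel]
  have h2 : ch46 x - ch46 y = (ch46 (x - y) - 1) * ch46 y := by rw [h1]; ring
  rw [h2, norm_mul, ch_norm46, mul_one]
  exact ch_sub_one46 _

/-! ### the polynomial -/

open Polynomial in
/-- multiplication by a linear factor -/
private lemma lin46 (K : ℕ) (P : ℂ[X]) (a z : ℂ) :
    ∑ m ∈ Finset.range K, ‖(P * (C a * (X - C z))).coeff m‖ ≤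
      ‖a‖ * (1 + ‖z‖) * ∑ m ∈ Finset.range K, ‖P.coeff m‖ := by
  have h1 : ∀ m, ‖(P * (C a * (X - C z))).coeff m‖ ≤
      ‖a‖ * (‖(P * X).coeff m‖ + ‖z‖ * ‖P.coeff m‖) := by
    intro m
    have h2 : P * (C a * (X - C z)) = C a * (P * X) - C a * (C z * P) := by ring
    rw [h2, coeff_sub, coeff_C_mul, coeff_C_mul, coeff_C_mul, ← mul_sub, norm_mul, ← norm_mul z]
    exact mul_le_mul_of_nonneg_left (norm_sub_le _ _) (norm_nonneg _)
  refine (Finset.sum_le_sum fun m _ => h1 m).trans ?_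
  rw [← Finset.mul_sum, Finset.sum_add_distrib, ← Finset.mul_sum, mul_assoc]
  refine mul_le_mul_of_nonneg_left ?_ (norm_nonneg _)
  rw [add_mul, one_mul]
  refine add_le_add ?_ le_rfl
  rcases K with _ | K
  · simp
  · rw [Finset.sum_range_succ', Finset.sum_range_succ]
    simp only [coeff_mul_X]
    have : ‖(P * X).coeff 0‖ = 0 := by simp
    rw [this, add_zero]
    exact le_add_of_nonneg_right (norm_nonneg _)

open Polynomial in
private lemma prod46 {ι : Type*} (S : Finset ι) (K : ℕ) (a z : ι → ℂ) :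
    ∑ m ∈ Finset.range K, ‖(∏ l ∈ S, (C (a l) * (X - C (z l)))).coeff m‖ ≤ ∏ l ∈ S, (‖a l‖ * (1 + ‖z l‖)) := by
  classical
  induction S using Finset.induction_on with
  | empty =>
    simp only [Finset.prod_empty]
    rcases K with _ | K
    · simp
    · rw [Finset.sum_range_succ']
      simp [coeff_one]
  | insert l S hl ih =>
    rw [Finset.prod_insert hl, Finset.prod_insert hl, mul_comm (C (a l) * (X - C (z l)))]
    refine (lin46 K _ _ _).trans ?_
    exact mul_le_mul_of_nonneg_left ih (by positivity)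

/-! ### the interpolation -/

private def io46 (d : ℕ) (hd : 0 < d) (p : ℕ × Fin 2) : Ik d := (Pi.single ⟨0, hd⟩ (p.1 : ℤ), p.2)

private lemma io_inj46 (hd : 0 < d) : Function.Injective (io46 d hd) := by
  rintro ⟨m, b⟩ ⟨m', b'⟩ h
  have h1 := congrArg Prod.fst h
  have h2 := congrArg Prod.snd h
  have h3 := congrFun h1 ⟨0, hd⟩
  simp only [io46, Pi.single_eq_same] at h2 h3
  have h4 : m = m' := by exact_mod_cast h3
  rw [h4, h2]

private lemma bas_io46 (hd : 0 < d) (m : ℕ) (θ : Td d) :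
    bas (io46 d hd (m, 0)) θ = (ch46 (θ ⟨0, hd⟩) ^ m).re ∧ bas (io46 d hd (m, 1)) θ = (ch46 (θ ⟨0, hd⟩) ^ m).im := by
  have h1 : (∑ l, (Pi.single ⟨0, hd⟩ (m : ℤ) : Fin d → ℤ) l • θ l) = m • θ ⟨0, hd⟩ := by
    rw [Finset.sum_eq_single (⟨0, hd⟩ : Fin d)]
    · rw [Pi.single_eq_same, natCast_zsmul]
    · intro l _ hl
      rw [Pi.single_eq_of_ne hl, zero_zsmul]
    · intro h
      exact absurd (Finset.mem_univ _) h
  unfold bas io46
  simp only [h1]
  rw [← ch_nsmul46]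
  unfold ch46
  constructor
  · simp
  · simp

theorem lag (hd : 0 < d) {K : ℕ} (hK : 1 ≤ K) {x : Fin K → Td d} {r : ℝ} (hr : 0 < r) (hr1 : r ≤ 1 / 2)
    (hx : ∀ i j, i ≠ j → r ≤ ‖x i ⟨0, hd⟩ - x j ⟨0, hd⟩‖) (i₀ : Fin K) :
    ∃ (s : Finset (Ik d)) (c : Ik d → ℝ), (∀ i ∉ s, c i = 0) ∧ (∀ i ∈ s, ‖i.1‖ ≤ K) ∧ ∑ i ∈ s, |c i| ≤ 2 * r⁻¹ ^ K ∧
      ∑ i ∈ s, c i * bas i (x i₀) = 1 ∧ ∀ j, j ≠ i₀ → ∑ i ∈ s, c i * bas i (x j) = 0 := by
  classical
  set z : Fin K → ℂ := fun j => ch46 (x j ⟨0, hd⟩) with hz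
  have hz1 : ∀ j, ‖z j‖ = 1 := fun j => ch_norm46 _
  have hzd : ∀ i j, i ≠ j → 4 * r ≤ ‖z i - z j‖ := fun i j hij => by
    have := ch_dist46 (x i ⟨0, hd⟩) (x j ⟨0, hd⟩)
    have h2 := hx i j hij
    rw [hz]
    linarith
  set S := (Finset.univ : Finset (Fin K)).erase i₀ with hS
  set Q : Polynomial ℂ := ∏ l ∈ S, (Polynomial.C (z i₀ - z l)⁻¹ * (Polynomial.X - Polynomial.C (z l))) with hQ
  have hcard : S.card = K - 1 := by
    rw [hS, Finset.card_erase_of_mem (Finset.mem_univ _), Finset.card_univ, Fintype.card_fin]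
  -- the degree
  have hdeg : Q.natDegree < K := by
    have h1 : Q.natDegree ≤ ∑ l ∈ S, 1 := by
      refine (Polynomial.natDegree_prod_le _ _).trans (Finset.sum_le_sum fun l _ => ?_)
      refine (Polynomial.natDegree_C_mul_le _ _).trans ?_
      exact Polynomial.natDegree_X_sub_C_le _
    rw [Finset.sum_const, hcard, smul_eq_mul, mul_one] at h1
    omega
  have hQ0 : ∀ m, K ≤ m → Q.coeff m = 0 := fun m hm => Polynomial.coeff_eq_zero_of_natDegree_lt (by omega)
  -- the values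
  have hQ1 : Q.eval (z i₀) = 1 := by
    rw [hQ, Polynomial.eval_prod]
    refine Finset.prod_eq_one fun l hl => ?_
    have hl' : i₀ ≠ l := (Finset.ne_of_mem_erase hl).symm
    have h1 := hzd i₀ l hl'
    have h2 : z i₀ - z l ≠ 0 := by
      intro h
      rw [h, norm_zero] at h1
      linarith
    simp [h2]
  have hQ2 : ∀ j, j ≠ i₀ → Q.eval (z j) = 0 := by
    intro j hj
    rw [hQ, Polynomial.eval_prod]
    refine Finset.prod_eq_zero (Finset.mem_erase.2 ⟨hj, Finset.mem_univ _⟩) ?_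
    simp
  -- the coefficients
  have hQ3 : ∑ m ∈ Finset.range K, ‖Q.coeff m‖ ≤ r⁻¹ ^ K := by
    refine (prod46 S K (fun l => (z i₀ - z l)⁻¹) z).trans ?_
    have h1 : ∏ l ∈ S, (‖(z i₀ - z l)⁻¹‖ * (1 + ‖z l‖)) ≤ ∏ _l ∈ S, r⁻¹ := by
      refine Finset.prod_le_prod (fun l _ => by positivity) fun l hl => ?_
      have hl' : i₀ ≠ l := (Finset.ne_of_mem_erase hl).symm
      have h1 := hzd i₀ l hl'
      rw [hz1, norm_inv]
      have h2 : ‖z i₀ - z l‖⁻¹ ≤ (4 * r)⁻¹ := inv_anti₀ (by positivity) h1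
      have h3 : (4 * r)⁻¹ * (1 + 1) = r⁻¹ / 2 := by
        field_simp
        norm_num
      have h4 : 0 < r⁻¹ := by positivity
      nlinarith
    refine h1.trans ?_
    rw [Finset.prod_const, hcard]
    refine pow_le_pow_right₀ ?_ (by omega)
    rw [one_le_inv₀ hr]
    linarith
  -- the coefficients of the trigonometric polynomial
  set v : ℕ × Fin 2 → ℝ := fun p => if p.2 = 0 then (Q.coeff p.1).re else -(Q.coeff p.1).im with hv
  set s : Finset (Ik d) := (Finset.range K ×ˢ (Finset.univ : Finset (Fin 2))).image (io46 d hd) with hs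
  set c : Ik d → ℝ := Function.extend (io46 d hd) v 0 with hc
  have hcv : ∀ p, c (io46 d hd p) = v p := fun p => (io_inj46 hd).extend_apply _ _ _
  have hsum : ∀ g : Ik d → ℝ, ∑ i ∈ s, g i = ∑ m ∈ Finset.range K, (g (io46 d hd (m, 0)) + g (io46 d hd (m, 1))) := by
    intro g
    rw [hs, Finset.sum_image fun p _ q _ h => io_inj46 hd h, Finset.sum_product]
    refine Finset.sum_congr rfl fun m _ => ?_
    rw [Fin.sum_univ_two]
  have hval : ∀ θ : Td d, ∑ i ∈ s, c i * bas i θ = (Q.eval (ch46 (θ ⟨0, hd⟩))).re := by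
    intro θ
    rw [hsum, Polynomial.eval_eq_sum_range' hdeg, Complex.re_sum]
    refine Finset.sum_congr rfl fun m _ => ?_
    rw [hcv, hcv, (bas_io46 hd m θ).1, (bas_io46 hd m θ).2, Complex.mul_re, hv]
    simp
    ring
  refine ⟨s, c, ?_, ?_, ?_, ?_, ?_⟩
  · intro i hi
    by_cases h : ∃ p, io46 d hd p = i
    · obtain ⟨p, rfl⟩ := h
      rw [hcv, hv]
      have hp : K ≤ p.1 := by
        by_contra hp
        exact hi (Finset.mem_image_of_mem _ (Finset.mem_product.2 ⟨Finset.mem_range.2 (not_le.1 hp), Finset.mem_univ _⟩))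
      simp [hQ0 p.1 hp]
    · rw [hc, Function.extend_apply' _ _ _ h]
      rfl
  · intro i hi
    obtain ⟨p, hp, rfl⟩ := Finset.mem_image.1 hi
    have hp1 := Finset.mem_range.1 (Finset.mem_product.1 hp).1
    refine (pi_norm_le_iff_of_nonneg (Nat.cast_nonneg _)).2 fun l => ?_
    unfold io46
    by_cases hl : l = ⟨0, hd⟩
    · subst hl
      simp only [Pi.single_eq_same]
      rw [Int.norm_eq_abs]
      simp only [Int.cast_natCast, Nat.abs_cast]
      exact_mod_cast hp1.le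
    · simp only [Pi.single_eq_of_ne hl, norm_zero]
      exact Nat.cast_nonneg _
  · rw [hsum]
    have h1 : ∀ m, |c (io46 d hd (m, 0))| + |c (io46 d hd (m, 1))| ≤ 2 * ‖Q.coeff m‖ := by
      intro m
      rw [hcv, hcv, hv]
      have h2 := Complex.abs_re_le_norm (Q.coeff m)
      have h3 := Complex.abs_im_le_norm (Q.coeff m)
      simp only [if_true, one_ne_zero, if_false, abs_neg]
      linarith
    refine (Finset.sum_le_sum fun m _ => h1 m).trans ?_
    rw [← Finset.mul_sum]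
    linarith
  · rw [hval]
    change (Q.eval (z i₀)).re = 1
    rw [hQ1, Complex.one_re]
  · intro j hj
    rw [hval]
    change (Q.eval (z j)).re = 0
    rw [hQ2 j hj, Complex.zero_re]

end Pool.Agent.Helper82.AN
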