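import Pool.Agent.Helper82.AN.NdKa

/-! Block AN-BALLK: the values of the noise at `K` separated points (separated in the first coordinate).

`ball_k`: let `v^j i = c^j i / wt γ i` (`c^j` from `lag` for `i₀ = j`), so `∑ |v^j i| ≤ W := 2 exp (K^γ) r⁻ᴷ` (`wt γ i ≥ exp (- K^γ)` on the support) and adding `2 t ∑_j n_j v^j` to `w` adds `2 t n_j` to `η (x_j)` (`eta_add`). For `n ∈ {0, .., M-1}^K` the events
`E_n = {∀ j, |h_j + η(x_j) - 2 t n_j| < t}` are disjoint, and `law_shift` (`Lap.lean`, `F` = indicator of `E_0` or `E_n`) gives `P(E_0) ≤ exp (2 t M K W) P(E_n)`. Sum over `n`: `M^K P(E_0) ≤ exp (2 t M K W)`. With `M = ⌈1 / (2 t K W)⌉` if `2 t K W ≤ 1`: `P(E_0) ≤ e² (2 t K W)^K`; if `2 t K W > 1` use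
`P ≤ 1`. (`Hw` is finite a.s., `Hw_ae`; `Hw (w + v)` finite iff `Hw w` finite: `Hw_add`.) -/

set_option autoImplicit false
open MeasureTheory Real Set
open scoped ENNReal

namespace Pool.Agent.Helper82.AN

open Pool.Agent.Helper46.QP (TT Td dl)

variable {d : ℕ}

/-- values at the points -/
private lemma val63 {γ : ℝ} {K : ℕ} {x : Fin K → Td d} {s : Fin K → Finset (Ik d)} {c : Fin K → Ik d → ℝ}
    (h1 : ∀ j, ∀ i ∉ s j, c j i = 0) (h4 : ∀ j, ∑ i ∈ s j, c j i * bas i (x j) = 1)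
    (h5 : ∀ j l, l ≠ j → ∑ i ∈ s j, c j i * bas i (x l) = 0) (a : Fin K → ℝ) (l : Fin K) :
    ∑ i ∈ Finset.univ.biUnion s, wt γ i * (∑ j, a j * (c j i / wt γ i)) * bas i (x l) = a l := by
  classical
  have e1 : ∀ i : Ik d, wt γ i * (∑ j, a j * (c j i / wt γ i)) * bas i (x l) = ∑ j, a j * (c j i * bas i (x l)) := by
    intro i
    rw [Finset.mul_sum, Finset.sum_mul]
    refine Finset.sum_congr rfl fun j _ => ?_
    have := (wt_pos γ i).ne'
    field_simp
  rw [Finset.sum_congr rfl fun i _ => e1 i, Finset.sum_comm]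
  have e2 : ∀ j, ∑ i ∈ Finset.univ.biUnion s, a j * (c j i * bas i (x l)) = if j = l then a l else 0 := by
    intro j
    have hsub : ∑ i ∈ Finset.univ.biUnion s, a j * (c j i * bas i (x l)) = ∑ i ∈ s j, a j * (c j i * bas i (x l)) := by
      symm
      refine Finset.sum_subset (Finset.subset_biUnion_of_mem s (Finset.mem_univ j)) fun i _ hi => ?_
      rw [h1 j i hi, zero_mul, mul_zero]
    rw [hsub, ← Finset.mul_sum]
    split_ifs with h
    · subst h
      rw [h4, mul_one]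
    · rw [h5 j l (fun h' => h h'.symm), mul_zero]
  rw [Finset.sum_congr rfl fun j _ => e2 j]
  simp

/-- size of the shift -/
private lemma size63 {γ : ℝ} (hγ : 0 < γ) {K : ℕ} {s : Fin K → Finset (Ik d)} {c : Fin K → Ik d → ℝ} {W : ℝ}
    (h1 : ∀ j, ∀ i ∉ s j, c j i = 0) (h2 : ∀ j, ∀ i ∈ s j, ‖i.1‖ ≤ K) (h3 : ∀ j, ∑ i ∈ s j, |c j i| ≤ W)
    {a : Fin K → ℝ} {A : ℝ} (ha : ∀ j, |a j| ≤ A) :
    ∑ i ∈ Finset.univ.biUnion s, |∑ j, a j * (c j i / wt γ i)| ≤ A * K * (Real.exp ((K : ℝ) ^ γ) * W) := by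
  classical
  have hA : 0 ≤ A ∨ K = 0 := by
    rcases Nat.eq_zero_or_pos K with h | h
    · exact Or.inr h
    · exact Or.inl ((abs_nonneg _).trans (ha ⟨0, h⟩))
  rcases hA with hA | rfl
  swap
  · simp
  calc ∑ i ∈ Finset.univ.biUnion s, |∑ j, a j * (c j i / wt γ i)|
      ≤ ∑ i ∈ Finset.univ.biUnion s, ∑ j, A * |c j i / wt γ i| := by
        refine Finset.sum_le_sum fun i _ => (Finset.abs_sum_le_sum_abs _ _).trans (Finset.sum_le_sum fun j _ => ?_)
        rw [abs_mul]
        exact mul_le_mul_of_nonneg_right (ha j) (abs_nonneg _)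
    _ = ∑ j, A * ∑ i ∈ s j, |c j i / wt γ i| := by
        rw [Finset.sum_comm]
        refine Finset.sum_congr rfl fun j _ => ?_
        rw [Finset.mul_sum]
        symm
        refine Finset.sum_subset (Finset.subset_biUnion_of_mem s (Finset.mem_univ j)) fun i _ hi => ?_
        rw [h1 j i hi, zero_div, abs_zero, mul_zero]
    _ ≤ ∑ _j : Fin K, A * (Real.exp ((K : ℝ) ^ γ) * W) := by
        refine Finset.sum_le_sum fun j _ => mul_le_mul_of_nonneg_left ?_ hA
        calc ∑ i ∈ s j, |c j i / wt γ i| ≤ ∑ i ∈ s j, Real.exp ((K : ℝ) ^ γ) * |c j i| := by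
              refine Finset.sum_le_sum fun i hi => ?_
              rw [abs_div, abs_of_pos (wt_pos γ i), div_eq_mul_inv, mul_comm]
              refine mul_le_mul_of_nonneg_right ?_ (abs_nonneg _)
              unfold wt
              rw [Real.exp_neg, inv_inv]
              exact Real.exp_le_exp.2 (Real.rpow_le_rpow (norm_nonneg _) (h2 j i hi) hγ.le)
          _ = Real.exp ((K : ℝ) ^ γ) * ∑ i ∈ s j, |c j i| := by rw [Finset.mul_sum]
          _ ≤ _ := mul_le_mul_of_nonneg_left (h3 j) (Real.exp_pos _).le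
    _ = A * K * (Real.exp ((K : ℝ) ^ γ) * W) := by
        rw [Finset.sum_const, Finset.card_univ, Fintype.card_fin, nsmul_eq_mul]
        ring

theorem ball_k (hd : 0 < d) {γ : ℝ} (hγ : 0 < γ) {K : ℕ} (hK : 1 ≤ K) : ∃ C : ℝ, 1 ≤ C ∧
    ∀ (x : Fin K → Td d) (r t : ℝ) (h : Fin K → ℝ), 0 < r → r ≤ 1 / 2 → 0 < t →
      (∀ i j, i ≠ j → r ≤ ‖x i ⟨0, hd⟩ - x j ⟨0, hd⟩‖) →
      lawL d {w | ∀ j, |h j + eta γ w (x j)| < t} ≤ ENNReal.ofReal (C * (t * r⁻¹ ^ K) ^ K) := by
  classical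
  have hKR : (1 : ℝ) ≤ K := by exact_mod_cast hK
  set D : ℝ := 4 * K * Real.exp ((K : ℝ) ^ γ) with hD
  have he1 : 1 ≤ Real.exp ((K : ℝ) ^ γ) := Real.one_le_exp (Real.rpow_nonneg (by positivity) _)
  have hD1 : 1 ≤ D := by rw [hD]; nlinarith
  have hE2 : (1 : ℝ) ≤ Real.exp 2 := Real.one_le_exp (by norm_num)
  refine ⟨Real.exp 2 * D ^ K, ?_, ?_⟩
  · have : 1 ≤ D ^ K := one_le_pow₀ hD1
    nlinarith
  intro x r t h hr hr1 ht hx
  choose s c h1 h2 h3 h4 h5 using fun j => lag hd hK hr hr1 hx j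
  set S := Finset.univ.biUnion s with hS
  -- the events
  set E : (Fin K → ℝ) → Set (Ow d) := fun a => {w | ∀ j, |h j + eta γ w (x j) - a j| < t} with hE
  have hEm : ∀ a, MeasurableSet (E a) := by
    intro a
    have : E a = ⋂ j, {w | |h j + eta γ w (x j) - a j| < t} := by
      ext w
      simp [hE]
    rw [this]
    refine MeasurableSet.iInter fun j => measurableSet_lt ?_ measurable_const
    have he : Measurable fun w : Ow d => eta γ w (x j) := (eta_meas γ).comp (measurable_id.prodMk measurable_const)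
    exact ((he.const_add _).sub_const _).abs
  have hE0 : {w : Ow d | ∀ j, |h j + eta γ w (x j)| < t} = E 0 := by
    ext w
    simp [hE]
  rw [hE0]
  set y : ℝ := D * (t * r⁻¹ ^ K) with hy
  have hy0 : 0 < y := by positivity
  have hyK : Real.exp 2 * D ^ K * (t * r⁻¹ ^ K) ^ K = Real.exp 2 * y ^ K := by
    rw [hy, mul_pow D]
    ring
  rw [hyK]
  rcases le_or_gt y 1 with hy1 | hy1
  swap
  · refine (prob_le_one).trans ?_
    rw [← ENNReal.ofReal_one]
    refine ENNReal.ofReal_le_ofReal ?_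
    have : 1 ≤ y ^ K := one_le_pow₀ hy1.le
    nlinarith
  obtain ⟨M, hM1, hM2⟩ : ∃ M : ℕ, 1 / y ≤ M ∧ (M : ℝ) ≤ 2 / y := by
    refine ⟨⌈1 / y⌉₊, Nat.le_ceil _, ?_⟩
    have h6 := Nat.ceil_lt_add_one (by positivity : (0 : ℝ) ≤ 1 / y)
    have h7 : 1 ≤ 1 / y := by rw [le_div_iff₀ hy0]; linarith
    have h8 : 2 / y = 1 / y + 1 / y := by ring
    linarith
  -- one shift
  have hshift : ∀ n : Fin K → Fin M, lawL d (E 0) ≤
      ENNReal.ofReal (Real.exp 2) * lawL d (E fun j => 2 * t * (n j : ℕ)) := by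
    intro n
    set V : Ow d := fun i => ∑ j, (-(2 * t * (n j : ℕ))) * (c j i / wt γ i) with hV
    have hV0 : ∀ i ∉ S, V i = 0 := by
      intro i hi
      rw [hV]
      refine Finset.sum_eq_zero fun j _ => ?_
      have : i ∉ s j := fun h' => hi (Finset.mem_biUnion.2 ⟨j, Finset.mem_univ j, h'⟩)
      rw [h1 j i this, zero_div, mul_zero]
    have h6 := law_shift hV0 (F := (E 0).indicator 1) (measurable_one.indicator (hEm 0))
    rw [lintegral_indicator_one (hEm 0)] at h6
    have h7 : ∫⁻ w, (E 0).indicator 1 (w + V) ∂lawL d = lawL d (E fun j => 2 * t * (n j : ℕ)) := by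
      rw [← lintegral_indicator_one (hEm _)]
      refine lintegral_congr_ae ?_
      filter_upwards [Hw_ae (d := d) hγ] with w hw
      have h8 : ∀ l, eta γ (w + V) (x l) = eta γ w (x l) - 2 * t * (n l : ℕ) := by
        intro l
        rw [eta_add hw hV0, hV, val63 h1 h4 h5]
        ring
      have h9 : (w + V ∈ E 0) ↔ w ∈ E fun j => 2 * t * (n j : ℕ) := by
        simp only [hE, mem_ofPred_eq, Pi.zero_apply, sub_zero]
        refine forall_congr' fun j => ?_
        rw [h8, add_sub_assoc]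
      by_cases h10 : w + V ∈ E 0
      · rw [indicator_of_mem h10, indicator_of_mem (h9.1 h10)]
        rfl
      · rw [indicator_of_notMem h10, indicator_of_notMem (fun h' => h10 (h9.2 h'))]
    rw [h7] at h6
    refine h6.trans (mul_le_mul_left (ENNReal.ofReal_le_ofReal (Real.exp_le_exp.2 ?_)) _)
    have h11 : ∀ j, |(-(2 * t * (n j : ℕ)) : ℝ)| ≤ 2 * t * M := by
      intro j
      rw [abs_neg, abs_of_nonneg (by positivity)]
      have : ((n j : ℕ) : ℝ) ≤ M := by exact_mod_cast (n j).2.le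
      gcongr
    have h12 := size63 hγ h1 h2 h3 h11
    refine h12.trans ?_
    have h13 : 2 * t * M * K * (Real.exp ((K : ℝ) ^ γ) * (2 * r⁻¹ ^ K)) = M * y := by
      rw [hy, hD]
      ring
    rw [h13]
    rw [le_div_iff₀ hy0] at hM2
    exact hM2
  -- sum over all shifts
  have hsum : (M : ℝ≥0∞) ^ K * lawL d (E 0) ≤ ENNReal.ofReal (Real.exp 2) := by
    have h6 : ∑ _n : Fin K → Fin M, lawL d (E 0) ≤
        ∑ n : Fin K → Fin M, ENNReal.ofReal (Real.exp 2) * lawL d (E fun j => 2 * t * (n j : ℕ)) :=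
      Finset.sum_le_sum fun n _ => hshift n
    rw [Finset.sum_const, Finset.card_univ, Fintype.card_fun, Fintype.card_fin, Fintype.card_fin, nsmul_eq_mul,
      ← Finset.mul_sum] at h6
    push_cast at h6
    refine h6.trans ?_
    have h7 : ∑ n : Fin K → Fin M, lawL d (E fun j => 2 * t * (n j : ℕ)) ≤ 1 := by
      rw [← measure_biUnion_finset]
      · exact prob_le_one
      · intro n _ n' _ hne
        rw [Function.onFun, Set.disjoint_left]
        intro w hw hw'
        apply hne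
        funext j
        have h8 := hw j
        have h9 := hw' j
        rw [abs_lt] at h8 h9
        have h10 : (2 : ℝ) * t * (n j : ℕ) < 2 * t * ((n' j : ℕ) + 1) := by linarith [h8.1, h8.2, h9.1, h9.2]
        have h11 : (2 : ℝ) * t * (n' j : ℕ) < 2 * t * ((n j : ℕ) + 1) := by linarith [h8.1, h8.2, h9.1, h9.2]
        have ht2 : (0 : ℝ) < 2 * t := by positivity
        have h12 : ((n j : ℕ) : ℝ) < (n' j : ℕ) + 1 := lt_of_mul_lt_mul_left h10 ht2.le
        have h13 : ((n' j : ℕ) : ℝ) < (n j : ℕ) + 1 := lt_of_mul_lt_mul_left h11 ht2.le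
        have h14 : (n j : ℕ) < (n' j : ℕ) + 1 := by exact_mod_cast h12
        have h15 : (n' j : ℕ) < (n j : ℕ) + 1 := by exact_mod_cast h13
        exact Fin.ext (by omega)
      · intro n _
        exact hEm _
    calc ENNReal.ofReal (Real.exp 2) * ∑ n : Fin K → Fin M, lawL d (E fun j => 2 * t * (n j : ℕ))
        ≤ ENNReal.ofReal (Real.exp 2) * 1 := mul_le_mul_right h7 _
      _ = _ := mul_one _
  have hMy : ENNReal.ofReal ((1 / y) ^ K) ≤ (M : ℝ≥0∞) ^ K := by
    rw [ENNReal.ofReal_pow (by positivity)]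
    refine pow_le_pow_left₀ zero_le ?_ _
    rw [← ENNReal.ofReal_natCast]
    exact ENNReal.ofReal_le_ofReal hM1
  have hfin : ENNReal.ofReal ((1 / y) ^ K) * lawL d (E 0) ≤ ENNReal.ofReal (Real.exp 2) :=
    (mul_le_mul_left hMy _).trans hsum
  have hpos : 0 < (1 / y) ^ K := by positivity
  calc lawL d (E 0) = ENNReal.ofReal (y ^ K) * (ENNReal.ofReal ((1 / y) ^ K) * lawL d (E 0)) := by
        rw [← mul_assoc, ← ENNReal.ofReal_mul (by positivity), ← mul_pow, mul_one_div_cancel hy0.ne', one_pow,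
          ENNReal.ofReal_one, one_mul]
    _ ≤ ENNReal.ofReal (y ^ K) * ENNReal.ofReal (Real.exp 2) := mul_le_mul_right hfin _
    _ = ENNReal.ofReal (Real.exp 2 * y ^ K) := by
        rw [← ENNReal.ofReal_mul (by positivity), mul_comm]

end Pool.Agent.Helper82.AN
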