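import Pool.Agent.Helper82.AN.Eta

/-! Block AN-NDU: `s g + η` is rarely small, uniformly in the real number `s` (`g` without zeros).

Energy: `E w = ∫∫ |η θ / g θ - η θ' / g θ'|^(-1/2) dθ dθ'` is finite a.s. Then for all `s`, `t` (`m = min |g|`): on `{|s g + η| < t}` the function `η / g` is in an interval of length `2 t / m`, so `μ² ≤ (2 t / m)^(1/2) E`, `μ` the measure of this set, `μ ≤ R t^(1/4)`
(by `lintegral` over the product of the set with itself, `ENNReal`; no measurability problem: `eta_meas`). Mean of `E`: fix `θ`, `θ'` with `θ 0 ≠ θ' 0` (coordinate `0 < d`). The vectors `v = (1, cos 2πθ_0, sin 2πθ_0) / g θ` and `v'` (the same with `θ'`) satisfy `max |v_i - v'_i| ≥ c ‖θ 0 - θ' 0‖` (`‖ ‖` on the circle,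
`c` depends on `min |g|`, `max |g|`: if `|1 / g θ - 1 / g θ'| ≤ ε` then `|cos - cos'|, |sin - sin'| ≤ (|v - v'| + ε) max |g|`, and `max (|cos - cos'|, |sin - sin'|) ≥ ‖θ 0 - θ' 0‖` or so). These are the coefficients of `w` at the indices `(0, 0)`, `(e_0, 0)`, `(e_0, 1)` (weights `1`, `e⁻¹`, `e⁻¹`), up to the weights, in
`η θ / g θ - η θ' / g θ'`. Resample the coordinate with the largest coefficient `σ` (`eta_add`, density of the Laplace law at most `1/2`): the conditional mean of `|σ x + rest|^(-1/2)` is at most `|σ|^(-1/2) sup_y ∫ |x + y|^(-1/2) e^{-|x|}/2 dx ≤ C |σ|^(-1/2)`. So the mean of `E` is at most `C' ∫∫ ‖θ 0 - θ' 0‖^(-1/2) < ∞`.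
(The resampling is the same as in `NdEta.lean`, block AN-NDETA.) -/

set_option autoImplicit false
open MeasureTheory Real Set
open scoped ENNReal

namespace Pool.Agent.Helper82.AN

open Pool.Agent.Helper46.QP (TT Td dl)

variable {d : ℕ}

theorem nd_uni (hd : 0 < d) {γ : ℝ} (hγ : 0 < γ) {g : Td d → ℝ} (hg : Continuous g) (h0 : ∀ θ, g θ ≠ 0) :
    ∀ᵐ w ∂lawL d, ∃ R : ℝ, 1 ≤ R ∧ ∀ s t : ℝ, 0 < t →
      volume {θ | |s * g θ + eta γ w θ| < t} ≤ ENNReal.ofReal (R * t ^ (1 / 4 : ℝ)) := by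
  sorry

end Pool.Agent.Helper82.AN
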