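import Pool.Agent.Helper82.AN.SDefs
import Pool.Agent.Helper18.UC.Basic

/-! Block AN-SBAS (port of `Helper18/UC/Basic.lean` to sequences): algebra of the cocycle.

`po_rev`: `rv A (n + n') j = A (n + n' - 1 - j)`; one step: `F a (swap (F a q)) = swap q` (`h24_F_rev` in UC). `nn_rev`: as `nn_rev` in UC. `nn_succ_le` etc.: `nn_A_le` with `Bd A L`. -/

set_option autoImplicit false
open MeasureTheory Real Set

namespace Pool.Agent.Helper82.AN

open Pool.Agent.Helper18.UC (nn LL sh)

private lemma po_zero85 (A : ℕ → ℝ) (q : ℝ × ℝ) : po A 0 q = q := by rw [po]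

private lemma po_succ85 (A : ℕ → ℝ) (n : ℕ) (q : ℝ × ℝ) :
    po A (n + 1) q = Pool.Agent.Helper18.UC.F (A n) (po A n q) := by rw [po]

private lemma pM_zero85 (A : ℕ → ℝ) (q : ℝ × ℝ) : pM A 0 q = 1 := by rw [pM]

private lemma pM_succ85 (A : ℕ → ℝ) (n : ℕ) (q : ℝ × ℝ) :
    pM A (n + 1) q = Pool.Agent.Helper18.UC.A (A n) (po A n q) * pM A n q := by rw [pM]

theorem po_congr {A A' : ℕ → ℝ} {n : ℕ} (h : ∀ j < n, A j = A' j) (q : ℝ × ℝ) : po A n q = po A' n q := by
  induction n with
  | zero => rw [po_zero85, po_zero85]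
  | succ n ih =>
    rw [po_succ85, po_succ85, ih (fun j hj => h j (by omega)), h n (by omega)]

theorem pM_congr {A A' : ℕ → ℝ} {n : ℕ} (h : ∀ j < n, A j = A' j) (q : ℝ × ℝ) : pM A n q = pM A' n q := by
  induction n with
  | zero => rw [pM_zero85, pM_zero85]
  | succ n ih =>
    rw [pM_succ85, pM_succ85, ih (fun j hj => h j (by omega)), h n (by omega),
      po_congr (A := A) (A' := A') (n := n) (fun j hj => h j (by omega)) q]

theorem po_cont (A : ℕ → ℝ) (n : ℕ) : Continuous (po A n) := by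
  induction n with
  | zero =>
    have e : po A 0 = fun q => q := funext fun q => po_zero85 A q
    rw [e]
    exact continuous_id
  | succ n ih =>
    have e : po A (n + 1) = fun q => Pool.Agent.Helper18.UC.F (A n) (po A n q) :=
      funext fun q => po_succ85 A n q
    rw [e]
    exact (Pool.Agent.Helper18.UC.F_cont (A n)).comp ih

theorem po_sh (A : ℕ → ℝ) (n : ℕ) (q : ℝ × ℝ) (k l : ℤ) :
    po A n (sh q k l) = sh (po A n q) (k + n * (k - l)) (l + n * (k - l)) := by
  induction n with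
  | zero => simp [po_zero85]
  | succ n ih =>
    have h1 : ∀ (x : ℝ × ℝ) (u v : ℤ), Pool.Agent.Helper18.UC.F (A n) (sh x u v) =
        sh (Pool.Agent.Helper18.UC.F (A n) x) (2 * u - v) u := by
      intro x u v
      have h := Pool.Agent.Helper18.UC.iter_sh (A n) 1 x u v
      rw [Function.iterate_one] at h
      rw [h]
      congr 1
      · push_cast
        ring
      · push_cast
        ring
    rw [po_succ85, ih, h1, po_succ85]
    congr 1
    · push_cast
      ring
    · push_cast
      ring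

theorem pM_sh (A : ℕ → ℝ) (n : ℕ) (q : ℝ × ℝ) (k l : ℤ) : pM A n (sh q k l) = pM A n q := by
  induction n with
  | zero => rw [pM_zero85, pM_zero85]
  | succ n ih =>
    have h1 : ∀ (x : ℝ × ℝ) (u v : ℤ), Pool.Agent.Helper18.UC.A (A n) (sh x u v) =
        Pool.Agent.Helper18.UC.A (A n) x := by
      intro x u v
      have h := Pool.Agent.Helper18.UC.M_sh (A n) 1 x u v
      rw [Pool.Agent.Helper18.UC.M_succ, Pool.Agent.Helper18.UC.M_succ, Pool.Agent.Helper18.UC.M_zero,
        Pool.Agent.Helper18.UC.M_zero, mul_one, mul_one] at h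
      exact h
    rw [pM_succ85, pM_succ85, ih, po_sh, h1]

theorem po_add (A : ℕ → ℝ) (n m : ℕ) (q : ℝ × ℝ) : po A (n + m) q = po (shA A n) m (po A n q) := by
  induction m with
  | zero => rw [add_zero, po_zero85]
  | succ m ih =>
    rw [← add_assoc, po_succ85, ih, po_succ85]
    unfold shA
    rw [add_comm n m]

theorem pM_add (A : ℕ → ℝ) (n m : ℕ) (q : ℝ × ℝ) : pM A (n + m) q = pM (shA A n) m (po A n q) * pM A n q := by
  induction m with
  | zero => rw [add_zero, pM_zero85, one_mul]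
  | succ m ih =>
    rw [← add_assoc, pM_succ85, ih, pM_succ85, ← po_add, mul_assoc]
    have e : shA A n m = A (n + m) := by
      unfold shA
      rw [add_comm m n]
    rw [e]

private lemma det_A85 (a : ℝ) (q : ℝ × ℝ) : (Pool.Agent.Helper18.UC.A a q).det = 1 := by
  unfold Pool.Agent.Helper18.UC.A
  rw [Matrix.det_fin_two_of]
  ring

theorem det_pM (A : ℕ → ℝ) (n : ℕ) (q : ℝ × ℝ) : (pM A n q).det = 1 := by
  induction n with
  | zero => rw [pM_zero85, Matrix.det_one]
  | succ n ih => rw [pM_succ85, Matrix.det_mul, det_A85, ih, one_mul]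

private lemma F_rev85 (a : ℝ) (q : ℝ × ℝ) :
    Pool.Agent.Helper18.UC.F a (Prod.swap (Pool.Agent.Helper18.UC.F a q)) = Prod.swap q := by
  have h := Pool.Agent.Helper18.UC.F_rev a 1 q
  rw [Function.iterate_one] at h
  exact h

private lemma A_rev85 (a : ℝ) (q : ℝ × ℝ) :
    Pool.Agent.Helper18.UC.A a (Prod.swap (Pool.Agent.Helper18.UC.F a q)) * !![0, 1; 1, 0] *
      Pool.Agent.Helper18.UC.A a q = !![0, 1; 1, 0] := by
  have h := Pool.Agent.Helper18.UC.M_rev a 1 q
  rw [Pool.Agent.Helper18.UC.M_succ, Pool.Agent.Helper18.UC.M_succ, Pool.Agent.Helper18.UC.M_zero,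
    Pool.Agent.Helper18.UC.M_zero, mul_one, mul_one] at h
  exact h

private lemma rv_zero85 (A : ℕ → ℝ) (N : ℕ) : rv A (N + 1) 0 = A N := by
  unfold rv
  congr 1

private lemma rv_sh85 (A : ℕ → ℝ) (N : ℕ) : shA (rv A (N + 1)) 1 = rv A N := by
  funext j
  unfold shA rv
  congr 1
  omega

theorem po_rev (A : ℕ → ℝ) (n n' : ℕ) (q : ℝ × ℝ) :
    po (rv A (n + n')) n' (Prod.swap (po A (n + n') q)) = Prod.swap (po A n q) := by
  induction n' with
  | zero => rw [po_zero85, add_zero]
  | succ n' ih =>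
    rw [add_comm n' 1, po_add, add_comm 1 n', ← add_assoc, rv_sh85]
    have h1 : po (rv A (n + n' + 1)) 1 (Prod.swap (po A (n + n' + 1) q)) = Prod.swap (po A (n + n') q) := by
      have e : po (rv A (n + n' + 1)) (0 + 1) (Prod.swap (po A (n + n' + 1) q)) =
          Prod.swap (po A (n + n') q) := by
        rw [po_succ85, po_zero85, rv_zero85, po_succ85, F_rev85]
      exact e
    rw [h1, ih]

theorem pM_rev (A : ℕ → ℝ) (n n' : ℕ) (q : ℝ × ℝ) :
    pM (rv A (n + n')) n' (Prod.swap (po A (n + n') q)) * !![0, 1; 1, 0] * pM (shA A n) n' (po A n q) =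
      !![0, 1; 1, 0] := by
  induction n' with
  | zero => simp [pM_zero85]
  | succ n' ih =>
    have h0 : po (rv A (n + n' + 1)) (0 + 1) (Prod.swap (po A (n + n' + 1) q)) =
        Prod.swap (po A (n + n') q) := by
      rw [po_succ85, po_zero85, rv_zero85, po_succ85, F_rev85]
    have h1 : pM (rv A (n + n' + 1)) (n' + 1) (Prod.swap (po A (n + n' + 1) q)) =
        pM (rv A (n + n')) n' (Prod.swap (po A (n + n') q)) *
          Pool.Agent.Helper18.UC.A (A (n + n')) (Prod.swap (po A (n + n' + 1) q)) := by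
      have h := pM_add (rv A (n + n' + 1)) (0 + 1) n' (Prod.swap (po A (n + n' + 1) q))
      rw [h0, pM_succ85, pM_zero85, po_zero85, rv_zero85, mul_one] at h
      have e : (0 + 1 + n') = n' + 1 := by omega
      rw [e] at h
      rw [h]
      congr 2
      exact rv_sh85 A (n + n')
    have h2 : pM (shA A n) (n' + 1) (po A n q) =
        Pool.Agent.Helper18.UC.A (A (n + n')) (po A (n + n') q) * pM (shA A n) n' (po A n q) := by
      rw [pM_succ85, ← po_add]
      have e : shA A n n' = A (n + n') := by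
        unfold shA
        rw [add_comm n' n]
      rw [e]
    rw [← add_assoc, h1, h2, po_succ85]
    have h3 := A_rev85 (A (n + n')) (po A (n + n') q)
    calc pM (rv A (n + n')) n' (Prod.swap (po A (n + n') q)) *
          Pool.Agent.Helper18.UC.A (A (n + n'))
            (Prod.swap (Pool.Agent.Helper18.UC.F (A (n + n')) (po A (n + n') q))) * !![0, 1; 1, 0] *
          (Pool.Agent.Helper18.UC.A (A (n + n')) (po A (n + n') q) * pM (shA A n) n' (po A n q))
        = pM (rv A (n + n')) n' (Prod.swap (po A (n + n') q)) *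
          (Pool.Agent.Helper18.UC.A (A (n + n'))
            (Prod.swap (Pool.Agent.Helper18.UC.F (A (n + n')) (po A (n + n') q))) * !![0, 1; 1, 0] *
            Pool.Agent.Helper18.UC.A (A (n + n')) (po A (n + n') q)) * pM (shA A n) n' (po A n q) := by
          simp only [mul_assoc]
      _ = !![0, 1; 1, 0] := by rw [h3, ih]

theorem pnn_rev (A : ℕ → ℝ) (n n' : ℕ) (q : ℝ × ℝ) :
    nn (pM (rv A (n + n')) n' (Prod.swap (po A (n + n') q))) = nn (pM (shA A n) n' (po A n q)) := by
  have h1 := pM_rev A n n' q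
  have h2 := det_pM (shA A n) n' (po A n q)
  set X := pM (rv A (n + n')) n' (Prod.swap (po A (n + n') q))
  set Y := pM (shA A n) n' (po A n q)
  have h3 : X * !![0, 1; 1, 0] = !![0, 1; 1, 0] * Y.adjugate := by
    calc X * !![0, 1; 1, 0] = X * !![0, 1; 1, 0] * (Y * Y.adjugate) := by
          rw [Matrix.mul_adjugate, h2, one_smul, mul_one]
      _ = (X * !![0, 1; 1, 0] * Y) * Y.adjugate := by rw [mul_assoc (X * !![0, 1; 1, 0]) Y]
      _ = !![0, 1; 1, 0] * Y.adjugate := by rw [h1]
  rw [Matrix.adjugate_fin_two] at h3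
  have e00 := congrFun (congrFun h3 0) 0
  have e01 := congrFun (congrFun h3 0) 1
  have e10 := congrFun (congrFun h3 1) 0
  have e11 := congrFun (congrFun h3 1) 1
  simp [Matrix.mul_apply, Fin.sum_univ_two] at e00 e01 e10 e11
  unfold nn
  rw [e00, e01, e10, e11, abs_neg, abs_neg]
  ring

theorem pnn_succ_le {A : ℕ → ℝ} {L : ℝ} (hA : Bd A L) (n : ℕ) (q : ℝ × ℝ) :
    nn (pM A (n + 1) q) ≤ L * nn (pM A n q) := by
  rw [pM_succ85]
  exact (Pool.Agent.Helper18.UC.nn_mul _ _).trans (mul_le_mul_of_nonneg_right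
    ((Pool.Agent.Helper18.UC.nn_A_le (A n) _).trans (hA n)) (Pool.Agent.Helper18.UC.nn_nonneg _))

theorem pnn_le_succ {A : ℕ → ℝ} {L : ℝ} (hA : Bd A L) (n : ℕ) (q : ℝ × ℝ) :
    nn (pM A n q) ≤ L * nn (pM A (n + 1) q) := by
  set B := Pool.Agent.Helper18.UC.A (A n) (po A n q) with hB
  have h1 : pM A n q = B.adjugate * pM A (n + 1) q := by
    rw [pM_succ85, ← hB, ← mul_assoc, Matrix.adjugate_mul, hB, det_A85, one_smul, one_mul]
  have h2 : nn B.adjugate ≤ L := by
    refine le_trans (le_of_eq ?_) ((Pool.Agent.Helper18.UC.nn_A_le (A n) (po A n q)).trans (hA n))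
    rw [← hB, Matrix.adjugate_fin_two]
    unfold nn
    simp
    ring
  conv_lhs => rw [h1]
  exact (Pool.Agent.Helper18.UC.nn_mul _ _).trans
    (mul_le_mul_of_nonneg_right h2 (Pool.Agent.Helper18.UC.nn_nonneg _))

theorem two_le_pnn (A : ℕ → ℝ) (n : ℕ) (q : ℝ × ℝ) : 2 ≤ nn (pM A n q) := by
  have h := det_pM A n q
  rw [Matrix.det_fin_two] at h
  unfold nn
  generalize pM A n q 0 0 = x at *
  generalize pM A n q 0 1 = y at *
  generalize pM A n q 1 0 = z at *
  generalize pM A n q 1 1 = w at *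
  have h1 : 1 ≤ |x| * |w| + |y| * |z| := by
    have h2 := abs_sub (x * w) (y * z)
    rw [h, abs_one, abs_mul, abs_mul] at h2
    exact h2
  have hx := abs_nonneg x
  have hy := abs_nonneg y
  have hz := abs_nonneg z
  have hw := abs_nonneg w
  by_contra hcon
  rw [not_le] at hcon
  nlinarith [sq_nonneg (|x| - |w|), sq_nonneg (|y| - |z|), mul_nonneg hx hy, mul_nonneg hx hz,
    mul_nonneg hw hy, mul_nonneg hw hz]

theorem pM_entry_cont (A : ℕ → ℝ) (n : ℕ) (i j : Fin 2) : Continuous (fun q : ℝ × ℝ => pM A n q i j) := by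
  induction n generalizing i j with
  | zero =>
    simp only [pM_zero85]
    exact continuous_const
  | succ n ih =>
    simp only [pM_succ85, Matrix.mul_apply, Fin.sum_univ_two]
    have hA : ∀ i k : Fin 2, Continuous (fun q : ℝ × ℝ => Pool.Agent.Helper18.UC.A (A n) (po A n q) i k) := by
      intro i k
      have h1 : Continuous (fun q : ℝ × ℝ => Pool.Agent.Helper18.UC.vv (A n) (po A n q).1) := by
        have h2 := po_cont A n
        unfold Pool.Agent.Helper18.UC.vv
        fun_prop
      fin_cases i <;> fin_cases k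
      · exact h1
      · exact continuous_const
      · exact continuous_const
      · exact continuous_const
    exact ((hA i 0).mul (ih 0 j)).add ((hA i 1).mul (ih 1 j))

theorem Bd_L4 {A : ℕ → ℝ} {L : ℝ} (hA : Bd A L) : 4 ≤ L :=
  (Pool.Agent.Helper18.UC.LL_ge (A 0)).trans (hA 0)

theorem Bd_rv {A : ℕ → ℝ} {L : ℝ} (hA : Bd A L) (N : ℕ) : Bd (rv A N) L := fun j => hA _

theorem Bd_shA {A : ℕ → ℝ} {L : ℝ} (hA : Bd A L) (N : ℕ) : Bd (shA A N) L := fun j => hA _

end Pool.Agent.Helper82.AN
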