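import Pool.Agent.Helper82.AN.SSel
import Pool.Agent.Helper82.AN.SDens
import Pool.Agent.Helper82.AN.SFam

/-! Block AN-SBASE: for more than half of the base points of `W` the set `E` has in the fibre a family of cells of
hyperbolic points at time `n`, of total volume at least `v1`, where `v1` does not depend on `η`, `n1`.

`v1 = v (prp - r / 2) / 2`. `dens` for `E ∩ (W ×ˢ univ)` and `η`, `ε` gives `D`, `k0`; a large `N` with
`volume (E \ PN N) ≤ ε`; `sel` for `D` and `n0 = n1 + k0 + 2`: time `n` with `volume.real (D ∩ HG n) ≥ prp (volume.real (E ∩ W × univ) - 2 ε) - ε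
≥ prp v μ(W) - 3 ε`. `G = {b ∈ W | v1 ≤ volume.real {z | (b, z) ∈ D ∩ HG n}}`; Fubini: `volume.real (D ∩ HG n) ≤ r v μ(G) + v1 μ(W)`, so
`μ(G) ≥ μ(W) (prp / (2 r) + 1/4) - 3 ε / (r v) > μ(W) / 2` for small `ε` (`prp / r > 1/2`). `fam_ex` in the fibre of `b ∈ G`. -/

set_option autoImplicit false
open MeasureTheory Real Set Filter

namespace Pool.Agent.Helper82.AN

open Pool.Agent.Helper18.UC (nn LL sh clm pt sqo lab rep toT cell)
open Pool.Agent.Helper46.QP (TT Td orb Mx va stp)

variable {d : ℕ}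

/-- the proportion of hyperbolic times is at most `1` -/
private theorem prp_le_one58 {L B c : ℝ} (hN : Num L B c) : prp L B c ≤ 1 := by
  unfold prp
  have h1 : 0 < Real.log L - Real.log (KL L B) := by linarith [hN.hc, hN.hc2]
  rw [div_le_one h1]
  linarith [hN.hc2]

private theorem fib58 (H : Set (Td d × TT)) (θ : Td d) : Prod.mk θ ⁻¹' H = {z | (θ, z) ∈ H} := rfl

/-- a lower bound of the measure from the fibres -/
private theorem low58 {E : Set (Td d × TT)} (hE : MeasurableSet E) {W : Set (Td d)} (hW : MeasurableSet W) {v : ℝ}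
    (hWv : ∀ θ ∈ W, v ≤ volume.real {z | (θ, z) ∈ E}) :
    v * volume.real W ≤ volume.real (E ∩ (W ×ˢ univ)) := by
  have hE0 : MeasurableSet (E ∩ (W ×ˢ univ)) := hE.inter (hW.prod MeasurableSet.univ)
  rcases le_total v 0 with hv | hv
  · exact (mul_nonpos_of_nonpos_of_nonneg hv measureReal_nonneg).trans measureReal_nonneg
  have h1 : ENNReal.ofReal v * volume W ≤ volume (E ∩ (W ×ˢ univ)) := by
    rw [Measure.volume_eq_prod, Measure.prod_apply hE0]
    calc ENNReal.ofReal v * volume W = ∫⁻ _ in W, ENNReal.ofReal v := by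
          rw [setLIntegral_const]
      _ ≤ ∫⁻ θ in W, volume (Prod.mk θ ⁻¹' (E ∩ (W ×ˢ univ))) := by
          refine setLIntegral_mono' hW fun θ hθ => ?_
          have h2 : Prod.mk θ ⁻¹' (E ∩ (W ×ˢ univ)) = {z | (θ, z) ∈ E} := by
            ext z
            simp [hθ]
          rw [h2]
          exact (ENNReal.ofReal_le_ofReal (hWv θ hθ)).trans ENNReal.ofReal_toReal_le
      _ ≤ ∫⁻ θ, volume (Prod.mk θ ⁻¹' (E ∩ (W ×ˢ univ))) := setLIntegral_le_lintegral _ _
  have h3 := ENNReal.toReal_mono (measure_ne_top _ _) h1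
  rw [ENNReal.toReal_mul, ENNReal.toReal_ofReal hv] at h3
  exact h3

/-- an upper bound of the measure from the fibres -/
private theorem upp58 {H : Set (Td d × TT)} (hH : MeasurableSet H) {W G : Set (Td d)} (hW : MeasurableSet W)
    (hG : MeasurableSet G) {u v1 : ℝ} (hu : 0 ≤ u) (hv1 : 0 ≤ v1) (hout : ∀ p ∈ H, p.1 ∈ W)
    (h1 : ∀ θ ∈ W, volume.real {z | (θ, z) ∈ H} ≤ u) (h2 : ∀ θ ∈ W, θ ∉ G → volume.real {z | (θ, z) ∈ H} ≤ v1) :
    volume.real H ≤ u * volume.real G + v1 * volume.real W := by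
  have h3 : volume H ≤ ENNReal.ofReal u * volume G + ENNReal.ofReal v1 * volume W := by
    rw [Measure.volume_eq_prod, Measure.prod_apply hH]
    calc ∫⁻ θ, volume (Prod.mk θ ⁻¹' H) ≤
        ∫⁻ θ, (G.indicator (fun _ => ENNReal.ofReal u) θ + W.indicator (fun _ => ENNReal.ofReal v1) θ) := by
          refine lintegral_mono fun θ => ?_
          rw [fib58]
          by_cases hθ : θ ∈ W
          · by_cases hg : θ ∈ G
            · rw [indicator_of_mem hg]
              refine le_trans ?_ (le_add_right le_rfl)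
              rw [ENNReal.le_ofReal_iff_toReal_le (measure_ne_top _ _) hu]
              exact h1 θ hθ
            · rw [indicator_of_notMem hg, indicator_of_mem hθ, zero_add,
                ENNReal.le_ofReal_iff_toReal_le (measure_ne_top _ _) hv1]
              exact h2 θ hθ hg
          · have h4 : {z | (θ, z) ∈ H} = ∅ := by
              rw [eq_empty_iff_forall_notMem]
              intro z hz
              exact hθ (hout _ hz)
            rw [h4, measure_empty]
            exact zero_le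
      _ = ENNReal.ofReal u * volume G + ENNReal.ofReal v1 * volume W := by
          rw [lintegral_add_left (measurable_const.indicator hG), lintegral_indicator hG, lintegral_indicator hW,
            setLIntegral_const, setLIntegral_const]
  have h4 := ENNReal.toReal_mono (by finiteness) h3
  rw [ENNReal.toReal_add (by finiteness) (by finiteness), ENNReal.toReal_mul, ENNReal.toReal_mul,
    ENNReal.toReal_ofReal hu, ENNReal.toReal_ofReal hv1] at h4
  exact h4

theorem base {α : Td d} {f : Td d → ℝ} (hf : Measurable f) {L B c : ℝ} (hA : ∀ θ, LL (f θ) ≤ L) (hN : Num L B c)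
    {E : Set (Td d × TT)} (hE : MeasurableSet E)
    (hP : Tendsto (fun N : ℕ => volume (E \ PN α f c N)) atTop (nhds 0))
    {W : Set (Td d)} (hW : MeasurableSet W) (hWp : volume W ≠ 0) {v r : ℝ} (hv : 0 < v) (hr1 : 1 ≤ r)
    (hr : r < 2 * prp L B c)
    (hWv : ∀ θ ∈ W, v ≤ volume.real {z | (θ, z) ∈ E} ∧ volume.real {z | (θ, z) ∈ E} ≤ r * v)
    {η : ℝ} (hη : 0 < η) (n1 : ℕ) :
    ∃ n : ℕ, n1 ≤ n ∧ ∃ G ⊆ W, MeasurableSet G ∧ volume.real W / 2 < volume.real G ∧
      ∀ θ ∈ G, ∃ 𝒬 : Set (Set TT), FamS (sq α f θ) L B n {z | (θ, z) ∈ E} η 𝒬 ∧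
        v * (prp L B c - r / 2) / 2 ≤ volume.real (⋃₀ 𝒬) := by
  have hp1 := prp_le_one58 hN
  have hp2 := hN.half
  set p := prp L B c with hp
  have ha : 0 < volume.real W := by
    rw [Measure.real]
    exact ENNReal.toReal_pos hWp (measure_ne_top _ _)
  set a := volume.real W with hadef
  have hpr : 0 < p - r / 2 := by linarith
  set v1 := v * (p - r / 2) / 2 with hv1
  have hv1p : 0 < v1 := by positivity
  obtain ⟨ε, hε, hε2⟩ : ∃ ε : ℝ, 0 < ε ∧ 3 * ε < v * a * (p / 2 - r / 4) := by
    refine ⟨v * a * (p / 2 - r / 4) / 6, ?_, ?_⟩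
    · have : 0 < p / 2 - r / 4 := by linarith
      positivity
    · have : 0 < v * a * (p / 2 - r / 4) := by
        have : 0 < p / 2 - r / 4 := by linarith
        positivity
      linarith
  have hE0 : MeasurableSet (E ∩ (W ×ˢ univ)) := hE.inter (hW.prod MeasurableSet.univ)
  set E0 := E ∩ (W ×ˢ univ) with hE0def
  obtain ⟨D, hDE, hD, hDv, k0, hk0⟩ := dens hE0 hη hε
  -- the time `N`
  obtain ⟨N, hN1, hN2, hN3⟩ : ∃ N : ℕ, 1 ≤ N ∧ volume (E \ PN α f c N) ≤ ENNReal.ofReal ε ∧
      ((n1 + k0 + 2 : ℕ) + 1 : ℝ) / N ≤ ε := by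
    have e1 : ∀ᶠ N : ℕ in atTop, volume (E \ PN α f c N) < ENNReal.ofReal ε :=
      hP.eventually_lt_const (by simpa using hε)
    have e2 : Tendsto (fun N : ℕ => ((n1 + k0 + 2 : ℕ) + 1 : ℝ) / N) atTop (nhds 0) :=
      tendsto_const_div_atTop_nhds_zero_nat _
    have e3 := e2.eventually_lt_const hε
    obtain ⟨N, h1, h2, h3⟩ := (e1.and (e3.and (eventually_ge_atTop 1))).exists
    exact ⟨N, h3, h1.le, h2.le⟩
  obtain ⟨n, hn, hsel⟩ := sel (W := D) hf hA hN hD hN1 (n1 + k0 + 2)
  rw [← hp] at hsel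
  have hHm : MeasurableSet (D ∩ HG α f L B n) := hD.inter (meas_HG hf L B n)
  set H := D ∩ HG α f L B n with hH
  -- lower bound
  have hlow' : p * (v * a) - 3 * ε ≤ volume.real H := by
    have h1 : v * a ≤ volume.real E0 := low58 hE hW fun θ hθ => (hWv θ hθ).1
    have h2 : volume.real E0 ≤ volume.real (D ∩ PN α f c N) + 2 * ε := by
      have h3 : E0 ⊆ (D ∩ PN α f c N) ∪ ((E0 \ D) ∪ (E \ PN α f c N)) := by
        intro q hq
        by_cases h4 : q ∈ D
        · by_cases h5 : q ∈ PN α f c N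
          · exact Or.inl ⟨h4, h5⟩
          · exact Or.inr (Or.inr ⟨hq.1, h5⟩)
        · exact Or.inr (Or.inl ⟨hq, h4⟩)
      have h4 : volume.real (E0 \ D) ≤ ε := by
        rw [Measure.real]
        exact ENNReal.toReal_le_of_le_ofReal hε.le hDv
      have h5 : volume.real (E \ PN α f c N) ≤ ε := by
        rw [Measure.real]
        exact ENNReal.toReal_le_of_le_ofReal hε.le hN2
      have h6 := measureReal_mono (μ := (volume : Measure (Td d × TT))) h3
      have h7 := measureReal_union_le (μ := (volume : Measure (Td d × TT))) (D ∩ PN α f c N)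
        ((E0 \ D) ∪ (E \ PN α f c N))
      have h8 := measureReal_union_le (μ := (volume : Measure (Td d × TT))) (E0 \ D) (E \ PN α f c N)
      linarith
    have h3 : p * (v * a) ≤ p * volume.real (D ∩ PN α f c N) + 2 * ε := by
      have h4 : p * (v * a) ≤ p * (volume.real (D ∩ PN α f c N) + 2 * ε) :=
        mul_le_mul_of_nonneg_left (h1.trans h2) (by linarith)
      have h5 : p * (2 * ε) ≤ 1 * (2 * ε) := mul_le_mul_of_nonneg_right hp1 (by linarith)
      linarith
    linarith
  -- the base points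
  have hgm : Measurable fun θ : Td d => volume.real {z | (θ, z) ∈ H} := by
    have h1 : Measurable fun θ : Td d => volume (Prod.mk θ ⁻¹' H) := measurable_measure_prodMk_left hHm
    exact h1.ennreal_toReal
  set G : Set (Td d) := W ∩ {θ | v1 ≤ volume.real {z | (θ, z) ∈ H}} with hG
  have hGm : MeasurableSet G := hW.inter (measurableSet_le measurable_const hgm)
  have hout : ∀ q ∈ H, q.1 ∈ W := fun q hq => (hDE hq.1).2.1
  have hHE : ∀ θ, {z | (θ, z) ∈ H} ⊆ {z | (θ, z) ∈ E} := fun θ z hz => (hDE hz.1).1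
  have hupp : volume.real H ≤ r * v * volume.real G + v1 * a := by
    refine upp58 hHm hW hGm (by positivity) hv1p.le hout ?_ ?_
    · intro θ hθ
      exact (measureReal_mono (hHE θ)).trans (hWv θ hθ).2
    · intro θ hθ hg
      by_contra hcon
      push Not at hcon
      exact hg ⟨hθ, hcon.le⟩
  refine ⟨n, by omega, G, inter_subset_left, hGm, ?_, ?_⟩
  · have h1 : r * v * (a / 2) < r * v * volume.real G := by
      have h2 : v1 * a = v * a * (p / 2 - r / 4) := by rw [hv1]; ring
      have h3 : p * (v * a) = v * a * (p / 2 - r / 4) + v * a * (p / 2 - r / 4) + r * v * (a / 2) := by ring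
      linarith
    exact lt_of_mul_lt_mul_left h1 (by positivity)
  · intro θ hθ
    obtain ⟨𝒬, h1, h2⟩ := fam_ex (A := sq α f θ) (L := L) (B := B) (fun j => hA _) hN.hB
      (n := n) (k0 := k0) (by omega) (E := {z | (θ, z) ∈ E}) (W := {z | (θ, z) ∈ H}) (η := η) (by
        intro z hz
        refine ⟨hz.2, fun k hk => ?_⟩
        have h3 := hk0 k hk (θ, z) hz.1
        have h4 : {z' | ((θ, z).1, z') ∈ E0} = {z' | (θ, z') ∈ E} := by
          ext z'
          simp only [hE0def, mem_inter_iff, mem_ofPred_eq, mem_prod, mem_univ, and_true]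
          exact ⟨fun h => h.1, fun h => ⟨h, hθ.1⟩⟩
        rw [h4] at h3
        exact h3)
    refine ⟨𝒬, h1, ?_⟩
    exact hθ.2.trans (measureReal_mono h2)

end Pool.Agent.Helper82.AN
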