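import Pool.Agent.Helper82.AN.Defs
import Pool.Agent.Helper18.UC.FD
import Pool.Agent.Helper18.UC.Cell

/-! Project AN (MP_9ee088_an), component part: definitions. Everything is the non-autonomous version of `Helper18/UC`
(`Defs`, `Torus`, `Sel`, `Strips`): the parameter `a` of the `j`-th step is `A j`, and `LL a` is replaced by a common
bound `L` (`Bd A L`). Time reversal: the reversed sequence `rv A N`. -/

set_option autoImplicit false
open MeasureTheory Real Set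
open scoped ENNReal

namespace Pool.Agent.Helper82.AN

open Pool.Agent.Helper18.UC (nn LL pt lab cor sh sqo rep toT cell corner clm)
open Pool.Agent.Helper46.QP (TT Td orb Mx va stp)

variable {d : ℕ}

/-- all amplitudes are bounded: `2 π |A j| + 4 ≤ L` -/
def Bd (A : ℕ → ℝ) (L : ℝ) : Prop := ∀ j, LL (A j) ≤ L

/-- the plane map of the first `n` steps -/
noncomputable def po (A : ℕ → ℝ) : ℕ → ℝ × ℝ → ℝ × ℝ
  | 0, q => q
  | n + 1, q => Pool.Agent.Helper18.UC.F (A n) (po A n q)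

/-- its derivative matrix -/
noncomputable def pM (A : ℕ → ℝ) : ℕ → ℝ × ℝ → Matrix (Fin 2) (Fin 2) ℝ
  | 0, _ => 1
  | n + 1, q => Pool.Agent.Helper18.UC.A (A n) (po A n q) * pM A n q

/-- the sequence read backwards from time `N` -/
def rv (A : ℕ → ℝ) (N j : ℕ) : ℝ := A (N - 1 - j)

/-- the hyperbolicity rate -/
noncomputable def KL (L B : ℝ) : ℝ := 4 * B * Real.sqrt L

/-- `n` is a hyperbolic time of the point `q` -/
def Hyp (A : ℕ → ℝ) (L B : ℝ) (n : ℕ) (q : ℝ × ℝ) : Prop :=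
  ∀ i ≤ n, KL L B ^ (n - i) * nn (pM A i q) ≤ nn (pM A n q)

/-- compare `UC.Good` -/
def Good (A : ℕ → ℝ) (L B : ℝ) (n : ℕ) (p : ℝ × ℝ) (k : Fin 2) (m : ℝ) : Prop :=
  (49 / 100) * nn (pM A n p) ≤ |m| ∧ |m| ≤ nn (pM A n p) ∧
  ∀ q : ℝ × ℝ, dist q p ≤ B / nn (pM A n p) →
    |pM A n q 0 k - m| ≤ (3 / B) * |m| ∧ |pM A n q 1 k| ≤ (5 / KL L B) * |m|

/-- points of a square whose orbit hits the reflection of another square after `N` steps, modulo integers -/
def Hit (A : ℕ → ℝ) (N : ℕ) (c : ℝ × ℝ) (s : ℝ) (c' : ℝ × ℝ) (s' : ℝ) : Set (ℝ × ℝ) :=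
  {q | q ∈ sqo c s ∧ ∃ u w : ℤ, sh (Prod.swap (po A N q)) u w ∈ sqo c' s'}

/-- the cell `cell κ z` has the right size for the time `n` -/
def Fit (A : ℕ → ℝ) (L B : ℝ) (n κ : ℕ) (z : TT) : Prop :=
  Hyp A L B n (rep z) ∧ B / (2 * nn (pM A n (rep z))) ≤ 1 / 2 ^ κ ∧ 1 / 2 ^ κ ≤ B / nn (pM A n (rep z)) ∧
    1 ≤ κ

/-- a countable disjoint family of cells of the right size for the time `n`, almost filled by `E` -/
def FamS (A : ℕ → ℝ) (L B : ℝ) (n : ℕ) (E : Set TT) (η : ℝ) (𝒬 : Set (Set TT)) : Prop :=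
  𝒬.Countable ∧ 𝒬.PairwiseDisjoint id ∧
    (∀ Q ∈ 𝒬, ∃ (κ : ℕ) (z : TT), Q = cell κ z ∧ Fit A L B n κ z) ∧
    ∀ Q ∈ 𝒬, volume (Q \ E) ≤ ENNReal.ofReal η * volume Q

/-! ### on the torus of dimension `d + 2` -/

/-- derivative of the `n`-th iterate of `Fs α f` along the fibre -/
noncomputable def gN (α : Td d) (f : Td d → ℝ) (n : ℕ) (p : Td d × TT) : ℝ :=
  nn (Mx (cA (sq α f p.1)) p.2 n)

/-- growth at time `N` -/
def PN (α : Td d) (f : Td d → ℝ) (c : ℝ) (N : ℕ) : Set (Td d × TT) := {p | Real.exp (c * N) ≤ gN α f N p}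

/-- `n` is a hyperbolic time -/
def HG (α : Td d) (f : Td d → ℝ) (L B : ℝ) (n : ℕ) : Set (Td d × TT) :=
  {p | Hyp (sq α f p.1) L B n (rep p.2)}

/-- points whose lower exponent exceeds `c` -/
noncomputable def om (α : Td d) (f : Td d → ℝ) (c : ℝ) : Set (Td d × TT) :=
  {p | c < Filter.liminf (fun n : ℕ => Real.log (gN α f n p) / n) Filter.atTop}

/-- the proportion of hyperbolic times -/
noncomputable def prp (L B c : ℝ) : ℝ := (c - Real.log (KL L B)) / (Real.log L - Real.log (KL L B))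

/-- numbers for which the theory works -/
structure Num (L B c : ℝ) : Prop where
  hB : 100 ≤ B
  hL : 2 * KL L B ≤ L
  hc : Real.log (KL L B) < c
  hc2 : c ≤ Real.log L
  half : 1 / 2 < prp L B c

end Pool.Agent.Helper82.AN
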