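import Pool.Agent.Helper82.AN.SPos

/-! Block AN-SEIG: eigenfunctions on `om` depend only on the base point.

First `|ξ| = 1` and `h` bounded. Torus `Td (d + 1)` with `α' = Fin.cons t₀ α`, `fourier 1 t₀ = conj ξ`, `f' θ' = f (Fin.tail θ')`;
`om α' f' c = {p | (tail p.1, p.2) ∈ om α f c}`. `H (θ', z) = fourier 1 (θ' 0) * h (tail θ', z)` satisfies `H ∘ F' = H` a.e. on `om α' f' c`. For every ball `D` with rational centre and radius the
set `{p ∈ om α' f' c | H p ∈ D}` is invariant up to a null set; take a strictly invariant version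
(`MeasureTheory.QuasiMeasurePreserving.exists_preimage_eq_of_preimage_ae`, intersected with `om`) and apply `nul_full`: for a.e. `θ'` it is null or full in the fibre of
`om`, for all `D` at once; so `H (θ', ·)` is a.e. constant on the fibre. `measure preserving: Fin.cons / tail` (`MeasurableEquiv.piFinSuccAbove`,
`volume_preserving_piFinSuccAbove`), so for a.e. `θ` the function `h (θ, ·)` is a.e. constant on the fibre of `om`; `u θ = (∫ over the fibre of h) / volume of the
fibre` is measurable. -/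

set_option autoImplicit false
open MeasureTheory Real Set Filter

namespace Pool.Agent.Helper82.AN

open Pool.Agent.Helper18.UC (nn LL sh clm pt sqo lab rep toT cell)
open Pool.Agent.Helper46.QP (TT Td orb Mx va stp)

variable {d : ℕ}

/-! ### one more circle -/

private lemma tail_nsmul62 (t : UnitAddCircle) (α : Td d) (θ : Td (d + 1)) (j : ℕ) :
    (Fin.tail (θ + j • (Fin.cons t α : Td (d + 1))) : Td d) = Fin.tail θ + j • α := by
  funext i
  simp [Fin.tail]

private lemma sq_tail62 (t : UnitAddCircle) (α : Td d) (f : Td d → ℝ) (θ : Td (d + 1)) :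
    sq (Fin.cons t α : Td (d + 1)) (fun θ' => f (Fin.tail θ')) θ = sq α f (Fin.tail θ) := by
  funext j
  unfold sq
  simp only [tail_nsmul62]

private lemma gN_tail62 (t : UnitAddCircle) (α : Td d) (f : Td d → ℝ) (n : ℕ) (p : Td (d + 1) × TT) :
    gN (Fin.cons t α : Td (d + 1)) (fun θ' => f (Fin.tail θ')) n p = gN α f n (Fin.tail p.1, p.2) := by
  unfold gN
  rw [sq_tail62]

private lemma om_tail62 (t : UnitAddCircle) (α : Td d) (f : Td d → ℝ) (c : ℝ) (p : Td (d + 1) × TT) :
    p ∈ om (Fin.cons t α : Td (d + 1)) (fun θ' => f (Fin.tail θ')) c ↔ ((Fin.tail p.1, p.2) : Td d × TT) ∈ om α f c := by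
  unfold om
  simp only [Set.mem_ofPred_eq, gN_tail62]

private lemma Fs_tail62 (t : UnitAddCircle) (α : Td d) (f : Td d → ℝ) (p : Td (d + 1) × TT) :
    ((Fin.tail (Fs (Fin.cons t α : Td (d + 1)) (fun θ' => f (Fin.tail θ')) p).1,
      (Fs (Fin.cons t α : Td (d + 1)) (fun θ' => f (Fin.tail θ')) p).2) : Td d × TT) = Fs α f (Fin.tail p.1, p.2) := by
  unfold Fs
  refine Prod.ext ?_ rfl
  have := tail_nsmul62 t α p.1 1
  simpa using this

/-- tail and projection -/
private lemma tail_mp62 : MeasurePreserving (fun θ : Td (d + 1) => (Fin.tail θ : Td d)) volume volume := by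
  have h1 := volume_preserving_piFinSuccAbove (fun _ : Fin (d + 1) => UnitAddCircle) 0
  have h2 : MeasurePreserving (Prod.snd : UnitAddCircle × (Fin d → UnitAddCircle) → (Fin d → UnitAddCircle))
      (volume : Measure (UnitAddCircle × (Fin d → UnitAddCircle))) volume := measurePreserving_snd
  exact h2.comp h1

private lemma pr_mp62 : MeasurePreserving (fun p : Td (d + 1) × TT => ((Fin.tail p.1, p.2) : Td d × TT)) volume volume :=
  tail_mp62.prod (MeasurePreserving.id _)

/-- a property of the tail which holds almost everywhere -/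
private lemma ae_tail62 {P : Td d → Prop} (h : ∀ᵐ θ : Td (d + 1), P (Fin.tail θ)) : ∀ᵐ θ : Td d, P θ := by
  have h1 := (volume_preserving_piFinSuccAbove (fun _ : Fin (d + 1) => UnitAddCircle) 0).symm
  have h2 := h1.quasiMeasurePreserving.ae h
  have h3 := Measure.ae_ae_of_ae_prod (p := fun q : UnitAddCircle × (Fin d → UnitAddCircle) =>
    P (Fin.tail ((MeasurableEquiv.piFinSuccAbove (fun _ : Fin (d + 1) => UnitAddCircle) 0).symm q))) h2
  obtain ⟨t, ht⟩ := h3.exists
  filter_upwards [ht] with θ hθ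
  exact hθ

/-- one set -/
private lemma one_set62 {α : Td d} {f : Td d → ℝ} (hf : Measurable f) {L B c : ℝ} (hA : ∀ θ, LL (f θ) ≤ L)
    (hN : Num L B c) {H : Td d × TT → ℂ} (hH : Measurable H)
    (heq : ∀ᵐ p, p ∈ om α f c → H (Fs α f p) = H p) {D : Set ℂ} (hD : MeasurableSet D) :
    ∀ᵐ θ : Td d, (∀ᵐ z : TT, (θ, z) ∈ om α f c → H (θ, z) ∈ D) ∨ (∀ᵐ z : TT, (θ, z) ∈ om α f c → H (θ, z) ∉ D) := by
  have hom := meas_om (α := α) hf c
  have hinv := om_inv (α := α) hA c
  have hmp := Fs_mp (α := α) hf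
  set S : Set (Td d × TT) := om α f c ∩ H ⁻¹' D with hS
  have hSm : MeasurableSet S := hom.inter (hH hD)
  have hSae : Fs α f ⁻¹' S =ᵐ[volume] S := by
    have : ∀ᵐ p : Td d × TT, (p ∈ Fs α f ⁻¹' S) = (p ∈ S) := by
      filter_upwards [heq] with p hp
      have e1 : (Fs α f p ∈ om α f c) ↔ p ∈ om α f c := by
        have : p ∈ Fs α f ⁻¹' om α f c ↔ p ∈ om α f c := by rw [hinv]
        exact this
      refine propext ⟨fun h => ?_, fun h => ?_⟩
      · have h1 := e1.1 h.1
        refine ⟨h1, ?_⟩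
        have h2 : H (Fs α f p) ∈ D := h.2
        rwa [hp h1] at h2
      · refine ⟨e1.2 h.1, ?_⟩
        show H (Fs α f p) ∈ D
        rw [hp h.1]
        exact h.2
    exact this
  obtain ⟨E, hEm, hES, hEi⟩ :=
    hmp.quasiMeasurePreserving.exists_preimage_eq_of_preimage_ae hSm.nullMeasurableSet hSae
  have hE1 : Fs α f ⁻¹' (om α f c ∩ E) = om α f c ∩ E := by
    rw [preimage_inter, hinv, hEi]
  have h1 := nul_full hf hA hN (hom.inter hEm) inter_subset_left hE1
  have h2 : ∀ᵐ p : Td d × TT, (p ∈ E) = (p ∈ S) := hES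
  have h3 := Measure.ae_ae_of_ae_prod (p := fun p : Td d × TT => (p ∈ E) = (p ∈ S)) h2
  filter_upwards [h1, h3] with θ k1 k2
  rcases k1 with k1 | k1
  · right
    have k3 : ∀ᵐ z : TT, ¬ ((θ, z) ∈ om α f c ∩ E) := by
      rw [ae_iff]
      simpa using k1
    filter_upwards [k2, k3] with z hz hz' ho hd
    apply hz'
    refine ⟨ho, ?_⟩
    rw [hz]
    exact ⟨ho, hd⟩
  · left
    have k3 : ∀ᵐ z : TT, ¬ ((θ, z) ∈ om α f c \ (om α f c ∩ E)) := by
      rw [ae_iff]
      simpa using k1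
    filter_upwards [k2, k3] with z hz hz' ho
    by_contra hd
    apply hz'
    refine ⟨ho, fun h => ?_⟩
    have := h.2
    rw [hz] at this
    exact hd this.2

/-- an invariant function is constant on almost every fibre -/
private lemma inv_const62 {α : Td d} {f : Td d → ℝ} (hf : Measurable f) {L B c : ℝ} (hA : ∀ θ, LL (f θ) ≤ L)
    (hN : Num L B c) {H : Td d × TT → ℂ} (hH : Measurable H)
    (heq : ∀ᵐ p, p ∈ om α f c → H (Fs α f p) = H p) :
    ∀ᵐ θ : Td d, ∃ w : ℂ, ∀ᵐ z : TT, (θ, z) ∈ om α f c → H (θ, z) = w := by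
  obtain ⟨S, hSc, hSm, hSs⟩ := exists_countable_separating ℂ MeasurableSet univ
  have h1 : ∀ᵐ θ : Td d, ∀ D ∈ S, (∀ᵐ z : TT, (θ, z) ∈ om α f c → H (θ, z) ∈ D) ∨
      (∀ᵐ z : TT, (θ, z) ∈ om α f c → H (θ, z) ∉ D) :=
    (ae_ball_iff hSc).2 fun D hD => one_set62 hf hA hN hH heq (hSm D hD)
  have hom := meas_om (α := α) hf c
  filter_upwards [h1] with θ hθ
  have hfm : MeasurableSet {z : TT | (θ, z) ∈ om α f c} := measurable_prodMk_left hom
  have : HasCountableSeparatingOn ℂ (fun D => D ∈ S) univ := ⟨⟨S, hSc, fun s hs => hs, hSs⟩⟩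
  have h2 : ∀ U, U ∈ S →
      (∀ᶠ z in ae ((volume : Measure TT).restrict {z : TT | (θ, z) ∈ om α f c}), (fun z => H (θ, z)) z ∈ U) ∨
      (∀ᶠ z in ae ((volume : Measure TT).restrict {z : TT | (θ, z) ∈ om α f c}), (fun z => H (θ, z)) z ∉ U) := by
    intro U hU
    rcases hθ U hU with h | h
    · left
      exact (ae_restrict_iff' hfm).2 h
    · right
      exact (ae_restrict_iff' hfm).2 h
  obtain ⟨w, hw⟩ := Filter.exists_eventuallyEq_const_of_forall_separating (fun D => D ∈ S) h2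
  refine ⟨w, ?_⟩
  have h3 := (ae_restrict_iff' hfm).1 hw
  exact h3

theorem eig_fib {α : Td d} {f : Td d → ℝ} (hf : Measurable f) {L B c : ℝ} (hA : ∀ θ, LL (f θ) ≤ L) (hN : Num L B c)
    {ξ : ℂ} (hξ : ‖ξ‖ = 1) {h : Td d × TT → ℂ} (hh : Measurable h) (hb : ∃ K : ℝ, ∀ p, ‖h p‖ ≤ K)
    (heq : ∀ᵐ p, p ∈ om α f c → h (Fs α f p) = ξ * h p) :
    ∃ u : Td d → ℂ, Measurable u ∧ ∀ᵐ p : Td d × TT, p ∈ om α f c → h p = u p.1 := by
  have hom := meas_om (α := α) hf c
  -- the rotation by `ξ⁻¹`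
  obtain ⟨t₀, ht₀⟩ : ∃ t : UnitAddCircle, (fourier 1 t : ℂ) * ξ = 1 := by
    have hξ0 : ξ ≠ 0 := by
      intro h0
      rw [h0, norm_zero] at hξ
      exact zero_ne_one hξ
    refine ⟨((-(Complex.arg ξ) / (2 * π) : ℝ) : UnitAddCircle), ?_⟩
    rw [fourier_coe_apply]
    have h1 : ξ = Complex.exp (Complex.arg ξ * Complex.I) := by
      have := Complex.norm_mul_exp_arg_mul_I ξ
      rw [hξ] at this
      simpa using this.symm
    conv_lhs => rw [h1]
    have h2 : Complex.arg (Complex.exp (Complex.arg ξ * Complex.I)) = Complex.arg ξ := by rw [← h1]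
    rw [h2, ← Complex.exp_add]
    have hpi : (π : ℂ) ≠ 0 := by exact_mod_cast Real.pi_ne_zero
    have h3 : 2 * (π : ℂ) * Complex.I * ((1 : ℤ) : ℂ) * ((-(Complex.arg ξ) / (2 * π) : ℝ) : ℂ) / ((1 : ℝ) : ℂ) +
        Complex.arg ξ * Complex.I = 0 := by
      push_cast
      field_simp
      ring
    rw [h3, Complex.exp_zero]
  set α' : Td (d + 1) := (Fin.cons t₀ α : Td (d + 1)) with hα'
  set f' : Td (d + 1) → ℝ := fun θ' => f (Fin.tail θ') with hf'
  have hf'm : Measurable f' := hf.comp tail_mp62.measurable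
  have hA' : ∀ θ, LL (f' θ) ≤ L := fun θ => hA _
  set H : Td (d + 1) × TT → ℂ := fun p => (fourier 1 (p.1 0) : ℂ) * h (Fin.tail p.1, p.2) with hH
  have hfm : Measurable fun x : UnitAddCircle => (fourier 1 x : ℂ) := (ContinuousMap.continuous (fourier 1)).measurable
  have hHm : Measurable H := by
    refine Measurable.mul (hfm.comp ((measurable_pi_apply 0).comp measurable_fst)) (hh.comp pr_mp62.measurable)
  have hHe : ∀ᵐ p, p ∈ om α' f' c → H (Fs α' f' p) = H p := by
    have h1 := pr_mp62.quasiMeasurePreserving.ae heq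
    filter_upwards [h1] with p hp ho
    have h2 := (om_tail62 t₀ α f c p).1 ho
    have h3 := hp h2
    have h4 := Fs_tail62 t₀ α f p
    show (fourier 1 ((Fs α' f' p).1 0) : ℂ) * h (Fin.tail (Fs α' f' p).1, (Fs α' f' p).2) = _
    rw [h4, h3]
    have h5 : (Fs α' f' p).1 0 = p.1 0 + t₀ := by
      show (p.1 + α') 0 = _
      rw [Pi.add_apply, hα', Fin.cons_zero]
    rw [h5]
    have h6 : (fourier 1 (p.1 0 + t₀) : ℂ) = fourier 1 (p.1 0) * fourier 1 t₀ := by
      simp only [fourier_apply, smul_add, AddCircle.toCircle_add, Circle.coe_mul]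
    rw [h6]
    show _ = (fourier 1 (p.1 0) : ℂ) * h (Fin.tail p.1, p.2)
    calc (fourier 1 (p.1 0) * fourier 1 t₀ : ℂ) * (ξ * h (Fin.tail p.1, p.2))
        = fourier 1 (p.1 0) * (fourier 1 t₀ * ξ) * h (Fin.tail p.1, p.2) := by ring
      _ = _ := by rw [ht₀, mul_one]
  have h1 := inv_const62 hf'm hA' hN hHm hHe
  have h2 : ∀ᵐ θ' : Td (d + 1), ∃ w : ℂ, ∀ᵐ z : TT, ((Fin.tail θ', z) : Td d × TT) ∈ om α f c →
      h (Fin.tail θ', z) = w := by
    filter_upwards [h1] with θ' hθ
    obtain ⟨w, hw⟩ := hθ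
    have hne : (fourier 1 (θ' 0) : ℂ) ≠ 0 := by
      rw [fourier_apply]
      exact Circle.coe_ne_zero _
    refine ⟨(fourier 1 (θ' 0) : ℂ)⁻¹ * w, ?_⟩
    filter_upwards [hw] with z hz ho
    have h3 := hz ((om_tail62 t₀ α f c (θ', z)).2 ho)
    rw [← h3]
    show _ = (fourier 1 (θ' 0) : ℂ)⁻¹ * ((fourier 1 (θ' 0) : ℂ) * h (Fin.tail θ', z))
    rw [← mul_assoc, inv_mul_cancel₀ hne, one_mul]
  have h3 : ∀ᵐ θ : Td d, ∃ w : ℂ, ∀ᵐ z : TT, ((θ, z) : Td d × TT) ∈ om α f c → h (θ, z) = w :=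
    ae_tail62 (P := fun θ => ∃ w : ℂ, ∀ᵐ z : TT, ((θ, z) : Td d × TT) ∈ om α f c → h (θ, z) = w) h2
  -- the mean over the fibre
  set g : Td d × TT → ℂ := (om α f c).indicator h with hg
  have hgm : Measurable g := hh.indicator hom
  set u : Td d → ℂ := fun θ => (∫ z : TT, g (θ, z)) / (volume.real {z : TT | (θ, z) ∈ om α f c} : ℂ) with hu
  have hum : Measurable u := by
    refine Measurable.div ?_ ?_
    · exact (StronglyMeasurable.integral_prod_right' (ν := (volume : Measure TT)) hgm.stronglyMeasurable).measurable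
    · refine Complex.measurable_ofReal.comp ?_
      exact (measurable_measure_prodMk_left (ν := (volume : Measure TT)) hom).ennreal_toReal
  refine ⟨u, hum, ?_⟩
  have hset : MeasurableSet {p : Td d × TT | p ∈ om α f c → h p = u p.1} := by
    have e : {p : Td d × TT | p ∈ om α f c → h p = u p.1} = (om α f c)ᶜ ∪ {p | h p = u p.1} := by
      ext p
      simp only [Set.mem_ofPred_eq, mem_union, mem_compl_iff]
      tauto
    rw [e]
    exact hom.compl.union (measurableSet_eq_fun hh (hum.comp measurable_fst))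
  rw [show (volume : Measure (Td d × TT)) = (volume : Measure (Td d)).prod (volume : Measure TT) from rfl,
    Measure.ae_prod_iff_ae_ae hset]
  filter_upwards [h3] with θ hθ
  obtain ⟨w, hw⟩ := hθ
  have hfib : MeasurableSet {z : TT | (θ, z) ∈ om α f c} := measurable_prodMk_left hom
  by_cases h0 : volume {z : TT | (θ, z) ∈ om α f c} = 0
  · have : ∀ᵐ z : TT, ¬ ((θ, z) ∈ om α f c) := by
      rw [ae_iff]
      simpa using h0
    filter_upwards [this] with z hz ho
    exact absurd ho hz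
  · have h4 : ∫ z : TT, g (θ, z) = (volume.real {z : TT | (θ, z) ∈ om α f c} : ℂ) * w := by
      have e1 : (fun z : TT => g (θ, z)) =ᵐ[volume] {z : TT | (θ, z) ∈ om α f c}.indicator fun _ => w := by
        filter_upwards [hw] with z hz
        by_cases ho : (θ, z) ∈ om α f c
        · rw [hg, indicator_of_mem ho, indicator_of_mem (show z ∈ {z : TT | (θ, z) ∈ om α f c} from ho), hz ho]
        · rw [hg, indicator_of_notMem ho, indicator_of_notMem (show z ∉ {z : TT | (θ, z) ∈ om α f c} from ho)]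
      rw [integral_congr_ae e1, integral_indicator hfib, setIntegral_const, Complex.real_smul]
    have h5 : (volume.real {z : TT | (θ, z) ∈ om α f c} : ℂ) ≠ 0 := by
      have : volume.real {z : TT | (θ, z) ∈ om α f c} ≠ 0 :=
        (ENNReal.toReal_pos h0 (measure_ne_top _ _)).ne'
      exact_mod_cast this
    have h6 : u θ = w := by
      show (∫ z : TT, g (θ, z)) / _ = w
      rw [h4, mul_comm, mul_div_assoc, div_self h5, mul_one]
    filter_upwards [hw] with z hz ho
    rw [hz ho, ← h6]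

end Pool.Agent.Helper82.AN
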