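import Pool.Agent.Helper82.AN.STor
import Pool.Agent.Helper18.SD.King

/-! Block AN-SEXPO (compare `Helper18/UC/Expo.lean`, `lyaR` in `Helper46/QR/LyaR.lean` and `Helper46/QP/Soft.lean` for the use
of Kingman's theorem `Helper18/SD/King.lean`): the Lyapunov exponent along the fibres.

`log (gN α f (n + m) p) ≤ log (gN α f n p) + log (gN α f m (F^n p))` (`Mx_add`, `nn_mul`, `Fs_iter`, `sq_add`), `0 ≤ log gN`, `gN ≥ 2`
(`nn_ge_two`, `det_Mx`). `lam_mean`: dominated convergence. `lam_le`: `log (gN n) ≤ ∑_{j < n} log (gN 1) ∘ F^j`, integrate over the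
invariant set `E`. -/

set_option autoImplicit false
open MeasureTheory Real Set Filter Topology

namespace Pool.Agent.Helper82.AN

open Pool.Agent.Helper18.UC (nn LL sh clm pt sqo lab rep toT cell)
open Pool.Agent.Helper46.QP (TT Td orb Mx va stp)

variable {d : ℕ}

private theorem gN_ge36 (α : Td d) (f : Td d → ℝ) (n : ℕ) (p : Td d × TT) : 2 ≤ gN α f n p :=
  Pool.Agent.Helper95.PV.nn_ge_two (Pool.Agent.Helper46.QP.det_Mx _ _ _)

private theorem gN_pos36 (α : Td d) (f : Td d → ℝ) (n : ℕ) (p : Td d × TT) : 0 < gN α f n p := by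
  linarith [gN_ge36 α f n p]

private theorem logg36 (α : Td d) (f : Td d → ℝ) (n : ℕ) (p : Td d × TT) :
    0 ≤ Real.log (gN α f n p) :=
  Real.log_nonneg (by linarith [gN_ge36 α f n p])

private theorem L_ge36 {f : Td d → ℝ} {L : ℝ} (hA : ∀ θ, LL (f θ) ≤ L) : 4 ≤ L := by
  have h := hA 0
  unfold Pool.Agent.Helper18.UC.LL at h
  have : 0 ≤ 2 * π * |f 0| := by positivity
  linarith

private theorem log_le36 (α : Td d) {f : Td d → ℝ} {L : ℝ} (hA : ∀ θ, LL (f θ) ≤ L) (n : ℕ)
    (p : Td d × TT) : Real.log (gN α f n p) ≤ Real.log 2 + n * Real.log L := by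
  have hL := L_ge36 hA
  have hpi : 0 < 2 * π := by positivity
  have h := Pool.Agent.Helper46.QP.log_nn_le (A := cA (sq α f p.1)) (K := (L - 4) / (2 * π))
    (by
      apply div_nonneg
      · linarith
      · exact hpi.le) (fun j => by
      unfold cA sq
      rw [Complex.norm_real, Real.norm_eq_abs, le_div_iff₀ hpi]
      have := hA (p.1 + j • α)
      unfold Pool.Agent.Helper18.UC.LL at this
      linarith) p.2 n
  have e : 2 * π * ((L - 4) / (2 * π)) + 4 = L := by
    field_simp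
    ring
  rw [e] at h
  exact h

/-- the cocycle of the logarithms -/
private noncomputable def g36 (α : Td d) (f : Td d → ℝ) (n : ℕ) (p : Td d × TT) : ℝ :=
  if n = 0 then 0 else Real.log (gN α f n p)

private theorem g36_pos {α : Td d} {f : Td d → ℝ} {n : ℕ} (hn : n ≠ 0) (p : Td d × TT) :
    g36 α f n p = Real.log (gN α f n p) := by
  unfold g36
  rw [if_neg hn]

private theorem g36_meas {α : Td d} {f : Td d → ℝ} (hf : Measurable f) (n : ℕ) :
    Measurable (g36 α f n) := by
  unfold g36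
  by_cases hn : n = 0
  · simp only [hn, if_true]
    exact measurable_const
  · simp only [hn, if_false]
    exact (meas_gN hf n).log

private theorem g36_abs (α : Td d) {f : Td d → ℝ} {L : ℝ} (hA : ∀ θ, LL (f θ) ≤ L) (n : ℕ)
    (p : Td d × TT) : |g36 α f n p| ≤ (Real.log 2 + Real.log L) * n := by
  by_cases hn : n = 0
  · subst hn
    simp [g36]
  · rw [g36_pos hn, abs_of_nonneg (logg36 α f n p)]
    refine (log_le36 α hA n p).trans ?_
    have hn1 : (1 : ℝ) ≤ n := by exact_mod_cast Nat.one_le_iff_ne_zero.2 hn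
    have h3 : 0 ≤ Real.log 2 := Real.log_nonneg one_le_two
    nlinarith

private theorem sub36 (α : Td d) (f : Td d → ℝ) (n m : ℕ) (p : Td d × TT) :
    Real.log (gN α f (n + m) p) ≤ Real.log (gN α f n p) + Real.log (gN α f m ((Fs α f)^[n] p)) := by
  obtain ⟨θ, z⟩ := p
  rw [Fs_iter, ← Real.log_mul (gN_pos36 α f n _).ne' (gN_pos36 α f m _).ne']
  refine Real.log_le_log (gN_pos36 _ _ _ _) ?_
  unfold gN
  simp only
  rw [Pool.Agent.Helper46.QP.Mx_add, ← sq_add, mul_comm (nn (Mx (cA (sq α f θ)) z n))]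
  exact Pool.Agent.Helper18.UC.nn_mul _ _

private theorem g36_sub (α : Td d) (f : Td d → ℝ) (n m : ℕ) (p : Td d × TT) :
    g36 α f (n + m) p ≤ g36 α f n p + g36 α f m ((Fs α f)^[n] p) := by
  by_cases hn : n = 0
  · subst hn
    simp [g36]
  by_cases hm : m = 0
  · subst hm
    simp [g36]
  rw [g36_pos hn, g36_pos hm, g36_pos (by omega)]
  exact sub36 α f n m p

theorem ex_lam {α : Td d} {f : Td d → ℝ} (hf : Measurable f) {L : ℝ} (hA : ∀ θ, LL (f θ) ≤ L) :
    ∃ lam : Td d × TT → ℝ, Measurable lam ∧ (∀ p, 0 ≤ lam p ∧ lam p ≤ Real.log L) ∧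
      (∀ᵐ p, lam (Fs α f p) = lam p) ∧
      (∀ᵐ p, Tendsto (fun n : ℕ => Real.log (gN α f n p) / n) atTop (𝓝 (lam p))) ∧
      ∀ c : ℝ, ∀ᵐ p, p ∈ om α f c ↔ c < lam p := by
  have hL := L_ge36 hA
  have hlL : 0 ≤ Real.log L := Real.log_nonneg (by linarith)
  obtain ⟨G, h1, -, h3, h4, -⟩ := Pool.Agent.Helper18.SD.kingman_bdd (Fs_mp (α := α) hf)
    (g36_meas (α := α) hf) (g36_abs α hA) (g36_sub α f)
  have h5 : ∀ᵐ p : Td d × TT, Tendsto (fun n : ℕ => Real.log (gN α f n p) / n) atTop (𝓝 (G p)) := by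
    filter_upwards [h4] with p hp
    refine hp.congr' ?_
    filter_upwards [eventually_ne_atTop 0] with n hn
    rw [g36_pos hn]
  have h6 : ∀ᵐ p : Td d × TT, 0 ≤ G p ∧ G p ≤ Real.log L := by
    filter_upwards [h5] with p hp
    refine ⟨ge_of_tendsto' hp fun n => div_nonneg (logg36 α f n p) (Nat.cast_nonneg n), ?_⟩
    have ht : Tendsto (fun n : ℕ => Real.log 2 / n + Real.log L) atTop (𝓝 (0 + Real.log L)) :=
      (tendsto_const_div_atTop_nhds_zero_nat _).add_const _
    rw [zero_add] at ht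
    refine le_of_tendsto_of_tendsto hp ht ?_
    filter_upwards [eventually_gt_atTop 0] with n hn
    have hn0 : (0 : ℝ) < n := by exact_mod_cast hn
    rw [div_add' _ _ _ hn0.ne', div_le_div_iff_of_pos_right hn0]
    have := log_le36 α hA n p
    linarith
  have h7 : ∀ᵐ p : Td d × TT, max 0 (min (G p) (Real.log L)) = G p := by
    filter_upwards [h6] with p hp
    rw [min_eq_left hp.2, max_eq_right hp.1]
  refine ⟨fun p => max 0 (min (G p) (Real.log L)), measurable_const.max (h1.min measurable_const),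
    fun p => ⟨le_max_left _ _, max_le hlL (min_le_right _ _)⟩, ?_, ?_, ?_⟩
  · filter_upwards [h3] with p hp
    rw [hp]
  · filter_upwards [h5, h7] with p hp hp2
    rw [hp2]
    exact hp
  · intro c
    filter_upwards [h5, h7] with p hp hp2
    rw [hp2]
    change c < _ ↔ _
    rw [hp.liminf_eq]

private theorem prob36 : IsProbabilityMeasure (volume : Measure (Td d × TT)) := by
  infer_instance

private theorem bd36 (α : Td d) {f : Td d → ℝ} {L : ℝ} (hA : ∀ θ, LL (f θ) ≤ L) {n : ℕ}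
    (hn : n ≠ 0) (p : Td d × TT) : |Real.log (gN α f n p) / n| ≤ Real.log 2 + Real.log L := by
  have hn0 : (0 : ℝ) < n := by exact_mod_cast Nat.pos_of_ne_zero hn
  rw [abs_div, abs_of_pos hn0, div_le_iff₀ hn0, ← g36_pos hn]
  exact g36_abs α hA n p

/-- the integrals over any set converge -/
private theorem dom36 {α : Td d} {f : Td d → ℝ} (hf : Measurable f) {L : ℝ}
    (hA : ∀ θ, LL (f θ) ≤ L) {lam : Td d × TT → ℝ}
    (hl : ∀ᵐ p, Tendsto (fun n : ℕ => Real.log (gN α f n p) / n) atTop (𝓝 (lam p)))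
    (E : Set (Td d × TT)) :
    Tendsto (fun n : ℕ => (∫ p in E, Real.log (gN α f (n + 1) p)) / ((n + 1 : ℕ) : ℝ)) atTop
      (𝓝 (∫ p in E, lam p)) := by
  have h := tendsto_integral_of_dominated_convergence (μ := volume.restrict E)
    (F := fun n : ℕ => fun p => Real.log (gN α f (n + 1) p) / ((n + 1 : ℕ) : ℝ)) (f := lam)
    (fun _ => Real.log 2 + Real.log L)
    (fun n => ((meas_gN hf (n + 1)).log.div_const _).aestronglyMeasurable)
    (integrable_const _)
    (fun n => Eventually.of_forall fun p => bd36 α hA (Nat.succ_ne_zero n) p)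
    (by
      filter_upwards [ae_restrict_of_ae hl] with p hp
      exact (tendsto_add_atTop_iff_nat 1).2 hp)
  refine h.congr fun n => ?_
  rw [integral_div]

theorem lam_mean {α : Td d} {f : Td d → ℝ} (hf : Measurable f) {L : ℝ} (hA : ∀ θ, LL (f θ) ≤ L) {lam : Td d × TT → ℝ}
    (hl : ∀ᵐ p, Tendsto (fun n : ℕ => Real.log (gN α f n p) / n) atTop (𝓝 (lam p))) {x : ℝ}
    (hx : ∃ i₀ : ℕ, ∀ i ≥ i₀, x ≤ (∫ p, Real.log (gN α f (2 ^ i) p)) / 2 ^ i) : x ≤ ∫ p, lam p := by
  obtain ⟨i₀, hx⟩ := hx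
  have h := dom36 hf hA hl univ
  simp only [setIntegral_univ] at h
  have h2 : Tendsto (fun i : ℕ => (∫ p, Real.log (gN α f (2 ^ i) p)) / (2 : ℝ) ^ i) atTop
      (𝓝 (∫ p, lam p)) := by
    have h3 := (tendsto_add_atTop_iff_nat (f := fun n : ℕ =>
      (∫ p, Real.log (gN α f n p)) / (n : ℝ)) 1).1 h
    have h4 := h3.comp (tendsto_pow_atTop_atTop_of_one_lt (r := 2) one_lt_two)
    refine h4.congr fun i => ?_
    simp only [Function.comp]
    push_cast
    rfl
  refine ge_of_tendsto h2 ?_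
  filter_upwards [eventually_ge_atTop i₀] with i hi
  exact hx i hi

private theorem int36 {α : Td d} {f : Td d → ℝ} (hf : Measurable f) {L : ℝ}
    (hA : ∀ θ, LL (f θ) ≤ L) (n : ℕ) (E : Set (Td d × TT)) :
    IntegrableOn (fun p => Real.log (gN α f n p)) E := by
  refine Integrable.of_bound (meas_gN hf n).log.aestronglyMeasurable (Real.log 2 + n * Real.log L)
    (Eventually.of_forall fun p => ?_)
  rw [Real.norm_eq_abs, abs_of_nonneg (logg36 α f n p)]
  exact log_le36 α hA n p

theorem lam_le {α : Td d} {f : Td d → ℝ} (hf : Measurable f) {L : ℝ} (hA : ∀ θ, LL (f θ) ≤ L) {lam : Td d × TT → ℝ}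
    (hl : ∀ᵐ p, Tendsto (fun n : ℕ => Real.log (gN α f n p) / n) atTop (𝓝 (lam p))) {E : Set (Td d × TT)}
    (hE : MeasurableSet E) (hinv : Fs α f ⁻¹' E = E) :
    ∫ p in E, lam p ≤ ∫ p in E, Real.log (|va (f p.1 : ℂ) p.2.1| + 2) := by
  have e1 : ∀ p : Td d × TT, Real.log (|va (f p.1 : ℂ) p.2.1| + 2) = Real.log (gN α f 1 p) := by
    intro p
    unfold gN
    rw [Pool.Agent.Helper46.QP.Mx_succ]
    change _ = Real.log (nn (_ * (1 : Matrix (Fin 2) (Fin 2) ℝ)))
    rw [mul_one, Pool.Agent.Helper95.PV.nn_mv]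
    unfold cA sq
    simp [orb]
  simp only [e1]
  have hmp : MeasurePreserving (Fs α f) (volume.restrict E) (volume.restrict E) := by
    have := (Fs_mp (α := α) hf).restrict_preimage hE
    rwa [hinv] at this
  have hiter : ∀ n : ℕ, ∫ p in E, Real.log (gN α f 1 ((Fs α f)^[n] p)) =
      ∫ p in E, Real.log (gN α f 1 p) := by
    intro n
    have h1 := hmp.iterate n
    have h2 := integral_map (μ := volume.restrict E) h1.measurable.aemeasurable
      (f := fun p => Real.log (gN α f 1 p)) (meas_gN hf 1).log.aestronglyMeasurable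
    rw [h1.map_eq] at h2
    exact h2.symm
  have hn : ∀ n : ℕ, ∫ p in E, Real.log (gN α f (n + 1) p) ≤
      ((n + 1 : ℕ) : ℝ) * ∫ p in E, Real.log (gN α f 1 p) := by
    intro n
    induction n with
    | zero => simp
    | succ n ih =>
      have h1 : IntegrableOn (fun p => Real.log (gN α f 1 ((Fs α f)^[n + 1] p))) E := by
        have h2 := (hmp.iterate (n + 1)).integrable_comp_of_integrable (int36 (α := α) hf hA 1 E)
        exact h2
      calc ∫ p in E, Real.log (gN α f (n + 1 + 1) p)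
          ≤ ∫ p in E, (Real.log (gN α f (n + 1) p) + Real.log (gN α f 1 ((Fs α f)^[n + 1] p))) := by
            refine integral_mono (int36 hf hA _ E) ((int36 hf hA _ E).add h1) fun p => ?_
            exact sub36 α f (n + 1) 1 p
        _ = (∫ p in E, Real.log (gN α f (n + 1) p)) +
            ∫ p in E, Real.log (gN α f 1 ((Fs α f)^[n + 1] p)) :=
            integral_add (int36 hf hA _ E) h1
        _ ≤ ((n + 1 : ℕ) : ℝ) * (∫ p in E, Real.log (gN α f 1 p)) +
            ∫ p in E, Real.log (gN α f 1 p) := by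
            rw [hiter]
            linarith
        _ = _ := by
            push_cast
            ring
  refine le_of_tendsto (dom36 hf hA hl E) (Eventually.of_forall fun n => ?_)
  have h0 : (0 : ℝ) < ((n + 1 : ℕ) : ℝ) := by positivity
  rw [div_le_iff₀ h0, mul_comm]
  exact hn n

end Pool.Agent.Helper82.AN
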