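import Pool.Agent.Helper82.AN.STor

/-! Block AN-STEND: growth in both time directions on invariant sets.

`om_inv` as in `Helper18/UC/Expo.lean`. `om_PN`: as there. `tend_fwd`: dominated convergence / continuity of the
measure (`tendsto_diff_PN` in `Helper18/UC/Strips.lean`). `tend_bwd`: compare `family_bwd` in `Strips.lean`: the map
`(θ, z) ↦ (θ + N α, swap (orb .. z N))` preserves the volume, maps `E` to `E^sw` (invariance) and the points with
growth `≥ exp (c N)` forward to the points with growth `≥ exp (c N)` for the backward system (`nn_orb_rev`). -/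

set_option autoImplicit false
open MeasureTheory Real Set Filter

namespace Pool.Agent.Helper82.AN

open Pool.Agent.Helper18.UC (nn LL sh clm pt sqo lab rep toT cell nn_mul nn_nonneg LL_ge)
open Pool.Agent.Helper46.QP (TT Td orb Mx va stp ee Mx_succ Mx_one_add)
open Pool.Agent.Helper95.PV (mv)
open scoped Topology

variable {d : ℕ}

private lemma nn_mv95 {a L : ℝ} (h : LL a ≤ L) (x : UnitAddCircle) : nn (mv (va (a : ℂ) x)) ≤ L := by
  have h1 : |va (a : ℂ) x| ≤ 2 + 2 * π * |a| := by
    unfold va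
    have h2 : |((a : ℂ) * ee x).re| ≤ |a| := by
      refine (Complex.abs_re_le_norm _).trans ?_
      rw [norm_mul, Complex.norm_real, Real.norm_eq_abs]
      have : ‖ee x‖ = 1 := by
        unfold ee
        rw [fourier_apply]
        exact Circle.norm_coe _
      rw [this, mul_one]
    calc |2 + 2 * π * ((a : ℂ) * ee x).re| ≤ |(2:ℝ)| + |2 * π * ((a : ℂ) * ee x).re| := abs_add_le _ _
      _ ≤ 2 + 2 * π * |a| := by
        rw [abs_mul, abs_of_pos (by norm_num : (0:ℝ) < 2), abs_of_pos (by positivity : (0:ℝ) < 2 * π)]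
        have := mul_le_mul_of_nonneg_left h2 (by positivity : (0:ℝ) ≤ 2 * π)
        linarith
  have h3 : nn (mv (va (a : ℂ) x)) = |va (a : ℂ) x| + 2 := by
    unfold nn mv
    simp
    ring
  rw [h3]
  unfold LL at h
  linarith

private lemma nn_adj95 (B : Matrix (Fin 2) (Fin 2) ℝ) : nn B.adjugate = nn B := by
  rw [Matrix.adjugate_fin_two]
  unfold nn
  simp
  ring

private lemma gN_pos95 (α : Td d) (f : Td d → ℝ) (n : ℕ) (p : Td d × TT) : 2 ≤ gN α f n p := by
  unfold gN
  rw [Mx_rep]
  exact two_le_pnn _ _ _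

private lemma gN_succ_le95 {α : Td d} {f : Td d → ℝ} {L : ℝ} (hA : ∀ θ, LL (f θ) ≤ L) (n : ℕ) (p : Td d × TT) :
    gN α f (n + 1) p ≤ L * gN α f n p := by
  unfold gN
  rw [Mx_succ]
  exact (nn_mul _ _).trans (mul_le_mul_of_nonneg_right (nn_mv95 (hA _) _) (nn_nonneg _))

private lemma gN_le_succ95 {α : Td d} {f : Td d → ℝ} {L : ℝ} (hA : ∀ θ, LL (f θ) ≤ L) (n : ℕ) (p : Td d × TT) :
    gN α f n p ≤ L * gN α f (n + 1) p := by
  unfold gN
  rw [Mx_succ]
  set B := mv (va (cA (sq α f p.1) n) (orb (cA (sq α f p.1)) p.2 n).1) with hB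
  set C := Mx (cA (sq α f p.1)) p.2 n with hC
  have h1 : C = B.adjugate * (B * C) := by
    rw [← Matrix.mul_assoc, Matrix.adjugate_mul, Pool.Agent.Helper95.PV.det_mv, one_smul, Matrix.one_mul]
  have h2 : nn C ≤ nn B.adjugate * nn (B * C) := by
    have := nn_mul B.adjugate (B * C)
    rwa [← h1] at this
  rw [nn_adj95] at h2
  exact h2.trans (mul_le_mul_of_nonneg_right (nn_mv95 (hA _) _) (nn_nonneg _))

private lemma cA_shift95 (α : Td d) (f : Td d → ℝ) (θ : Td d) :
    (fun j => cA (sq α f θ) (j + 1)) = cA (sq α f (θ + α)) := by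
  funext j
  unfold cA sq
  rw [succ_nsmul', add_assoc]

private lemma gN_step1_95 {α : Td d} {f : Td d → ℝ} {L : ℝ} (hA : ∀ θ, LL (f θ) ≤ L) (n : ℕ) (p : Td d × TT) :
    gN α f (n + 1) p ≤ L * gN α f n (Fs α f p) := by
  have h0 : cA (sq α f p.1) 0 = ((f p.1 : ℝ) : ℂ) := by
    unfold cA sq
    rw [zero_nsmul, add_zero]
  unfold gN Fs
  rw [Mx_one_add, cA_shift95, h0, mul_comm L]
  exact (nn_mul _ _).trans (mul_le_mul_of_nonneg_left (nn_mv95 (hA _) _) (nn_nonneg _))

private lemma gN_step2_95 {α : Td d} {f : Td d → ℝ} {L : ℝ} (hA : ∀ θ, LL (f θ) ≤ L) (n : ℕ) (p : Td d × TT) :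
    gN α f n (Fs α f p) ≤ L * gN α f (n + 1) p := by
  have h0 : cA (sq α f p.1) 0 = ((f p.1 : ℝ) : ℂ) := by
    unfold cA sq
    rw [zero_nsmul, add_zero]
  unfold gN Fs
  rw [Mx_one_add, cA_shift95, h0, mul_comm L]
  simp only
  set B := mv (va ((f p.1 : ℝ) : ℂ) p.2.1) with hB
  set C := Mx (cA (sq α f (p.1 + α))) (stp ((f p.1 : ℝ) : ℂ) p.2) n with hC
  have h1 : C = C * B * B.adjugate := by
    rw [Matrix.mul_assoc, Matrix.mul_adjugate, Pool.Agent.Helper95.PV.det_mv, one_smul, Matrix.mul_one]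
  have h2 : nn C ≤ nn (C * B) * nn B.adjugate := by
    have := nn_mul (C * B) B.adjugate
    rwa [← h1] at this
  rw [nn_adj95] at h2
  exact h2.trans (mul_le_mul_of_nonneg_left (nn_mv95 (hA _) _) (nn_nonneg _))

private lemma gN_le95 {α : Td d} {f : Td d → ℝ} {L : ℝ} (hA : ∀ θ, LL (f θ) ≤ L) (n : ℕ) (p : Td d × TT) :
    gN α f n p ≤ 2 * L ^ n := by
  induction n with
  | zero =>
    have : gN α f 0 p = 2 := by
      unfold gN Mx nn
      simp
      norm_num
    rw [this]
    norm_num
  | succ n ih =>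
    have hL : 0 ≤ L := by
      have := hA 0
      linarith [LL_ge (f 0)]
    calc gN α f (n + 1) p ≤ L * gN α f n p := gN_succ_le95 hA n p
      _ ≤ L * (2 * L ^ n) := mul_le_mul_of_nonneg_left ih hL
      _ = 2 * L ^ (n + 1) := by ring

private lemma liminf_le95 {u v : ℕ → ℝ} {B : ℝ} (huB : ∀ n, u n ≤ B)
    (hv : ∀ n, 0 ≤ v n) (h : Tendsto (fun n => u n - v n) atTop (𝓝 0)) :
    liminf v atTop ≤ liminf u atTop := by
  refine le_of_forall_lt fun b hb => ?_
  obtain ⟨b', hb1, hb2⟩ := exists_between hb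
  have hbdd : IsBoundedUnder (· ≥ ·) atTop v := isBoundedUnder_of ⟨0, fun n => hv n⟩
  have hcob : IsCoboundedUnder (· ≥ ·) atTop u :=
    IsBoundedUnder.isCoboundedUnder_ge (isBoundedUnder_of ⟨B, fun n => huB n⟩)
  have h1 := eventually_lt_of_lt_liminf hb2 hbdd
  have h2 : ∀ᶠ n in atTop, -((b' - b) / 2) < u n - v n :=
    h.eventually (lt_mem_nhds (by linarith))
  have h3 : ∀ᶠ n in atTop, b + (b' - b) / 2 ≤ u n := by
    filter_upwards [h1, h2] with n h1 h2
    linarith
  have h4 := le_liminf_of_le hcob h3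
  linarith

private lemma liminf_eq95 {u v : ℕ → ℝ} {B : ℝ} (hu : ∀ n, 0 ≤ u n) (huB : ∀ n, u n ≤ B)
    (hv : ∀ n, 0 ≤ v n) (hvB : ∀ n, v n ≤ B) (h : Tendsto (fun n => u n - v n) atTop (𝓝 0)) :
    liminf v atTop = liminf u atTop := by
  refine le_antisymm (liminf_le95 huB hv h) (liminf_le95 hvB hu ?_)
  have h1 := h.neg
  simp only [neg_sub, neg_zero] at h1
  exact h1

private lemma log_diff95 {x y L : ℝ} (hx : 0 < x) (hy : 0 < y) (hL : 0 < L)
    (h1 : x ≤ L * y) (h2 : y ≤ L * x) : |Real.log x - Real.log y| ≤ Real.log L := by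
  have h3 := Real.log_le_log hx h1
  have h4 := Real.log_le_log hy h2
  rw [Real.log_mul hL.ne' hy.ne'] at h3
  rw [Real.log_mul hL.ne' hx.ne'] at h4
  rw [abs_le]
  constructor <;> linarith

private lemma tendsto_quot95 {C : ℝ} {w : ℕ → ℝ} (h : ∀ n, |w n| ≤ C) :
    Tendsto (fun n : ℕ => w n / n) atTop (𝓝 0) := by
  refine squeeze_zero_norm (a := fun n : ℕ => C / n) (fun n => ?_) ?_
  · rw [norm_div, Real.norm_natCast, Real.norm_eq_abs]
    exact div_le_div_of_nonneg_right (h n) (Nat.cast_nonneg n)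
  · exact tendsto_const_div_atTop_nhds_zero_nat C

private lemma quot_nonneg95 (α : Td d) (f : Td d → ℝ) (n : ℕ) (p : Td d × TT) :
    0 ≤ Real.log (gN α f n p) / n :=
  div_nonneg (Real.log_nonneg (by linarith [gN_pos95 α f n p])) (Nat.cast_nonneg n)

private lemma quot_le95 {α : Td d} {f : Td d → ℝ} {L : ℝ} (hA : ∀ θ, LL (f θ) ≤ L) (n : ℕ) (p : Td d × TT) :
    Real.log (gN α f n p) / n ≤ Real.log L + Real.log 2 := by
  have hL : 4 ≤ L := (LL_ge (f 0)).trans (hA 0)
  have h2 : 0 ≤ Real.log 2 := Real.log_nonneg (by norm_num)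
  have h3 : 0 ≤ Real.log L := Real.log_nonneg (by linarith)
  rcases Nat.eq_zero_or_pos n with h | h
  · subst h
    simp only [Nat.cast_zero, div_zero]
    linarith
  · have hn : (1 : ℝ) ≤ n := by exact_mod_cast h
    rw [div_le_iff₀ (by linarith)]
    have h1 := Real.log_le_log (by linarith [gN_pos95 α f n p]) (gN_le95 hA n p)
    rw [Real.log_mul (by norm_num) (pow_pos (by linarith) n).ne', Real.log_pow] at h1
    nlinarith

theorem om_inv {α : Td d} {f : Td d → ℝ} {L : ℝ} (hA : ∀ θ, LL (f θ) ≤ L) (c : ℝ) : Fs α f ⁻¹' om α f c = om α f c := by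
  have hL : 4 ≤ L := (LL_ge (f 0)).trans (hA 0)
  ext p
  have h2 : liminf (fun n : ℕ => Real.log (gN α f n p) / n) atTop =
      liminf (fun n : ℕ => Real.log (gN α f n (Fs α f p)) / n) atTop := by
    refine liminf_eq95 (B := Real.log L + Real.log 2) (fun n => quot_nonneg95 α f n _)
      (fun n => quot_le95 hA n _) (fun n => quot_nonneg95 α f n _) (fun n => quot_le95 hA n _) ?_
    have h3 := tendsto_quot95 (C := 2 * Real.log L) (w := fun n => Real.log (gN α f n (Fs α f p)) -
      Real.log (gN α f n p)) (fun n => by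
        have e0 := gN_pos95 α f n p
        have e1 := gN_pos95 α f n (Fs α f p)
        have e2 := gN_pos95 α f (n + 1) p
        have h4 := log_diff95 (by linarith) (by linarith) (by linarith) (gN_step2_95 hA n p) (gN_step1_95 hA n p)
        have h5 := log_diff95 (by linarith) (by linarith) (by linarith) (gN_succ_le95 hA n p) (gN_le_succ95 hA n p)
        have h6 := abs_sub_le (Real.log (gN α f n (Fs α f p))) (Real.log (gN α f (n + 1) p)) (Real.log (gN α f n p))
        linarith)
    refine h3.congr fun n => ?_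
    rw [sub_div]
  change c < _ ↔ c < _
  rw [h2]

private lemma om_PN95 {α : Td d} {f : Td d → ℝ} {c : ℝ} {p : Td d × TT} (hp : p ∈ om α f c) :
    ∀ᶠ N : ℕ in atTop, p ∈ PN α f c N := by
  have hbdd : IsBoundedUnder (· ≥ ·) atTop (fun n : ℕ => Real.log (gN α f n p) / n) :=
    isBoundedUnder_of ⟨0, fun n => quot_nonneg95 α f n _⟩
  have h1 := eventually_lt_of_lt_liminf hp hbdd
  filter_upwards [h1, eventually_gt_atTop 0] with N hN hN0
  have hN1 : (0 : ℝ) < N := by exact_mod_cast hN0
  rw [lt_div_iff₀ hN1] at hN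
  change Real.exp (c * N) ≤ gN α f N p
  rw [← Real.le_log_iff_exp_le (by linarith [gN_pos95 α f N p])]
  exact hN.le

private lemma prob95 : IsProbabilityMeasure (volume : Measure (Td d × TT)) := by
  have h1 : IsProbabilityMeasure (volume : Measure UnitAddCircle) := ⟨by
    rw [AddCircle.measure_univ, ENNReal.ofReal_one]⟩
  have h2 : IsProbabilityMeasure (volume : Measure TT) := by
    change IsProbabilityMeasure ((volume : Measure UnitAddCircle).prod (volume : Measure UnitAddCircle))
    infer_instance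
  have h3 : IsProbabilityMeasure (volume : Measure (Td d)) := by
    change IsProbabilityMeasure (Measure.pi fun _ => (volume : Measure UnitAddCircle))
    infer_instance
  change IsProbabilityMeasure ((volume : Measure (Td d)).prod (volume : Measure TT))
  infer_instance

theorem tend_fwd {α : Td d} {f : Td d → ℝ} (hf : Measurable f) {c : ℝ} {E : Set (Td d × TT)} (hE : MeasurableSet E)
    (hEΩ : E ⊆ om α f c) : Tendsto (fun N : ℕ => volume (E \ PN α f c N)) atTop (nhds 0) := by
  have := prob95 (d := d)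
  have h := tendsto_measure_of_tendsto_indicator_of_isFiniteMeasure (L := atTop)
    (As := fun N => E \ PN α f c N) (A := (∅ : Set (Td d × TT))) (volume : Measure (Td d × TT))
    (fun N => hE.diff (meas_PN hf c N))
    (by
      intro x
      by_cases hx : x ∈ E
      · filter_upwards [om_PN95 (hEΩ hx)] with N hN
        constructor
        · intro h
          exact absurd hN h.2
        · intro h
          exact absurd h (Set.notMem_empty x)
      · refine Eventually.of_forall fun N => ?_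
        constructor
        · intro h
          exact absurd h.1 hx
        · intro h
          exact absurd h (Set.notMem_empty x))
  rwa [measure_empty] at h

private lemma sig_mp95 : MeasurePreserving (fun p : Td d × TT => (p.1, Prod.swap p.2)) volume volume := by
  have h1 : MeasurePreserving (Prod.swap : TT → TT) volume volume := Measure.measurePreserving_swap
  exact (MeasurePreserving.id (volume : Measure (Td d))).prod h1

private lemma inv_it95 (α : Td d) (f : Td d → ℝ) (N : ℕ) (p : Td d × TT) :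
    (Fs α f)^[N] ((((Fs (-α) (fun θ => f (θ - α)))^[N] p)).1, Prod.swap ((Fs (-α) (fun θ => f (θ - α)))^[N] p).2) =
      (p.1, Prod.swap p.2) := by
  have h1 : ∀ q : Td d × TT, Fs α f ((Fs (-α) (fun θ => f (θ - α)) q).1,
      Prod.swap (Fs (-α) (fun θ => f (θ - α)) q).2) = (q.1, Prod.swap q.2) := by
    intro q
    have h2 := Fs_inv (-α) (fun θ => f (θ - α)) q
    have h3 : (fun θ : Td d => (fun θ => f (θ - α)) (θ - -α)) = f := by
      funext θ
      show f (θ - -α - α) = f θ
      congr 1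
      abel
    rw [h3, neg_neg] at h2
    exact h2
  induction N generalizing p with
  | zero => rfl
  | succ N ih =>
    rw [Function.iterate_succ_apply (Fs α f), Function.iterate_succ_apply' (Fs (-α) _), h1]
    exact ih p

private lemma gN_rev95 (α : Td d) (f : Td d → ℝ) (N : ℕ) (q p : Td d × TT)
    (h : (Fs α f)^[N] q = (p.1, Prod.swap p.2)) :
    gN (-α) (fun θ => f (θ - α)) N p = gN α f N q := by
  have h1 : (Fs α f)^[N] q = (q.1 + N • α, orb (cA (sq α f q.1)) q.2 N) := Fs_iter α f q.1 q.2 N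
  rw [h1] at h
  have h2 : q.1 + N • α = p.1 := congrArg Prod.fst h
  have h3 : orb (cA (sq α f q.1)) q.2 N = Prod.swap p.2 := congrArg Prod.snd h
  have h4 : p.2 = Prod.swap (orb (cA (sq α f q.1)) q.2 N) := by rw [h3, Prod.swap_swap]
  unfold gN
  rw [Mx_rep, Mx_rep, h4, pM_congr (A' := rv (sq α f q.1) N), nn_orb_rev]
  intro j hj
  unfold rv sq
  simp only
  rw [← h2]
  congr 1
  obtain ⟨m, rfl⟩ : ∃ m, N = m + 1 + j := ⟨N - 1 - j, by omega⟩
  have e : m + 1 + j - 1 - j = m := by omega
  rw [e, add_nsmul, add_nsmul, smul_neg, one_nsmul]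
  abel

theorem tend_bwd {α : Td d} {f : Td d → ℝ} (hf : Measurable f) {c : ℝ} {E : Set (Td d × TT)} (hE : MeasurableSet E)
    (hEΩ : E ⊆ om α f c) (hinv : Fs α f ⁻¹' E = E) :
    Tendsto (fun N : ℕ => volume ({p : Td d × TT | (p.1, Prod.swap p.2) ∈ E} \ PN (-α) (fun θ => f (θ - α)) c N))
      atTop (nhds 0) := by
  have hit : ∀ N : ℕ, (Fs α f)^[N] ⁻¹' E = E := by
    intro N
    induction N with
    | zero => rfl
    | succ N ih => rw [Function.iterate_succ', Set.preimage_comp, hinv, ih]
  have hf' : Measurable fun θ : Td d => f (θ - α) := hf.comp (measurable_id.sub_const α)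
  refine tendsto_of_tendsto_of_tendsto_of_le_of_le tendsto_const_nhds (tend_fwd hf hE hEΩ)
    (fun N => zero_le) (fun N => ?_)
  have hΨ : MeasurePreserving (fun p : Td d × TT => ((((Fs (-α) (fun θ => f (θ - α)))^[N] p)).1,
      Prod.swap ((Fs (-α) (fun θ => f (θ - α)))^[N] p).2)) volume volume :=
    sig_mp95.comp ((Fs_mp hf').iterate N)
  have h1 := hΨ.measure_preimage (hE.diff (meas_PN (α := α) hf c N)).nullMeasurableSet
  rw [← h1]
  refine measure_mono ?_
  intro p hp
  have h2 := inv_it95 α f N p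
  refine ⟨?_, ?_⟩
  · rw [← hit N]
    show (Fs α f)^[N] _ ∈ E
    rw [h2]
    exact hp.1
  · intro h3
    apply hp.2
    have h4 := gN_rev95 α f N _ p h2
    show Real.exp (c * N) ≤ gN (-α) (fun θ => f (θ - α)) N p
    rw [h4]
    exact h3

end Pool.Agent.Helper82.AN
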