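import Pool.Agent.Helper82.AN.SSum
import Pool.Agent.Helper82.AN.SBase
import Pool.Agent.Helper82.AN.STend

/-! Block AN-SPOS: invariant subsets of `om` are null or full in almost every fibre.

Let `E ⊆ Ω = om α f c` be invariant, `E' = Ω \ E`. The fibre volumes of `E`, `E'` are invariant under `θ ↦ θ + α`
(`stp` preserves the volume). If the statement fails, there are `v, v' > 0` and `1 < r < 2 prp` such that
`W = {θ | volume.real E_θ ∈ [v, r v], volume.real E'_θ ∈ [v', r v']}` has positive measure (countable cover of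
`(0, 1] × (0, 1]` by such boxes); `W + α = W`. `v1 = v (prp - r/2) / 2`, `v1'` the same with `v'`. Choose `η` with `2 η < v1 v1' / (2 B^2)`. `base` for
`(α, f, E)` (`tend_fwd`): time `n ≥ 1`, set `G ⊆ W` with more than half of the measure of `W`. `base` for the backward system
`(-α, f (· - α), {p | (p.1, swap p.2) ∈ E'})` (`tend_bwd`): `n' ≥ 1`, `G' ⊆ W`. There is `θ ∈ G` with `θ + (n + n') α ∈ G'` (both sets are in
`W`, which is invariant). The backward sequence from `θ + (n + n') α` agrees with `rv (sq α f θ) (n + n')` up to time `n'` (`FamS_congr`).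
`sum_lo`: `E_θ ∩ (orb .. (n + n'))⁻¹ E'_(θ + (n + n') α)` has positive volume; but this set is empty by invariance. -/

set_option autoImplicit false
open MeasureTheory Real Set Filter

namespace Pool.Agent.Helper82.AN

open Pool.Agent.Helper18.UC (nn LL sh clm pt sqo lab rep toT cell)
open Pool.Agent.Helper46.QP (TT Td orb Mx va stp)

variable {d : ℕ}

private theorem inv_iter6 {α : Td d} {f : Td d → ℝ} {E : Set (Td d × TT)} (hinv : Fs α f ⁻¹' E = E) (N : ℕ) :
    (Fs α f)^[N] ⁻¹' E = E := by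
  induction N with
  | zero => rfl
  | succ N ih => rw [Function.iterate_succ', Set.preimage_comp, hinv, ih]

private theorem W_iter6 {α : Td d} {W : Set (Td d)} (hWi : ∀ θ, θ + α ∈ W ↔ θ ∈ W) (N : ℕ) (θ : Td d) :
    θ + N • α ∈ W ↔ θ ∈ W := by
  induction N with
  | zero => rw [zero_nsmul, add_zero]
  | succ N ih => rw [succ_nsmul, ← add_assoc, hWi, ih]

private theorem meet6 {α : Td d} {W G G' : Set (Td d)} (hWi : ∀ θ, θ + α ∈ W ↔ θ ∈ W)
    (hGW : G ⊆ W) (hG'W : G' ⊆ W) (hG : MeasurableSet G) (hG' : MeasurableSet G')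
    (h1 : volume.real W / 2 < volume.real G) (h2 : volume.real W / 2 < volume.real G') (N : ℕ) :
    ∃ θ ∈ G, θ + N • α ∈ G' := by
  by_contra hcon
  push Not at hcon
  set T : Set (Td d) := (fun θ => θ + N • α) ⁻¹' G' with hT
  have hmp : MeasurePreserving (fun θ : Td d => θ + N • α) volume volume :=
    measurePreserving_add_right (volume : Measure (Td d)) (N • α)
  have hTm : MeasurableSet T := hmp.measurable hG'
  have hTv : volume.real T = volume.real G' := by
    rw [measureReal_def, measureReal_def, hT, hmp.measure_preimage hG'.nullMeasurableSet]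
  have hTW : T ⊆ W := fun θ hθ => (W_iter6 hWi N θ).1 (hG'W hθ)
  have hdis : Disjoint G T := by
    rw [Set.disjoint_left]
    intro θ hθ hθ'
    exact hcon θ hθ hθ'
  have h3 : volume.real (G ∪ T) = volume.real G + volume.real T := measureReal_union hdis hTm
  have h4 : volume.real (G ∪ T) ≤ volume.real W := measureReal_mono (union_subset hGW hTW)
  linarith

private theorem swap_vol6 {S : Set TT} (hS : MeasurableSet S) :
    volume.real (Prod.swap ⁻¹' S : Set TT) = volume.real S := by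
  have h : MeasurePreserving (Prod.swap : TT → TT) volume volume := Measure.measurePreserving_swap
  rw [measureReal_def, measureReal_def, h.measure_preimage hS.nullMeasurableSet]

private theorem sec_meas6 {E : Set (Td d × TT)} (hE : MeasurableSet E) (θ : Td d) :
    MeasurableSet {z : TT | (θ, z) ∈ E} := measurable_prodMk_left hE

/-- one choice of the sets -/
theorem no_W {α : Td d} {f : Td d → ℝ} (hf : Measurable f) {L B c : ℝ} (hA : ∀ θ, LL (f θ) ≤ L) (hN : Num L B c)
    {E E' : Set (Td d × TT)} (hE : MeasurableSet E) (hEΩ : E ⊆ om α f c) (hinv : Fs α f ⁻¹' E = E)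
    (hE' : MeasurableSet E') (hEΩ' : E' ⊆ om α f c) (hinv' : Fs α f ⁻¹' E' = E') (hdis : Disjoint E E')
    {W : Set (Td d)} (hW : MeasurableSet W) (hWi : ∀ θ, θ + α ∈ W ↔ θ ∈ W) {v v' r : ℝ} (hv : 0 < v) (hv' : 0 < v')
    (hr1 : 1 ≤ r) (hr : r < 2 * prp L B c)
    (hWv : ∀ θ ∈ W, v ≤ volume.real {z | (θ, z) ∈ E} ∧ volume.real {z | (θ, z) ∈ E} ≤ r * v)
    (hWv' : ∀ θ ∈ W, v' ≤ volume.real {z | (θ, z) ∈ E'} ∧ volume.real {z | (θ, z) ∈ E'} ≤ r * v') :
    volume W = 0 := by
  by_contra hWp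
  have hpr : 0 < prp L B c - r / 2 := by linarith
  set v1 := v * (prp L B c - r / 2) / 2 with hv1
  set v1' := v' * (prp L B c - r / 2) / 2 with hv1'
  have hv1p : 0 < v1 := by positivity
  have hv1p' : 0 < v1' := by positivity
  have hB := hN.hB
  have hBp : 0 < B := by linarith
  set b : ℝ := 1 / (2 * B ^ 2) with hb
  have hb0 : 0 < b := by positivity
  set η : ℝ := b * (v1 * v1') / 4 with hη
  have hη0 : 0 < η := by positivity
  obtain ⟨n, hn, G, hGW, hGm, hGv, hGF⟩ := base hf hA hN hE (tend_fwd hf hE hEΩ) hW hWp hv hr1 hr hWv hη0 1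
  set Eb : Set (Td d × TT) := {p | (p.1, Prod.swap p.2) ∈ E'} with hEb
  have hEbm : MeasurableSet Eb := by
    have : Measurable fun p : Td d × TT => (p.1, Prod.swap p.2) :=
      measurable_fst.prodMk (measurable_swap.comp measurable_snd)
    exact this hE'
  have hf' : Measurable fun θ : Td d => f (θ - α) := hf.comp (measurable_id.sub_const α)
  have hsec : ∀ θ : Td d, {z : TT | (θ, z) ∈ Eb} = Prod.swap ⁻¹' {z : TT | (θ, z) ∈ E'} := fun θ => rfl
  have hWb : ∀ θ ∈ W, v' ≤ volume.real {z | (θ, z) ∈ Eb} ∧ volume.real {z | (θ, z) ∈ Eb} ≤ r * v' := by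
    intro θ hθ
    rw [hsec, swap_vol6 (sec_meas6 hE' θ)]
    exact hWv' θ hθ
  obtain ⟨n', hn', G', hGW', hGm', hGv', hGF'⟩ := base (α := -α) (f := fun θ => f (θ - α)) hf' (fun θ => hA _) hN
    hEbm (tend_bwd hf hE' hEΩ' hinv') hW hWp hv' hr1 hr hWb hη0 1
  obtain ⟨θ, hθ, hθ'⟩ := meet6 hWi hGW hGW' hGm hGm' hGv hGv' (n + n')
  obtain ⟨𝒬, hQ, hQv⟩ := hGF θ hθ
  obtain ⟨𝒬', hQ', hQv'⟩ := hGF' _ hθ'
  have hQ2 : FamS (rv (sq α f θ) (n + n')) L B n' (Prod.swap ⁻¹' {z : TT | (θ + (n + n') • α, z) ∈ E'}) η 𝒬' := by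
    refine FamS_congr ?_ hQ'
    intro j hj
    unfold sq rv
    simp only
    congr 1
    obtain ⟨m, hm⟩ : ∃ m, n + n' = m + 1 + j := ⟨n + n' - 1 - j, by omega⟩
    have e : m + 1 + j - 1 - j = m := by omega
    rw [hm, e, add_nsmul, add_nsmul, smul_neg, one_nsmul]
    abel
  have hs := sum_lo (A := sq α f θ) (L := L) (fun j => hA _) hB hn hn' (sec_meas6 hE θ)
    (sec_meas6 hE' (θ + (n + n') • α)) hη0.le hQ hQ2
  have hemp : {z : TT | (θ, z) ∈ E} ∩ (fun z => orb (cA (sq α f θ)) z (n + n')) ⁻¹'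
      {z : TT | (θ + (n + n') • α, z) ∈ E'} = ∅ := by
    rw [eq_empty_iff_forall_notMem]
    rintro z ⟨h1, h2⟩
    have h3 : (θ, z) ∈ (Fs α f)^[n + n'] ⁻¹' E' := by
      show (Fs α f)^[n + n'] (θ, z) ∈ E'
      rw [Fs_iter]
      exact h2
    rw [inv_iter6 hinv'] at h3
    exact (Set.disjoint_left.1 hdis) h1 h3
  rw [hemp, measureReal_empty] at hs
  have k3 : v1 * v1' ≤ volume.real (⋃₀ 𝒬) * volume.real (⋃₀ 𝒬') :=
    mul_le_mul hQv hQv' hv1p'.le (hv1p.le.trans hQv)
  have k6 : b * (v1 * v1') ≤ b * (volume.real (⋃₀ 𝒬) * volume.real (⋃₀ 𝒬')) :=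
    mul_le_mul_of_nonneg_left k3 hb0.le
  have k8 : 0 < b * (v1 * v1') := mul_pos hb0 (mul_pos hv1p hv1p')
  linarith

/-- the fibre volumes of an invariant set are invariant -/
private theorem fib_inv6 {α : Td d} {f : Td d → ℝ} {E : Set (Td d × TT)} (hE : MeasurableSet E)
    (hinv : Fs α f ⁻¹' E = E) (θ : Td d) :
    volume.real {z : TT | (θ + α, z) ∈ E} = volume.real {z : TT | (θ, z) ∈ E} := by
  have h1 : {z : TT | (θ, z) ∈ E} = stp ((f θ : ℝ) : ℂ) ⁻¹' {z : TT | (θ + α, z) ∈ E} := by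
    ext z
    have : (θ, z) ∈ E ↔ (θ, z) ∈ Fs α f ⁻¹' E := by rw [hinv]
    exact this
  rw [h1, measureReal_def, measureReal_def,
    (Pool.Agent.Helper46.QP.stp_mp _).measure_preimage (sec_meas6 hE (θ + α)).nullMeasurableSet]

theorem nul_full {α : Td d} {f : Td d → ℝ} (hf : Measurable f) {L B c : ℝ} (hA : ∀ θ, LL (f θ) ≤ L) (hN : Num L B c)
    {E : Set (Td d × TT)} (hE : MeasurableSet E) (hEΩ : E ⊆ om α f c) (hinv : Fs α f ⁻¹' E = E) :
    ∀ᵐ θ : Td d, volume {z : TT | (θ, z) ∈ E} = 0 ∨ volume {z : TT | (θ, z) ∈ om α f c \ E} = 0 := by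
  set E' : Set (Td d × TT) := om α f c \ E with hE'd
  have hE' : MeasurableSet E' := (meas_om hf c).diff hE
  have hinv' : Fs α f ⁻¹' E' = E' := by
    rw [hE'd, preimage_sdiff, om_inv hA c, hinv]
  have hgm : ∀ {H : Set (Td d × TT)}, MeasurableSet H → Measurable fun θ : Td d => volume.real {z | (θ, z) ∈ H} := by
    intro H hH
    have h1 : Measurable fun θ : Td d => volume (Prod.mk θ ⁻¹' H) := measurable_measure_prodMk_left hH
    exact h1.ennreal_toReal
  have hp := hN.half
  set p := prp L B c with hpd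
  set r : ℝ := (1 + 2 * p) / 2 with hr
  have hr1 : 1 < r := by rw [hr]; linarith
  have hr2 : r < 2 * p := by rw [hr]; linarith
  have hr0 : 0 < r := by linarith
  set y : ℝ := 1 / r with hy
  have hy0 : 0 < y := by positivity
  have hy1 : y < 1 := by rw [hy, div_lt_one hr0]; exact hr1
  have hry : ∀ k : ℕ, r * y ^ (k + 1) = y ^ k := by
    intro k
    rw [pow_succ, hy]
    field_simp
  set W : ℕ → ℕ → Set (Td d) := fun k l =>
    {θ | y ^ (k + 1) ≤ volume.real {z | (θ, z) ∈ E} ∧ volume.real {z | (θ, z) ∈ E} ≤ r * y ^ (k + 1)} ∩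
    {θ | y ^ (l + 1) ≤ volume.real {z | (θ, z) ∈ E'} ∧ volume.real {z | (θ, z) ∈ E'} ≤ r * y ^ (l + 1)} with hW
  have hWm : ∀ k l, MeasurableSet (W k l) := by
    intro k l
    refine MeasurableSet.inter ?_ ?_
    · exact (measurableSet_le measurable_const (hgm hE)).inter (measurableSet_le (hgm hE) measurable_const)
    · exact (measurableSet_le measurable_const (hgm hE')).inter (measurableSet_le (hgm hE') measurable_const)
  have hW0 : ∀ k l, volume (W k l) = 0 := by
    intro k l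
    refine no_W hf hA hN hE hEΩ hinv hE' sdiff_subset hinv' ?_ (hWm k l) ?_ (pow_pos hy0 (k + 1))
      (pow_pos hy0 (l + 1)) hr1.le hr2 (fun θ hθ => hθ.1) (fun θ hθ => hθ.2)
    · rw [Set.disjoint_left]
      intro q hq hq'
      exact hq'.2 hq
    · intro θ
      simp only [hW, mem_inter_iff, mem_ofPred_eq]
      rw [fib_inv6 hE hinv, fib_inv6 hE' hinv']
  have hun : volume (⋃ k, ⋃ l, W k l) = 0 :=
    measure_iUnion_null fun k => measure_iUnion_null fun l => hW0 k l
  have hae := measure_eq_zero_iff_ae_notMem.1 hun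
  filter_upwards [hae] with θ hθ
  by_contra hcon
  push Not at hcon
  obtain ⟨h1, h2⟩ := hcon
  apply hθ
  have key : ∀ {S : Set TT}, volume S ≠ 0 → ∃ k : ℕ, y ^ (k + 1) ≤ volume.real S ∧ volume.real S ≤ r * y ^ (k + 1) := by
    intro S hS
    have h3 : 0 < volume.real S := ENNReal.toReal_pos hS (measure_ne_top _ _)
    have h4 : volume.real S ≤ 1 := by
      have h5 : volume S ≤ 1 := by
        refine (measure_mono (subset_univ _)).trans (le_of_eq ?_)
        rw [← univ_prod_univ, Measure.volume_eq_prod, Measure.prod_prod, UnitAddCircle.measure_univ, mul_one]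
      exact ENNReal.toReal_le_of_le_ofReal zero_le_one (by rwa [ENNReal.ofReal_one])
    obtain ⟨k, hk1, hk2⟩ := exists_nat_pow_near_of_lt_one h3 h4 hy0 hy1
    exact ⟨k, hk1.le, by rw [hry]; exact hk2⟩
  obtain ⟨k, hk⟩ := key h1
  obtain ⟨l, hl⟩ := key h2
  exact mem_iUnion.2 ⟨k, mem_iUnion.2 ⟨l, hk, hl⟩⟩

end Pool.Agent.Helper82.AN
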