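import Pool.Agent.Helper82.AN.STor
import Pool.Agent.Helper18.UC.Pliss

/-! Block AN-SSEL (port of `Helper18/UC/Sel.lean` to the torus of dimension `d + 2`): there is a large time `n` which is a
hyperbolic time of a proportion `prp L B c` of the points of `W`. `UC.pliss` is for general sequences and can be used
directly, with `g n = log (nn (pM A n q))`, `A := sq α f p.1`. -/

set_option autoImplicit false
open MeasureTheory Real Set

namespace Pool.Agent.Helper82.AN

open Pool.Agent.Helper18.UC (nn LL sh clm pt sqo lab rep toT cell)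
open Pool.Agent.Helper46.QP (TT Td orb Mx va stp)

variable {d : ℕ}

private lemma pnn_pos63 (A : ℕ → ℝ) (n : ℕ) (q : ℝ × ℝ) : 0 < nn (pM A n q) :=
  lt_of_lt_of_le (by norm_num) (two_le_pnn A n q)

/-- many hyperbolic times of a point -/
private lemma count63 {A : ℕ → ℝ} {L B c : ℝ} (hA : Bd A L) (hN : Num L B c) {N : ℕ} (q : ℝ × ℝ)
    (hq : Real.exp (c * N) ≤ nn (pM A N q)) [DecidablePred fun n => Hyp A L B n q] :
    prp L B c * N - 1 ≤ (((Finset.Icc 1 N).filter (fun n : ℕ => Hyp A L B n q)).card : ℝ) := by
  classical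
  have hL4 : 4 ≤ L := Bd_L4 hA
  have hL : 0 < L := by linarith
  have hK : 0 < KL L B := by
    unfold KL
    have hB := hN.hB
    have : 0 < B := by linarith
    positivity
  have hlog : Real.log 2 + Real.log (KL L B) ≤ Real.log L := by
    rw [← Real.log_mul (by norm_num) hK.ne']
    exact Real.log_le_log (by positivity) hN.hL
  have hl2 : 0 < Real.log 2 := Real.log_pos (by norm_num)
  have hAA : Real.log (KL L B) < Real.log L := by linarith
  have h := Pool.Agent.Helper18.UC.pliss (g := fun i => Real.log (nn (pM A i q))) (c := c) (c1 := Real.log (KL L B))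
    (A := Real.log L) hAA (fun i => by
      have h1 := pnn_succ_le hA i q
      have h2 := Real.log_le_log (pnn_pos63 A (i + 1) q) h1
      rw [Real.log_mul hL.ne' (pnn_pos63 A i q).ne'] at h2
      linarith) (N := N) (by
      rw [← Real.log_exp (c * N)]
      exact Real.log_le_log (Real.exp_pos _) hq)
  have h0 : Real.log (nn (pM A 0 q)) / (Real.log L - Real.log (KL L B)) ≤ 1 := by
    have e : pM A 0 q = 1 := rfl
    rw [e, Pool.Agent.Helper18.UC.nn_one, div_le_one (by linarith)]
    linarith
  have hsub : (Finset.Icc 1 N).filter (fun n : ℕ => ∀ i : ℕ, i ≤ n →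
      Real.log (KL L B) * ((n : ℝ) - (i : ℝ)) ≤ Real.log (nn (pM A n q)) - Real.log (nn (pM A i q))) ⊆
      (Finset.Icc 1 N).filter (fun n : ℕ => Hyp A L B n q) := by
    intro n hn
    rw [Finset.mem_filter] at hn ⊢
    refine ⟨hn.1, ?_⟩
    intro i hi
    have h1 := hn.2 i hi
    have h2 : KL L B ^ (n - i) * nn (pM A i q) =
        Real.exp (Real.log (KL L B) * ((n : ℝ) - (i : ℝ)) + Real.log (nn (pM A i q))) := by
      rw [Real.exp_add, Real.exp_log (pnn_pos63 A i q)]
      congr 1
      rw [← Nat.cast_sub hi, mul_comm, ← Real.log_pow, Real.exp_log (pow_pos hK _)]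
    rw [h2]
    calc Real.exp (Real.log (KL L B) * ((n : ℝ) - (i : ℝ)) + Real.log (nn (pM A i q)))
        ≤ Real.exp (Real.log (nn (pM A n q))) := Real.exp_le_exp.2 (by linarith)
      _ = nn (pM A n q) := Real.exp_log (pnn_pos63 A n q)
  have hc : ((((Finset.Icc 1 N).filter (fun n : ℕ => ∀ i : ℕ, i ≤ n →
      Real.log (KL L B) * ((n : ℝ) - (i : ℝ)) ≤
        Real.log (nn (pM A n q)) - Real.log (nn (pM A i q)))).card : ℕ) : ℝ) ≤
      (((Finset.Icc 1 N).filter (fun n : ℕ => Hyp A L B n q)).card : ℝ) := by
    exact_mod_cast Finset.card_le_card hsub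
  unfold prp
  linarith

private lemma prob63 : IsProbabilityMeasure (volume : Measure (Td d × TT)) := by
  have h1 : IsProbabilityMeasure (volume : Measure UnitAddCircle) :=
    ⟨by simp [AddCircle.measure_univ]⟩
  have h2 : IsProbabilityMeasure (volume : Measure (Td d)) := by
    change IsProbabilityMeasure (Measure.pi fun _ : Fin d => (volume : Measure UnitAddCircle))
    infer_instance
  have h3 : IsProbabilityMeasure (volume : Measure TT) := by
    change IsProbabilityMeasure ((volume : Measure UnitAddCircle).prod volume)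
    infer_instance
  change IsProbabilityMeasure ((volume : Measure (Td d)).prod (volume : Measure TT))
  infer_instance

theorem sel {α : Td d} {f : Td d → ℝ} (hf : Measurable f) {L B c : ℝ} (hA : ∀ θ, LL (f θ) ≤ L) (hN : Num L B c)
    {W : Set (Td d × TT)} (hW : MeasurableSet W) {N : ℕ} (hN1 : 1 ≤ N) (n0 : ℕ) :
    ∃ n, n0 < n ∧ prp L B c * volume.real (W ∩ PN α f c N) - (n0 + 1) / N ≤ volume.real (W ∩ HG α f L B n) := by
  classical
  have hprob : IsProbabilityMeasure (volume : Measure (Td d × TT)) := prob63
  have hBd : ∀ θ : Td d, Bd (sq α f θ) L := fun θ j => hA _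
  have hL4 : 4 ≤ L := Bd_L4 (hBd 0)
  set θ := prp L B c with hθ
  have hK : 0 < KL L B := by
    unfold KL
    have hB := hN.hB
    have : 0 < B := by linarith
    positivity
  have hlog : Real.log 2 + Real.log (KL L B) ≤ Real.log L := by
    rw [← Real.log_mul (by norm_num) hK.ne']
    exact Real.log_le_log (by positivity) hN.hL
  have hl2 : 0 < Real.log 2 := Real.log_pos (by norm_num)
  have hθ1 : θ ≤ 1 := by
    rw [hθ, prp, div_le_one (by linarith)]
    linarith [hN.hc2]
  have hθ0 : 0 ≤ θ := div_nonneg (by linarith [hN.hc]) (by linarith)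
  have hNR : (0 : ℝ) < N := by exact_mod_cast hN1
  set P := W ∩ PN α f c N with hP
  have hPm : MeasurableSet P := hW.inter (meas_PN hf c N)
  have hHm : ∀ n, MeasurableSet (W ∩ HG α f L B n) := fun n => hW.inter (meas_HG hf L B n)
  have hP1 : volume.real P ≤ 1 := measureReal_le_one
  have hP0 : 0 ≤ volume.real P := measureReal_nonneg
  -- integrated count
  have hint : (θ * N - 1) * volume.real P ≤ ∑ n ∈ Finset.Icc 1 N, volume.real (W ∩ HG α f L B n) := by
    have e1 : (θ * N - 1) * volume.real P = ∫ z, (θ * N - 1) * P.indicator (fun _ => (1 : ℝ)) z := by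
      rw [integral_const_mul, integral_indicator hPm]
      simp
    have e2 : ∑ n ∈ Finset.Icc 1 N, volume.real (W ∩ HG α f L B n) =
        ∫ z, ∑ n ∈ Finset.Icc 1 N, (W ∩ HG α f L B n).indicator (fun _ => (1 : ℝ)) z := by
      rw [integral_finsetSum]
      · refine Finset.sum_congr rfl fun n _ => ?_
        rw [integral_indicator (hHm n)]
        simp
      · intro n _
        exact (integrable_const (1 : ℝ)).indicator (hHm n)
    rw [e1, e2]
    refine integral_mono (((integrable_const (1 : ℝ)).indicator hPm).const_mul _)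
      (integrable_finsetSum _ fun n _ => (integrable_const (1 : ℝ)).indicator (hHm n)) ?_
    intro z
    by_cases hz : z ∈ P
    · have hz2 : Real.exp (c * N) ≤ nn (pM (sq α f z.1) N (rep z.2)) := by
        rw [← Mx_rep]
        exact hz.2
      have h1 := count63 (hBd z.1) hN (N := N) (rep z.2) hz2
      have h2 : ∑ n ∈ Finset.Icc 1 N, (W ∩ HG α f L B n).indicator (fun _ => (1 : ℝ)) z =
          (((Finset.Icc 1 N).filter (fun n : ℕ => Hyp (sq α f z.1) L B n (rep z.2))).card : ℝ) := by
        rw [Finset.card_filter]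
        push_cast
        refine Finset.sum_congr rfl fun n _ => ?_
        by_cases hn : Hyp (sq α f z.1) L B n (rep z.2)
        · rw [if_pos hn, indicator_of_mem]
          exact ⟨hz.1, hn⟩
        · rw [if_neg hn, indicator_of_notMem]
          intro h
          exact hn h.2
      simp only [h2, indicator_of_mem hz, mul_one]
      exact h1
    · simp only [indicator_of_notMem hz, mul_zero]
      exact Finset.sum_nonneg fun n _ => indicator_nonneg (fun _ _ => zero_le_one) z
  by_contra hcon
  push Not at hcon
  set b := θ * volume.real P - (n0 + 1) / N with hb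
  have hb0 : 0 < b := lt_of_le_of_lt measureReal_nonneg (hcon (n0 + 1) (Nat.lt_succ_self _))
  have hNn : n0 < N := by
    by_contra hle
    push Not at hle
    have h1 : (N : ℝ) ≤ n0 := by exact_mod_cast hle
    have h2 : 1 ≤ ((n0 : ℝ) + 1) / N := by
      rw [le_div_iff₀ hNR]
      linarith
    have h3 : θ * volume.real P ≤ 1 := by nlinarith
    linarith
  have hlt : ∑ n ∈ Finset.Icc 1 N, volume.real (W ∩ HG α f L B n) <
      ∑ n ∈ Finset.Icc 1 N, ((if n ≤ n0 then (1 : ℝ) else 0) + b) := by
    apply Finset.sum_lt_sum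
    · intro n _
      split_ifs with h
      · have : volume.real (W ∩ HG α f L B n) ≤ 1 := measureReal_le_one
        linarith
      · have := hcon n (not_le.1 h)
        linarith
    · refine ⟨N, Finset.mem_Icc.2 ⟨hN1, le_rfl⟩, ?_⟩
      rw [if_neg (by omega)]
      have := hcon N hNn
      linarith
  have hsum : ∑ n ∈ Finset.Icc 1 N, ((if n ≤ n0 then (1 : ℝ) else 0) + b) ≤ n0 + N * b := by
    rw [Finset.sum_add_distrib, Finset.sum_const, Nat.card_Icc, nsmul_eq_mul]
    have h1 : ∑ n ∈ Finset.Icc 1 N, (if n ≤ n0 then (1 : ℝ) else 0) ≤ n0 := by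
      rw [← Finset.sum_filter, Finset.sum_const, nsmul_eq_mul, mul_one]
      have h2 : ((Finset.Icc 1 N).filter (fun n => n ≤ n0)).card ≤ n0 := by
        have h3 : (Finset.Icc 1 N).filter (fun n => n ≤ n0) ⊆ Finset.Icc 1 n0 := by
          intro n hn
          rw [Finset.mem_filter, Finset.mem_Icc] at hn
          exact Finset.mem_Icc.2 ⟨hn.1.1, hn.2⟩
        have := Finset.card_le_card h3
        rw [Nat.card_Icc] at this
        omega
      exact_mod_cast h2
    have h4 : ((N + 1 - 1 : ℕ) : ℝ) = N := by simp
    rw [h4]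
    linarith
  have hNb : N * b = θ * N * volume.real P - (n0 + 1) := by
    rw [hb]
    field_simp
  nlinarith

end Pool.Agent.Helper82.AN
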