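import Pool.Agent.Helper46.QR.Tri

/-! Block AN-TRIP: `tri_sub` (`Helper46/QR/Tri.lean`) with an explicit dependence on `B`.

Cut `[-B, B]` into at most `2 B + 2` intervals `[m, m + 1]`, `|m| ≤ B + 1`. `tri p1 p2 q1 q2 A C κ0 κ1 κ2 (m + y) = tri p1 p2 q1 q2 A C (κ0 - m) (κ1 - 2 m) (κ2 - m) y` (cos, sin are periodic), `|κ0 - m|, |κ2 - m| ≤ 3 B + B + 1`, `|κ1 - 2m| ≤ 5 B + 2`, all at most `3 B'` with `B' = 3 B`.
Copy the proof of `tri_sub` on the domain `[0, 1] ⊆ [-1, 1]` (`Helper59.QR.sub_meas` with `B = 1`) with `c = (8 + 24 π B')⁻¹` (`aff82` with `B'`; it is private, copy it and `pt82`): measure at most `C₁ (1024 ε / (c² ρ⁴))^(1/8)`, `c^(-2/8) ≤ C B^(1/4)`; times `2 B + 2 ≤ 4 B`. -/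

set_option autoImplicit false
open MeasureTheory Real Set

namespace Pool.Agent.Helper82.AN

open Pool.Agent.Helper46.QR (tri)

private theorem big44 {a b : ℝ} {lam x y : ℝ} (hl : 0 < lam) (h : lam ≤ |a| ∨ lam ≤ |b|) (hx0 : 0 ≤ x) (hx1 : x ≤ 1)
    (hxy : 1 / 3 ≤ |x - y|) (h1 : |a + b * x| < lam / 16) (h2 : |a + b * y| < lam / 16) : False := by
  have e : b * (x - y) = (a + b * x) - (a + b * y) := by ring
  have h3 : |b| * |x - y| < lam / 8 := by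
    rw [← abs_mul, e]
    have := abs_sub (a + b * x) (a + b * y)
    linarith
  have h4 : |b| * (1 / 3) ≤ |b| * |x - y| := mul_le_mul_of_nonneg_left hxy (abs_nonneg b)
  have h5 : |b| < 3 * lam / 8 := by linarith
  have h6 : |a| ≤ |a + b * x| + |b| * |x| := by
    have := abs_sub (a + b * x) (b * x)
    rw [add_sub_cancel_right, abs_mul] at this
    exact this
  have h7 : |b| * |x| ≤ |b| := mul_le_of_le_one_right (abs_nonneg b) (by rw [abs_of_nonneg hx0]; exact hx1)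
  rcases h with h | h <;> linarith

/-- one of the points `0, 1/3, 2/3, 1` is good for three affine functions -/
private theorem pt44 {a b c d e f l₁ l₂ l₃ : ℝ} (h₁ : 0 < l₁) (h₂ : 0 < l₂) (h₃ : 0 < l₃) (k₁ : l₁ ≤ |a| ∨ l₁ ≤ |b|)
    (k₂ : l₂ ≤ |c| ∨ l₂ ≤ |d|) (k₃ : l₃ ≤ |e| ∨ l₃ ≤ |f|) :
    ∃ x : ℝ, 0 ≤ x ∧ x ≤ 1 ∧ l₁ / 16 ≤ |a + b * x| ∧ l₂ / 16 ≤ |c + d * x| ∧ l₃ / 16 ≤ |e + f * x| := by
  by_contra hcon
  push Not at hcon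
  have P : ∀ x : ℝ, 0 ≤ x → x ≤ 1 → |a + b * x| < l₁ / 16 ∨ |c + d * x| < l₂ / 16 ∨ |e + f * x| < l₃ / 16 := by
    intro x h0 h1
    by_cases g1 : l₁ / 16 ≤ |a + b * x|
    · by_cases g2 : l₂ / 16 ≤ |c + d * x|
      · exact Or.inr (Or.inr (hcon x h0 h1 g1 g2))
      · exact Or.inr (Or.inl (not_le.1 g2))
    · exact Or.inl (not_le.1 g1)
  have A1 : ∀ x y : ℝ, 0 ≤ x → x ≤ 1 → 1 / 3 ≤ |x - y| → |a + b * x| < l₁ / 16 → |a + b * y| < l₁ / 16 → False :=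
    fun x y p q r s t => big44 h₁ k₁ p q r s t
  have A2 : ∀ x y : ℝ, 0 ≤ x → x ≤ 1 → 1 / 3 ≤ |x - y| → |c + d * x| < l₂ / 16 → |c + d * y| < l₂ / 16 → False :=
    fun x y p q r s t => big44 h₂ k₂ p q r s t
  have A3 : ∀ x y : ℝ, 0 ≤ x → x ≤ 1 → 1 / 3 ≤ |x - y| → |e + f * x| < l₃ / 16 → |e + f * y| < l₃ / 16 → False :=
    fun x y p q r s t => big44 h₃ k₃ p q r s t
  have n01 : (1 : ℝ) / 3 ≤ |0 - 1 / 3| := by norm_num
  have n02 : (1 : ℝ) / 3 ≤ |0 - 2 / 3| := by norm_num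
  have n03 : (1 : ℝ) / 3 ≤ |0 - 1| := by norm_num
  have n12 : (1 : ℝ) / 3 ≤ |1 / 3 - 2 / 3| := by norm_num
  have n13 : (1 : ℝ) / 3 ≤ |1 / 3 - 1| := by norm_num
  have n23 : (1 : ℝ) / 3 ≤ |2 / 3 - 1| := by norm_num
  rcases P 0 (by norm_num) (by norm_num) with p0 | p0 | p0 <;>
  rcases P (1 / 3) (by norm_num) (by norm_num) with p1 | p1 | p1 <;>
  rcases P (2 / 3) (by norm_num) (by norm_num) with p2 | p2 | p2 <;>
  rcases P 1 (by norm_num) (by norm_num) with p3 | p3 | p3 <;>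
  first
    | exact A1 0 (1 / 3) (by norm_num) (by norm_num) n01 p0 p1
    | exact A1 0 (2 / 3) (by norm_num) (by norm_num) n02 p0 p2
    | exact A1 0 1 (by norm_num) (by norm_num) n03 p0 p3
    | exact A1 (1 / 3) (2 / 3) (by norm_num) (by norm_num) n12 p1 p2
    | exact A1 (1 / 3) 1 (by norm_num) (by norm_num) n13 p1 p3
    | exact A1 (2 / 3) 1 (by norm_num) (by norm_num) n23 p2 p3
    | exact A2 0 (1 / 3) (by norm_num) (by norm_num) n01 p0 p1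
    | exact A2 0 (2 / 3) (by norm_num) (by norm_num) n02 p0 p2
    | exact A2 0 1 (by norm_num) (by norm_num) n03 p0 p3
    | exact A2 (1 / 3) (2 / 3) (by norm_num) (by norm_num) n12 p1 p2
    | exact A2 (1 / 3) 1 (by norm_num) (by norm_num) n13 p1 p3
    | exact A2 (2 / 3) 1 (by norm_num) (by norm_num) n23 p2 p3
    | exact A3 0 (1 / 3) (by norm_num) (by norm_num) n01 p0 p1
    | exact A3 0 (2 / 3) (by norm_num) (by norm_num) n02 p0 p2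
    | exact A3 0 1 (by norm_num) (by norm_num) n03 p0 p3
    | exact A3 (1 / 3) (2 / 3) (by norm_num) (by norm_num) n12 p1 p2
    | exact A3 (1 / 3) 1 (by norm_num) (by norm_num) n13 p1 p3
    | exact A3 (2 / 3) 1 (by norm_num) (by norm_num) n23 p2 p3

/-- size of an affine function -/
private theorem aff44 {B ρ p p' C κ σ : ℝ} (hB : 1 ≤ B) (h : 1 ≤ p ^ 2 + p' ^ 2) (hρ : 0 < ρ) (hρ1 : ρ ≤ 1)
    (hC : 2 * π * ρ ≤ |C|) (hC' : |C| ≤ 2 * π / ρ) (hκ : |κ| ≤ 3 * B) (hσ : |σ| = 1) :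
    (8 + 24 * π * B)⁻¹ * ρ ^ 2 ≤ |p * (2 - C * κ) + σ * p'| ∨ (8 + 24 * π * B)⁻¹ * ρ ^ 2 ≤ |p * C| := by
  have hπ := Real.pi_gt_three
  set c : ℝ := (8 + 24 * π * B)⁻¹ with hc
  have hd : 0 < 8 + 24 * π * B := by positivity
  have hc0 : 0 < c := inv_pos.2 hd
  have hc1 : c * (8 + 24 * π * B) = 1 := inv_mul_cancel₀ hd.ne'
  have hc8 : c ≤ 1 / 8 := by
    have : 0 ≤ c * (24 * π * B) := by positivity
    nlinarith
  by_cases hp : c * ρ ≤ |p|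
  · right
    rw [abs_mul]
    calc c * ρ ^ 2 ≤ (c * ρ) * (2 * π * ρ) := by
          have : 0 ≤ c * ρ ^ 2 := by positivity
          nlinarith
      _ ≤ |p| * |C| := mul_le_mul hp hC (by positivity) (abs_nonneg _)
  · left
    have hp := not_le.1 hp
    have h1 : |p * (2 - C * κ)| ≤ 1 / 4 := by
      rw [abs_mul]
      have h2 : |2 - C * κ| ≤ 2 + 2 * π / ρ * (3 * B) := by
        have := abs_sub 2 (C * κ)
        rw [abs_mul, abs_of_pos (by norm_num : (0 : ℝ) < 2)] at this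
        have h3 := mul_le_mul hC' hκ (abs_nonneg _) (by positivity)
        linarith
      have h4 : |p| * |2 - C * κ| ≤ (c * ρ) * (2 + 2 * π / ρ * (3 * B)) :=
        mul_le_mul hp.le h2 (abs_nonneg _) (by positivity)
      have h5 : (c * ρ) * (2 + 2 * π / ρ * (3 * B)) = c * (2 * ρ + 6 * π * B) := by
        field_simp
        ring
      have h6 : c * (2 * ρ + 6 * π * B) ≤ c * (2 + 6 * π * B) :=
        mul_le_mul_of_nonneg_left (by linarith) hc0.le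
      have h7 : c * (2 + 6 * π * B) = 1 / 4 := by nlinarith
      linarith
    have h2 : p ^ 2 ≤ 1 / 64 := by
      rw [← sq_abs]
      have h3 : |p| ≤ 1 / 8 := by nlinarith [abs_nonneg p]
      nlinarith [abs_nonneg p]
    have h3 : 1 / 2 ≤ |p'| := by
      have h4 : (1 / 2 : ℝ) ^ 2 ≤ p' ^ 2 := by nlinarith
      have := sq_le_sq.1 h4
      rwa [abs_of_pos (by norm_num : (0 : ℝ) < 1 / 2)] at this
    have h4 : |p'| - |p * (2 - C * κ)| ≤ |p * (2 - C * κ) + σ * p'| := by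
      have := abs_sub_abs_le_abs_sub (σ * p') (-(p * (2 - C * κ)))
      rw [abs_neg, abs_mul, hσ, one_mul, sub_neg_eq_add, add_comm (σ * p')] at this
      exact this
    have h5 : c * ρ ^ 2 ≤ 1 / 8 := by
      have : ρ ^ 2 ≤ 1 := by nlinarith
      nlinarith
    linarith

private theorem unit44 : ∃ C₁ : ℝ, 0 < C₁ ∧ ∀ B : ℝ, 1 ≤ B → ∀ p1 p2 q1 q2 A C κ0 κ1 κ2 ρ ε : ℝ,
    1 ≤ p1 ^ 2 + p2 ^ 2 → 1 ≤ q1 ^ 2 + q2 ^ 2 → 0 < ρ → ρ ≤ 1 → 2 * π * ρ ≤ |A| → |A| ≤ 2 * π / ρ →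
    2 * π * ρ ≤ |C| → |C| ≤ 2 * π / ρ → |κ0| ≤ 3 * B → |κ1| ≤ 3 * B → |κ2| ≤ 3 * B → 0 < ε →
    volume {x : ℝ | x ∈ Icc (-1 : ℝ) 1 ∧ |tri p1 p2 q1 q2 A C κ0 κ1 κ2 x| < ε} ≤
      ENNReal.ofReal (C₁ * (1024 * (8 + 24 * π * B) ^ 2) ^ ((1 : ℝ) / 8) * (ε / ρ ^ 4) ^ ((1 : ℝ) / 8)) := by
  obtain ⟨C₂, hC₂, hS'⟩ := Pool.Agent.Helper59.QR.sub_meas (B := 1) (by norm_num)
  set C₁ : ℝ := max C₂ (2 * 1) with hC₁d
  have hC₁ : 0 < C₁ := lt_of_lt_of_le hC₂ (le_max_left _ _)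
  have hS : ∀ (p q : Fin 4 → ℝ) (μ : ℝ), 0 < μ →
      (∃ x ∈ Icc (-1 : ℝ) 1, μ ≤ |∑ i, p i * x ^ (i : ℕ)|) → ∀ ε : ℝ, 0 < ε →
      volume {x | x ∈ Icc (-1 : ℝ) 1 ∧
        |(∑ i, p i * x ^ (i : ℕ)) * cos (2 * π * x) + (∑ i, q i * x ^ (i : ℕ)) * sin (2 * π * x)| < ε} ≤
        ENNReal.ofReal (C₁ * (ε / μ) ^ ((1 : ℝ) / 8)) := by
    intro p q μ hμ hx ε hε
    have hy : 0 < ε / μ := div_pos hε hμ
    rcases le_total (ε / μ) 1 with h | h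
    · refine (hS' p q μ hμ hx ε hε).trans (ENNReal.ofReal_le_ofReal ?_)
      exact mul_le_mul (le_max_left _ _) (Real.rpow_le_rpow_of_exponent_ge hy h (by norm_num)) (by positivity) hC₁.le
    · have h1 : volume {x | x ∈ Icc (-1 : ℝ) 1 ∧
          |(∑ i, p i * x ^ (i : ℕ)) * cos (2 * π * x) + (∑ i, q i * x ^ (i : ℕ)) * sin (2 * π * x)| < ε} ≤
          volume (Icc (-1 : ℝ) 1) := measure_mono fun x hx => hx.1
      refine h1.trans ?_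
      rw [Real.volume_Icc]
      refine ENNReal.ofReal_le_ofReal ?_
      have h2 : (1 : ℝ) ≤ (ε / μ) ^ ((1 : ℝ) / 8) := Real.one_le_rpow h (by norm_num)
      have h3 : 2 * 1 ≤ C₁ := le_max_right _ _
      nlinarith
  have hπ := Real.pi_gt_three
  refine ⟨C₁, hC₁, ?_⟩
  intro B hB p1 p2 q1 q2 A C κ0 κ1 κ2 ρ ε hp hq hρ hρ1 hA hA' hC hC' h0 h1 h2 hε
  set c : ℝ := (8 + 24 * π * B)⁻¹ with hc
  have hc0 : 0 < c := inv_pos.2 (by positivity)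
  have hl := aff44 (σ := -1) hB hp hρ hρ1 hC hC' h0 (by norm_num)
  have hr := aff44 (σ := 1) hB hq hρ hρ1 hA hA' h2 (by norm_num)
  have hk : (2 : ℝ) ≤ |κ1| ∨ (2 : ℝ) ≤ |(-2 : ℝ)| := Or.inr (by norm_num)
  rw [← hc] at hl hr
  have hcr : 0 < c * ρ ^ 2 := by positivity
  obtain ⟨x, hx0, hx1, g1, g2, g3⟩ := pt44 (by norm_num : (0 : ℝ) < 2) hcr hcr hk hl hr
  set l0 : ℝ := p1 * (2 - C * κ0) + -1 * p2 with hl0
  set r0 : ℝ := q1 * (2 - A * κ2) + 1 * q2 with hr0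
  set pp : Fin 4 → ℝ := ![2 * π * (κ1 * (r0 * l0)), 2 * π * (κ1 * (r0 * (p1 * C) + q1 * A * l0) - 2 * (r0 * l0)),
    2 * π * (κ1 * (q1 * A * (p1 * C)) - 2 * (r0 * (p1 * C) + q1 * A * l0)), 2 * π * (-2 * (q1 * A * (p1 * C)))] with hpp
  set qq : Fin 4 → ℝ := ![2 * (r0 * l0) - p1 * r0 - q1 * l0,
    2 * (r0 * (p1 * C) + q1 * A * l0) - p1 * (q1 * A) - q1 * (p1 * C), 2 * (q1 * A * (p1 * C)), 0] with hqq
  have eP : ∀ y : ℝ, ∑ i, pp i * y ^ (i : ℕ) =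
      2 * π * (κ1 - 2 * y) * (q1 * (2 + A * (y - κ2)) + q2) * (p1 * (2 + C * (y - κ0)) - p2) := by
    intro y
    rw [Fin.sum_univ_four]
    simp only [hpp, Matrix.cons_val, Fin.val_zero, Fin.val_one, Fin.val_two, pow_zero, pow_one]
    rw [show ((3 : Fin 4) : ℕ) = 3 from rfl, hl0, hr0]
    ring
  have eQ : ∀ y : ℝ, ∑ i, qq i * y ^ (i : ℕ) =
      2 * (q1 * (2 + A * (y - κ2)) + q2) * (p1 * (2 + C * (y - κ0)) - p2) - p1 * (q1 * (2 + A * (y - κ2)) + q2) -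
      q1 * (p1 * (2 + C * (y - κ0)) - p2) := by
    intro y
    rw [Fin.sum_univ_four]
    simp only [hqq, Matrix.cons_val, Fin.val_zero, Fin.val_one, Fin.val_two, pow_zero, pow_one]
    rw [show ((3 : Fin 4) : ℕ) = 3 from rfl, hl0, hr0]
    ring
  have hμ : 0 < c ^ 2 * ρ ^ 4 / 1024 := by positivity
  have hP : c ^ 2 * ρ ^ 4 / 1024 ≤ |∑ i, pp i * x ^ (i : ℕ)| := by
    rw [eP]
    have e1 : 2 * π * (κ1 - 2 * x) * (q1 * (2 + A * (x - κ2)) + q2) * (p1 * (2 + C * (x - κ0)) - p2) =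
        2 * π * ((κ1 + -2 * x) * ((r0 + q1 * A * x) * (l0 + p1 * C * x))) := by
      rw [hl0, hr0]; ring
    rw [e1, abs_mul (2 * π), abs_mul (κ1 + -2 * x), abs_mul (r0 + q1 * A * x), abs_of_pos (by positivity : 0 < 2 * π)]
    have h3 : c * ρ ^ 2 / 16 * (c * ρ ^ 2 / 16) ≤ |r0 + q1 * A * x| * |l0 + p1 * C * x| :=
      mul_le_mul g3 g2 (by positivity) (abs_nonneg _)
    have h4 : 2 / 16 * (c * ρ ^ 2 / 16 * (c * ρ ^ 2 / 16)) ≤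
        |κ1 + -2 * x| * (|r0 + q1 * A * x| * |l0 + p1 * C * x|) :=
      mul_le_mul g1 h3 (by positivity) (abs_nonneg _)
    have h5 : 0 ≤ c ^ 2 * ρ ^ 4 := by positivity
    have h6 := mul_le_mul_of_nonneg_left h4 (by positivity : 0 ≤ 2 * π)
    refine le_trans ?_ h6
    have e2 : 2 * π * (2 / 16 * (c * ρ ^ 2 / 16 * (c * ρ ^ 2 / 16))) = π * (c ^ 2 * ρ ^ 4) / 1024 := by ring
    rw [e2]
    nlinarith
  have hx : x ∈ Icc (-1 : ℝ) 1 := ⟨by linarith, by linarith⟩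
  have hfin := hS pp qq _ hμ ⟨x, hx, hP⟩ ε hε
  have eset : {x : ℝ | x ∈ Icc (-1 : ℝ) 1 ∧ |tri p1 p2 q1 q2 A C κ0 κ1 κ2 x| < ε} =
      {x | x ∈ Icc (-1 : ℝ) 1 ∧ |(∑ i, pp i * x ^ (i : ℕ)) * cos (2 * π * x) + (∑ i, qq i * x ^ (i : ℕ)) *
        sin (2 * π * x)| < ε} := by
    ext y
    simp only [Set.mem_ofPred_eq, eP, eQ, tri]
  rw [eset]
  refine hfin.trans (le_of_eq ?_)
  congr 1
  rw [mul_assoc, ← Real.mul_rpow (by positivity) (by positivity)]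
  congr 2
  rw [hc]
  field_simp

theorem tri_subP : ∃ C₀ : ℝ, 0 < C₀ ∧ ∀ B : ℝ, 1 ≤ B → ∀ p1 p2 q1 q2 A C κ0 κ1 κ2 ρ ε : ℝ,
    1 ≤ p1 ^ 2 + p2 ^ 2 → 1 ≤ q1 ^ 2 + q2 ^ 2 → 0 < ρ → ρ ≤ 1 → 2 * π * ρ ≤ |A| → |A| ≤ 2 * π / ρ →
    2 * π * ρ ≤ |C| → |C| ≤ 2 * π / ρ → |κ0| ≤ 3 * B → |κ1| ≤ 3 * B → |κ2| ≤ 3 * B → 0 < ε →
    volume {x : ℝ | x ∈ Icc (-B) B ∧ |tri p1 p2 q1 q2 A C κ0 κ1 κ2 x| < ε} ≤
      ENNReal.ofReal (C₀ * B ^ 2 * (ε / ρ ^ 4) ^ ((1 : ℝ) / 8)) := by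
  obtain ⟨C₁, hC₁, hU⟩ := unit44
  refine ⟨4 * (C₁ * (1024 * 300 ^ 2) ^ ((1 : ℝ) / 8)), by positivity, ?_⟩
  intro B hB p1 p2 q1 q2 A C κ0 κ1 κ2 ρ ε hp hq hρ hρ1 hA hA' hC hC' h0 h1 h2 hε
  have hπ := Real.pi_gt_three
  have hπ4 := Real.pi_le_four
  have hper : ∀ (m : ℤ) (x : ℝ), tri p1 p2 q1 q2 A C κ0 κ1 κ2 x =
      tri p1 p2 q1 q2 A C (κ0 - m) (κ1 - 2 * m) (κ2 - m) (x - m) := by
    intro m x
    have ec : Real.cos (2 * π * (x - m)) = Real.cos (2 * π * x) := by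
      rw [show 2 * π * (x - m) = 2 * π * x - m * (2 * π) by ring]
      exact Real.cos_sub_int_mul_two_pi _ _
    have es : Real.sin (2 * π * (x - m)) = Real.sin (2 * π * x) := by
      rw [show 2 * π * (x - m) = 2 * π * x - m * (2 * π) by ring]
      exact Real.sin_sub_int_mul_two_pi _ _
    unfold tri
    rw [ec, es, show x - (m : ℝ) - (κ2 - m) = x - κ2 by ring, show x - (m : ℝ) - (κ0 - m) = x - κ0 by ring,
      show κ1 - 2 * (m : ℝ) - 2 * (x - m) = κ1 - 2 * x by ring]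
  set K : ℝ := C₁ * (1024 * (8 + 24 * π * (3 * B)) ^ 2) ^ ((1 : ℝ) / 8) * (ε / ρ ^ 4) ^ ((1 : ℝ) / 8) with hK
  have hK0 : 0 ≤ K := by positivity
  set I : Finset ℤ := Finset.Icc (⌊-B⌋) (⌊B⌋) with hI
  have hsub : {x : ℝ | x ∈ Icc (-B) B ∧ |tri p1 p2 q1 q2 A C κ0 κ1 κ2 x| < ε} ⊆
      ⋃ m ∈ I, (fun x : ℝ => x + -(m : ℝ)) ⁻¹' {y : ℝ | y ∈ Icc (-1 : ℝ) 1 ∧
        |tri p1 p2 q1 q2 A C (κ0 - m) (κ1 - 2 * m) (κ2 - m) y| < ε} := by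
    intro x hx
    obtain ⟨⟨hx1, hx2⟩, hx3⟩ := hx
    simp only [mem_iUnion, mem_preimage]
    refine ⟨⌊x⌋, Finset.mem_Icc.2 ⟨Int.floor_le_floor hx1, Int.floor_le_floor hx2⟩, ⟨?_, ?_⟩, ?_⟩
    · have := Int.floor_le x
      linarith
    · have := Int.lt_floor_add_one x
      linarith
    · rw [← sub_eq_add_neg, ← hper]
      exact hx3
  have hone : ∀ m ∈ I, volume ((fun x : ℝ => x + -(m : ℝ)) ⁻¹' {y : ℝ | y ∈ Icc (-1 : ℝ) 1 ∧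
      |tri p1 p2 q1 q2 A C (κ0 - m) (κ1 - 2 * m) (κ2 - m) y| < ε}) ≤ ENNReal.ofReal K := by
    intro m hm
    rw [measure_preimage_add_right]
    obtain ⟨hm1, hm2⟩ := Finset.mem_Icc.1 hm
    have hm3 : (m : ℝ) ≤ B := (Int.cast_le.2 hm2).trans (Int.floor_le B)
    have hm4 : -B - 1 ≤ (m : ℝ) := by
      have h3 := Int.lt_floor_add_one (-B)
      have h4 : ((⌊-B⌋ : ℤ) : ℝ) ≤ m := Int.cast_le.2 hm1
      linarith
    rw [abs_le] at h0 h1 h2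
    refine hU (3 * B) (by linarith) p1 p2 q1 q2 A C _ _ _ ρ ε hp hq hρ hρ1 hA hA' hC hC' ?_ ?_ ?_ hε
    · rw [abs_le]
      constructor <;> linarith
    · rw [abs_le]
      constructor <;> linarith
    · rw [abs_le]
      constructor <;> linarith
  have hcard : (I.card : ℝ) ≤ 4 * B := by
    rw [hI, Int.card_Icc]
    have h3 : ⌊-B⌋ ≤ ⌊B⌋ := Int.floor_le_floor (by linarith)
    have h4 : ((⌊B⌋ + 1 - ⌊-B⌋).toNat : ℝ) = ((⌊B⌋ + 1 - ⌊-B⌋ : ℤ) : ℝ) := by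
      have : (((⌊B⌋ + 1 - ⌊-B⌋).toNat : ℤ) : ℝ) = ((⌊B⌋ + 1 - ⌊-B⌋ : ℤ) : ℝ) := by
        rw [Int.toNat_of_nonneg (by omega)]
      exact_mod_cast this
    rw [h4]
    push_cast
    have h5 := Int.floor_le B
    have h6 := Int.lt_floor_add_one (-B)
    linarith
  calc volume {x : ℝ | x ∈ Icc (-B) B ∧ |tri p1 p2 q1 q2 A C κ0 κ1 κ2 x| < ε}
      ≤ ∑ m ∈ I, volume ((fun x : ℝ => x + -(m : ℝ)) ⁻¹' {y : ℝ | y ∈ Icc (-1 : ℝ) 1 ∧
        |tri p1 p2 q1 q2 A C (κ0 - m) (κ1 - 2 * m) (κ2 - m) y| < ε}) :=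
        (measure_mono hsub).trans (measure_biUnion_finset_le _ _)
    _ ≤ ∑ _m ∈ I, ENNReal.ofReal K := Finset.sum_le_sum hone
    _ = ENNReal.ofReal (I.card * K) := by
        rw [Finset.sum_const, nsmul_eq_mul, ENNReal.ofReal_mul (Nat.cast_nonneg _), ENNReal.ofReal_natCast]
    _ ≤ ENNReal.ofReal (4 * (C₁ * (1024 * 300 ^ 2) ^ ((1 : ℝ) / 8)) * B ^ 2 * (ε / ρ ^ 4) ^ ((1 : ℝ) / 8)) := by
        refine ENNReal.ofReal_le_ofReal ?_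
        have h3 : (1024 * (8 + 24 * π * (3 * B)) ^ 2) ^ ((1 : ℝ) / 8) ≤ (1024 * 300 ^ 2) ^ ((1 : ℝ) / 8) * B := by
          have h4 : 8 + 24 * π * (3 * B) ≤ 300 * B := by nlinarith
          have h5 : (8 + 24 * π * (3 * B)) ^ 2 ≤ (300 * B) ^ 2 := pow_le_pow_left₀ (by positivity) h4 2
          have h6 : B ^ 2 ≤ B ^ 8 := pow_le_pow_right₀ hB (by norm_num)
          have h7 : 1024 * (8 + 24 * π * (3 * B)) ^ 2 ≤ 1024 * 300 ^ 2 * B ^ 8 := by nlinarith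
          refine (Real.rpow_le_rpow (by positivity) h7 (by norm_num)).trans (le_of_eq ?_)
          rw [Real.mul_rpow (by positivity) (by positivity)]
          congr 1
          rw [← Real.rpow_natCast, ← Real.rpow_mul (by linarith)]
          norm_num
        have h8 : K ≤ C₁ * ((1024 * 300 ^ 2) ^ ((1 : ℝ) / 8) * B) * (ε / ρ ^ 4) ^ ((1 : ℝ) / 8) := by
          rw [hK]
          refine mul_le_mul_of_nonneg_right ?_ (by positivity)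
          exact mul_le_mul_of_nonneg_left h3 hC₁.le
        calc (I.card : ℝ) * K ≤ 4 * B * (C₁ * ((1024 * 300 ^ 2) ^ ((1 : ℝ) / 8) * B) * (ε / ρ ^ 4) ^ ((1 : ℝ) / 8)) :=
              mul_le_mul hcard h8 hK0 (by positivity)
          _ = _ := by ring

end Pool.Agent.Helper82.AN
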